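import Pool.Agent.Lib.MP_2a816b_nt.BH.LSa

/-!
# JOB LSb: the bilinear bound for moduli of level below one half

`ls_num`: Cauchy-Schwarz over `k` and `ls_coprime`; `∑_{l₁,l₂ ∈ S} gcd(q, j (l₁ - l₂)) ≤ L q + 2 |j| L ∑_{0<h≤L} gcd(q, h) ≤ L q + 2 |j| L ^ 2 T`
(`sum_gcd_le`); `∑_q q / φ(q) ^ 2 ≤ T ^ 3` (`div_totient_le`, `sum_inv_totient_le`) and `∑_q 1 / φ(q) ^ 2 ≤ T ^ 2 ∑_{q > Q₁} 1 / q ^ 2 ≤ T ^ 2 / Q₁`.

`ls_full`: every `q ∈ Q` is written `q = g q'`, `g = (q, l)`, so `(q', l) = 1`, `(q', g) = 1`, and conversely (`q` squarefree) `gcd(g q', l) = g`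
iff `g ∣ l` and `(q', l) = 1`. As `g ∣ l`, `bc q (k l + j) = bc g j * bc q' (k l + j)` (`bc_mul`, `bc_congr`). And `|bc g j| ≤ T |j| / g`
(`abs_bc_eq`, `div_totient_le`). For `g ≤ G₀` apply `ls_num` to `{q' : g q' ∈ Q}` (elements `> Q₁ / g ≥ 1`, `1 / (Q₁ / g) ≤ 2 g / Q₁`), the `l ∈ S` divisible
by `g`, and `γ' q' = γ (g q')`; sum over `g` with `∑ 1 / g ≤ T`. For `g > G₀` use the trivial bound: `∑_{q'} |bc q' (k l + j)| ≤ T ^ 3` (`sum_abs_bc_le`;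
`k l + j ≠ 0` because `l > |j|`), at most `K L / g` pairs `(k, l)`, and `∑_{g > G₀} 1 / g ^ 2 ≤ 1 / G₀`.
-/

set_option autoImplicit false

open Finset Real

namespace Pool.Agent.Lib.MP_2a816b_nt.BH

variable {M : ℕ} {T : ℝ}

private lemma lsb_sum_inv_sq (A B : ℕ) (hA : 1 ≤ A) (V : Finset ℕ) (hV : ∀ v ∈ V, A < v ∧ v ≤ B) :
    ∑ v ∈ V, 1 / (v : ℝ) ^ 2 ≤ 1 / (A : ℝ) := by
  have hsub : V ⊆ Ioc A B := fun v hv => mem_Ioc.mpr (hV v hv)
  have h1 : ∑ v ∈ V, 1 / (v : ℝ) ^ 2 ≤ ∑ v ∈ Ioc A B, 1 / (v : ℝ) ^ 2 :=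
    sum_le_sum_of_subset_of_nonneg hsub fun _ _ _ => by positivity
  rcases le_or_gt A B with h | h
  · have h2 := sum_Ioc_inv_sq_le_sub (α := ℝ) (k := A) (n := B) (by omega) h
    have h3 : ∑ v ∈ Ioc A B, 1 / (v : ℝ) ^ 2 = ∑ v ∈ Ioc A B, ((v : ℝ) ^ 2)⁻¹ :=
      sum_congr rfl fun v _ => one_div _
    have h4 : (0 : ℝ) ≤ (B : ℝ)⁻¹ := by positivity
    rw [one_div]
    linarith
  · have h2 : Ioc A B = ∅ := Ioc_eq_empty (by omega)
    rw [h2, sum_empty] at h1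
    have h4 : (0 : ℝ) ≤ 1 / (A : ℝ) := by positivity
    linarith

private lemma lsb_row (f : ℕ → ℝ) (hf : ∀ n, 0 ≤ f n) (L : ℕ) (S : Finset ℕ) (hS : S ⊆ Ioc 0 L)
    (l₁ : ℕ) (hl : l₁ ∈ S) :
    ∑ l₂ ∈ S.erase l₁, f ((l₁ : ℤ) - l₂).natAbs ≤ 2 * ∑ h ∈ Ioc 0 L, f h := by
  have hsplit : ∑ l₂ ∈ S.erase l₁, f ((l₁ : ℤ) - l₂).natAbs =
      ∑ l₂ ∈ (S.erase l₁).filter (fun l₂ => l₂ < l₁), f ((l₁ : ℤ) - l₂).natAbs +
      ∑ l₂ ∈ (S.erase l₁).filter (fun l₂ => ¬ l₂ < l₁), f ((l₁ : ℤ) - l₂).natAbs :=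
    (sum_filter_add_sum_filter_not _ _ _).symm
  have hl1 := mem_Ioc.mp (hS hl)
  have hA : ∑ l₂ ∈ (S.erase l₁).filter (fun l₂ => l₂ < l₁), f ((l₁ : ℤ) - l₂).natAbs ≤
      ∑ h ∈ Ioc 0 L, f h := by
    have hinj : Set.InjOn (fun l₂ : ℕ => ((l₁ : ℤ) - l₂).natAbs)
        ((S.erase l₁).filter (fun l₂ => l₂ < l₁) : Finset ℕ) := by
      intro a ha b hb hab
      have ha' := (mem_filter.mp (mem_coe.mp ha)).2
      have hb' := (mem_filter.mp (mem_coe.mp hb)).2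
      simp only at hab
      omega
    rw [← sum_image (f := f) hinj]
    apply sum_le_sum_of_subset_of_nonneg
    · intro h hh
      obtain ⟨a, ha, rfl⟩ := mem_image.mp hh
      obtain ⟨ha1, ha2⟩ := mem_filter.mp ha
      have ha3 := mem_Ioc.mp (hS (mem_of_mem_erase ha1))
      rw [mem_Ioc]
      omega
    · intro h _ _
      exact hf h
  have hB : ∑ l₂ ∈ (S.erase l₁).filter (fun l₂ => ¬ l₂ < l₁), f ((l₁ : ℤ) - l₂).natAbs ≤
      ∑ h ∈ Ioc 0 L, f h := by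
    have hinj : Set.InjOn (fun l₂ : ℕ => ((l₁ : ℤ) - l₂).natAbs)
        ((S.erase l₁).filter (fun l₂ => ¬ l₂ < l₁) : Finset ℕ) := by
      intro a ha b hb hab
      have ha' := (mem_filter.mp (mem_coe.mp ha)).2
      have hb' := (mem_filter.mp (mem_coe.mp hb)).2
      simp only at hab
      omega
    rw [← sum_image (f := f) hinj]
    apply sum_le_sum_of_subset_of_nonneg
    · intro h hh
      obtain ⟨a, ha, rfl⟩ := mem_image.mp hh
      obtain ⟨ha1, ha2⟩ := mem_filter.mp ha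
      have ha3 := mem_Ioc.mp (hS (mem_of_mem_erase ha1))
      have ha4 := ne_of_mem_erase ha1
      rw [mem_Ioc]
      omega
    · intro h _ _
      exact hf h
  rw [hsplit]
  linarith

private lemma lsb_gcd_mul (q : ℕ) (j h : ℤ) (hj : j ≠ 0) :
    (q.gcd (j * h).natAbs : ℝ) ≤ |(j : ℝ)| * (q.gcd h.natAbs : ℝ) := by
  have h1 : q.gcd (j * h).natAbs ≤ j.natAbs * q.gcd h.natAbs := by
    rw [Int.natAbs_mul]
    have h2 : q.gcd (j.natAbs * h.natAbs) ∣ q.gcd j.natAbs * q.gcd h.natAbs :=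
      Nat.gcd_mul_right_dvd_mul_gcd q j.natAbs h.natAbs
    have h3 : q.gcd j.natAbs * q.gcd h.natAbs ∣ j.natAbs * q.gcd h.natAbs :=
      Nat.mul_dvd_mul_right (Nat.gcd_dvd_right _ _) _
    rcases Nat.eq_zero_or_pos (j.natAbs * q.gcd h.natAbs) with h0 | h0
    · have hj0 : j.natAbs ≠ 0 := Int.natAbs_ne_zero.mpr hj
      have hg0 : q.gcd h.natAbs = 0 := by
        rcases Nat.mul_eq_zero.mp h0 with h | h
        · exact absurd h hj0
        · exact h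
      obtain ⟨hq, hh⟩ := Nat.gcd_eq_zero_iff.mp hg0
      rw [hq, hh]
      simp
    · exact Nat.le_of_dvd h0 (h2.trans h3)
  have h2 : (j.natAbs : ℝ) = |(j : ℝ)| := by
    rw [← Int.cast_abs, Int.abs_eq_natAbs]
    simp
  calc (q.gcd (j * h).natAbs : ℝ) ≤ ((j.natAbs * q.gcd h.natAbs : ℕ) : ℝ) := by exact_mod_cast h1
    _ = |(j : ℝ)| * (q.gcd h.natAbs : ℝ) := by
      push_cast
      rw [h2]

private lemma lsb_double (hB : Big M T) (q : ℕ) (hq0 : 0 < q) (hqM : q ≤ M) (L : ℕ) (S : Finset ℕ)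
    (hS : S ⊆ Ioc 0 L) (j : ℤ) (hj : j ≠ 0) :
    ∑ l₁ ∈ S, ∑ l₂ ∈ S, (q.gcd (j * ((l₁ : ℤ) - l₂)).natAbs : ℝ) ≤
      L * q + 2 * |(j : ℝ)| * (L : ℝ) ^ 2 * T := by
  have hT : (0 : ℝ) ≤ T := by
    have := hB.one
    linarith
  have hgs : ∑ h ∈ Ioc 0 L, (q.gcd h : ℝ) ≤ L * T :=
    (sum_gcd_le q L hq0).trans (mul_le_mul_of_nonneg_left (hB.tau q hq0 hqM) (by positivity))
  have hrow : ∀ l₁ ∈ S, ∑ l₂ ∈ S, (q.gcd (j * ((l₁ : ℤ) - l₂)).natAbs : ℝ) ≤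
      q + 2 * |(j : ℝ)| * (L * T) := by
    intro l₁ hl
    rw [← add_sum_erase S _ hl]
    have h0 : (q.gcd (j * ((l₁ : ℤ) - l₁)).natAbs : ℝ) = q := by simp
    rw [h0]
    have h1 : ∑ l₂ ∈ S.erase l₁, (q.gcd (j * ((l₁ : ℤ) - l₂)).natAbs : ℝ) ≤
        ∑ l₂ ∈ S.erase l₁, |(j : ℝ)| * (q.gcd ((l₁ : ℤ) - l₂).natAbs : ℝ) :=
      sum_le_sum fun l₂ _ => lsb_gcd_mul q j _ hj
    rw [← mul_sum] at h1
    have h2 := lsb_row (fun n => (q.gcd n : ℝ)) (fun n => by positivity) L S hS l₁ hl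
    have h3 : |(j : ℝ)| * ∑ l₂ ∈ S.erase l₁, (q.gcd ((l₁ : ℤ) - l₂).natAbs : ℝ) ≤
        |(j : ℝ)| * (2 * (L * T)) := by
      apply mul_le_mul_of_nonneg_left _ (abs_nonneg _)
      linarith
    linarith
  have hcard : (S.card : ℝ) ≤ L := by
    have := card_le_card hS
    rw [Nat.card_Ioc, Nat.sub_zero] at this
    exact_mod_cast this
  calc ∑ l₁ ∈ S, ∑ l₂ ∈ S, (q.gcd (j * ((l₁ : ℤ) - l₂)).natAbs : ℝ)
      ≤ ∑ _l₁ ∈ S, ((q : ℝ) + 2 * |(j : ℝ)| * (L * T)) := sum_le_sum hrow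
    _ = S.card * ((q : ℝ) + 2 * |(j : ℝ)| * (L * T)) := by rw [sum_const, nsmul_eq_mul]
    _ ≤ L * ((q : ℝ) + 2 * |(j : ℝ)| * (L * T)) := mul_le_mul_of_nonneg_right hcard (by positivity)
    _ = L * q + 2 * |(j : ℝ)| * (L : ℝ) ^ 2 * T := by ring

private lemma lsb_qsum (hB : Big M T) (Q : Finset ℕ) (Q₁ Q₂ : ℕ) (hQ1 : 1 ≤ Q₁)
    (hQ : ∀ q ∈ Q, Squarefree q ∧ Q₁ < q ∧ q ≤ Q₂) (hQM : Q₂ ≤ M) :
    ∑ q ∈ Q, (1 / (q.totient : ℝ)) ^ 2 ≤ T ^ 2 / Q₁ ∧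
      ∑ q ∈ Q, (1 / (q.totient : ℝ)) ^ 2 * q ≤ T ^ 3 := by
  have hT : (0 : ℝ) ≤ T := by
    have := hB.one
    linarith
  have hpos : ∀ q ∈ Q, (0 : ℝ) < q ∧ (0 : ℝ) < (q.totient : ℝ) := by
    intro q hq
    have h := (hQ q hq).2.1
    have h0 : 0 < q := by omega
    exact ⟨by exact_mod_cast h0, by exact_mod_cast Nat.totient_pos.mpr h0⟩
  have hdiv : ∀ q ∈ Q, (q : ℝ) / (q.totient : ℝ) ≤ T := fun q hq =>
    div_totient_le hB (hQ q hq).1 ((hQ q hq).2.2.trans hQM)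
  constructor
  · calc ∑ q ∈ Q, (1 / (q.totient : ℝ)) ^ 2 ≤ ∑ q ∈ Q, T ^ 2 * (1 / (q : ℝ) ^ 2) := by
          apply sum_le_sum
          intro q hq
          obtain ⟨h1, h2⟩ := hpos q hq
          have h3 : (1 / (q.totient : ℝ)) ^ 2 = ((q : ℝ) / (q.totient : ℝ)) ^ 2 * (1 / (q : ℝ) ^ 2) := by
            field_simp
          rw [h3]
          apply mul_le_mul_of_nonneg_right _ (by positivity)
          exact pow_le_pow_left₀ (by positivity) (hdiv q hq) 2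
      _ = T ^ 2 * ∑ q ∈ Q, 1 / (q : ℝ) ^ 2 := by rw [mul_sum]
      _ ≤ T ^ 2 * (1 / Q₁) :=
          mul_le_mul_of_nonneg_left (lsb_sum_inv_sq Q₁ Q₂ hQ1 Q fun q hq => (hQ q hq).2) (by positivity)
      _ = T ^ 2 / Q₁ := by ring
  · calc ∑ q ∈ Q, (1 / (q.totient : ℝ)) ^ 2 * q ≤ ∑ q ∈ Q, T * (1 / (q.totient : ℝ)) := by
          apply sum_le_sum
          intro q hq
          obtain ⟨h1, h2⟩ := hpos q hq
          have h3 : (1 / (q.totient : ℝ)) ^ 2 * q = ((q : ℝ) / (q.totient : ℝ)) * (1 / (q.totient : ℝ)) := by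
            field_simp
          rw [h3]
          exact mul_le_mul_of_nonneg_right (hdiv q hq) (by positivity)
      _ = T * ∑ q ∈ Q, 1 / (q.totient : ℝ) := by rw [mul_sum]
      _ ≤ T * T ^ 2 := mul_le_mul_of_nonneg_left
          (sum_inv_totient_le hB Q fun q hq => ⟨(hQ q hq).1, (hQ q hq).2.2.trans hQM⟩) hT
      _ = T ^ 3 := by ring

theorem ls_num (hB : Big M T) (Q : Finset ℕ) (Q₁ Q₂ : ℕ) (hQ1 : 1 ≤ Q₁)
    (hQ : ∀ q ∈ Q, Squarefree q ∧ Q₁ < q ∧ q ≤ Q₂) (hQM : Q₂ ≤ M)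
    (α β γ : ℕ → ℝ) (hα : ∀ k, |α k| ≤ 1) (hβ : ∀ l, |β l| ≤ 1) (hγ : ∀ q, |γ q| ≤ 1)
    (K L : ℕ) (S : Finset ℕ) (hS : S ⊆ Ioc 0 L) (hL : L ≤ M) (j : ℤ) (hj : j ≠ 0) :
    (∑ k ∈ Ioc 0 K, ∑ l ∈ S, ∑ q ∈ Q.filter (fun q => q.Coprime l),
        α k * (β l * γ q * bc q ((k : ℤ) * l + j))) ^ 2 ≤
      9 * K * ((K : ℝ) + 1 + (Q₂ : ℝ) ^ 2) *
        (T ^ 3 * L + 2 * T ^ 3 * |(j : ℝ)| * (L : ℝ) ^ 2 / Q₁) := by
  have hT : (0 : ℝ) ≤ T := by
    have := hB.one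
    linarith
  rcases Q.eq_empty_or_nonempty with hQe | hQne
  · subst hQe
    have h0 : (∑ k ∈ Ioc 0 K, ∑ l ∈ S, ∑ q ∈ (∅ : Finset ℕ).filter (fun q => q.Coprime l),
        α k * (β l * γ q * bc q ((k : ℤ) * l + j))) = 0 := by simp
    rw [h0]
    have : (0 : ℝ) ≤ 9 * K * ((K : ℝ) + 1 + (Q₂ : ℝ) ^ 2) *
        (T ^ 3 * L + 2 * T ^ 3 * |(j : ℝ)| * (L : ℝ) ^ 2 / Q₁) := by positivity
    simpa using this
  · obtain ⟨q0, hq0⟩ := hQne
    have hQ2 : 1 ≤ Q₂ := by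
      have := (hQ q0 hq0).2
      omega
    have hls := ls_coprime Q Q₂ hQ2 (fun q hq => ⟨(hQ q hq).1, (hQ q hq).2.2⟩) γ hγ S β hβ j K
    obtain ⟨hs1, hs2⟩ := lsb_qsum hB Q Q₁ Q₂ hQ1 hQ hQM
    set D : ℕ → ℝ := fun k => ∑ l ∈ S, ∑ q ∈ Q.filter (fun q => q.Coprime l),
        β l * γ q * bc q ((k : ℤ) * l + j) with hD
    have hsum : ∑ k ∈ Ioc 0 K, ∑ l ∈ S, ∑ q ∈ Q.filter (fun q => q.Coprime l),
        α k * (β l * γ q * bc q ((k : ℤ) * l + j)) = ∑ k ∈ Ioc 0 K, α k * D k := by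
      apply sum_congr rfl
      intro k _
      rw [hD]
      simp only [mul_sum]
    rw [hsum]
    have hcs : (∑ k ∈ Ioc 0 K, α k * D k) ^ 2 ≤ (∑ k ∈ Ioc 0 K, α k ^ 2) * ∑ k ∈ Ioc 0 K, D k ^ 2 :=
      sum_mul_sq_le_sq_mul_sq _ _ _
    have ha : ∑ k ∈ Ioc 0 K, α k ^ 2 ≤ K := by
      calc ∑ k ∈ Ioc 0 K, α k ^ 2 ≤ ∑ _k ∈ Ioc 0 K, (1 : ℝ) := by
            apply sum_le_sum
            intro k _
            rw [← sq_abs]
            exact pow_le_one₀ (abs_nonneg _) (hα k)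
        _ = K := by simp
    have hDle : ∑ k ∈ Ioc 0 K, D k ^ 2 ≤ ∑ k ∈ range (K + 1), D k ^ 2 := by
      apply sum_le_sum_of_subset_of_nonneg
      · intro k hk
        rw [mem_Ioc] at hk
        rw [mem_range]
        omega
      · intro k _ _
        positivity
    have hG : ∑ q ∈ Q, (1 / (q.totient : ℝ)) ^ 2 *
        ∑ l₁ ∈ S, ∑ l₂ ∈ S, (q.gcd (j * ((l₁ : ℤ) - l₂)).natAbs : ℝ) ≤
        T ^ 3 * L + 2 * T ^ 3 * |(j : ℝ)| * (L : ℝ) ^ 2 / Q₁ := by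
      calc ∑ q ∈ Q, (1 / (q.totient : ℝ)) ^ 2 *
          ∑ l₁ ∈ S, ∑ l₂ ∈ S, (q.gcd (j * ((l₁ : ℤ) - l₂)).natAbs : ℝ)
          ≤ ∑ q ∈ Q, (1 / (q.totient : ℝ)) ^ 2 * (L * q + 2 * |(j : ℝ)| * (L : ℝ) ^ 2 * T) := by
            apply sum_le_sum
            intro q hq
            apply mul_le_mul_of_nonneg_left _ (by positivity)
            exact lsb_double hB q (by have := (hQ q hq).2.1; omega) ((hQ q hq).2.2.trans hQM) L S hS j hj
        _ = L * ∑ q ∈ Q, (1 / (q.totient : ℝ)) ^ 2 * q +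
            (2 * |(j : ℝ)| * (L : ℝ) ^ 2 * T) * ∑ q ∈ Q, (1 / (q.totient : ℝ)) ^ 2 := by
            rw [mul_sum, mul_sum, ← sum_add_distrib]
            apply sum_congr rfl
            intro q _
            ring
        _ ≤ L * T ^ 3 + (2 * |(j : ℝ)| * (L : ℝ) ^ 2 * T) * (T ^ 2 / Q₁) := by
            apply add_le_add
            · exact mul_le_mul_of_nonneg_left hs2 (by positivity)
            · exact mul_le_mul_of_nonneg_left hs1 (by positivity)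
        _ = T ^ 3 * L + 2 * T ^ 3 * |(j : ℝ)| * (L : ℝ) ^ 2 / Q₁ := by ring
    calc (∑ k ∈ Ioc 0 K, α k * D k) ^ 2 ≤ (∑ k ∈ Ioc 0 K, α k ^ 2) * ∑ k ∈ Ioc 0 K, D k ^ 2 := hcs
      _ ≤ K * (9 * ((K : ℝ) + 1 + (Q₂ : ℝ) ^ 2) *
          (T ^ 3 * L + 2 * T ^ 3 * |(j : ℝ)| * (L : ℝ) ^ 2 / Q₁)) := by
          apply mul_le_mul ha _ (sum_nonneg fun k _ => by positivity) (by positivity)
          refine hDle.trans (hls.trans ?_)
          exact mul_le_mul_of_nonneg_left hG (by positivity)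
      _ = 9 * K * ((K : ℝ) + 1 + (Q₂ : ℝ) ^ 2) *
        (T ^ 3 * L + 2 * T ^ 3 * |(j : ℝ)| * (L : ℝ) ^ 2 / Q₁) := by ring

private def lsbQ (Q : Finset ℕ) (g : ℕ) : Finset ℕ := (Q.filter (fun q => g ∣ q)).image (fun q => q / g)

private lemma mem_lsbQ {Q : Finset ℕ} {g q' : ℕ} (hg : 0 < g) : q' ∈ lsbQ Q g ↔ g * q' ∈ Q := by
  unfold lsbQ
  rw [mem_image]
  constructor
  · rintro ⟨q, hq, rfl⟩
    obtain ⟨h1, h2⟩ := mem_filter.mp hq
    rw [Nat.mul_div_cancel' h2]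
    exact h1
  · intro h
    exact ⟨g * q', mem_filter.mpr ⟨h, dvd_mul_right _ _⟩, Nat.mul_div_cancel_left _ hg⟩

private lemma lsb_fiber (Q : Finset ℕ) (hQ : ∀ q ∈ Q, Squarefree q) (g l : ℕ) (hg : 0 < g)
    (F : ℕ → ℝ) :
    ∑ q ∈ Q.filter (fun q => q.gcd l = g), F q =
      if g ∣ l then ∑ q' ∈ (lsbQ Q g).filter (fun q' => q'.Coprime l), F (g * q') else 0 := by
  split_ifs with h
  · apply sum_nbij' (i := fun q => q / g) (j := fun q' => g * q')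
    · intro q hq
      obtain ⟨h1, h2⟩ := mem_filter.mp hq
      have hgq : g ∣ q := h2 ▸ Nat.gcd_dvd_left q l
      have hmul : g * (q / g) = q := Nat.mul_div_cancel' hgq
      rw [mem_filter, mem_lsbQ hg, hmul]
      refine ⟨h1, ?_⟩
      have hsq : Squarefree (g * (q / g)) := by
        rw [hmul]
        exact hQ q h1
      have hcop : g.Coprime (q / g) := Nat.coprime_of_squarefree_mul hsq
      have h3 : (q / g).gcd l ∣ q.gcd l :=
        Nat.dvd_gcd ((Nat.gcd_dvd_left _ _).trans (Nat.div_dvd_of_dvd hgq)) (Nat.gcd_dvd_right _ _)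
      rw [h2] at h3
      have h4 : (q / g).gcd l ∣ q / g := Nat.gcd_dvd_left _ _
      exact Nat.eq_one_of_dvd_coprimes hcop h3 h4
    · intro q' hq'
      obtain ⟨h1, h2⟩ := mem_filter.mp hq'
      rw [mem_lsbQ hg] at h1
      rw [mem_filter]
      refine ⟨h1, ?_⟩
      rw [Nat.Coprime.gcd_mul_right_cancel g h2]
      exact Nat.gcd_eq_left h
    · intro q hq
      obtain ⟨h1, h2⟩ := mem_filter.mp hq
      have hgq : g ∣ q := h2 ▸ Nat.gcd_dvd_left q l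
      exact Nat.mul_div_cancel' hgq
    · intro q' _
      exact Nat.mul_div_cancel_left _ hg
    · intro q hq
      obtain ⟨h1, h2⟩ := mem_filter.mp hq
      have hgq : g ∣ q := h2 ▸ Nat.gcd_dvd_left q l
      simp only [Nat.mul_div_cancel' hgq]
  · apply sum_eq_zero
    intro q hq
    obtain ⟨h1, h2⟩ := mem_filter.mp hq
    exact absurd (h2 ▸ Nat.gcd_dvd_right q l) h

private lemma lsb_bc_j (hB : Big M T) {g : ℕ} (hg : Squarefree g) (hgM : g ≤ M) (j : ℤ) (hj : j ≠ 0) :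
    |bc g j| ≤ T * |(j : ℝ)| / g := by
  have hT : (0 : ℝ) ≤ T := by
    have := hB.one
    linarith
  have hg0 : 0 < g := Nat.pos_of_ne_zero hg.ne_zero
  rw [abs_bc_eq hg j]
  set d : ℕ := g.gcd j.natAbs with hd
  have hdg : d ∣ g := Nat.gcd_dvd_left _ _
  have hd0 : 0 < d := Nat.gcd_pos_of_pos_left _ hg0
  have hmul : d * (g / d) = g := Nat.mul_div_cancel' hdg
  have hg'0 : 0 < g / d := Nat.div_pos (Nat.le_of_dvd hg0 hdg) hd0
  have hsq : Squarefree (g / d) := Squarefree.squarefree_of_dvd (Nat.div_dvd_of_dvd hdg) hg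
  have h1 : ((g / d : ℕ) : ℝ) / ((g / d).totient : ℝ) ≤ T :=
    div_totient_le hB hsq ((Nat.div_le_self _ _).trans hgM)
  have hφ : (0 : ℝ) < ((g / d).totient : ℝ) := by exact_mod_cast Nat.totient_pos.mpr hg'0
  have hg'r : (0 : ℝ) < ((g / d : ℕ) : ℝ) := by exact_mod_cast hg'0
  have hgr : (0 : ℝ) < (g : ℝ) := by exact_mod_cast hg0
  have hdr : (0 : ℝ) < (d : ℝ) := by exact_mod_cast hd0
  have hmulr : (d : ℝ) * ((g / d : ℕ) : ℝ) = g := by exact_mod_cast hmul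
  have hdj : (d : ℝ) ≤ |(j : ℝ)| := by
    have h2 : d ≤ j.natAbs := Nat.le_of_dvd (Int.natAbs_pos.mpr hj) (Nat.gcd_dvd_right _ _)
    have h3 : (j.natAbs : ℝ) = |(j : ℝ)| := by
      rw [← Int.cast_abs, Int.abs_eq_natAbs]
      simp
    rw [← h3]
    exact_mod_cast h2
  have h4 : 1 / ((g / d).totient : ℝ) ≤ T / ((g / d : ℕ) : ℝ) := by
    rw [div_le_div_iff₀ hφ hg'r]
    rw [div_le_iff₀ hφ] at h1
    linarith
  refine h4.trans ?_
  rw [div_le_div_iff₀ hg'r hgr, ← hmulr]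
  have h5 : 0 ≤ T * ((g / d : ℕ) : ℝ) := by positivity
  nlinarith [mul_le_mul_of_nonneg_left hdj h5]

theorem ls_full (hB : Big M T) (Q : Finset ℕ) (Q₁ Q₂ G₀ : ℕ) (hG0 : 1 ≤ G₀) (hG : G₀ ≤ Q₁)
    (hQ : ∀ q ∈ Q, Squarefree q ∧ Q₁ < q ∧ q ≤ Q₂) (hQM : Q₂ ≤ M)
    (α β γ : ℕ → ℝ) (hα : ∀ k, |α k| ≤ 1) (hβ : ∀ l, |β l| ≤ 1) (hγ : ∀ q, |γ q| ≤ 1)
    (K L : ℕ) (S : Finset ℕ) (j : ℤ) (hj : j ≠ 0) (hS : ∀ l ∈ S, j.natAbs < l ∧ l ≤ L)
    (hKL : K * L + j.natAbs ≤ M) (hL : L ≤ M) :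
    |∑ k ∈ Ioc 0 K, ∑ l ∈ S, α k * β l * ∑ q ∈ Q, γ q * bc q ((k : ℤ) * l + j)| ≤
      T ^ 2 * |(j : ℝ)| * √(9 * K * ((K : ℝ) + 1 + (Q₂ : ℝ) ^ 2) *
        (T ^ 3 * L + 4 * T ^ 3 * |(j : ℝ)| * (L : ℝ) ^ 2 * G₀ / Q₁)) +
      T ^ 4 * |(j : ℝ)| * (K * L) / G₀ := by
  have hT : (0 : ℝ) ≤ T := by
    have := hB.one
    linarith
  set Bd : ℝ := 9 * K * ((K : ℝ) + 1 + (Q₂ : ℝ) ^ 2) *
        (T ^ 3 * L + 4 * T ^ 3 * |(j : ℝ)| * (L : ℝ) ^ 2 * G₀ / Q₁) with hBd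
  -- the terms
  set Tm : ℕ → ℝ := fun g => ∑ k ∈ Ioc 0 K, ∑ l ∈ S.filter (fun l => g ∣ l),
      ∑ q ∈ (lsbQ Q g).filter (fun q => q.Coprime l),
        α k * (β l * γ (g * q) * bc q ((k : ℤ) * l + j)) with hTm
  have hQsq : ∀ q ∈ Q, Squarefree q := fun q hq => (hQ q hq).1
  -- the decomposition
  have hdec : ∑ k ∈ Ioc 0 K, ∑ l ∈ S, α k * β l * ∑ q ∈ Q, γ q * bc q ((k : ℤ) * l + j) =
      ∑ g ∈ Ioc 0 Q₂, bc g j * Tm g := by
    have h1 : ∀ k ∈ Ioc 0 K, ∀ l ∈ S, α k * β l * ∑ q ∈ Q, γ q * bc q ((k : ℤ) * l + j) =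
        ∑ g ∈ Ioc 0 Q₂, bc g j * (if g ∣ l then ∑ q ∈ (lsbQ Q g).filter (fun q => q.Coprime l),
          α k * (β l * γ (g * q) * bc q ((k : ℤ) * l + j)) else 0) := by
      intro k _ l hl
      have hl0 : 0 < l := by
        have := (hS l hl).1
        omega
      have hmaps : ∀ q ∈ Q, q.gcd l ∈ Ioc 0 Q₂ := by
        intro q hq
        have hq' := hQ q hq
        rw [mem_Ioc]
        refine ⟨Nat.gcd_pos_of_pos_right _ hl0, ?_⟩
        exact (Nat.gcd_le_left _ (by omega)).trans hq'.2.2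
      rw [← sum_fiberwise_of_maps_to hmaps, mul_sum]
      apply sum_congr rfl
      intro g hg
      have hg0 := (mem_Ioc.mp hg).1
      rw [lsb_fiber Q hQsq g l hg0]
      split_ifs with hgl
      · rw [mul_sum, mul_sum]
        apply sum_congr rfl
        intro q' hq'
        have hq'Q := (mem_lsbQ hg0).mp (mem_filter.mp hq').1
        have hcop : g.Coprime q' := Nat.coprime_of_squarefree_mul (hQsq _ hq'Q)
        rw [bc_mul hcop]
        have hcg : bc g ((k : ℤ) * l + j) = bc g j := by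
          apply bc_congr
          have : (k : ℤ) * l + j - j = k * l := by ring
          rw [this]
          exact Dvd.dvd.mul_left (by exact_mod_cast hgl) _
        rw [hcg]
        ring
      · simp
    rw [sum_congr rfl fun k hk => sum_congr rfl fun l hl => h1 k hk l hl]
    have h2 : ∀ k ∈ Ioc 0 K, ∑ l ∈ S, ∑ g ∈ Ioc 0 Q₂, bc g j *
        (if g ∣ l then ∑ q ∈ (lsbQ Q g).filter (fun q => q.Coprime l),
          α k * (β l * γ (g * q) * bc q ((k : ℤ) * l + j)) else 0) =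
        ∑ g ∈ Ioc 0 Q₂, bc g j * ∑ l ∈ S.filter (fun l => g ∣ l),
          ∑ q ∈ (lsbQ Q g).filter (fun q => q.Coprime l),
          α k * (β l * γ (g * q) * bc q ((k : ℤ) * l + j)) := by
      intro k _
      rw [sum_comm]
      apply sum_congr rfl
      intro g _
      rw [← mul_sum, sum_filter]
    rw [sum_congr rfl h2, sum_comm]
    apply sum_congr rfl
    intro g _
    rw [hTm, ← mul_sum]
  -- non squarefree g
  have hTm0 : ∀ g ∈ Ioc 0 Q₂, ¬ Squarefree g → Tm g = 0 := by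
    intro g hg hsq
    have hg0 := (mem_Ioc.mp hg).1
    have hemp : lsbQ Q g = ∅ := by
      rw [eq_empty_iff_forall_notMem]
      intro q' hq'
      apply hsq
      exact Squarefree.squarefree_of_dvd (dvd_mul_right g q') (hQsq _ ((mem_lsbQ hg0).mp hq'))
    rw [hTm]
    simp only [hemp, filter_empty, sum_empty, sum_const_zero]
  -- small g
  have hsmall : ∀ g ∈ Ioc 0 Q₂, g ≤ G₀ → |Tm g| ≤ √Bd := by
    intro g hg hgG
    have hg0 := (mem_Ioc.mp hg).1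
    apply Real.abs_le_sqrt
    have hq1 : 1 ≤ Q₁ / g := (Nat.one_le_div_iff hg0).mpr (hgG.trans hG)
    have hnum := ls_num hB (lsbQ Q g) (Q₁ / g) Q₂ hq1 (by
      intro q' hq'
      have h := hQ _ ((mem_lsbQ hg0).mp hq')
      refine ⟨Squarefree.squarefree_of_dvd (dvd_mul_left q' g) h.1, ?_, ?_⟩
      · rw [Nat.div_lt_iff_lt_mul hg0, mul_comm]
        exact h.2.1
      · exact (Nat.le_mul_of_pos_left q' hg0).trans h.2.2) hQM α β (fun q => γ (g * q)) hα hβ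
        (fun q => hγ _) K L (S.filter (fun l => g ∣ l)) (by
          intro l hl
          have h := hS l (mem_filter.mp hl).1
          rw [mem_Ioc]
          omega) hL j hj
    refine hnum.trans ?_
    rw [hBd]
    apply mul_le_mul_of_nonneg_left _ (by positivity)
    have hgr : (0 : ℝ) < (g : ℝ) := by exact_mod_cast hg0
    have hQ1r : (0 : ℝ) < (Q₁ : ℝ) := by
      have : 0 < Q₁ := by omega
      exact_mod_cast this
    have hq1r : (0 : ℝ) < ((Q₁ / g : ℕ) : ℝ) := by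
      have : 0 < Q₁ / g := by omega
      exact_mod_cast this
    have hle : (Q₁ : ℝ) ≤ 2 * G₀ * ((Q₁ / g : ℕ) : ℝ) := by
      have h1 : Q₁ ≤ 2 * G₀ * (Q₁ / g) := by
        have h2 : Q₁ < g * (Q₁ / g) + g := by
          have := Nat.div_add_mod Q₁ g
          have h3 := Nat.mod_lt Q₁ hg0
          omega
        have h4 : g * 1 ≤ g * (Q₁ / g) := Nat.mul_le_mul_left g hq1
        have h5 : g * (Q₁ / g) ≤ G₀ * (Q₁ / g) := Nat.mul_le_mul_right _ hgG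
        have h6 : 2 * G₀ * (Q₁ / g) = G₀ * (Q₁ / g) + G₀ * (Q₁ / g) := by ring
        omega
      exact_mod_cast h1
    have hfrac : 1 / ((Q₁ / g : ℕ) : ℝ) ≤ 2 * G₀ / Q₁ := by
      rw [div_le_div_iff₀ hq1r hQ1r]
      linarith
    have h7 : 2 * T ^ 3 * |(j : ℝ)| * (L : ℝ) ^ 2 / ((Q₁ / g : ℕ) : ℝ) ≤
        4 * T ^ 3 * |(j : ℝ)| * (L : ℝ) ^ 2 * G₀ / Q₁ := by
      calc 2 * T ^ 3 * |(j : ℝ)| * (L : ℝ) ^ 2 / ((Q₁ / g : ℕ) : ℝ) =
          2 * T ^ 3 * |(j : ℝ)| * (L : ℝ) ^ 2 * (1 / ((Q₁ / g : ℕ) : ℝ)) := by ring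
        _ ≤ 2 * T ^ 3 * |(j : ℝ)| * (L : ℝ) ^ 2 * (2 * G₀ / Q₁) :=
          mul_le_mul_of_nonneg_left hfrac (by positivity)
        _ = 4 * T ^ 3 * |(j : ℝ)| * (L : ℝ) ^ 2 * G₀ / Q₁ := by ring
    linarith
  -- large g
  have hlarge : ∀ g ∈ Ioc 0 Q₂, |Tm g| ≤ K * (L / g) * T ^ 3 := by
    intro g hg
    have hg0 := (mem_Ioc.mp hg).1
    have hrow : ∀ k ∈ Ioc 0 K, ∀ l ∈ S.filter (fun l => g ∣ l),
        |∑ q ∈ (lsbQ Q g).filter (fun q => q.Coprime l),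
          α k * (β l * γ (g * q) * bc q ((k : ℤ) * l + j))| ≤ T ^ 3 := by
      intro k hk l hl
      have hl' := hS l (mem_filter.mp hl).1
      have hk' := mem_Ioc.mp hk
      have hkl : l ≤ k * l := Nat.le_mul_of_pos_left l (by omega)
      have hkl2 : k * l ≤ K * L := Nat.mul_le_mul hk'.2 hl'.2
      have hcast : ((k : ℤ) * l + j) = ((k * l : ℕ) : ℤ) + j := by push_cast; ring
      have hne : (k : ℤ) * l + j ≠ 0 := by
        rw [hcast]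
        omega
      have hM : ((k : ℤ) * l + j).natAbs ≤ M := by
        rw [hcast]
        omega
      calc |∑ q ∈ (lsbQ Q g).filter (fun q => q.Coprime l),
          α k * (β l * γ (g * q) * bc q ((k : ℤ) * l + j))|
          ≤ ∑ q ∈ (lsbQ Q g).filter (fun q => q.Coprime l),
          |α k * (β l * γ (g * q) * bc q ((k : ℤ) * l + j))| := abs_sum_le_sum_abs _ _
        _ ≤ ∑ q ∈ (lsbQ Q g).filter (fun q => q.Coprime l), |bc q ((k : ℤ) * l + j)| := by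
          apply sum_le_sum
          intro q _
          rw [abs_mul, abs_mul, abs_mul]
          have h1 := hα k
          have h2 := hβ l
          have h3 := hγ (g * q)
          have h4 : |β l| * |γ (g * q)| ≤ 1 := mul_le_one₀ h2 (abs_nonneg _) h3
          have h5 : |α k| * (|β l| * |γ (g * q)|) ≤ 1 :=
            mul_le_one₀ h1 (mul_nonneg (abs_nonneg _) (abs_nonneg _)) h4
          calc |α k| * (|β l| * |γ (g * q)| * |bc q ((k : ℤ) * l + j)|) =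
              |α k| * (|β l| * |γ (g * q)|) * |bc q ((k : ℤ) * l + j)| := by ring
            _ ≤ 1 * |bc q ((k : ℤ) * l + j)| := mul_le_mul_of_nonneg_right h5 (abs_nonneg _)
            _ = |bc q ((k : ℤ) * l + j)| := one_mul _
        _ ≤ T ^ 3 := by
          apply sum_abs_bc_le hB _ _ _ hne hM
          intro q hq
          have hqQ := (mem_lsbQ hg0).mp (mem_filter.mp hq).1
          have h := hQ _ hqQ
          refine ⟨Squarefree.squarefree_of_dvd (dvd_mul_left q g) h.1, ?_⟩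
          exact ((Nat.le_mul_of_pos_left q hg0).trans h.2.2).trans hQM
    have hcount : ((S.filter (fun l => g ∣ l)).card : ℝ) ≤ (L : ℝ) / g := by
      have h1 : S.filter (fun l => g ∣ l) ⊆ (Ioc 0 L).filter (fun l => g ∣ l) := by
        intro l hl
        obtain ⟨h2, h3⟩ := mem_filter.mp hl
        have h4 := hS l h2
        rw [mem_filter, mem_Ioc]
        exact ⟨⟨by omega, h4.2⟩, h3⟩
      have h2 := card_le_card h1
      rw [Nat.Ioc_filter_dvd_card_eq_div] at h2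
      calc ((S.filter (fun l => g ∣ l)).card : ℝ) ≤ ((L / g : ℕ) : ℝ) := by exact_mod_cast h2
        _ ≤ (L : ℝ) / g := Nat.cast_div_le
    calc |Tm g| ≤ ∑ k ∈ Ioc 0 K, |∑ l ∈ S.filter (fun l => g ∣ l),
          ∑ q ∈ (lsbQ Q g).filter (fun q => q.Coprime l),
          α k * (β l * γ (g * q) * bc q ((k : ℤ) * l + j))| := abs_sum_le_sum_abs _ _
      _ ≤ ∑ _k ∈ Ioc 0 K, ((L : ℝ) / g) * T ^ 3 := by
          apply sum_le_sum
          intro k hk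
          calc |∑ l ∈ S.filter (fun l => g ∣ l), ∑ q ∈ (lsbQ Q g).filter (fun q => q.Coprime l),
              α k * (β l * γ (g * q) * bc q ((k : ℤ) * l + j))|
              ≤ ∑ l ∈ S.filter (fun l => g ∣ l), |∑ q ∈ (lsbQ Q g).filter (fun q => q.Coprime l),
              α k * (β l * γ (g * q) * bc q ((k : ℤ) * l + j))| := abs_sum_le_sum_abs _ _
            _ ≤ ∑ _l ∈ S.filter (fun l => g ∣ l), T ^ 3 := sum_le_sum fun l hl => hrow k hk l hl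
            _ = (S.filter (fun l => g ∣ l)).card * T ^ 3 := by rw [sum_const, nsmul_eq_mul]
            _ ≤ ((L : ℝ) / g) * T ^ 3 := mul_le_mul_of_nonneg_right hcount (by positivity)
      _ = K * (L / g) * T ^ 3 := by
          rw [sum_const, nsmul_eq_mul, Nat.card_Ioc, Nat.sub_zero]
          ring
  rw [hdec]
  have hbound : |∑ g ∈ Ioc 0 Q₂, bc g j * Tm g| ≤
      ∑ g ∈ (Ioc 0 Q₂).filter (fun g => g ≤ G₀), T * |(j : ℝ)| / g * √Bd +
      ∑ g ∈ (Ioc 0 Q₂).filter (fun g => ¬ g ≤ G₀), T * |(j : ℝ)| / g * (K * (L / g) * T ^ 3) := by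
    have hbcj : ∀ g ∈ Ioc 0 Q₂, |bc g j * Tm g| ≤ T * |(j : ℝ)| / g * |Tm g| := by
      intro g hg
      have hg' := mem_Ioc.mp hg
      rw [abs_mul]
      by_cases hsq : Squarefree g
      · exact mul_le_mul_of_nonneg_right (lsb_bc_j hB hsq (hg'.2.trans hQM) j hj) (abs_nonneg _)
      · rw [hTm0 g hg hsq]
        simp
    refine (abs_sum_le_sum_abs _ _).trans ?_
    rw [← sum_filter_add_sum_filter_not (Ioc 0 Q₂) (fun g => g ≤ G₀)]
    apply add_le_add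
    · apply sum_le_sum
      intro g hg
      obtain ⟨h1, h2⟩ := mem_filter.mp hg
      exact (hbcj g h1).trans (mul_le_mul_of_nonneg_left (hsmall g h1 h2) (by positivity))
    · apply sum_le_sum
      intro g hg
      obtain ⟨h1, h2⟩ := mem_filter.mp hg
      exact (hbcj g h1).trans (mul_le_mul_of_nonneg_left (hlarge g h1) (by positivity))
  refine hbound.trans (add_le_add ?_ ?_)
  · have h1 : ∑ g ∈ (Ioc 0 Q₂).filter (fun g => g ≤ G₀), T * |(j : ℝ)| / g * √Bd =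
        (T * |(j : ℝ)| * √Bd) * ∑ g ∈ (Ioc 0 Q₂).filter (fun g => g ≤ G₀), (1 : ℝ) / g := by
      rw [mul_sum]
      apply sum_congr rfl
      intro g _
      ring
    rw [h1]
    have h2 : ∑ g ∈ (Ioc 0 Q₂).filter (fun g => g ≤ G₀), (1 : ℝ) / g ≤ T := by
      refine le_trans ?_ (sum_inv_le hB)
      apply sum_le_sum_of_subset_of_nonneg
      · intro g hg
        have h3 := mem_Ioc.mp (mem_filter.mp hg).1
        rw [mem_Ioc]
        omega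
      · intro g _ _
        positivity
    calc (T * |(j : ℝ)| * √Bd) * ∑ g ∈ (Ioc 0 Q₂).filter (fun g => g ≤ G₀), (1 : ℝ) / g
        ≤ (T * |(j : ℝ)| * √Bd) * T := mul_le_mul_of_nonneg_left h2 (by positivity)
      _ = T ^ 2 * |(j : ℝ)| * √Bd := by ring
  · have h1 : ∑ g ∈ (Ioc 0 Q₂).filter (fun g => ¬ g ≤ G₀), T * |(j : ℝ)| / g * (K * (L / g) * T ^ 3) =
        (T ^ 4 * |(j : ℝ)| * (K * L)) * ∑ g ∈ (Ioc 0 Q₂).filter (fun g => ¬ g ≤ G₀), 1 / (g : ℝ) ^ 2 := by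
      rw [mul_sum]
      apply sum_congr rfl
      intro g _
      ring
    rw [h1]
    have h2 : ∑ g ∈ (Ioc 0 Q₂).filter (fun g => ¬ g ≤ G₀), 1 / (g : ℝ) ^ 2 ≤ 1 / (G₀ : ℝ) := by
      apply lsb_sum_inv_sq G₀ Q₂ hG0
      intro g hg
      obtain ⟨h3, h4⟩ := mem_filter.mp hg
      have h5 := mem_Ioc.mp h3
      omega
    calc (T ^ 4 * |(j : ℝ)| * (K * L)) * ∑ g ∈ (Ioc 0 Q₂).filter (fun g => ¬ g ≤ G₀), 1 / (g : ℝ) ^ 2
        ≤ (T ^ 4 * |(j : ℝ)| * (K * L)) * (1 / G₀) := mul_le_mul_of_nonneg_left h2 (by positivity)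
      _ = T ^ 4 * |(j : ℝ)| * (K * L) / G₀ := by ring

end Pool.Agent.Lib.MP_2a816b_nt.BH
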