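import Pool.Agent.Lib.MP_2a816b_nt.BH.RamB

/-!
# JOB RamC: products of two `bc`: complete sums and mean values (exact correlations)

`q, r` squarefree, `N` any length, `j` any shift. Put `m = lcm(q, r)`. The function `n ↦ bc q n * bc r (n + j)` is periodic
modulo `m`. By `bc_exp`, `∑_{n mod m} bc q n bc r (n + j) = b_q b_r ∑_{a, b} e(b j / r) ∑_{n mod m} e(n (a / q + b / r))`, and
the inner sum is `0` unless `a / q + b / r ∈ ℤ`, that is (reduced fractions) `q = r`, `b = q - a` (or `q = r = 1`). So it is `0`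
if `q ≠ r`, and `q b_q ^ 2 c_q(j) = q b_q bc q j` if `q = r`.
The sum of the absolute values over a period is `≤ T ^ 4`: by `abs_bc_le_sum` it is at most
`∑_{d ∣ q} ∑_{c ∣ r} φ(d) φ(c) / (φ(q) φ(r)) #{n mod m : d ∣ n, c ∣ n + j}` and the number is `≤ m / lcm(d, c)`, and
`φ(d) φ(c) / (φ(q) φ(r)) m / lcm(d, c) = (φ(d) / d) (φ(c) / c) gcd(d, c) m / (φ(q) φ(r)) ≤ (q r / (φ(q) φ(r)))` as
`m gcd(d, c) ≤ m gcd(q, r) = q r`.
-/

set_option autoImplicit false

open Finset Real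

namespace Pool.Agent.Lib.MP_2a816b_nt.BH

variable {M : ℕ} {T : ℝ}
section RamCaux

private lemma ramc_shift (F : ℤ → ℝ) (m : ℕ) (hF : ∀ n, F (n + m) = F n) (a : ℕ) :
    ∑ i ∈ range m, F ((a : ℤ) + i) = ∑ i ∈ range m, F i := by
  induction a with
  | zero => simp
  | succ a ih =>
    rw [← ih]
    have h1 := Finset.sum_range_succ (fun i : ℕ => F ((a : ℤ) + i)) m
    have h2 := Finset.sum_range_succ' (fun i : ℕ => F ((a : ℤ) + i)) m
    rw [h1] at h2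
    have h3 : ∑ i ∈ range m, F (((a + 1 : ℕ) : ℤ) + i) = ∑ i ∈ range m, F ((a : ℤ) + (i + 1 : ℕ)) := by
      refine Finset.sum_congr rfl fun i _ => ?_
      congr 1
      push_cast
      ring
    have h4 : F ((a : ℤ) + (m : ℕ)) = F ((a : ℤ) + ((0 : ℕ) : ℤ)) := by
      rw [hF]
      simp
    rw [h3]
    linarith

private lemma ramc_blocks (F : ℤ → ℝ) (m : ℕ) (hF : ∀ n, F (n + m) = F n) (a k : ℕ) :
    ∑ i ∈ range (m * k), F ((a : ℤ) + i) = k * ∑ i ∈ range m, F i := by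
  induction k with
  | zero => simp
  | succ k ih =>
    have e1 : m * (k + 1) = m * k + m := by ring
    rw [e1, Finset.sum_range_add, ih]
    have e2 : ∑ x ∈ range m, F ((a : ℤ) + ((m * k + x : ℕ) : ℤ))
        = ∑ x ∈ range m, F (((a + m * k : ℕ) : ℤ) + x) := by
      refine Finset.sum_congr rfl fun i _ => ?_
      congr 1
      push_cast
      ring
    rw [e2, ramc_shift F m hF]
    push_cast
    ring

private lemma ramc_Ioc (F : ℤ → ℝ) (A N : ℕ) :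
    ∑ n ∈ Ioc A (A + N), F n = ∑ i ∈ range N, F (((A + 1 : ℕ) : ℤ) + i) := by
  symm
  refine Finset.sum_nbij' (fun i => A + 1 + i) (fun n => n - (A + 1)) ?_ ?_ ?_ ?_ ?_
  · intro i hi
    rw [Finset.mem_range] at hi
    rw [Finset.mem_Ioc]
    omega
  · intro n hn
    rw [Finset.mem_Ioc] at hn
    rw [Finset.mem_range]
    omega
  · intro i _
    simp
  · intro n hn
    rw [Finset.mem_Ioc] at hn
    change A + 1 + (n - (A + 1)) = n
    omega
  · intro i _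
    congr 1

end RamCaux

/-- sums over intervals of a function with period `m`: `|∑_{n ∈ (A, A+N]} F(n) - (N / m) S| ≤ 2 ∑_{period} |F|`,
where `S` is the sum over a period -/
lemma sum_periodic (F : ℤ → ℝ) (m : ℕ) (hm : 0 < m) (hF : ∀ n, F (n + m) = F n) (A N : ℕ) :
    |∑ n ∈ Ioc A (A + N), F n - (N : ℝ) / m * ∑ n ∈ range m, F n| ≤
      2 * ∑ n ∈ range m, |F n| := by
  rw [ramc_Ioc]
  set k := N / m with hk
  set r := N % m with hr
  have hN : N = m * k + r := (Nat.div_add_mod N m).symm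
  have hrm : r < m := Nat.mod_lt _ hm
  have hmR : (0 : ℝ) < m := by exact_mod_cast hm
  set S := ∑ n ∈ range m, F n with hS
  set B := ∑ n ∈ range m, |F n| with hB
  have hSB : |S| ≤ B := Finset.abs_sum_le_sum_abs _ _
  have hB0 : 0 ≤ B := (abs_nonneg _).trans hSB
  have e1 : ∑ i ∈ range N, F (((A + 1 : ℕ) : ℤ) + i) = k * S
      + ∑ i ∈ range r, F (((A + 1 : ℕ) : ℤ) + ((m * k + i : ℕ) : ℤ)) := by
    conv_lhs => rw [hN]
    rw [Finset.sum_range_add, ramc_blocks F m hF]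
  have e2 : |∑ i ∈ range r, F (((A + 1 : ℕ) : ℤ) + ((m * k + i : ℕ) : ℤ))| ≤ B := by
    refine (Finset.abs_sum_le_sum_abs _ _).trans ?_
    have e3 : ∑ i ∈ range r, |F (((A + 1 : ℕ) : ℤ) + ((m * k + i : ℕ) : ℤ))|
        ≤ ∑ i ∈ range m, |F (((A + 1 : ℕ) : ℤ) + ((m * k + i : ℕ) : ℤ))| := by
      refine Finset.sum_le_sum_of_subset_of_nonneg ?_ fun i _ _ => abs_nonneg _
      exact Finset.range_mono hrm.le
    refine e3.trans (le_of_eq ?_)
    rw [hB, ← ramc_shift (fun n => |F n|) m (fun n => by rw [hF]) (A + 1 + m * k)]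
    refine Finset.sum_congr rfl fun i _ => ?_
    congr 2
    push_cast
    ring
  have e4 : (N : ℝ) / m * S = k * S + (r : ℝ) / m * S := by
    have : (N : ℝ) = m * k + r := by exact_mod_cast hN
    rw [this]
    field_simp
  rw [e1, e4]
  have e5 : |(r : ℝ) / m * S| ≤ B := by
    rw [abs_mul]
    have h1 : |(r : ℝ) / m| ≤ 1 := by
      rw [abs_of_nonneg (by positivity), div_le_one hmR]
      exact_mod_cast hrm.le
    calc |(r : ℝ) / m| * |S| ≤ 1 * B := mul_le_mul h1 hSB (abs_nonneg _) zero_le_one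
      _ = B := one_mul B
  calc |k * S + ∑ i ∈ range r, F (((A + 1 : ℕ) : ℤ) + ((m * k + i : ℕ) : ℤ))
        - (k * S + (r : ℝ) / m * S)|
      = |∑ i ∈ range r, F (((A + 1 : ℕ) : ℤ) + ((m * k + i : ℕ) : ℤ)) - (r : ℝ) / m * S| := by
        congr 1
        ring
    _ ≤ |∑ i ∈ range r, F (((A + 1 : ℕ) : ℤ) + ((m * k + i : ℕ) : ℤ))| + |(r : ℝ) / m * S| :=
        abs_sub _ _
    _ ≤ 2 * B := by linarith

section RamCaux2

/-- geometric sums -/
private lemma ramc_geom (m : ℕ) (θ : ℝ) (k : ℤ) (h1 : m * θ = k) (h2 : ∀ l : ℤ, θ ≠ l) :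
    ∑ n ∈ range m, e (n * θ) = 0 := by
  have h3 : ∑ n ∈ range m, e (n * θ) = ∑ n ∈ range m, e θ ^ n :=
    Finset.sum_congr rfl fun n _ => e_nat_mul n θ
  have h4 := mul_geom_sum (e θ) m
  have h5 : e θ ^ m = 1 := by
    rw [← e_nat_mul, h1, e_int]
  rw [h5, sub_self] at h4
  rw [h3]
  rcases mul_eq_zero.1 h4 with h6 | h6
  · exfalso
    rw [sub_eq_zero, e_eq_one_iff] at h6
    obtain ⟨l, hl⟩ := h6
    exact h2 l hl
  · exact h6

open Classical in
private lemma ramc_inner (q r m : ℕ) (hq0 : 0 < q) (hr0 : 0 < r) (hq : q ∣ m) (hr : r ∣ m)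
    (a b : ℕ) (j : ℤ) :
    ∑ n ∈ range m, e ((a : ℝ) * ((n : ℤ) : ℝ) / q) * e ((b : ℝ) * ((((n : ℤ) + j : ℤ)) : ℝ) / r)
      = if ∃ k : ℤ, ((a : ℝ) / q + (b : ℝ) / r) = k then (m : ℂ) * e ((b : ℝ) * j / r) else 0 := by
  have hqR : (q : ℝ) ≠ 0 := by exact_mod_cast hq0.ne'
  have hrR : (r : ℝ) ≠ 0 := by exact_mod_cast hr0.ne'
  have h1 : ∀ n ∈ range m, e ((a : ℝ) * ((n : ℤ) : ℝ) / q) * e ((b : ℝ) * ((((n : ℤ) + j : ℤ)) : ℝ) / r)
      = e ((b : ℝ) * j / r) * e ((n : ℝ) * ((a : ℝ) / q + (b : ℝ) / r)) := by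
    intro n _
    rw [← e_add, ← e_add]
    congr 1
    push_cast
    field_simp
    ring
  rw [Finset.sum_congr rfl h1, ← Finset.mul_sum]
  split_ifs with h
  · obtain ⟨k, hk⟩ := h
    have h2 : ∀ n ∈ range m, e ((n : ℝ) * ((a : ℝ) / q + (b : ℝ) / r)) = 1 := by
      intro n _
      rw [hk]
      have : (n : ℝ) * (k : ℝ) = ((n * k : ℤ) : ℝ) := by push_cast; ring
      rw [this, e_int]
    rw [Finset.sum_congr rfl h2]
    simp
    ring
  · obtain ⟨q', hq'⟩ := hq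
    obtain ⟨r', hr'⟩ := hr
    rw [ramc_geom m _ ((a * q' + b * r' : ℕ) : ℤ), mul_zero]
    · have e1 : (m : ℝ) = q * q' := by exact_mod_cast hq'
      have e2 : (m : ℝ) = r * r' := by exact_mod_cast hr'
      rw [mul_add]
      conv_lhs => rw [e1]
      have e3 : (q : ℝ) * q' * ((b : ℝ) / r) = b * r' := by
        rw [← e1, e2]
        field_simp
      rw [e3]
      push_cast
      field_simp
    · intro l hl
      exact h ⟨l, hl⟩

private lemma ramc_cop {q a b : ℕ} (hb : b.Coprime q) (h : q ∣ a + b) : a.Coprime q := by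
  have h1 : a.gcd q ∣ b.gcd q := by
    refine Nat.dvd_gcd ?_ (Nat.gcd_dvd_right _ _)
    exact (Nat.dvd_add_right (Nat.gcd_dvd_left a q)).1 ((Nat.gcd_dvd_right a q).trans h)
  rw [Nat.Coprime.gcd_eq_one hb] at h1
  exact Nat.dvd_one.1 h1

/-- the complete sum as a complex number -/
private lemma ramc_complete {q r : ℕ} (hq : Squarefree q) (hr : Squarefree r) (j : ℤ) (m : ℕ) :
    ((∑ n ∈ range m, bc q n * bc r (n + j) : ℝ) : ℂ) = (bq q : ℂ) * (bq r : ℂ) *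
      ∑ a ∈ (range q).filter (fun a => a.Coprime q), ∑ b ∈ (range r).filter (fun a => a.Coprime r),
        ∑ n ∈ range m, e ((a : ℝ) * ((n : ℤ) : ℝ) / q) * e ((b : ℝ) * ((((n : ℤ) + j : ℤ)) : ℝ) / r) := by
  push_cast
  have h1 : ∀ n ∈ range m, (bc q n : ℂ) * (bc r (n + j) : ℂ) = (bq q : ℂ) * (bq r : ℂ) *
      ∑ a ∈ (range q).filter (fun a => a.Coprime q), ∑ b ∈ (range r).filter (fun a => a.Coprime r),
        e ((a : ℝ) * ((n : ℤ) : ℝ) / q) * e ((b : ℝ) * ((((n : ℤ) + j : ℤ)) : ℝ) / r) := by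
    intro n _
    rw [bc_exp hq, bc_exp hr, ← Finset.sum_mul_sum]
    ring
  rw [Finset.sum_congr rfl h1, ← Finset.mul_sum]
  congr 1
  rw [Finset.sum_comm]
  refine Finset.sum_congr rfl fun a _ => ?_
  rw [Finset.sum_comm]
  push_cast
  rfl

private lemma ramc_complete_ne {q r : ℕ} (hq : Squarefree q) (hr : Squarefree r) (hne : q ≠ r)
    (j : ℤ) (m : ℕ) (hqm : q ∣ m) (hrm : r ∣ m) :
    ∑ n ∈ range m, bc q n * bc r (n + j) = 0 := by
  have hq0 : 0 < q := Nat.pos_of_ne_zero hq.ne_zero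
  have hr0 : 0 < r := Nat.pos_of_ne_zero hr.ne_zero
  have hqR : (q : ℝ) ≠ 0 := by exact_mod_cast hq0.ne'
  have hrR : (r : ℝ) ≠ 0 := by exact_mod_cast hr0.ne'
  have h := ramc_complete hq hr j m
  have h2 : ∑ a ∈ (range q).filter (fun a => a.Coprime q),
      ∑ b ∈ (range r).filter (fun a => a.Coprime r),
        ∑ n ∈ range m, e ((a : ℝ) * ((n : ℤ) : ℝ) / q) * e ((b : ℝ) * ((((n : ℤ) + j : ℤ)) : ℝ) / r)
      = 0 := by
    refine Finset.sum_eq_zero fun a ha => Finset.sum_eq_zero fun b hb => ?_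
    rw [Finset.mem_filter] at ha hb
    rw [ramc_inner q r m hq0 hr0 hqm hrm, if_neg]
    rintro ⟨k, hk⟩
    have e1 : (a : ℝ) * r + b * q = k * (q * r) := by
      field_simp at hk
      linarith
    have e2 : (a : ℤ) * r + b * q = k * (q * r) := by exact_mod_cast e1
    have e3 : (q : ℤ) ∣ (a : ℤ) * r := by
      have : (a : ℤ) * r = q * (k * r - b) := by linear_combination e2
      exact ⟨_, this⟩
    have e4 : (r : ℤ) ∣ (b : ℤ) * q := by
      have : (b : ℤ) * q = r * (k * q - a) := by linear_combination e2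
      exact ⟨_, this⟩
    have e5 : q ∣ a * r := by exact_mod_cast e3
    have e6 : r ∣ b * q := by exact_mod_cast e4
    have e7 : q ∣ r := (Nat.Coprime.symm ha.2).dvd_of_dvd_mul_left e5
    have e8 : r ∣ q := (Nat.Coprime.symm hb.2).dvd_of_dvd_mul_left e6
    exact hne (Nat.dvd_antisymm e7 e8)
  rw [h2, mul_zero] at h
  exact_mod_cast h

private lemma ramc_complete_eq {q : ℕ} (hq : Squarefree q) (j : ℤ) :
    ∑ n ∈ range q, bc q n * bc q (n + j) = q * (bq q * bc q j) := by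
  classical
  have hq0 : 0 < q := Nat.pos_of_ne_zero hq.ne_zero
  have hqR : (q : ℝ) ≠ 0 := by exact_mod_cast hq0.ne'
  have h := ramc_complete hq hq j q
  have h2 : ∑ a ∈ (range q).filter (fun a => a.Coprime q),
      ∑ b ∈ (range q).filter (fun a => a.Coprime q),
        ∑ n ∈ range q, e ((a : ℝ) * ((n : ℤ) : ℝ) / q) * e ((b : ℝ) * ((((n : ℤ) + j : ℤ)) : ℝ) / q)
      = (q : ℂ) * ∑ b ∈ (range q).filter (fun a => a.Coprime q), e ((b : ℝ) * j / q) := by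
    rw [Finset.sum_comm, Finset.mul_sum]
    refine Finset.sum_congr rfl fun b hb => ?_
    rw [Finset.mem_filter, Finset.mem_range] at hb
    have h3 : ∀ a ∈ (range q).filter (fun a => a.Coprime q),
        ∑ n ∈ range q, e ((a : ℝ) * ((n : ℤ) : ℝ) / q) * e ((b : ℝ) * ((((n : ℤ) + j : ℤ)) : ℝ) / q)
        = if q ∣ a + b then (q : ℂ) * e ((b : ℝ) * j / q) else 0 := by
      intro a _
      rw [ramc_inner q q q hq0 hq0 dvd_rfl dvd_rfl]
      have h4 : (∃ k : ℤ, ((a : ℝ) / q + (b : ℝ) / q) = k) ↔ q ∣ a + b := by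
        constructor
        · rintro ⟨k, hk⟩
          have e1 : (a : ℝ) + b = q * k := by
            field_simp at hk
            linarith
          have e2 : (a : ℤ) + b = q * k := by exact_mod_cast e1
          have e3 : (q : ℤ) ∣ (a : ℤ) + b := ⟨k, e2⟩
          exact_mod_cast e3
        · rintro ⟨k, hk⟩
          refine ⟨k, ?_⟩
          have e1 : (a : ℝ) + b = q * k := by exact_mod_cast hk
          rw [← add_div, e1]
          push_cast
          field_simp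
      by_cases h5 : q ∣ a + b
      · rw [if_pos (h4.2 h5), if_pos h5]
      · rw [if_neg (fun h6 => h5 (h4.1 h6)), if_neg h5]
    rw [Finset.sum_congr rfl h3]
    have hdvd : q ∣ (q - b) % q + b := by
      rw [Nat.dvd_iff_mod_eq_zero, Nat.mod_add_mod, Nat.sub_add_cancel hb.1.le, Nat.mod_self]
    rw [Finset.sum_eq_single ((q - b) % q)]
    · rw [if_pos hdvd]
    · intro a ha hne
      rw [Finset.mem_filter, Finset.mem_range] at ha
      rw [if_neg]
      intro h6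
      apply hne
      have h7 : a + b ≡ (q - b) % q + b [MOD q] :=
        (Nat.modEq_zero_iff_dvd.2 h6).trans (Nat.modEq_zero_iff_dvd.2 hdvd).symm
      exact Nat.ModEq.eq_of_lt_of_lt (Nat.ModEq.add_right_cancel' b h7) ha.1 (Nat.mod_lt _ hq0)
    · intro h6
      exfalso
      apply h6
      rw [Finset.mem_filter, Finset.mem_range]
      exact ⟨Nat.mod_lt _ hq0, ramc_cop hb.2 hdvd⟩
  rw [h2] at h
  have h3 : ((∑ n ∈ range q, bc q n * bc q (n + j) : ℝ) : ℂ)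
      = ((q * (bq q * bc q j) : ℝ) : ℂ) := by
    rw [h]
    push_cast
    rw [bc_exp hq j]
    ring
  exact_mod_cast h3

private lemma ramc_card (m d c : ℕ) (hd : d ∣ m) (hc : c ∣ m) (hm : 0 < m) (j : ℤ) :
    ((range m).filter (fun n : ℕ => (d : ℤ) ∣ n ∧ (c : ℤ) ∣ n + j)).card ≤ m / d.lcm c := by
  have hl : d.lcm c ∣ m := Nat.lcm_dvd hd hc
  have hlpos : 0 < d.lcm c := Nat.pos_of_dvd_of_pos hl hm
  rw [← Finset.card_range (m / d.lcm c)]
  refine Finset.card_le_card_of_injOn (fun n => n / d.lcm c) ?_ ?_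
  · intro n hn
    have hn' := (Finset.mem_filter.1 hn).1
    rw [Finset.mem_range] at hn'
    simp only [Finset.coe_range, Set.mem_Iio]
    obtain ⟨k, hk⟩ := hl
    rw [hk, Nat.mul_div_cancel_left _ hlpos]
    rw [hk] at hn'
    exact Nat.div_lt_of_lt_mul hn'
  · intro n hn n' hn' hnn
    have h1 := (Finset.mem_filter.1 hn).2
    have h2 := (Finset.mem_filter.1 hn').2
    change n / d.lcm c = n' / d.lcm c at hnn
    have h3 : (d : ℤ) ∣ (n : ℤ) - n' := dvd_sub h1.1 h2.1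
    have h4 : (c : ℤ) ∣ (n : ℤ) - n' := by
      have := dvd_sub h1.2 h2.2
      have e : (n : ℤ) + j - (n' + j) = n - n' := by ring
      rwa [e] at this
    have h5 : n ≡ n' [MOD d] := by
      rw [Nat.modEq_iff_dvd]
      rw [← dvd_neg]
      have e : -((n' : ℤ) - n) = n - n' := by ring
      rw [e]
      exact h3
    have h6 : n ≡ n' [MOD c] := by
      rw [Nat.modEq_iff_dvd]
      rw [← dvd_neg]
      have e : -((n' : ℤ) - n) = n - n' := by ring
      rw [e]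
      exact h4
    have h7 : n ≡ n' [MOD d.lcm c] := by
      rw [Nat.modEq_iff_dvd] at h5 h6 ⊢
      have := Int.coe_lcm_dvd h5 h6
      simpa [Int.lcm, Int.natAbs_natCast] using this
    rw [← Nat.div_add_mod n (d.lcm c), ← Nat.div_add_mod n' (d.lcm c), hnn, h7]

end RamCaux2

section RamCaux3

variable {M : ℕ} {T : ℝ}

private lemma ramc_abs (hB : Big M T) {q r : ℕ} (hq : Squarefree q) (hr : Squarefree r) (hqM : q ≤ M)
    (hrM : r ≤ M) (j : ℤ) :
    ∑ n ∈ range (q.lcm r), |bc q n * bc r (n + j)| ≤ T ^ 4 := by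
  have hq0 : 0 < q := Nat.pos_of_ne_zero hq.ne_zero
  have hr0 : 0 < r := Nat.pos_of_ne_zero hr.ne_zero
  set m := q.lcm r with hm
  have hm0 : 0 < m := Nat.lcm_pos hq0 hr0
  have hqm : q ∣ m := Nat.dvd_lcm_left q r
  have hrm : r ∣ m := Nat.dvd_lcm_right q r
  have hφq : (0 : ℝ) < q.totient := by exact_mod_cast Nat.totient_pos.2 hq0
  have hφr : (0 : ℝ) < r.totient := by exact_mod_cast Nat.totient_pos.2 hr0
  have hT0 : 0 ≤ T := by linarith [hB.one]
  -- step 1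
  have h1 : ∀ n : ℕ, |bc q n * bc r (n + j)| ≤
      ∑ d ∈ q.divisors, ∑ c ∈ r.divisors,
        if ((d : ℤ) ∣ (n : ℤ) ∧ (c : ℤ) ∣ (n : ℤ) + j) then
          ((d.totient : ℝ) / q.totient) * ((c.totient : ℝ) / r.totient) else 0 := by
    intro n
    rw [abs_mul]
    have e1 := abs_bc_le_sum hq (n : ℤ)
    have e2 := abs_bc_le_sum hr ((n : ℤ) + j)
    refine (mul_le_mul e1 e2 (abs_nonneg _) ?_).trans (le_of_eq ?_)
    · exact Finset.sum_nonneg fun d _ => by positivity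
    · rw [Finset.sum_filter, Finset.sum_filter, Finset.sum_mul_sum]
      refine Finset.sum_congr rfl fun d _ => Finset.sum_congr rfl fun c _ => ?_
      by_cases hd : (d : ℤ) ∣ (n : ℤ) <;> by_cases hc : (c : ℤ) ∣ (n : ℤ) + j <;> simp [hd, hc]
  refine (Finset.sum_le_sum fun n _ => h1 n).trans ?_
  rw [Finset.sum_comm]
  have h2 : ∀ d ∈ q.divisors, ∑ n ∈ range m, ∑ c ∈ r.divisors,
      (if ((d : ℤ) ∣ (n : ℤ) ∧ (c : ℤ) ∣ (n : ℤ) + j) then
          ((d.totient : ℝ) / q.totient) * ((c.totient : ℝ) / r.totient) else 0)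
      ≤ (r.divisors.card : ℝ) * ((q : ℝ) / q.totient * ((r : ℝ) / r.totient)) := by
    intro d hd
    rw [Finset.sum_comm, ← nsmul_eq_mul]
    refine Finset.sum_le_card_nsmul _ _ _ fun c hc => ?_
    have hdq := Nat.dvd_of_mem_divisors hd
    have hcr := Nat.dvd_of_mem_divisors hc
    have hd0 : 0 < d := Nat.pos_of_dvd_of_pos hdq hq0
    have hc0 : 0 < c := Nat.pos_of_dvd_of_pos hcr hr0
    rw [← Finset.sum_filter, Finset.sum_const, nsmul_eq_mul]
    have h3 := ramc_card m d c (hdq.trans hqm) (hcr.trans hrm) hm0 j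
    have h4 : ((((range m).filter (fun n : ℕ => (d : ℤ) ∣ n ∧ (c : ℤ) ∣ n + j)).card : ℕ) : ℝ)
        ≤ ((m / d.lcm c : ℕ) : ℝ) := by exact_mod_cast h3
    have h5 : d.totient * c.totient * (m / d.lcm c) ≤ q * r := by
      have e1 : d.lcm c ∣ m := Nat.lcm_dvd (hdq.trans hqm) (hcr.trans hrm)
      have e2 : d * c * (m / d.lcm c) = d.gcd c * m := by
        rw [← Nat.gcd_mul_lcm d c, mul_assoc, Nat.mul_div_cancel' e1]
      have e3 : d.gcd c * m ≤ q.gcd r * m := by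
        refine Nat.mul_le_mul_right m (Nat.le_of_dvd (Nat.gcd_pos_of_pos_left _ hq0) ?_)
        exact Nat.gcd_dvd_gcd_of_dvd_left _ hdq |>.trans (Nat.gcd_dvd_gcd_of_dvd_right _ hcr)
      have e4 : q.gcd r * m = q * r := Nat.gcd_mul_lcm q r
      have e5 : d.totient * c.totient ≤ d * c := Nat.mul_le_mul (Nat.totient_le d) (Nat.totient_le c)
      calc d.totient * c.totient * (m / d.lcm c) ≤ d * c * (m / d.lcm c) := Nat.mul_le_mul_right _ e5
        _ = d.gcd c * m := e2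
        _ ≤ q.gcd r * m := e3
        _ = q * r := e4
    have h6 : (d.totient : ℝ) * c.totient * ((m / d.lcm c : ℕ) : ℝ) ≤ q * r := by exact_mod_cast h5
    calc ((((range m).filter (fun n : ℕ => (d : ℤ) ∣ n ∧ (c : ℤ) ∣ n + j)).card : ℕ) : ℝ) *
          ((d.totient : ℝ) / q.totient * ((c.totient : ℝ) / r.totient))
        ≤ ((m / d.lcm c : ℕ) : ℝ) * ((d.totient : ℝ) / q.totient * ((c.totient : ℝ) / r.totient)) :=
          mul_le_mul_of_nonneg_right h4 (by positivity)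
      _ = ((d.totient : ℝ) * c.totient * ((m / d.lcm c : ℕ) : ℝ)) / (q.totient * r.totient) := by
          field_simp
      _ ≤ (q * r) / (q.totient * r.totient) := by
          apply div_le_div_of_nonneg_right h6 (by positivity)
      _ = (q : ℝ) / q.totient * ((r : ℝ) / r.totient) := by
          field_simp
  refine (Finset.sum_le_sum h2).trans ?_
  rw [Finset.sum_const, nsmul_eq_mul]
  have h3 := div_totient_le hB hq hqM
  have h4 := div_totient_le hB hr hrM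
  have h5 := hB.tau q hq0 hqM
  have h6 := hB.tau r hr0 hrM
  calc (q.divisors.card : ℝ) * ((r.divisors.card : ℝ) * ((q : ℝ) / q.totient * ((r : ℝ) / r.totient)))
      ≤ T * (T * (T * T)) := by
        gcongr
    _ = T ^ 4 := by ring

private lemma ramc_per {q r : ℕ} (j : ℤ) (n : ℤ) :
    bc q (n + (q.lcm r : ℕ)) * bc r (n + (q.lcm r : ℕ) + j) = bc q n * bc r (n + j) := by
  have h1 : bc q (n + (q.lcm r : ℕ)) = bc q n := by
    apply bc_congr
    have : n + ((q.lcm r : ℕ) : ℤ) - n = ((q.lcm r : ℕ) : ℤ) := by ring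
    rw [this]
    exact_mod_cast Nat.dvd_lcm_left q r
  have h2 : bc r (n + (q.lcm r : ℕ) + j) = bc r (n + j) := by
    apply bc_congr
    have : n + ((q.lcm r : ℕ) : ℤ) + j - (n + j) = ((q.lcm r : ℕ) : ℤ) := by ring
    rw [this]
    exact_mod_cast Nat.dvd_lcm_right q r
  rw [h1, h2]

end RamCaux3

lemma corr_ne (hB : Big M T) {q r : ℕ} (hq : Squarefree q) (hr : Squarefree r) (hqM : q ≤ M)
    (hrM : r ≤ M) (hne : q ≠ r) (j : ℤ) (A N : ℕ) :
    |∑ n ∈ Ioc A (A + N), bc q n * bc r (n + j)| ≤ 2 * T ^ 4 := by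
  have hq0 : 0 < q := Nat.pos_of_ne_zero hq.ne_zero
  have hr0 : 0 < r := Nat.pos_of_ne_zero hr.ne_zero
  have h := sum_periodic (fun n => bc q n * bc r (n + j)) (q.lcm r) (Nat.lcm_pos hq0 hr0)
    (fun n => ramc_per j n) A N
  rw [ramc_complete_ne hq hr hne j _ (Nat.dvd_lcm_left q r) (Nat.dvd_lcm_right q r), mul_zero,
    sub_zero] at h
  refine h.trans ?_
  have := ramc_abs hB hq hr hqM hrM j
  linarith

lemma corr_eq (hB : Big M T) {q : ℕ} (hq : Squarefree q) (hqM : q ≤ M) (j : ℤ) (A N : ℕ) :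
    |∑ n ∈ Ioc A (A + N), bc q n * bc q (n + j) - N * (bq q * bc q j)| ≤ 2 * T ^ 4 := by
  have hq0 : 0 < q := Nat.pos_of_ne_zero hq.ne_zero
  have hqR : (q : ℝ) ≠ 0 := by exact_mod_cast hq0.ne'
  have h := sum_periodic (fun n => bc q n * bc q (n + j)) (q.lcm q) (Nat.lcm_pos hq0 hq0)
    (fun n => ramc_per j n) A N
  have h2 := ramc_abs hB hq hq hqM hqM j
  rw [Nat.lcm_self] at h h2
  rw [ramc_complete_eq hq j] at h
  have h3 : (N : ℝ) / q * (q * (bq q * bc q j)) = N * (bq q * bc q j) := by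
    field_simp
  rw [h3] at h
  refine h.trans ?_
  linarith

/-- `j = 0`: `b_q bc q 0 = 1 / φ(q)` -/
lemma bq_bc_zero {q : ℕ} (hq : Squarefree q) : bq q * bc q 0 = 1 / (q.totient : ℝ) := by
  have hq0 : 0 < q := Nat.pos_of_ne_zero hq.ne_zero
  have hφq : (0 : ℝ) < q.totient := by exact_mod_cast Nat.totient_pos.2 hq0
  have h1 := bc_exp hq 0
  have h2 : ∑ a ∈ (range q).filter (fun a => a.Coprime q), e ((a : ℝ) * ((0 : ℤ) : ℝ) / q)
      = (q.totient : ℂ) := by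
    have h3 : ∀ a ∈ (range q).filter (fun a => a.Coprime q), e ((a : ℝ) * ((0 : ℤ) : ℝ) / q) = 1 := by
      intro a _
      simp
    rw [Finset.sum_congr rfl h3, Finset.sum_const, nsmul_eq_mul, mul_one]
    congr 1
    rw [Nat.totient_eq_card_coprime]
    congr 1
    refine Finset.filter_congr fun a _ => ?_
    exact Nat.coprime_comm
  rw [h2] at h1
  have h3 : bc q 0 = bq q * (q.totient : ℝ) := by exact_mod_cast h1
  rw [h3]
  have h4 : bq q * bq q = 1 / (q.totient : ℝ) * (1 / (q.totient : ℝ)) := by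
    rw [← abs_mul_abs_self (bq q), abs_bq hq]
  calc bq q * (bq q * (q.totient : ℝ)) = bq q * bq q * q.totient := by ring
    _ = 1 / (q.totient : ℝ) := by
        rw [h4]
        field_simp

/-- `|b_q bc q j| ≤ T ^ 2 |j| / q ^ 2` for `j ≠ 0` (`abs_bc_eq`, `(q, j) ≤ |j|`, `1 / φ(q / g) ≤ T g / q`). -/
lemma abs_bq_bc_le (hB : Big M T) {q : ℕ} (hq : Squarefree q) (hqM : q ≤ M) (j : ℤ) (hj : j ≠ 0) :
    |bq q * bc q j| ≤ T ^ 2 * |(j : ℝ)| / (q : ℝ) ^ 2 := by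
  have hq0 : 0 < q := Nat.pos_of_ne_zero hq.ne_zero
  have hqR : (0 : ℝ) < q := by exact_mod_cast hq0
  have hT0 : 0 ≤ T := by linarith [hB.one]
  have hφq : (0 : ℝ) < q.totient := by exact_mod_cast Nat.totient_pos.2 hq0
  rw [abs_mul, abs_bq hq, abs_bc_eq hq]
  set g := q.gcd j.natAbs with hg
  have hgq : g ∣ q := Nat.gcd_dvd_left _ _
  have hg0 : 0 < g := Nat.gcd_pos_of_pos_left _ hq0
  have hgR : (0 : ℝ) < g := by exact_mod_cast hg0
  have hgj : (g : ℝ) ≤ |(j : ℝ)| := by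
    have h1 : g ≤ j.natAbs := Nat.le_of_dvd (Int.natAbs_pos.2 hj) (Nat.gcd_dvd_right _ _)
    have h2 : ((j.natAbs : ℕ) : ℝ) = |(j : ℝ)| := by
      rw [← Int.cast_abs, Int.abs_eq_natAbs]
      simp
    rw [← h2]
    exact_mod_cast h1
  have hsq : Squarefree (q / g) := hq.squarefree_of_dvd (Nat.div_dvd_of_dvd hgq)
  have hle : q / g ≤ M := (Nat.div_le_self _ _).trans hqM
  have h1 := div_totient_le hB hq hqM
  have h2 := div_totient_le hB hsq hle
  have hqg0 : 0 < q / g := Nat.div_pos (Nat.le_of_dvd hq0 hgq) hg0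
  have hφg : (0 : ℝ) < (q / g).totient := by exact_mod_cast Nat.totient_pos.2 hqg0
  have h3 : ((q / g : ℕ) : ℝ) = q / g := Nat.cast_div hgq hgR.ne'
  rw [h3] at h2
  have h4 : 1 / (q.totient : ℝ) ≤ T / q := by
    rw [div_le_div_iff₀ hφq hqR]
    rw [div_le_iff₀ hφq] at h1
    linarith
  have h5 : 1 / ((q / g).totient : ℝ) ≤ T * |(j : ℝ)| / q := by
    rw [div_le_div_iff₀ hφg hqR]
    rw [div_le_iff₀ hφg, div_le_iff₀ hgR] at h2
    calc 1 * (q : ℝ) ≤ T * (q / g).totient * g := by linarith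
      _ ≤ T * (q / g).totient * |(j : ℝ)| := by
          apply mul_le_mul_of_nonneg_left hgj (by positivity)
      _ = T * |(j : ℝ)| * (q / g).totient := by ring
  calc 1 / (q.totient : ℝ) * (1 / ((q / g).totient : ℝ)) ≤ (T / q) * (T * |(j : ℝ)| / q) :=
        mul_le_mul h4 h5 (by positivity) (by positivity)
    _ = T ^ 2 * |(j : ℝ)| / (q : ℝ) ^ 2 := by ring

section RamCaux4

private lemma ramc_card_le (Q : Finset ℕ) (Q₂ : ℕ) (hQ : ∀ q ∈ Q, 0 < q ∧ q ≤ Q₂) :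
    Q.card ≤ Q₂ := by
  have h1 : Q ⊆ Ioc 0 Q₂ := fun q hq => Finset.mem_Ioc.2 (hQ q hq)
  have h2 := Finset.card_le_card h1
  rwa [Nat.card_Ioc, Nat.sub_zero] at h2

/-- general double sum -/
private lemma ramc_sets (hB : Big M T) (Q R : Finset ℕ) (Q₂ R₂ : ℕ)
    (hQ : ∀ q ∈ Q, Squarefree q ∧ q ≤ Q₂) (hR : ∀ r ∈ R, Squarefree r ∧ r ≤ R₂)
    (hQM : Q₂ ≤ M) (hRM : R₂ ≤ M) (j : ℤ) (A N : ℕ) :
    |∑ n ∈ Ioc A (A + N), FQ Q n * FQ R (n + j) - N * ∑ q ∈ Q ∩ R, bq q * bc q j| ≤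
      2 * T ^ 4 * (Q₂ * R₂) := by
  have hT0 : 0 ≤ T := by linarith [hB.one]
  have h1 : ∑ n ∈ Ioc A (A + N), FQ Q n * FQ R (n + j)
      = ∑ q ∈ Q, ∑ r ∈ R, ∑ n ∈ Ioc A (A + N), bc q n * bc r (n + j) := by
    unfold FQ
    have : ∀ n ∈ Ioc A (A + N), (∑ q ∈ Q, bc q (n : ℤ)) * ∑ q ∈ R, bc q ((n : ℤ) + j)
        = ∑ q ∈ Q, ∑ r ∈ R, bc q n * bc r (n + j) := by
      intro n _
      rw [Finset.sum_mul_sum]
    rw [Finset.sum_congr rfl this, Finset.sum_comm]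
    refine Finset.sum_congr rfl fun q _ => ?_
    rw [Finset.sum_comm]
  have h2 : (N : ℝ) * ∑ q ∈ Q ∩ R, bq q * bc q j
      = ∑ q ∈ Q, ∑ r ∈ R, if q = r then (N : ℝ) * (bq q * bc q j) else 0 := by
    have h3 : ∀ q ∈ Q, ∑ r ∈ R, (if q = r then (N : ℝ) * (bq q * bc q j) else 0)
        = if q ∈ R then (N : ℝ) * (bq q * bc q j) else 0 := by
      intro q _
      rw [Finset.sum_ite_eq]
    rw [Finset.sum_congr rfl h3, ← Finset.sum_filter, Finset.filter_mem_eq_inter, Finset.mul_sum]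
  rw [h1, h2, ← Finset.sum_sub_distrib]
  have hcQ : (Q.card : ℝ) ≤ Q₂ := by
    exact_mod_cast ramc_card_le Q Q₂ fun q hq => ⟨Nat.pos_of_ne_zero (hQ q hq).1.ne_zero, (hQ q hq).2⟩
  have hcR : (R.card : ℝ) ≤ R₂ := by
    exact_mod_cast ramc_card_le R R₂ fun q hq => ⟨Nat.pos_of_ne_zero (hR q hq).1.ne_zero, (hR q hq).2⟩
  have h4 : ∀ q ∈ Q, |∑ r ∈ R, ∑ n ∈ Ioc A (A + N), bc q n * bc r (n + j)
      - ∑ r ∈ R, (if q = r then (N : ℝ) * (bq q * bc q j) else 0)| ≤ R₂ * (2 * T ^ 4) := by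
    intro q hq
    rw [← Finset.sum_sub_distrib]
    refine (Finset.abs_sum_le_sum_abs _ _).trans ?_
    have h5 : ∀ r ∈ R, |∑ n ∈ Ioc A (A + N), bc q n * bc r (n + j)
        - (if q = r then (N : ℝ) * (bq q * bc q j) else 0)| ≤ 2 * T ^ 4 := by
      intro r hr
      by_cases hqr : q = r
      · subst hqr
        rw [if_pos rfl]
        exact corr_eq hB (hQ q hq).1 ((hQ q hq).2.trans hQM) j A N
      · rw [if_neg hqr, sub_zero]
        exact corr_ne hB (hQ q hq).1 (hR r hr).1 ((hQ q hq).2.trans hQM) ((hR r hr).2.trans hRM) hqr j A N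
    refine (Finset.sum_le_card_nsmul _ _ _ h5).trans ?_
    rw [nsmul_eq_mul]
    exact mul_le_mul_of_nonneg_right hcR (by positivity)
  refine (Finset.abs_sum_le_sum_abs _ _).trans ?_
  refine (Finset.sum_le_card_nsmul _ _ _ h4).trans ?_
  rw [nsmul_eq_mul]
  calc (Q.card : ℝ) * (R₂ * (2 * T ^ 4)) ≤ Q₂ * (R₂ * (2 * T ^ 4)) :=
        mul_le_mul_of_nonneg_right hcQ (by positivity)
    _ = 2 * T ^ 4 * (Q₂ * R₂) := by ring

end RamCaux4

/-- correlations of two sets of moduli, `j ≠ 0`: `Q`, `R` sets of squarefree numbers, `q ≤ Q₂`, `r ≤ R₂`, and all elements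
of `Q` are `> Q₁ ≥ 1`. -/
theorem corr_sets (hB : Big M T) (Q R : Finset ℕ) (Q₁ Q₂ R₂ : ℕ) (hQ1 : 1 ≤ Q₁)
    (hQ : ∀ q ∈ Q, Squarefree q ∧ Q₁ < q ∧ q ≤ Q₂) (hR : ∀ r ∈ R, Squarefree r ∧ r ≤ R₂)
    (hQM : Q₂ ≤ M) (hRM : R₂ ≤ M) (j : ℤ) (hj : j ≠ 0) (A N : ℕ) :
    |∑ n ∈ Ioc A (A + N), FQ Q n * FQ R (n + j)| ≤
      2 * T ^ 4 * (Q₂ * R₂) + 2 * T ^ 2 * |(j : ℝ)| * N / Q₁ := by
  have hT0 : 0 ≤ T := by linarith [hB.one]
  have h := ramc_sets hB Q R Q₂ R₂ (fun q hq => ⟨(hQ q hq).1, (hQ q hq).2.2⟩) hR hQM hRM j A N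
  have h1 : |∑ q ∈ Q ∩ R, bq q * bc q j| ≤ T ^ 2 * |(j : ℝ)| * (2 / Q₁) := by
    refine (Finset.abs_sum_le_sum_abs _ _).trans ?_
    have h2 : ∀ q ∈ Q ∩ R, |bq q * bc q j| ≤ T ^ 2 * |(j : ℝ)| * (((q : ℝ) ^ 2)⁻¹) := by
      intro q hq
      have hq' := (Finset.mem_inter.1 hq).1
      refine (abs_bq_bc_le hB (hQ q hq').1 ((hQ q hq').2.2.trans hQM) j hj).trans (le_of_eq ?_)
      rw [div_eq_mul_inv]
    refine (Finset.sum_le_sum h2).trans ?_
    rw [← Finset.mul_sum]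
    refine mul_le_mul_of_nonneg_left ?_ (by positivity)
    have h3 : ∑ q ∈ Q ∩ R, ((q : ℝ) ^ 2)⁻¹ ≤ ∑ q ∈ Ioo Q₁ (Q₂ + 1), ((q : ℝ) ^ 2)⁻¹ := by
      refine Finset.sum_le_sum_of_subset_of_nonneg ?_ fun i _ _ => by positivity
      intro q hq
      have hq' := (Finset.mem_inter.1 hq).1
      rw [Finset.mem_Ioo]
      exact ⟨(hQ q hq').2.1, Nat.lt_succ_of_le (hQ q hq').2.2⟩
    refine h3.trans ((sum_Ioo_inv_sq_le Q₁ (Q₂ + 1)).trans ?_)
    have hQR : (0 : ℝ) < Q₁ := by exact_mod_cast hQ1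
    apply div_le_div_of_nonneg_left (by norm_num) hQR (by linarith)
  have h4 : |(N : ℝ) * ∑ q ∈ Q ∩ R, bq q * bc q j| ≤ 2 * T ^ 2 * |(j : ℝ)| * N / Q₁ := by
    rw [abs_mul, abs_of_nonneg (Nat.cast_nonneg N)]
    calc (N : ℝ) * |∑ q ∈ Q ∩ R, bq q * bc q j| ≤ N * (T ^ 2 * |(j : ℝ)| * (2 / Q₁)) :=
          mul_le_mul_of_nonneg_left h1 (Nat.cast_nonneg _)
      _ = 2 * T ^ 2 * |(j : ℝ)| * N / Q₁ := by ring
  have h5 := abs_sub_abs_le_abs_sub (∑ n ∈ Ioc A (A + N), FQ Q n * FQ R (n + j))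
    ((N : ℝ) * ∑ q ∈ Q ∩ R, bq q * bc q j)
  linarith

/-- correlations of two sets of moduli, `j = 0` -/
theorem corr_sets_zero (hB : Big M T) (Q R : Finset ℕ) (Q₂ R₂ : ℕ)
    (hQ : ∀ q ∈ Q, Squarefree q ∧ q ≤ Q₂) (hR : ∀ r ∈ R, Squarefree r ∧ r ≤ R₂)
    (hQM : Q₂ ≤ M) (hRM : R₂ ≤ M) (A N : ℕ) :
    |∑ n ∈ Ioc A (A + N), FQ Q n * FQ R n - N * ∑ q ∈ Q ∩ R, 1 / (q.totient : ℝ)| ≤
      2 * T ^ 4 * (Q₂ * R₂) := by
  have h := ramc_sets hB Q R Q₂ R₂ hQ hR hQM hRM 0 A N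
  have h1 : ∑ q ∈ Q ∩ R, bq q * bc q 0 = ∑ q ∈ Q ∩ R, 1 / (q.totient : ℝ) :=
    Finset.sum_congr rfl fun q hq => bq_bc_zero (hQ q (Finset.mem_inter.1 hq).1).1
  rw [h1] at h
  simpa only [add_zero] using h

/-- the mean of `F_Q` vanishes if `1 ∉ Q` -/
theorem sum_FQ (hB : Big M T) (Q : Finset ℕ) (Q₂ : ℕ)
    (hQ : ∀ q ∈ Q, Squarefree q ∧ 1 < q ∧ q ≤ Q₂) (hQM : Q₂ ≤ M) (A N : ℕ) :
    |∑ n ∈ Ioc A (A + N), FQ Q n| ≤ 2 * T ^ 4 * Q₂ := by
  have hT0 : 0 ≤ T := by linarith [hB.one]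
  have h1 : ∑ n ∈ Ioc A (A + N), FQ Q n
      = ∑ q ∈ Q, ∑ n ∈ Ioc A (A + N), bc q n * bc 1 ((n : ℤ) + 0) := by
    unfold FQ
    rw [Finset.sum_comm]
    refine Finset.sum_congr rfl fun q _ => Finset.sum_congr rfl fun n _ => ?_
    rw [bc_one, mul_one]
  rw [h1]
  refine (Finset.abs_sum_le_sum_abs _ _).trans ?_
  have h2 : ∀ q ∈ Q, |∑ n ∈ Ioc A (A + N), bc q n * bc 1 ((n : ℤ) + 0)| ≤ 2 * T ^ 4 := by
    intro q hq
    have h3 := hQ q hq
    exact corr_ne hB h3.1 squarefree_one (h3.2.2.trans hQM) (by omega) (by omega) 0 A N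
  refine (Finset.sum_le_card_nsmul _ _ _ h2).trans ?_
  rw [nsmul_eq_mul]
  have hcQ : (Q.card : ℝ) ≤ Q₂ := by
    exact_mod_cast ramc_card_le Q Q₂ fun q hq => ⟨by have := (hQ q hq).2.1; omega, (hQ q hq).2.2⟩
  calc (Q.card : ℝ) * (2 * T ^ 4) ≤ Q₂ * (2 * T ^ 4) := mul_le_mul_of_nonneg_right hcQ (by positivity)
    _ = 2 * T ^ 4 * Q₂ := by ring

end Pool.Agent.Lib.MP_2a816b_nt.BH
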