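import Pool.Agent.Lib.MP_2a816b_nt.BH.RedB
import Pool.Agent.Lib.MP_2a816b_nt.BH.LSb
import Pool.Agent.Lib.MP_2a816b_nt.BH.RamC
import Pool.Agent.Lib.MP_2a816b_nt.Vaughan
import Pool.Agent.Lib.MP_2a816b_nt.Divisor

/-!
# JOB QB: correlations of the von Mangoldt function with all squarefree moduli in `(X ^ ε, X ^ (1/2 - ε)]`

Here `T = X ^ (ε / 1000)` bounds the divisor function. `0 < ε ≤ 1 / 100`, `0 < |j| ≤ X ^ (ε / 100)`.

`q1_bil`: split `Q1 X ε` into dyadic blocks `q ∈ (Q₁, 2 Q₁]`, `Q₁ ≥ ⌊X ^ ε⌋`, `2 Q₁ ≤ 2 X ^ (1/2 - ε)` (at most `T` blocks) and apply `ls_full` with `Q₂ = 2 Q₁`, `G₀ = ⌊X ^ (ε / 8)⌋`, `M = ⌊X ^ 10⌋`, `L = L₂ ≤ 2 L₁`, `γ = 1`: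
`K ^ 2 L ≤ (8 X) ^ 2 / L ≤ 64 X ^ (2 - ε / 4)`; `K Q₂ ^ 2 L ≤ 8 X 4 X ^ (1 - 2 ε)`; `K ^ 2 L ^ 2 |j| G₀ / Q₁ ≤ 128 X ^ (2 + ε / 100 + ε / 8 - ε)`; `K L ^ 2 Q₂ ^ 2 |j| G₀ / Q₁ ≤ 64 X · X ^ (1/2 + ε/50) X ^ (1/2 - ε) X ^ (ε / 100 + ε / 8)`.
So the square root is `≤ X ^ (1 - ε / 8 + small)`, and `T ^ 4 |j| K L / G₀ ≤ X ^ (1 - ε / 8 + ε / 100 + small)`. Total `≤ X ^ (1 - ε / 12)`.

`q1_vM`: `tw_vM N U κ`, `κ n = FQ (Q1 X ε) (n + j)` if `n > n₀ = ⌊X ^ (1/2)⌋`, else `0`, `U = ⌊X ^ (ε / 4)⌋`. Type I pieces: `m ≤ U ≤ X ^ (ε / 4) < X ^ ε < q`, so `q ∤ m`: `typeI_set`, `typeI_log` with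
`Qm = ⌊X ^ (1/2 - ε)⌋`: at most `U · 8 T ^ 5 X ^ (1/2 - ε)`. Type II pieces (`hi U (cU U) * zeR` with `U < m ≤ U ^ 2`, and `hi U muR * (hi U vM * zeR)` with `m > U`, `t > U`): if `m ≤ X ^ (1/2)` put `l = m`, `k = t`; if `m > X ^ (1/2)` put `l = t < 4 X ^ (1/2)` and
`k = m`; dyadic blocks `l ∈ (L₁, 2 L₁]`, `L₁ ≥ U`, and in each block `box` (`Y = N` and `Y = n₀`, `lam = ⌈L₁ / X ^ (ε / 20)⌉`; `F n = if n ≤ |j| then 0 else ...`; `K = N / L₁`; `B₀ = T ^ 3`):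
`2 (X ^ (ε / 20) + 2) X ^ (1 - ε / 12) + 2 T ^ 4 (4 X (X ^ (- ε / 20) + 1 / L₁) + 1)`. At most `T` blocks, coefficients `≤ T`. Total `≤ X ^ (1 - ε / 35)`. The terms `n ≤ n₀` of the sum over `(A, A + N]`: trivially `≤ T ^ 4 (X ^ (1/2) + 1)` since
`n + j ≥ 1` (from `0 ≤ A + j`).
-/

set_option autoImplicit false

open Finset Real

namespace Pool.Agent.Lib.MP_2a816b_nt.BH

/-- the moduli of `g₁` -/
noncomputable def Q1 (X ε : ℝ) : Finset ℕ :=
  (Ioc ⌊X ^ ε⌋₊ ⌊X ^ (1 / 2 - ε)⌋₊).filter Squarefree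

/-- `X` is large in terms of `ε` -/
structure Le (X T ε : ℝ) : Prop where
  hT : T = X ^ (ε / 1000)
  X1 : 1 ≤ X
  hε : 0 < ε
  hε1 : ε ≤ 1 / 100
  big : Big ⌊X ^ (10 : ℝ)⌋₊ T
  h10 : 10 ^ 10 ≤ T

theorem ev_Le (ε : ℝ) (hε : 0 < ε) (hε1 : ε ≤ 1 / 100) :
    ∃ X₀ : ℝ, ∀ X : ℝ, X₀ ≤ X → Le X (X ^ (ε / 1000)) ε := by
  have ht : 0 < ε / 1000 := by positivity
  obtain ⟨C', hC'1, hdiv⟩ := divisor_bound (ε / 20000) (by positivity)
  have e1 : ∀ᶠ X : ℝ in Filter.atTop, (10 : ℝ) ^ 10 ≤ X ^ (ε / 1000) :=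
    (tendsto_rpow_atTop ht).eventually_ge_atTop _
  have e2 : ∀ᶠ X : ℝ in Filter.atTop, C' ≤ X ^ (ε / 2000) :=
    (tendsto_rpow_atTop (by positivity)).eventually_ge_atTop _
  have e3 : ∀ᶠ X : ℝ in Filter.atTop, ‖Real.log X‖ ≤ (1 / 20) * ‖X ^ (ε / 1000)‖ :=
    (isLittleO_log_rpow_atTop ht).def (by norm_num)
  have e4 : ∀ᶠ X : ℝ in Filter.atTop, (1 : ℝ) ≤ X := Filter.eventually_ge_atTop 1
  obtain ⟨X₀, hX₀⟩ := Filter.eventually_atTop.1 (((e1.and e2).and e3).and e4)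
  refine ⟨X₀, fun X hX => ?_⟩
  obtain ⟨⟨⟨hT10, h2⟩, h3⟩, h4⟩ := hX₀ X hX
  have hX0 : 0 < X := by linarith
  have hTpos : 0 < X ^ (ε / 1000) := Real.rpow_pos_of_pos hX0 _
  refine ⟨rfl, h4, hε, hε1, ⟨?_, ?_, ?_⟩, hT10⟩
  · have : (100 : ℝ) ≤ 10 ^ 10 := by norm_num
    linarith
  · intro n hn hnM
    have h5 : (n : ℝ) ≤ X ^ (10 : ℝ) :=
      le_trans (by exact_mod_cast hnM) (Nat.floor_le (by positivity))
    calc (n.divisors.card : ℝ) ≤ C' * (n : ℝ) ^ (ε / 20000) := hdiv n hn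
      _ ≤ C' * (X ^ (10 : ℝ)) ^ (ε / 20000) := by
          apply mul_le_mul_of_nonneg_left _ (by linarith)
          exact Real.rpow_le_rpow (by positivity) h5 (by positivity)
      _ = C' * X ^ (ε / 2000) := by
          rw [← Real.rpow_mul hX0.le]
          congr 2
          ring
      _ ≤ X ^ (ε / 2000) * X ^ (ε / 2000) := by gcongr
      _ = X ^ (ε / 1000) := by
          rw [← Real.rpow_add hX0]
          congr 1
          ring
  · have h6 : Real.log (⌊X ^ (10 : ℝ)⌋₊ : ℝ) ≤ 10 * Real.log X := by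
      rw [← Real.log_rpow hX0]
      apply Real.log_le_log
      · have : 1 ≤ ⌊X ^ (10 : ℝ)⌋₊ := by
          rw [Nat.one_le_floor_iff]
          exact Real.one_le_rpow h4 (by norm_num)
        exact_mod_cast this
      · exact Nat.floor_le (by positivity)
    rw [Real.norm_eq_abs, Real.norm_eq_abs, abs_of_pos hTpos] at h3
    have h7 := le_abs_self (Real.log X)
    have : (4 : ℝ) ≤ X ^ (ε / 1000) := le_trans (by norm_num) hT10
    linarith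

variable {X T ε : ℝ}

/-! ### Numerical facts -/

private lemma qb_X0 (hX : Le X T ε) : 0 < X := by linarith [hX.X1]

private lemma qb_TX (hX : Le X T ε) : T ≤ X := by
  rw [hX.hT]
  have h1 : X ^ (ε / 1000) ≤ X ^ (1 : ℝ) := by
    apply Real.rpow_le_rpow_of_exponent_le hX.X1
    linarith [hX.hε1]
  rwa [Real.rpow_one] at h1

private lemma qb_Xbig (hX : Le X T ε) : 10 ^ 10 ≤ X := le_trans hX.h10 (qb_TX hX)

private lemma qb_T0 (hX : Le X T ε) : 0 < T := by linarith [hX.h10]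

private lemma qb_Tpow (hX : Le X T ε) (n : ℕ) : T ^ n = X ^ ((n : ℝ) * (ε / 1000)) := by
  rw [hX.hT, ← Real.rpow_natCast, ← Real.rpow_mul (qb_X0 hX).le, mul_comm]

/-- `T ^ n X ^ a ≤ X ^ b` if `a + n ε / 1000 ≤ b` -/
private lemma qb_TXle (hX : Le X T ε) (n : ℕ) {a b : ℝ} (h : (n : ℝ) * (ε / 1000) + a ≤ b) :
    T ^ n * X ^ a ≤ X ^ b := by
  rw [qb_Tpow hX, ← Real.rpow_add (qb_X0 hX)]
  exact Real.rpow_le_rpow_of_exponent_le hX.X1 h

private lemma qb_le (hX : Le X T ε) {a b : ℝ} (h : a ≤ b) : X ^ a ≤ X ^ b :=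
  Real.rpow_le_rpow_of_exponent_le hX.X1 h

private lemma qb_leM (hX : Le X T ε) {n : ℕ} (h : (n : ℝ) ≤ 9 * X) : n ≤ ⌊X ^ (10 : ℝ)⌋₊ := by
  apply Nat.le_floor
  have h1 := qb_Xbig hX
  have h2 : X * X = X ^ (2 : ℝ) := by
    rw [show (2 : ℝ) = ((2 : ℕ) : ℝ) by norm_num, Real.rpow_natCast]; ring
  have h3 : X ^ (2 : ℝ) ≤ X ^ (10 : ℝ) := qb_le hX (by norm_num)
  have h4 : 9 * X ≤ X * X := by nlinarith
  calc (n : ℝ) ≤ 9 * X := h
    _ ≤ X * X := h4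
    _ = X ^ (2 : ℝ) := h2
    _ ≤ X ^ (10 : ℝ) := h3

private lemma qb_log (hX : Le X T ε) {n : ℕ} (h : n ≤ ⌊X ^ (10 : ℝ)⌋₊) : Real.log n ≤ T := by
  rcases Nat.eq_zero_or_pos n with h0 | h0
  · rw [h0, Nat.cast_zero, Real.log_zero]
    exact (qb_T0 hX).le
  · have h1 : Real.log n ≤ Real.log ⌊X ^ (10 : ℝ)⌋₊ := by
      apply Real.log_le_log (by exact_mod_cast h0)
      exact_mod_cast h
    have h2 := hX.big.log
    linarith

private lemma qb_blocks (hX : Le X T ε) {n : ℕ} (h : (n : ℝ) ≤ 9 * X) :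
    ((Nat.log 2 n + 1 : ℕ) : ℝ) ≤ T := by
  have hT := hX.h10
  rcases Nat.eq_zero_or_pos n with h0 | h0
  · rw [h0, Nat.log_zero_right]
    push_cast
    have : (0 : ℝ) + 1 ≤ 10 ^ 10 := by norm_num
    linarith
  · have h1 : 2 ^ Nat.log 2 n ≤ n := Nat.pow_log_le_self 2 h0.ne'
    have h2 : (Nat.log 2 n : ℝ) * Real.log 2 ≤ Real.log n := by
      rw [← Real.log_pow]
      apply Real.log_le_log (by positivity)
      exact_mod_cast h1
    have h3 : n ^ 2 ≤ ⌊X ^ (10 : ℝ)⌋₊ := by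
      apply Nat.le_floor
      have hb := qb_Xbig hX
      have h4 : X ^ (3 : ℝ) ≤ X ^ (10 : ℝ) := qb_le hX (by norm_num)
      have h5 : X ^ (3 : ℝ) = X ^ 3 := by
        rw [show (3 : ℝ) = ((3 : ℕ) : ℝ) by norm_num, Real.rpow_natCast]
      push_cast
      calc (n : ℝ) ^ 2 ≤ (9 * X) ^ 2 := by gcongr
        _ = 81 * X ^ 2 := by ring
        _ ≤ X * X ^ 2 := by
            apply mul_le_mul_of_nonneg_right _ (by positivity)
            have : (81 : ℝ) ≤ 10 ^ 10 := by norm_num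
            linarith
        _ = X ^ (3 : ℝ) := by rw [h5]; ring
        _ ≤ X ^ (10 : ℝ) := h4
    have h6 : 2 * Real.log n ≤ Real.log ⌊X ^ (10 : ℝ)⌋₊ := by
      have h7 : 2 * Real.log n = Real.log ((n : ℝ) ^ 2) := by
        rw [Real.log_pow]; norm_num
      rw [h7]
      apply Real.log_le_log (by positivity)
      exact_mod_cast h3
    have h8 := hX.big.log
    have h9 := Real.log_two_gt_d9
    push_cast
    have h10 : (0 : ℝ) ≤ (Nat.log 2 n : ℝ) := by positivity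
    nlinarith

/-! ### Dyadic blocks -/

private lemma qb_dyadic {E : Type*} [AddCommMonoid E] (U I : ℕ) (h : ℕ → E) :
    ∑ l ∈ Ioc U (2 ^ I * U), h l =
      ∑ i ∈ range I, ∑ l ∈ Ioc (2 ^ i * U) (2 * (2 ^ i * U)), h l := by
  induction I with
  | zero => simp
  | succ I ih =>
    rw [Finset.sum_range_succ, ← ih]
    have h1 : U ≤ 2 ^ I * U := Nat.le_mul_of_pos_left U (by positivity)
    have h2 : 2 ^ I * U ≤ 2 * (2 ^ I * U) := by omega
    have h3 : 2 ^ (I + 1) * U = 2 * (2 ^ I * U) := by ring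
    rw [h3, Finset.sum_Ioc_consecutive _ h1 h2]

private lemma qb_dyadic' {E : Type*} [AddCommMonoid E] (U V I : ℕ) (hI : V ≤ 2 ^ I * U)
    (h : ℕ → E) :
    ∑ l ∈ Ioc U V, h l =
      ∑ i ∈ range I, ∑ l ∈ Ioc (2 ^ i * U) (2 * (2 ^ i * U)), (if l ≤ V then h l else 0) := by
  rw [← qb_dyadic U I (fun l => if l ≤ V then h l else 0), ← Finset.sum_filter]
  refine Finset.sum_congr ?_ (fun _ _ => rfl)
  ext l
  simp only [Finset.mem_filter, Finset.mem_Ioc]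
  omega

private lemma qb_pow_gt (U V : ℕ) (hU : 1 ≤ U) : V ≤ 2 ^ (Nat.log 2 V + 1) * U := by
  have h1 : V < 2 ^ (Nat.log 2 V + 1) := Nat.lt_pow_succ_log_self (by norm_num) V
  have h2 : 2 ^ (Nat.log 2 V + 1) * 1 ≤ 2 ^ (Nat.log 2 V + 1) * U := Nat.mul_le_mul_left _ hU
  omega

private lemma qb_num {X T P h K L L₁ Q₁ Q₂ G J : ℝ} (hT : 10 ^ 10 ≤ T) (hP1 : 1 ≤ P)
    (hh : h ^ 2 = X) (hh1 : 1 ≤ h) (hPX : P ^ 2 ≤ X) (hK0 : 0 ≤ K) (hL0 : 0 ≤ L)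
    (hQ10 : 0 < Q₁) (hG0 : 0 < G) (hJ0 : 0 ≤ J)
    (hKL1 : K * L₁ ≤ 4 * X) (hLL : L ≤ 2 * L₁) (hPL : P ^ 2 ≤ 2 * L₁) (hLh : L₁ ≤ 4 * h)
    (hQ2 : Q₂ = 2 * Q₁) (hQ2' : Q₂ * P ^ 8 ≤ 2 * h) (hQ1 : P ^ 8 ≤ 2 * Q₁) (hG : P ≤ 2 * G)
    (hGP : G ≤ P) (hJP : J ≤ P) :
    T ^ 2 * J * √(9 * K * (K + 1 + Q₂ ^ 2) * (T ^ 3 * L + 4 * T ^ 3 * J * L ^ 2 * G / Q₁)) +
      T ^ 4 * J * (K * L) / G ≤ T ^ 5 * J * X / P := by
  have hT0 : 0 < T := by linarith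
  have hP0 : 0 < P := by linarith
  have hX1 : 1 ≤ X := by rw [← hh]; nlinarith
  have hX0 : 0 < X := by linarith
  have hhX : h ≤ X := by rw [← hh]; nlinarith
  have hL10 : 0 ≤ L₁ := by nlinarith [sq_nonneg P]
  have hQ20 : 0 ≤ Q₂ := by rw [hQ2]; linarith
  have hKL : K * L ≤ 8 * X := by
    calc K * L ≤ K * (2 * L₁) := by gcongr
      _ = 2 * (K * L₁) := by ring
      _ ≤ 2 * (4 * X) := by gcongr
      _ = 8 * X := by ring
  have hKL0 : 0 ≤ K * L := mul_nonneg hK0 hL0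
  have hKP : K * P ^ 2 ≤ 8 * X := by
    calc K * P ^ 2 ≤ K * (2 * L₁) := by gcongr
      _ = 2 * (K * L₁) := by ring
      _ ≤ 2 * (4 * X) := by gcongr
      _ = 8 * X := by ring
  have hL8 : L ≤ 8 * h := by linarith
  have hP8 : (1 : ℝ) ≤ P ^ 8 := one_le_pow₀ hP1
  have hQP : Q₂ ^ 2 * P ^ 2 ≤ 4 * X := by
    have h1 : P ^ 2 ≤ P ^ 16 := pow_le_pow_right₀ hP1 (by norm_num)
    calc Q₂ ^ 2 * P ^ 2 ≤ Q₂ ^ 2 * P ^ 16 := by gcongr
      _ = (Q₂ * P ^ 8) ^ 2 := by ring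
      _ ≤ (2 * h) ^ 2 := by gcongr
      _ = 4 * X := by rw [← hh]; ring
  -- first part
  have e1 : K * (K + 1 + Q₂ ^ 2) * L * P ^ 2 ≤ 104 * X ^ 2 := by
    have a1 : (K * L) * (K * P ^ 2) ≤ (8 * X) * (8 * X) :=
      mul_le_mul hKL hKP (by positivity) (by positivity)
    have a2 : (K * L) * P ^ 2 ≤ (8 * X) * X :=
      mul_le_mul hKL hPX (by positivity) (by positivity)
    have a3 : (K * L) * (Q₂ ^ 2 * P ^ 2) ≤ (8 * X) * (4 * X) :=
      mul_le_mul hKL hQP (by positivity) (by positivity)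
    have a4 : K * (K + 1 + Q₂ ^ 2) * L * P ^ 2 = (K * L) * (K * P ^ 2) + (K * L) * P ^ 2 +
        (K * L) * (Q₂ ^ 2 * P ^ 2) := by ring
    rw [a4]
    nlinarith
  -- second part
  have hKLL : K * L ^ 2 ≤ 64 * (X * h) := by
    calc K * L ^ 2 = (K * L) * L := by ring
      _ ≤ (8 * X) * (8 * h) := mul_le_mul hKL hL8 hL0 (by positivity)
      _ = 64 * (X * h) := by ring
  have hKKLL : K ^ 2 * L ^ 2 ≤ 64 * X ^ 2 := by
    calc K ^ 2 * L ^ 2 = (K * L) ^ 2 := by ring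
      _ ≤ (8 * X) ^ 2 := by gcongr
      _ = 64 * X ^ 2 := by ring
  have hinv : P ^ 4 / Q₁ ≤ 2 := by
    rw [div_le_iff₀ hQ10]
    have h1 : P ^ 4 ≤ P ^ 8 := pow_le_pow_right₀ hP1 (by norm_num)
    linarith
  have e2 : K * (K + 1 + Q₂ ^ 2) * L ^ 2 * P ^ 4 / Q₁ ≤ 512 * X ^ 2 := by
    have b1 : K * (K + 1 + Q₂ ^ 2) * L ^ 2 * P ^ 4 / Q₁ =
        (K ^ 2 * L ^ 2 + K * L ^ 2) * (P ^ 4 / Q₁) + K * L ^ 2 * (2 * (Q₂ * P ^ 4)) := by
      rw [hQ2]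
      field_simp
    have b2 : (K ^ 2 * L ^ 2 + K * L ^ 2) ≤ 128 * X ^ 2 := by
      have : X * h ≤ X ^ 2 := by rw [sq]; gcongr
      nlinarith
    have b3 : (K ^ 2 * L ^ 2 + K * L ^ 2) * (P ^ 4 / Q₁) ≤ (128 * X ^ 2) * 2 :=
      mul_le_mul b2 hinv (by positivity) (by positivity)
    have b4 : Q₂ * P ^ 4 ≤ 2 * h := by
      have h1 : P ^ 4 ≤ P ^ 8 := pow_le_pow_right₀ hP1 (by norm_num)
      calc Q₂ * P ^ 4 ≤ Q₂ * P ^ 8 := by gcongr
        _ ≤ 2 * h := hQ2'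
    have b5 : K * L ^ 2 * (2 * (Q₂ * P ^ 4)) ≤ (64 * (X * h)) * (2 * (2 * h)) := by
      apply mul_le_mul hKLL _ (by positivity) (by positivity)
      gcongr
    have b6 : (64 * (X * h)) * (2 * (2 * h)) = 256 * X ^ 2 := by
      rw [← hh]; ring
    rw [b1]
    linarith
  have e3 : J * G ≤ P ^ 2 := by
    calc J * G ≤ P * P := mul_le_mul hJP hGP hG0.le hP0.le
      _ = P ^ 2 := by ring
  have e4 : K * (K + 1 + Q₂ ^ 2) * (J * L ^ 2 * G / Q₁) * P ^ 2 ≤ 512 * X ^ 2 := by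
    calc K * (K + 1 + Q₂ ^ 2) * (J * L ^ 2 * G / Q₁) * P ^ 2
        = (K * (K + 1 + Q₂ ^ 2) * L ^ 2 * P ^ 2 / Q₁) * (J * G) := by ring
      _ ≤ (K * (K + 1 + Q₂ ^ 2) * L ^ 2 * P ^ 2 / Q₁) * P ^ 2 := by gcongr
      _ = K * (K + 1 + Q₂ ^ 2) * L ^ 2 * P ^ 4 / Q₁ := by ring
      _ ≤ 512 * X ^ 2 := e2
  have e5 : 9 * K * (K + 1 + Q₂ ^ 2) * (T ^ 3 * L + 4 * T ^ 3 * J * L ^ 2 * G / Q₁) ≤
      (T ^ 2 * X / P) ^ 2 := by
    have c1 : (T ^ 2 * X / P) ^ 2 = T ^ 4 * X ^ 2 / P ^ 2 := by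
      rw [div_pow]; ring
    rw [c1, le_div_iff₀ (by positivity)]
    have c2 : 9 * K * (K + 1 + Q₂ ^ 2) * (T ^ 3 * L + 4 * T ^ 3 * J * L ^ 2 * G / Q₁) * P ^ 2 =
        9 * T ^ 3 * (K * (K + 1 + Q₂ ^ 2) * L * P ^ 2 +
          4 * (K * (K + 1 + Q₂ ^ 2) * (J * L ^ 2 * G / Q₁) * P ^ 2)) := by ring
    rw [c2]
    calc 9 * T ^ 3 * (K * (K + 1 + Q₂ ^ 2) * L * P ^ 2 +
          4 * (K * (K + 1 + Q₂ ^ 2) * (J * L ^ 2 * G / Q₁) * P ^ 2))
        ≤ 9 * T ^ 3 * (104 * X ^ 2 + 4 * (512 * X ^ 2)) := by gcongr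
      _ = T ^ 3 * X ^ 2 * 19368 := by ring
      _ ≤ T ^ 3 * X ^ 2 * T := by
          apply mul_le_mul_of_nonneg_left _ (by positivity)
          have : (19368 : ℝ) ≤ 10 ^ 10 := by norm_num
          linarith
      _ = T ^ 4 * X ^ 2 := by ring
  have e6 : √(9 * K * (K + 1 + Q₂ ^ 2) * (T ^ 3 * L + 4 * T ^ 3 * J * L ^ 2 * G / Q₁)) ≤
      T ^ 2 * X / P := by
    rw [Real.sqrt_le_left (by positivity)]
    exact e5
  have e7 : (K * L) / G ≤ 16 * X / P := by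
    rw [div_le_div_iff₀ hG0 hP0]
    calc K * L * P ≤ (8 * X) * (2 * G) := mul_le_mul hKL hG hP0.le (by positivity)
      _ = 16 * X * G := by ring
  calc T ^ 2 * J * √(9 * K * (K + 1 + Q₂ ^ 2) * (T ^ 3 * L + 4 * T ^ 3 * J * L ^ 2 * G / Q₁)) +
      T ^ 4 * J * (K * L) / G
      = T ^ 2 * J * √(9 * K * (K + 1 + Q₂ ^ 2) * (T ^ 3 * L + 4 * T ^ 3 * J * L ^ 2 * G / Q₁)) +
      T ^ 4 * J * ((K * L) / G) := by ring
    _ ≤ T ^ 2 * J * (T ^ 2 * X / P) + T ^ 4 * J * (16 * X / P) := by gcongr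
    _ = T ^ 4 * J * X / P * 17 := by ring
    _ ≤ T ^ 4 * J * X / P * T := by
        apply mul_le_mul_of_nonneg_left _ (by positivity)
        have : (17 : ℝ) ≤ 10 ^ 10 := by norm_num
        linarith
    _ = T ^ 5 * J * X / P := by ring


private lemma qb_floor (hX : Le X T ε) {a : ℝ} (ha : 0 ≤ a) :
    1 ≤ ⌊X ^ a⌋₊ ∧ (⌊X ^ a⌋₊ : ℝ) ≤ X ^ a ∧ X ^ a ≤ 2 * (⌊X ^ a⌋₊ : ℝ) := by
  have h1 : 1 ≤ X ^ a := Real.one_le_rpow hX.X1 ha
  have h2 : 1 ≤ ⌊X ^ a⌋₊ := (Nat.one_le_floor_iff _).2 h1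
  have h3 : (1 : ℝ) ≤ (⌊X ^ a⌋₊ : ℝ) := by exact_mod_cast h2
  refine ⟨h2, Nat.floor_le (by linarith), ?_⟩
  have h4 := Nat.lt_floor_add_one (X ^ a)
  linarith

/-- the blocks of moduli -/
private noncomputable def qbBlk (X ε : ℝ) (i : ℕ) : Finset ℕ :=
  (Ioc (2 ^ i * ⌊X ^ ε⌋₊) (2 * (2 ^ i * ⌊X ^ ε⌋₊))).filter
    (fun q => q ≤ ⌊X ^ (1 / 2 - ε)⌋₊ ∧ Squarefree q)

private lemma qb_FQ (X ε : ℝ) (I : ℕ) (hI : ⌊X ^ (1 / 2 - ε)⌋₊ ≤ 2 ^ I * ⌊X ^ ε⌋₊) (n : ℤ) :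
    FQ (Q1 X ε) n = ∑ i ∈ range I, FQ (qbBlk X ε i) n := by
  unfold FQ Q1 qbBlk
  rw [Finset.sum_filter, qb_dyadic' _ _ I hI]
  refine Finset.sum_congr rfl (fun i _ => ?_)
  rw [Finset.sum_filter]
  refine Finset.sum_congr rfl (fun q _ => ?_)
  by_cases h1 : q ≤ ⌊X ^ (1 / 2 - ε)⌋₊
  · by_cases h2 : Squarefree q
    · rw [if_pos h1, if_pos h2, if_pos ⟨h1, h2⟩]
    · rw [if_pos h1, if_neg h2, if_neg (fun h => h2 h.2)]
  · rw [if_neg h1, if_neg (fun h => h1 h.1)]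

private lemma qb_j (hX : Le X T ε) {j : ℤ} (hjX : |(j : ℝ)| ≤ X ^ (ε / 100)) {L₁ : ℕ}
    (h1 : X ^ (ε / 4) ≤ (L₁ : ℝ) + 1) : j.natAbs ≤ L₁ ∧ 1 ≤ L₁ := by
  have hε := hX.hε
  have h2 : (10 : ℝ) ^ 10 * X ^ (ε / 100) ≤ X ^ (ε / 4) := by
    have h3 := qb_TXle hX 1 (a := ε / 100) (b := ε / 4) (by push_cast; linarith)
    rw [pow_one] at h3
    have h4 : (10 : ℝ) ^ 10 * X ^ (ε / 100) ≤ T * X ^ (ε / 100) := by
      have := hX.h10
      have hp : 0 < X ^ (ε / 100) := Real.rpow_pos_of_pos (qb_X0 hX) _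
      gcongr
    linarith
  have h5 : (1 : ℝ) ≤ X ^ (ε / 100) := Real.one_le_rpow hX.X1 (by positivity)
  have h6 : (j.natAbs : ℝ) = |(j : ℝ)| := by rw [Nat.cast_natAbs, Int.cast_abs]
  constructor
  · have h7 : (j.natAbs : ℝ) ≤ L₁ := by
      rw [h6]
      norm_num at h2
      linarith
    exact_mod_cast h7
  · have h7 : (1 : ℝ) ≤ L₁ := by
      norm_num at h2
      linarith
    exact_mod_cast h7

theorem q1_bil (hX : Le X T ε) (j : ℤ) (hj : j ≠ 0) (hjX : |(j : ℝ)| ≤ X ^ (ε / 100))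
    (K L₁ L₂ : ℕ) (hL12 : L₂ ≤ 2 * L₁) (hK : (K : ℝ) * L₁ ≤ 4 * X)
    (h1 : X ^ (ε / 4) ≤ (L₁ : ℝ) + 1) (h2 : (L₁ : ℝ) ≤ 4 * X ^ (1 / 2 : ℝ)) :
    Bil (fun n => FQ (Q1 X ε) (n + j)) K (Ioc L₁ L₂) (X ^ (1 - ε / 12)) := by
  have hX0 := qb_X0 hX
  have hXb := qb_Xbig hX
  have hT0 := qb_T0 hX
  have hε := hX.hε
  have hε1 := hX.hε1
  obtain ⟨hA1, hA2, hA3⟩ := qb_floor hX (a := ε) hε.le
  obtain ⟨hG1, hG2, hG3⟩ := qb_floor hX (a := ε / 8) (by positivity)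
  obtain ⟨hB1, hB2, hB3⟩ := qb_floor hX (a := 1 / 2 - ε) (by linarith)
  obtain ⟨hjL, hL1⟩ := qb_j hX hjX h1
  set A : ℕ := ⌊X ^ ε⌋₊ with hA
  set B : ℕ := ⌊X ^ (1 / 2 - ε)⌋₊ with hB
  set G₀ : ℕ := ⌊X ^ (ε / 8)⌋₊ with hG₀
  set P : ℝ := X ^ (ε / 8) with hP
  set h : ℝ := X ^ (1 / 2 : ℝ) with hh
  set I : ℕ := Nat.log 2 B + 1 with hI
  have hP0 : 0 < P := Real.rpow_pos_of_pos hX0 _
  have hh2 : h ^ 2 = X := by
    rw [hh, ← Real.rpow_natCast, ← Real.rpow_mul hX0.le]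
    norm_num
  have hh1 : 1 ≤ h := Real.one_le_rpow hX.X1 (by norm_num)
  have hPn : ∀ n : ℕ, P ^ n = X ^ (ε / 8 * n) := by
    intro n
    rw [hP, ← Real.rpow_natCast, ← Real.rpow_mul hX0.le]
  have hBX : (B : ℝ) ≤ 9 * X := by
    have h3 : X ^ (1 / 2 - ε) ≤ X ^ (1 : ℝ) := qb_le hX (by linarith)
    rw [Real.rpow_one] at h3
    linarith
  have hIT : (I : ℝ) ≤ T := qb_blocks hX hBX
  have hhX : h ≤ X := by
    have h3 : X ^ (1 / 2 : ℝ) ≤ X ^ (1 : ℝ) := qb_le hX (by norm_num)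
    rwa [Real.rpow_one] at h3
  have hL2r : (L₂ : ℝ) ≤ 2 * L₁ := by exact_mod_cast hL12
  have hKL2 : ((K * L₂ : ℕ) : ℝ) ≤ 8 * X := by
    push_cast
    calc (K : ℝ) * L₂ ≤ K * (2 * L₁) := by gcongr
      _ = 2 * (K * L₁) := by ring
      _ ≤ 2 * (4 * X) := by gcongr
      _ = 8 * X := by ring
  have hjP : |(j : ℝ)| ≤ P := le_trans hjX (qb_le hX (by linarith))
  have hPX' : P ≤ X := by
    have h3 : X ^ (ε / 8) ≤ X ^ (1 : ℝ) := qb_le hX (by linarith)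
    rwa [Real.rpow_one] at h3
  set Bd : ℝ := T ^ 5 * |(j : ℝ)| * X / P with hBd
  have hBd0 : 0 ≤ Bd := by positivity
  have hblk : ∀ i ∈ range I, Bil (fun n => FQ (qbBlk X ε i) (n + j)) K (Ioc L₁ L₂) Bd := by
    intro i _
    rcases (qbBlk X ε i).eq_empty_or_nonempty with he | ⟨q, hq⟩
    · intro α β _ _
      simp only [he, FQ, Finset.sum_empty, mul_zero, Finset.sum_const_zero, abs_zero]
      exact hBd0
    · have hq' := hq
      unfold qbBlk at hq'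
      rw [Finset.mem_filter, Finset.mem_Ioc] at hq'
      have hQ1B : 2 ^ i * A < B := lt_of_lt_of_le hq'.1.1 hq'.2.1
      set Q₁ : ℕ := 2 ^ i * A with hQ₁
      have hAQ : A ≤ Q₁ := Nat.le_mul_of_pos_left A (by positivity)
      have hQ₁0 : 0 < Q₁ := by omega
      intro α β hα hβ
      have hS : ∀ l ∈ Ioc L₁ L₂, j.natAbs < l ∧ l ≤ L₂ := by
        intro l hl
        rw [Finset.mem_Ioc] at hl
        omega
      have hGA : G₀ ≤ A := Nat.floor_le_floor (qb_le hX (by linarith))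
      have hQM : 2 * Q₁ ≤ ⌊X ^ (10 : ℝ)⌋₊ := by
        apply qb_leM hX
        push_cast
        have h3 : (Q₁ : ℝ) ≤ B := by exact_mod_cast hQ1B.le
        have h4 : X ^ (1 / 2 - ε) ≤ X ^ (1 : ℝ) := qb_le hX (by linarith)
        rw [Real.rpow_one] at h4
        linarith
      have hKLM : K * L₂ + j.natAbs ≤ ⌊X ^ (10 : ℝ)⌋₊ := by
        apply qb_leM hX
        rw [Nat.cast_add]
        have h3 : (j.natAbs : ℝ) = |(j : ℝ)| := by rw [Nat.cast_natAbs, Int.cast_abs]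
        rw [h3]
        linarith
      have hLM : L₂ ≤ ⌊X ^ (10 : ℝ)⌋₊ := by
        apply qb_leM hX
        linarith
      have hls := ls_full hX.big (qbBlk X ε i) Q₁ (2 * Q₁) G₀ hG1 (hGA.trans hAQ)
        (fun q hq => by
          unfold qbBlk at hq
          rw [Finset.mem_filter, Finset.mem_Ioc] at hq
          exact ⟨hq.2.2, hq.1.1, hq.1.2⟩) hQM α β (fun _ => 1) hα hβ (fun _ => by simp)
        K L₂ (Ioc L₁ L₂) j hj hS hKLM hLM
      have heq : ∑ k ∈ Ioc 0 K, ∑ l ∈ Ioc L₁ L₂, α k * β l *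
          (fun n => FQ (qbBlk X ε i) (n + j)) ((k : ℤ) * l) =
          ∑ k ∈ Ioc 0 K, ∑ l ∈ Ioc L₁ L₂, α k * β l *
            ∑ q ∈ qbBlk X ε i, (fun _ : ℕ => (1 : ℝ)) q * bc q ((k : ℤ) * l + j) := by
        simp only [one_mul, FQ]
      rw [heq]
      refine le_trans hls ?_
      have hQ1r : (0 : ℝ) < (Q₁ : ℝ) := by exact_mod_cast hQ₁0
      have hnum := qb_num (X := X) (T := T) (P := P) (h := h) (K := K) (L := L₂) (L₁ := L₁)
        (Q₁ := Q₁) (Q₂ := ((2 * Q₁ : ℕ) : ℝ)) (G := G₀) (J := |(j : ℝ)|) hX.h10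
        (Real.one_le_rpow hX.X1 (by positivity)) hh2 hh1
        (by
          rw [hPn]
          have h3 : X ^ (ε / 8 * (2 : ℕ)) ≤ X ^ (1 : ℝ) := by
            apply qb_le hX
            push_cast
            linarith
          rwa [Real.rpow_one] at h3)
        (by positivity) (by positivity) hQ1r (by exact_mod_cast hG1) (abs_nonneg _) hK hL2r
        (by
          rw [hPn]
          have h3 : X ^ (ε / 8 * (2 : ℕ)) = X ^ (ε / 4) := by
            congr 1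
            push_cast
            ring
          rw [h3]
          have h4 : (1 : ℝ) ≤ L₁ := by exact_mod_cast hL1
          linarith) h2 (by push_cast; ring)
        (by
          rw [hPn]
          have h3 : X ^ (ε / 8 * (8 : ℕ)) = X ^ ε := by
            congr 1
            push_cast
            ring
          rw [h3]
          have h4 : (Q₁ : ℝ) ≤ X ^ (1 / 2 - ε) := le_trans (by exact_mod_cast hQ1B.le) hB2
          have h5 : X ^ (1 / 2 - ε) * X ^ ε = h := by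
            rw [← Real.rpow_add hX0, hh]
            congr 1
            ring
          have h6 : 0 < X ^ ε := Real.rpow_pos_of_pos hX0 _
          push_cast
          calc 2 * (Q₁ : ℝ) * X ^ ε ≤ 2 * X ^ (1 / 2 - ε) * X ^ ε := by gcongr
            _ = 2 * (X ^ (1 / 2 - ε) * X ^ ε) := by ring
            _ = 2 * h := by rw [h5])
        (by
          rw [hPn]
          have h3 : X ^ (ε / 8 * (8 : ℕ)) = X ^ ε := by
            congr 1
            push_cast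
            ring
          rw [h3]
          have h4 : (A : ℝ) ≤ Q₁ := by exact_mod_cast hAQ
          linarith) hG3 hG2 hjP
      exact hnum
  have hsum := Bil.sum (range I) (fun i n => FQ (qbBlk X ε i) (n + j)) (fun _ => Bd) hblk
  have heq : (fun n => FQ (Q1 X ε) (n + j)) =
      fun n => ∑ i ∈ range I, FQ (qbBlk X ε i) (n + j) := by
    funext n
    exact qb_FQ X ε I (qb_pow_gt _ _ hA1) (n + j)
  rw [heq]
  refine hsum.mono le_rfl (Finset.Subset.refl _) ?_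
  rw [Finset.sum_const, Finset.card_range, nsmul_eq_mul]
  calc (I : ℝ) * Bd ≤ T * (T ^ 5 * X ^ (ε / 100) * X / P) := by
        rw [hBd]
        gcongr
    _ = T ^ 6 * (X ^ (ε / 100) * X / P) := by ring
    _ = T ^ 6 * X ^ (ε / 100 + 1 - ε / 8) := by
        rw [hP, Real.rpow_sub hX0, Real.rpow_add hX0, Real.rpow_one]
    _ ≤ X ^ (1 - ε / 12) := by
        apply qb_TXle hX
        push_cast
        linarith


private lemma qb_Q1 {q : ℕ} (hq : q ∈ Q1 X ε) :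
    Squarefree q ∧ ⌊X ^ ε⌋₊ < q ∧ q ≤ ⌊X ^ (1 / 2 - ε)⌋₊ := by
  unfold Q1 at hq
  rw [Finset.mem_filter, Finset.mem_Ioc] at hq
  exact ⟨hq.2, hq.1.1, hq.1.2⟩

private lemma qb_BM (hX : Le X T ε) : ⌊X ^ (1 / 2 - ε)⌋₊ ≤ ⌊X ^ (10 : ℝ)⌋₊ := by
  apply Nat.floor_le_floor
  apply qb_le hX
  linarith [hX.hε]

/-- pointwise bound -/
private lemma qb_FQabs (hX : Le X T ε) (n : ℤ) (hn : n ≠ 0) (hn2 : (n.natAbs : ℝ) ≤ 9 * X) :
    |FQ (Q1 X ε) n| ≤ T ^ 3 :=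
  abs_FQ_le hX.big (Q1 X ε) (fun _ hv => ⟨(qb_Q1 hv).1, (qb_Q1 hv).2.2.trans (qb_BM hX)⟩) n hn
    (qb_leM hX hn2)

/-- the function `F` -/
private noncomputable def qbF (X ε : ℝ) (j : ℤ) (n : ℤ) : ℝ :=
  if n ≤ |j| then 0 else FQ (Q1 X ε) (n + j)

private lemma qb_box (hX : Le X T ε) (j : ℤ) (hj : j ≠ 0) (hjX : |(j : ℝ)| ≤ X ^ (ε / 100))
    (N : ℕ) (hN : (N : ℝ) ≤ 4 * X) (L₁ : ℕ) (h1 : X ^ (ε / 4) ≤ (L₁ : ℝ) + 1)
    (h2 : (L₁ : ℝ) ≤ 4 * X ^ (1 / 2 : ℝ)) (α β : ℕ → ℝ) (hα : ∀ k, |α k| ≤ 1)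
    (hβ : ∀ l, |β l| ≤ 1) :
    |∑ l ∈ Ioc L₁ (2 * L₁), ∑ k ∈ Ioc 0 (N / l), α k * β l * qbF X ε j ((k : ℤ) * l)| ≤
      3 * X ^ (1 - ε / 30) := by
  have hX0 := qb_X0 hX
  have hXb := qb_Xbig hX
  have hT0 := qb_T0 hX
  have hT10 := hX.h10
  have hε := hX.hε
  have hε1 := hX.hε1
  obtain ⟨hjL, hL1⟩ := qb_j hX hjX h1
  have hL1r : (1 : ℝ) ≤ L₁ := by exact_mod_cast hL1
  have hjabs : (j.natAbs : ℝ) = |(j : ℝ)| := by rw [Nat.cast_natAbs, Int.cast_abs]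
  have hjX1 : |(j : ℝ)| ≤ X := by
    have h3 : X ^ (ε / 100) ≤ X ^ (1 : ℝ) := qb_le hX (by linarith)
    rw [Real.rpow_one] at h3
    linarith
  set p : ℝ := X ^ (ε / 20) with hp
  have hp1 : 1 ≤ p := Real.one_le_rpow hX.X1 (by positivity)
  have hp0 : 0 < p := by linarith
  set lam : ℕ := ⌈(L₁ : ℝ) / p⌉₊ with hlam
  have hlam1 : 1 ≤ lam := Nat.one_le_ceil_iff.2 (by positivity)
  have hlam2 : lam ≤ L₁ := by
    apply Nat.ceil_le.2
    rw [div_le_iff₀ hp0]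
    nlinarith
  have hlam3 : (L₁ : ℝ) / p ≤ lam := Nat.le_ceil _
  have hlam4 : (lam : ℝ) ≤ (L₁ : ℝ) / p + 1 := (Nat.ceil_lt_add_one (by positivity)).le
  have hlam0 : (0 : ℝ) < lam := by exact_mod_cast hlam1
  -- the bilinear bound
  have hbil0 := q1_bil hX j hj hjX (N / L₁) L₁ (2 * L₁) le_rfl
    (by
      have h3 : (N / L₁) * L₁ ≤ N := Nat.div_mul_le_self N L₁
      have h4 : (((N / L₁ : ℕ) : ℝ)) * (L₁ : ℝ) ≤ N := by exact_mod_cast h3
      linarith) h1 h2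
  have hbil : Bil (qbF X ε j) (N / L₁) (Ioc L₁ (2 * L₁)) (X ^ (1 - ε / 12)) := by
    intro α' β' hα' hβ'
    have h3 := hbil0 α' β' hα' hβ'
    refine le_trans (le_of_eq ?_) h3
    congr 1
    refine Finset.sum_congr rfl (fun k hk => Finset.sum_congr rfl (fun l hl => ?_))
    rw [Finset.mem_Ioc] at hk hl
    have h4 : ¬ ((k : ℤ) * l ≤ |j|) := by
      have h5 : j.natAbs < k * l := by
        have : l ≤ k * l := Nat.le_mul_of_pos_left l hk.1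
        omega
      have h6 : |j| = ((j.natAbs : ℕ) : ℤ) := Int.abs_eq_natAbs j
      rw [h6, not_le]
      exact_mod_cast h5
    unfold qbF
    rw [if_neg h4]
  have hYM : 2 * N ≤ ⌊X ^ (10 : ℝ)⌋₊ := by
    apply qb_leM hX
    push_cast
    linarith
  have hF : ∀ n : ℕ, 0 < n → n ≤ 2 * N → |qbF X ε j n| ≤ T ^ 3 := by
    intro n hn hn2
    unfold qbF
    split_ifs with h3
    · rw [abs_zero]; positivity
    · have h6 : |j| = ((j.natAbs : ℕ) : ℤ) := Int.abs_eq_natAbs j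
      rw [h6, not_le] at h3
      apply qb_FQabs hX
      · omega
      · have h4 : ((n : ℤ) + j).natAbs ≤ n + j.natAbs := by
          have := Int.natAbs_add_le (n : ℤ) j
          simpa using this
        have h5 : ((((n : ℤ) + j).natAbs : ℕ) : ℝ) ≤ (n : ℝ) + (j.natAbs : ℝ) := by
          exact_mod_cast h4
        have h7 : (n : ℝ) ≤ 2 * N := by exact_mod_cast hn2
        rw [hjabs] at h5
        linarith
  have hbox := box hX.big (qbF X ε j) (N / L₁) L₁ (2 * L₁) N lam hL1 hlam1 hlam2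
    (by omega) le_rfl hYM (X ^ (1 - ε / 12)) (T ^ 3) (by positivity) hF hbil α β hα hβ
  refine le_trans hbox ?_
  have hB0 : 0 < X ^ (1 - ε / 12) := Real.rpow_pos_of_pos hX0 _
  -- first term
  have t1 : ((((2 * L₁ : ℕ) : ℝ) - L₁) / lam + 1) * X ^ (1 - ε / 12) ≤ 2 * X ^ (1 - ε / 30) := by
    have h3 : (((2 * L₁ : ℕ) : ℝ) - L₁) / lam ≤ p := by
      push_cast
      rw [div_le_iff₀ hlam0]
      rw [div_le_iff₀ hp0] at hlam3
      linarith
    calc ((((2 * L₁ : ℕ) : ℝ) - L₁) / lam + 1) * X ^ (1 - ε / 12)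
        ≤ (p + p) * X ^ (1 - ε / 12) := by gcongr
      _ = 2 * (p * X ^ (1 - ε / 12)) := by ring
      _ = 2 * X ^ (1 - ε / 30) := by
          rw [hp, ← Real.rpow_add hX0]
          congr 2
          ring
  have t2 : T ^ 3 * T * ((N : ℝ) * lam / L₁ + 1) ≤ X ^ (1 - ε / 30) := by
    have h3 : p ≤ 2 * L₁ := by
      have h4 : X ^ (ε / 20) ≤ X ^ (ε / 4) := qb_le hX (by linarith)
      linarith
    have h5 : (N : ℝ) * lam / L₁ ≤ 12 * (X / p) := by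
      rw [div_le_iff₀ (by linarith)]
      have h6 : (lam : ℝ) ≤ 3 * (L₁ / p) := by
        have h7 : (1 : ℝ) ≤ 2 * (L₁ / p) := by
          rw [← mul_div_assoc, le_div_iff₀ hp0]
          linarith
        linarith
      calc (N : ℝ) * lam ≤ (4 * X) * (3 * (L₁ / p)) := by gcongr
        _ = 12 * (X / p) * L₁ := by ring
    have h8 : 1 ≤ X / p := by
      rw [le_div_iff₀ hp0, one_mul]
      have h3 : X ^ (ε / 20) ≤ X ^ (1 : ℝ) := qb_le hX (by linarith)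
      rwa [Real.rpow_one] at h3
    have h9 : X / p = X ^ (1 - ε / 20) := by
      rw [hp, Real.rpow_sub hX0, Real.rpow_one]
    calc T ^ 3 * T * ((N : ℝ) * lam / L₁ + 1) ≤ T ^ 3 * T * (12 * (X / p) + X / p) := by gcongr
      _ = T ^ 4 * (X / p) * 13 := by ring
      _ ≤ T ^ 4 * (X / p) * T := by
          apply mul_le_mul_of_nonneg_left _ (by positivity)
          have : (13 : ℝ) ≤ 10 ^ 10 := by norm_num
          linarith
      _ = T ^ 5 * X ^ (1 - ε / 20) := by rw [h9]; ring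
      _ ≤ X ^ (1 - ε / 30) := by
          apply qb_TXle hX
          push_cast
          linarith
  linarith

/-- the cut -/
private lemma qb_cut (N n₀ m : ℕ) (hm : 0 < m) (h : ℕ → ℝ) :
    ∑ d ∈ Ioc 0 (N / m), (if n₀ < m * d then h d else 0) =
      ∑ d ∈ Ioc 0 (N / m), h d - ∑ d ∈ Ioc 0 (min N n₀ / m), h d := by
  have h1 : ∑ d ∈ Ioc 0 (N / m), (if n₀ < m * d then h d else 0) +
      ∑ d ∈ Ioc 0 (N / m), (if ¬ n₀ < m * d then h d else 0) = ∑ d ∈ Ioc 0 (N / m), h d := by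
    rw [← Finset.sum_add_distrib]
    refine Finset.sum_congr rfl (fun d _ => ?_)
    by_cases h2 : n₀ < m * d
    · rw [if_pos h2, if_neg (not_not.2 h2), add_zero]
    · rw [if_neg h2, if_pos h2, zero_add]
  have h2 : ∑ d ∈ Ioc 0 (N / m), (if ¬ n₀ < m * d then h d else 0) =
      ∑ d ∈ Ioc 0 (min N n₀ / m), h d := by
    rw [← Finset.sum_filter]
    refine Finset.sum_congr ?_ (fun _ _ => rfl)
    ext d
    simp only [Finset.mem_filter, Finset.mem_Ioc, not_lt]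
    rw [Nat.le_div_iff_mul_le hm, Nat.le_div_iff_mul_le hm, mul_comm m d, le_min_iff]
    tauto
  linarith

/-- the weight -/
private noncomputable def qbK (X ε : ℝ) (j : ℤ) (n : ℕ) : ℝ :=
  if ⌊X ^ (1 / 2 : ℝ)⌋₊ < n then FQ (Q1 X ε) ((n : ℤ) + j) else 0

private lemma qb_tII (hX : Le X T ε) (j : ℤ) (hj : j ≠ 0) (hjX : |(j : ℝ)| ≤ X ^ (ε / 100))
    (N : ℕ) (hN : (N : ℝ) ≤ 4 * X) (V : ℕ) (hV : (V : ℝ) ≤ 4 * X ^ (1 / 2 : ℝ)) (a b : ℕ → ℝ)
    (ha : ∀ l ≤ ⌊X ^ (10 : ℝ)⌋₊, |a l| ≤ T) (hb : ∀ k ≤ ⌊X ^ (10 : ℝ)⌋₊, |b k| ≤ T) :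
    |∑ l ∈ Ioc ⌊X ^ (ε / 4)⌋₊ V, ∑ k ∈ Ioc 0 (N / l), a l * b k * qbK X ε j (l * k)| ≤
      6 * (T ^ 3 * X ^ (1 - ε / 30)) := by
  have hX0 := qb_X0 hX
  have hXb := qb_Xbig hX
  have hT0 := qb_T0 hX
  have hε := hX.hε
  have hε1 := hX.hε1
  obtain ⟨hU1, hU2, hU3⟩ := qb_floor hX (a := ε / 4) (by positivity)
  set U : ℕ := ⌊X ^ (ε / 4)⌋₊ with hU
  set n₀ : ℕ := ⌊X ^ (1 / 2 : ℝ)⌋₊ with hn₀
  set M : ℕ := ⌊X ^ (10 : ℝ)⌋₊ with hM
  set I : ℕ := Nat.log 2 V + 1 with hI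
  have hhX : X ^ (1 / 2 : ℝ) ≤ X := by
    have h3 : X ^ (1 / 2 : ℝ) ≤ X ^ (1 : ℝ) := qb_le hX (by norm_num)
    rwa [Real.rpow_one] at h3
  have hVX : (V : ℝ) ≤ 9 * X := by linarith
  have hVM : V ≤ M := qb_leM hX hVX
  have hNM : N ≤ M := qb_leM hX (by linarith)
  have hIT : (I : ℝ) ≤ T := qb_blocks hX hVX
  set R : ℝ := X ^ (1 - ε / 30) with hR
  have hR0 : 0 < R := Real.rpow_pos_of_pos hX0 _
  set α : ℕ → ℝ := fun k => if k ≤ M then b k / T else 0 with hα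
  set β : ℕ → ℝ := fun l => if l ≤ V then a l / T else 0 with hβ
  have hα1 : ∀ k, |α k| ≤ 1 := by
    intro k
    simp only [hα]
    split_ifs with h
    · rw [abs_div, abs_of_pos hT0, div_le_one hT0]
      exact hb k h
    · simp
  have hβ1 : ∀ l, |β l| ≤ 1 := by
    intro l
    simp only [hβ]
    split_ifs with h
    · rw [abs_div, abs_of_pos hT0, div_le_one hT0]
      exact ha l (h.trans hVM)
    · simp
  rw [qb_dyadic' U V I (qb_pow_gt U V hU1)]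
  have hblock : ∀ i ∈ range I, |∑ l ∈ Ioc (2 ^ i * U) (2 * (2 ^ i * U)),
      (if l ≤ V then ∑ k ∈ Ioc 0 (N / l), a l * b k * qbK X ε j (l * k) else 0)| ≤
      6 * (T ^ 2 * R) := by
    intro i _
    set L₁ : ℕ := 2 ^ i * U with hL₁
    have hUL : U ≤ L₁ := Nat.le_mul_of_pos_left U (by positivity)
    rcases Nat.lt_or_ge V L₁ with hVL | hVL
    · have h0 : ∑ l ∈ Ioc L₁ (2 * L₁),
          (if l ≤ V then ∑ k ∈ Ioc 0 (N / l), a l * b k * qbK X ε j (l * k) else 0) = 0 := by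
        apply Finset.sum_eq_zero
        intro l hl
        rw [Finset.mem_Ioc] at hl
        rw [if_neg (by omega)]
      rw [h0, abs_zero]
      positivity
    · have hL1X : (L₁ : ℝ) ≤ 4 * X ^ (1 / 2 : ℝ) := le_trans (by exact_mod_cast hVL) hV
      have hL1e : X ^ (ε / 4) ≤ (L₁ : ℝ) + 1 := by
        have h3 := Nat.lt_floor_add_one (X ^ (ε / 4))
        have h4 : (U : ℝ) ≤ L₁ := by exact_mod_cast hUL
        linarith
      obtain ⟨hjL, hL1⟩ := qb_j hX hjX hL1e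
      have b1 := qb_box hX j hj hjX N hN L₁ hL1e hL1X α β hα1 hβ1
      have b2 := qb_box hX j hj hjX (min N n₀)
        (le_trans (by exact_mod_cast min_le_left N n₀) hN) L₁ hL1e hL1X α β hα1 hβ1
      have heq : ∑ l ∈ Ioc L₁ (2 * L₁),
          (if l ≤ V then ∑ k ∈ Ioc 0 (N / l), a l * b k * qbK X ε j (l * k) else 0) =
          T ^ 2 * (∑ l ∈ Ioc L₁ (2 * L₁), ∑ k ∈ Ioc 0 (N / l),
            α k * β l * qbF X ε j ((k : ℤ) * l) -
            ∑ l ∈ Ioc L₁ (2 * L₁), ∑ k ∈ Ioc 0 (min N n₀ / l),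
            α k * β l * qbF X ε j ((k : ℤ) * l)) := by
        rw [← Finset.sum_sub_distrib, Finset.mul_sum]
        refine Finset.sum_congr rfl (fun l hl => ?_)
        rw [Finset.mem_Ioc] at hl
        have hl0 : 0 < l := by omega
        by_cases hlV : l ≤ V
        · rw [if_pos hlV]
          have e1 : ∀ k ∈ Ioc 0 (N / l), a l * b k * qbK X ε j (l * k) =
              if n₀ < l * k then T ^ 2 * (α k * β l * qbF X ε j ((k : ℤ) * l)) else 0 := by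
            intro k hk
            rw [Finset.mem_Ioc] at hk
            unfold qbK
            rw [← hn₀]
            by_cases h3 : n₀ < l * k
            · rw [if_pos h3, if_pos h3]
              have h4 : ¬ ((k : ℤ) * l ≤ |j|) := by
                have h5 : j.natAbs < k * l := by
                  have : l ≤ k * l := Nat.le_mul_of_pos_left l hk.1
                  omega
                have h6 : |j| = ((j.natAbs : ℕ) : ℤ) := Int.abs_eq_natAbs j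
                rw [h6, not_le]
                exact_mod_cast h5
              unfold qbF
              rw [if_neg h4]
              have h7 : k ≤ M := by
                have h8 : N / l ≤ N := Nat.div_le_self N l
                omega
              simp only [hα, hβ, if_pos h7, if_pos hlV]
              have h9 : (((l * k : ℕ) : ℤ)) = (k : ℤ) * l := by push_cast; ring
              rw [h9]
              field_simp
            · rw [if_neg h3, if_neg h3, mul_zero]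
          rw [Finset.sum_congr rfl e1, qb_cut N n₀ l hl0
            (fun k => T ^ 2 * (α k * β l * qbF X ε j ((k : ℤ) * l))), ← Finset.mul_sum,
            ← Finset.mul_sum]
          ring
        · rw [if_neg hlV]
          have h3 : β l = 0 := by simp only [hβ, if_neg hlV]
          simp only [h3, mul_zero, zero_mul, Finset.sum_const_zero, sub_self]
      rw [heq, abs_mul, abs_of_nonneg (by positivity : (0 : ℝ) ≤ T ^ 2)]
      have h3 := abs_sub (∑ l ∈ Ioc L₁ (2 * L₁), ∑ k ∈ Ioc 0 (N / l),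
            α k * β l * qbF X ε j ((k : ℤ) * l))
            (∑ l ∈ Ioc L₁ (2 * L₁), ∑ k ∈ Ioc 0 (min N n₀ / l),
            α k * β l * qbF X ε j ((k : ℤ) * l))
      calc T ^ 2 * _ ≤ T ^ 2 * (3 * R + 3 * R) := by
            apply mul_le_mul_of_nonneg_left _ (by positivity)
            linarith
        _ = 6 * (T ^ 2 * R) := by ring
  calc |∑ i ∈ range I, ∑ l ∈ Ioc (2 ^ i * U) (2 * (2 ^ i * U)),
      (if l ≤ V then ∑ k ∈ Ioc 0 (N / l), a l * b k * qbK X ε j (l * k) else 0)|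
      ≤ ∑ i ∈ range I, |∑ l ∈ Ioc (2 ^ i * U) (2 * (2 ^ i * U)),
      (if l ≤ V then ∑ k ∈ Ioc 0 (N / l), a l * b k * qbK X ε j (l * k) else 0)| :=
        Finset.abs_sum_le_sum_abs _ _
    _ ≤ ∑ _i ∈ range I, 6 * (T ^ 2 * R) := Finset.sum_le_sum hblock
    _ = I * (6 * (T ^ 2 * R)) := by rw [Finset.sum_const, Finset.card_range, nsmul_eq_mul]
    _ ≤ T * (6 * (T ^ 2 * R)) := by gcongr
    _ = 6 * (T ^ 3 * R) := by ring


private noncomputable def qbR (X ε : ℝ) (j : ℤ) (N : ℕ) (f : ArithmeticFunction ℝ) : ℝ :=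
  ∑ n ∈ Ioc 0 N, f n * qbK X ε j n

private lemma qbR_tw (X ε : ℝ) (j : ℤ) (N : ℕ) (f : ArithmeticFunction ℝ) :
    ((qbR X ε j N f : ℝ) : ℂ) = tw N (fun n => ((qbK X ε j n : ℝ) : ℂ)) f := by
  unfold qbR tw
  push_cast
  rfl

private lemma qbR_add (X ε : ℝ) (j : ℤ) (N : ℕ) (f g : ArithmeticFunction ℝ) :
    qbR X ε j N (f + g) = qbR X ε j N f + qbR X ε j N g := by
  unfold qbR
  rw [← Finset.sum_add_distrib]
  refine Finset.sum_congr rfl (fun n _ => ?_)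
  rw [ArithmeticFunction.add_apply]
  ring

private lemma qbR_mul (X ε : ℝ) (j : ℤ) (N : ℕ) (f g : ArithmeticFunction ℝ) :
    qbR X ε j N (f * g) =
      ∑ m ∈ Ioc 0 N, ∑ d ∈ Ioc 0 (N / m), f m * g d * qbK X ε j (m * d) := by
  have h1 := qbR_tw X ε j N (f * g)
  rw [tw_mul] at h1
  have h2 : ((qbR X ε j N (f * g) : ℝ) : ℂ) =
      ((∑ m ∈ Ioc 0 N, ∑ d ∈ Ioc 0 (N / m), f m * g d * qbK X ε j (m * d) : ℝ) : ℂ) := by
    rw [h1]
    push_cast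
    rfl
  exact Complex.ofReal_injective h2

private lemma qbR_vM (X ε : ℝ) (j : ℤ) (N U : ℕ) :
    qbR X ε j N vM = qbR X ε j N (lo U vM) + qbR X ε j N (lo U muR * ArithmeticFunction.log) -
      qbR X ε j N (lo U (cU U) * zeR) - qbR X ε j N (hi U (cU U) * zeR) +
      qbR X ε j N (hi U muR * (hi U vM * zeR)) := by
  apply Complex.ofReal_injective
  push_cast
  rw [qbR_tw, qbR_tw, qbR_tw, qbR_tw, qbR_tw, qbR_tw]
  exact tw_vM N U _

private lemma qb_support (N U V : ℕ) (g : ℕ → ℝ) (h1 : ∀ m ≤ U, g m = 0)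
    (h2 : ∀ m, V < m → m ≤ N → g m = 0) (h3 : ∀ m, N < m → g m = 0) :
    ∑ m ∈ Ioc 0 N, g m = ∑ m ∈ Ioc U V, g m := by
  have e1 : ∑ m ∈ Ioc 0 N, g m = ∑ m ∈ Ioc 0 (max N V), g m := by
    apply Finset.sum_subset (Finset.Ioc_subset_Ioc le_rfl (le_max_left _ _))
    intro m hm hm2
    rw [Finset.mem_Ioc] at hm hm2
    apply h3
    omega
  have e2 : ∑ m ∈ Ioc U V, g m = ∑ m ∈ Ioc 0 (max N V), g m := by
    apply Finset.sum_subset (Finset.Ioc_subset_Ioc (Nat.zero_le _) (le_max_right _ _))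
    intro m hm hm2
    rw [Finset.mem_Ioc] at hm hm2
    rcases Nat.lt_or_ge U m with h4 | h4
    · have h5 : V < m := by omega
      rcases Nat.lt_or_ge N m with h6 | h6
      · exact h3 m h6
      · exact h2 m h5 h6
    · exact h1 m h4
  rw [e1, e2]

private lemma qb_sumle (N U : ℕ) (c : ℝ) (hc : 0 ≤ c) (g : ℕ → ℝ)
    (h1 : ∀ m, 0 < m → m ≤ U → |g m| ≤ c) (h2 : ∀ m, U < m → g m = 0) :
    |∑ m ∈ Ioc 0 N, g m| ≤ U * c := by
  calc |∑ m ∈ Ioc 0 N, g m| ≤ ∑ m ∈ Ioc 0 N, |g m| := Finset.abs_sum_le_sum_abs _ _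
    _ ≤ ∑ m ∈ Ioc 0 N, (if m ≤ U then c else 0) := by
        refine Finset.sum_le_sum (fun m hm => ?_)
        rw [Finset.mem_Ioc] at hm
        split_ifs with h
        · exact h1 m hm.1 h
        · rw [h2 m (by omega), abs_zero]
    _ = (((Ioc 0 N).filter (fun m => m ≤ U)).card : ℝ) * c := by
        rw [← Finset.sum_filter, Finset.sum_const, nsmul_eq_mul]
    _ ≤ U * c := by
        apply mul_le_mul_of_nonneg_right _ hc
        have h3 : (Ioc 0 N).filter (fun m => m ≤ U) ⊆ Ioc 0 U := by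
          intro m hm
          rw [Finset.mem_filter, Finset.mem_Ioc] at hm
          rw [Finset.mem_Ioc]
          omega
        have h4 := Finset.card_le_card h3
        rw [Nat.card_Ioc] at h4
        exact_mod_cast h4

private lemma qb_mod (hX : Le X T ε) {m : ℕ} (hm0 : 0 < m) (hm : m ≤ ⌊X ^ (ε / 4)⌋₊) :
    ∀ q ∈ Q1 X ε, Squarefree q ∧ q ≤ ⌊X ^ (1 / 2 - ε)⌋₊ ∧ ¬ q ∣ m := by
  intro q hq
  obtain ⟨h1, h2, h3⟩ := qb_Q1 hq
  refine ⟨h1, h3, fun h4 => ?_⟩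
  have h5 := Nat.le_of_dvd hm0 h4
  have h6 : ⌊X ^ (ε / 4)⌋₊ ≤ ⌊X ^ ε⌋₊ := by
    apply Nat.floor_le_floor
    apply qb_le hX
    linarith [hX.hε]
  omega

private lemma qb_I1 (hX : Le X T ε) (j : ℤ) (N : ℕ) (hN : (N : ℝ) ≤ 4 * X) {m : ℕ} (hm0 : 0 < m)
    (hm : m ≤ ⌊X ^ (ε / 4)⌋₊) :
    |∑ d ∈ Ioc 0 (N / m), Real.log d * qbK X ε j (m * d)| ≤
      8 * T ^ 4 * ⌊X ^ (1 / 2 - ε)⌋₊ := by
  have hε := hX.hε
  have hmM : m ≤ ⌊X ^ (10 : ℝ)⌋₊ := by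
    refine hm.trans (Nat.floor_le_floor ?_)
    apply qb_le hX
    linarith [hX.hε1]
  have hNM : N ≤ ⌊X ^ (10 : ℝ)⌋₊ := qb_leM hX (by linarith [qb_X0 hX])
  have e1 : ∑ d ∈ Ioc 0 (N / m), Real.log d * qbK X ε j (m * d) =
      ∑ d ∈ Ioc 0 (N / m), (if ⌊X ^ (1 / 2 : ℝ)⌋₊ < m * d then
        Real.log d * FQ (Q1 X ε) ((m : ℤ) * d + j) else 0) := by
    refine Finset.sum_congr rfl (fun d _ => ?_)
    unfold qbK
    split_ifs
    · push_cast
      rfl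
    · rw [mul_zero]
  rw [e1, qb_cut N _ m hm0]
  have b1 := typeI_log hX.big (Q1 X ε) ⌊X ^ (1 / 2 - ε)⌋₊ (qb_BM hX) m hm0 hmM
    (qb_mod hX hm0 hm) j (N / m) ((Nat.div_le_self _ _).trans hNM)
  have b2 := typeI_log hX.big (Q1 X ε) ⌊X ^ (1 / 2 - ε)⌋₊ (qb_BM hX) m hm0 hmM
    (qb_mod hX hm0 hm) j (min N ⌊X ^ (1 / 2 : ℝ)⌋₊ / m)
    ((Nat.div_le_self _ _).trans ((min_le_left _ _).trans hNM))
  refine (abs_sub _ _).trans ?_
  linarith

private lemma qb_I2 (hX : Le X T ε) (j : ℤ) (N : ℕ) (hN : (N : ℝ) ≤ 4 * X) {m : ℕ} (hm0 : 0 < m)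
    (hm : m ≤ ⌊X ^ (ε / 4)⌋₊) :
    |∑ d ∈ Ioc 0 (N / m), qbK X ε j (m * d)| ≤ 2 * T ^ 3 * ⌊X ^ (1 / 2 - ε)⌋₊ := by
  have hε := hX.hε
  have hmM : m ≤ ⌊X ^ (10 : ℝ)⌋₊ := by
    refine hm.trans (Nat.floor_le_floor ?_)
    apply qb_le hX
    linarith [hX.hε1]
  have e1 : ∑ d ∈ Ioc 0 (N / m), qbK X ε j (m * d) =
      ∑ d ∈ Ioc 0 (N / m), (if ⌊X ^ (1 / 2 : ℝ)⌋₊ < m * d then
        FQ (Q1 X ε) ((m : ℤ) * d + j) else 0) := by
    refine Finset.sum_congr rfl (fun d _ => ?_)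
    unfold qbK
    split_ifs
    · push_cast
      rfl
    · rfl
  rw [e1, qb_cut N _ m hm0]
  have b1 := typeI_set hX.big (Q1 X ε) ⌊X ^ (1 / 2 - ε)⌋₊ (qb_BM hX) m hm0 hmM
    (qb_mod hX hm0 hm) j (N / m)
  have b2 := typeI_set hX.big (Q1 X ε) ⌊X ^ (1 / 2 - ε)⌋₊ (qb_BM hX) m hm0 hmM
    (qb_mod hX hm0 hm) j (min N ⌊X ^ (1 / 2 : ℝ)⌋₊ / m)
  refine (abs_sub _ _).trans ?_
  linarith

private lemma qb_S (hX : Le X T ε) (j : ℤ) (hj : j ≠ 0) (hjX : |(j : ℝ)| ≤ X ^ (ε / 100))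
    (N : ℕ) (hN : (N : ℝ) ≤ 4 * X) :
    |qbR X ε j N vM| ≤ T ^ 4 * X ^ (1 - ε / 30) := by
  have hX0 := qb_X0 hX
  have hXb := qb_Xbig hX
  have hT0 := qb_T0 hX
  have hT10 := hX.h10
  have hT1 : 1 ≤ T := by
    have : (1 : ℝ) ≤ 10 ^ 10 := by norm_num
    linarith
  have hε := hX.hε
  have hε1 := hX.hε1
  obtain ⟨hU1, hU2, hU3⟩ := qb_floor hX (a := ε / 4) (by positivity)
  obtain ⟨hB1, hB2, hB3⟩ := qb_floor hX (a := 1 / 2 - ε) (by linarith)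
  obtain ⟨hn1, hn2, hn3⟩ := qb_floor hX (a := (1 / 2 : ℝ)) (by norm_num)
  set U : ℕ := ⌊X ^ (ε / 4)⌋₊ with hU
  set B : ℕ := ⌊X ^ (1 / 2 - ε)⌋₊ with hB
  set n₀ : ℕ := ⌊X ^ (1 / 2 : ℝ)⌋₊ with hn₀
  set R : ℝ := X ^ (1 - ε / 30) with hR
  have hR0 : 0 < R := Real.rpow_pos_of_pos hX0 _
  have hUU : U * U ≤ n₀ := by
    apply Nat.le_floor
    push_cast
    calc (U : ℝ) * U ≤ X ^ (ε / 4) * X ^ (ε / 4) := by gcongr
      _ = X ^ (ε / 4 + ε / 4) := by rw [← Real.rpow_add hX0]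
      _ ≤ X ^ (1 / 2 : ℝ) := qb_le hX (by linarith)
  have hUn : U ≤ n₀ := le_trans (Nat.le_mul_of_pos_left U hU1) hUU
  -- the five pieces
  have p1 : qbR X ε j N (lo U vM) = 0 := by
    unfold qbR
    apply Finset.sum_eq_zero
    intro n _
    rw [lo_apply]
    split_ifs with h
    · unfold qbK
      rw [if_neg (by omega), mul_zero]
    · rw [zero_mul]
  have p2 : |qbR X ε j N (lo U muR * ArithmeticFunction.log)| ≤ U * (8 * T ^ 4 * B) := by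
    rw [qbR_mul]
    apply qb_sumle N U _ (by positivity)
    · intro m hm0 hm
      have h1 : ∑ d ∈ Ioc 0 (N / m), (lo U muR) m * ArithmeticFunction.log d *
          qbK X ε j (m * d) = (lo U muR) m * ∑ d ∈ Ioc 0 (N / m), Real.log d *
          qbK X ε j (m * d) := by
        rw [Finset.mul_sum]
        refine Finset.sum_congr rfl (fun d _ => ?_)
        rw [ArithmeticFunction.log_apply]
        ring
      rw [h1, abs_mul]
      calc |(lo U muR) m| * |∑ d ∈ Ioc 0 (N / m), Real.log d * qbK X ε j (m * d)|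
          ≤ 1 * (8 * T ^ 4 * B) :=
            mul_le_mul (lo_muR_abs_le U m) (qb_I1 hX j N hN hm0 hm) (abs_nonneg _) zero_le_one
        _ = 8 * T ^ 4 * B := one_mul _
    · intro m hm
      apply Finset.sum_eq_zero
      intro d _
      rw [lo_apply, if_neg (by omega)]
      ring
  have p3 : |qbR X ε j N (lo U (cU U) * zeR)| ≤ U * (T * (2 * T ^ 3 * B)) := by
    rw [qbR_mul]
    apply qb_sumle N U _ (by positivity)
    · intro m hm0 hm
      have h1 : ∑ d ∈ Ioc 0 (N / m), (lo U (cU U)) m * zeR d *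
          qbK X ε j (m * d) = (lo U (cU U)) m * ∑ d ∈ Ioc 0 (N / m),
          qbK X ε j (m * d) := by
        rw [Finset.mul_sum]
        refine Finset.sum_congr rfl (fun d hd => ?_)
        rw [Finset.mem_Ioc] at hd
        rw [zeR_apply, if_neg (by omega), mul_one]
      rw [h1, abs_mul]
      apply mul_le_mul _ (qb_I2 hX j N hN hm0 hm) (abs_nonneg _) hT0.le
      rw [lo_apply, if_pos hm]
      refine (cU_abs_le U m).trans (qb_log hX ?_)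
      refine hm.trans (Nat.floor_le_floor ?_)
      apply qb_le hX
      linarith
    · intro m hm
      apply Finset.sum_eq_zero
      intro d _
      rw [lo_apply, if_neg (by omega)]
      ring
  have hze : ∀ k ≤ ⌊X ^ (10 : ℝ)⌋₊, |zeR k| ≤ T := by
    intro k _
    rw [zeR_apply]
    split_ifs
    · rw [abs_zero]; exact hT0.le
    · rw [abs_one]; exact hT1
  have hvz : ∀ k ≤ ⌊X ^ (10 : ℝ)⌋₊, |(hi U vM * zeR) k| ≤ T := by
    intro k hk
    rw [abs_of_nonneg (vz_nonneg U k)]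
    exact (vz_le U k).trans (qb_log hX hk)
  have hhX : X ^ (1 / 2 : ℝ) * X ^ (1 / 2 : ℝ) = X := by
    rw [← Real.rpow_add hX0]
    norm_num
  have hh0 : 0 < X ^ (1 / 2 : ℝ) := Real.rpow_pos_of_pos hX0 _
  have p4 : |qbR X ε j N (hi U (cU U) * zeR)| ≤ 6 * (T ^ 3 * R) := by
    rw [qbR_mul, qb_support N U n₀]
    · refine qb_tII hX j hj hjX N hN n₀ (by linarith) (fun m => (hi U (cU U)) m) (fun d => zeR d)
        ?_ hze
      intro l hl
      show |(hi U (cU U)) l| ≤ T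
      rw [hi_apply]
      split_ifs
      · exact (cU_abs_le U l).trans (qb_log hX hl)
      · rw [abs_zero]; exact hT0.le
    · intro m hm
      apply Finset.sum_eq_zero
      intro d _
      rw [hi_apply, if_neg (by omega)]
      ring
    · intro m hm _
      apply Finset.sum_eq_zero
      intro d _
      rw [hi_apply, cU_eq_zero U m (by omega), ite_self]
      ring
    · intro m hm
      rw [Nat.div_eq_of_lt hm]
      simp
  have p5 : |qbR X ε j N (hi U muR * (hi U vM * zeR))| ≤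
      6 * (T ^ 3 * R) + 6 * (T ^ 3 * R) := by
    have h1 : hi U muR * (hi U vM * zeR) = lo n₀ (hi U muR) * (hi U vM * zeR) +
        (hi U vM * zeR) * hi n₀ (hi U muR) := by
      have h2 := lo_add_hi n₀ (hi U muR)
      linear_combination (-(hi U vM * zeR)) * h2
    rw [h1, qbR_add]
    refine (abs_add_le _ _).trans (add_le_add ?_ ?_)
    · rw [qbR_mul, qb_support N U n₀]
      · refine qb_tII hX j hj hjX N hN n₀ (by linarith) (fun m => (lo n₀ (hi U muR)) m)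
          (fun d => (hi U vM * zeR) d) ?_ hvz
        intro l _
        show |(lo n₀ (hi U muR)) l| ≤ T
        rw [lo_apply]
        split_ifs
        · exact (hi_muR_abs_le U l).trans hT1
        · rw [abs_zero]; exact hT0.le
      · intro m hm
        apply Finset.sum_eq_zero
        intro d _
        have h3 : (lo n₀ (hi U muR)) m = 0 := by
          rw [lo_apply, hi_apply]
          split_ifs <;> first | rfl | omega
        rw [h3]
        ring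
      · intro m hm _
        apply Finset.sum_eq_zero
        intro d _
        rw [lo_apply, if_neg (by omega)]
        ring
      · intro m hm
        rw [Nat.div_eq_of_lt hm]
        simp
    · have hV : (⌊4 * X ^ (1 / 2 : ℝ)⌋₊ : ℝ) ≤ 4 * X ^ (1 / 2 : ℝ) := Nat.floor_le (by positivity)
      rw [qbR_mul, qb_support N U ⌊4 * X ^ (1 / 2 : ℝ)⌋₊]
      · refine qb_tII hX j hj hjX N hN _ hV (fun m => (hi U vM * zeR) m)
          (fun d => (hi n₀ (hi U muR)) d) hvz ?_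
        intro l _
        show |(hi n₀ (hi U muR)) l| ≤ T
        rw [hi_apply]
        split_ifs
        · exact (hi_muR_abs_le U l).trans hT1
        · rw [abs_zero]; exact hT0.le
      · intro m hm
        apply Finset.sum_eq_zero
        intro d _
        rw [vz_eq_zero U m hm]
        ring
      · intro m hm hmN
        apply Finset.sum_eq_zero
        intro d hd
        rw [Finset.mem_Ioc] at hd
        have h3 : d ≤ n₀ := by
          apply Nat.le_floor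
          have h4 : 4 * X ^ (1 / 2 : ℝ) < m := Nat.lt_of_floor_lt hm
          have h5 : d * m ≤ N := by
            have h6 := Nat.mul_le_mul_right m hd.2
            exact h6.trans (Nat.div_mul_le_self N m)
          have h7 : (d : ℝ) * m ≤ N := by exact_mod_cast h5
          by_contra hcon
          rw [not_le] at hcon
          have h8 : X ^ (1 / 2 : ℝ) * (4 * X ^ (1 / 2 : ℝ)) < (d : ℝ) * m :=
            mul_lt_mul'' hcon h4 hh0.le (by positivity)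
          nlinarith
        have h9 : (hi n₀ (hi U muR)) d = 0 := by
          rw [hi_apply, if_neg (by omega)]
        rw [h9]
        ring
      · intro m hm
        rw [Nat.div_eq_of_lt hm]
        simp
  have hUB : (U : ℝ) * B ≤ X ^ (1 / 2 : ℝ) := by
    calc (U : ℝ) * B ≤ X ^ (ε / 4) * X ^ (1 / 2 - ε) := by gcongr
      _ = X ^ (ε / 4 + (1 / 2 - ε)) := by rw [← Real.rpow_add hX0]
      _ ≤ X ^ (1 / 2 : ℝ) := qb_le hX (by linarith)
  have hsmall : T ^ 5 * X ^ (1 / 2 : ℝ) ≤ R := by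
    apply qb_TXle hX
    push_cast
    linarith
  have hI : (U : ℝ) * (8 * T ^ 4 * B) + U * (T * (2 * T ^ 3 * B)) ≤ R := by
    calc (U : ℝ) * (8 * T ^ 4 * B) + U * (T * (2 * T ^ 3 * B)) = T ^ 4 * ((U : ℝ) * B) * 10 := by
          ring
      _ ≤ T ^ 4 * X ^ (1 / 2 : ℝ) * T := by
          have : (10 : ℝ) ≤ 10 ^ 10 := by norm_num
          have h10 : (10 : ℝ) ≤ T := by linarith
          gcongr
      _ = T ^ 5 * X ^ (1 / 2 : ℝ) := by ring
      _ ≤ R := hsmall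
  rw [qbR_vM X ε j N U, p1, zero_add]
  have habs : |qbR X ε j N (lo U muR * ArithmeticFunction.log) -
      qbR X ε j N (lo U (cU U) * zeR) - qbR X ε j N (hi U (cU U) * zeR) +
      qbR X ε j N (hi U muR * (hi U vM * zeR))| ≤
      |qbR X ε j N (lo U muR * ArithmeticFunction.log)| +
      |qbR X ε j N (lo U (cU U) * zeR)| + |qbR X ε j N (hi U (cU U) * zeR)| +
      |qbR X ε j N (hi U muR * (hi U vM * zeR))| := by
    refine (abs_add_le _ _).trans (add_le_add ?_ le_rfl)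
    refine (abs_sub _ _).trans (add_le_add ?_ le_rfl)
    exact abs_sub _ _
  refine habs.trans ?_
  have hTR : R ≤ T ^ 3 * R := le_mul_of_one_le_left hR0.le (one_le_pow₀ hT1)
  have h19 : 19 * (T ^ 3 * R) ≤ T ^ 4 * R := by
    have : (19 : ℝ) ≤ 10 ^ 10 := by norm_num
    have h19' : (19 : ℝ) ≤ T := by linarith
    calc 19 * (T ^ 3 * R) ≤ T * (T ^ 3 * R) := by gcongr
      _ = T ^ 4 * R := by ring
  linarith

theorem q1_vM (hX : Le X T ε) (j : ℤ) (hj : j ≠ 0) (hjX : |(j : ℝ)| ≤ X ^ (ε / 100))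
    (A N : ℕ) (hAj : 0 ≤ (A : ℤ) + j) (hN : ((A + N : ℕ) : ℝ) ≤ 4 * X) :
    |∑ n ∈ Ioc A (A + N), vM n * FQ (Q1 X ε) ((n : ℤ) + j)| ≤ X ^ (1 - ε / 40) := by
  have hX0 := qb_X0 hX
  have hXb := qb_Xbig hX
  have hT0 := qb_T0 hX
  have hT10 := hX.h10
  have hε := hX.hε
  have hε1 := hX.hε1
  obtain ⟨hn1, hn2, hn3⟩ := qb_floor hX (a := (1 / 2 : ℝ)) (by norm_num)
  set n₀ : ℕ := ⌊X ^ (1 / 2 : ℝ)⌋₊ with hn₀
  have hjabs : (j.natAbs : ℝ) = |(j : ℝ)| := by rw [Nat.cast_natAbs, Int.cast_abs]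
  have hjX1 : |(j : ℝ)| ≤ X := by
    have h3 : X ^ (ε / 100) ≤ X ^ (1 : ℝ) := qb_le hX (by linarith)
    rw [Real.rpow_one] at h3
    linarith
  have hA : (A : ℝ) ≤ 4 * X := by
    have : (A : ℝ) ≤ ((A + N : ℕ) : ℝ) := by push_cast; linarith [Nat.cast_nonneg (α := ℝ) N]
    linarith
  have s1 := qb_S hX j hj hjX (A + N) hN
  have s2 := qb_S hX j hj hjX A hA
  have hdec : ∑ n ∈ Ioc A (A + N), vM n * FQ (Q1 X ε) ((n : ℤ) + j) =
      (qbR X ε j (A + N) vM - qbR X ε j A vM) +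
      ∑ n ∈ Ioc A (A + N), (if n₀ < n then 0 else vM n * FQ (Q1 X ε) ((n : ℤ) + j)) := by
    have h1 : qbR X ε j (A + N) vM - qbR X ε j A vM =
        ∑ n ∈ Ioc A (A + N), vM n * qbK X ε j n := by
      unfold qbR
      rw [← Finset.sum_Ioc_consecutive _ (Nat.zero_le A) (Nat.le_add_right A N)]
      ring
    rw [h1, ← Finset.sum_add_distrib]
    refine Finset.sum_congr rfl (fun n _ => ?_)
    unfold qbK
    rw [← hn₀]
    split_ifs <;> ring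
  have s3 : |∑ n ∈ Ioc A (A + N), (if n₀ < n then 0 else
      vM n * FQ (Q1 X ε) ((n : ℤ) + j))| ≤ T ^ 4 * X ^ (1 / 2 : ℝ) := by
    calc |∑ n ∈ Ioc A (A + N), (if n₀ < n then 0 else vM n * FQ (Q1 X ε) ((n : ℤ) + j))|
        ≤ ∑ n ∈ Ioc A (A + N), |(if n₀ < n then 0 else vM n * FQ (Q1 X ε) ((n : ℤ) + j))| :=
          Finset.abs_sum_le_sum_abs _ _
      _ ≤ ∑ n ∈ Ioc A (A + N), (if n ≤ n₀ then T ^ 4 else 0) := by
          refine Finset.sum_le_sum (fun n hn => ?_)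
          rw [Finset.mem_Ioc] at hn
          by_cases h : n₀ < n
          · rw [if_pos h, if_neg (by omega), abs_zero]
          · rw [if_neg h, if_pos (by omega), abs_mul, abs_of_nonneg (vM_nonneg n)]
            have hnX : (n : ℝ) ≤ 4 * X := le_trans (by exact_mod_cast hn.2) hN
            have h1 : vM n ≤ T := by
              have h2 : vM n ≤ Real.log n := ArithmeticFunction.vonMangoldt_le_log
              exact h2.trans (qb_log hX (qb_leM hX (by linarith)))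
            have h2 : |FQ (Q1 X ε) ((n : ℤ) + j)| ≤ T ^ 3 := by
              apply qb_FQabs hX
              · omega
              · have h4 : ((n : ℤ) + j).natAbs ≤ n + j.natAbs := by
                  have := Int.natAbs_add_le (n : ℤ) j
                  simpa using this
                have h5 : ((((n : ℤ) + j).natAbs : ℕ) : ℝ) ≤ (n : ℝ) + (j.natAbs : ℝ) := by
                  exact_mod_cast h4
                rw [hjabs] at h5
                linarith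
            calc vM n * |FQ (Q1 X ε) ((n : ℤ) + j)| ≤ T * T ^ 3 :=
                  mul_le_mul h1 h2 (abs_nonneg _) hT0.le
              _ = T ^ 4 := by ring
      _ = (((Ioc A (A + N)).filter (fun n => n ≤ n₀)).card : ℝ) * T ^ 4 := by
          rw [← Finset.sum_filter, Finset.sum_const, nsmul_eq_mul]
      _ ≤ n₀ * T ^ 4 := by
          apply mul_le_mul_of_nonneg_right _ (by positivity)
          have h3 : (Ioc A (A + N)).filter (fun n => n ≤ n₀) ⊆ Ioc 0 n₀ := by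
            intro m hm
            rw [Finset.mem_filter, Finset.mem_Ioc] at hm
            rw [Finset.mem_Ioc]
            omega
          have h4 := Finset.card_le_card h3
          rw [Nat.card_Ioc] at h4
          exact_mod_cast h4
      _ ≤ X ^ (1 / 2 : ℝ) * T ^ 4 := by gcongr
      _ = T ^ 4 * X ^ (1 / 2 : ℝ) := mul_comm _ _
  rw [hdec]
  refine (abs_add_le _ _).trans ?_
  have h5 : |qbR X ε j (A + N) vM - qbR X ε j A vM| ≤
      T ^ 4 * X ^ (1 - ε / 30) + T ^ 4 * X ^ (1 - ε / 30) :=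
    (abs_sub _ _).trans (add_le_add s1 s2)
  have h6 : X ^ (1 / 2 : ℝ) ≤ X ^ (1 - ε / 30) := qb_le hX (by linarith)
  have h7 : T ^ 4 * X ^ (1 / 2 : ℝ) ≤ T ^ 4 * X ^ (1 - ε / 30) := by gcongr
  have h8 : 3 * (T ^ 4 * X ^ (1 - ε / 30)) ≤ T ^ 5 * X ^ (1 - ε / 30) := by
    have : (3 : ℝ) ≤ 10 ^ 10 := by norm_num
    have h3' : (3 : ℝ) ≤ T := by linarith
    have hp : 0 < X ^ (1 - ε / 30) := Real.rpow_pos_of_pos hX0 _
    calc 3 * (T ^ 4 * X ^ (1 - ε / 30)) ≤ T * (T ^ 4 * X ^ (1 - ε / 30)) := by gcongr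
      _ = T ^ 5 * X ^ (1 - ε / 30) := by ring
  have h9 : T ^ 5 * X ^ (1 - ε / 30) ≤ X ^ (1 - ε / 40) := by
    apply qb_TXle hX
    push_cast
    linarith
  linarith

/-- exact: `corr_sets` -/
theorem q1_q1 (hX : Le X T ε) (j : ℤ) (hj : j ≠ 0) (hjX : |(j : ℝ)| ≤ X ^ (ε / 100))
    (A N : ℕ) (hN : ((A + N : ℕ) : ℝ) ≤ 4 * X) :
    |∑ n ∈ Ioc A (A + N), FQ (Q1 X ε) n * FQ (Q1 X ε) ((n : ℤ) + j)| ≤ X ^ (1 - ε / 40) := by
  have hX0 := qb_X0 hX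
  have hT0 := qb_T0 hX
  have hT10 := hX.h10
  have hε := hX.hε
  have hε1 := hX.hε1
  obtain ⟨hA1, hA2, hA3⟩ := qb_floor hX (a := ε) hε.le
  obtain ⟨hB1, hB2, hB3⟩ := qb_floor hX (a := 1 / 2 - ε) (by linarith)
  have hc := corr_sets hX.big (Q1 X ε) (Q1 X ε) ⌊X ^ ε⌋₊ ⌊X ^ (1 / 2 - ε)⌋₊ ⌊X ^ (1 / 2 - ε)⌋₊ hA1
    (fun q hq => qb_Q1 hq) (fun q hq => ⟨(qb_Q1 hq).1, (qb_Q1 hq).2.2⟩) (qb_BM hX) (qb_BM hX)
    j hj A N
  refine hc.trans ?_
  have hNX : (N : ℝ) ≤ 4 * X := by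
    have : (N : ℝ) ≤ ((A + N : ℕ) : ℝ) := by push_cast; linarith [Nat.cast_nonneg (α := ℝ) A]
    linarith
  have hA0 : (0 : ℝ) < ⌊X ^ ε⌋₊ := by exact_mod_cast hA1
  have t1 : 2 * T ^ 4 * ((⌊X ^ (1 / 2 - ε)⌋₊ : ℝ) * ⌊X ^ (1 / 2 - ε)⌋₊) ≤
      2 * (T ^ 4 * X ^ (1 - 2 * ε)) := by
    calc 2 * T ^ 4 * ((⌊X ^ (1 / 2 - ε)⌋₊ : ℝ) * ⌊X ^ (1 / 2 - ε)⌋₊)
        ≤ 2 * T ^ 4 * (X ^ (1 / 2 - ε) * X ^ (1 / 2 - ε)) := by gcongr
      _ = 2 * (T ^ 4 * X ^ (1 - 2 * ε)) := by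
          rw [← Real.rpow_add hX0]
          have : (1 / 2 - ε + (1 / 2 - ε) : ℝ) = 1 - 2 * ε := by ring
          rw [this]
          ring
  have t2 : 2 * T ^ 2 * |(j : ℝ)| * N / ⌊X ^ ε⌋₊ ≤ 16 * (T ^ 2 * X ^ (1 + ε / 100 - ε)) := by
    rw [div_le_iff₀ hA0]
    have h1 : X ^ (1 + ε / 100 - ε) * X ^ ε = X * X ^ (ε / 100) := by
      rw [← Real.rpow_add hX0]
      have : (1 + ε / 100 - ε + ε : ℝ) = 1 + ε / 100 := by ring
      rw [this, Real.rpow_add hX0, Real.rpow_one]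
    have h2 : 0 < X ^ (1 + ε / 100 - ε) := Real.rpow_pos_of_pos hX0 _
    calc 2 * T ^ 2 * |(j : ℝ)| * N ≤ 2 * T ^ 2 * X ^ (ε / 100) * (4 * X) := by gcongr
      _ = 8 * T ^ 2 * (X * X ^ (ε / 100)) := by ring
      _ = 8 * T ^ 2 * (X ^ (1 + ε / 100 - ε) * X ^ ε) := by rw [h1]
      _ ≤ 8 * T ^ 2 * (X ^ (1 + ε / 100 - ε) * (2 * ⌊X ^ ε⌋₊)) := by gcongr
      _ = 16 * (T ^ 2 * X ^ (1 + ε / 100 - ε)) * ⌊X ^ ε⌋₊ := by ring
  have u1 : T ^ 5 * X ^ (1 - 2 * ε) ≤ X ^ (1 - ε / 30) := by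
    apply qb_TXle hX
    push_cast
    linarith
  have u2 : T ^ 3 * X ^ (1 + ε / 100 - ε) ≤ X ^ (1 - ε / 30) := by
    apply qb_TXle hX
    push_cast
    linarith
  have u3 : T ^ 1 * X ^ (1 - ε / 30) ≤ X ^ (1 - ε / 40) := by
    apply qb_TXle hX
    push_cast
    linarith
  have h16 : (16 : ℝ) ≤ T := by
    have : (16 : ℝ) ≤ 10 ^ 10 := by norm_num
    linarith
  have v1 : 2 * (T ^ 4 * X ^ (1 - 2 * ε)) ≤ T ^ 5 * X ^ (1 - 2 * ε) := by
    have hp : 0 < X ^ (1 - 2 * ε) := Real.rpow_pos_of_pos hX0 _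
    calc 2 * (T ^ 4 * X ^ (1 - 2 * ε)) ≤ T * (T ^ 4 * X ^ (1 - 2 * ε)) := by
          gcongr
          linarith
      _ = T ^ 5 * X ^ (1 - 2 * ε) := by ring
  have v2 : 16 * (T ^ 2 * X ^ (1 + ε / 100 - ε)) ≤ T ^ 3 * X ^ (1 + ε / 100 - ε) := by
    have hp : 0 < X ^ (1 + ε / 100 - ε) := Real.rpow_pos_of_pos hX0 _
    calc 16 * (T ^ 2 * X ^ (1 + ε / 100 - ε)) ≤ T * (T ^ 2 * X ^ (1 + ε / 100 - ε)) := by gcongr
      _ = T ^ 3 * X ^ (1 + ε / 100 - ε) := by ring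
  have hp : 0 < X ^ (1 - ε / 30) := Real.rpow_pos_of_pos hX0 _
  have w : 2 * X ^ (1 - ε / 30) ≤ T ^ 1 * X ^ (1 - ε / 30) := by
    rw [pow_one]
    gcongr
    linarith
  linarith

end Pool.Agent.Lib.MP_2a816b_nt.BH
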