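import Pool.Agent.Lib.MP_2a816b_nt.BH.CorrA
import Pool.Agent.Lib.MP_2a816b_nt.BH.QB

/-!
# JOB CorrB: all correlations with `F_{Q2}`

`FQ_div`: by `bc_eq_sum`, `F_Q(n) = ∑_{d ∣ n} λ_d`, `λ_d = μ(d) d ∑_{q ∈ Q, d ∣ q} 1 / φ(q)` (for `n ≥ 1`), and `|λ_d| ≤ (d / φ(d)) ∑ 1 / φ(q / d) ≤ T ^ 3` for `d` dividing some `q ∈ Q`, `0` otherwise.

The correlations over `(A, A + N]` with `0 ≤ A + j`: split at `n₀ = ⌊X ^ 0.9995⌋`: the terms `n ≤ n₀` are at most `T ^ 6` each (`abs_FQ_le`, `n + j ≥ 1`, `vM n ≤ T`), the others form an interval `(n₁, A + N]`, `n₁ ≥ n₀`,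
and `corr_vM`, `corr_div` apply (with `n₀` replaced by `n₁`). `q2_q1`: `∑_{n ∈ (A, A+N]} F_{Q2}(n) F_{Q1}(n + j)`, substitute `n' = n + j ∈ (A + j, A + j + N]` and use `q1_q2` with `- j`.
-/

set_option autoImplicit false

open Finset Real
open scoped Pointwise

namespace Pool.Agent.Lib.MP_2a816b_nt.BH

variable {X T C : ℝ}

private lemma cb_T1 (hX : Lg X T C) : 1 ≤ T := le_trans (by norm_num) hX.h10

private lemma cb_X (hX : Lg X T C) : (10 : ℝ) ^ 10 ≤ X := by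
  refine hX.h10.trans ?_
  rw [hX.hT]
  calc X ^ tau0 ≤ X ^ (1 : ℝ) := Real.rpow_le_rpow_of_exponent_le hX.X1 (by norm_num [tau0])
    _ = X := Real.rpow_one X

private lemma cb_M (hX : Lg X T C) {x : ℝ} (hx : x ≤ X ^ (2 : ℝ)) {n : ℕ} (hn : (n : ℝ) ≤ x) :
    n ≤ ⌊X ^ (10 : ℝ)⌋₊ := by
  apply Nat.le_floor
  refine hn.trans (hx.trans ?_)
  exact Real.rpow_le_rpow_of_exponent_le hX.X1 (by norm_num)

private lemma cb_M' (hX : Lg X T C) {a : ℝ} (ha : a ≤ 10) {n : ℕ} (hn : (n : ℝ) ≤ X ^ a) :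
    n ≤ ⌊X ^ (10 : ℝ)⌋₊ := by
  apply Nat.le_floor
  exact hn.trans (Real.rpow_le_rpow_of_exponent_le hX.X1 ha)

private lemma cb_5X (hX : Lg X T C) : 5 * X ≤ X ^ (2 : ℝ) := by
  have h := cb_X hX
  rw [Real.rpow_two]
  nlinarith

private lemma cb_jX (hX : Lg X T C) {j : ℤ} (hjX : |(j : ℝ)| ≤ X ^ eps4) : |(j : ℝ)| ≤ X := by
  refine hjX.trans ?_
  calc X ^ eps4 ≤ X ^ (1 : ℝ) := Real.rpow_le_rpow_of_exponent_le hX.X1 (by norm_num [eps4])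
    _ = X := Real.rpow_one X

private lemma cb_Q2 (hX : Lg X T C) : ∀ q ∈ Q2 X, Squarefree q ∧ q ≤ ⌊X ^ (10 : ℝ)⌋₊ := by
  intro q hq
  obtain ⟨h1, _, h3⟩ := mem_Q2 hX hq
  exact ⟨h1, cb_M' hX (by norm_num) h3⟩

theorem FQ_div {M : ℕ} (hB : Big M T) (Q : Finset ℕ) (Qm : ℕ) (hQm : Qm ≤ M)
    (hQ : ∀ q ∈ Q, Squarefree q ∧ q ≤ Qm) :
    ∃ lam : ℕ → ℝ, (∀ m, |lam m| ≤ T ^ 3) ∧ (∀ m, Qm < m → lam m = 0) ∧
      ∀ n : ℕ, 0 < n → FQ Q n = ∑ m ∈ n.divisors, lam m := by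
  have hT : 1 ≤ T := RamB_T1 hB
  refine ⟨fun m => ∑ q ∈ Q.filter (fun q => m ∣ q),
    ((ArithmeticFunction.moebius m : ℤ) : ℝ) * m / (q.totient : ℝ), ?_, ?_, ?_⟩
  · intro m
    by_cases hne : (Q.filter (fun q => m ∣ q)).Nonempty
    · obtain ⟨q₀, hq₀⟩ := hne
      rw [mem_filter] at hq₀
      have hms : Squarefree m := (hQ q₀ hq₀.1).1.squarefree_of_dvd hq₀.2
      have hm0 : 0 < m := Nat.pos_of_ne_zero hms.ne_zero
      have hmM : m ≤ M := by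
        have hq0 : 0 < q₀ := Nat.pos_of_ne_zero (hQ q₀ hq₀.1).1.ne_zero
        exact (Nat.le_of_dvd hq0 hq₀.2).trans ((hQ q₀ hq₀.1).2.trans hQm)
      have hphi : (0 : ℝ) < m.totient := by exact_mod_cast Nat.totient_pos.2 hm0
      have hinj : Set.InjOn (fun v => v / m)
          ((Q.filter (fun v => m ∣ v) : Finset ℕ) : Set ℕ) := by
        intro a ha b hb hab
        rw [coe_filter] at ha hb
        simp only at hab
        rw [← Nat.div_mul_cancel ha.2, ← Nat.div_mul_cancel hb.2, hab]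
      have h1 : ∀ q ∈ Q.filter (fun q => m ∣ q),
          |((ArithmeticFunction.moebius m : ℤ) : ℝ) * m / (q.totient : ℝ)| =
            ((m : ℝ) / m.totient) * (1 / (((q / m : ℕ)).totient : ℝ)) := by
        intro q hq
        rw [mem_filter] at hq
        have h2 : q = m * (q / m) := (Nat.mul_div_cancel' hq.2).symm
        have h3 : Squarefree (m * (q / m)) := by rw [← h2]; exact (hQ q hq.1).1
        have h4 := (Nat.squarefree_mul_iff.1 h3).1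
        have h5 : (q.totient : ℝ) = m.totient * ((q / m : ℕ).totient : ℝ) := by
          have : q.totient = m.totient * (q / m).totient := by
            conv_lhs => rw [h2]
            exact Nat.totient_mul h4
          rw [this]; push_cast; rfl
        rw [abs_div, abs_mul, ← Int.cast_abs,
          ArithmeticFunction.abs_moebius_eq_one_of_squarefree hms, Int.cast_one, one_mul,
          abs_of_nonneg (Nat.cast_nonneg m), abs_of_nonneg (Nat.cast_nonneg _), h5]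
        rw [div_mul_div_comm, mul_one]
      calc |∑ q ∈ Q.filter (fun q => m ∣ q),
            ((ArithmeticFunction.moebius m : ℤ) : ℝ) * m / (q.totient : ℝ)|
          ≤ ∑ q ∈ Q.filter (fun q => m ∣ q),
            |((ArithmeticFunction.moebius m : ℤ) : ℝ) * m / (q.totient : ℝ)| :=
            abs_sum_le_sum_abs _ _
        _ = ((m : ℝ) / m.totient) * ∑ q ∈ Q.filter (fun q => m ∣ q),
              (1 / (((q / m : ℕ)).totient : ℝ)) := by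
            rw [mul_sum]; exact sum_congr rfl h1
        _ = ((m : ℝ) / m.totient) *
              ∑ w ∈ (Q.filter (fun q => m ∣ q)).image (fun v => v / m),
                1 / (w.totient : ℝ) := by
            rw [sum_image hinj]
        _ ≤ T * T ^ 2 := by
            have h6 := div_totient_le hB hms hmM
            have h7 : ∑ w ∈ (Q.filter (fun q => m ∣ q)).image (fun v => v / m),
                1 / (w.totient : ℝ) ≤ T ^ 2 := by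
              apply sum_inv_totient_le hB
              intro w hw
              rw [mem_image] at hw
              obtain ⟨v, hv, rfl⟩ := hw
              rw [mem_filter] at hv
              obtain ⟨hv1, hv2⟩ := hQ v hv.1
              exact ⟨hv1.squarefree_of_dvd (Nat.div_dvd_of_dvd hv.2),
                (Nat.div_le_self v m).trans (hv2.trans hQm)⟩
            have h8 : 0 ≤ ∑ w ∈ (Q.filter (fun q => m ∣ q)).image (fun v => v / m),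
                1 / (w.totient : ℝ) := sum_nonneg (fun _ _ => by positivity)
            exact mul_le_mul h6 h7 h8 (by linarith)
        _ = T ^ 3 := by ring
    · rw [not_nonempty_iff_eq_empty] at hne
      simp only [hne, sum_empty, abs_zero]
      positivity
  · intro m hm
    apply sum_eq_zero
    intro q hq
    rw [mem_filter] at hq
    exfalso
    have hq0 : 0 < q := Nat.pos_of_ne_zero (hQ q hq.1).1.ne_zero
    have := (Nat.le_of_dvd hq0 hq.2).trans (hQ q hq.1).2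
    omega
  · intro n hn
    unfold FQ
    have h1 : ∀ q ∈ Q, bc q n = ∑ m ∈ n.divisors, if m ∣ q then
        ((ArithmeticFunction.moebius m : ℤ) : ℝ) * m / (q.totient : ℝ) else 0 := by
      intro q hq
      rw [bc_eq_sum (hQ q hq).1, ← sum_filter]
      apply sum_congr _ (fun _ _ => rfl)
      ext m
      rw [mem_filter, mem_filter, Nat.mem_divisors, Nat.mem_divisors, Int.natCast_dvd_natCast]
      constructor
      · rintro ⟨⟨h2, _⟩, h4⟩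
        exact ⟨⟨h4, hn.ne'⟩, h2⟩
      · rintro ⟨⟨h2, _⟩, h4⟩
        exact ⟨⟨h4, (hQ q hq).1.ne_zero⟩, h2⟩
    rw [sum_congr rfl h1, sum_comm]
    apply sum_congr rfl
    intro m _
    exact (sum_filter _ _).symm

/-- splitting off the short initial segment -/
private lemma cb_split (hX : Lg X T C) (f : ℕ → ℝ)
    (hf : ∀ n : ℕ, 0 < n → (n : ℝ) ≤ 4 * X → |f n| ≤ T ^ 3)
    (j : ℤ) (hjX : |(j : ℝ)| ≤ X ^ eps4)
    (hmain : ∀ n₀ N' : ℕ, n₀ ≤ N' → X ^ (9995 / 10000 : ℝ) ≤ (n₀ : ℝ) + 1 → (N' : ℝ) ≤ 4 * X →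
      |∑ n ∈ Ioc n₀ N', f n * FQ (Q2 X) ((n : ℤ) + j)| ≤ X ^ (1 - 6 / 10 ^ 6 : ℝ))
    (A N : ℕ) (hAj : 0 ≤ (A : ℤ) + j) (hN : ((A + N : ℕ) : ℝ) ≤ 4 * X) :
    |∑ n ∈ Ioc A (A + N), f n * FQ (Q2 X) ((n : ℤ) + j)| ≤ X ^ (1 - 5 / 10 ^ 6 : ℝ) := by
  have hX1 := hX.X1
  have hX0 : (0 : ℝ) < X := by linarith
  have hT1 := cb_T1 hX
  set n₀ : ℕ := ⌊X ^ (9995 / 10000 : ℝ)⌋₊ with hn₀
  have hn₀le : (n₀ : ℝ) ≤ X ^ (9995 / 10000 : ℝ) := Nat.floor_le (by positivity)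
  have hn₀ge : X ^ (9995 / 10000 : ℝ) ≤ (n₀ : ℝ) + 1 := (Nat.lt_floor_add_one _).le
  -- each term
  have hterm : ∀ n : ℕ, A < n → n ≤ A + N → |f n * FQ (Q2 X) ((n : ℤ) + j)| ≤ T ^ 6 := by
    intro n h1 h2
    have h3 : (n : ℝ) ≤ 4 * X := by
      refine le_trans ?_ hN
      exact_mod_cast h2
    have h4 : 0 < (n : ℤ) + j := by
      have : (A : ℤ) < n := by exact_mod_cast h1
      linarith
    have h5 : ((n : ℤ) + j).natAbs ≤ ⌊X ^ (10 : ℝ)⌋₊ := by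
      apply cb_M hX (cb_5X hX)
      have h6 : ((((n : ℤ) + j).natAbs : ℕ) : ℝ) = (n : ℝ) + j := by
        have h7 : ((((n : ℤ) + j).natAbs : ℕ) : ℤ) = (n : ℤ) + j := Int.natAbs_of_nonneg h4.le
        rw [← Int.cast_natCast, h7, Int.cast_add, Int.cast_natCast]
      rw [h6]
      have h8 := (abs_le.1 (cb_jX hX hjX)).2
      linarith
    have h9 := abs_FQ_le hX.big (Q2 X) (cb_Q2 hX) ((n : ℤ) + j) h4.ne' h5
    have h10 := hf n (by omega) h3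
    rw [abs_mul]
    calc |f n| * |FQ (Q2 X) ((n : ℤ) + j)| ≤ T ^ 3 * T ^ 3 :=
          mul_le_mul h10 h9 (abs_nonneg _) (by positivity)
      _ = T ^ 6 := by ring
  have hT6 : T ^ 6 = X ^ (6 / 10 ^ 7 : ℝ) := by
    rw [hX.hT, ← Real.rpow_natCast, ← Real.rpow_mul hX0.le]
    congr 1
    norm_num [tau0]
  have hsmall : X ^ (9995 / 10000 : ℝ) * T ^ 6 ≤ X ^ (1 - 6 / 10 ^ 6 : ℝ) := by
    rw [hT6, ← Real.rpow_add hX0]
    exact Real.rpow_le_rpow_of_exponent_le hX1 (by norm_num)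
  have hbig : 2 * X ^ (1 - 6 / 10 ^ 6 : ℝ) ≤ X ^ (1 - 5 / 10 ^ 6 : ℝ) := by
    have h1 : X ^ (1 - 5 / 10 ^ 6 : ℝ) = T * (X ^ (9 / 10 ^ 7 : ℝ) * X ^ (1 - 6 / 10 ^ 6 : ℝ)) := by
      rw [hX.hT, ← Real.rpow_add hX0, ← Real.rpow_add hX0]
      congr 1
      norm_num [tau0]
    rw [h1]
    have h2 : (1 : ℝ) ≤ X ^ (9 / 10 ^ 7 : ℝ) := Real.one_le_rpow hX1 (by norm_num)
    have h3 : (2 : ℝ) ≤ T := le_trans (by norm_num) hX.h10
    have h4 : 0 ≤ X ^ (1 - 6 / 10 ^ 6 : ℝ) := by positivity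
    have h5 : X ^ (1 - 6 / 10 ^ 6 : ℝ) ≤ X ^ (9 / 10 ^ 7 : ℝ) * X ^ (1 - 6 / 10 ^ 6 : ℝ) := by
      nlinarith
    exact mul_le_mul h3 h5 h4 (by linarith)
  have htriv : ∀ a b : ℕ, A ≤ a → b ≤ A + N → ((b - a : ℕ) : ℝ) ≤ n₀ →
      |∑ n ∈ Ioc a b, f n * FQ (Q2 X) ((n : ℤ) + j)| ≤ X ^ (1 - 6 / 10 ^ 6 : ℝ) := by
    intro a b ha hb hab
    calc |∑ n ∈ Ioc a b, f n * FQ (Q2 X) ((n : ℤ) + j)|
        ≤ ∑ n ∈ Ioc a b, |f n * FQ (Q2 X) ((n : ℤ) + j)| := abs_sum_le_sum_abs _ _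
      _ ≤ ∑ _n ∈ Ioc a b, T ^ 6 := by
          apply sum_le_sum
          intro n hn
          rw [mem_Ioc] at hn
          exact hterm n (by omega) (by omega)
      _ = ((b - a : ℕ) : ℝ) * T ^ 6 := by rw [sum_const, Nat.card_Ioc, nsmul_eq_mul]
      _ ≤ X ^ (9995 / 10000 : ℝ) * T ^ 6 := by
          apply mul_le_mul_of_nonneg_right (hab.trans hn₀le) (by positivity)
      _ ≤ _ := hsmall
  have hnn : 0 ≤ X ^ (1 - 6 / 10 ^ 6 : ℝ) := by positivity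
  by_cases hcase : A + N ≤ n₀
  · have h1 := htriv A (A + N) le_rfl le_rfl (by
      have : A + N - A ≤ n₀ := by omega
      exact_mod_cast this)
    linarith
  · push Not at hcase
    set n₁ : ℕ := max A n₀ with hn₁
    have h1 : A ≤ n₁ := le_max_left _ _
    have h2 : n₁ ≤ A + N := max_le (by omega) hcase.le
    have h3 : n₀ ≤ n₁ := le_max_right _ _
    have hsplit : ∑ n ∈ Ioc A (A + N), f n * FQ (Q2 X) ((n : ℤ) + j) =
        ∑ n ∈ Ioc A n₁, f n * FQ (Q2 X) ((n : ℤ) + j) +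
          ∑ n ∈ Ioc n₁ (A + N), f n * FQ (Q2 X) ((n : ℤ) + j) :=
      (sum_Ioc_consecutive _ h1 h2).symm
    have h4 := htriv A n₁ le_rfl h2 (by
      have : n₁ - A ≤ n₀ := by
        rcases max_cases A n₀ with ⟨h, _⟩ | ⟨h, _⟩ <;> rw [hn₁, h] <;> omega
      exact_mod_cast this)
    have h5 := hmain n₁ (A + N) h2 (hn₀ge.trans (by
      have : (n₀ : ℝ) ≤ n₁ := by exact_mod_cast h3
      linarith)) hN
    rw [hsplit]
    refine (abs_add_le _ _).trans ?_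
    linarith

/-- `f` is one of the functions that may be correlated with `F_{Q2}` -/
theorem q2_vM {w₀ wh : ℝ → ℝ} {CA : ℕ → ℝ} (hW : Wt w₀ wh C CA) (hX : Lg X T C)
    (hCA : CA 20000 ≤ T) (hLL : ∀ i, LL (PS X i) ≤ 1)
    (j : ℤ) (hj : j ≠ 0) (hjX : |(j : ℝ)| ≤ X ^ eps4)
    (A N : ℕ) (hAj : 0 ≤ (A : ℤ) + j) (hN : ((A + N : ℕ) : ℝ) ≤ 4 * X) :
    |∑ n ∈ Ioc A (A + N), vM n * FQ (Q2 X) ((n : ℤ) + j)| ≤ X ^ (1 - 5 / 10 ^ 6 : ℝ) := by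
  apply cb_split hX (fun n => vM n) _ j hjX _ A N hAj hN
  · intro n hn hn4
    have hT1 := cb_T1 hX
    have h0 : 0 ≤ vM n := ArithmeticFunction.vonMangoldt_nonneg
    rw [abs_of_nonneg h0]
    have h1 : vM n ≤ Real.log n := ArithmeticFunction.vonMangoldt_le_log
    have h2 : n ≤ ⌊X ^ (10 : ℝ)⌋₊ := by
      apply cb_M hX (cb_5X hX)
      have := hX.X1
      linarith
    have h3 : Real.log n ≤ Real.log ⌊X ^ (10 : ℝ)⌋₊ := by
      apply Real.log_le_log (by exact_mod_cast hn)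
      exact_mod_cast h2
    have h4 := hX.big.log
    have h5 : T ≤ T ^ 3 := le_self_pow₀ hT1 (by norm_num)
    linarith
  · intro n₀ N' h1 h2 h3
    exact corr_vM hW hX hCA hLL j hj hjX n₀ N' h1 h2 h3

/-- correlations of a general `F_Q` with `F_{Q2}` -/
private lemma cb_qq {w₀ wh : ℝ → ℝ} {CA : ℕ → ℝ} (hW : Wt w₀ wh C CA) (hX : Lg X T C)
    (hCA : CA 20000 ≤ T) (hLL : ∀ i, LL (PS X i) ≤ 1)
    (Q : Finset ℕ) (hQ : ∀ q ∈ Q, Squarefree q ∧ (q : ℝ) ≤ X ^ (501 / 1000 : ℝ))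
    (j : ℤ) (hj : j ≠ 0) (hjX : |(j : ℝ)| ≤ X ^ eps4)
    (A N : ℕ) (hAj : 0 ≤ (A : ℤ) + j) (hN : ((A + N : ℕ) : ℝ) ≤ 4 * X) :
    |∑ n ∈ Ioc A (A + N), FQ Q n * FQ (Q2 X) ((n : ℤ) + j)| ≤ X ^ (1 - 5 / 10 ^ 6 : ℝ) := by
  have hX1 := hX.X1
  have hX0 : (0 : ℝ) < X := by linarith
  have hT1 := cb_T1 hX
  have hQ' : ∀ q ∈ Q, Squarefree q ∧ q ≤ ⌊X ^ (501 / 1000 : ℝ)⌋₊ := fun q hq =>
    ⟨(hQ q hq).1, Nat.le_floor (hQ q hq).2⟩
  have hQm : ⌊X ^ (501 / 1000 : ℝ)⌋₊ ≤ ⌊X ^ (10 : ℝ)⌋₊ :=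
    Nat.floor_mono (Real.rpow_le_rpow_of_exponent_le hX1 (by norm_num))
  obtain ⟨lam, hl1, hl2, hl3⟩ := FQ_div hX.big Q _ hQm hQ'
  apply cb_split hX (fun n => FQ Q n) _ j hjX _ A N hAj hN
  · intro n hn hn4
    apply abs_FQ_le hX.big Q (fun q hq => ⟨(hQ q hq).1, (hQ' q hq).2.trans hQm⟩)
    · exact_mod_cast hn.ne'
    · rw [Int.natAbs_natCast]
      apply cb_M hX (cb_5X hX)
      linarith
  · intro n₀ N' h1 h2 h3
    have h4 : ∑ n ∈ Ioc n₀ N', FQ Q n * FQ (Q2 X) ((n : ℤ) + j) =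
        ∑ n ∈ Ioc n₀ N', (∑ m ∈ n.divisors, lam m) * FQ (Q2 X) ((n : ℤ) + j) := by
      apply sum_congr rfl
      intro n hn
      rw [mem_Ioc] at hn
      rw [hl3 n (by omega)]
    rw [h4]
    have h5 := corr_div hW hX hCA hLL j hj hjX n₀ N' h1 h2 h3 lam (T ^ 3)
      (one_le_pow₀ hT1) hl1 (by
        intro m hm
        apply hl2
        apply Nat.floor_lt' (by
          rintro rfl
          rw [Nat.cast_zero] at hm
          have : 0 < X ^ (667 / 1000 : ℝ) := by positivity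
          linarith) |>.2
        refine lt_of_le_of_lt ?_ hm
        exact Real.rpow_le_rpow_of_exponent_le hX1 (by norm_num))
    refine h5.trans ?_
    have hT6 : (T ^ 3) ^ 2 = X ^ (6 / 10 ^ 7 : ℝ) := by
      rw [← pow_mul, hX.hT, ← Real.rpow_natCast, ← Real.rpow_mul hX0.le]
      congr 1
      norm_num [tau0]
    rw [hT6, ← Real.rpow_add hX0]
    exact Real.rpow_le_rpow_of_exponent_le hX1 (by norm_num)

private lemma cb_Q1 (hX : Lg X T C) {ε : ℝ} (hε : 0 < ε) :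
    ∀ q ∈ Q1 X ε, Squarefree q ∧ (q : ℝ) ≤ X ^ (501 / 1000 : ℝ) := by
  intro q hq
  have hX1 := hX.X1
  unfold Q1 at hq
  rw [mem_filter, mem_Ioc] at hq
  refine ⟨hq.2, ?_⟩
  have h1 : (q : ℝ) ≤ X ^ (1 / 2 - ε) := (Nat.le_floor_iff (by positivity)).1 hq.1.2
  exact h1.trans (Real.rpow_le_rpow_of_exponent_le hX1 (by linarith))

theorem q1_q2 {w₀ wh : ℝ → ℝ} {CA : ℕ → ℝ} (hW : Wt w₀ wh C CA) (hX : Lg X T C)
    (hCA : CA 20000 ≤ T) (hLL : ∀ i, LL (PS X i) ≤ 1) (ε : ℝ) (hε : 0 < ε) (hε1 : ε ≤ 1 / 100)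
    (j : ℤ) (hj : j ≠ 0) (hjX : |(j : ℝ)| ≤ X ^ eps4)
    (A N : ℕ) (hAj : 0 ≤ (A : ℤ) + j) (hN : ((A + N : ℕ) : ℝ) ≤ 4 * X) :
    |∑ n ∈ Ioc A (A + N), FQ (Q1 X ε) n * FQ (Q2 X) ((n : ℤ) + j)| ≤
      X ^ (1 - 5 / 10 ^ 6 : ℝ) :=
  cb_qq hW hX hCA hLL _ (cb_Q1 hX hε) j hj hjX A N hAj hN

theorem q2_q2 {w₀ wh : ℝ → ℝ} {CA : ℕ → ℝ} (hW : Wt w₀ wh C CA) (hX : Lg X T C)
    (hCA : CA 20000 ≤ T) (hLL : ∀ i, LL (PS X i) ≤ 1)
    (j : ℤ) (hj : j ≠ 0) (hjX : |(j : ℝ)| ≤ X ^ eps4)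
    (A N : ℕ) (hAj : 0 ≤ (A : ℤ) + j) (hN : ((A + N : ℕ) : ℝ) ≤ 4 * X) :
    |∑ n ∈ Ioc A (A + N), FQ (Q2 X) n * FQ (Q2 X) ((n : ℤ) + j)| ≤
      X ^ (1 - 5 / 10 ^ 6 : ℝ) :=
  cb_qq hW hX hCA hLL _ (fun q hq => ⟨(mem_Q2 hX hq).1, (mem_Q2 hX hq).2.2⟩) j hj hjX A N hAj hN

theorem q2_q1 {w₀ wh : ℝ → ℝ} {CA : ℕ → ℝ} (hW : Wt w₀ wh C CA) (hX : Lg X T C)
    (hCA : CA 20000 ≤ T) (hLL : ∀ i, LL (PS X i) ≤ 1) (ε : ℝ) (hε : 0 < ε) (hε1 : ε ≤ 1 / 100)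
    (j : ℤ) (hj : j ≠ 0) (hjX : |(j : ℝ)| ≤ X ^ eps4)
    (A N : ℕ) (hAj : 0 ≤ (A : ℤ) + j) (hN : ((A + N : ℕ) : ℝ) ≤ 3 * X) :
    |∑ n ∈ Ioc A (A + N), FQ (Q2 X) n * FQ (Q1 X ε) ((n : ℤ) + j)| ≤
      X ^ (1 - 5 / 10 ^ 6 : ℝ) := by
  obtain ⟨A', hA'⟩ := Int.eq_ofNat_of_zero_le hAj
  have hjX' : |((-j : ℤ) : ℝ)| ≤ X ^ eps4 := by
    push_cast
    rw [abs_neg]
    exact hjX
  have h1 : ∑ n ∈ Ioc A (A + N), FQ (Q2 X) n * FQ (Q1 X ε) ((n : ℤ) + j) =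
      ∑ n ∈ Ioc A' (A' + N), FQ (Q1 X ε) n * FQ (Q2 X) ((n : ℤ) + (-j)) := by
    refine sum_nbij' (fun n : ℕ => ((n : ℤ) + j).toNat) (fun n : ℕ => ((n : ℤ) - j).toNat)
      ?_ ?_ ?_ ?_ ?_
    · intro n hn
      rw [mem_Ioc] at hn ⊢
      omega
    · intro n hn
      rw [mem_Ioc] at hn ⊢
      omega
    · intro n hn
      rw [mem_Ioc] at hn
      omega
    · intro n hn
      rw [mem_Ioc] at hn
      omega
    · intro n hn
      rw [mem_Ioc] at hn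
      have h2 : ((((n : ℤ) + j).toNat : ℕ) : ℤ) = (n : ℤ) + j := by omega
      rw [h2, mul_comm]
      congr 2
      ring
  rw [h1]
  apply q1_q2 hW hX hCA hLL ε hε hε1 (-j) (neg_ne_zero.2 hj) hjX' A' N
  · omega
  · have h3 : (A' : ℝ) = A + j := by
      have : (A' : ℤ) = A + j := by omega
      exact_mod_cast this
    push_cast at hN ⊢
    rw [h3]
    have h4 := (abs_le.1 (cb_jX hX hjX)).2
    linarith

end Pool.Agent.Lib.MP_2a816b_nt.BH
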