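import Pool.Agent.Lib.MP_2a816b_nt.BH.Defs

/-!
# JOB WtEx: existence of the smooth weight

`w` = a `ContDiffBump (0 : ℝ)` with `rIn = 1`, `rOut = 2`: smooth, even (`ContDiffBump.neg`), values in `[0, 1]`, `1` on `|x| ≤ 1`, `0` for
`|x| ≥ 2`; it is a Schwartz function (`HasCompactSupport.toSchwartzMap` or similar). `wh` = its Fourier transform
(`𝓕`), real valued because `w` is real and even (take `wh x = (𝓕 w x).re`), even, and a Schwartz function
(`SchwartzMap.fourierTransform...`), which gives `decay` and `wh_le`; `var`: `wh` is differentiable with integrable derivative,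
the points `a / u` are monotone in `u`, so the sum is at most `∫ |wh'|` (`|wh x - wh y| ≤ |∫_x^y |wh'||`, adjacent intervals).
`poisson`: the function `f x = w (x / K) e(θ x)` has Fourier transform `K wh (K (ξ - θ))`; Poisson summation for Schwartz functions
(or for continuous functions with compact support whose Fourier transform decays: `Real.tsum_eq_tsum_fourier_of_rpow_decay...`);
`w (k / K) = 0` unless `|k| < 2 K`.
-/

set_option autoImplicit false

open Finset Real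

namespace Pool.Agent.Lib.MP_2a816b_nt.BH

open scoped FourierTransform SchwartzMap ContDiff ComplexConjugate

/-- the bump function -/
private noncomputable def WtExPhi : ContDiffBump (0 : ℝ) := ⟨1, 2, one_pos, one_lt_two⟩

/-- its complexification -/
private noncomputable def WtExW (x : ℝ) : ℂ := ((WtExPhi x : ℝ) : ℂ)

private theorem WtEx_contDiff : ContDiff ℝ ∞ WtExW :=
  Complex.ofRealCLM.contDiff.comp WtExPhi.contDiff

private theorem WtEx_zero (x : ℝ) (hx : 2 ≤ |x|) : WtExPhi x = 0 := by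
  apply WtExPhi.zero_of_le_dist
  rw [Real.dist_eq, sub_zero]
  exact hx

private theorem WtEx_one (x : ℝ) (hx : |x| ≤ 1) : WtExPhi x = 1 := by
  apply WtExPhi.one_of_mem_closedBall
  rw [mem_closedBall_iff_norm, sub_zero, Real.norm_eq_abs]
  exact hx

private theorem WtEx_cs : HasCompactSupport WtExW := by
  apply HasCompactSupport.intro (isCompact_Icc (a := (-2 : ℝ)) (b := 2))
  intro x hx
  have : 2 ≤ |x| := by
    by_contra h
    push Not at h
    rw [abs_lt] at h
    exact hx ⟨h.1.le, h.2.le⟩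
  simp [WtExW, WtEx_zero x this]

/-- the Fourier transform of the weight as a Schwartz function -/
private noncomputable def WtExPsi : 𝓢(ℝ, ℂ) := 𝓕 (WtEx_cs.toSchwartzMap WtEx_contDiff)

private theorem WtEx_psi (x : ℝ) : WtExPsi x = 𝓕 WtExW x := rfl

private theorem WtEx_even (x : ℝ) : 𝓕 WtExW (-x) = 𝓕 WtExW x := by
  rw [Real.fourier_real_eq_integral_exp_smul, Real.fourier_real_eq_integral_exp_smul]
  rw [← MeasureTheory.integral_neg_eq_self]
  refine MeasureTheory.integral_congr_ae (Filter.Eventually.of_forall fun v => ?_)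
  have h : WtExW (-v) = WtExW v := by
    simp only [WtExW]
    rw [WtExPhi.neg]
  simp only [h]
  congr 3
  push_cast
  ring

private theorem WtEx_conj (x : ℝ) : conj (𝓕 WtExW x) = 𝓕 WtExW x := by
  conv_rhs => rw [← WtEx_even]
  rw [Real.fourier_real_eq_integral_exp_smul, Real.fourier_real_eq_integral_exp_smul, ← integral_conj]
  refine MeasureTheory.integral_congr_ae (Filter.Eventually.of_forall fun v => ?_)
  simp only [smul_eq_mul, map_mul, ← Complex.exp_conj, WtExW, Complex.conj_ofReal, Complex.conj_I]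
  congr 2
  push_cast
  ring

private theorem WtEx_real (x : ℝ) : (((𝓕 WtExW x).re : ℝ) : ℂ) = 𝓕 WtExW x :=
  Complex.conj_eq_iff_re.mp (WtEx_conj x)

private theorem WtEx_scale (W : ℝ → ℂ) (K : ℝ) (hK : 0 < K) (θ ξ : ℝ) :
    𝓕 (fun x : ℝ => W (x / K) * e (θ * x)) ξ = (K : ℂ) * 𝓕 W (K * (ξ - θ)) := by
  rw [Real.fourier_real_eq_integral_exp_smul, Real.fourier_real_eq_integral_exp_smul]
  have h : (fun v : ℝ => Complex.exp (((-2 * π * v * ξ : ℝ) : ℂ) * Complex.I) • (W (v / K) * e (θ * v)))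
      = fun v : ℝ => (fun y : ℝ =>
          Complex.exp (((-2 * π * y * (K * (ξ - θ)) : ℝ) : ℂ) * Complex.I) • W y) (v / K) := by
    funext v
    simp only [smul_eq_mul, e]
    rw [mul_comm (W (v / K)), ← mul_assoc, ← Complex.exp_add]
    congr 2
    have hK' : (K : ℂ) ≠ 0 := by exact_mod_cast hK.ne'
    push_cast
    field_simp
    ring
  rw [h, MeasureTheory.Measure.integral_comp_div
    (fun y : ℝ => Complex.exp (((-2 * π * y * (K * (ξ - θ)) : ℝ) : ℂ) * Complex.I) • W y) K,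
    abs_of_pos hK]
  simp

private theorem WtEx_deriv_int : MeasureTheory.Integrable (fun x => ‖deriv (WtExPsi : ℝ → ℂ) x‖) := by
  have h := (SchwartzMap.derivCLM ℂ ℂ WtExPsi).integrable (μ := MeasureTheory.volume)
  exact h.norm

private theorem WtEx_sub (x y : ℝ) (hxy : x ≤ y) :
    |(𝓕 WtExW y).re - (𝓕 WtExW x).re| ≤ ∫ t in x..y, ‖deriv (WtExPsi : ℝ → ℂ) t‖ := by
  have h1 : (𝓕 WtExW y).re - (𝓕 WtExW x).re = (WtExPsi y - WtExPsi x).re := by
    rw [Complex.sub_re]; rfl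
  rw [h1]
  refine (Complex.abs_re_le_norm _).trans ?_
  have hcont : Continuous (deriv (WtExPsi : ℝ → ℂ)) :=
    (SchwartzMap.derivCLM ℂ ℂ WtExPsi).continuous
  have h2 : ∫ t in x..y, deriv (WtExPsi : ℝ → ℂ) t = WtExPsi y - WtExPsi x := by
    apply intervalIntegral.integral_deriv_eq_sub
    · intro t _
      exact WtExPsi.differentiableAt
    · exact hcont.intervalIntegrable _ _
  rw [← h2]
  exact intervalIntegral.norm_integral_le_integral_norm hxy

private theorem WtEx_var (a : ℝ) (ha : 0 ≤ a) (U₁ U₂ : ℕ) (h1 : 0 < U₁) (h2 : U₁ ≤ U₂) :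
    ∑ u ∈ Ico U₁ U₂, |(𝓕 WtExW (a / ((u : ℝ) + 1))).re - (𝓕 WtExW (a / u)).re|
      ≤ ∫ t, ‖deriv (WtExPsi : ℝ → ℂ) t‖ := by
  have hii : ∀ x y : ℝ, IntervalIntegrable (fun t => ‖deriv (WtExPsi : ℝ → ℂ) t‖)
      MeasureTheory.volume x y := fun x y => WtEx_deriv_int.intervalIntegrable
  have hterm : ∀ u ∈ Ico U₁ U₂,
      |(𝓕 WtExW (a / ((u : ℝ) + 1))).re - (𝓕 WtExW (a / u)).re|
        ≤ - ∫ t in (a / (u : ℝ))..(a / ((u + 1 : ℕ) : ℝ)), ‖deriv (WtExPsi : ℝ → ℂ) t‖ := by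
    intro u hu
    have hu0 : (0 : ℝ) < u := by
      have := (Finset.mem_Ico.mp hu).1
      exact_mod_cast (lt_of_lt_of_le h1 this)
    have hle : a / ((u + 1 : ℕ) : ℝ) ≤ a / u := by
      push_cast
      gcongr
      linarith
    rw [← intervalIntegral.integral_symm]
    have := WtEx_sub _ _ hle
    rw [abs_sub_comm]
    push_cast at this ⊢
    exact this
  refine (Finset.sum_le_sum hterm).trans ?_
  rw [Finset.sum_neg_distrib,
    intervalIntegral.sum_integral_adjacent_intervals_Ico (a := fun k : ℕ => a / (k : ℝ)) h2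
      (fun k _ => hii _ _),
    ← intervalIntegral.integral_symm]
  have hle : a / (U₂ : ℝ) ≤ a / (U₁ : ℝ) := by
    have hU1 : (0 : ℝ) < U₁ := by exact_mod_cast h1
    have hU : (U₁ : ℝ) ≤ U₂ := by exact_mod_cast h2
    gcongr
  rw [intervalIntegral.integral_of_le hle]
  exact MeasureTheory.setIntegral_le_integral WtEx_deriv_int
    (Filter.Eventually.of_forall fun t => norm_nonneg _)

private theorem WtEx_re_abs (x : ℝ) : (𝓕 WtExW x).re = (𝓕 WtExW |x|).re := by
  rcases abs_choice x with h | h <;> rw [h]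
  rw [WtEx_even]

private theorem WtEx_poisson (K : ℝ) (hK : 0 < K) (θ : ℝ) :
    HasSum (fun ν : ℤ => ((K * (𝓕 WtExW (K * ((ν : ℝ) - θ))).re : ℝ) : ℂ))
    (∑ k ∈ Icc (-⌈2 * K⌉) ⌈2 * K⌉, ((WtExPhi ((k : ℝ) / K) : ℝ) : ℂ) * e ((k : ℝ) * θ)) := by
  have hsm : ContDiff ℝ ∞ (fun x : ℝ => WtExW (x / K) * e (θ * x)) := by
    apply ContDiff.mul
    · exact WtEx_contDiff.comp (contDiff_id.div_const K)
    · unfold e
      apply ContDiff.cexp
      apply ContDiff.mul _ contDiff_const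
      apply ContDiff.mul contDiff_const
      exact Complex.ofRealCLM.contDiff.comp (contDiff_const.mul contDiff_id)
  have hz : ∀ x : ℝ, 2 * K ≤ |x| → WtExW (x / K) = 0 := by
    intro x hx
    have : 2 ≤ |x / K| := by
      rw [abs_div, abs_of_pos hK, le_div_iff₀ hK]
      exact hx
    simp [WtExW, WtEx_zero _ this]
  have hcs : HasCompactSupport (fun x : ℝ => WtExW (x / K) * e (θ * x)) := by
    apply HasCompactSupport.intro (isCompact_Icc (a := -(2 * K)) (b := 2 * K))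
    intro x hx
    have : 2 * K ≤ |x| := by
      by_contra h
      push Not at h
      rw [abs_lt] at h
      exact hx ⟨h.1.le, h.2.le⟩
    simp [hz x this]
  let F : 𝓢(ℝ, ℂ) := hcs.toSchwartzMap hsm
  have hF : ∀ x, F x = WtExW (x / K) * e (θ * x) := fun x => rfl
  have hFF : ∀ ξ : ℝ, (𝓕 F) ξ = ((K * (𝓕 WtExW (K * (ξ - θ))).re : ℝ) : ℂ) := by
    intro ξ
    have h1 : (𝓕 F) ξ = 𝓕 (fun x : ℝ => WtExW (x / K) * e (θ * x)) ξ := rfl
    rw [h1, WtEx_scale WtExW K hK θ ξ]
    push_cast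
    rw [WtEx_real]
  have hsum : Summable (fun n : ℤ => (𝓕 F) (n : ℝ)) :=
    summable_of_isBigO (Real.summable_abs_int_rpow one_lt_two)
      (((𝓕 F).isBigO_cocompact_rpow (-2)).comp_tendsto Int.tendsto_coe_cofinite)
  have hP := SchwartzMap.tsum_eq_tsum_fourier F 0
  simp only [zero_add] at hP
  have h4 : ∑' n : ℤ, (𝓕 F) (n : ℝ) = ∑' n : ℤ, F (n : ℝ) := by
    rw [hP]
    refine tsum_congr fun n => ?_
    have : fourier n ((0 : ℝ) : UnitAddCircle) = (1 : ℂ) := by
      simp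
    rw [this, mul_one]
  have h5 : ∑' n : ℤ, F (n : ℝ) = ∑ k ∈ Icc (-⌈2 * K⌉) ⌈2 * K⌉,
      ((WtExPhi ((k : ℝ) / K) : ℝ) : ℂ) * e ((k : ℝ) * θ) := by
    rw [tsum_eq_sum (s := Icc (-⌈2 * K⌉) ⌈2 * K⌉)]
    · refine Finset.sum_congr rfl fun k _ => ?_
      rw [hF, mul_comm θ]
      rfl
    · intro k hk
      rw [hF, hz, zero_mul]
      rw [Finset.mem_Icc, not_and_or] at hk
      push Not at hk
      rcases hk with hk | hk
      · have h6 : (k : ℝ) < -((⌈2 * K⌉ : ℤ) : ℝ) := by exact_mod_cast hk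
        have h7 := Int.le_ceil (2 * K)
        rw [le_abs]
        right
        linarith
      · have h6 : ((⌈2 * K⌉ : ℤ) : ℝ) < (k : ℝ) := by exact_mod_cast hk
        have h7 := Int.le_ceil (2 * K)
        rw [le_abs]
        left
        linarith
  rw [← h5, ← h4]
  have := hsum.hasSum
  convert this using 1
  funext ν
  rw [hFF]

theorem exists_Wt : ∃ (w wh : ℝ → ℝ) (C : ℝ) (CA : ℕ → ℝ), Wt w wh C CA := by
  set I := ∫ t, ‖deriv (WtExPsi : ℝ → ℂ) t‖ with hI
  have hI0 : 0 ≤ I := MeasureTheory.integral_nonneg fun t => norm_nonneg _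
  set CA : ℕ → ℝ := fun A => SchwartzMap.seminorm ℂ A 0 WtExPsi with hCA
  have hCA0 : ∀ A, 0 ≤ CA A := fun A => apply_nonneg _ _
  have hdec : ∀ (A : ℕ) (x : ℝ), |x| ^ A * |(𝓕 WtExW x).re| ≤ CA A := by
    intro A x
    have h := SchwartzMap.norm_pow_mul_le_seminorm ℂ WtExPsi A x
    rw [Real.norm_eq_abs] at h
    refine le_trans ?_ h
    refine mul_le_mul_of_nonneg_left ?_ (by positivity)
    rw [WtEx_psi]
    exact Complex.abs_re_le_norm _
  refine ⟨fun x => WtExPhi x, fun x => (𝓕 WtExW x).re, 1 + CA 0 + I, CA, ?_⟩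
  refine ⟨?_, ?_, ?_, ?_, ?_, ?_, ?_, hdec, ?_, ?_⟩
  · linarith [hCA0 0]
  · intro x
    exact WtExPhi.nonneg
  · intro x
    have : WtExPhi x ≤ 1 := WtExPhi.le_one
    linarith [hCA0 0]
  · intro x hx
    rw [WtEx_one x hx]
  · intro x hx
    exact WtEx_zero x hx
  · intro x
    have := hdec 0 x
    rw [pow_zero, one_mul] at this
    linarith
  · intro x
    show (𝓕 WtExW (-x)).re = (𝓕 WtExW x).re
    rw [WtEx_even]
  · intro a U₁ U₂ h1 h2
    have h3 := WtEx_var |a| (abs_nonneg a) U₁ U₂ h1 h2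
    have h4 : ∑ u ∈ Ico U₁ U₂, |(𝓕 WtExW (a / ((u : ℝ) + 1))).re - (𝓕 WtExW (a / u)).re|
        = ∑ u ∈ Ico U₁ U₂, |(𝓕 WtExW (|a| / ((u : ℝ) + 1))).re - (𝓕 WtExW (|a| / u)).re| := by
      refine Finset.sum_congr rfl fun u _ => ?_
      rw [WtEx_re_abs (a / ((u : ℝ) + 1)), WtEx_re_abs (a / (u : ℝ)), abs_div, abs_div,
        abs_of_nonneg (by positivity : (0 : ℝ) ≤ (u : ℝ) + 1),
        abs_of_nonneg (by positivity : (0 : ℝ) ≤ (u : ℝ))]
    show ∑ u ∈ Ico U₁ U₂, |(𝓕 WtExW (a / ((u : ℝ) + 1))).re - (𝓕 WtExW (a / u)).re| ≤ _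
    rw [h4]
    linarith [hCA0 0]
  · intro K hK θ
    exact WtEx_poisson K hK θ

end Pool.Agent.Lib.MP_2a816b_nt.BH
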