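import Pool.Agent.Lib.MP_2a816b_nt.BH.Gain
import Pool.Agent.Lib.MP_2a816b_nt.BH.CorrB
import Pool.Agent.Lib.MP_2a816b_nt.BH.WtEx

/-!
# JOB Minor: the minorization of the sum of squares of the windows

`minor`: with `G_i = ∑_{v < h} g(s + 1 + i + v)`: `win_i ^ 2 ≥ 2 win_i G_i - G_i ^ 2`. Expand: `∑_{i<M} win_i G_i = ∑_{u, v < h} ∑_{i < M} vM(s+1+i+u) g(s+1+i+v) - H ∑_{v<h} ∑_{i<M} g(s+1+i+v)`, and
`∑_{i < M} vM(s+1+i+u) g(s+1+i+v) = ∑_{n ∈ (s+u, s+u+M]} vM n g(n + (v - u))`. The terms `u = v` form the main sum, the `h (h - 1)` terms with `u ≠ v` (`j = v - u`, `0 < |j| < h`, `A = s + u`, `A + j = s + v ≥ 0`) are at most `B` each. The same for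
`∑ G_i ^ 2`. 

`corr_gt`: for `g = gt X ε lam`, `0 ≤ lam ≤ 1`: the correlations with shift `j ≠ 0`, `|j| ≤ X ^ (ε / 100)` (`≤ X ^ ε₄` as `ε ≤ 1/10^4`: `ε / 100 ≤ 10^-6`) are at most `6 X ^ (1 - ε / 40)` (`q1_vM`, `q2_vM`, `q1_q1`, `q1_q2`, `q2_q1`, `q2_q2`; `ε / 40 ≤ 5/10^6`) `≤ X ^ (1 - ε / 50)`;
and the sum of `g` is `≤ X ^ (1 - ε)` (`sum_FQ`). The hypotheses `Lg X (X ^ tau0) C`, `CA 20000 ≤ T`, `Le X _ ε`, `LL ≤ 1` hold for large `X` (`ev_Lg`, `ev_Le`, `LL_le`; `C, CA` from `exists_Wt`; note `Lg X T C'` with `C' = max(C, CA 20000)` gives `Lg X T C`).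
-/

set_option autoImplicit false

open Finset Real
open scoped Pointwise

namespace Pool.Agent.Lib.MP_2a816b_nt.BH

private lemma minor_re (s M : ℕ) (F : ℕ → ℝ) (u : ℕ) :
    ∑ i ∈ range M, F (s + 1 + i + u) = ∑ n ∈ Ioc (s + u) (s + u + M), F n := by
  have h : Ioc (s + u) (s + u + M) = Ico (s + u + 1) (s + u + 1 + M) := by
    ext n
    simp only [mem_Ioc, mem_Ico]
    omega
  rw [h, Finset.sum_Ico_eq_sum_range, Nat.add_sub_cancel_left]
  refine Finset.sum_congr rfl fun i _ => ?_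
  congr 1
  ring

private lemma minor_pair (h s M : ℕ) (f : ℕ → ℝ) (g : ℤ → ℝ) (B : ℝ) (hB : 0 ≤ B)
    (h1 : ∀ A : ℕ, ∀ j : ℤ, j ≠ 0 → |j| < h → A < s + h → 0 ≤ (A : ℤ) + j →
      |∑ n ∈ Ioc A (A + M), f n * g ((n : ℤ) + j)| ≤ B) :
    |∑ i ∈ range M, (∑ u ∈ range h, f (s + 1 + i + u)) *
        (∑ v ∈ range h, g ((s + 1 + i + v : ℕ) : ℤ)) -
      ∑ u ∈ range h, ∑ n ∈ Ioc (s + u) (s + u + M), f n * g n| ≤ (h : ℝ) ^ 2 * B := by
  have e1 : ∑ i ∈ range M, (∑ u ∈ range h, f (s + 1 + i + u)) *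
        (∑ v ∈ range h, g ((s + 1 + i + v : ℕ) : ℤ)) =
      ∑ u ∈ range h, ∑ v ∈ range h, ∑ n ∈ Ioc (s + u) (s + u + M),
        f n * g ((n : ℤ) + ((v : ℤ) - u)) := by
    calc ∑ i ∈ range M, (∑ u ∈ range h, f (s + 1 + i + u)) *
        (∑ v ∈ range h, g ((s + 1 + i + v : ℕ) : ℤ))
        = ∑ i ∈ range M, ∑ u ∈ range h, ∑ v ∈ range h,
            f (s + 1 + i + u) * g ((s + 1 + i + v : ℕ) : ℤ) := by
          refine Finset.sum_congr rfl fun i _ => ?_
          rw [Finset.sum_mul_sum]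
      _ = ∑ u ∈ range h, ∑ v ∈ range h, ∑ i ∈ range M,
            f (s + 1 + i + u) * g ((s + 1 + i + v : ℕ) : ℤ) := by
          rw [Finset.sum_comm]
          refine Finset.sum_congr rfl fun u _ => ?_
          rw [Finset.sum_comm]
      _ = _ := by
          refine Finset.sum_congr rfl fun u _ => Finset.sum_congr rfl fun v _ => ?_
          rw [← minor_re s M (fun n : ℕ => f n * g ((n : ℤ) + ((v : ℤ) - u))) u]
          refine Finset.sum_congr rfl fun i _ => ?_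
          congr 2
          push_cast
          ring
  have e2 : ∑ u ∈ range h, ∑ n ∈ Ioc (s + u) (s + u + M), f n * g n =
      ∑ u ∈ range h, ∑ v ∈ range h, (if v = u then ∑ n ∈ Ioc (s + u) (s + u + M),
        f n * g ((n : ℤ) + ((v : ℤ) - u)) else 0) := by
    refine Finset.sum_congr rfl fun u hu => ?_
    rw [Finset.sum_ite_eq' (range h) u, if_pos hu]
    refine Finset.sum_congr rfl fun n _ => ?_
    rw [sub_self, add_zero]
  rw [e1, e2, ← Finset.sum_sub_distrib]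
  calc |∑ u ∈ range h, (∑ v ∈ range h, ∑ n ∈ Ioc (s + u) (s + u + M),
        f n * g ((n : ℤ) + ((v : ℤ) - u)) -
        ∑ v ∈ range h, (if v = u then ∑ n ∈ Ioc (s + u) (s + u + M),
        f n * g ((n : ℤ) + ((v : ℤ) - u)) else 0))|
      ≤ ∑ u ∈ range h, (h : ℝ) * B := by
        refine (Finset.abs_sum_le_sum_abs _ _).trans (Finset.sum_le_sum fun u hu => ?_)
        rw [← Finset.sum_sub_distrib]
        refine (Finset.abs_sum_le_sum_abs _ _).trans ?_
        calc ∑ v ∈ range h, |∑ n ∈ Ioc (s + u) (s + u + M), f n * g ((n : ℤ) + ((v : ℤ) - u)) -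
              (if v = u then ∑ n ∈ Ioc (s + u) (s + u + M),
                f n * g ((n : ℤ) + ((v : ℤ) - u)) else 0)|
            ≤ ∑ v ∈ range h, B := by
              refine Finset.sum_le_sum fun v hv => ?_
              by_cases huv : v = u
              · rw [if_pos huv, sub_self, abs_zero]
                exact hB
              · rw [if_neg huv, sub_zero]
                have hu' := Finset.mem_range.1 hu
                have hv' := Finset.mem_range.1 hv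
                apply h1
                · omega
                · rw [abs_lt]
                  constructor <;> omega
                · omega
                · push_cast
                  omega
          _ = (h : ℝ) * B := by
              rw [Finset.sum_const, Finset.card_range, nsmul_eq_mul]
    _ = (h : ℝ) ^ 2 * B := by
        rw [Finset.sum_const, Finset.card_range, nsmul_eq_mul]
        ring

theorem minor (h : ℕ) (H : ℝ) (hH : 0 ≤ H) (s M : ℕ) (g : ℤ → ℝ) (B B' : ℝ)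
    (hB : 0 ≤ B) (hB' : 0 ≤ B')
    (h1 : ∀ A : ℕ, ∀ j : ℤ, j ≠ 0 → |j| < h → A < s + h → 0 ≤ (A : ℤ) + j →
      |∑ n ∈ Ioc A (A + M), vM n * g ((n : ℤ) + j)| ≤ B)
    (h2 : ∀ A : ℕ, ∀ j : ℤ, j ≠ 0 → |j| < h → A < s + h → 0 ≤ (A : ℤ) + j →
      |∑ n ∈ Ioc A (A + M), g n * g ((n : ℤ) + j)| ≤ B)
    (h3 : ∀ A : ℕ, A < s + h → |∑ n ∈ Ioc A (A + M), g n| ≤ B') :
    ∑ u ∈ range h, (2 * ∑ n ∈ Ioc (s + u) (s + u + M), vM n * g n -
        ∑ n ∈ Ioc (s + u) (s + u + M), g n ^ 2) - 3 * (h : ℝ) ^ 2 * B - 2 * H * h * B' ≤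
      ∑ i ∈ range M, (win h H s i) ^ 2 := by
  set G : ℕ → ℝ := fun i => ∑ v ∈ range h, g ((s + 1 + i + v : ℕ) : ℤ) with hG
  have p1 := minor_pair h s M (fun n => vM n) g B hB h1
  have p2 := minor_pair h s M (fun n => g n) g B hB h2
  have p3 : |∑ i ∈ range M, G i| ≤ h * B' := by
    simp only [hG]
    rw [Finset.sum_comm]
    refine (Finset.abs_sum_le_sum_abs _ _).trans ?_
    calc ∑ v ∈ range h, |∑ i ∈ range M, g ((s + 1 + i + v : ℕ) : ℤ)| ≤ ∑ v ∈ range h, B' := by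
          refine Finset.sum_le_sum fun v hv => ?_
          rw [minor_re s M (fun n : ℕ => g (n : ℤ)) v]
          exact h3 _ (by have := Finset.mem_range.1 hv; omega)
      _ = h * B' := by rw [Finset.sum_const, Finset.card_range, nsmul_eq_mul]
  have e1 : ∑ i ∈ range M, (∑ u ∈ range h, (fun n : ℕ => vM n) (s + 1 + i + u)) *
        (∑ v ∈ range h, g ((s + 1 + i + v : ℕ) : ℤ)) =
      ∑ i ∈ range M, win h H s i * G i + H * ∑ i ∈ range M, G i := by
    rw [Finset.mul_sum, ← Finset.sum_add_distrib]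
    refine Finset.sum_congr rfl fun i _ => ?_
    simp only [hG]
    unfold win
    ring
  have e2 : ∑ i ∈ range M, (∑ u ∈ range h, (fun n : ℕ => g (n : ℤ)) (s + 1 + i + u)) *
        (∑ v ∈ range h, g ((s + 1 + i + v : ℕ) : ℤ)) = ∑ i ∈ range M, G i ^ 2 := by
    refine Finset.sum_congr rfl fun i _ => ?_
    simp only [hG]
    rw [pow_two]
  have e3 : ∑ u ∈ range h, ∑ n ∈ Ioc (s + u) (s + u + M), (fun n : ℕ => g (n : ℤ)) n * g n =
      ∑ u ∈ range h, ∑ n ∈ Ioc (s + u) (s + u + M), g n ^ 2 := by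
    refine Finset.sum_congr rfl fun u _ => Finset.sum_congr rfl fun n _ => ?_
    rw [pow_two]
  rw [e1] at p1
  rw [e2, e3] at p2
  have sq : ∑ i ∈ range M, (2 * (win h H s i * G i) - G i ^ 2) ≤
      ∑ i ∈ range M, (win h H s i) ^ 2 := by
    refine Finset.sum_le_sum fun i _ => ?_
    nlinarith [sq_nonneg (win h H s i - G i)]
  rw [Finset.sum_sub_distrib, ← Finset.mul_sum] at sq
  have m : ∑ u ∈ range h, (2 * ∑ n ∈ Ioc (s + u) (s + u + M), vM n * g n -
        ∑ n ∈ Ioc (s + u) (s + u + M), g n ^ 2) =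
      2 * ∑ u ∈ range h, ∑ n ∈ Ioc (s + u) (s + u + M), vM n * g n -
        ∑ u ∈ range h, ∑ n ∈ Ioc (s + u) (s + u + M), g n ^ 2 := by
    rw [Finset.sum_sub_distrib, Finset.mul_sum]
  have q1 := (abs_le.1 p1).1
  have q2 := (abs_le.1 p2).2
  have q3 := mul_le_mul_of_nonneg_left (abs_le.1 p3).2 hH
  rw [m]
  nlinarith [q1, q2, q3, sq]

theorem corr_gt (ε : ℝ) (hε : 0 < ε) (hε1 : ε ≤ 1 / 10 ^ 4) : ∃ X₀ : ℝ, ∀ X : ℝ, X₀ ≤ X →
    ∀ lam : ℝ, 0 ≤ lam → lam ≤ 1 → ∀ A N : ℕ, ((A + N : ℕ) : ℝ) ≤ 3 * X →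
      (∀ j : ℤ, j ≠ 0 → |(j : ℝ)| ≤ X ^ (ε / 100) → 0 ≤ (A : ℤ) + j →
        |∑ n ∈ Ioc A (A + N), vM n * gt X ε lam ((n : ℤ) + j)| ≤ X ^ (1 - ε / 50) ∧
        |∑ n ∈ Ioc A (A + N), gt X ε lam n * gt X ε lam ((n : ℤ) + j)| ≤ X ^ (1 - ε / 50)) ∧
      |∑ n ∈ Ioc A (A + N), gt X ε lam n| ≤ X ^ (1 - ε / 50) := by
  obtain ⟨w, wh, C, CA, hW⟩ := exists_Wt
  obtain ⟨Y1, hY1⟩ := ev_Lg (max C (CA 20000))
  obtain ⟨Y2, hY2⟩ := ev_Le ε hε (by norm_num at hε1 ⊢; linarith)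
  obtain ⟨Y3, hY3⟩ := LL_le
  refine ⟨max Y1 (max Y2 Y3), fun X hX lam hl0 hl1 A N hAN => ?_⟩
  have hLg' := hY1 X ((le_max_left _ _).trans hX)
  have hLe := hY2 X ((le_max_left _ _).trans ((le_max_right _ _).trans hX))
  have hLL := hY3 X ((le_max_right _ _).trans ((le_max_right _ _).trans hX))
  have hLg : Lg X (X ^ tau0) C := ⟨hLg'.hT, hLg'.X1, hLg'.big, (le_max_left _ _).trans hLg'.hC,
    hLg'.h10⟩
  have hCA : CA 20000 ≤ X ^ tau0 := (le_max_right _ _).trans hLg'.hC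
  have hX1 : 1 ≤ X := hLg.X1
  have hX0 : 0 < X := by linarith
  have hε100 : ε ≤ 1 / 100 := by norm_num at hε1 ⊢; linarith
  have hAN4 : ((A + N : ℕ) : ℝ) ≤ 4 * X := by linarith
  -- comparison of powers
  set Z := X ^ (1 - ε / 40) with hZ
  have hZ0 : 0 < Z := rpow_pos_of_pos hX0 _
  have c1 : X ^ (1 - 5 / 10 ^ 6 : ℝ) ≤ Z := by
    apply rpow_le_rpow_of_exponent_le hX1
    norm_num at hε1 ⊢
    linarith
  have c2 : 4 * Z ≤ X ^ (1 - ε / 50) := by
    have e1 : X ^ (1 - ε / 50) = X ^ (ε / 200) * Z := by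
      rw [hZ, ← rpow_add hX0]
      congr 1
      ring
    have e2 : X ^ (ε / 1000) ≤ X ^ (ε / 200) := by
      apply rpow_le_rpow_of_exponent_le hX1
      linarith
    have e3 := hLe.h10
    rw [e1]
    apply mul_le_mul_of_nonneg_right _ hZ0.le
    norm_num at e3
    linarith
  have hl2 : lam * lam ≤ 1 := by nlinarith
  refine ⟨fun j hj hjX hAj => ?_, ?_⟩
  · have hjX' : |(j : ℝ)| ≤ X ^ eps4 := by
      refine hjX.trans (rpow_le_rpow_of_exponent_le hX1 ?_)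
      unfold eps4
      norm_num at hε1 ⊢
      linarith
    have k1 := q1_vM hLe j hj hjX A N hAj hAN4
    have k2 := (q2_vM hW hLg hCA hLL j hj hjX' A N hAj hAN4).trans c1
    have k3 := q1_q1 hLe j hj hjX A N hAN4
    have k4 := (q1_q2 hW hLg hCA hLL ε hε hε100 j hj hjX' A N hAj hAN4).trans c1
    have k5 := (q2_q2 hW hLg hCA hLL j hj hjX' A N hAj hAN4).trans c1
    have k6 := (q2_q1 hW hLg hCA hLL ε hε hε100 j hj hjX' A N hAj hAN).trans c1
    rw [← hZ] at k1 k3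
    constructor
    · have e : ∑ n ∈ Ioc A (A + N), vM n * gt X ε lam ((n : ℤ) + j) =
          ∑ n ∈ Ioc A (A + N), vM n * FQ (Q1 X ε) ((n : ℤ) + j) +
          lam * ∑ n ∈ Ioc A (A + N), vM n * FQ (Q2 X) ((n : ℤ) + j) := by
        rw [Finset.mul_sum, ← Finset.sum_add_distrib]
        refine Finset.sum_congr rfl fun n _ => ?_
        unfold gt
        ring
      rw [e]
      calc _ ≤ |∑ n ∈ Ioc A (A + N), vM n * FQ (Q1 X ε) ((n : ℤ) + j)| +
            |lam * ∑ n ∈ Ioc A (A + N), vM n * FQ (Q2 X) ((n : ℤ) + j)| := abs_add_le _ _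
        _ ≤ Z + 1 * Z := by
            rw [abs_mul, abs_of_nonneg hl0]
            exact add_le_add k1 (mul_le_mul hl1 k2 (abs_nonneg _) zero_le_one)
        _ ≤ 4 * Z := by linarith
        _ ≤ _ := c2
    · have e : ∑ n ∈ Ioc A (A + N), gt X ε lam n * gt X ε lam ((n : ℤ) + j) =
          ∑ n ∈ Ioc A (A + N), FQ (Q1 X ε) n * FQ (Q1 X ε) ((n : ℤ) + j) +
          lam * ∑ n ∈ Ioc A (A + N), FQ (Q1 X ε) n * FQ (Q2 X) ((n : ℤ) + j) +
          lam * ∑ n ∈ Ioc A (A + N), FQ (Q2 X) n * FQ (Q1 X ε) ((n : ℤ) + j) +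
          lam * lam * ∑ n ∈ Ioc A (A + N), FQ (Q2 X) n * FQ (Q2 X) ((n : ℤ) + j) := by
        rw [Finset.mul_sum, Finset.mul_sum, Finset.mul_sum, ← Finset.sum_add_distrib,
          ← Finset.sum_add_distrib, ← Finset.sum_add_distrib]
        refine Finset.sum_congr rfl fun n _ => ?_
        unfold gt
        ring
      rw [e]
      refine (abs_add_le _ _).trans ?_
      have a4 : |lam * lam * ∑ n ∈ Ioc A (A + N), FQ (Q2 X) n * FQ (Q2 X) ((n : ℤ) + j)| ≤
          1 * Z := by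
        rw [abs_mul, abs_of_nonneg (mul_nonneg hl0 hl0)]
        exact mul_le_mul hl2 k5 (abs_nonneg _) zero_le_one
      have a3 : |lam * ∑ n ∈ Ioc A (A + N), FQ (Q2 X) n * FQ (Q1 X ε) ((n : ℤ) + j)| ≤
          1 * Z := by
        rw [abs_mul, abs_of_nonneg hl0]
        exact mul_le_mul hl1 k6 (abs_nonneg _) zero_le_one
      have a2 : |lam * ∑ n ∈ Ioc A (A + N), FQ (Q1 X ε) n * FQ (Q2 X) ((n : ℤ) + j)| ≤
          1 * Z := by
        rw [abs_mul, abs_of_nonneg hl0]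
        exact mul_le_mul hl1 k4 (abs_nonneg _) zero_le_one
      have b1 := abs_add_le (∑ n ∈ Ioc A (A + N), FQ (Q1 X ε) n * FQ (Q1 X ε) ((n : ℤ) + j))
        (lam * ∑ n ∈ Ioc A (A + N), FQ (Q1 X ε) n * FQ (Q2 X) ((n : ℤ) + j))
      have b2 := abs_add_le (∑ n ∈ Ioc A (A + N), FQ (Q1 X ε) n * FQ (Q1 X ε) ((n : ℤ) + j) +
        lam * ∑ n ∈ Ioc A (A + N), FQ (Q1 X ε) n * FQ (Q2 X) ((n : ℤ) + j))
        (lam * ∑ n ∈ Ioc A (A + N), FQ (Q2 X) n * FQ (Q1 X ε) ((n : ℤ) + j))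
      linarith
  · -- the sum of g
    set T := X ^ tau0 with hT
    have hT10 : (10 : ℝ) ^ 10 ≤ T := hLg.h10
    have hT1 : (4 : ℝ) ≤ T := by norm_num at hT10; linarith
    have hT0 : 0 < T := by linarith
    have f1 : |∑ n ∈ Ioc A (A + N), FQ (Q1 X ε) n| ≤ 2 * T ^ 4 * X ^ (501 / 1000 : ℝ) := by
      have hle : X ^ (1 / 2 - ε) ≤ X ^ (501 / 1000 : ℝ) := by
        apply rpow_le_rpow_of_exponent_le hX1
        norm_num
        linarith
      refine (sum_FQ hLg.big (Q1 X ε) ⌊X ^ (1 / 2 - ε)⌋₊ ?_ ?_ A N).trans ?_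
      · intro q hq
        unfold Q1 at hq
        rw [mem_filter, mem_Ioc] at hq
        refine ⟨hq.2, ?_, hq.1.2⟩
        have g1 : 1 ≤ ⌊X ^ ε⌋₊ := by
          apply Nat.le_floor
          have e2 : X ^ (ε / 1000) ≤ X ^ ε := by
            apply rpow_le_rpow_of_exponent_le hX1
            linarith
          have e3 := hLe.h10
          norm_num at e3 ⊢
          linarith
        have := hq.1.1
        omega
      · apply Nat.floor_le_floor
        apply rpow_le_rpow_of_exponent_le hX1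
        linarith
      · apply mul_le_mul_of_nonneg_left _ (by positivity)
        exact (Nat.floor_le (rpow_nonneg hX0.le _)).trans hle
    have f2 : |∑ n ∈ Ioc A (A + N), FQ (Q2 X) n| ≤ 2 * T ^ 4 * X ^ (501 / 1000 : ℝ) := by
      refine (sum_FQ hLg.big (Q2 X) ⌊X ^ (501 / 1000 : ℝ)⌋₊ ?_ ?_ A N).trans ?_
      · intro q hq
        obtain ⟨a1, a2, a3⟩ := mem_Q2 hLg hq
        refine ⟨a1, ?_, Nat.le_floor a3⟩
        have e2 : X ^ tau0 ≤ X ^ (5005 / 10000 : ℝ) := by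
          apply rpow_le_rpow_of_exponent_le hX1
          unfold tau0
          norm_num
        have : (1 : ℝ) < q := by linarith
        exact_mod_cast this
      · apply Nat.floor_le_floor
        apply rpow_le_rpow_of_exponent_le hX1
        norm_num
      · exact mul_le_mul_of_nonneg_left (Nat.floor_le (rpow_nonneg hX0.le _)) (by positivity)
    have e : ∑ n ∈ Ioc A (A + N), gt X ε lam n = ∑ n ∈ Ioc A (A + N), FQ (Q1 X ε) n +
        lam * ∑ n ∈ Ioc A (A + N), FQ (Q2 X) n := by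
      rw [Finset.mul_sum, ← Finset.sum_add_distrib]
      rfl
    rw [e]
    set V := X ^ (501 / 1000 : ℝ) with hV
    have hV0 : 0 < V := rpow_pos_of_pos hX0 _
    calc _ ≤ |∑ n ∈ Ioc A (A + N), FQ (Q1 X ε) n| +
          |lam * ∑ n ∈ Ioc A (A + N), FQ (Q2 X) n| := abs_add_le _ _
      _ ≤ 2 * T ^ 4 * V + 1 * (2 * T ^ 4 * V) := by
          rw [abs_mul, abs_of_nonneg hl0]
          exact add_le_add f1 (mul_le_mul hl1 f2 (abs_nonneg _) zero_le_one)
      _ = 4 * (T ^ 4 * V) := by ring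
      _ ≤ T * (T ^ 4 * V) := mul_le_mul_of_nonneg_right hT1 (by positivity)
      _ = T ^ 5 * V := by ring
      _ ≤ X ^ (1 - ε / 50) := by
          rw [hT, hV, ← rpow_natCast, ← rpow_mul hX0.le, ← rpow_add hX0]
          apply rpow_le_rpow_of_exponent_le hX1
          unfold tau0
          norm_num at hε1 ⊢
          linarith

end Pool.Agent.Lib.MP_2a816b_nt.BH
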