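import Pool.Agent.Lib.MP_2a816b_nt.BH.RamA

/-!
# JOB Mul: products of `F_Q` over sets of coprime moduli

Pointwise products of finite sets of natural numbers. If all `a ∈ A`, `b ∈ B` are coprime then `(a, b) ↦ a b` is injective on `A × B`
(`a b = a' b'` gives `a ∣ a' b'`, so `a ∣ a'` and `a' ∣ a`).
-/

set_option autoImplicit false

open Finset Real
open scoped Pointwise

namespace Pool.Agent.Lib.MP_2a816b_nt.BH

/-- all elements of `A` are prime to all elements of `B` -/
def Cross (A B : Finset ℕ) : Prop := ∀ a ∈ A, ∀ b ∈ B, a.Coprime b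

/-- sum over a product set -/
lemma sum_mul_set {A B : Finset ℕ} (h : Cross A B) {E : Type*} [AddCommMonoid E] (f : ℕ → E) :
    ∑ q ∈ A * B, f q = ∑ a ∈ A, ∑ b ∈ B, f (a * b) := by
  rw [Finset.mul_def, Finset.sum_image, Finset.sum_product]
  rintro ⟨a, b⟩ hab ⟨a', b'⟩ hab' heq
  rw [Finset.mem_coe, Finset.mem_product] at hab hab'
  obtain ⟨ha, hb⟩ := hab
  obtain ⟨ha', hb'⟩ := hab'
  simp only at ha hb ha' hb' heq
  have h1 : a ∣ a' := (h a ha b' hb').dvd_of_dvd_mul_right ⟨b, heq.symm⟩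
  have h2 : a' ∣ a := (h a' ha' b hb).dvd_of_dvd_mul_right ⟨b', heq⟩
  have h3 : a = a' := Nat.dvd_antisymm h1 h2
  subst h3
  rcases Nat.eq_zero_or_pos a with h0 | h0
  · subst h0
    have h4 := h 0 ha b hb
    have h5 := h 0 ha b' hb'
    rw [Nat.coprime_zero_left] at h4 h5
    rw [h4, h5]
  · rw [Nat.eq_of_mul_eq_mul_left h0 heq]

lemma FQ_mul {A B : Finset ℕ} (h : Cross A B) (n : ℤ) : FQ (A * B) n = FQ A n * FQ B n := by
  unfold FQ
  rw [sum_mul_set h, Finset.sum_mul_sum]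
  exact Finset.sum_congr rfl fun a ha => Finset.sum_congr rfl fun b hb => bc_mul (h a ha b hb) n

variable {ι : Type*} [DecidableEq ι]

lemma mem_prod_set {P : ι → Finset ℕ} {I : Finset ι} {m : ℕ} (h : m ∈ ∏ i ∈ I, P i) :
    ∃ f : ι → ℕ, (∀ i ∈ I, f i ∈ P i) ∧ m = ∏ i ∈ I, f i := by
  induction I using Finset.induction_on generalizing m with
  | empty =>
    rw [Finset.prod_empty, Finset.mem_one] at h
    exact ⟨fun _ => 0, by simp, by simpa using h⟩
  | insert i I hi ih =>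
    rw [Finset.prod_insert hi, Finset.mem_mul] at h
    obtain ⟨a, ha, b, hb, rfl⟩ := h
    obtain ⟨f, hf, rfl⟩ := ih hb
    refine ⟨fun j => if j = i then a else f j, ?_, ?_⟩
    · intro j hj
      rw [Finset.mem_insert] at hj
      by_cases h1 : j = i
      · simp only [if_pos h1, h1]; exact ha
      · simp only [if_neg h1]; exact hf j (hj.resolve_left h1)
    · rw [Finset.prod_insert hi, if_pos rfl]
      congr 1
      refine Finset.prod_congr rfl fun j hj => ?_
      rw [if_neg]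
      rintro rfl
      exact hi hj

lemma cross_prod {P : ι → Finset ℕ} (hP : ∀ i i', i ≠ i' → Cross (P i) (P i')) {I I' : Finset ι}
    (h : Disjoint I I') : Cross (∏ i ∈ I, P i) (∏ i ∈ I', P i) := by
  intro a ha b hb
  obtain ⟨f, hf, rfl⟩ := mem_prod_set ha
  obtain ⟨g, hg, rfl⟩ := mem_prod_set hb
  refine Nat.Coprime.prod_left fun i hi => Nat.Coprime.prod_right fun j hj => ?_
  refine hP i j ?_ _ (hf i hi) _ (hg j hj)
  rintro rfl
  exact (Finset.disjoint_left.1 h) hi hj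

private lemma mul_cross {P : ι → Finset ℕ} (hP : ∀ i i', i ≠ i' → Cross (P i) (P i'))
    {i : ι} {I : Finset ι} (hi : i ∉ I) : Cross (P i) (∏ j ∈ I, P j) := by
  have := cross_prod hP (I := {i}) (I' := I) (Finset.disjoint_singleton_left.2 hi)
  rwa [Finset.prod_singleton] at this

lemma FQ_prod {P : ι → Finset ℕ} (hP : ∀ i i', i ≠ i' → Cross (P i) (P i')) (I : Finset ι)
    (n : ℤ) : FQ (∏ i ∈ I, P i) n = ∏ i ∈ I, FQ (P i) n := by
  induction I using Finset.induction_on with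
  | empty =>
    rw [Finset.prod_empty, Finset.prod_empty]
    unfold FQ
    rw [show (1 : Finset ℕ) = {1} from rfl, Finset.sum_singleton, bc_one]
  | insert i I hi ih =>
    rw [Finset.prod_insert hi, Finset.prod_insert hi, FQ_mul (mul_cross hP hi), ih]

/-- products of primes from different sets are squarefree -/
lemma sqfree_prod {P : ι → Finset ℕ} (hP : ∀ i i', i ≠ i' → Cross (P i) (P i'))
    (hp : ∀ i, ∀ p ∈ P i, p.Prime) (I : Finset ι) (m : ℕ) (hm : m ∈ ∏ i ∈ I, P i) :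
    Squarefree m := by
  induction I using Finset.induction_on generalizing m with
  | empty =>
    rw [Finset.prod_empty, Finset.mem_one] at hm
    rw [hm]
    exact squarefree_one
  | insert i I hi ih =>
    rw [Finset.prod_insert hi, Finset.mem_mul] at hm
    obtain ⟨a, ha, b, hb, rfl⟩ := hm
    rw [Nat.squarefree_mul (mul_cross hP hi a ha b hb)]
    exact ⟨(hp i a ha).prime.squarefree, ih b hb⟩

/-- the sum `∑_{p ∈ P} 1 / (p - 1)` -/
noncomputable def LL (P : Finset ℕ) : ℝ := ∑ p ∈ P, 1 / ((p : ℝ) - 1)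

/-- `∏_{i ∈ I} L_i = ∑_{u ∈ ∏ P_i} 1 / φ(u)` -/
lemma prod_LL {P : ι → Finset ℕ} (hP : ∀ i i', i ≠ i' → Cross (P i) (P i'))
    (hp : ∀ i, ∀ p ∈ P i, p.Prime) (I : Finset ι) :
    ∏ i ∈ I, LL (P i) = ∑ u ∈ ∏ i ∈ I, P i, 1 / (u.totient : ℝ) := by
  induction I using Finset.induction_on with
  | empty =>
    rw [Finset.prod_empty, Finset.prod_empty, show (1 : Finset ℕ) = {1} from rfl,
      Finset.sum_singleton]
    simp
  | insert i I hi ih =>
    rw [Finset.prod_insert hi, Finset.prod_insert hi, sum_mul_set (mul_cross hP hi), ih]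
    unfold LL
    rw [Finset.sum_mul_sum]
    refine Finset.sum_congr rfl fun a ha => Finset.sum_congr rfl fun b hb => ?_
    have hap := hp i a ha
    rw [Nat.totient_mul (mul_cross hP hi a ha b hb), Nat.totient_prime hap, Nat.cast_mul,
      Nat.cast_sub hap.one_le, Nat.cast_one, one_div_mul_one_div]

/-- the top term: `F_{P_i}(n) - L_i = - ∑_{p ∈ P_i, p ∣ n} p / (p - 1)` -/
lemma top_term {P : ι → Finset ℕ} (hP : ∀ i i', i ≠ i' → Cross (P i) (P i'))
    (hp : ∀ i, ∀ p ∈ P i, p.Prime) (I : Finset ι) (n : ℤ) :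
    ∏ i ∈ I, (FQ (P i) n - LL (P i)) =
      (-1) ^ I.card * ∑ u ∈ (∏ i ∈ I, P i).filter (fun u : ℕ => (u : ℤ) ∣ n),
        (u : ℝ) / (u.totient : ℝ) := by
  induction I using Finset.induction_on with
  | empty =>
    have h1 : ((∏ i ∈ (∅ : Finset ι), P i).filter (fun u : ℕ => (u : ℤ) ∣ n)) = {1} := by
      rw [Finset.prod_empty, show (1 : Finset ℕ) = {1} from rfl]
      ext u
      simp only [Finset.mem_filter, Finset.mem_singleton]
      constructor
      · exact fun h => h.1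
      · rintro rfl
        exact ⟨rfl, by simp⟩
    rw [h1]
    simp
  | insert i I hi ih =>
    rw [Finset.prod_insert hi, Finset.card_insert_of_notMem hi, ih, Finset.prod_insert hi]
    have h1 : FQ (P i) n - LL (P i) =
        - ∑ p ∈ P i, (if (p : ℤ) ∣ n then (p : ℝ) / (p.totient : ℝ) else 0) := by
      unfold FQ LL
      rw [← Finset.sum_sub_distrib, ← Finset.sum_neg_distrib]
      refine Finset.sum_congr rfl fun p hpi => ?_
      have hpp := hp i p hpi
      have h2 : (1 : ℝ) < p := by exact_mod_cast hpp.one_lt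
      rw [bc_prime hpp, Nat.totient_prime hpp, Nat.cast_sub hpp.one_le, Nat.cast_one]
      split_ifs
      · have h3 : (p : ℝ) - 1 ≠ 0 := by linarith
        field_simp
        ring
      · ring
    rw [h1, Finset.sum_filter, Finset.sum_filter, sum_mul_set (mul_cross hP hi)]
    have h2 : ∑ a ∈ P i, ∑ b ∈ ∏ j ∈ I, P j,
        (if ((a * b : ℕ) : ℤ) ∣ n then ((a * b : ℕ) : ℝ) / ((a * b).totient : ℝ) else 0) =
        (∑ p ∈ P i, (if (p : ℤ) ∣ n then (p : ℝ) / (p.totient : ℝ) else 0)) *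
        ∑ u ∈ ∏ j ∈ I, P j, (if (u : ℤ) ∣ n then (u : ℝ) / (u.totient : ℝ) else 0) := by
      rw [Finset.sum_mul_sum]
      refine Finset.sum_congr rfl fun a ha => Finset.sum_congr rfl fun b hb => ?_
      have hc := mul_cross hP hi a ha b hb
      have h3 : ((a * b : ℕ) : ℤ) ∣ n ↔ (a : ℤ) ∣ n ∧ (b : ℤ) ∣ n := by
        push_cast
        constructor
        · exact fun h => ⟨dvd_of_mul_right_dvd h, dvd_of_mul_left_dvd h⟩
        · exact fun h => IsCoprime.mul_dvd (Nat.isCoprime_iff_coprime.2 hc) h.1 h.2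
      by_cases h4 : (a : ℤ) ∣ n
      · by_cases h5 : (b : ℤ) ∣ n
        · rw [if_pos (h3.2 ⟨h4, h5⟩), if_pos h4, if_pos h5, Nat.totient_mul hc]
          push_cast
          rw [div_mul_div_comm]
        · rw [if_neg (fun h => h5 (h3.1 h).2), if_neg h5, mul_zero]
      · rw [if_neg (fun h => h4 (h3.1 h).1), if_neg h4, zero_mul]
    rw [h2, pow_succ]
    ring

/-- `∏_{i ∈ I} x_i = ∏_{i ∈ I} (x_i - L_i) - ∑_{C ⊊ I} (-1) ^ |I \ C| ∏_{i ∈ C} x_i ∏_{i ∈ I \ C} L_i` -/
lemma prod_expand (I : Finset ι) (x L : ι → ℝ) :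
    ∏ i ∈ I, x i = ∏ i ∈ I, (x i - L i) -
      ∑ C ∈ I.ssubsets, (-1) ^ (I \ C).card * ((∏ i ∈ I \ C, L i) * ∏ i ∈ C, x i) := by
  have h1 : ∏ i ∈ I, (x i - L i) =
      ∑ C ∈ I.powerset, (-1) ^ (I \ C).card * ((∏ i ∈ I \ C, L i) * ∏ i ∈ C, x i) := by
    have h2 : ∏ i ∈ I, (x i - L i) = ∏ i ∈ I, (x i + -L i) :=
      Finset.prod_congr rfl fun i _ => sub_eq_add_neg _ _
    rw [h2, Finset.prod_add]
    refine Finset.sum_congr rfl fun C _ => ?_
    rw [Finset.prod_neg]
    ring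
  have h3 : I ∈ I.powerset := Finset.mem_powerset_self I
  rw [h1, ← Finset.add_sum_erase _ _ h3, Finset.ssubsets]
  simp

end Pool.Agent.Lib.MP_2a816b_nt.BH
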