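import Pool.Agent.Lib.MP_2a816b_nt.BH.RamB
import Pool.Agent.Lib.MP_2a816b_nt.BH.Mul
import Pool.Agent.Lib.MP_2a816b_nt.Divisor
import Pool.Agent.Lib.MP_2a816b_nt.Sums

/-!
# JOB Par: the parameters and the six sets of primes

`ex i` are the exponents; `PS X i` = primes in `(X ^ ex i, X ^ (ex i + η₀)]`. `T = X ^ τ₀`.
-/

set_option autoImplicit false

open Finset Real
open scoped Pointwise

namespace Pool.Agent.Lib.MP_2a816b_nt.BH

/-- exponents of the six ranges of primes; the sum is `0.5005` -/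
noncomputable def ex : Fin 6 → ℝ := ![33 / 100, 265 / 10000, 37 / 1000, 515 / 10000, 455 / 10000, 1 / 100]

/-- `T = X ^ τ₀` -/
noncomputable def tau0 : ℝ := 1 / 10 ^ 7

/-- relative length of the ranges -/
noncomputable def eta0 : ℝ := 1 / 10 ^ 8

/-- exponent of `R₂` and of the shifts -/
noncomputable def eps4 : ℝ := 1 / 10 ^ 6

/-- the sets of primes -/
noncomputable def PS (X : ℝ) (i : Fin 6) : Finset ℕ :=
  (Ioc ⌊X ^ ex i⌋₊ ⌊X ^ (ex i + eta0)⌋₊).filter Nat.Prime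

/-- the squarefree numbers `r ≤ X ^ ε₄` -/
noncomputable def RS (X : ℝ) : Finset ℕ := (Ioc 0 ⌊X ^ eps4⌋₊).filter Squarefree

/-- the moduli of `g₂` -/
noncomputable def Q2 (X : ℝ) : Finset ℕ := RS X * ∏ i, PS X i

/-- `X` is large: `C`, `C'` are constants that must be `≤ T` -/
structure Lg (X T C : ℝ) : Prop where
  hT : T = X ^ tau0
  X1 : 1 ≤ X
  big : Big ⌊X ^ (10 : ℝ)⌋₊ T
  hC : C ≤ T
  h10 : 10 ^ 10 ≤ T

/-- all large `X` are large: divisor bound with exponent `τ₀ / 20` (`divisor_bound`), `log X ^ 10 = o(X ^ τ₀)`. -/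
theorem ev_Lg (C : ℝ) : ∃ X₀ : ℝ, ∀ X : ℝ, X₀ ≤ X → Lg X (X ^ tau0) C := by
  have ht : 0 < tau0 := by unfold tau0; norm_num
  obtain ⟨C', hC'1, hdiv⟩ := divisor_bound (tau0 / 20) (by positivity)
  have e1 : ∀ᶠ X : ℝ in Filter.atTop, max C (10 ^ 10) ≤ X ^ tau0 :=
    (tendsto_rpow_atTop ht).eventually_ge_atTop _
  have e2 : ∀ᶠ X : ℝ in Filter.atTop, C' ≤ X ^ (tau0 / 2) :=
    (tendsto_rpow_atTop (by positivity)).eventually_ge_atTop _
  have e3 : ∀ᶠ X : ℝ in Filter.atTop, ‖Real.log X‖ ≤ (1 / 20) * ‖X ^ tau0‖ :=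
    (isLittleO_log_rpow_atTop ht).def (by norm_num)
  have e4 : ∀ᶠ X : ℝ in Filter.atTop, (1 : ℝ) ≤ X := Filter.eventually_ge_atTop 1
  obtain ⟨X₀, hX₀⟩ := Filter.eventually_atTop.1 (((e1.and e2).and e3).and e4)
  refine ⟨X₀, fun X hX => ?_⟩
  obtain ⟨⟨⟨h1, h2⟩, h3⟩, h4⟩ := hX₀ X hX
  have hX0 : 0 < X := by linarith
  have hTpos : 0 < X ^ tau0 := Real.rpow_pos_of_pos hX0 _
  have hT10 : (10 : ℝ) ^ 10 ≤ X ^ tau0 := le_trans (le_max_right _ _) h1
  refine ⟨rfl, h4, ⟨?_, ?_, ?_⟩, le_trans (le_max_left _ _) h1, hT10⟩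
  · have : (100 : ℝ) ≤ 10 ^ 10 := by norm_num
    linarith
  · intro n hn hnM
    have h5 : (n : ℝ) ≤ X ^ (10 : ℝ) :=
      le_trans (by exact_mod_cast hnM) (Nat.floor_le (by positivity))
    calc (n.divisors.card : ℝ) ≤ C' * (n : ℝ) ^ (tau0 / 20) := hdiv n hn
      _ ≤ C' * (X ^ (10 : ℝ)) ^ (tau0 / 20) := by
          apply mul_le_mul_of_nonneg_left _ (by linarith)
          exact Real.rpow_le_rpow (by positivity) h5 (by positivity)
      _ = C' * X ^ (tau0 / 2) := by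
          rw [← Real.rpow_mul hX0.le]
          congr 2
          ring
      _ ≤ X ^ (tau0 / 2) * X ^ (tau0 / 2) := by gcongr
      _ = X ^ tau0 := by
          rw [← Real.rpow_add hX0]
          congr 1
          ring
  · have h6 : Real.log (⌊X ^ (10 : ℝ)⌋₊ : ℝ) ≤ 10 * Real.log X := by
      rw [← Real.log_rpow hX0]
      apply Real.log_le_log
      · have : 1 ≤ ⌊X ^ (10 : ℝ)⌋₊ := by
          rw [Nat.one_le_floor_iff]
          exact Real.one_le_rpow h4 (by norm_num)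
        exact_mod_cast this
      · exact Nat.floor_le (by positivity)
    rw [Real.norm_eq_abs, Real.norm_eq_abs, abs_of_pos hTpos] at h3
    have h7 := le_abs_self (Real.log X)
    have : (4 : ℝ) ≤ X ^ tau0 := le_trans (by norm_num) hT10
    linarith

variable {X T C : ℝ}

private lemma par_one_lt (hX : Lg X T C) : 1 < X := by
  rcases hX.X1.lt_or_eq with h | h
  · exact h
  · exfalso
    have h1 := hX.h10
    rw [hX.hT, ← h, Real.one_rpow] at h1
    norm_num at h1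

private lemma par_ex_lb (i : Fin 6) : 1 / 100 ≤ ex i := by
  fin_cases i <;> simp [ex] <;> norm_num

private lemma par_ex_ub (i : Fin 6) : ex i ≤ 1 / 2 := by
  fin_cases i <;> simp [ex] <;> norm_num

private lemma par_ex_sep (i i' : Fin 6) (h : i ≠ i') :
    ex i + eta0 ≤ ex i' ∨ ex i' + eta0 ≤ ex i := by
  unfold eta0
  fin_cases i <;> fin_cases i' <;> first | (exact absurd rfl h) | (left; simp [ex]; norm_num; done) | (right; simp [ex]; norm_num; done)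

lemma mem_PS {i : Fin 6} {p : ℕ} (hp : p ∈ PS X i) (hX : 1 ≤ X) :
    p.Prime ∧ X ^ ex i < (p : ℝ) ∧ (p : ℝ) ≤ X ^ (ex i + eta0) := by
  unfold PS at hp
  rw [Finset.mem_filter, Finset.mem_Ioc] at hp
  obtain ⟨⟨h1, h2⟩, h3⟩ := hp
  have hX0 : 0 < X := by linarith
  refine ⟨h3, Nat.lt_of_floor_lt h1, ?_⟩
  exact (Nat.le_floor_iff (by positivity)).1 h2

/-- the ranges are disjoint (the exponents differ by more than `η₀`), so all primes are different -/
lemma cross_PS (hX : Lg X T C) (i i' : Fin 6) (h : i ≠ i') : Cross (PS X i) (PS X i') := by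
  intro a ha b hb
  obtain ⟨ha1, ha2, ha3⟩ := mem_PS ha hX.X1
  obtain ⟨hb1, hb2, hb3⟩ := mem_PS hb hX.X1
  rw [Nat.coprime_primes ha1 hb1]
  rintro rfl
  rcases par_ex_sep i i' h with h1 | h1
  · have h2 := Real.rpow_le_rpow_of_exponent_le hX.X1 h1
    linarith
  · have h2 := Real.rpow_le_rpow_of_exponent_le hX.X1 h1
    linarith

/-- `∑_{i ∈ I} ex i` -/
noncomputable def exs (I : Finset (Fin 6)) : ℝ := ∑ i ∈ I, ex i

lemma exs_univ : exs univ = 5005 / 10000 := by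
  unfold exs ex
  simp [Fin.sum_univ_succ]
  norm_num

/-- sizes of the products; all prime factors are `> X ^ (1 / 100)` -/
lemma mem_prod_PS (hX : Lg X T C) (I : Finset (Fin 6)) {m : ℕ} (hm : m ∈ ∏ i ∈ I, PS X i) :
    Squarefree m ∧ X ^ exs I ≤ (m : ℝ) ∧ (m : ℝ) ≤ T * X ^ exs I ∧
      ∀ p : ℕ, p.Prime → p ∣ m → X ^ (1 / 100 : ℝ) ≤ (p : ℝ) := by
  have hX0 : 0 < X := by linarith [hX.X1]
  refine ⟨sqfree_prod (fun i i' h => cross_PS hX i i' h) (fun i p hp => (mem_PS hp hX.X1).1) I m hm,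
    ?_⟩
  obtain ⟨f, hf, rfl⟩ := mem_prod_set hm
  refine ⟨?_, ?_, ?_⟩
  · unfold exs
    rw [Real.rpow_sum_of_pos hX0, Nat.cast_prod]
    exact Finset.prod_le_prod (fun i _ => by positivity)
      (fun i hi => (mem_PS (hf i hi) hX.X1).2.1.le)
  · rw [Nat.cast_prod]
    calc ∏ i ∈ I, (f i : ℝ) ≤ ∏ i ∈ I, X ^ (ex i + eta0) :=
          Finset.prod_le_prod (fun i _ => by positivity)
            (fun i hi => (mem_PS (hf i hi) hX.X1).2.2)
      _ = X ^ (∑ i ∈ I, (ex i + eta0)) := by rw [Real.rpow_sum_of_pos hX0]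
      _ = X ^ (exs I + I.card * eta0) := by
          rw [Finset.sum_add_distrib, Finset.sum_const, nsmul_eq_mul]
          rfl
      _ ≤ X ^ (exs I + tau0) := by
          apply Real.rpow_le_rpow_of_exponent_le hX.X1
          have h1 : (I.card : ℝ) ≤ 6 := by
            have := Finset.card_le_univ I
            rw [Fintype.card_fin] at this
            exact_mod_cast this
          unfold eta0 tau0
          linarith
      _ = T * X ^ exs I := by
          rw [Real.rpow_add hX0, ← hX.hT, mul_comm]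
  · intro p hp hpm
    obtain ⟨i, hi, hpi⟩ := (Prime.dvd_finset_prod_iff hp.prime _).1 hpm
    obtain ⟨h1, h2, -⟩ := mem_PS (hf i hi) hX.X1
    have h3 : p = f i := (Nat.prime_dvd_prime_iff_eq hp h1).1 hpi
    rw [h3]
    exact le_trans (Real.rpow_le_rpow_of_exponent_le hX.X1 (par_ex_lb i)) h2.le

/-- elements of `RS` -/
lemma mem_RS {r : ℕ} (hr : r ∈ RS X) (hX : 1 ≤ X) :
    Squarefree r ∧ 0 < r ∧ (r : ℝ) ≤ X ^ eps4 := by
  unfold RS at hr
  rw [Finset.mem_filter, Finset.mem_Ioc] at hr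
  obtain ⟨⟨h1, h2⟩, h3⟩ := hr
  have hX0 : 0 < X := by linarith
  exact ⟨h3, h1, (Nat.le_floor_iff (by positivity)).1 h2⟩

lemma cross_RS (hX : Lg X T C) (I : Finset (Fin 6)) : Cross (RS X) (∏ i ∈ I, PS X i) := by
  intro r hr m hm
  by_contra hcon
  obtain ⟨p, hp, hpr, hpm⟩ := Nat.Prime.not_coprime_iff_dvd.1 hcon
  obtain ⟨-, hr0, hr1⟩ := mem_RS hr hX.X1
  have h1 := (mem_prod_PS hX I hm).2.2.2 p hp hpm
  have h2 : (p : ℝ) ≤ r := by exact_mod_cast Nat.le_of_dvd hr0 hpr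
  have h3 : X ^ eps4 < X ^ (1 / 100 : ℝ) := by
    apply Real.rpow_lt_rpow_of_exponent_lt (par_one_lt hX)
    unfold eps4
    norm_num
  linarith

/-- elements of `Q2` -/
lemma mem_Q2 (hX : Lg X T C) {q : ℕ} (hq : q ∈ Q2 X) :
    Squarefree q ∧ X ^ (5005 / 10000 : ℝ) ≤ (q : ℝ) ∧ (q : ℝ) ≤ X ^ (501 / 1000 : ℝ) := by
  have hX0 : 0 < X := by linarith [hX.X1]
  unfold Q2 at hq
  rw [Finset.mem_mul] at hq
  obtain ⟨r, hr, m, hm, rfl⟩ := hq
  obtain ⟨hr1, hr2, hr3⟩ := mem_RS hr hX.X1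
  obtain ⟨hm1, hm2, hm3, -⟩ := mem_prod_PS hX univ hm
  rw [exs_univ] at hm2 hm3
  refine ⟨?_, ?_, ?_⟩
  · rw [Nat.squarefree_mul (cross_RS hX univ r hr m hm)]
    exact ⟨hr1, hm1⟩
  · push_cast
    have h1 : (1 : ℝ) ≤ r := by exact_mod_cast hr2
    calc X ^ (5005 / 10000 : ℝ) ≤ (m : ℝ) := hm2
      _ = 1 * (m : ℝ) := (one_mul _).symm
      _ ≤ (r : ℝ) * m := by gcongr
  · push_cast
    calc (r : ℝ) * m ≤ X ^ eps4 * (T * X ^ (5005 / 10000 : ℝ)) := by
          gcongr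
      _ = X ^ (eps4 + (tau0 + 5005 / 10000)) := by
          rw [hX.hT, ← Real.rpow_add hX0, ← Real.rpow_add hX0]
      _ ≤ X ^ (501 / 1000 : ℝ) := by
          apply Real.rpow_le_rpow_of_exponent_le hX.X1
          unfold eps4 tau0
          norm_num

/-- `F_{Q2} = R₂ G` -/
lemma FQ_Q2 (hX : Lg X T C) (n : ℤ) : FQ (Q2 X) n = FQ (RS X) n * ∏ i, FQ (PS X i) n := by
  unfold Q2
  rw [FQ_mul (cross_RS hX univ), FQ_prod (fun i i' h => cross_PS hX i i' h)]

private lemma par_log4 : 0 < Real.log 4 ∧ Real.log 4 ≤ 2 := by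
  constructor
  · exact Real.log_pos (by norm_num)
  · have h1 : Real.log 4 = 2 * Real.log 2 := by
      rw [show (4 : ℝ) = 2 ^ 2 by norm_num, Real.log_pow]; norm_num
    have h2 := Real.log_two_lt_d9
    rw [h1]; linarith

/-- lower bound for `L_i`: an absolute constant (Chebyshev, `sum_inv_prime_ge` in `Sums.lean`:
with `J = ⌊η₀ log X / log 4⌋` blocks, `∑ 1 / p ≥ J / (4 log Q)`, `log Q = (ex i + η₀) log X`). `1 / (p - 1) ≥ 1 / p`. -/
lemma LL_ge : ∃ c : ℝ, 0 < c ∧ ∃ X₀ : ℝ, ∀ X : ℝ, X₀ ≤ X → ∀ i, c ≤ LL (PS X i) := by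
  have heta : 0 < eta0 := by unfold eta0; norm_num
  obtain ⟨hl4, -⟩ := par_log4
  refine ⟨eta0 / (8 * Real.log 4), by positivity, ?_⟩
  have e1 : ∀ᶠ X : ℝ in Filter.atTop, (10 : ℝ) ^ 8 ≤ X ^ (1 / 100 : ℝ) :=
    (tendsto_rpow_atTop (by norm_num)).eventually_ge_atTop _
  have e2 : ∀ᶠ X : ℝ in Filter.atTop, 2 * Real.log 4 / eta0 ≤ Real.log X :=
    Real.tendsto_log_atTop.eventually_ge_atTop _
  have e3 : ∀ᶠ X : ℝ in Filter.atTop, (1 : ℝ) < X := Filter.eventually_gt_atTop 1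
  obtain ⟨X₀, hX₀⟩ := Filter.eventually_atTop.1 ((e1.and e2).and e3)
  refine ⟨X₀, fun X hX i => ?_⟩
  obtain ⟨⟨h1, h2⟩, h3⟩ := hX₀ X hX
  have hX0 : 0 < X := by linarith
  have hlX : 0 < Real.log X := Real.log_pos h3
  set J : ℕ := ⌊eta0 * Real.log X / Real.log 4⌋₊ with hJ
  have hJ1 : (J : ℝ) ≤ eta0 * Real.log X / Real.log 4 := Nat.floor_le (by positivity)
  have hJ2 : eta0 * Real.log X / Real.log 4 < J + 1 := Nat.lt_floor_add_one _
  have hJ3 : 1 ≤ eta0 * Real.log X / (2 * Real.log 4) := by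
    rw [le_div_iff₀ (by positivity)]
    rw [div_le_iff₀ heta] at h2
    linarith
  have hJ4 : eta0 * Real.log X / (2 * Real.log 4) ≤ J := by
    have h4 : eta0 * Real.log X / Real.log 4 = 2 * (eta0 * Real.log X / (2 * Real.log 4)) := by
      field_simp
    rw [h4] at hJ2
    linarith
  have hY : (10 : ℝ) ^ 8 ≤ X ^ ex i :=
    le_trans h1 (Real.rpow_le_rpow_of_exponent_le h3.le (par_ex_lb i))
  have hQ : 4 ^ J * X ^ ex i ≤ X ^ (ex i + eta0) := by
    rw [add_comm, Real.rpow_add hX0]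
    apply mul_le_mul_of_nonneg_right _ (by positivity)
    rw [← Real.rpow_natCast, Real.rpow_def_of_pos (by norm_num : (0 : ℝ) < 4),
      Real.rpow_def_of_pos hX0]
    apply Real.exp_le_exp.2
    rw [le_div_iff₀ hl4] at hJ1
    linarith
  have h5 := sum_inv_prime_ge (X ^ ex i) (X ^ (ex i + eta0)) J hY hQ
  have h6 : ∑ p ∈ PrI ⌊X ^ ex i⌋₊ ⌊X ^ (ex i + eta0)⌋₊, (1 : ℝ) / p ≤ LL (PS X i) := by
    unfold LL
    refine Finset.sum_le_sum (fun p hp => ?_)
    have hp2 : 2 ≤ p := (Finset.mem_filter.1 hp).2.two_le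
    have hp2' : (2 : ℝ) ≤ p := by exact_mod_cast hp2
    apply one_div_le_one_div_of_le
    · linarith
    · linarith
  refine le_trans ?_ (le_trans h5 h6)
  rw [Real.log_rpow hX0]
  have h7 : ex i + eta0 ≤ 1 := by
    have := par_ex_ub i
    unfold eta0
    linarith
  have h8 : 0 < ex i + eta0 := by
    have := par_ex_lb i
    linarith
  rw [div_le_div_iff₀ (by positivity) (by positivity)]
  have h9 : eta0 * Real.log X ≤ J * (2 * Real.log 4) := by
    rwa [div_le_iff₀ (by positivity)] at hJ4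
  calc eta0 * (4 * ((ex i + eta0) * Real.log X)) ≤ eta0 * (4 * (1 * Real.log X)) := by
        gcongr
    _ = 4 * (eta0 * Real.log X) := by ring
    _ ≤ 4 * (J * (2 * Real.log 4)) := by gcongr
    _ = J * (8 * Real.log 4) := by ring

private lemma par_block (y : ℝ) (hy : 2 ≤ y) :
    ∑ p ∈ PrI ⌊y⌋₊ ⌊2 * y⌋₊, 1 / ((p : ℝ) - 1) ≤ 4 * Real.log 4 / Real.log y := by
  have hy0 : 0 < y := by linarith
  have hly : 0 < Real.log y := Real.log_pos (by linarith)
  obtain ⟨hl4, -⟩ := par_log4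
  have hfl : ⌊y⌋₊ ≤ ⌊2 * y⌋₊ := Nat.floor_le_floor (by linarith)
  have h1 : ∑ p ∈ PrI ⌊y⌋₊ ⌊2 * y⌋₊, Real.log p ≤ Real.log 4 * (2 * y) := by
    rw [← theta_sub _ _ hfl]
    have h2 := Chebyshev.theta_le_log4_mul_x (x := 2 * y) (by linarith)
    rw [Chebyshev.theta_eq_theta_coe_floor] at h2
    have h3 := Chebyshev.theta_nonneg (⌊y⌋₊ : ℝ)
    linarith
  calc ∑ p ∈ PrI ⌊y⌋₊ ⌊2 * y⌋₊, 1 / ((p : ℝ) - 1)
      ≤ ∑ p ∈ PrI ⌊y⌋₊ ⌊2 * y⌋₊, (2 / (y * Real.log y)) * Real.log p := by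
        refine Finset.sum_le_sum (fun p hp => ?_)
        unfold PrI at hp
        rw [Finset.mem_filter, Finset.mem_Ioc] at hp
        have hp1 : y < p := Nat.lt_of_floor_lt hp.1.1
        have hp2 : (2 : ℝ) ≤ p := by linarith
        have h4 : Real.log y ≤ Real.log p := Real.log_le_log hy0 hp1.le
        calc 1 / ((p : ℝ) - 1) ≤ 2 / y := by
              rw [div_le_div_iff₀ (by linarith) hy0]
              linarith
          _ = (2 / (y * Real.log y)) * Real.log y := by field_simp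
          _ ≤ (2 / (y * Real.log y)) * Real.log p := by gcongr
    _ = (2 / (y * Real.log y)) * ∑ p ∈ PrI ⌊y⌋₊ ⌊2 * y⌋₊, Real.log p := by
        rw [Finset.mul_sum]
    _ ≤ (2 / (y * Real.log y)) * (Real.log 4 * (2 * y)) := by gcongr
    _ = 4 * Real.log 4 / Real.log y := by field_simp; ring

private lemma par_blocks (y : ℝ) (hy : 2 ≤ y) (K : ℕ) :
    ∑ p ∈ PrI ⌊y⌋₊ ⌊2 ^ K * y⌋₊, 1 / ((p : ℝ) - 1) ≤ K * (4 * Real.log 4 / Real.log y) := by
  have hy0 : 0 < y := by linarith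
  have hly : 0 < Real.log y := Real.log_pos (by linarith)
  obtain ⟨hl4, -⟩ := par_log4
  induction K with
  | zero => simp [PrI]
  | succ K ih =>
    have h2K : (1 : ℝ) ≤ 2 ^ K := one_le_pow₀ (by norm_num)
    have h1 : y ≤ 2 ^ K * y := le_mul_of_one_le_left hy0.le h2K
    have h2 : (2 : ℝ) ^ (K + 1) * y = 2 * (2 ^ K * y) := by ring
    rw [h2, PrI_union ⌊y⌋₊ ⌊2 ^ K * y⌋₊ ⌊2 * (2 ^ K * y)⌋₊ (Nat.floor_le_floor h1)
      (Nat.floor_le_floor (by linarith))]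
    have h3 := par_block (2 ^ K * y) (by linarith)
    have h4 : 4 * Real.log 4 / Real.log (2 ^ K * y) ≤ 4 * Real.log 4 / Real.log y := by
      apply div_le_div_of_nonneg_left (by positivity) hly
      exact Real.log_le_log hy0 h1
    push_cast
    linarith

/-- upper bound for `L_i`: Chebyshev's upper bound (`Chebyshev.theta x ≤ log 4 * x`) in dyadic blocks:
`∑_{y < p ≤ 2 y} 1 / (p - 1) ≤ 2 θ(2 y) / (y log y) ≤ 4 log 4 / log y` with `y ≥ X ^ (1/100)`; there are at most `η₀ log X / log 2 + 1` blocks. -/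
lemma LL_le : ∃ X₀ : ℝ, ∀ X : ℝ, X₀ ≤ X → ∀ i, LL (PS X i) ≤ 1 := by
  have heta : 0 < eta0 := by unfold eta0; norm_num
  obtain ⟨hl4, hl4'⟩ := par_log4
  have hl2 : 0 < Real.log 2 := Real.log_pos (by norm_num)
  have e1 : ∀ᶠ X : ℝ in Filter.atTop, (2 : ℝ) ≤ X ^ (1 / 100 : ℝ) :=
    (tendsto_rpow_atTop (by norm_num)).eventually_ge_atTop _
  have e2 : ∀ᶠ X : ℝ in Filter.atTop, (2000 : ℝ) ≤ Real.log X :=
    Real.tendsto_log_atTop.eventually_ge_atTop _
  have e3 : ∀ᶠ X : ℝ in Filter.atTop, (1 : ℝ) < X := Filter.eventually_gt_atTop 1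
  obtain ⟨X₀, hX₀⟩ := Filter.eventually_atTop.1 ((e1.and e2).and e3)
  refine ⟨X₀, fun X hX i => ?_⟩
  obtain ⟨⟨h1, h2⟩, h3⟩ := hX₀ X hX
  have hX0 : 0 < X := by linarith
  have hlX : 0 < Real.log X := Real.log_pos h3
  set K : ℕ := ⌈eta0 * Real.log X / Real.log 2⌉₊ with hK
  have hK1 : eta0 * Real.log X / Real.log 2 ≤ K := Nat.le_ceil _
  have hK2 : (K : ℝ) < eta0 * Real.log X / Real.log 2 + 1 := Nat.ceil_lt_add_one (by positivity)
  have hY : (2 : ℝ) ≤ X ^ ex i :=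
    le_trans h1 (Real.rpow_le_rpow_of_exponent_le h3.le (par_ex_lb i))
  have hQ : X ^ (ex i + eta0) ≤ 2 ^ K * X ^ ex i := by
    rw [add_comm, Real.rpow_add hX0]
    apply mul_le_mul_of_nonneg_right _ (by positivity)
    rw [← Real.rpow_natCast, Real.rpow_def_of_pos (by norm_num : (0 : ℝ) < 2),
      Real.rpow_def_of_pos hX0]
    apply Real.exp_le_exp.2
    rw [div_le_iff₀ hl2] at hK1
    linarith
  have h5 : LL (PS X i) ≤ ∑ p ∈ PrI ⌊X ^ ex i⌋₊ ⌊2 ^ K * X ^ ex i⌋₊, 1 / ((p : ℝ) - 1) := by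
    unfold LL
    refine Finset.sum_le_sum_of_subset_of_nonneg ?_ (fun p hp _ => ?_)
    · intro p hp
      unfold PS at hp
      unfold PrI
      rw [Finset.mem_filter, Finset.mem_Ioc] at hp ⊢
      exact ⟨⟨hp.1.1, hp.1.2.trans (Nat.floor_le_floor hQ)⟩, hp.2⟩
    · have hp2 : 2 ≤ p := (Finset.mem_filter.1 hp).2.two_le
      have hp2' : (2 : ℝ) ≤ p := by exact_mod_cast hp2
      apply one_div_nonneg.2
      linarith
  have h6 := par_blocks (X ^ ex i) hY K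
  rw [Real.log_rpow hX0] at h6
  have hexl := par_ex_lb i
  have h7 : (K : ℝ) * (4 * Real.log 4 / (ex i * Real.log X)) ≤
      (eta0 * Real.log X / Real.log 2 + 1) * (4 * Real.log 4 / (1 / 100 * Real.log X)) := by
    gcongr
  have h8 : (eta0 * Real.log X / Real.log 2 + 1) * (4 * Real.log 4 / (1 / 100 * Real.log X)) =
      800 * eta0 + 400 * Real.log 4 / Real.log X := by
    have h9 : Real.log 4 = 2 * Real.log 2 := by
      rw [show (4 : ℝ) = 2 ^ 2 by norm_num, Real.log_pow]; norm_num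
    rw [h9]
    field_simp
    ring
  have h10 : 400 * Real.log 4 / Real.log X ≤ 4 / 10 := by
    rw [div_le_iff₀ hlX]
    linarith
  have h11 : 800 * eta0 ≤ 1 / 10 := by unfold eta0; norm_num
  linarith

/-- `∑_{r ≤ X ^ ε₄} μ²(r) / φ(r) ≥ log(X ^ ε₄) / 2` (`sum_inv_totient_ge` in `Sums.lean`) -/
lemma sum_RS_ge (hX : Lg X T C) :
    eps4 * Real.log X / 2 ≤ ∑ r ∈ RS X, 1 / (r.totient : ℝ) := by
  have hX0 : 0 < X := by linarith [hX.X1]
  have h1 := sum_inv_totient_ge ⌊X ^ eps4⌋₊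
  have h2 : eps4 * Real.log X ≤ Real.log ((⌊X ^ eps4⌋₊ : ℝ) + 1) := by
    rw [← Real.log_rpow hX0]
    apply Real.log_le_log (by positivity)
    exact (Nat.lt_floor_add_one _).le
  have h3 : SqR ⌊X ^ eps4⌋₊ = RS X := rfl
  rw [h3] at h1
  linarith

private lemma par_card (hX : Lg X T C) (i : Fin 6) (n : ℤ) (hn : n ≠ 0)
    (hn2 : |(n : ℝ)| ≤ X ^ (2 : ℝ)) :
    (((PS X i).filter (fun p : ℕ => (p : ℤ) ∣ n)).card : ℝ) ≤ 200 := by
  have hX1 := par_one_lt hX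
  have hX0 : 0 < X := by linarith
  set S := (PS X i).filter (fun p : ℕ => (p : ℤ) ∣ n) with hS
  have h1 : ∏ p ∈ S, p ∣ n.natAbs := by
    apply Finset.prod_primes_dvd
    · intro p hp
      exact (mem_PS (Finset.mem_filter.1 hp).1 hX.X1).1.prime
    · intro p hp
      exact Int.natCast_dvd.1 (Finset.mem_filter.1 hp).2
  have h2 : ∏ p ∈ S, p ≤ n.natAbs := Nat.le_of_dvd (Int.natAbs_pos.2 hn) h1
  have h3 : ((∏ p ∈ S, p : ℕ) : ℝ) ≤ X ^ (2 : ℝ) := by
    have h4 : ((n.natAbs : ℕ) : ℝ) = |(n : ℝ)| := by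
      rw [Nat.cast_natAbs, Int.cast_abs]
    calc ((∏ p ∈ S, p : ℕ) : ℝ) ≤ (n.natAbs : ℝ) := by exact_mod_cast h2
      _ = |(n : ℝ)| := h4
      _ ≤ _ := hn2
  have h5 : X ^ ((S.card : ℝ) * (1 / 100)) ≤ ((∏ p ∈ S, p : ℕ) : ℝ) := by
    rw [Nat.cast_prod, mul_comm, Real.rpow_mul hX0.le, Real.rpow_natCast, ← Finset.prod_const]
    refine Finset.prod_le_prod (fun p _ => by positivity) (fun p hp => ?_)
    have h6 := mem_PS (Finset.mem_filter.1 hp).1 hX.X1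
    exact le_trans (Real.rpow_le_rpow_of_exponent_le hX.X1 (par_ex_lb i)) h6.2.1.le
  have h7 : (S.card : ℝ) * (1 / 100) ≤ 2 := by
    by_contra hcon
    have h8 := Real.rpow_lt_rpow_of_exponent_lt hX1 (not_le.1 hcon)
    linarith
  linarith

/-- pointwise bound for `G`: `|F_{P_i}(n)| ≤ L_i + #{p ∈ P_i : p ∣ n} ≤ 1 + 300`, as `n ≤ X ^ 2` has at most `200` prime factors
`> X ^ (1/100)`. -/
lemma abs_G_le (hX : Lg X T C) (hL : ∀ i, LL (PS X i) ≤ 1) (n : ℤ) (hn : n ≠ 0)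
    (hn2 : |(n : ℝ)| ≤ X ^ (2 : ℝ)) : |∏ i, FQ (PS X i) n| ≤ 300 ^ 6 := by
  rw [Finset.abs_prod]
  have h1 : ∀ i : Fin 6, |FQ (PS X i) n| ≤ 300 := by
    intro i
    unfold FQ
    calc |∑ q ∈ PS X i, bc q n| ≤ ∑ q ∈ PS X i, |bc q n| := Finset.abs_sum_le_sum_abs _ _
      _ ≤ ∑ q ∈ PS X i, ((if (q : ℤ) ∣ n then (1 : ℝ) else 0) + 1 / ((q : ℝ) - 1)) := by
          refine Finset.sum_le_sum (fun p hp => ?_)
          have hpp := (mem_PS hp hX.X1).1
          have hp2 : (2 : ℝ) ≤ p := by exact_mod_cast hpp.two_le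
          have hpos : 0 ≤ 1 / ((p : ℝ) - 1) := by
            apply one_div_nonneg.2
            linarith
          rw [bc_prime hpp]
          split_ifs
          · rw [abs_neg, abs_one]
            linarith
          · rw [abs_of_nonneg hpos]
            linarith
      _ = (((PS X i).filter (fun p : ℕ => (p : ℤ) ∣ n)).card : ℝ) + LL (PS X i) := by
          rw [Finset.sum_add_distrib, ← Finset.sum_filter, Finset.sum_const, nsmul_eq_mul, mul_one]
          rfl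
      _ ≤ 200 + 1 := add_le_add (par_card hX i n hn hn2) (hL i)
      _ ≤ 300 := by norm_num
  calc ∏ i : Fin 6, |FQ (PS X i) n| ≤ ∏ _i : Fin 6, (300 : ℝ) :=
        Finset.prod_le_prod (fun i _ => abs_nonneg _) (fun i _ => h1 i)
    _ = 300 ^ 6 := by rw [Finset.prod_const, Finset.card_univ, Fintype.card_fin]

end Pool.Agent.Lib.MP_2a816b_nt.BH
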