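import Pool.Agent.Lib.MP_2a816b_nt.BH.LamU
import Pool.Agent.Lib.MP_2a816b_nt.BH.Par
import Pool.Agent.Lib.MP_2a816b_nt.BH.QB

/-!
# JOB LamSum: the sum of `R₂(n) Λ_u(n)` over `n ≤ N / u`

`u ∈ ∏ PS X i` (six primes, each `≥ X ^ 0.01`, `u ≥ X ^ 0.5005`), `m = N / u ≤ 4 X ^ 0.4995`, `y = ⌊X ^ (1/2 - ε)⌋`, `0 < ε ≤ 1/10^4`, `R = FQ (RS X)`, `S = ∑_{r ∈ RS X} 1/φ(r)`.
* `n` prime, `n ∤ u`, `n > X ^ ε₄`: `R(n) = S` (`bc r n = 1/φ(r)` as `n ∤ r`), and `AU y n u ≤ (φ(u)/u) log n + err`, `err = C₂ T ^ 2 (m / y) ^ (1/4) ≤ C₂ T ^ 2 2 X ^ (-0.0001)` (`AU_eq`, `φ(n u)/(n u) ≤ φ(u)/u`).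
  Sum: `≤ S (φ(u)/u) ∑_{n ≤ m} Λ(n) + m S err`.
* other `n ≥ 2` with `(n, u) = 1`: `|R(n)| ≤ T ^ 3`, `|AU| ≤ Λ(n) + err`, and the sum of `Λ(n)` over prime powers `p ^ k ≤ m` with `k ≥ 2` or `p ≤ X ^ ε₄` is `≤ (√m + X ^ ε₄) T ^ 2`.
* `(n, u) > 1`: some prime `p ∣ u`, `p ≥ X ^ 0.01`, divides `n`: at most `6 m X ^ (-0.01)` such `n`, each term `≤ T ^ 6` (`sum_abs_bc_le`). `n = 1`: `≤ T ^ 6`.
Total `≤ (φ(u)/u) S ∑_{n ≤ m} Λ(n) + m X ^ (- 8/10^5) + X ^ (1/3)`. (Note that `Λ(n) ≥ 0`, so adding the other prime powers to the main term is fine.)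
-/

set_option autoImplicit false

open Finset Real
open scoped Pointwise

namespace Pool.Agent.Lib.MP_2a816b_nt.BH

/-- `∑_{r ∈ RS X} 1 / φ(r)` -/
noncomputable def SR (X : ℝ) : ℝ := ∑ r ∈ RS X, 1 / (r.totient : ℝ)

private lemma LamSum_pow {X T C : ℝ} (hX : Lg X T C) (n : ℕ) {a b : ℝ}
    (h : n * (1 / 10 ^ 7 : ℝ) + a ≤ b) : T ^ n * X ^ a ≤ X ^ b := by
  have hX0 : 0 < X := by linarith [hX.X1]
  have h1 : T ^ n = X ^ ((n : ℝ) * (1 / 10 ^ 7 : ℝ)) := by
    rw [hX.hT, tau0, mul_comm, Real.rpow_mul hX0.le, Real.rpow_natCast]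
  rw [h1, ← Real.rpow_add hX0]
  exact Real.rpow_le_rpow_of_exponent_le hX.X1 h

/-- prime powers which are not large primes -/
private lemma LamSum_bad1 (m Y : ℕ) :
    ((Ioc 0 m).filter (fun n => vM n ≠ 0 ∧ ¬ (n.Prime ∧ Y < n))).card ≤
      (Nat.sqrt m + 1) * (Nat.log 2 m + 1) + Y := by
  classical
  have hsub : (Ioc 0 m).filter (fun n => vM n ≠ 0 ∧ ¬ (n.Prime ∧ Y < n)) ⊆
      ((range (Nat.sqrt m + 1) ×ˢ range (Nat.log 2 m + 1)).image (fun q : ℕ × ℕ => q.1 ^ q.2)) ∪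
        Ioc 0 Y := by
    intro n hn
    rw [mem_filter, mem_Ioc] at hn
    obtain ⟨⟨hn0, hnm⟩, hv, hnp⟩ := hn
    have hpp : IsPrimePow n := ArithmeticFunction.vonMangoldt_ne_zero_iff.1 hv
    obtain ⟨p, k, hp, hk, rfl⟩ := (isPrimePow_nat_iff _).1 hpp
    rw [mem_union]
    rcases Nat.lt_or_ge 1 k with hk1 | hk1
    · left
      rw [mem_image]
      refine ⟨(p, k), ?_, rfl⟩
      rw [mem_product, mem_range, mem_range]
      refine ⟨Nat.lt_succ_of_le (Nat.le_sqrt.2 ?_), Nat.lt_succ_of_le ?_⟩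
      · calc p * p = p ^ 2 := (sq p).symm
          _ ≤ p ^ k := Nat.pow_le_pow_right hp.pos hk1
          _ ≤ m := hnm
      · apply Nat.le_log_of_pow_le (by norm_num)
        exact (Nat.pow_le_pow_left hp.two_le k).trans hnm
    · right
      have hk' : k = 1 := by omega
      subst hk'
      rw [pow_one] at *
      rw [mem_Ioc]
      refine ⟨hn0, ?_⟩
      by_contra hcon
      exact hnp ⟨hp, by omega⟩
  refine (card_le_card hsub).trans ((card_union_le _ _).trans ?_)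
  rw [Nat.card_Ioc, Nat.sub_zero]
  refine Nat.add_le_add_right ?_ _
  refine card_image_le.trans ?_
  rw [card_product, card_range, card_range]

/-- numbers not prime to `u` -/
private lemma LamSum_bad2 (m u : ℕ) (hu : 0 < u) (P : ℝ) (hP : 0 < P)
    (h : ∀ p : ℕ, p.Prime → p ∣ u → P ≤ (p : ℝ)) :
    (((Ioc 0 m).filter (fun n => ¬ n.Coprime u)).card : ℝ) ≤
      (u.divisors.card : ℝ) * (m / P) := by
  classical
  have hsub : (Ioc 0 m).filter (fun n => ¬ n.Coprime u) ⊆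
      u.primeFactors.biUnion (fun p => (Ioc 0 m).filter (fun n => p ∣ n)) := by
    intro n hn
    rw [mem_filter] at hn
    obtain ⟨hn1, hn2⟩ := hn
    obtain ⟨p, hp, hpn, hpu⟩ := Nat.Prime.not_coprime_iff_dvd.1 hn2
    rw [mem_biUnion]
    exact ⟨p, Nat.mem_primeFactors.2 ⟨hp, hpu, hu.ne'⟩, mem_filter.2 ⟨hn1, hpn⟩⟩
  have h1 : (((Ioc 0 m).filter (fun n => ¬ n.Coprime u)).card : ℝ) ≤
      ∑ p ∈ u.primeFactors, (((Ioc 0 m).filter (fun n => p ∣ n)).card : ℝ) := by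
    have := (card_le_card hsub).trans card_biUnion_le
    exact_mod_cast this
  have h2 : ∀ p ∈ u.primeFactors, (((Ioc 0 m).filter (fun n => p ∣ n)).card : ℝ) ≤ m / P := by
    intro p hp
    have hpp := Nat.prime_of_mem_primeFactors hp
    have hpu := Nat.dvd_of_mem_primeFactors hp
    have hp0 : (0 : ℝ) < p := by exact_mod_cast hpp.pos
    rw [Nat.Ioc_filter_dvd_card_eq_div]
    calc ((m / p : ℕ) : ℝ) ≤ (m : ℝ) / p := Nat.cast_div_le
      _ ≤ m / P := by
        have := h p hpp hpu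
        gcongr
  have h3 : u.primeFactors.card ≤ u.divisors.card :=
    card_le_card (fun p hp => Nat.mem_divisors.2 ⟨Nat.dvd_of_mem_primeFactors hp, hu.ne'⟩)
  calc (((Ioc 0 m).filter (fun n => ¬ n.Coprime u)).card : ℝ)
      ≤ ∑ p ∈ u.primeFactors, (((Ioc 0 m).filter (fun n => p ∣ n)).card : ℝ) := h1
    _ ≤ ∑ _p ∈ u.primeFactors, (m : ℝ) / P := sum_le_sum h2
    _ = (u.primeFactors.card : ℝ) * (m / P) := by rw [sum_const, nsmul_eq_mul]
    _ ≤ (u.divisors.card : ℝ) * (m / P) := by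
      have : (u.primeFactors.card : ℝ) ≤ u.divisors.card := by exact_mod_cast h3
      gcongr

private lemma LamSum_FQ_prime {X : ℝ} (hX1 : 1 ≤ X) {n : ℕ} (hn : n.Prime)
    (hlt : ⌊X ^ eps4⌋₊ < n) : FQ (RS X) n = SR X := by
  unfold FQ SR
  apply sum_congr rfl
  intro r hr
  obtain ⟨hsq, hr0, hrX⟩ := mem_RS hr hX1
  have hrn : r < n := by
    have : r ≤ ⌊X ^ eps4⌋₊ := Nat.le_floor hrX
    omega
  unfold bc
  rw [RamA_totient hsq, one_div, ← prod_inv_distrib]
  apply prod_congr rfl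
  intro p hp
  rw [if_neg, one_div]
  intro h
  have h1 : p ∣ n := by exact_mod_cast h
  have hpp := Nat.prime_of_mem_primeFactors hp
  have h2 : p = n := (Nat.prime_dvd_prime_iff_eq hpp hn).1 h1
  have h3 : p ≤ r := Nat.le_of_dvd hr0 (Nat.dvd_of_mem_primeFactors hp)
  omega

private lemma LamSum_SR_nonneg (X : ℝ) : 0 ≤ SR X := sum_nonneg fun r _ => by positivity

private lemma LamSum_abs_AU {M : ℕ} {T : ℝ} (hB : Big M T) {y n u : ℕ} (hy : y ≤ M) (hn : 0 < n)
    (hnM : n ≤ M) : |AU y n u| ≤ T ^ 3 := by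
  unfold AU
  refine (abs_sum_le_sum_abs _ _).trans (sum_abs_bc_le hB _ ?_ n (by exact_mod_cast hn.ne') (by simpa using hnM))
  intro v hv
  rw [mem_filter, mem_Ioc] at hv
  exact ⟨hv.2.1, hv.1.2.trans hy⟩

theorem lam_sum : ∃ C₃ : ℝ, ∀ (X T : ℝ), Lg X T C₃ → ∀ ε : ℝ, 0 < ε → ε ≤ 1 / 10 ^ 4 →
    ∀ (N u : ℕ), (N : ℝ) ≤ 4 * X → u ∈ ∏ i, PS X i →
    ∑ n ∈ Ioc 0 (N / u), FQ (RS X) n * AU ⌊X ^ (1 / 2 - ε)⌋₊ n u ≤
      (u.totient : ℝ) / u * SR X * ∑ n ∈ Ioc 0 (N / u), vM n +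
        ((N : ℝ) / u) * X ^ (-(8 / 10 ^ 5) : ℝ) + X ^ (1 / 3 : ℝ) := by
  classical
  obtain ⟨C₂, hC₂, hAU⟩ := AU_eq
  refine ⟨C₂, ?_⟩
  intro X T hX ε hε hε1 N u hN hu
  have hX1 := hX.X1
  have hX0 : 0 < X := by linarith
  have hB := hX.big
  have hT10 := hX.h10
  have hT1 : 1 ≤ T := by linarith [hT10]
  have hT0 : 0 < T := by linarith
  have hC₂T : C₂ ≤ T := hX.hC
  set M : ℕ := ⌊X ^ (10 : ℝ)⌋₊ with hM
  obtain ⟨husq, hu1, hu2, huP⟩ := mem_prod_PS hX univ hu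
  rw [exs_univ] at hu1 hu2
  have hu0 : 0 < u := Nat.pos_of_ne_zero husq.ne_zero
  have hu0' : (0 : ℝ) < u := by exact_mod_cast hu0
  set m : ℕ := N / u with hm
  set y : ℕ := ⌊X ^ (1 / 2 - ε)⌋₊ with hy
  -- constants in powers of `X`
  have hc8 : (8 : ℝ) ≤ T := by linarith
  -- size of `m`
  have hmN : (m : ℝ) ≤ (N : ℝ) / u := Nat.cast_div_le
  have hNu : (N : ℝ) / u ≤ 4 * X ^ (4995 / 10000 : ℝ) := by
    rw [div_le_iff₀ hu0']
    have h1 : X ^ (4995 / 10000 : ℝ) * X ^ (5005 / 10000 : ℝ) = X := by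
      rw [← Real.rpow_add hX0]
      norm_num
    calc (N : ℝ) ≤ 4 * X := hN
      _ = 4 * X ^ (4995 / 10000 : ℝ) * X ^ (5005 / 10000 : ℝ) := by rw [mul_assoc, h1]
      _ ≤ 4 * X ^ (4995 / 10000 : ℝ) * u := by gcongr
  have hmX : (m : ℝ) ≤ 4 * X ^ (4995 / 10000 : ℝ) := hmN.trans hNu
  -- size of `y`
  have hyle : (y : ℝ) ≤ X ^ (1 / 2 - ε) := Nat.floor_le (by positivity)
  have hylt : X ^ (1 / 2 - ε) < (y : ℝ) + 1 := Nat.lt_floor_add_one _
  have h4999 : X ^ (4999 / 10000 : ℝ) ≤ X ^ (1 / 2 - ε) :=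
    Real.rpow_le_rpow_of_exponent_le hX1 (by norm_num at hε1 ⊢; linarith)
  have hbig1 : 8 * X ^ (4995 / 10000 : ℝ) ≤ X ^ (4999 / 10000 : ℝ) := by
    calc 8 * X ^ (4995 / 10000 : ℝ) ≤ T ^ 1 * X ^ (4995 / 10000 : ℝ) := by
          rw [pow_one]
          gcongr
      _ ≤ X ^ (4999 / 10000 : ℝ) := LamSum_pow hX 1 (by norm_num)
  have hpow1 : 1 ≤ X ^ (4995 / 10000 : ℝ) := Real.one_le_rpow hX1 (by norm_num)
  have hy2 : X ^ (4999 / 10000 : ℝ) / 2 ≤ (y : ℝ) := by linarith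
  have hmy : m ≤ y := by
    have : (m : ℝ) ≤ y := by linarith
    exact_mod_cast this
  have hyM : y ≤ M := by
    apply Nat.floor_le_floor
    exact Real.rpow_le_rpow_of_exponent_le hX1 (by linarith)
  have hNM : N ≤ M := by
    apply Nat.le_floor
    calc (N : ℝ) ≤ 4 * X := hN
      _ ≤ T ^ 1 * X ^ (1 : ℝ) := by
        rw [pow_one, Real.rpow_one]
        have : (4 : ℝ) ≤ T := by linarith
        gcongr
      _ ≤ X ^ (10 : ℝ) := LamSum_pow hX 1 (by norm_num)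
  have huM : u ≤ M := by
    apply Nat.le_floor
    calc (u : ℝ) ≤ T * X ^ (5005 / 10000 : ℝ) := hu2
      _ = T ^ 1 * X ^ (5005 / 10000 : ℝ) := by rw [pow_one]
      _ ≤ X ^ (10 : ℝ) := LamSum_pow hX 1 (by norm_num)
  have hmM : m ≤ M := hmy.trans hyM
  -- the quantities
  set S : ℝ := SR X with hS
  have hS0 : 0 ≤ S := LamSum_SR_nonneg X
  have hRSM : ∀ v ∈ RS X, Squarefree v ∧ v ≤ M := by
    intro v hv
    obtain ⟨h1, h2, h3⟩ := mem_RS hv hX1
    refine ⟨h1, Nat.le_floor (h3.trans ?_)⟩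
    exact Real.rpow_le_rpow_of_exponent_le hX1 (by unfold eps4; norm_num)
  have hST : S ≤ T ^ 2 := sum_inv_totient_le hB _ hRSM
  set err : ℝ := C₂ * T ^ 2 * ((m : ℝ) / y) ^ (1 / 4 : ℝ) with herr
  have herr0 : 0 ≤ err := by positivity
  set A : ℝ := (u.totient : ℝ) / u * S with hA
  have hA0 : 0 ≤ A := by positivity
  set Y : ℕ := ⌊X ^ eps4⌋₊ with hY
  -- pointwise bound
  set b1 : ℕ → ℝ := fun n => if vM n ≠ 0 ∧ ¬ (n.Prime ∧ Y < n) then T ^ 4 else 0 with hb1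
  set b2 : ℕ → ℝ := fun n => if ¬ n.Coprime u then T ^ 6 else 0 with hb2
  set b3 : ℕ → ℝ := fun n => if n = 1 then T ^ 6 else 0 with hb3
  have hb10 : ∀ n, 0 ≤ b1 n := fun n => by simp only [hb1]; split_ifs <;> positivity
  have hb20 : ∀ n, 0 ≤ b2 n := fun n => by simp only [hb2]; split_ifs <;> positivity
  have hb30 : ∀ n, 0 ≤ b3 n := fun n => by simp only [hb3]; split_ifs <;> positivity
  have hpt : ∀ n ∈ Ioc 0 m, FQ (RS X) n * AU y n u ≤
      A * vM n + T ^ 3 * err + b1 n + b2 n + b3 n := by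
    intro n hn
    rw [mem_Ioc] at hn
    have hnM : n ≤ M := hn.2.trans hmM
    have hR : |FQ (RS X) n| ≤ T ^ 3 :=
      abs_FQ_le hB _ hRSM n (by exact_mod_cast hn.1.ne') (by simpa using hnM)
    have hAa : |AU y n u| ≤ T ^ 3 := LamSum_abs_AU hB hyM hn.1 hnM
    have hprod : FQ (RS X) n * AU y n u ≤ T ^ 6 := by
      calc FQ (RS X) n * AU y n u ≤ |FQ (RS X) n * AU y n u| := le_abs_self _
        _ = |FQ (RS X) n| * |AU y n u| := abs_mul _ _
        _ ≤ T ^ 3 * T ^ 3 := mul_le_mul hR hAa (abs_nonneg _) (by positivity)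
        _ = T ^ 6 := by ring
    have hv0 := vM_nonneg n
    have hAv : 0 ≤ A * vM n := mul_nonneg hA0 hv0
    have hTe : 0 ≤ T ^ 3 * err := by positivity
    have hvT : vM n ≤ T := by
      have h1 := vM_le_log n
      have h2 : Real.log n ≤ Real.log M :=
        Real.log_le_log (by exact_mod_cast hn.1) (by exact_mod_cast hnM)
      linarith [hB.log]
    by_cases hcop : n.Coprime u
    · rcases Nat.lt_or_ge 1 n with hn1 | hn1
      · -- the main case
        have hnuM : n * u ≤ M := by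
          refine le_trans ?_ hNM
          calc n * u ≤ m * u := Nat.mul_le_mul_right u hn.2
            _ ≤ N := Nat.div_mul_le_self N u
        have h1 := hAU M T hB y n u hn1 (hn.2.trans hmy) hu0 hnuM hcop
        have hn0' : (0 : ℝ) < n := by exact_mod_cast hn.1
        have hy0' : (0 : ℝ) < y := by
          have : 0 < y := lt_of_lt_of_le hn.1 (hn.2.trans hmy)
          exact_mod_cast this
        have h2 : C₂ * T ^ 2 * ((n : ℝ) / y) ^ (1 / 4 : ℝ) ≤ err := by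
          rw [herr]
          apply mul_le_mul_of_nonneg_left _ (by positivity)
          apply Real.rpow_le_rpow (by positivity) _ (by norm_num)
          have : (n : ℝ) ≤ m := by exact_mod_cast hn.2
          gcongr
        have h3 : ((n * u).totient : ℝ) / (n * u : ℕ) ≤ (u.totient : ℝ) / u := by
          rw [Nat.totient_mul hcop]
          push_cast
          rw [mul_div_mul_comm]
          have h4 : (n.totient : ℝ) / n ≤ 1 := by
            rw [div_le_one hn0']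
            exact_mod_cast Nat.totient_le n
          calc (n.totient : ℝ) / n * ((u.totient : ℝ) / u) ≤ 1 * ((u.totient : ℝ) / u) := by
                gcongr
            _ = _ := one_mul _
        have h30 : 0 ≤ ((n * u).totient : ℝ) / (n * u : ℕ) := by positivity
        have h31 : (u.totient : ℝ) / u ≤ 1 := by
          rw [div_le_one hu0']
          exact_mod_cast Nat.totient_le u
        have hv : ArithmeticFunction.vonMangoldt n = vM n := rfl
        rw [hv] at h1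
        have h5 : |AU y n u - ((n * u).totient : ℝ) / (n * u : ℕ) * vM n| ≤ err := h1.trans h2
        by_cases hlp : n.Prime ∧ Y < n
        · have h6 : FQ (RS X) n = S := LamSum_FQ_prime hX1 hlp.1 hlp.2
          have h7 : AU y n u ≤ (u.totient : ℝ) / u * vM n + err := by
            have h8 := (abs_le.1 h5).2
            have h9 : ((n * u).totient : ℝ) / (n * u : ℕ) * vM n ≤ (u.totient : ℝ) / u * vM n :=
              mul_le_mul_of_nonneg_right h3 hv0
            linarith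
          have h10 : S * err ≤ T ^ 3 * err := by
            apply mul_le_mul_of_nonneg_right _ herr0
            calc S ≤ T ^ 2 := hST
              _ ≤ T ^ 3 := pow_le_pow_right₀ hT1 (by norm_num)
          calc FQ (RS X) n * AU y n u = S * AU y n u := by rw [h6]
            _ ≤ S * ((u.totient : ℝ) / u * vM n + err) := mul_le_mul_of_nonneg_left h7 hS0
            _ = A * vM n + S * err := by rw [hA]; ring
            _ ≤ A * vM n + T ^ 3 * err + b1 n + b2 n + b3 n := by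
              linarith [hb10 n, hb20 n, hb30 n]
        · have h7 : |AU y n u| ≤ vM n + err := by
            have h8 : |AU y n u| ≤ |AU y n u - ((n * u).totient : ℝ) / (n * u : ℕ) * vM n| +
                |((n * u).totient : ℝ) / (n * u : ℕ) * vM n| := by
              have := abs_add_le (AU y n u - ((n * u).totient : ℝ) / (n * u : ℕ) * vM n)
                (((n * u).totient : ℝ) / (n * u : ℕ) * vM n)
              rwa [sub_add_cancel] at this
            have h9 : |((n * u).totient : ℝ) / (n * u : ℕ) * vM n| ≤ vM n := by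
              rw [abs_of_nonneg (mul_nonneg h30 hv0)]
              calc _ ≤ 1 * vM n := mul_le_mul_of_nonneg_right (h3.trans h31) hv0
                _ = vM n := one_mul _
            linarith
          have h8 : T ^ 3 * vM n ≤ b1 n := by
            simp only [hb1]
            by_cases hv' : vM n = 0
            · rw [hv', mul_zero]
              split_ifs <;> positivity
            · rw [if_pos ⟨hv', hlp⟩]
              calc T ^ 3 * vM n ≤ T ^ 3 * T := by gcongr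
                _ = T ^ 4 := by ring
          calc FQ (RS X) n * AU y n u ≤ |FQ (RS X) n * AU y n u| := le_abs_self _
            _ = |FQ (RS X) n| * |AU y n u| := abs_mul _ _
            _ ≤ T ^ 3 * (vM n + err) := mul_le_mul hR h7 (abs_nonneg _) (by positivity)
            _ = T ^ 3 * vM n + T ^ 3 * err := by ring
            _ ≤ A * vM n + T ^ 3 * err + b1 n + b2 n + b3 n := by
              linarith [hb20 n, hb30 n]
      · have hn1' : n = 1 := by omega
        have h1 : b3 n = T ^ 6 := by simp only [hb3]; rw [if_pos hn1']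
        linarith [hb10 n, hb20 n]
    · have h1 : b2 n = T ^ 6 := by simp only [hb2]; rw [if_pos hcop]
      linarith [hb10 n, hb30 n]
  -- the sums of the error terms
  have hsum := sum_le_sum hpt
  rw [sum_add_distrib, sum_add_distrib, sum_add_distrib, sum_add_distrib, ← mul_sum, sum_const,
    Nat.card_Ioc, Nat.sub_zero, nsmul_eq_mul] at hsum
  have hm0' : (0 : ℝ) ≤ m := Nat.cast_nonneg m
  -- b1
  have hs1 : ∑ n ∈ Ioc 0 m, b1 n ≤ X ^ (1 / 3 : ℝ) / 2 := by
    have h1 : ∑ n ∈ Ioc 0 m, b1 n =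
        (((Ioc 0 m).filter (fun n => vM n ≠ 0 ∧ ¬ (n.Prime ∧ Y < n))).card : ℝ) * T ^ 4 := by
      simp only [hb1]
      rw [← sum_filter, sum_const, nsmul_eq_mul]
    have h2 := LamSum_bad1 m Y
    have h3 : ((((Ioc 0 m).filter (fun n => vM n ≠ 0 ∧ ¬ (n.Prime ∧ Y < n))).card : ℕ) : ℝ) ≤
        ((Nat.sqrt m : ℝ) + 1) * ((Nat.log 2 m : ℝ) + 1) + Y := by exact_mod_cast h2
    have h4 : (Nat.log 2 m : ℝ) + 1 ≤ T := by
      rcases Nat.eq_zero_or_pos m with h0 | h0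
      · rw [h0, Nat.log_zero_right]
        simpa using hT1
      · have h5 : 2 ^ Nat.log 2 m ≤ M := (Nat.pow_log_le_self 2 h0.ne').trans hmM
        have h6 := hB.tau (2 ^ Nat.log 2 m) (by positivity) h5
        rw [Nat.divisors_prime_pow Nat.prime_two, card_map, card_range] at h6
        exact_mod_cast h6
    have h7 : (Nat.sqrt m : ℝ) ≤ 2 * X ^ (24975 / 100000 : ℝ) := by
      have h8 : (Nat.sqrt m : ℝ) ^ 2 ≤ (2 * X ^ (24975 / 100000 : ℝ)) ^ 2 := by
        have h9 : ((Nat.sqrt m : ℕ) : ℝ) ^ 2 ≤ m := by exact_mod_cast Nat.sqrt_le' m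
        have h10 : (2 * X ^ (24975 / 100000 : ℝ)) ^ 2 = 4 * X ^ (4995 / 10000 : ℝ) := by
          rw [mul_pow, ← Real.rpow_natCast (X ^ (24975 / 100000 : ℝ)) 2, ← Real.rpow_mul hX0.le]
          norm_num
        rw [h10]
        exact h9.trans hmX
      exact le_of_sq_le_sq h8 (by positivity)
    have h11 : (Y : ℝ) ≤ X ^ eps4 := Nat.floor_le (by positivity)
    have hp1 : 1 ≤ X ^ (24975 / 100000 : ℝ) := Real.one_le_rpow hX1 (by norm_num)
    rw [h1]
    have h12 : ((((Ioc 0 m).filter (fun n => vM n ≠ 0 ∧ ¬ (n.Prime ∧ Y < n))).card : ℕ) : ℝ) ≤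
        3 * T * X ^ (24975 / 100000 : ℝ) + X ^ eps4 := by
      refine h3.trans (add_le_add ?_ h11)
      calc ((Nat.sqrt m : ℝ) + 1) * ((Nat.log 2 m : ℝ) + 1)
          ≤ (3 * X ^ (24975 / 100000 : ℝ)) * T := by
            apply mul_le_mul _ h4 (by positivity) (by positivity)
            linarith
        _ = _ := by ring
    have h13 : X ^ eps4 ≤ X ^ (24975 / 100000 : ℝ) :=
      Real.rpow_le_rpow_of_exponent_le hX1 (by unfold eps4; norm_num)
    calc _ ≤ (3 * T * X ^ (24975 / 100000 : ℝ) + X ^ eps4) * T ^ 4 := by gcongr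
      _ ≤ (3 * T * X ^ (24975 / 100000 : ℝ) + T * X ^ (24975 / 100000 : ℝ)) * T ^ 4 := by
        have : X ^ eps4 ≤ T * X ^ (24975 / 100000 : ℝ) := by
          calc X ^ eps4 ≤ 1 * X ^ (24975 / 100000 : ℝ) := by rw [one_mul]; exact h13
            _ ≤ T * X ^ (24975 / 100000 : ℝ) := by gcongr
        gcongr
      _ = 4 * (T ^ 5 * X ^ (24975 / 100000 : ℝ)) := by ring
      _ ≤ (T / 2) * (T ^ 5 * X ^ (24975 / 100000 : ℝ)) := by
        have : (4 : ℝ) ≤ T / 2 := by linarith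
        gcongr
      _ = (T ^ 6 * X ^ (24975 / 100000 : ℝ)) / 2 := by ring
      _ ≤ X ^ (1 / 3 : ℝ) / 2 := by
        have := LamSum_pow hX 6 (a := 24975 / 100000) (b := 1 / 3) (by norm_num)
        linarith
  -- b3
  have hs3 : ∑ n ∈ Ioc 0 m, b3 n ≤ X ^ (1 / 3 : ℝ) / 2 := by
    have h1 : ∑ n ∈ Ioc 0 m, b3 n ≤ T ^ 6 := by
      simp only [hb3]
      rw [sum_ite_eq' (Ioc 0 m) 1 (fun _ => T ^ 6)]
      split_ifs
      · exact le_refl _
      · positivity
    have h2 : T ^ 6 ≤ (T ^ 7 * X ^ (0 : ℝ)) / 2 := by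
      rw [Real.rpow_zero, mul_one]
      have h3 : T ^ 7 = T * T ^ 6 := by ring
      rw [h3]
      have h4 : 0 < T ^ 6 := by positivity
      nlinarith
    have h3 := LamSum_pow hX 7 (a := 0) (b := 1 / 3) (by norm_num)
    linarith
  -- b2
  have hs2 : ∑ n ∈ Ioc 0 m, b2 n ≤ (m : ℝ) * X ^ (-(8 / 10 ^ 5) : ℝ) / 2 := by
    have h1 : ∑ n ∈ Ioc 0 m, b2 n =
        (((Ioc 0 m).filter (fun n => ¬ n.Coprime u)).card : ℝ) * T ^ 6 := by
      simp only [hb2]
      rw [← sum_filter, sum_const, nsmul_eq_mul]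
    have h2 := LamSum_bad2 m u hu0 (X ^ (1 / 100 : ℝ)) (by positivity) huP
    have h3 : (u.divisors.card : ℝ) ≤ T := hB.tau u hu0 huM
    rw [h1]
    have h4 : (m : ℝ) / X ^ (1 / 100 : ℝ) = m * X ^ (-(1 / 100) : ℝ) := by
      rw [Real.rpow_neg hX0.le, div_eq_mul_inv]
    calc _ ≤ (u.divisors.card : ℝ) * (m / X ^ (1 / 100 : ℝ)) * T ^ 6 := by gcongr
      _ ≤ T * (m / X ^ (1 / 100 : ℝ)) * T ^ 6 := by gcongr
      _ = m * (T ^ 7 * X ^ (-(1 / 100) : ℝ)) := by rw [h4]; ring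
      _ ≤ m * ((T ^ 8 * X ^ (-(1 / 100) : ℝ)) / 2) := by
        apply mul_le_mul_of_nonneg_left _ hm0'
        have h5 : T ^ 8 * X ^ (-(1 / 100) : ℝ) = T * (T ^ 7 * X ^ (-(1 / 100) : ℝ)) := by ring
        rw [h5]
        have h6 : 0 < T ^ 7 * X ^ (-(1 / 100) : ℝ) := by positivity
        nlinarith
      _ ≤ m * (X ^ (-(8 / 10 ^ 5) : ℝ) / 2) := by
        have h5 := LamSum_pow hX 8 (a := -(1 / 100)) (b := -(8 / 10 ^ 5)) (by norm_num)
        gcongr
      _ = _ := by ring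
  -- err
  have hse : (m : ℝ) * (T ^ 3 * err) ≤ (m : ℝ) * X ^ (-(8 / 10 ^ 5) : ℝ) / 2 := by
    have h1 : ((m : ℝ) / y) ^ (1 / 4 : ℝ) ≤ 2 * X ^ (-(1 / 10000) : ℝ) := by
      have h2 : (m : ℝ) / y ≤ 16 * X ^ (-(4 / 10000) : ℝ) := by
        have hypos : 0 < X ^ (4999 / 10000 : ℝ) / 2 := by positivity
        calc (m : ℝ) / y ≤ (4 * X ^ (4995 / 10000 : ℝ)) / (X ^ (4999 / 10000 : ℝ) / 2) := by
              gcongr
          _ = 8 * (X ^ (4995 / 10000 : ℝ) / X ^ (4999 / 10000 : ℝ)) := by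
              field_simp
              ring
          _ = 8 * X ^ (-(4 / 10000) : ℝ) := by
              rw [← Real.rpow_sub hX0]
              norm_num
          _ ≤ 16 * X ^ (-(4 / 10000) : ℝ) := by
              have : 0 < X ^ (-(4 / 10000) : ℝ) := by positivity
              linarith
      calc ((m : ℝ) / y) ^ (1 / 4 : ℝ) ≤ (16 * X ^ (-(4 / 10000) : ℝ)) ^ (1 / 4 : ℝ) :=
            Real.rpow_le_rpow (by positivity) h2 (by norm_num)
        _ = 2 * X ^ (-(1 / 10000) : ℝ) := by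
            rw [Real.mul_rpow (by norm_num) (by positivity), ← Real.rpow_mul hX0.le]
            have h3 : (16 : ℝ) = 2 ^ (4 : ℝ) := by norm_num
            rw [h3, ← Real.rpow_mul (by norm_num)]
            norm_num
    have h2 : err ≤ T ^ 3 * (2 * X ^ (-(1 / 10000) : ℝ)) := by
      rw [herr]
      calc C₂ * T ^ 2 * ((m : ℝ) / y) ^ (1 / 4 : ℝ)
          ≤ T * T ^ 2 * (2 * X ^ (-(1 / 10000) : ℝ)) := by gcongr
        _ = _ := by ring
    calc (m : ℝ) * (T ^ 3 * err) ≤ m * (T ^ 3 * (T ^ 3 * (2 * X ^ (-(1 / 10000) : ℝ)))) := by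
          gcongr
      _ = m * (2 * (T ^ 6 * X ^ (-(1 / 10000) : ℝ))) := by ring
      _ ≤ m * ((T / 2) * (T ^ 6 * X ^ (-(1 / 10000) : ℝ))) := by
          have : (2 : ℝ) ≤ T / 2 := by linarith
          gcongr
      _ = m * ((T ^ 7 * X ^ (-(1 / 10000) : ℝ)) / 2) := by ring
      _ ≤ m * (X ^ (-(8 / 10 ^ 5) : ℝ) / 2) := by
          have h5 := LamSum_pow hX 7 (a := -(1 / 10000)) (b := -(8 / 10 ^ 5)) (by norm_num)
          gcongr
      _ = _ := by ring
  have hfin : (m : ℝ) * X ^ (-(8 / 10 ^ 5) : ℝ) ≤ ((N : ℝ) / u) * X ^ (-(8 / 10 ^ 5) : ℝ) := by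
    gcongr
  linarith

end Pool.Agent.Lib.MP_2a816b_nt.BH
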