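import Pool.Agent.Lib.MP_2a816b_nt.BH.CrossA

/-!
# JOB CrossB: the mean values cancel, and the terms with `I ≠ univ`

`mean_zero`: by `cross_expand` and `BN_mean`, for all `N`: `|∑_{n ≤ N} F_{Q1} F_{Q2} - N V| ≤ E` with `V = ∑_I (-1)^|I| ∏_{i ∉ I} L_i ∑_{u ∈ ∏_I} mu(u) / φ(u)` and `E` independent of `N`; and by `corr_sets_zero`
(`Q1 ∩ Q2 = ∅`, since the elements of `Q1` are `≤ X ^ (1/2)` and those of `Q2` are `≥ X ^ 0.5005`) `|∑_{n ≤ N} F_{Q1} F_{Q2}| ≤ E'` independent of `N`. So `|V| ≤ (E + E') / N` for all `N ≥ 1`, `V = 0`.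

`cross_main`: subtract `N V = 0` from `cross_expand`; for `I ≠ univ` use `BN_mean`: at most `64` sets `I`, `0 ≤ L_i ≤ 1`, `u / φ(u) ≤ T`, at most `T X ^ 0.4905` values `u` (`mem_prod_PS`; `exs I ≤ 0.4905`), so the total error is
`≤ 64 T (T X ^ 0.4905) 3 T ^ 4 X ^ (1/2 - ε + ε₄) ≤ X ^ 0.992`.
-/

set_option autoImplicit false

open Finset Real
open scoped Pointwise

namespace Pool.Agent.Lib.MP_2a816b_nt.BH

variable {X T C : ℝ}

private lemma crossb_zero (V B : ℝ) (h : ∀ N : ℕ, |(N : ℝ) * V| ≤ B) : V = 0 := by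
  by_contra hV
  have hV' : 0 < |V| := abs_pos.2 hV
  obtain ⟨N, hN⟩ := exists_nat_gt (B / |V|)
  rw [div_lt_iff₀ hV'] at hN
  have := h N
  rw [abs_mul, abs_of_nonneg (Nat.cast_nonneg N)] at this
  linarith

private lemma crossb_LL_nonneg (hX : 1 ≤ X) (i : Fin 6) : 0 ≤ LL (PS X i) := by
  unfold LL
  refine sum_nonneg fun p hp => ?_
  have h := (mem_PS hp hX).1.two_le
  have h2 : (2 : ℝ) ≤ (p : ℝ) := by exact_mod_cast h
  have : (0 : ℝ) < (p : ℝ) - 1 := by linarith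
  positivity

/-- the difference `sum - N V` -/
private lemma crossb_diff (hX : Lg X T C) (ε : ℝ) (N : ℕ) :
    ∑ n ∈ Ioc 0 N, FQ (Q1 X ε) n * FQ (Q2 X) n -
      (N : ℝ) * (∑ I ∈ (univ : Finset (Fin 6)).powerset, (-1) ^ I.card *
        (∏ i ∈ univ \ I, LL (PS X i)) * ∑ u ∈ ∏ i ∈ I, PS X i, mu X ε u / (u.totient : ℝ)) =
    ∑ I ∈ (univ : Finset (Fin 6)).powerset, (-1) ^ I.card * (∏ i ∈ univ \ I, LL (PS X i)) *
        ∑ u ∈ ∏ i ∈ I, PS X i, (u : ℝ) / (u.totient : ℝ) *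
          (BN X ε N u - (N : ℝ) / u * mu X ε u) := by
  rw [cross_expand hX ε N, mul_sum, ← sum_sub_distrib]
  refine sum_congr rfl fun I _ => ?_
  rw [show (N : ℝ) * ((-1) ^ I.card * (∏ i ∈ univ \ I, LL (PS X i)) *
      ∑ u ∈ ∏ i ∈ I, PS X i, mu X ε u / (u.totient : ℝ)) =
      (-1) ^ I.card * (∏ i ∈ univ \ I, LL (PS X i)) *
      ((N : ℝ) * ∑ u ∈ ∏ i ∈ I, PS X i, mu X ε u / (u.totient : ℝ)) by ring, ← mul_sub,
    mul_sum, ← sum_sub_distrib]
  congr 1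
  refine sum_congr rfl fun u hu => ?_
  have hu0 : (u : ℝ) ≠ 0 := by
    have := (mem_prod_PS hX I hu).1.ne_zero
    exact_mod_cast this
  rw [mul_sub]
  congr 1
  have e : (u : ℝ) / (u.totient : ℝ) * ((N : ℝ) / u * mu X ε u) =
      (N : ℝ) * (mu X ε u / (u.totient : ℝ)) * ((u : ℝ) / u) := by ring
  rw [e, div_self hu0, mul_one]

private lemma crossb_card (hX : Lg X T C) (I : Finset (Fin 6)) :
    ((∏ i ∈ I, PS X i).card : ℝ) ≤ T * X ^ exs I := by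
  have hT0 : 0 ≤ T := by linarith [hX.big.one]
  have h1 : ∏ i ∈ I, PS X i ⊆ Ioc 0 ⌊T * X ^ exs I⌋₊ := by
    intro m hm
    obtain ⟨h1, -, h3, -⟩ := mem_prod_PS hX I hm
    rw [mem_Ioc]
    exact ⟨Nat.pos_of_ne_zero h1.ne_zero, Nat.le_floor h3⟩
  have h2 := card_le_card h1
  rw [Nat.card_Ioc, Nat.sub_zero] at h2
  have h3 : ((∏ i ∈ I, PS X i).card : ℝ) ≤ (⌊T * X ^ exs I⌋₊ : ℝ) := by exact_mod_cast h2
  refine h3.trans (Nat.floor_le ?_)
  have : 0 < X := by linarith [hX.X1]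
  positivity

private lemma crossb_T_le (hX : Lg X T C) : T ≤ X := by
  rw [hX.hT]
  calc X ^ tau0 ≤ X ^ (1 : ℝ) := Real.rpow_le_rpow_of_exponent_le hX.X1 (by unfold tau0; norm_num)
    _ = X := Real.rpow_one X

private lemma crossb_exs_le (I : Finset (Fin 6)) : exs I ≤ 5005 / 10000 := by
  rw [← exs_univ]
  unfold exs
  apply sum_le_sum_of_subset_of_nonneg (subset_univ _)
  intro i _ _
  fin_cases i <;> simp [ex] <;> norm_num

private lemma crossb_exs_ne (I : Finset (Fin 6)) (hI : I ≠ univ) : exs I ≤ 4905 / 10000 := by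
  obtain ⟨i, hi⟩ : ∃ i, i ∉ I := by
    by_contra hc
    push Not at hc
    exact hI (eq_univ_iff_forall.2 hc)
  have h1 : exs I + ex i ≤ exs univ := by
    have : exs (insert i I) = ex i + exs I := by
      unfold exs
      rw [sum_insert hi]
    rw [add_comm, ← this, exs_univ]
    exact crossb_exs_le _
  have h2 : 1 / 100 ≤ ex i := by
    fin_cases i <;> simp [ex] <;> norm_num
  rw [exs_univ] at h1
  linarith

private lemma crossb_div_tot (hX : Lg X T C) (I : Finset (Fin 6)) {u : ℕ}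
    (hu : u ∈ ∏ i ∈ I, PS X i) : (u : ℝ) / (u.totient : ℝ) ≤ T := by
  obtain ⟨h1, -, h3, -⟩ := mem_prod_PS hX I hu
  apply div_totient_le hX.big h1
  apply Nat.le_floor
  have hX0 : 0 < X := by linarith [hX.X1]
  calc (u : ℝ) ≤ T * X ^ exs I := h3
    _ ≤ X * X ^ (1 : ℝ) := by
        apply mul_le_mul (crossb_T_le hX) _ (by positivity) hX0.le
        exact Real.rpow_le_rpow_of_exponent_le hX.X1 (by linarith [crossb_exs_le I])
    _ = X ^ (2 : ℝ) := by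
        rw [Real.rpow_one, show (2 : ℝ) = ((2 : ℕ) : ℝ) by norm_num, Real.rpow_natCast]
        ring
    _ ≤ X ^ (10 : ℝ) := Real.rpow_le_rpow_of_exponent_le hX.X1 (by norm_num)

/-- bound of the part of `I` -/
private lemma crossb_part (hX : Lg X T C) (ε : ℝ) (hε : 0 < ε) (hε1 : ε ≤ 1 / 100)
    (I : Finset (Fin 6)) (N : ℕ) :
    |∑ u ∈ ∏ i ∈ I, PS X i, (u : ℝ) / (u.totient : ℝ) * (BN X ε N u - (N : ℝ) / u * mu X ε u)| ≤
      (T * X ^ exs I) * (T * (3 * T ^ 4 * X ^ (1 / 2 - ε + eps4))) := by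
  have hT0 : 0 ≤ T := by linarith [hX.big.one]
  have hX0 : 0 < X := by linarith [hX.X1]
  refine (abs_sum_le_sum_abs _ _).trans ?_
  have h1 : ∀ u ∈ ∏ i ∈ I, PS X i,
      |(u : ℝ) / (u.totient : ℝ) * (BN X ε N u - (N : ℝ) / u * mu X ε u)| ≤
        T * (3 * T ^ 4 * X ^ (1 / 2 - ε + eps4)) := by
    intro u hu
    rw [abs_mul, abs_of_nonneg (by positivity : (0 : ℝ) ≤ (u : ℝ) / (u.totient : ℝ))]
    exact mul_le_mul (crossb_div_tot hX I hu) (BN_mean hX ε hε hε1 I u hu N) (abs_nonneg _) hT0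
  refine (sum_le_card_nsmul _ _ _ h1).trans ?_
  rw [nsmul_eq_mul]
  exact mul_le_mul_of_nonneg_right (crossb_card hX I) (by positivity)

theorem mean_zero (hX : Lg X T C) (ε : ℝ) (hε : 0 < ε) (hε1 : ε ≤ 1 / 100) :
    ∑ I ∈ (univ : Finset (Fin 6)).powerset, (-1) ^ I.card * (∏ i ∈ univ \ I, LL (PS X i)) *
      ∑ u ∈ ∏ i ∈ I, PS X i, mu X ε u / (u.totient : ℝ) = 0 := by
  have hX0 : 0 < X := by linarith [hX.X1]
  have hT0 : 0 ≤ T := by linarith [hX.big.one]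
  set V := ∑ I ∈ (univ : Finset (Fin 6)).powerset, (-1) ^ I.card *
    (∏ i ∈ univ \ I, LL (PS X i)) * ∑ u ∈ ∏ i ∈ I, PS X i, mu X ε u / (u.totient : ℝ) with hV
  set E : ℝ := ∑ I ∈ (univ : Finset (Fin 6)).powerset,
    |∏ i ∈ univ \ I, LL (PS X i)| * ((T * X ^ exs I) * (T * (3 * T ^ 4 * X ^ (1 / 2 - ε + eps4))))
    with hE
  set M : ℕ := ⌊X ^ (10 : ℝ)⌋₊ with hM
  have h1 : ∀ N : ℕ, |∑ n ∈ Ioc 0 N, FQ (Q1 X ε) n * FQ (Q2 X) n - (N : ℝ) * V| ≤ E := by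
    intro N
    rw [hV, crossb_diff hX ε N, hE]
    refine (abs_sum_le_sum_abs _ _).trans (sum_le_sum fun I _ => ?_)
    rw [abs_mul, abs_mul, abs_pow, abs_neg, abs_one, one_pow, one_mul]
    exact mul_le_mul_of_nonneg_left (crossb_part hX ε hε hε1 I N) (abs_nonneg _)
  have hQ1 : ∀ q ∈ Q1 X ε, Squarefree q ∧ q ≤ ⌊X ^ (1 / 2 - ε)⌋₊ := by
    intro q hq
    unfold Q1 at hq
    rw [mem_filter, mem_Ioc] at hq
    exact ⟨hq.2, hq.1.2⟩
  have hQ2 : ∀ q ∈ Q2 X, Squarefree q ∧ q ≤ ⌊X ^ (501 / 1000 : ℝ)⌋₊ := by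
    intro q hq
    obtain ⟨a, -, b⟩ := mem_Q2 hX hq
    exact ⟨a, Nat.le_floor b⟩
  have hdisj : Q1 X ε ∩ Q2 X = ∅ := by
    rw [← Finset.disjoint_iff_inter_eq_empty, Finset.disjoint_left]
    intro q h1 h2
    obtain ⟨-, b, -⟩ := mem_Q2 hX h2
    have a := (hQ1 q h1).2
    have a2 : (q : ℝ) ≤ X ^ (1 / 2 - ε) :=
      (by exact_mod_cast a : (q : ℝ) ≤ (⌊X ^ (1 / 2 - ε)⌋₊ : ℝ)).trans
        (Nat.floor_le (by positivity))
    have hX1 : 1 < X := by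
      by_contra hc
      have hX1' : X = 1 := le_antisymm (not_lt.1 hc) hX.X1
      have := hX.h10
      rw [hX.hT, hX1', Real.one_rpow] at this
      norm_num at this
    have c : X ^ (1 / 2 - ε) < X ^ (5005 / 10000 : ℝ) :=
      Real.rpow_lt_rpow_of_exponent_lt hX1 (by linarith)
    linarith
  have hM1 : ⌊X ^ (1 / 2 - ε)⌋₊ ≤ M :=
    Nat.floor_le_floor (Real.rpow_le_rpow_of_exponent_le hX.X1 (by linarith))
  have hM2 : ⌊X ^ (501 / 1000 : ℝ)⌋₊ ≤ M :=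
    Nat.floor_le_floor (Real.rpow_le_rpow_of_exponent_le hX.X1 (by norm_num))
  apply crossb_zero V (E + 2 * T ^ 4 * (⌊X ^ (1 / 2 - ε)⌋₊ * ⌊X ^ (501 / 1000 : ℝ)⌋₊))
  intro N
  have h2 := corr_sets_zero hX.big (Q1 X ε) (Q2 X) _ _ hQ1 hQ2 hM1 hM2 0 N
  rw [hdisj, sum_empty, mul_zero, sub_zero, zero_add] at h2
  have h3 := abs_le.1 (h1 N)
  have h4 := abs_le.1 h2
  rw [abs_le]
  constructor <;> linarith [h3.1, h3.2, h4.1, h4.2]

theorem cross_main (hX : Lg X T C) (hLL : ∀ i, LL (PS X i) ≤ 1) (ε : ℝ) (hε : 0 < ε)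
    (hε1 : ε ≤ 1 / 100) (N : ℕ) (hN : (N : ℝ) ≤ 4 * X) :
    |∑ n ∈ Ioc 0 N, FQ (Q1 X ε) n * FQ (Q2 X) n -
      ∑ u ∈ ∏ i, PS X i, (u : ℝ) / (u.totient : ℝ) * (BN X ε N u - (N : ℝ) / u * mu X ε u)| ≤
      X ^ (992 / 1000 : ℝ) := by
  have hX0 : 0 < X := by linarith [hX.X1]
  have hT0 : 0 ≤ T := by linarith [hX.big.one]
  have h1 := crossb_diff hX ε N
  rw [mean_zero hX ε hε hε1, mul_zero, sub_zero] at h1
  have hmem : (univ : Finset (Fin 6)) ∈ (univ : Finset (Fin 6)).powerset := mem_powerset_self _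
  rw [← add_sum_erase _ _ hmem] at h1
  have e1 : ((univ : Finset (Fin 6)).card) = 6 := by simp
  have e2 : (univ : Finset (Fin 6)) \ univ = ∅ := by simp
  rw [e1, e2, prod_empty, mul_one, show ((-1 : ℝ)) ^ 6 = 1 by norm_num, one_mul] at h1
  rw [h1, add_sub_cancel_left]
  refine (abs_sum_le_sum_abs _ _).trans ?_
  have h2 : ∀ I ∈ ((univ : Finset (Fin 6)).powerset).erase univ,
      |(-1) ^ I.card * (∏ i ∈ univ \ I, LL (PS X i)) *
        ∑ u ∈ ∏ i ∈ I, PS X i, (u : ℝ) / (u.totient : ℝ) *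
          (BN X ε N u - (N : ℝ) / u * mu X ε u)| ≤
      (T * X ^ (4905 / 10000 : ℝ)) * (T * (3 * T ^ 4 * X ^ (1 / 2 - ε + eps4))) := by
    intro I hI
    have hne := (mem_erase.1 hI).1
    rw [abs_mul, abs_mul, abs_pow, abs_neg, abs_one, one_pow, one_mul, abs_prod]
    have h3 : ∏ i ∈ univ \ I, |LL (PS X i)| ≤ 1 := by
      apply prod_le_one (fun i _ => abs_nonneg _)
      intro i _
      rw [abs_of_nonneg (crossb_LL_nonneg hX.X1 i)]
      exact hLL i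
    have h4 := crossb_part hX ε hε hε1 I N
    have h5 : (T * X ^ exs I) * (T * (3 * T ^ 4 * X ^ (1 / 2 - ε + eps4))) ≤
        (T * X ^ (4905 / 10000 : ℝ)) * (T * (3 * T ^ 4 * X ^ (1 / 2 - ε + eps4))) := by
      apply mul_le_mul_of_nonneg_right _ (by positivity)
      apply mul_le_mul_of_nonneg_left _ hT0
      exact Real.rpow_le_rpow_of_exponent_le hX.X1 (crossb_exs_ne I hne)
    calc _ ≤ 1 * |∑ u ∈ ∏ i ∈ I, PS X i, (u : ℝ) / (u.totient : ℝ) *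
          (BN X ε N u - (N : ℝ) / u * mu X ε u)| :=
          mul_le_mul_of_nonneg_right h3 (abs_nonneg _)
      _ ≤ _ := by
          rw [one_mul]
          exact h4.trans h5
  refine (sum_le_card_nsmul _ _ _ h2).trans ?_
  have hcard : (((univ : Finset (Fin 6)).powerset).erase univ).card ≤ 64 := by
    refine (card_erase_le).trans ?_
    rw [card_powerset]
    simp
  rw [nsmul_eq_mul]
  have hcr : ((((univ : Finset (Fin 6)).powerset).erase univ).card : ℝ) ≤ 64 := by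
    exact_mod_cast hcard
  calc _ ≤ 64 * ((T * X ^ (4905 / 10000 : ℝ)) * (T * (3 * T ^ 4 * X ^ (1 / 2 - ε + eps4)))) :=
        mul_le_mul_of_nonneg_right hcr (by positivity)
    _ = 192 * T ^ 6 * (X ^ (4905 / 10000 : ℝ) * X ^ (1 / 2 - ε + eps4)) := by ring
    _ ≤ T * T ^ 6 * (X ^ (4905 / 10000 : ℝ) * X ^ (1 / 2 - ε + eps4)) := by
        apply mul_le_mul_of_nonneg_right _ (by positivity)
        apply mul_le_mul_of_nonneg_right _ (by positivity)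
        have := hX.h10
        linarith [this, (by norm_num : (192 : ℝ) ≤ 10 ^ 10)]
    _ = X ^ (7 * tau0 + (4905 / 10000 + (1 / 2 - ε + eps4))) := by
        have e : T * T ^ 6 = X ^ (7 * tau0) := by
          rw [hX.hT, mul_comm (7 : ℝ) tau0, Real.rpow_mul hX0.le,
            show (7 : ℝ) = ((7 : ℕ) : ℝ) by norm_num, Real.rpow_natCast]
          ring
        rw [e, ← Real.rpow_add hX0, ← Real.rpow_add hX0]
    _ ≤ X ^ (992 / 1000 : ℝ) := by
        apply Real.rpow_le_rpow_of_exponent_le hX.X1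
        unfold tau0 eps4
        linarith

end Pool.Agent.Lib.MP_2a816b_nt.BH
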