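import Pool.Agent.Lib.MP_2a816b_nt.BH.Diag

/-!
# JOB Gain: the gain on the diagonal

Let `P = ∏ LL (PS X i) ∈ [c ^ 6, 1]` (`LL_ge`, `LL_le`), `S = SR X ≥ ε₄ log X / 2` (`sum_RS_ge`), `S₁ = ∑_{Q1} 1/φ`, `K = 300 ^ 12`, `λ = (3/5) P / K`, `g = F_{Q1} + λ F_{Q2}`.
By `vM_diag` (twice, `Qm ≤ X ^ 0.501`), `sum_Q2`, `q1_sq`, `cross_shift`, `q2_sq`, with `Ψ = ∑_{(A, A+N]} vM n ≥ (1 - τ) N`:
`2 ∑ vM g - ∑ g ^ 2 ≥ 2 (S₁ + λ S P) Ψ - [S₁ N + 0.8 λ S P N + λ ^ 2 K S N] - (errors O(X ^ (1 - ε / 2)))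
 ≥ N [S₁ (1 - 2 τ) + S (P ^ 2 / K) (0.6 (2 (1 - τ) - 0.8) - 0.36)] - errors ≥ N [S₁ (1 - 2 τ) + 0.3 S P ^ 2 / K] - errors` for `τ ≤ 1 / 20`.
`S₁ (1 - 2 τ) ≥ (1/2 - 2 ε) log X - C₆ - τ log X - ...` (`sum_Q1_ge`, `sum_Q1_le`). So with `c_g = 0.3 (ε₄ / 2) c ^ 12 / K`, `ε = min(c_g / 20, 10^-4)`, `τ = c_g / 20` and `X` large the result is `≥ N log X (1/2 + c_g / 2) ≥ (1/2 + c_g/4) X log X`, as
`N ≥ X - X ^ (1/10)`. Here `δ = c_g / 4`.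
-/

set_option autoImplicit false

open Finset Real
open scoped Pointwise

namespace Pool.Agent.Lib.MP_2a816b_nt.BH

/-- the test function -/
noncomputable def gt (X ε lam : ℝ) (n : ℤ) : ℝ := FQ (Q1 X ε) n + lam * FQ (Q2 X) n

private lemma gain_alg {N S1 S P Ψ V1 V2 G11 G12 G22 e E1 E2 E3 K τ : ℝ} (hN : 0 ≤ N)
    (hS1 : 0 ≤ S1) (hS : 0 ≤ S) (hP : 0 ≤ P) (hP1 : P ≤ 1) (hK : 1 ≤ K) (hτ : τ ≤ 1 / 20)
    (he : 0 ≤ e) (hE2 : 0 ≤ E2) (hE3 : 0 ≤ E3) (hΨ : (1 - τ) * N ≤ Ψ)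
    (h1 : |V1 - S1 * Ψ| ≤ e) (h2 : |V2 - (S * P) * Ψ| ≤ e) (h3 : |G11 - S1 * N| ≤ E1)
    (h4 : G12 ≤ 4 / 10 * (S * P) * N + E2) (h5 : G22 ≤ K * (S * N + E3)) :
    N * (S1 * (1 - 2 * τ) + 3 / 10 * (S * P ^ 2 / K)) - (4 * e + E1 + 2 * E2 + K * E3) ≤
      2 * (V1 + (3 / 5 * P / K) * V2) -
        (G11 + 2 * (3 / 5 * P / K) * G12 + (3 / 5 * P / K) ^ 2 * G22) := by
  have hK0 : 0 < K := by linarith
  set lam : ℝ := 3 / 5 * P / K with hlam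
  have hl0 : 0 ≤ lam := by positivity
  have hl1 : lam ≤ 1 := by
    rw [hlam, div_le_one hK0]; linarith
  have a1 : S1 * Ψ - e ≤ V1 := by have := (abs_le.1 h1).1; linarith
  have a2 : (S * P) * Ψ - e ≤ V2 := by have := (abs_le.1 h2).1; linarith
  have a3 : G11 ≤ S1 * N + E1 := by have := (abs_le.1 h3).2; linarith
  have b1 : S1 * ((1 - τ) * N) ≤ S1 * Ψ := mul_le_mul_of_nonneg_left hΨ hS1
  have hSP : 0 ≤ S * P := by positivity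
  have b2 : (S * P) * ((1 - τ) * N) ≤ (S * P) * Ψ := mul_le_mul_of_nonneg_left hΨ hSP
  have c1 : lam * ((S * P) * ((1 - τ) * N) - e) ≤ lam * V2 :=
    mul_le_mul_of_nonneg_left (by linarith) hl0
  have c2 : lam * G12 ≤ lam * (4 / 10 * (S * P) * N + E2) := mul_le_mul_of_nonneg_left h4 hl0
  have c3 : lam ^ 2 * G22 ≤ lam ^ 2 * (K * (S * N + E3)) :=
    mul_le_mul_of_nonneg_left h5 (by positivity)
  have d1 : lam * e ≤ e := by nlinarith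
  have d2 : lam * E2 ≤ E2 := by nlinarith
  have d3 : lam ^ 2 * (K * E3) ≤ K * E3 := by
    have : lam ^ 2 ≤ 1 := by nlinarith
    have : 0 ≤ K * E3 := by positivity
    nlinarith
  have key : lam * ((S * P) * ((1 - τ) * N)) * 2 - 2 * (lam * (4 / 10 * (S * P) * N)) -
      lam ^ 2 * (K * (S * N)) = (N * (S * P ^ 2 / K)) * (36 / 100 - 12 / 10 * τ) := by
    rw [hlam]; field_simp; ring
  have e1 : 0 ≤ N * (S * P ^ 2 / K) := by positivity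
  have key2 : (N * (S * P ^ 2 / K)) * (3 / 10) ≤ (N * (S * P ^ 2 / K)) * (36 / 100 - 12 / 10 * τ) :=
    mul_le_mul_of_nonneg_left (by linarith) e1
  have f1 : 2 * (V1 + lam * V2) - (G11 + 2 * lam * G12 + lam ^ 2 * G22) =
      2 * V1 + 2 * (lam * V2) - G11 - 2 * (lam * G12) - lam ^ 2 * G22 := by ring
  have f2 : lam * ((S * P) * ((1 - τ) * N) - e) = lam * ((S * P) * ((1 - τ) * N)) - lam * e := by ring
  have f3 : lam * (4 / 10 * (S * P) * N + E2) = lam * (4 / 10 * (S * P) * N) + lam * E2 := by ring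
  have f4 : lam ^ 2 * (K * (S * N + E3)) = lam ^ 2 * (K * (S * N)) + lam ^ 2 * (K * E3) := by ring
  have f5 : N * (S1 * (1 - 2 * τ) + 3 / 10 * (S * P ^ 2 / K)) =
      2 * (S1 * ((1 - τ) * N)) - S1 * N + (N * (S * P ^ 2 / K)) * (3 / 10) := by ring
  rw [f2] at c1
  rw [f3] at c2
  rw [f4] at c3
  rw [f1, f5]
  linarith

private lemma gain_num1 {x : ℝ} (h0 : 0 ≤ x) (h1 : x ≤ 1) :
    1 / 2 + x / 4 + x / 10 ≤ (1 - x / 10) * (1 / 2 + 8 / 10 * x) := by nlinarith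

private lemma gain_num2 {x : ℝ} (h0 : 0 ≤ x) (h1 : x ≤ 1) : 3 / 10 * (1 / 10 ^ 6 / 2) * x ≤ 1 := by
  nlinarith

private lemma gain_num3 {X x N : ℝ} (hX : 0 ≤ X) (h1 : x ≤ 1) (h : X * (1 - x / 10) ≤ N) :
    X / 2 ≤ N := by nlinarith

private lemma gain_num4 {a b : ℝ} (h0 : 0 ≤ a) (h1 : 0 ≤ b) (h2 : b ≤ 1) :
    2 * b * a ≤ 2 * a := by nlinarith

private lemma gain_absorb {X T C : ℝ} (hX : Lg X T C) (k : ℕ) {a b : ℝ}
    (h : a + ((k : ℝ) + 1) * tau0 ≤ b) : 10 ^ 10 * T ^ k * X ^ a ≤ X ^ b := by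
  have hX0 : 0 < X := by linarith [hX.X1]
  have hT0 : (0 : ℝ) ≤ T := by linarith [hX.h10]
  have hTk : T ^ (k + 1) = X ^ (((k : ℝ) + 1) * tau0) := by
    rw [hX.hT, ← Real.rpow_natCast, ← Real.rpow_mul hX0.le, mul_comm]; push_cast; rfl
  calc 10 ^ 10 * T ^ k * X ^ a ≤ T * T ^ k * X ^ a := by
        have := hX.h10
        gcongr
    _ = T ^ (k + 1) * X ^ a := by ring
    _ = X ^ (((k : ℝ) + 1) * tau0) * X ^ a := by rw [hTk]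
    _ = X ^ (((k : ℝ) + 1) * tau0 + a) := by rw [Real.rpow_add hX0]
    _ ≤ X ^ b := Real.rpow_le_rpow_of_exponent_le hX.X1 (by linarith)

theorem gain : ∃ (δ ε τ : ℝ), 0 < δ ∧ 0 < ε ∧ ε ≤ 1 / 10 ^ 4 ∧ 0 < τ ∧ τ ≤ 1 ∧ ∃ X₀ : ℝ,
    ∀ X : ℝ, X₀ ≤ X → ∃ lam : ℝ, 0 ≤ lam ∧ lam ≤ 1 ∧ ∀ A N : ℕ, (A : ℝ) ≤ X ^ (1 / 10 : ℝ) →
      X - X ^ (1 / 10 : ℝ) ≤ (N : ℝ) → ((A + N : ℕ) : ℝ) ≤ 2 * X →
      (1 - τ) * N ≤ ∑ n ∈ Ioc A (A + N), vM n →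
      (1 / 2 + δ) * (X * Real.log X) ≤
        2 * ∑ n ∈ Ioc A (A + N), vM n * gt X ε lam n - ∑ n ∈ Ioc A (A + N), gt X ε lam n ^ 2 := by
  obtain ⟨c, hc, Xc, hXc⟩ := LL_ge
  obtain ⟨Xu, hXu⟩ := LL_le
  obtain ⟨C₅, hC₅⟩ := cross_shift
  obtain ⟨C₆, hC₆⟩ := sum_Q1_ge
  obtain ⟨C₇, hC₇⟩ := sum_Q1_le
  obtain ⟨Xl, hXl⟩ := ev_Lg C₅
  obtain ⟨c0, hc0⟩ : ∃ c0 : ℝ, c0 = min c 1 := ⟨_, rfl⟩
  have hc0p : 0 < c0 := by rw [hc0]; exact lt_min hc one_pos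
  have hc01 : c0 ≤ 1 := by rw [hc0]; exact min_le_right _ _
  have hc0c : c0 ≤ c := by rw [hc0]; exact min_le_left _ _
  obtain ⟨K, hK⟩ : ∃ K : ℝ, K = 300 ^ 12 := ⟨_, rfl⟩
  have hK1 : 1 ≤ K := by rw [hK]; norm_num
  have hK0 : 0 < K := by linarith
  have heps : eps4 = 1 / 10 ^ 6 := rfl
  obtain ⟨cg, hcg⟩ : ∃ cg : ℝ, cg = 3 / 10 * (eps4 / 2) * c0 ^ 12 / K := ⟨_, rfl⟩
  have hcgp : 0 < cg := by rw [hcg, heps]; positivity
  have hcg1 : cg ≤ 1 := by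
    rw [hcg, div_le_one hK0]
    have : c0 ^ 12 ≤ 1 := pow_le_one₀ hc0p.le hc01
    have h0 : 0 ≤ c0 ^ 12 := by positivity
    rw [heps]
    exact (gain_num2 h0 this).trans hK1
  obtain ⟨ε, hε⟩ : ∃ ε : ℝ, ε = min (cg / 20) (1 / 10 ^ 5) := ⟨_, rfl⟩
  have hεp : 0 < ε := by rw [hε]; apply lt_min <;> positivity
  have hε5 : ε ≤ 1 / 10 ^ 5 := by rw [hε]; exact min_le_right _ _
  have hεc : ε ≤ cg / 20 := by rw [hε]; exact min_le_left _ _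
  have hε4 : ε ≤ 1 / 10 ^ 4 := hε5.trans (by norm_num)
  obtain ⟨τ, hτ⟩ : ∃ τ : ℝ, τ = cg / 20 := ⟨_, rfl⟩
  have hτp : 0 < τ := by rw [hτ]; positivity
  have hτ20 : τ ≤ 1 / 20 := by rw [hτ]; linarith
  obtain ⟨Xe, hXe⟩ := ev_Le ε hεp (hε4.trans (by norm_num))
  obtain ⟨X6, hX6⟩ := hC₆ ε hεp hε4
  obtain ⟨X7, hX7⟩ := hC₇ ε hεp hε4
  -- eventually conditions
  have ev1 : ∀ᶠ X : ℝ in Filter.atTop, (4 + K) * X ^ (-ε) ≤ cg / 10 := by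
    have h1 : Filter.Tendsto (fun X : ℝ => (4 + K) * X ^ (-ε)) Filter.atTop (nhds ((4 + K) * 0)) :=
      (tendsto_rpow_neg_atTop hεp).const_mul _
    rw [mul_zero] at h1
    exact h1.eventually_le_const (by positivity)
  have ev2 : ∀ᶠ X : ℝ in Filter.atTop, X ^ (-(9 / 10 : ℝ)) ≤ cg / 10 := by
    have h1 : Filter.Tendsto (fun X : ℝ => X ^ (-(9 / 10 : ℝ))) Filter.atTop (nhds 0) :=
      tendsto_rpow_neg_atTop (by norm_num)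
    exact h1.eventually_le_const (by positivity)
  have ev3 : ∀ᶠ X : ℝ in Filter.atTop, 20 / cg * (|C₆| + 2 * |C₇|) + 1 ≤ Real.log X :=
    Real.tendsto_log_atTop.eventually_ge_atTop _
  have evall := (((ev1.and ev2).and ev3).and (((Filter.eventually_ge_atTop Xc).and
    (Filter.eventually_ge_atTop Xu)).and ((Filter.eventually_ge_atTop Xl).and
    (Filter.eventually_ge_atTop Xe)))).and (((Filter.eventually_ge_atTop X6).and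
    (Filter.eventually_ge_atTop X7)).and (Filter.eventually_ge_atTop (1 : ℝ)))
  obtain ⟨X₀, hX₀⟩ := Filter.eventually_atTop.1 evall
  refine ⟨cg / 4, ε, τ, by positivity, hεp, hε4, hτp, by linarith, X₀, ?_⟩
  intro X hXX
  obtain ⟨⟨⟨⟨q1, q2⟩, q3⟩, ⟨⟨q4, q5⟩, ⟨q6, q7⟩⟩⟩, ⟨⟨q8, q9⟩, q10⟩⟩ := hX₀ X hXX
  have hLg := hXl X q6
  have hLe := hXe X q7
  have hLLc := hXc X q4
  have hLL := hXu X q5
  have hQ1ge := hX6 X q8
  have hQ1le := hX7 X q9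
  have hX0 : 0 < X := by linarith
  obtain ⟨T, hT⟩ : ∃ T : ℝ, T = X ^ tau0 := ⟨_, rfl⟩
  rw [← hT] at hLg
  obtain ⟨P, hP⟩ : ∃ P : ℝ, P = ∏ i, LL (PS X i) := ⟨_, rfl⟩
  have hPc : c0 ^ 6 ≤ P := by
    rw [hP]
    calc c0 ^ 6 = ∏ _i : Fin 6, c0 := by simp
      _ ≤ ∏ i, LL (PS X i) := prod_le_prod (fun _ _ => hc0p.le) (fun i _ => hc0c.trans (hLLc i))
  have hP0 : 0 ≤ P := (by positivity : (0 : ℝ) ≤ c0 ^ 6).trans hPc
  have hP1 : P ≤ 1 := by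
    rw [hP]
    calc ∏ i, LL (PS X i) ≤ ∏ _i : Fin 6, (1 : ℝ) :=
          prod_le_prod (fun i _ => hc.le.trans (hLLc i)) (fun i _ => hLL i)
      _ = 1 := by simp
  have hlog1 : 1 ≤ Real.log X := by
    have : 0 ≤ 20 / cg * (|C₆| + 2 * |C₇|) := by positivity
    linarith
  have hS0 : eps4 * Real.log X / 2 ≤ SR X := sum_RS_ge hLg
  have hSnn : 0 ≤ SR X := by
    refine le_trans ?_ hS0
    rw [heps]; positivity
  obtain ⟨lam, hlam⟩ : ∃ lam : ℝ, lam = 3 / 5 * P / K := ⟨_, rfl⟩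
  have hlam0 : 0 ≤ lam := by
    rw [hlam]; exact div_nonneg (mul_nonneg (by norm_num) hP0) hK0.le
  have hlam1 : lam ≤ 1 := by rw [hlam, div_le_one hK0]; linarith
  refine ⟨lam, hlam0, hlam1, ?_⟩
  intro A N hA hN hAN hΨ
  have hx10 : X ^ (1 / 10 : ℝ) = X * X ^ (-(9 / 10 : ℝ)) := by
    conv_rhs => rw [← Real.rpow_one X]
    rw [← Real.rpow_mul hX0.le, ← Real.rpow_add hX0]; norm_num
  have hNX : X * (1 - cg / 10) ≤ N := by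
    rw [hx10] at hN
    have := mul_le_mul_of_nonneg_left q2 hX0.le
    linarith
  have hN2 : X / 2 ≤ (N : ℝ) := gain_num3 hX0.le hcg1 hNX
  have hN0 : (0 : ℝ) ≤ N := Nat.cast_nonneg N
  obtain ⟨S1, hS1⟩ : ∃ S1 : ℝ, S1 = ∑ q ∈ Q1 X ε, 1 / (q.totient : ℝ) := ⟨_, rfl⟩
  have hS1nn : 0 ≤ S1 := by rw [hS1]; exact sum_nonneg fun q _ => by positivity
  rw [← hS1] at hQ1ge hQ1le
  have h2X10 : 2 * X ≤ X ^ (10 : ℝ) := by
    have h1 := gain_absorb hLg 0 (a := 1) (b := 10) (by unfold tau0; norm_num)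
    rw [Real.rpow_one, pow_zero, mul_one] at h1
    linarith
  have hM : A + N ≤ ⌊X ^ (10 : ℝ)⌋₊ := Nat.le_floor (hAN.trans h2X10)
  have hQm : ⌊X ^ (501 / 1000 : ℝ)⌋₊ ≤ ⌊X ^ (10 : ℝ)⌋₊ :=
    Nat.floor_le_floor (Real.rpow_le_rpow_of_exponent_le q10 (by norm_num))
  have d1 := vM_diag hLg.big (Q1 X ε) ⌊X ^ (501 / 1000 : ℝ)⌋₊ hQm (by
    intro q hq
    unfold Q1 at hq
    rw [mem_filter, mem_Ioc] at hq
    refine ⟨hq.2, hq.1.2.trans (Nat.floor_le_floor (Real.rpow_le_rpow_of_exponent_le q10 ?_))⟩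
    linarith) A N hM
  have d2 := vM_diag hLg.big (Q2 X) ⌊X ^ (501 / 1000 : ℝ)⌋₊ hQm (by
    intro q hq
    obtain ⟨e1, e2, e3⟩ := mem_Q2 hLg hq
    exact ⟨e1, Nat.le_floor e3⟩) A N hM
  rw [sum_Q2 hLg] at d2
  have d3 := q1_sq ε hεp hε4 hLe A N
  have d4 := hC₅ X T hLg hLL ε hεp hε4 A N hA hN2 (hAN.trans (by linarith))
  have d5 := q2_sq hLg hLL A N (hAN.trans (by linarith))
  rw [← hK] at d5
  rw [← hS1] at d1 d3
  rw [← hP] at d2 d4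
  -- the error of the first two
  have herr : 2 * T ^ 5 * ((⌊X ^ (501 / 1000 : ℝ)⌋₊ : ℝ) + √((A + N : ℕ) : ℝ)) ≤ 1 / 4 * X ^ (1 - ε) := by
    have hT0 : 0 ≤ T := by rw [hT]; positivity
    have e1 : (⌊X ^ (501 / 1000 : ℝ)⌋₊ : ℝ) ≤ X ^ (501 / 1000 : ℝ) := Nat.floor_le (by positivity)
    have e2 : √((A + N : ℕ) : ℝ) ≤ 2 * X ^ (501 / 1000 : ℝ) := by
      calc √((A + N : ℕ) : ℝ) ≤ √(4 * X) := Real.sqrt_le_sqrt (by linarith)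
        _ = 2 * √X := by
            rw [Real.sqrt_mul (by norm_num)]
            congr 1
            rw [show (4 : ℝ) = 2 ^ 2 by norm_num, Real.sqrt_sq (by norm_num)]
        _ = 2 * X ^ (1 / 2 : ℝ) := by rw [Real.sqrt_eq_rpow]
        _ ≤ 2 * X ^ (501 / 1000 : ℝ) := by
            have := Real.rpow_le_rpow_of_exponent_le q10 (by norm_num : (1 / 2 : ℝ) ≤ 501 / 1000)
            linarith
    have e3 : 10 ^ 10 * T ^ 5 * X ^ (501 / 1000 : ℝ) ≤ X ^ (1 - ε) :=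
      gain_absorb hLg 5 (by unfold tau0; norm_num; linarith)
    have e4 : 2 * T ^ 5 * ((⌊X ^ (501 / 1000 : ℝ)⌋₊ : ℝ) + √((A + N : ℕ) : ℝ)) ≤
        2 * T ^ 5 * (3 * X ^ (501 / 1000 : ℝ)) := by
      apply mul_le_mul_of_nonneg_left _ (by positivity)
      linarith
    have e5 : 0 ≤ T ^ 5 * X ^ (501 / 1000 : ℝ) := by positivity
    rw [mul_assoc] at e3
    have e6 : 2 * T ^ 5 * (3 * X ^ (501 / 1000 : ℝ)) = 6 * (T ^ 5 * X ^ (501 / 1000 : ℝ)) := by ring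
    rw [e6] at e4
    linarith only [e3, e4, e5]
  have f1 : ∑ n ∈ Ioc A (A + N), vM n * gt X ε lam n =
      ∑ n ∈ Ioc A (A + N), vM n * FQ (Q1 X ε) n + lam * ∑ n ∈ Ioc A (A + N), vM n * FQ (Q2 X) n := by
    rw [mul_sum, ← sum_add_distrib]
    apply sum_congr rfl; intro n _
    unfold gt; ring
  have f2 : ∑ n ∈ Ioc A (A + N), gt X ε lam n ^ 2 =
      ∑ n ∈ Ioc A (A + N), FQ (Q1 X ε) n ^ 2 +
        2 * lam * ∑ n ∈ Ioc A (A + N), FQ (Q1 X ε) n * FQ (Q2 X) n +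
        lam ^ 2 * ∑ n ∈ Ioc A (A + N), FQ (Q2 X) n ^ 2 := by
    rw [mul_sum, mul_sum, ← sum_add_distrib, ← sum_add_distrib]
    apply sum_congr rfl; intro n _
    unfold gt; ring
  have g1 := gain_alg (N := N) (S1 := S1) (S := SR X) (P := P)
    (Ψ := ∑ n ∈ Ioc A (A + N), vM n)
    (V1 := ∑ n ∈ Ioc A (A + N), vM n * FQ (Q1 X ε) n)
    (V2 := ∑ n ∈ Ioc A (A + N), vM n * FQ (Q2 X) n)
    (G11 := ∑ n ∈ Ioc A (A + N), FQ (Q1 X ε) n ^ 2)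
    (G12 := ∑ n ∈ Ioc A (A + N), FQ (Q1 X ε) n * FQ (Q2 X) n)
    (G22 := ∑ n ∈ Ioc A (A + N), FQ (Q2 X) n ^ 2)
    (e := 1 / 4 * X ^ (1 - ε)) (E1 := X ^ (1 - ε)) (E2 := X ^ (1 - 6 / 10 ^ 5 : ℝ))
    (E3 := X ^ (1 / 100 : ℝ)) (K := K) (τ := τ) hN0 hS1nn hSnn hP0 hP1 hK1 hτ20
    (by positivity) (by positivity) (by positivity) hΨ (d1.trans herr) (d2.trans herr) d3 d4 d5
  rw [← hlam] at g1
  rw [f1, f2]
  refine le_trans ?_ g1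
  -- errors
  have hXε : X ^ (1 - ε) = X * X ^ (-ε) := by
    conv_rhs => rw [← Real.rpow_one X]
    rw [← Real.rpow_mul hX0.le, ← Real.rpow_add hX0]; congr 1; ring
  have r1 : X ^ (1 - 6 / 10 ^ 5 : ℝ) ≤ X ^ (1 - ε) :=
    Real.rpow_le_rpow_of_exponent_le q10 (by
      have : (1 : ℝ) / 10 ^ 5 ≤ 6 / 10 ^ 5 := by norm_num
      linarith)
  have r2 : X ^ (1 / 100 : ℝ) ≤ X ^ (1 - ε) :=
    Real.rpow_le_rpow_of_exponent_le q10 (by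
      have : (1 : ℝ) / 10 ^ 5 ≤ 1 / 10 := by norm_num
      linarith)
  have hE : 4 * (1 / 4 * X ^ (1 - ε)) + X ^ (1 - ε) + 2 * X ^ (1 - 6 / 10 ^ 5 : ℝ) +
      K * X ^ (1 / 100 : ℝ) ≤ cg / 10 * (X * Real.log X) := by
    have s1 : K * X ^ (1 / 100 : ℝ) ≤ K * X ^ (1 - ε) := mul_le_mul_of_nonneg_left r2 hK0.le
    have s2 : 4 * (1 / 4 * X ^ (1 - ε)) + X ^ (1 - ε) + 2 * X ^ (1 - 6 / 10 ^ 5 : ℝ) +
      K * X ^ (1 / 100 : ℝ) ≤ (4 + K) * X ^ (1 - ε) := by linarith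
    have s3 : (4 + K) * X ^ (1 - ε) ≤ X * (cg / 10) := by
      rw [hXε]
      have := mul_le_mul_of_nonneg_left q1 hX0.le
      linarith
    have s4 : X * (cg / 10) ≤ cg / 10 * (X * Real.log X) := by
      have : X ≤ X * Real.log X := le_mul_of_one_le_right hX0.le hlog1
      rw [mul_comm X (cg / 10)]
      exact mul_le_mul_of_nonneg_left this (by positivity)
    linarith
  -- main term
  have hSP : cg * Real.log X ≤ 3 / 10 * (SR X * P ^ 2 / K) := by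
    have t1 : c0 ^ 12 ≤ P ^ 2 := by
      calc c0 ^ 12 = (c0 ^ 6) ^ 2 := by ring
        _ ≤ P ^ 2 := pow_le_pow_left₀ (by positivity) hPc 2
    have t2 : (eps4 * Real.log X / 2) * c0 ^ 12 ≤ SR X * P ^ 2 :=
      mul_le_mul hS0 t1 (by positivity) hSnn
    calc cg * Real.log X = 3 / 10 * ((eps4 * Real.log X / 2) * c0 ^ 12 / K) := by rw [hcg]; ring
      _ ≤ 3 / 10 * (SR X * P ^ 2 / K) := by gcongr
  have hS1b : (1 / 2 - 2 * ε - τ) * Real.log X - |C₆| - 2 * |C₇| ≤ S1 * (1 - 2 * τ) := by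
    have t1 : C₆ ≤ |C₆| := le_abs_self _
    have t2 : C₇ ≤ |C₇| := le_abs_self _
    have t3 : 2 * τ * S1 ≤ 2 * τ * (1 / 2 * Real.log X + C₇) :=
      mul_le_mul_of_nonneg_left hQ1le (by positivity)
    have t4 : 2 * τ * C₇ ≤ 2 * |C₇| := by
      have : 2 * τ * C₇ ≤ 2 * τ * |C₇| := mul_le_mul_of_nonneg_left t2 (by positivity)
      have : 2 * τ * |C₇| ≤ 2 * |C₇| := gain_num4 (abs_nonneg C₇) hτp.le (by linarith)
      linarith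
    linarith
  have hC' : |C₆| + 2 * |C₇| ≤ cg / 20 * Real.log X := by
    have h1 : 20 / cg * (|C₆| + 2 * |C₇|) ≤ Real.log X := by linarith
    have h2 := mul_le_mul_of_nonneg_left h1 (by positivity : 0 ≤ cg / 20)
    have h3 : cg / 20 * (20 / cg * (|C₆| + 2 * |C₇|)) = |C₆| + 2 * |C₇| := by
      field_simp
    linarith
  have hbr : (1 / 2 + 8 / 10 * cg) * Real.log X ≤ S1 * (1 - 2 * τ) + 3 / 10 * (SR X * P ^ 2 / K) := by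
    have t0 : 2 * ε + τ ≤ 3 / 20 * cg := by rw [hτ]; linarith
    have t1 : (2 * ε + τ) * Real.log X ≤ 3 / 20 * cg * Real.log X :=
      mul_le_mul_of_nonneg_right t0 (by linarith)
    linarith
  have hbr0 : 0 ≤ (1 / 2 + 8 / 10 * cg) * Real.log X := by
    have : 0 ≤ Real.log X := by linarith
    positivity
  have hmain : X * (1 - cg / 10) * ((1 / 2 + 8 / 10 * cg) * Real.log X) ≤
      N * (S1 * (1 - 2 * τ) + 3 / 10 * (SR X * P ^ 2 / K)) :=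
    mul_le_mul hNX hbr hbr0 hN0
  have hXL : 0 ≤ X * Real.log X := mul_nonneg hX0.le (by linarith)
  have hfin : (1 / 2 + cg / 4 + cg / 10) * (X * Real.log X) ≤
      X * (1 - cg / 10) * ((1 / 2 + 8 / 10 * cg) * Real.log X) := by
    have : X * (1 - cg / 10) * ((1 / 2 + 8 / 10 * cg) * Real.log X) =
        ((1 - cg / 10) * (1 / 2 + 8 / 10 * cg)) * (X * Real.log X) := by ring
    rw [this]
    exact mul_le_mul_of_nonneg_right (gain_num1 hcgp.le hcg1) hXL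
  linarith

end Pool.Agent.Lib.MP_2a816b_nt.BH
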