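import Pool.Agent.Lib.MP_2a816b_nt.BH.WPow

/-!
# JOB WCount: Artin-Schreier curve and hyperelliptic curve

`∑_{lam ∈ ZMod p} KF(lam a, lam b) = p #{x ∈ F, x ≠ 0, Tr(a x + b / x) = 0}` (orthogonality of the additive character,
`AddChar.sum_eq_zero_of_ne_one` etc., the trace is linear). `Tr z = 0` iff `z = y ^ p - y` for some `y ∈ F`, and then
for exactly `p` values `y` (the map `y ↦ y ^ p - y` is `ZMod p`-linear with kernel `ZMod p` (roots of `X ^ p - X`), its
image has codimension `1` and is contained in the kernel of the trace, which has codimension `1`; `Tr (y ^ p) = Tr y`: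
`Algebra.trace` and Frobenius, e.g. `FiniteField.algebraMap_trace_eq_sum_pow`).
So the sum is the number of pairs `(x, y)`, `x ≠ 0`, with `a x + b / x = y ^ p - y`, that is,
`a x ^ 2 - (y ^ p - y) x + b = 0` (`x = 0` is not a root as `b ≠ 0`). For given `y` the number of `x` is
`1 + χ((y ^ p - y) ^ 2 - 4 a b)` (`a ≠ 0`, `char ≠ 2`; complete the square, `quadraticChar_card_sqrts`).
Sum over `y`: `card F + cs F f`. The term `lam = 0` is `KF(0, 0) = card F - 1`.
-/

set_option autoImplicit false

namespace BHWeil

open Polynomial Finset MPadc574G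

noncomputable section

/-- the polynomial `(X ^ p - X) ^ 2 - c` -/
def fas (F : Type*) [Field F] (p : ℕ) (c : F) : F[X] := (X ^ p - X) ^ 2 - C c

/-- the Artin-Schreier map -/
def asMap (p : ℕ) [Fact p.Prime] (F : Type*) [Field F] [Algebra (ZMod p) F] :
    F →ₗ[ZMod p] F where
  toFun y := y ^ p - y
  map_add' := by
    intro x y
    haveI : CharP F p := charP_of_injective_algebraMap (algebraMap (ZMod p) F).injective p
    rw [add_pow_char x y]; ring
  map_smul' := by
    intro c x
    simp only [_root_.smul_pow, ZMod.pow_card, smul_sub, RingHom.id_apply]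

theorem asMap_apply {p : ℕ} [Fact p.Prime] {F : Type*} [Field F] [Algebra (ZMod p) F] (y : F) :
    asMap p F y = y ^ p - y := rfl

theorem trace_asMap {p : ℕ} [Fact p.Prime] {F : Type*} [Field F] [Fintype F]
    [Algebra (ZMod p) F] (y : F) : Algebra.trace (ZMod p) F (asMap p F y) = 0 := by
  haveI : CharP F p := charP_of_injective_algebraMap (algebraMap (ZMod p) F).injective p
  rw [asMap_apply, map_sub, sub_eq_zero]
  apply (algebraMap (ZMod p) F).injective
  have h1 := FiniteField.algebraMap_trace_eq_sum_pow (ZMod p) F (y ^ p)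
  have h2 := FiniteField.algebraMap_trace_eq_sum_pow (ZMod p) F y
  have h3 : (algebraMap (ZMod p) F) (Algebra.trace (ZMod p) F (y ^ p)) =
      ((algebraMap (ZMod p) F) (Algebra.trace (ZMod p) F y)) ^ p := by
    rw [h1, h2, sum_pow_char]
    refine Finset.sum_congr rfl (fun i _ => ?_)
    rw [← pow_mul, ← pow_mul, mul_comm]
  rw [h3, ← map_pow, ZMod.pow_card]

theorem card_ker_asMap {p : ℕ} [Fact p.Prime] {F : Type*} [Field F] [Fintype F] [DecidableEq F]
    [Algebra (ZMod p) F] : ((univ : Finset F).filter (fun y => asMap p F y = 0)).card = p := by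
  haveI : CharP F p := charP_of_injective_algebraMap (algebraMap (ZMod p) F).injective p
  have h := Subfield.card_bot F p
  have h2 : (((univ : Finset F).filter (fun y => asMap p F y = 0)) : Set F) =
      ((⊥ : Subfield F) : Set F) := by
    ext x
    simp only [Finset.coe_filter, Finset.mem_univ, true_and, Set.mem_setOf_eq, SetLike.mem_coe]
    rw [Subfield.mem_bot_iff_pow_eq_self F p, asMap_apply, sub_eq_zero]
  rw [← Set.ncard_coe_finset, h2]
  exact h

theorem exists_asMap {p : ℕ} [Fact p.Prime] {F : Type*} [Field F] [Fintype F] [DecidableEq F]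
    [Algebra (ZMod p) F] (z : F) (hz : Algebra.trace (ZMod p) F z = 0) : ∃ y, asMap p F y = z := by
  haveI : CharP F p := charP_of_injective_algebraMap (algebraMap (ZMod p) F).injective p
  haveI : Module.Finite (ZMod p) F := Module.Finite.of_finite
  have hle : LinearMap.range (asMap p F) ≤ LinearMap.ker (Algebra.trace (ZMod p) F) := by
    rintro _ ⟨y, rfl⟩
    exact trace_asMap y
  have h1 := LinearMap.finrank_range_add_finrank_ker (asMap p F)
  have h2 := LinearMap.finrank_range_add_finrank_ker (Algebra.trace (ZMod p) F)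
  have h3 : LinearMap.range (Algebra.trace (ZMod p) F) = ⊤ :=
    LinearMap.range_eq_top.2 (Algebra.trace_surjective (ZMod p) F)
  rw [h3, finrank_top, Module.finrank_self] at h2
  have h4 : Module.finrank (ZMod p) (LinearMap.ker (asMap p F)) = 1 := by
    haveI : Fintype (LinearMap.ker (asMap p F)) :=
      Fintype.ofFinite _
    have h5 := Module.card_eq_pow_finrank (K := ZMod p) (V := LinearMap.ker (asMap p F))
    have h6 : Fintype.card (LinearMap.ker (asMap p F)) = p := by
      rw [← Nat.card_eq_fintype_card, Nat.subtype_card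
        ((univ : Finset F).filter (fun y => asMap p F y = 0)) (fun x => by simp)]
      exact card_ker_asMap
    rw [h6, ZMod.card] at h5
    have hp := (Fact.out : p.Prime).two_le
    have h7 : p ^ 1 = p ^ Module.finrank (ZMod p) (LinearMap.ker (asMap p F)) := by
      rw [pow_one]; exact h5
    exact (Nat.pow_right_injective hp h7).symm
  have h8 : LinearMap.range (asMap p F) = LinearMap.ker (Algebra.trace (ZMod p) F) :=
    Submodule.eq_of_le_of_finrank_eq hle (by omega)
  have h9 : z ∈ LinearMap.range (asMap p F) := by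
    rw [h8]; exact hz
  exact h9

theorem card_asMap {p : ℕ} [Fact p.Prime] {F : Type*} [Field F] [Fintype F] [DecidableEq F]
    [Algebra (ZMod p) F] (z : F) : ((univ : Finset F).filter (fun y => z = y ^ p - y)).card =
      if Algebra.trace (ZMod p) F z = 0 then p else 0 := by
  split_ifs with hz
  · obtain ⟨y₀, hy₀⟩ := exists_asMap z hz
    refine Eq.trans ?_ (card_ker_asMap (p := p) (F := F))
    symm
    apply Finset.card_bij (fun y _ => y + y₀)
    · intro y hy
      simp only [Finset.mem_filter, Finset.mem_univ, true_and] at hy ⊢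
      rw [← asMap_apply, map_add, hy, zero_add, hy₀]
    · intro y _ y' _ h
      exact add_right_cancel h
    · intro y hy
      simp only [Finset.mem_filter, Finset.mem_univ, true_and] at hy
      refine ⟨y - y₀, ?_, by ring⟩
      simp only [Finset.mem_filter, Finset.mem_univ, true_and]
      rw [map_sub, hy₀, asMap_apply, hy, sub_self]
  · rw [Finset.card_eq_zero, Finset.filter_eq_empty_iff]
    intro y _ hy
    apply hz
    rw [hy, ← asMap_apply, trace_asMap]

/-- number of roots of the quadratic polynomial -/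
theorem card_quad {F : Type*} [Field F] [Fintype F] [DecidableEq F] (hF : ringChar F ≠ 2)
    (A B u : F) (hA : A ≠ 0) :
    (((univ : Finset F).filter (fun x => A * x ^ 2 - u * x + B = 0)).card : ℤ) =
      quadraticChar F (u ^ 2 - 4 * A * B) + 1 := by
  have h2 : (2 : F) ≠ 0 := Ring.two_ne_zero hF
  rw [← quadraticChar_card_sqrts hF]
  congr 1
  apply Finset.card_bij (fun x _ => 2 * A * x - u)
  · intro x hx
    simp only [Finset.mem_filter, Finset.mem_univ, true_and] at hx
    simp only [Set.mem_toFinset, Set.mem_setOf_eq]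
    linear_combination 4 * A * hx
  · intro x _ x' _ h
    have h3 : (2 * A) * x = (2 * A) * x' := by linear_combination h
    exact mul_left_cancel₀ (mul_ne_zero h2 hA) h3
  · intro t ht
    simp only [Set.mem_toFinset, Set.mem_setOf_eq] at ht
    refine ⟨(t + u) / (2 * A), ?_, ?_⟩
    · simp only [Finset.mem_filter, Finset.mem_univ, true_and]
      field_simp
      linear_combination ht
    · field_simp
      ring

theorem card_pairs {p : ℕ} [Fact p.Prime] (hp2 : p ≠ 2) {F : Type*} [Field F] [Fintype F]
    [DecidableEq F] [Algebra (ZMod p) F] (A B : F) (hA : A ≠ 0) (hB : B ≠ 0) :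
    ∑ x ∈ (univ : Finset F).filter (fun x => x ≠ 0),
      (if Algebra.trace (ZMod p) F (A * x + B * x⁻¹) = 0 then (p : ℤ) else 0) =
      (Fintype.card F : ℤ) + cs F (fas F p (4 * A * B)) := by
  haveI : CharP F p := charP_of_injective_algebraMap (algebraMap (ZMod p) F).injective p
  have hF : ringChar F ≠ 2 := by
    rw [ringChar.eq F p]; exact hp2
  have h1 : ∀ x : F, (if Algebra.trace (ZMod p) F (A * x + B * x⁻¹) = 0 then (p : ℤ) else 0) =
      ∑ y : F, if A * x + B * x⁻¹ = y ^ p - y then (1 : ℤ) else 0 := by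
    intro x
    rw [Finset.sum_ite, Finset.sum_const_zero, add_zero, Finset.sum_const, card_asMap]
    split_ifs <;> simp
  rw [Finset.sum_congr rfl (fun x _ => h1 x), Finset.sum_comm]
  have h2 : ∀ y : F, ∑ x ∈ (univ : Finset F).filter (fun x => x ≠ 0),
      (if A * x + B * x⁻¹ = y ^ p - y then (1 : ℤ) else 0) =
      quadraticChar F ((y ^ p - y) ^ 2 - 4 * A * B) + 1 := by
    intro y
    rw [← card_quad hF A B (y ^ p - y) hA, ← Finset.sum_filter, Finset.filter_filter,
      Finset.sum_const, nsmul_eq_mul, mul_one]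
    congr 2
    apply Finset.filter_congr
    intro x _
    constructor
    · rintro ⟨hx, h⟩
      rw [← h]
      field_simp
      ring
    · intro h
      have hx : x ≠ 0 := by
        rintro rfl
        apply hB
        linear_combination h
      refine ⟨hx, ?_⟩
      field_simp
      linear_combination h
  rw [Finset.sum_congr rfl (fun y _ => h2 y), Finset.sum_add_distrib, Finset.sum_const,
    nsmul_eq_mul, mul_one, add_comm, cs, Finset.card_univ]
  congr 1
  refine Finset.sum_congr rfl (fun y _ => ?_)
  simp [fas]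

theorem sum_KF {p : ℕ} [Fact p.Prime] (hp2 : p ≠ 2) {F : Type*} [Field F] [Fintype F]
    [DecidableEq F] [Algebra (ZMod p) F] (a b : ZMod p) (ha : a ≠ 0) (hb : b ≠ 0) :
    ∑ lam ∈ (univ : Finset (ZMod p)).filter (fun lam => lam ≠ 0), KF p F (lam * a) (lam * b) =
      1 + (cs F (fas F p (algebraMap (ZMod p) F (4 * a * b))) : ℂ) := by
  set A : F := algebraMap (ZMod p) F a with hAdef
  set B : F := algebraMap (ZMod p) F b with hBdef
  have hA : A ≠ 0 := by
    rw [hAdef]; exact (_root_.map_ne_zero _).2 ha
  have hB : B ≠ 0 := by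
    rw [hBdef]; exact (_root_.map_ne_zero _).2 hb
  have h4 : algebraMap (ZMod p) F (4 * a * b) = 4 * A * B := by
    rw [map_mul, map_mul, map_ofNat]
  rw [h4]
  unfold KF
  rw [Finset.sum_comm]
  have h1 : ∀ x : F, ∑ lam ∈ (univ : Finset (ZMod p)).filter (fun lam => lam ≠ 0),
      (ZMod.stdAddChar (Algebra.trace (ZMod p) F (algebraMap (ZMod p) F (lam * a) * x +
      algebraMap (ZMod p) F (lam * b) * x⁻¹)) : ℂ) =
      (((if Algebra.trace (ZMod p) F (A * x + B * x⁻¹) = 0 then (p : ℤ) else 0) : ℤ) : ℂ) - 1 := by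
    intro x
    have h2 : ∀ lam : ZMod p, Algebra.trace (ZMod p) F (algebraMap (ZMod p) F (lam * a) * x +
      algebraMap (ZMod p) F (lam * b) * x⁻¹) = lam * Algebra.trace (ZMod p) F (A * x + B * x⁻¹) := by
      intro lam
      have h6 : algebraMap (ZMod p) F (lam * a) * x + algebraMap (ZMod p) F (lam * b) * x⁻¹ =
          lam • (A * x + B * x⁻¹) := by
        rw [map_mul, map_mul, Algebra.smul_def]
        ring
      rw [h6, map_smul, smul_eq_mul]
    have h3 := AddChar.sum_mulShift (Algebra.trace (ZMod p) F (A * x + B * x⁻¹))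
      (ZMod.isPrimitive_stdAddChar p)
    have h5 : ∑ lam : ZMod p, (ZMod.stdAddChar (lam * Algebra.trace (ZMod p) F (A * x + B * x⁻¹)) : ℂ)
        = 1 + ∑ lam ∈ (univ : Finset (ZMod p)).filter (fun lam => lam ≠ 0),
          (ZMod.stdAddChar (lam * Algebra.trace (ZMod p) F (A * x + B * x⁻¹)) : ℂ) := by
      rw [Finset.filter_ne', Finset.sum_erase_eq_sub (Finset.mem_univ _)]
      simp
    rw [Finset.sum_congr rfl (fun lam _ => by rw [h2 lam])]
    rw [h5, ZMod.card] at h3
    rw [eq_sub_iff_add_eq, add_comm, h3]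
    split_ifs <;> simp
  rw [Finset.sum_congr rfl (fun x _ => h1 x), Finset.sum_sub_distrib, ← Int.cast_sum,
    card_pairs hp2 A B hA hB]
  rw [Finset.sum_const, Finset.filter_ne', Finset.card_erase_of_mem (Finset.mem_univ _),
    Finset.card_univ, nsmul_eq_mul, mul_one, Nat.cast_sub Fintype.card_pos]
  push_cast
  ring

end

end BHWeil
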