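import Pool.Agent.Lib.MP_2a816b_nt.BH.WBom

/-!
# JOB WRoot: moving a root to infinity

Let `f` have even degree `2 m`, `m ≥ 1`, and let `y₀` be a simple root of `f`. Put
`g = (f.comp (X + C y₀)).reverse`-like polynomial `g(s) = s ^ (2 m) f(y₀ + 1 / s)`: with `f(y₀ + T) = ∑_{i=1}^{2m} c_i T ^ i`
one has `g = ∑_{i=1}^{2 m} c_i X ^ (2 m - i)`, so `g` has degree `2 m - 1` exactly (`c_1 = f'(y₀) ≠ 0`) and
`g(0) = c_{2m}`. For `s ≠ 0`: `χ(f(y₀ + 1 / s)) = χ(s ^ (2 m)) χ(f(y₀ + 1/s)) = χ(g(s))`. Hence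
`cs F f = ∑_{y ≠ y₀} χ(f(y)) = ∑_{s ≠ 0} χ(g(s)) = cs F g - χ(g(0))`, and `|χ| ≤ 1`. Apply `bombieri` to `g` with
`2 m - 1 = 2 g' + 1`, `g' = m - 1`.
-/

set_option autoImplicit false

namespace BHWeil

open Polynomial Finset MPadc574G

theorem cs_even {F : Type*} [Field F] [Fintype F] [DecidableEq F] {p k m : ℕ} [Fact p.Prime]
    [CharP F p] (hp2 : p ≠ 2) (hF : Fintype.card F = (p ^ k) ^ 2) (hm : 1 ≤ m)
    (hk : 2 * (m * (m + 1)) + 1 ≤ p ^ k) (f : F[X]) (hf : f.natDegree = 2 * m) (y₀ : F)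
    (h0 : f.eval y₀ = 0) (h1 : f.derivative.eval y₀ ≠ 0) :
    |cs F f| ≤ (2 * m : ℕ) * (p ^ k : ℕ) := by
  set h : F[X] := f.comp (X + C y₀) with hh
  have hdeg : h.natDegree = 2 * m := by
    rw [hh, natDegree_comp, hf, natDegree_X_add_C, mul_one]
  have hev : ∀ t, h.eval t = f.eval (t + y₀) := by
    intro t
    rw [hh, eval_comp, eval_add, eval_X, eval_C]
  have hc0 : h.coeff 0 = 0 := by
    rw [coeff_zero_eq_eval_zero, hev, zero_add, h0]
  have hc1 : h.coeff 1 ≠ 0 := by
    have e : h.derivative.eval 0 = f.derivative.eval y₀ := by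
      rw [hh, derivative_comp, eval_mul, eval_comp]
      simp
    have e2 : h.derivative.coeff 0 = h.coeff 1 := by
      rw [coeff_derivative]
      simp
    rw [← e2, coeff_zero_eq_eval_zero, e]
    exact h1
  have hne : h ≠ 0 := by
    intro e
    rw [e] at hc1
    simp at hc1
  have htr : h.natTrailingDegree = 1 := by
    apply le_antisymm
    · exact natTrailingDegree_le_of_ne_zero hc1
    · rw [Nat.one_le_iff_ne_zero, Ne, natTrailingDegree_eq_zero]
      push Not
      exact ⟨hne, hc0⟩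
  set g : F[X] := h.reverse with hg
  have hgdeg : g.natDegree = 2 * (m - 1) + 1 := by
    rw [hg, reverse_natDegree, hdeg, htr]
    omega
  have hge : ∀ s : F, s ≠ 0 → quadraticChar F (h.eval s⁻¹) = quadraticChar F (g.eval s) := by
    intro s hs
    let : Invertible s⁻¹ := invertibleOfNonzero (inv_ne_zero hs)
    have e := eval₂_reverse_mul_pow (RingHom.id F) s⁻¹ h
    rw [invOf_eq_inv, inv_inv, hdeg, ← hg] at e
    have e' : g.eval s * (s⁻¹) ^ (2 * m) = h.eval s⁻¹ := e
    rw [← e', map_mul, map_pow, pow_mul, quadraticChar_sq_one (inv_ne_zero hs), one_pow, mul_one]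
  have hsum : cs F f = cs F g - quadraticChar F (g.eval 0) := by
    have e1 : cs F f = ∑ t : F, quadraticChar F (h.eval t) := by
      unfold cs
      refine (Fintype.sum_equiv (Equiv.addRight y₀) _ _ fun t => ?_).symm
      rw [hev]
      rfl
    have e2 : ∑ t : F, quadraticChar F (h.eval t)
        = ∑ t ∈ univ.erase (0 : F), quadraticChar F (h.eval t) := by
      rw [← Finset.add_sum_erase univ (fun t => quadraticChar F (h.eval t)) (mem_univ (0 : F))]
      rw [← coeff_zero_eq_eval_zero, hc0]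
      simp
    have e3 : ∑ t ∈ univ.erase (0 : F), quadraticChar F (h.eval t)
        = ∑ s ∈ univ.erase (0 : F), quadraticChar F (g.eval s) := by
      refine Finset.sum_nbij' (fun t => t⁻¹) (fun s => s⁻¹) ?_ ?_ ?_ ?_ ?_
      · intro t ht
        simpa using ht
      · intro t ht
        simpa using ht
      · intro t _
        exact inv_inv t
      · intro t _
        exact inv_inv t
      · intro t ht
        have ht0 : t ≠ 0 := (Finset.mem_erase.1 ht).1
        rw [← hge t⁻¹ (inv_ne_zero ht0), inv_inv]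
    rw [e1, e2, e3]
    unfold cs
    rw [← Finset.add_sum_erase univ (fun t => quadraticChar F (g.eval t)) (mem_univ (0 : F))]
    ring
  have hb := bombieri (g := m - 1) hp2 hF (by
    obtain ⟨m', rfl⟩ := Nat.exists_eq_add_of_le hm
    have e : 1 + m' - 1 = m' := by omega
    rw [e]
    refine le_trans (le_of_eq ?_) hk
    ring) g hgdeg
  have hχ : |quadraticChar F (g.eval 0)| ≤ 1 := by
    by_cases hz : g.eval 0 = 0
    · rw [hz]
      simp
    · rcases quadraticChar_dichotomy hz with e | e <;> rw [e] <;> simp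
  have hpk : (1 : ℤ) ≤ (p ^ k : ℕ) := by
    have : 1 ≤ p ^ k := le_trans (by omega) hk
    exact_mod_cast this
  have hcast : ((2 * (m - 1) + 1 : ℕ) : ℤ) = ((2 * m : ℕ) : ℤ) - 1 := by
    have : 2 * (m - 1) + 1 = 2 * m - 1 := by omega
    rw [this, Nat.cast_sub (by omega)]
    simp
  rw [hsum]
  rw [hcast] at hb
  calc |cs F g - quadraticChar F (g.eval 0)| ≤ |cs F g| + |quadraticChar F (g.eval 0)| := abs_sub _ _
    _ ≤ (((2 * m : ℕ) : ℤ) - 1) * (p ^ k : ℕ) + 1 := add_le_add hb hχ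
    _ ≤ (2 * m : ℕ) * (p ^ k : ℕ) := by nlinarith

end BHWeil
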