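import Pool.Agent.Lib.MP_adc574_ag_G2.Root
import Pool.Agent.Lib.MP_2a816b_nt.BH.WCount
import Pool.Agent.Lib.MP_2a816b_nt.BH.WRoot

/-!
# JOB Weil: the Weil bound for Kloosterman sums

Compare `MPadc574G.weil` (`Pool/Agent/Lib/MP_adc574_ag_G2/Weil.lean`).

`weil_prim`: let `p ≠ 2`, `a, b ≠ 0`. For every `lam ≠ 0` let `α_lam` be the two roots from `exists_roots (lam a) (lam b)`.
Let `E` be a splitting field of `f = fas _ p (4 a b)` over `ZMod p` (a finite field), `card E = p ^ m`, `m ≥ 1`.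
For `k ≥ 1` let `F = GaloisField p (2 m k)` (as in `MPadc574G.weil`: `Fintype`, `card F = p ^ (2 m k) = (p ^ (m k)) ^ 2`).
`f` has a root `y₀` in `F`, since `E` embeds in `F` (`m ∣ 2 m k`; `FiniteField.nonempty_algHom_of_finrank_dvd`,
`GaloisField`, or: all roots of `f` in an algebraic closure satisfy `y ^ (p ^ m) = y`), it is simple: the derivative is
`2 (X ^ p - X) (- 1)` and `(y₀ ^ p - y₀) ^ 2 = 4 a b ≠ 0`. `natDegree f = 2 p`. So by `sum_KF` and `cs_even` (`m := p`):
`‖∑_{lam ≠ 0} ∑_i (α_lam i) ^ (2 m k)‖ = ‖1 + cs F f‖ ≤ 1 + 2 p p ^ (m k) ≤ (2 p + 1) (p ^ m) ^ k` for all `k` with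
`2 p (p + 1) + 1 ≤ p ^ (m k)`. `MPadc574G.root_bound` for the family `β_(lam, i) = (α_lam i) ^ (2 m)` (re-indexed by `Fin`)
and `ρ = p ^ m` gives `‖α_lam i‖ ^ (2 m) ≤ p ^ m`, so `‖α_lam i‖ ≤ √p`. With `lam = 1`, `j = 1`, `F = ZMod p`
(trace = identity): `‖KF p (ZMod p) a b‖ ≤ 2 √p`.

`kloosterman_bound`: all primes, `a ≠ 0`: for `p = 2` the sum has one term; for `b = 0` the sum over `x ≠ 0` of
`ψ(a x⁻¹)` is `-1`; otherwise it is `KF p (ZMod p) b a` (the roles: `a` is the coefficient of `x⁻¹`).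
-/

set_option autoImplicit false

namespace BHWeil

open Polynomial Finset MPadc574G

/-- the degree of `fas` -/
private lemma natDegree_fas {F : Type*} [Field F] {p : ℕ} (hp : 1 < p) (c : F) :
    (fas F p c).natDegree = 2 * p := by
  unfold fas
  rw [natDegree_sub_C, natDegree_pow]
  congr 1
  rw [natDegree_sub_eq_left_of_natDegree_lt]
  · simp
  · simpa using hp

private lemma map_fas {F K : Type*} [Field F] [Field K] {p : ℕ} (φ : F →+* K) (c : F) :
    (fas F p c).map φ = fas K p (φ c) := by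
  unfold fas
  simp

private lemma derivative_fas {F : Type*} [Field F] {p : ℕ} [CharP F p] (c : F) :
    derivative (fas F p c) = -(2 * (X ^ p - X)) := by
  unfold fas
  have hp : (p : F[X]) = 0 := by
    rw [← C_eq_natCast, CharP.cast_eq_zero F p, C_0]
  have h1 : derivative (X ^ p - X : F[X]) = -1 := by
    rw [derivative_sub, derivative_X_pow, derivative_X, CharP.cast_eq_zero F p]
    simp
  rw [derivative_sub, derivative_C, sub_zero, derivative_pow, h1]
  have h2 : (C ((2 : ℕ) : F) : F[X]) = 2 := by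
    rw [C_eq_natCast]; norm_num
  rw [h2]
  ring

private lemma exists_root_fas {p : ℕ} [Fact p.Prime] (c : ZMod p) :
    ∃ m : ℕ, 1 ≤ m ∧ ∀ (F : Type) [Field F] [Fintype F] [Algebra (ZMod p) F] (k : ℕ),
      Fintype.card F = p ^ (m * k) → ∃ y₀ : F, (fas F p (algebraMap (ZMod p) F c)).eval y₀ = 0 := by
  classical
  have hp1 : 1 < p := (Fact.out : p.Prime).one_lt
  set f := fas (ZMod p) p c with hf
  let E := f.SplittingField
  have hfd : FiniteDimensional (ZMod p) E := inferInstance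
  have hE : Finite E := Module.finite_of_finite (ZMod p)
  refine ⟨Module.finrank (ZMod p) E, Module.finrank_pos, ?_⟩
  intro F _ _ _ k hcard
  have hdeg : f.degree ≠ 0 := by
    intro h
    have := natDegree_eq_of_degree_eq_some (n := 0) h
    rw [hf, natDegree_fas hp1] at this
    omega
  obtain ⟨y, hy⟩ := (Polynomial.SplittingField.splits f).exists_eval_eq_zero
    (by rwa [degree_map])
  have hfr : Module.finrank (ZMod p) F = Module.finrank (ZMod p) E * k := by
    have h1 := Module.card_eq_pow_finrank (K := ZMod p) (V := F)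
    rw [ZMod.card, hcard] at h1
    exact (Nat.pow_right_injective hp1 h1).symm
  obtain ⟨φ⟩ := FiniteField.nonempty_algHom_of_finrank_dvd (F := ZMod p) (K := E) (L := F)
    (by rw [hfr]; exact dvd_mul_right _ _)
  refine ⟨φ y, ?_⟩
  rw [← map_fas, ← hf, eval_map_algebraMap]
  rw [eval_map_algebraMap] at hy
  rw [Polynomial.aeval_algHom_apply, hy, map_zero]

theorem weil_prim {p : ℕ} [Fact p.Prime] (hp2 : p ≠ 2) (a b : ZMod p) (ha : a ≠ 0) (hb : b ≠ 0) :
    ‖KF p (ZMod p) a b‖ ≤ 2 * √p := by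
  classical
  have hp0 : 0 < p := (Fact.out : p.Prime).pos
  have hp1 : 1 < p := (Fact.out : p.Prime).one_lt
  have h2 : (2 : ZMod p) ≠ 0 := by
    intro h
    have h' : ((2 : ℕ) : ZMod p) = 0 := by exact_mod_cast h
    rw [ZMod.natCast_eq_zero_iff] at h'
    exact hp2 ((Nat.prime_dvd_prime_iff_eq Fact.out Nat.prime_two).1 h')
  have h4 : (4 : ZMod p) ≠ 0 := by
    have : (4 : ZMod p) = 2 * 2 := by norm_num
    rw [this]; exact mul_ne_zero h2 h2
  have hc : 4 * a * b ≠ 0 := mul_ne_zero (mul_ne_zero h4 ha) hb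
  obtain ⟨m, hm, hroot⟩ := exists_root_fas (4 * a * b)
  have hα : ∀ lam : ZMod p, ∃ α : Fin 2 → ℂ, lam ≠ 0 → ∀ (j : ℕ), 0 < j →
      ∀ (F : Type) [Field F] [Fintype F] [DecidableEq F] [Algebra (ZMod p) F],
        Fintype.card F = p ^ j → KF p F (lam * a) (lam * b) = -∑ i, α i ^ j := by
    intro lam
    by_cases h : lam = 0
    · exact ⟨fun _ => 0, fun h' => absurd h h'⟩
    · obtain ⟨α, hα⟩ := exists_roots (lam * a) (lam * b) (mul_ne_zero h ha)
      exact ⟨α, fun _ => hα⟩
  choose α hα using hα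
  -- the index type
  let ι := {lam : ZMod p // lam ≠ 0} × Fin 2
  let e : ι ≃ Fin (Fintype.card ι) := Fintype.equivFin ι
  let β : Fin (Fintype.card ι) → ℂ := fun t => (α (e.symm t).1 (e.symm t).2) ^ (2 * m)
  have hsum : ∀ k : ℕ, ∑ t, β t ^ k =
      ∑ lam ∈ (univ : Finset (ZMod p)).filter (fun lam => lam ≠ 0), ∑ i, α lam i ^ (2 * m * k) := by
    intro k
    rw [Finset.sum_filter, ← Finset.sum_filter, Finset.sum_subtype (p := fun lam => lam ≠ 0)
      ((univ : Finset (ZMod p)).filter (fun lam => lam ≠ 0)) (by simp)]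
    rw [← Fintype.sum_prod_type' (f := fun (lam : {lam : ZMod p // lam ≠ 0}) (i : Fin 2) =>
      α lam i ^ (2 * m * k))]
    rw [← Equiv.sum_comp e]
    apply Finset.sum_congr rfl
    intro x _
    simp only [β, Equiv.symm_apply_apply, pow_mul]
  have hbound : ∀ k, 2 * (p * (p + 1)) + 1 ≤ k → ‖∑ t, β t ^ k‖ ≤
      (2 * p + 1 : ℝ) * ((p : ℝ) ^ m) ^ k := by
    intro k hk
    let F := GaloisField p (2 * m * k)
    have hFin : Finite F := inferInstance
    let _ : Fintype F := Fintype.ofFinite F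
    have hcard : Fintype.card F = p ^ (2 * m * k) := by
      rw [← Nat.card_eq_fintype_card]
      refine GaloisField.card p (2 * m * k) ?_
      have : 0 < k := by omega
      positivity
    obtain ⟨y₀, hy₀⟩ := hroot F (2 * k) (by rw [hcard]; congr 1; ring)
    have hchF : CharP F p := inferInstance
    set c : F := algebraMap (ZMod p) F (4 * a * b) with hcdef
    have hc0 : c ≠ 0 := by
      rw [hcdef]
      exact (_root_.map_ne_zero _).2 hc
    have h2F : (2 : F) ≠ 0 := by
      have : algebraMap (ZMod p) F 2 ≠ 0 := (_root_.map_ne_zero _).2 h2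
      rwa [map_ofNat] at this
    have hder : (fas F p c).derivative.eval y₀ ≠ 0 := by
      rw [derivative_fas]
      simp only [eval_neg, eval_mul, eval_sub, eval_pow, eval_X, eval_ofNat]
      rw [neg_ne_zero]
      refine mul_ne_zero h2F ?_
      intro h
      apply hc0
      have := hy₀
      unfold fas at this
      simp only [eval_sub, eval_pow, eval_X, eval_C, h] at this
      simpa using this
    have hkp : 2 * (p * (p + 1)) + 1 ≤ p ^ (m * k) := by
      calc 2 * (p * (p + 1)) + 1 ≤ k := hk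
        _ ≤ m * k := Nat.le_mul_of_pos_left k hm
        _ ≤ p ^ (m * k) := (Nat.lt_pow_self hp1).le
    have h5 := cs_even (F := F) (p := p) (k := m * k) (m := p) hp2
      (by rw [hcard, ← pow_mul]; congr 1; ring) hp0 hkp (fas F p c) (natDegree_fas hp1 c) y₀
      hy₀ hder
    have h6 := sum_KF (F := F) hp2 a b ha hb
    have hkpos : 0 < 2 * m * k := by
      have : 0 < k := by omega
      positivity
    have h7 : ∑ t, β t ^ k = -(1 + (cs F (fas F p c) : ℂ)) := by
      rw [hsum, ← h6, ← Finset.sum_neg_distrib]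
      apply Finset.sum_congr rfl
      intro lam hlam
      rw [hα lam (Finset.mem_filter.1 hlam).2 (2 * m * k) hkpos F hcard, neg_neg]
    rw [h7, norm_neg]
    have h8 : ‖(cs F (fas F p c) : ℂ)‖ ≤ (2 * p : ℝ) * (p : ℝ) ^ (m * k) := by
      rw [Complex.norm_intCast]
      exact_mod_cast h5
    have h9 : (1 : ℝ) ≤ (p : ℝ) ^ (m * k) := one_le_pow₀ (by exact_mod_cast hp0)
    calc ‖1 + (cs F (fas F p c) : ℂ)‖ ≤ ‖(1 : ℂ)‖ + ‖(cs F (fas F p c) : ℂ)‖ := norm_add_le _ _
      _ ≤ (p : ℝ) ^ (m * k) + (2 * p : ℝ) * (p : ℝ) ^ (m * k) := by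
          rw [norm_one]; exact add_le_add h9 h8
      _ = (2 * p + 1 : ℝ) * ((p : ℝ) ^ m) ^ k := by rw [← pow_mul]; ring
  have hroots : ∀ lam : ZMod p, lam ≠ 0 → ∀ i, ‖α lam i‖ ≤ √p := by
    intro lam hlam i
    have h := root_bound β (C := 2 * p + 1) (ρ := (p : ℝ) ^ m) (by positivity) _ hbound
      (e (⟨lam, hlam⟩, i))
    simp only [β, Equiv.symm_apply_apply, norm_pow, pow_mul] at h
    have h' : ‖α lam i‖ ^ 2 ≤ p :=
      (pow_le_pow_iff_left₀ (by positivity) (by positivity) (by omega)).1 h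
    exact Real.le_sqrt_of_sq_le h'
  have hfin := hα 1 one_ne_zero 1 one_pos (ZMod p) (by rw [ZMod.card, pow_one])
  rw [one_mul, one_mul] at hfin
  rw [hfin, norm_neg, Fin.sum_univ_two, pow_one, pow_one]
  calc ‖α 1 0 + α 1 1‖ ≤ ‖α 1 0‖ + ‖α 1 1‖ := norm_add_le _ _
    _ ≤ √p + √p := add_le_add (hroots 1 one_ne_zero 0) (hroots 1 one_ne_zero 1)
    _ = 2 * √p := by ring

/-- The Weil bound for Kloosterman sums. -/
theorem kloosterman_bound (p : ℕ) [Fact p.Prime] (a b : ZMod p) (ha : a ≠ 0) :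
    ‖∑ x ∈ (univ : Finset (ZMod p)).filter (fun x => x ≠ 0),
      (ZMod.stdAddChar (a * x⁻¹ + b * x) : ℂ)‖ ≤ 2 * √p := by
  classical
  have hp0 : 0 < p := (Fact.out : p.Prime).pos
  have h1p : (1 : ℝ) ≤ √p := by
    rw [Real.one_le_sqrt]
    exact_mod_cast hp0
  by_cases hp2 : p = 2
  · have hcard : ((univ : Finset (ZMod p)).filter (fun x => x ≠ 0)).card = 1 := by
      rw [Finset.filter_ne' univ (0 : ZMod p), Finset.card_erase_of_mem (Finset.mem_univ _),
        Finset.card_univ, ZMod.card, hp2]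
    calc ‖∑ x ∈ (univ : Finset (ZMod p)).filter (fun x => x ≠ 0),
          (ZMod.stdAddChar (a * x⁻¹ + b * x) : ℂ)‖
        ≤ ∑ x ∈ (univ : Finset (ZMod p)).filter (fun x => x ≠ 0),
          ‖(ZMod.stdAddChar (a * x⁻¹ + b * x) : ℂ)‖ := norm_sum_le _ _
      _ = ∑ x ∈ (univ : Finset (ZMod p)).filter (fun x => x ≠ 0), (1 : ℝ) := by
          apply Finset.sum_congr rfl
          intro x _
          exact AddChar.norm_apply _ _
      _ = 1 := by rw [Finset.sum_const, hcard]; simp
      _ ≤ 2 * √p := by linarith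
  by_cases hb : b = 0
  · subst hb
    have h1 : ∑ x ∈ (univ : Finset (ZMod p)).filter (fun x => x ≠ 0),
        (ZMod.stdAddChar (a * x⁻¹ + 0 * x) : ℂ) =
        ∑ x ∈ (univ : Finset (ZMod p)).filter (fun x => x ≠ 0), (ZMod.stdAddChar (x * a) : ℂ) := by
      refine Finset.sum_nbij' (fun x => x⁻¹) (fun x => x⁻¹) ?_ ?_ ?_ ?_ ?_
      · intro x hx
        simpa using hx
      · intro x hx
        simpa using hx
      · intro x _
        exact inv_inv x
      · intro x _
        exact inv_inv x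
      · intro x _
        rw [zero_mul, add_zero, mul_comm]
    have h2 : ∑ x : ZMod p, (ZMod.stdAddChar (x * a) : ℂ) = 0 := by
      have := AddChar.sum_mulShift a (ZMod.isPrimitive_stdAddChar p)
      simpa [ha] using this
    have h3 := Finset.sum_filter_add_sum_filter_not (univ : Finset (ZMod p)) (fun x => x ≠ 0)
      (fun x => (ZMod.stdAddChar (x * a) : ℂ))
    have h4 : (univ : Finset (ZMod p)).filter (fun x => ¬ x ≠ 0) = {0} := by
      ext x; simp
    rw [h4, Finset.sum_singleton, zero_mul, AddChar.map_zero_eq_one, h2] at h3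
    rw [h1, eq_neg_of_add_eq_zero_left h3, norm_neg, norm_one]
    linarith
  · have h := weil_prim hp2 b a hb ha
    have h1 : ∑ x ∈ (univ : Finset (ZMod p)).filter (fun x => x ≠ 0),
        (ZMod.stdAddChar (a * x⁻¹ + b * x) : ℂ) = KF p (ZMod p) b a := by
      unfold KF
      apply Finset.sum_congr rfl
      intro x _
      rw [Algebra.trace_self_apply, Algebra.algebraMap_self_apply, Algebra.algebraMap_self_apply,
        add_comm]
    rw [h1]
    exact h

end BHWeil
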