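import Pool.Agent.Lib.MP_2a816b_nt.BH.Defs
import Pool.Agent.Lib.MP_2a816b_nt.BH.Weil

/-!
# JOB CompA: the additive character `ee`, and complete Kloosterman sums modulo a prime
-/

set_option autoImplicit false

open Finset Real

namespace Pool.Agent.Lib.MP_2a816b_nt.BH

lemma ee_eq_stdAddChar (q : ℕ) [NeZero q] (x : ZMod q) : ee q x = (ZMod.stdAddChar x : ℂ) := by
  have h1 : x = ((x.val : ℤ) : ZMod q) := by
    rw [Int.cast_natCast, ZMod.natCast_zmod_val]
  conv_rhs => rw [h1]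
  rw [ZMod.stdAddChar_coe]
  unfold ee e
  congr 1
  push_cast
  ring

lemma norm_ee (q : ℕ) (x : ZMod q) : ‖ee q x‖ = 1 := by
  unfold ee
  exact norm_e _

lemma ee_add (q : ℕ) (hq : 0 < q) (x y : ZMod q) : ee q (x + y) = ee q x * ee q y := by
  have : NeZero q := ⟨hq.ne'⟩
  rw [ee_eq_stdAddChar, ee_eq_stdAddChar, ee_eq_stdAddChar, AddChar.map_add_eq_mul]

lemma ee_zero (q : ℕ) : ee q 0 = 1 := by
  unfold ee
  rw [ZMod.val_zero]
  simp

lemma ee_neg (q : ℕ) (hq : 0 < q) (x : ZMod q) : ee q (-x) = (starRingEnd ℂ) (ee q x) := by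
  have : NeZero q := ⟨hq.ne'⟩
  rw [← Complex.inv_eq_conj (norm_ee q x), ee_eq_stdAddChar, ee_eq_stdAddChar,
    AddChar.map_neg_eq_inv]

/-- on integers -/
lemma ee_intCast (q : ℕ) (hq : 0 < q) (n : ℤ) : ee q (n : ZMod q) = e ((n : ℝ) / q) := by
  have : NeZero q := ⟨hq.ne'⟩
  rw [ee_eq_stdAddChar, ZMod.stdAddChar_coe]
  unfold e
  congr 1
  push_cast
  ring

private lemma zinv (q : ℕ) (r : ℕ) (a : ℤ) (h : q.Coprime r)
    (ha : ((a : ZMod q)) * (r : ZMod q) = 1) : ((r : ZMod q))⁻¹ = (a : ZMod q) := by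
  have h1 := ZMod.coe_mul_inv_eq_one (n := q) r h.symm
  calc ((r : ZMod q))⁻¹ = ((a : ZMod q) * (r : ZMod q)) * ((r : ZMod q))⁻¹ := by rw [ha, one_mul]
    _ = (a : ZMod q) * ((r : ZMod q) * ((r : ZMod q))⁻¹) := by ring
    _ = (a : ZMod q) := by rw [h1, mul_one]

/-- Chinese remainder theorem for the additive character: for coprime `q, r`,
`e(n / (q r)) = e(n r̄ / q) e(n q̄ / r)` -/
lemma ee_mul (q r : ℕ) (hq : 0 < q) (hr : 0 < r) (h : q.Coprime r) (n : ℤ) :
    ee (q * r) (n : ZMod (q * r)) =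
      ee q ((n : ZMod q) * ((r : ZMod q))⁻¹) * ee r ((n : ZMod r) * ((q : ZMod r))⁻¹) := by
  obtain ⟨a, b, hab⟩ : ∃ a b : ℤ, a * r + b * q = 1 := by
    have h1 := Nat.gcd_eq_gcd_ab q r
    rw [Nat.Coprime] at h
    rw [h] at h1
    exact ⟨Nat.gcdB q r, Nat.gcdA q r, by push_cast at h1; linarith⟩
  have h1 : ((r : ZMod q))⁻¹ = (a : ZMod q) := by
    apply zinv q r a h
    have h2 := congrArg (fun z : ℤ => (z : ZMod q)) hab
    push_cast at h2
    rw [ZMod.natCast_self, mul_zero, add_zero] at h2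
    exact h2
  have h2 : ((q : ZMod r))⁻¹ = (b : ZMod r) := by
    apply zinv r q b h.symm
    have h2 := congrArg (fun z : ℤ => (z : ZMod r)) hab
    push_cast at h2
    rw [ZMod.natCast_self, mul_zero, zero_add] at h2
    exact h2
  rw [h1, h2, ← Int.cast_mul, ← Int.cast_mul, ee_intCast _ (Nat.mul_pos hq hr), ee_intCast _ hq,
    ee_intCast _ hr, ← e_add]
  congr 1
  have hq' : (q : ℝ) ≠ 0 := by exact_mod_cast hq.ne'
  have hr' : (r : ℝ) ≠ 0 := by exact_mod_cast hr.ne'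
  have h3 : (a : ℝ) * r + b * q = 1 := by exact_mod_cast hab
  push_cast
  field_simp
  linear_combination -(n : ℝ) * h3

private lemma sum_range_zmod (p : ℕ) [NeZero p] (f : ZMod p → ℂ) :
    ∑ u ∈ range p, f (u : ZMod p) = ∑ x : ZMod p, f x := by
  apply Finset.sum_nbij' (fun u : ℕ => (u : ZMod p)) (fun x : ZMod p => x.val)
  · intro u _
    exact mem_univ _
  · intro x _
    exact mem_range.2 (ZMod.val_lt x)
  · intro u hu
    exact ZMod.val_cast_of_lt (mem_range.1 hu)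
  · intro x _
    exact ZMod.natCast_zmod_val x
  · intro u _
    rfl

/-- local factor of the first kind -/
noncomputable def k1 (p : ℕ) (A u : ℤ) : ℂ :=
  if (p : ℤ) ∣ u then 0 else ee p ((A : ZMod p) * (u : ZMod p)⁻¹)

/-- local factor of the second kind -/
noncomputable def k2 (p : ℕ) (c t B u : ℤ) : ℂ :=
  if (p : ℤ) ∣ c + u * t then 0 else ee p ((B : ZMod p) * ((c + u * t : ℤ) : ZMod p)⁻¹)

lemma k1_periodic (p : ℕ) (A u : ℤ) : k1 p A (u + p) = k1 p A u := by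
  unfold k1
  have h1 : ((p : ℤ) ∣ u + p) ↔ (p : ℤ) ∣ u := (dvd_add_left (dvd_refl _))
  have h2 : (((u + p : ℤ)) : ZMod p) = (u : ZMod p) := by
    push_cast
    rw [ZMod.natCast_self, add_zero]
  rw [h2]
  simp only [h1]

lemma k2_periodic (p : ℕ) (c t B u : ℤ) : k2 p c t B (u + p) = k2 p c t B u := by
  unfold k2
  have h1 : ((p : ℤ) ∣ c + (u + p) * t) ↔ (p : ℤ) ∣ c + u * t := by
    rw [show c + (u + p) * t = c + u * t + p * t by ring]
    exact dvd_add_left (dvd_mul_right _ _)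
  have h2 : (((c + (u + p) * t : ℤ)) : ZMod p) = ((c + u * t : ℤ) : ZMod p) := by
    push_cast
    rw [ZMod.natCast_self, add_zero]
  rw [h2]
  simp only [h1]

private lemma norm_k1 (p : ℕ) (A u : ℤ) : ‖k1 p A u‖ ≤ 1 := by
  unfold k1
  split_ifs
  · simp
  · rw [norm_ee]

private lemma norm_k2 (p : ℕ) (c t B u : ℤ) : ‖k2 p c t B u‖ ≤ 1 := by
  unfold k2
  split_ifs
  · simp
  · rw [norm_ee]

private lemma triv (p : ℕ) (F : ℤ → ℂ) (hF : ∀ u, ‖F u‖ ≤ 1) (h : ℤ) :
    ‖∑ u ∈ range p, F u * e ((h : ℝ) * u / p)‖ ≤ p := by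
  refine le_trans (norm_sum_le _ _) ?_
  calc ∑ u ∈ range p, ‖F u * e ((h : ℝ) * u / p)‖ ≤ ∑ u ∈ range p, (1 : ℝ) := by
        apply Finset.sum_le_sum
        intro u _
        rw [norm_mul, norm_e, mul_one]
        exact hF u
    _ = p := by simp

private lemma one_le_gcd (a : ℤ) (p : ℕ) (hp : 0 < p) : 1 ≤ √(a.natAbs.gcd p : ℝ) := by
  have h1 : 1 ≤ a.natAbs.gcd p := Nat.gcd_pos_of_pos_right _ hp
  have h2 : (1 : ℝ) ≤ (a.natAbs.gcd p : ℝ) := by exact_mod_cast h1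
  exact Real.one_le_sqrt.2 h2

private lemma gcd_of_dvd (a : ℤ) (p : ℕ) (h : (p : ℤ) ∣ a) : a.natAbs.gcd p = p :=
  Nat.gcd_eq_right (Int.natCast_dvd.1 h)

/-- complete sum modulo a prime, first kind: `∑_{u mod p, p ∤ u} e(A ū / p) e(h u / p)`. For `p ∤ A` this is
`BHWeil.kloosterman_bound`; for `p ∣ A` the trivial bound `p ≤ 2 √p √p` suffices. -/
lemma comp_prime_one (p : ℕ) (hp : p.Prime) (A h : ℤ) :
    ‖∑ u ∈ range p, k1 p A u * e ((h : ℝ) * u / p)‖ ≤ 2 * √p * √(A.natAbs.gcd p : ℝ) := by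
  have hfact : Fact p.Prime := ⟨hp⟩
  have hp0 : (0 : ℝ) ≤ p := Nat.cast_nonneg p
  have hsq : √(p : ℝ) * √(p : ℝ) = p := Real.mul_self_sqrt hp0
  by_cases hA : (p : ℤ) ∣ A
  · have h1 := triv p (k1 p A) (norm_k1 p A) h
    rw [gcd_of_dvd A p hA]
    nlinarith
  · have hA' : (A : ZMod p) ≠ 0 := by
      rwa [Ne, ZMod.intCast_zmod_eq_zero_iff_dvd]
    have h1 := BHWeil.kloosterman_bound p (A : ZMod p) (h : ZMod p) hA'
    have h2 : ∑ u ∈ range p, k1 p A u * e ((h : ℝ) * u / p) =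
        ∑ x ∈ (univ : Finset (ZMod p)).filter (fun x => x ≠ 0),
          (ZMod.stdAddChar ((A : ZMod p) * x⁻¹ + (h : ZMod p) * x) : ℂ) := by
      rw [Finset.sum_filter, ← sum_range_zmod p (fun x => if x ≠ 0 then
        (ZMod.stdAddChar ((A : ZMod p) * x⁻¹ + (h : ZMod p) * x) : ℂ) else 0)]
      apply Finset.sum_congr rfl
      intro u _
      have h3 : e ((h : ℝ) * u / p) = ee p ((h : ZMod p) * (u : ZMod p)) := by
        have h4 : (h : ZMod p) * (u : ZMod p) = ((h * u : ℤ) : ZMod p) := by push_cast; ring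
        rw [h4, ee_intCast p hp.pos]
        push_cast
        rfl
      unfold k1
      by_cases hu : (u : ZMod p) = 0
      · have hu' : (p : ℤ) ∣ (u : ℤ) := by
          rw [← ZMod.intCast_zmod_eq_zero_iff_dvd]
          push_cast
          exact hu
        rw [if_pos hu', if_neg (not_not.2 hu), zero_mul]
      · have hu' : ¬ (p : ℤ) ∣ (u : ℤ) := by
          rw [← ZMod.intCast_zmod_eq_zero_iff_dvd]
          push_cast
          exact hu
        rw [if_neg hu', if_pos hu, h3, ← ee_add p hp.pos, ee_eq_stdAddChar]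
        push_cast
        rfl
    rw [h2]
    refine le_trans h1 ?_
    have h5 := one_le_gcd A p hp.pos
    have h6 : 0 ≤ 2 * √(p : ℝ) := by positivity
    nlinarith

/-- complete sum modulo a prime, second kind: `∑_{u mod p, p ∤ c + u t} e(B \overline{(c + u t)} / p) e(h u / p)`. If `p ∤ t`
substitute `v = c + u t`: up to a factor of modulus `1` it is a sum of the first kind with `h t̄`. If `p ∣ t`
the trivial bound `p ≤ 2 √p √p √1` with `√(gcd t p) = √p`. -/
lemma comp_prime_two (p : ℕ) (hp : p.Prime) (c t B h : ℤ) :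
    ‖∑ u ∈ range p, k2 p c t B u * e ((h : ℝ) * u / p)‖ ≤
      2 * √p * (√(B.natAbs.gcd p : ℝ) * √(t.natAbs.gcd p : ℝ)) := by
  have hfact : Fact p.Prime := ⟨hp⟩
  have hp0 : (0 : ℝ) ≤ p := Nat.cast_nonneg p
  have hsq : √(p : ℝ) * √(p : ℝ) = p := Real.mul_self_sqrt hp0
  have hsp : 0 ≤ √(p : ℝ) := Real.sqrt_nonneg _
  have gB := one_le_gcd B p hp.pos
  have gt := one_le_gcd t p hp.pos
  by_cases ht : (p : ℤ) ∣ t
  · have h1 := triv p (k2 p c t B) (norm_k2 p c t B) h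
    rw [gcd_of_dvd t p ht]
    have h2 : √(p : ℝ) * √(p : ℝ) ≤ √(p : ℝ) * (√(B.natAbs.gcd p : ℝ) * √(p : ℝ)) := by
      apply mul_le_mul_of_nonneg_left _ hsp
      nlinarith
    nlinarith
  by_cases hB : (p : ℤ) ∣ B
  · have h1 := triv p (k2 p c t B) (norm_k2 p c t B) h
    rw [gcd_of_dvd B p hB]
    have h2 : √(p : ℝ) * √(p : ℝ) ≤ √(p : ℝ) * (√(p : ℝ) * √(t.natAbs.gcd p : ℝ)) := by
      apply mul_le_mul_of_nonneg_left _ hsp
      nlinarith
    nlinarith
  have hB' : (B : ZMod p) ≠ 0 := by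
    rwa [Ne, ZMod.intCast_zmod_eq_zero_iff_dvd]
  have ht' : (t : ZMod p) ≠ 0 := by
    rwa [Ne, ZMod.intCast_zmod_eq_zero_iff_dvd]
  have h1 := BHWeil.kloosterman_bound p (B : ZMod p) ((h : ZMod p) * (t : ZMod p)⁻¹) hB'
  have h2 : ∑ u ∈ range p, k2 p c t B u * e ((h : ℝ) * u / p) =
      ee p (-((h : ZMod p) * (t : ZMod p)⁻¹ * c)) *
      ∑ x ∈ (univ : Finset (ZMod p)).filter (fun x => x ≠ 0),
        (ZMod.stdAddChar ((B : ZMod p) * x⁻¹ + ((h : ZMod p) * (t : ZMod p)⁻¹) * x) : ℂ) := by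
    have h3 : ∀ u ∈ range p, k2 p c t B u * e ((h : ℝ) * u / p) =
        (fun x : ZMod p => if (c : ZMod p) + x * t = 0 then (0 : ℂ) else
          ee p (B * ((c : ZMod p) + x * t)⁻¹) * ee p (h * x)) (u : ZMod p) := by
      intro u _
      have h3 : e ((h : ℝ) * u / p) = ee p ((h : ZMod p) * (u : ZMod p)) := by
        have h4 : (h : ZMod p) * (u : ZMod p) = ((h * u : ℤ) : ZMod p) := by push_cast; ring
        rw [h4, ee_intCast p hp.pos]
        push_cast
        rfl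
      unfold k2
      have h4 : (((c + (u : ℤ) * t : ℤ)) : ZMod p) = (c : ZMod p) + (u : ZMod p) * t := by
        push_cast
        rfl
      have h5 : ((p : ℤ) ∣ c + (u : ℤ) * t) ↔ (c : ZMod p) + (u : ZMod p) * t = 0 := by
        rw [← ZMod.intCast_zmod_eq_zero_iff_dvd, h4]
      rw [h4, h3]
      simp only [h5]
      split_ifs
      · rw [zero_mul]
      · rfl
    rw [Finset.sum_congr rfl h3, sum_range_zmod p (fun x : ZMod p => if (c : ZMod p) + x * t = 0
      then (0 : ℂ) else ee p (B * ((c : ZMod p) + x * t)⁻¹) * ee p (h * x))]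
    rw [Finset.sum_filter, Finset.mul_sum]
    -- substitution `v = c + x t`
    apply Finset.sum_nbij' (fun x => (c : ZMod p) + x * t) (fun v => (v - c) * (t : ZMod p)⁻¹)
    · intro x _; exact mem_univ _
    · intro x _; exact mem_univ _
    · intro x _
      field_simp
      ring
    · intro x _
      field_simp
      ring
    · intro x _
      by_cases hx : (c : ZMod p) + x * t = 0
      · rw [if_pos hx, if_neg (not_not.2 hx), mul_zero]
      · rw [if_neg hx, if_pos hx, ← ee_eq_stdAddChar, ← ee_add p hp.pos, ← ee_add p hp.pos]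
        congr 1
        field_simp
        ring
  rw [h2, norm_mul, norm_ee, one_mul]
  refine le_trans h1 ?_
  have h6 : 1 ≤ √(B.natAbs.gcd p : ℝ) * √(t.natAbs.gcd p : ℝ) := by nlinarith
  nlinarith

end Pool.Agent.Lib.MP_2a816b_nt.BH
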