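import Pool.Agent.Lib.MP_2a816b_nt.BH.Defs

/-!
# JOB CompB: multiplicativity of complete sums

For `M = ∏ p` squarefree and functions `F p : ℤ → ℂ` periodic modulo `p` (`p ∣ M`) with
`‖∑_{u mod p} F_p(u) e(h u / p)‖ ≤ B_p` for all `h`, the complete sum of `∏_{p ∣ M} F_p(u) e(h u / M)` modulo `M` is at most
`∏ B_p`. Induction on the number of primes with the case of two coprime moduli `q, r` (Chinese remainder theorem: `u ↦ (u mod q, u mod r)`
is a bijection from `range (q r)` to `range q × range r`; choose integers `x, y` with `x r + y q = 1`, then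
`e(h u / (q r)) = e(h x u / q) e(h y u / r)`). So
`∑_{u mod q r} F(u) G(u) e(h u / (q r)) = (∑_{u mod q} F(u) e(h x u / q)) (∑_{u mod r} G(u) e(h y u / r))`.
-/

set_option autoImplicit false

open Finset Real

namespace Pool.Agent.Lib.MP_2a816b_nt.BH

private lemma compB_periodic (q : ℕ) (F : ℤ → ℂ) (hF : ∀ u, F (u + q) = F u) (k : ℕ) (u : ℤ) :
    F (u + q * k) = F u := by
  induction k with
  | zero => simp
  | succ k ih =>
    have h1 : u + (q : ℤ) * ((k + 1 : ℕ) : ℤ) = (u + q * k) + q := by push_cast; ring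
    rw [h1, hF, ih]

private lemma compB_mod (q : ℕ) (F : ℤ → ℂ) (hF : ∀ u, F (u + q) = F u) (u : ℕ) :
    F ((u % q : ℕ) : ℤ) = F (u : ℤ) := by
  have h1 : ((u : ℕ) : ℤ) = ((u % q : ℕ) : ℤ) + (q : ℤ) * ((u / q : ℕ) : ℤ) := by
    exact_mod_cast (Nat.mod_add_div u q).symm
  rw [h1, compB_periodic q F hF]

private lemma compB_per (q : ℕ) (hq : 0 < q) (F : ℤ → ℂ) (hF : ∀ u, F (u + q) = F u) (a : ℤ)
    (u : ℤ) : F (u + q) * e ((a : ℝ) * ((u + q : ℤ) : ℝ) / q) = F u * e ((a : ℝ) * (u : ℝ) / q) := by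
  rw [hF]
  congr 1
  have hq0 : (q : ℝ) ≠ 0 := by positivity
  have h1 : (a : ℝ) * ((u + q : ℤ) : ℝ) / q = (a : ℝ) * (u : ℝ) / q + ((a : ℤ) : ℝ) := by
    push_cast
    field_simp
  rw [h1, e_add_int]

lemma comp_two (q r : ℕ) (hq : 0 < q) (hr : 0 < r) (hc : q.Coprime r) (F G : ℤ → ℂ)
    (hF : ∀ u, F (u + q) = F u) (hG : ∀ u, G (u + r) = G u) (h x y : ℤ)
    (hxy : x * r + y * q = 1) :
    ∑ u ∈ range (q * r), F u * G u * e ((h : ℝ) * u / (q * r : ℕ)) =
      (∑ u ∈ range q, F u * e (((h * x : ℤ) : ℝ) * u / q)) *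
        ∑ u ∈ range r, G u * e (((h * y : ℤ) : ℝ) * u / r) := by
  rw [Finset.sum_mul_sum, ← Finset.sum_product']
  have hmaps : ∀ u ∈ range (q * r), (u % q, u % r) ∈ range q ×ˢ range r := by
    intro u _
    simp only [Finset.mem_product, Finset.mem_range]
    exact ⟨Nat.mod_lt _ hq, Nat.mod_lt _ hr⟩
  have hinj : Set.InjOn (fun u : ℕ => (u % q, u % r)) (range (q * r) : Finset ℕ) := by
    intro u hu v hv huv
    simp only [Prod.mk.injEq] at huv
    simp only [Finset.coe_range, Set.mem_Iio] at hu hv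
    have h1 : u ≡ v [MOD q * r] := (Nat.modEq_and_modEq_iff_modEq_mul hc).1 ⟨huv.1, huv.2⟩
    have h2 := h1
    unfold Nat.ModEq at h2
    rwa [Nat.mod_eq_of_lt hu, Nat.mod_eq_of_lt hv] at h2
  apply Finset.sum_bij (fun u _ => (u % q, u % r)) hmaps
  · intro u hu v hv huv
    exact hinj (Finset.mem_coe.2 hu) (Finset.mem_coe.2 hv) huv
  · intro ab hab
    have himg : (range (q * r)).image (fun u : ℕ => (u % q, u % r)) = range q ×ˢ range r := by
      apply Finset.eq_of_subset_of_card_le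
      · intro z hz
        obtain ⟨u, hu, rfl⟩ := Finset.mem_image.1 hz
        exact hmaps u hu
      · rw [Finset.card_image_of_injOn hinj, Finset.card_product]
        simp
    rw [← himg] at hab
    obtain ⟨u, hu, rfl⟩ := Finset.mem_image.1 hab
    exact ⟨u, hu, rfl⟩
  · intro u _
    have h1 := compB_mod q (fun t : ℤ => F t * e (((h * x : ℤ) : ℝ) * (t : ℝ) / q))
      (compB_per q hq F hF (h * x)) u
    have h2 := compB_mod r (fun t : ℤ => G t * e (((h * y : ℤ) : ℝ) * (t : ℝ) / r))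
      (compB_per r hr G hG (h * y)) u
    simp only [Int.cast_natCast] at h1 h2
    rw [h1, h2]
    have hq0 : (q : ℝ) ≠ 0 := by positivity
    have hr0 : (r : ℝ) ≠ 0 := by positivity
    have hxy' : (x : ℝ) * r + y * q = 1 := by exact_mod_cast hxy
    have h3 : (h : ℝ) * u / ((q * r : ℕ) : ℝ) =
        ((h * x : ℤ) : ℝ) * u / q + ((h * y : ℤ) : ℝ) * u / r := by
      push_cast
      field_simp
      linear_combination (-(h : ℝ) * u) * hxy'
    rw [h3, e_add]
    ring

private lemma compB_set (S : Finset ℕ) (F : ℕ → ℤ → ℂ) (B : ℕ → ℝ) (hS : ∀ p ∈ S, p.Prime)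
    (hF : ∀ p ∈ S, ∀ u, F p (u + p) = F p u)
    (hB : ∀ p ∈ S, ∀ h : ℤ, ‖∑ u ∈ range p, F p u * e ((h : ℝ) * u / p)‖ ≤ B p) :
    ∀ h : ℤ, ‖∑ u ∈ range (∏ p ∈ S, p), (∏ p ∈ S, F p u) *
      e ((h : ℝ) * u / ((∏ p ∈ S, p : ℕ) : ℝ))‖ ≤ ∏ p ∈ S, B p := by
  classical
  induction S using Finset.induction_on with
  | empty =>
    intro h
    simp
  | insert p S hpS ih =>
    intro h
    have hp : p.Prime := hS p (Finset.mem_insert_self p S)
    have ih' := ih (fun l hl => hS l (Finset.mem_insert_of_mem hl))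
      (fun l hl => hF l (Finset.mem_insert_of_mem hl))
      (fun l hl => hB l (Finset.mem_insert_of_mem hl))
    set r : ℕ := ∏ l ∈ S, l with hrdef
    have hr : 0 < r := Finset.prod_pos (fun l hl => (hS l (Finset.mem_insert_of_mem hl)).pos)
    have hc : p.Coprime r := by
      apply Nat.Coprime.prod_right
      intro l hl
      rw [Nat.coprime_primes hp (hS l (Finset.mem_insert_of_mem hl))]
      rintro rfl
      exact hpS hl
    have hGper : ∀ u : ℤ, (∏ l ∈ S, F l (u + r)) = ∏ l ∈ S, F l u := by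
      intro u
      refine Finset.prod_congr rfl (fun l hl => ?_)
      obtain ⟨k, hk⟩ : l ∣ r := Finset.dvd_prod_of_mem _ hl
      have h1 := compB_periodic l (F l) (hF l (Finset.mem_insert_of_mem hl)) k u
      rw [hk]
      push_cast
      exact h1
    obtain ⟨x, y, hxy⟩ : ∃ x y : ℤ, x * r + y * p = 1 := by
      have h1 : IsCoprime (r : ℤ) (p : ℤ) := Nat.isCoprime_iff_coprime.2 hc.symm
      exact h1
    have h2 := comp_two p r hp.pos hr hc (F p) (fun u => ∏ l ∈ S, F l u)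
      (hF p (Finset.mem_insert_self p S)) hGper h x y hxy
    rw [Finset.prod_insert hpS, Finset.prod_insert hpS]
    have h3 : ∑ u ∈ range (p * r), (∏ l ∈ insert p S, F l u) * e ((h : ℝ) * u / ((p * r : ℕ) : ℝ)) =
        ∑ u ∈ range (p * r), F p u * (∏ l ∈ S, F l u) * e ((h : ℝ) * u / ((p * r : ℕ) : ℝ)) := by
      refine Finset.sum_congr rfl (fun u _ => ?_)
      rw [Finset.prod_insert hpS]
    rw [h3, h2, norm_mul]
    have h4 := hB p (Finset.mem_insert_self p S) (h * x)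
    exact mul_le_mul h4 (ih' (h * y)) (norm_nonneg _) (le_trans (norm_nonneg _) h4)

theorem comp_prod (M : ℕ) (hM : Squarefree M) (F : ℕ → ℤ → ℂ) (B : ℕ → ℝ)
    (hF : ∀ p ∈ M.primeFactors, ∀ u, F p (u + p) = F p u)
    (hB : ∀ p ∈ M.primeFactors, ∀ h : ℤ, ‖∑ u ∈ range p, F p u * e ((h : ℝ) * u / p)‖ ≤ B p)
    (h : ℤ) :
    ‖∑ u ∈ range M, (∏ p ∈ M.primeFactors, F p u) * e ((h : ℝ) * u / M)‖ ≤
      ∏ p ∈ M.primeFactors, B p := by
  have h1 := compB_set M.primeFactors F B (fun p hp => Nat.prime_of_mem_primeFactors hp) hF hB h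
  rwa [Nat.prod_primeFactors_of_squarefree hM] at h1

end Pool.Agent.Lib.MP_2a816b_nt.BH
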