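import Pool.Agent.Lib.MP_2a816b_nt.BH.CompA
import Pool.Agent.Lib.MP_2a816b_nt.BH.CompB

/-!
# JOB CompC: complete sums of the Kloosterman phase `kl`

`l m` squarefree (so `l, m` coprime). By `ee_mul` (induction on the primes of `l`), for `x` any integer
`ee l x = ∏_{p ∣ l} ee p (x \overline{(l / p)})`. Hence, with `A_p = A x_p`, where `x_p` is an integer inverse of `l / p` modulo `p`,
`kl l m t A B u = ∏_{p ∣ l} [p ∤ u] ee p (A_p ū) ∏_{p ∣ m} [p ∤ l + u t] ee p (B_p \overline{(l + u t)})`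
(`IsUnit (u : ZMod l)` iff `p ∤ u` for all `p ∣ l`; the inverse modulo `l` reduces to the inverse modulo `p`).
`gcd(A_p, p) = gcd(A, p)`. Apply `comp_prod` with `M = l m` and the bounds `comp_prime_one`, `comp_prime_two`:
`∏_{p ∣ l} 2 √p √gcd(A, p) ∏_{p ∣ m} 2 √p √gcd(B, p) √gcd(t, p)
 = 2 ^ ω(l m) √(l m) √gcd(A, l) √gcd(B, m) √gcd(t, m)`, and `2 ^ ω(l m) = τ(l m)`.
-/

set_option autoImplicit false

open Finset Real

namespace Pool.Agent.Lib.MP_2a816b_nt.BH

/-- `kl` is periodic modulo `l m` -/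
lemma kl_periodic (l m : ℕ) (t A B u : ℤ) :
    kl l m t A B (u + (l * m : ℕ)) = kl l m t A B u := by
  have h1 : ((u + (l * m : ℕ) : ℤ) : ZMod l) = (u : ZMod l) := by
    push_cast
    rw [ZMod.natCast_self, zero_mul, add_zero]
  have h2 : (((l : ℤ) + (u + (l * m : ℕ)) * t : ℤ) : ZMod m) = (((l : ℤ) + u * t : ℤ) : ZMod m) := by
    push_cast
    rw [ZMod.natCast_self, mul_zero, add_zero]
  unfold kl
  rw [h1, h2]

lemma norm_kl_le (l m : ℕ) (t A B u : ℤ) : ‖kl l m t A B u‖ ≤ 1 := by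
  unfold kl
  split_ifs
  · rw [norm_mul, norm_ee, norm_ee, one_mul]
  · simp

private lemma dvd_of_primes (l : ℕ) (hl : Squarefree l) (Y : ℤ)
    (h : ∀ p ∈ l.primeFactors, (p : ℤ) ∣ Y) : (l : ℤ) ∣ Y := by
  rw [← Nat.prod_primeFactors_of_squarefree hl]
  push_cast
  apply Finset.prod_dvd_of_coprime
  · intro p hp q hq hpq
    have h1 := (Nat.coprime_primes (Nat.prime_of_mem_primeFactors hp)
      (Nat.prime_of_mem_primeFactors hq)).2 hpq
    exact Nat.isCoprime_iff_coprime.2 h1
  · exact h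

private lemma ee_prod (l : ℕ) (hl : Squarefree l) (x : ℕ → ℤ)
    (hx : ∀ p ∈ l.primeFactors, (p : ℤ) ∣ x p * (l / p : ℕ) - 1) (n : ℤ) :
    ee l (n : ZMod l) = ∏ p ∈ l.primeFactors, ee p ((n * x p : ℤ) : ZMod p) := by
  have hl0 : 0 < l := Nat.pos_of_ne_zero hl.ne_zero
  have h1 : (l : ℤ) ∣ (∑ p ∈ l.primeFactors, x p * (l / p : ℕ)) - 1 := by
    apply dvd_of_primes l hl
    intro p hp
    rw [← Finset.add_sum_erase _ _ hp]
    have h2 : (p : ℤ) ∣ ∑ q ∈ l.primeFactors.erase p, x q * (l / q : ℕ) := by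
      apply Finset.dvd_sum
      intro q hq
      apply Dvd.dvd.mul_left
      rw [Int.natCast_dvd_natCast]
      have hq1 := Finset.ne_of_mem_erase hq
      have hq2 := Finset.mem_of_mem_erase hq
      have h3 : p * q ∣ l := by
        apply Nat.Coprime.mul_dvd_of_dvd_of_dvd
        · exact (Nat.coprime_primes (Nat.prime_of_mem_primeFactors hp)
            (Nat.prime_of_mem_primeFactors hq2)).2 hq1.symm
        · exact Nat.dvd_of_mem_primeFactors hp
        · exact Nat.dvd_of_mem_primeFactors hq2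
      exact Nat.dvd_div_of_mul_dvd (by rwa [mul_comm] at h3)
    have h4 := dvd_add (hx p hp) h2
    have h5 : x p * ((l / p : ℕ) : ℤ) + ∑ q ∈ l.primeFactors.erase p, x q * (l / q : ℕ) - 1 =
        (x p * (l / p : ℕ) - 1) + ∑ q ∈ l.primeFactors.erase p, x q * (l / q : ℕ) := by ring
    rw [h5]
    exact h4
  obtain ⟨k, hk⟩ := h1
  have hlr : (l : ℝ) ≠ 0 := by exact_mod_cast hl0.ne'
  have h5 : ∏ p ∈ l.primeFactors, ee p ((n * x p : ℤ) : ZMod p) =
      ∏ p ∈ l.primeFactors, e ((n : ℝ) * x p * (l / p : ℕ) / l) := by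
    apply Finset.prod_congr rfl
    intro p hp
    have hpp := Nat.prime_of_mem_primeFactors hp
    rw [ee_intCast p hpp.pos]
    congr 1
    have hpr : (p : ℝ) ≠ 0 := by exact_mod_cast hpp.ne_zero
    rw [Nat.cast_div (Nat.dvd_of_mem_primeFactors hp) hpr]
    push_cast
    field_simp
  have h6 : ∀ (T : Finset ℕ) (f : ℕ → ℝ), ∏ p ∈ T, e (f p) = e (∑ p ∈ T, f p) := by
    intro T f
    induction T using Finset.induction_on with
    | empty => simp
    | insert q T hq ih => rw [Finset.prod_insert hq, Finset.sum_insert hq, ih, e_add]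
  rw [h5, h6, ee_intCast l hl0]
  have h7 : ∑ p ∈ l.primeFactors, (n : ℝ) * x p * (l / p : ℕ) / l = (n : ℝ) / l + (n * k : ℤ) := by
    have h8 : (∑ p ∈ l.primeFactors, (x p : ℝ) * (l / p : ℕ)) = l * k + 1 := by
      have : ((∑ p ∈ l.primeFactors, x p * (l / p : ℕ) : ℤ) : ℝ) = ((l * k + 1 : ℤ) : ℝ) := by
        congr 1
        linarith
      push_cast at this
      exact this
    have h9 : ∑ p ∈ l.primeFactors, (n : ℝ) * x p * (l / p : ℕ) / l =
        (n : ℝ) / l * ∑ p ∈ l.primeFactors, (x p : ℝ) * (l / p : ℕ) := by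
      rw [Finset.mul_sum]
      apply Finset.sum_congr rfl
      intro p _
      ring
    rw [h9, h8]
    push_cast
    field_simp
    ring
  rw [h7, e_add_int]

private lemma isUnit_iff (l : ℕ) (hl : l ≠ 0) (c : ℤ) :
    IsUnit (c : ZMod l) ↔ ∀ p ∈ l.primeFactors, ¬ (p : ℤ) ∣ c := by
  rw [ZMod.coe_int_isUnit_iff_isCoprime]
  constructor
  · intro h p hp hd
    have hpp := Nat.prime_of_mem_primeFactors hp
    have h1 : IsCoprime (p : ℤ) (p : ℤ) := by
      apply IsCoprime.of_isCoprime_of_dvd_left _ (Int.natCast_dvd_natCast.2 (Nat.dvd_of_mem_primeFactors hp))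
      exact IsCoprime.of_isCoprime_of_dvd_right h hd
    rw [Nat.isCoprime_iff_coprime, Nat.coprime_self] at h1
    exact hpp.one_lt.ne' h1
  · intro h
    rw [Int.isCoprime_iff_gcd_eq_one]
    by_contra hne
    obtain ⟨p, hp, hpd⟩ := Nat.exists_prime_and_dvd hne
    have h1 : p ∣ l := by
      have := Nat.dvd_trans hpd (Nat.gcd_dvd_left _ _)
      simpa using this
    have h2 : (p : ℤ) ∣ c := by
      have := Nat.dvd_trans hpd (Nat.gcd_dvd_right _ _)
      exact Int.natCast_dvd.2 this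
    exact h p (Nat.mem_primeFactors.2 ⟨hp, h1, hl⟩) h2

private lemma inv_cast (l : ℕ) (c w : ℤ) (hc : IsUnit (c : ZMod l))
    (h : ((w * c : ℤ) : ZMod l) = 1) : ((c : ZMod l))⁻¹ = (w : ZMod l) := by
  have h1 := ZMod.mul_inv_of_unit (c : ZMod l) hc
  push_cast at h
  calc ((c : ZMod l))⁻¹ = ((w : ZMod l) * c) * ((c : ZMod l))⁻¹ := by rw [h, one_mul]
    _ = (w : ZMod l) * ((c : ZMod l) * ((c : ZMod l))⁻¹) := by ring
    _ = w := by rw [h1, mul_one]

open Classical in
private lemma local_prod (l : ℕ) (hl : Squarefree l) (x : ℕ → ℤ)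
    (hx : ∀ p ∈ l.primeFactors, (p : ℤ) ∣ x p * (l / p : ℕ) - 1) (A c : ℤ) :
    (if IsUnit (c : ZMod l) then ee l ((A : ZMod l) * ((c : ZMod l))⁻¹) else 0) =
      ∏ p ∈ l.primeFactors, (if (p : ℤ) ∣ c then (0 : ℂ) else
        ee p (((A * x p : ℤ) : ZMod p) * ((c : ZMod p))⁻¹)) := by
  split_ifs with hu
  · have hu' := (isUnit_iff l hl.ne_zero c).1 hu
    -- an integer inverse
    obtain ⟨a, b, hab⟩ := (ZMod.coe_int_isUnit_iff_isCoprime c l).1 hu
    have hbc : (l : ℤ) ∣ b * c - 1 := ⟨-a, by linarith⟩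
    have h1 : ((c : ZMod l))⁻¹ = (b : ZMod l) := by
      apply inv_cast l c b hu
      have := (ZMod.intCast_zmod_eq_zero_iff_dvd (b * c - 1) l).2 hbc
      push_cast at this ⊢
      exact sub_eq_zero.1 this
    rw [h1]
    have h2 : (A : ZMod l) * (b : ZMod l) = ((A * b : ℤ) : ZMod l) := by push_cast; rfl
    rw [h2, ee_prod l hl x hx]
    apply Finset.prod_congr rfl
    intro p hp
    have hpp := Nat.prime_of_mem_primeFactors hp
    have hfact : Fact p.Prime := ⟨hpp⟩
    rw [if_neg (hu' p hp)]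
    have hc0 : (c : ZMod p) ≠ 0 := by
      rw [Ne, ZMod.intCast_zmod_eq_zero_iff_dvd]
      exact hu' p hp
    have h3 : ((c : ZMod p))⁻¹ = (b : ZMod p) := by
      apply inv_cast p c b (isUnit_iff_ne_zero.2 hc0)
      have h4 : (p : ℤ) ∣ b * c - 1 :=
        dvd_trans (Int.natCast_dvd_natCast.2 (Nat.dvd_of_mem_primeFactors hp)) hbc
      have := (ZMod.intCast_zmod_eq_zero_iff_dvd (b * c - 1) p).2 h4
      push_cast at this ⊢
      exact sub_eq_zero.1 this
    rw [h3]
    congr 1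
    push_cast
    ring
  · rw [isUnit_iff l hl.ne_zero c] at hu
    push Not at hu
    obtain ⟨p, hp, hpc⟩ := hu
    symm
    apply Finset.prod_eq_zero hp
    rw [if_pos hpc]

private lemma exists_x (l : ℕ) (hl : Squarefree l) :
    ∃ x : ℕ → ℤ, ∀ p ∈ l.primeFactors, (p : ℤ) ∣ x p * (l / p : ℕ) - 1 := by
  have h : ∀ p : ℕ, ∃ x : ℤ, p ∈ l.primeFactors → (p : ℤ) ∣ x * (l / p : ℕ) - 1 := by
    intro p
    by_cases hp : p ∈ l.primeFactors
    · have hpp := Nat.prime_of_mem_primeFactors hp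
      have hd := Nat.dvd_of_mem_primeFactors hp
      have h1 : Nat.Coprime p (l / p) := by
        apply Nat.coprime_of_squarefree_mul
        rw [Nat.mul_div_cancel' hd]
        exact hl
      obtain ⟨a, b, hab⟩ := Nat.isCoprime_iff_coprime.2 h1
      exact ⟨b, fun _ => ⟨-a, by linarith⟩⟩
    · exact ⟨0, fun h => absurd h hp⟩
  choose x hx using h
  exact ⟨x, hx⟩

private lemma gcd_x (l p : ℕ) (hp : p.Prime) (x A : ℤ) (hx : (p : ℤ) ∣ x * (l / p : ℕ) - 1) :
    (A * x).natAbs.gcd p = A.natAbs.gcd p := by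
  rw [Int.natAbs_mul]
  have h1 : Nat.Coprime p x.natAbs := by
    rw [Nat.Prime.coprime_iff_not_dvd hp]
    intro h2
    have h3 : (p : ℤ) ∣ x := Int.natCast_dvd.2 h2
    have h4 : (p : ℤ) ∣ 1 := by
      have h5 := dvd_sub (Dvd.dvd.mul_right h3 ((l / p : ℕ) : ℤ)) hx
      rwa [sub_sub_cancel] at h5
    have h6 : (p : ℤ) ∣ ((1 : ℕ) : ℤ) := by exact_mod_cast h4
    rw [Int.natCast_dvd_natCast] at h6
    exact hp.one_lt.ne' (Nat.dvd_one.1 h6)
  exact Nat.Coprime.gcd_mul_right_cancel _ h1.symm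

private lemma prod_gcd (l : ℕ) (hl : Squarefree l) (a : ℕ) :
    ∏ p ∈ l.primeFactors, (a.gcd p) = a.gcd l := by
  have h : ∀ T : Finset ℕ, (∀ p ∈ T, p.Prime) → ∏ p ∈ T, a.gcd p = a.gcd (∏ p ∈ T, p) := by
    intro T hT
    induction T using Finset.induction_on with
    | empty => simp
    | insert q T hq ih =>
      rw [Finset.prod_insert hq, Finset.prod_insert hq, ih (fun p hp => hT p (mem_insert_of_mem hp))]
      symm
      apply Nat.Coprime.gcd_mul
      apply Nat.Coprime.prod_right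
      intro p hp
      rw [Nat.coprime_primes (hT q (mem_insert_self _ _)) (hT p (mem_insert_of_mem hp))]
      rintro rfl
      exact hq hp
  rw [h _ (fun p hp => Nat.prime_of_mem_primeFactors hp), Nat.prod_primeFactors_of_squarefree hl]

private lemma prod_sqrt (T : Finset ℕ) (f : ℕ → ℕ) :
    ∏ p ∈ T, √(f p : ℝ) = √((∏ p ∈ T, f p : ℕ) : ℝ) := by
  induction T using Finset.induction_on with
  | empty => simp
  | insert q T hq ih =>
    rw [Finset.prod_insert hq, Finset.prod_insert hq, ih, Nat.cast_mul,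
      Real.sqrt_mul (Nat.cast_nonneg _)]

theorem kl_complete (l m : ℕ) (hlm : Squarefree (l * m)) (t A B h : ℤ) :
    ‖∑ u ∈ range (l * m), kl l m t A B u * e ((h : ℝ) * u / (l * m : ℕ))‖ ≤
      ((l * m).divisors.card : ℝ) * √(l * m : ℕ) * √(A.natAbs.gcd l : ℝ) *
        (√(B.natAbs.gcd m : ℝ) * √(t.natAbs.gcd m : ℝ)) := by
  classical
  have hl : Squarefree l := hlm.of_mul_left
  have hm : Squarefree m := hlm.of_mul_right
  have hc : Nat.Coprime l m := Nat.coprime_of_squarefree_mul hlm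
  obtain ⟨x, hx⟩ := exists_x l hl
  obtain ⟨y, hy⟩ := exists_x m hm
  have hdisj : Disjoint l.primeFactors m.primeFactors := hc.disjoint_primeFactors
  have hpf : (l * m).primeFactors = l.primeFactors ∪ m.primeFactors :=
    Nat.primeFactors_mul hl.ne_zero hm.ne_zero
  set F : ℕ → ℤ → ℂ := fun p u => if p ∣ l then k1 p (A * x p) u else k2 p l t (B * y p) u with hF
  set Bd : ℕ → ℝ := fun p => if p ∣ l then 2 * √p * √(A.natAbs.gcd p : ℝ) else
    2 * √p * (√(B.natAbs.gcd p : ℝ) * √(t.natAbs.gcd p : ℝ)) with hBd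
  have hmem_m : ∀ p ∈ m.primeFactors, ¬ p ∣ l := by
    intro p hp hpl
    exact Nat.Prime.not_coprime_iff_dvd.2 ⟨p, Nat.prime_of_mem_primeFactors hp, hpl,
      Nat.dvd_of_mem_primeFactors hp⟩ hc
  -- factorisation
  have hfac : ∀ u : ℤ, kl l m t A B u = ∏ p ∈ (l * m).primeFactors, F p u := by
    intro u
    rw [hpf, Finset.prod_union hdisj]
    have e1 : ∏ p ∈ l.primeFactors, F p u =
        (if IsUnit (u : ZMod l) then ee l ((A : ZMod l) * ((u : ZMod l))⁻¹) else 0) := by
      rw [local_prod l hl x hx A u]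
      apply Finset.prod_congr rfl
      intro p hp
      rw [hF]
      simp only
      rw [if_pos (Nat.dvd_of_mem_primeFactors hp)]
      rfl
    have e2 : ∏ p ∈ m.primeFactors, F p u =
        (if IsUnit (((l : ℤ) + u * t : ℤ) : ZMod m) then
          ee m ((B : ZMod m) * (((l : ℤ) + u * t : ℤ) : ZMod m)⁻¹) else 0) := by
      rw [local_prod m hm y hy B (l + u * t)]
      apply Finset.prod_congr rfl
      intro p hp
      rw [hF]
      simp only
      rw [if_neg (hmem_m p hp)]
      rfl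
    rw [e1, e2]
    unfold kl
    split_ifs with h1 h2 h3 h4 <;> simp_all
  have hsum : ∑ u ∈ range (l * m), kl l m t A B u * e ((h : ℝ) * u / (l * m : ℕ)) =
      ∑ u ∈ range (l * m), (∏ p ∈ (l * m).primeFactors, F p u) * e ((h : ℝ) * u / (l * m : ℕ)) := by
    apply Finset.sum_congr rfl
    intro u _
    rw [hfac]
  rw [hsum]
  refine le_trans (comp_prod (l * m) hlm F Bd ?_ ?_ h) (le_of_eq ?_)
  · intro p _ u
    rw [hF]
    simp only
    split_ifs
    · exact k1_periodic p _ u
    · exact k2_periodic p _ _ _ u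
  · intro p hp h'
    have hpp := Nat.prime_of_mem_primeFactors hp
    rw [hF, hBd]
    simp only
    by_cases hpl : p ∣ l
    · simp only [if_pos hpl]
      have h1 := comp_prime_one p hpp (A * x p) h'
      rw [gcd_x l p hpp (x p) A (hx p (Nat.mem_primeFactors.2 ⟨hpp, hpl, hl.ne_zero⟩))] at h1
      exact h1
    · simp only [if_neg hpl]
      have hpm : p ∈ m.primeFactors := by
        rw [hpf, mem_union] at hp
        rcases hp with hp | hp
        · exact absurd (Nat.dvd_of_mem_primeFactors hp) hpl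
        · exact hp
      have h1 := comp_prime_two p hpp l t (B * y p) h'
      rw [gcd_x m p hpp (y p) B (hy p hpm)] at h1
      exact h1
  · -- the product
    rw [hpf, Finset.prod_union hdisj]
    have e1 : ∏ p ∈ l.primeFactors, Bd p =
        2 ^ l.primeFactors.card * √(l : ℝ) * √(A.natAbs.gcd l : ℝ) := by
      have h1 : ∀ p ∈ l.primeFactors, Bd p = 2 * √(p : ℝ) * √((A.natAbs.gcd p : ℕ) : ℝ) := by
        intro p hp
        rw [hBd]
        simp only
        rw [if_pos (Nat.dvd_of_mem_primeFactors hp)]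
      rw [Finset.prod_congr rfl h1, Finset.prod_mul_distrib, Finset.prod_mul_distrib,
        Finset.prod_const, prod_sqrt _ (fun p => p), prod_sqrt _ (fun p => A.natAbs.gcd p),
        prod_gcd l hl, Nat.prod_primeFactors_of_squarefree hl]
    have e2 : ∏ p ∈ m.primeFactors, Bd p =
        2 ^ m.primeFactors.card * √(m : ℝ) * (√(B.natAbs.gcd m : ℝ) * √(t.natAbs.gcd m : ℝ)) := by
      have h1 : ∀ p ∈ m.primeFactors, Bd p = 2 * √(p : ℝ) *
          (√((B.natAbs.gcd p : ℕ) : ℝ) * √((t.natAbs.gcd p : ℕ) : ℝ)) := by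
        intro p hp
        rw [hBd]
        simp only
        rw [if_neg (hmem_m p hp)]
      rw [Finset.prod_congr rfl h1, Finset.prod_mul_distrib, Finset.prod_mul_distrib,
        Finset.prod_const, prod_sqrt _ (fun p => p), Finset.prod_mul_distrib,
        prod_sqrt _ (fun p => B.natAbs.gcd p), prod_sqrt _ (fun p => t.natAbs.gcd p),
        prod_gcd m hm, prod_gcd m hm, Nat.prod_primeFactors_of_squarefree hm]
    have e3 : ((l * m).divisors.card : ℝ) =
        2 ^ l.primeFactors.card * 2 ^ m.primeFactors.card := by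
      rw [Nat.card_divisors hlm.ne_zero]
      have h1 : ∏ p ∈ (l * m).primeFactors, ((l * m).factorization p + 1) =
          ∏ p ∈ (l * m).primeFactors, 2 := by
        apply Finset.prod_congr rfl
        intro p hp
        have h2 := hlm.natFactorization_le_one p
        have h3 : 0 < (l * m).factorization p :=
          (Nat.prime_of_mem_primeFactors hp).factorization_pos_of_dvd hlm.ne_zero
            (Nat.dvd_of_mem_primeFactors hp)
        omega
      rw [h1, Finset.prod_const, hpf, Finset.card_union_of_disjoint hdisj, pow_add]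
      push_cast
      rfl
    rw [e1, e2, e3, Nat.cast_mul, Real.sqrt_mul (Nat.cast_nonneg _)]
    ring

end Pool.Agent.Lib.MP_2a816b_nt.BH
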