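import Pool.Agent.Lib.MP_2a816b_nt.BH.T2
import Pool.Agent.Lib.MP_2a816b_nt.Vaughan

/-!
# JOB CorrA: correlations of divisor sums and of the von Mangoldt function with `F_{Q2}`

`corr_div`: `∑_{n₀ < n ≤ N} (∑_{m ∣ n} λ m) F(n + j) = ∑_{m ≤ V} λ m ∑_{n₀/m < t ≤ N/m} F(m t + j)`. For `m ≤ ⌊X ^ (1/3)⌋` use `typeI_set` (twice: up to `N / m` and up to `n₀ / m`; the
moduli are `≥ X ^ 0.5005 > m`, so they do not divide `m`; `Qm = ⌊X ^ 0.501⌋`, `M = ⌊X ^ 10⌋`): at most `A X ^ (1/3) 2 T ^ 3 X ^ 0.501`. For `m > ⌊X ^ (1/3)⌋` use `t2` with `α = λ`, `β = 1`, bound `A' = max(A, 1)`.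

`corr_vM`: `tw_vM N U κ` (`Vaughan.lean`) with `κ n = F(n + j)` if `n > n₀`, else `0`; `U = ⌊X ^ (1/3)⌋`; the sum is `tw N κ vM`. The five pieces: `lo U vM`: zero (as `n₀ ≥ U`);
`lo U muR * log`: `typeI_log` (twice); `lo U (cU U) * zeR`: `typeI_set`, `|cU| ≤ log`; `hi U (cU U) * zeR`: `t2`, `cU` vanishes above `U ^ 2 ≤ X ^ (2/3)`; `hi U muR * (hi U vM * zeR)`: `t2` with
`V = N / U ≤ X ^ 0.667` because the second factor vanishes for `t ≤ U`, so `m < N / U`. All coefficients are `≤ T`. (`tw_mul` for convolutions.)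
-/

set_option autoImplicit false

open Finset Real
open scoped Pointwise

namespace Pool.Agent.Lib.MP_2a816b_nt.BH

variable {X T C : ℝ}

section CorrAaux

private lemma ca_T (hX : Lg X T C) (k : ℕ) : T ^ k = X ^ ((k : ℝ) * tau0) := by
  rw [hX.hT, ← Real.rpow_natCast, ← Real.rpow_mul (by linarith [hX.X1]), mul_comm]

private lemma ca_absorb (hX : Lg X T C) (k : ℕ) {a b : ℝ} (h : a + ((k : ℝ) + 1) * tau0 ≤ b) :
    10 ^ 10 * T ^ k * X ^ a ≤ X ^ b := by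
  have hX0 : 0 < X := by linarith [hX.X1]
  have hT0 : (0 : ℝ) ≤ T := by linarith [hX.h10]
  calc 10 ^ 10 * T ^ k * X ^ a ≤ T * T ^ k * X ^ a := by
        have := hX.h10
        gcongr
    _ = T ^ (k + 1) * X ^ a := by ring
    _ = X ^ (((k : ℝ) + 1) * tau0) * X ^ a := by rw [ca_T hX]; push_cast; rfl
    _ = X ^ (((k : ℝ) + 1) * tau0 + a) := by rw [Real.rpow_add hX0]
    _ ≤ X ^ b := Real.rpow_le_rpow_of_exponent_le hX.X1 (by linarith)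

private lemma ca_X1 (hX : Lg X T C) : 1 < X := by
  rcases lt_or_eq_of_le hX.X1 with h | h
  · exact h
  · exfalso
    have h1 := hX.hT
    rw [← h, Real.one_rpow] at h1
    have := hX.h10
    rw [h1] at this
    norm_num at this

private lemma ca_le_M (hX : Lg X T C) {n : ℕ} (h : (n : ℝ) ≤ X ^ (10 : ℝ)) : n ≤ ⌊X ^ (10 : ℝ)⌋₊ :=
  Nat.le_floor h

private lemma ca_log (hX : Lg X T C) {n : ℕ} (h : (n : ℝ) ≤ X ^ (10 : ℝ)) : Real.log n ≤ T := by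
  have hT : (0 : ℝ) ≤ T := by linarith [hX.h10]
  rcases Nat.eq_zero_or_pos n with h0 | h0
  · subst h0; simpa using hT
  have h1 := hX.big.log
  have h2 : Real.log n ≤ Real.log (⌊X ^ (10 : ℝ)⌋₊ : ℝ) :=
    Real.log_le_log (by exact_mod_cast h0) (by exact_mod_cast ca_le_M hX h)
  linarith

private lemma ca_4X (hX : Lg X T C) : 4 * X ≤ X ^ (10 : ℝ) := by
  have h1 := ca_absorb hX 0 (a := 1) (b := 10) (by unfold tau0; norm_num)
  rw [Real.rpow_one, pow_zero, mul_one] at h1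
  have := hX.X1
  linarith

/-- the moduli do not divide small `m` -/
private lemma ca_Q2 (hX : Lg X T C) {m : ℕ} (hm0 : 0 < m) (hm : (m : ℝ) ≤ X ^ (1 / 3 : ℝ)) :
    ∀ q ∈ Q2 X, Squarefree q ∧ q ≤ ⌊X ^ (501 / 1000 : ℝ)⌋₊ ∧ ¬ q ∣ m := by
  intro q hq
  obtain ⟨h1, h2, h3⟩ := mem_Q2 hX hq
  refine ⟨h1, Nat.le_floor h3, ?_⟩
  intro hd
  have h4 : q ≤ m := Nat.le_of_dvd hm0 hd
  have h5 : (q : ℝ) ≤ m := by exact_mod_cast h4
  have h6 : X ^ (1 / 3 : ℝ) < X ^ (5005 / 10000 : ℝ) :=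
    Real.rpow_lt_rpow_of_exponent_lt (ca_X1 hX) (by norm_num)
  linarith

private lemma ca_typeI (hX : Lg X T C) {m : ℕ} (hm0 : 0 < m) (hm : (m : ℝ) ≤ X ^ (1 / 3 : ℝ)) (j : ℤ)
    (a b : ℕ) (hab : a ≤ b) :
    |∑ t ∈ Ioc a b, FQ (Q2 X) ((m : ℤ) * t + j)| ≤ 2 * T ^ 3 * X ^ (501 / 1000 : ℝ) := by
  have hX1 := hX.X1
  have hT0 : (0 : ℝ) ≤ T := by linarith [hX.h10]
  have hQm : ⌊X ^ (501 / 1000 : ℝ)⌋₊ ≤ ⌊X ^ (10 : ℝ)⌋₊ :=
    Nat.floor_le_floor (Real.rpow_le_rpow_of_exponent_le hX1 (by norm_num))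
  have hmM : m ≤ ⌊X ^ (10 : ℝ)⌋₊ :=
    ca_le_M hX (hm.trans (Real.rpow_le_rpow_of_exponent_le hX1 (by norm_num)))
  have h1 := typeI_set hX.big (Q2 X) _ hQm m hm0 hmM (ca_Q2 hX hm0 hm) j a
  have h2 := typeI_set hX.big (Q2 X) _ hQm m hm0 hmM (ca_Q2 hX hm0 hm) j b
  have h3 := Finset.sum_Ioc_consecutive (fun t : ℕ => FQ (Q2 X) ((m : ℤ) * t + j)) (Nat.zero_le a) hab
  have h4 : (⌊X ^ (501 / 1000 : ℝ)⌋₊ : ℝ) ≤ X ^ (501 / 1000 : ℝ) :=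
    Nat.floor_le (Real.rpow_nonneg (by linarith) _)
  have h5 : T ^ 3 * (⌊X ^ (501 / 1000 : ℝ)⌋₊ : ℝ) ≤ T ^ 3 * X ^ (501 / 1000 : ℝ) := by gcongr
  rw [abs_le] at h1 h2 ⊢
  constructor <;> linarith [h1.1, h1.2, h2.1, h2.2]

private lemma ca_typeI_log (hX : Lg X T C) {m : ℕ} (hm0 : 0 < m) (hm : (m : ℝ) ≤ X ^ (1 / 3 : ℝ)) (j : ℤ)
    (a b : ℕ) (hab : a ≤ b) (hb : (b : ℝ) ≤ X ^ (10 : ℝ)) :
    |∑ t ∈ Ioc a b, Real.log t * FQ (Q2 X) ((m : ℤ) * t + j)| ≤ 8 * T ^ 4 * X ^ (501 / 1000 : ℝ) := by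
  have hX1 := hX.X1
  have hT0 : (0 : ℝ) ≤ T := by linarith [hX.h10]
  have hQm : ⌊X ^ (501 / 1000 : ℝ)⌋₊ ≤ ⌊X ^ (10 : ℝ)⌋₊ :=
    Nat.floor_le_floor (Real.rpow_le_rpow_of_exponent_le hX1 (by norm_num))
  have hmM : m ≤ ⌊X ^ (10 : ℝ)⌋₊ :=
    ca_le_M hX (hm.trans (Real.rpow_le_rpow_of_exponent_le hX1 (by norm_num)))
  have hbM : b ≤ ⌊X ^ (10 : ℝ)⌋₊ := ca_le_M hX hb
  have h1 := typeI_log hX.big (Q2 X) _ hQm m hm0 hmM (ca_Q2 hX hm0 hm) j a (hab.trans hbM)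
  have h2 := typeI_log hX.big (Q2 X) _ hQm m hm0 hmM (ca_Q2 hX hm0 hm) j b hbM
  have h3 := Finset.sum_Ioc_consecutive (fun t : ℕ => Real.log t * FQ (Q2 X) ((m : ℤ) * t + j))
    (Nat.zero_le a) hab
  have h4 : (⌊X ^ (501 / 1000 : ℝ)⌋₊ : ℝ) ≤ X ^ (501 / 1000 : ℝ) :=
    Nat.floor_le (Real.rpow_nonneg (by linarith) _)
  have h5 : 4 * T ^ 4 * (⌊X ^ (501 / 1000 : ℝ)⌋₊ : ℝ) ≤ 4 * T ^ 4 * X ^ (501 / 1000 : ℝ) := by gcongr
  rw [abs_le] at h1 h2 ⊢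
  constructor <;> linarith [h1.1, h1.2, h2.1, h2.2]

/-- double sum over `m d` -/
private lemma ca_swap (n₀ N : ℕ) (g : ℕ → ℕ → ℝ) :
    ∑ n ∈ Ioc n₀ N, ∑ m ∈ n.divisors, g m n =
      ∑ m ∈ Ioc 0 N, ∑ t ∈ Ioc (n₀ / m) (N / m), g m (m * t) := by
  rw [sum_sigma', sum_sigma']
  apply sum_bij' (fun x _ => (⟨x.2, x.1 / x.2⟩ : Σ _ : ℕ, ℕ)) (fun x _ => (⟨x.1 * x.2, x.1⟩ : Σ _ : ℕ, ℕ))
  · rintro ⟨n, m⟩ hx
    rw [mem_sigma, mem_Ioc, Nat.mem_divisors] at hx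
    obtain ⟨⟨h1, h2⟩, ⟨c, hc⟩, h3⟩ := hx
    dsimp only at *
    have hm : 0 < m := by
      rcases Nat.eq_zero_or_pos m with h | h
      · rw [h, zero_mul] at hc; exact absurd hc h3
      · exact h
    have hdiv : n / m = c := by rw [hc]; exact Nat.mul_div_cancel_left c hm
    rw [mem_sigma, mem_Ioc, mem_Ioc]
    dsimp only
    rw [hdiv]
    refine ⟨⟨hm, ?_⟩, ?_, ?_⟩
    · exact (Nat.le_of_dvd (Nat.pos_of_ne_zero h3) ⟨c, hc⟩).trans h2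
    · rw [Nat.div_lt_iff_lt_mul hm, mul_comm, ← hc]; exact h1
    · rw [Nat.le_div_iff_mul_le hm, mul_comm, ← hc]; exact h2
  · rintro ⟨m, t⟩ hx
    rw [mem_sigma, mem_Ioc, mem_Ioc] at hx
    obtain ⟨⟨hm, h2⟩, h3, h4⟩ := hx
    dsimp only at *
    rw [Nat.div_lt_iff_lt_mul hm, mul_comm] at h3
    rw [Nat.le_div_iff_mul_le hm, mul_comm] at h4
    rw [mem_sigma, mem_Ioc, Nat.mem_divisors]
    dsimp only
    exact ⟨⟨h3, h4⟩, dvd_mul_right _ _, by omega⟩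
  · rintro ⟨n, m⟩ hx
    rw [mem_sigma, mem_Ioc, Nat.mem_divisors] at hx
    obtain ⟨⟨h1, h2⟩, hd, h3⟩ := hx
    dsimp only at *
    rw [Nat.mul_div_cancel' hd]
  · rintro ⟨m, t⟩ hx
    rw [mem_sigma, mem_Ioc, mem_Ioc] at hx
    obtain ⟨⟨hm, h2⟩, h3, h4⟩ := hx
    dsimp only at *
    rw [Nat.mul_div_cancel_left t hm]
  · rintro ⟨n, m⟩ hx
    rw [mem_sigma, mem_Ioc, Nat.mem_divisors] at hx
    obtain ⟨⟨h1, h2⟩, hd, h3⟩ := hx
    dsimp only at *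
    rw [Nat.mul_div_cancel' hd]

/-- restriction of the range -/
private lemma ca_range (U V N : ℕ) (G : ℕ → ℝ) (h1 : ∀ m, m ≤ U → G m = 0) (h2 : ∀ m, V < m → G m = 0)
    (h3 : ∀ m, N < m → G m = 0) : ∑ m ∈ Ioc 0 N, G m = ∑ m ∈ Ioc U V, G m := by
  have e1 : ∑ m ∈ Ioc 0 N, G m = ∑ m ∈ Ioc 0 (N + V), G m := by
    apply sum_subset
    · exact Ioc_subset_Ioc_right (Nat.le_add_right _ _)
    · intro m hm hm'
      rw [mem_Ioc] at hm hm'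
      exact h3 m (by omega)
  have e2 : ∑ m ∈ Ioc U V, G m = ∑ m ∈ Ioc 0 (N + V), G m := by
    apply sum_subset
    · exact Ioc_subset_Ioc (Nat.zero_le _) (Nat.le_add_left _ _)
    · intro m hm hm'
      rw [mem_Ioc] at hm hm'
      rcases Nat.lt_or_ge U m with h | h
      · exact h2 m (by omega)
      · exact h1 m h
  rw [e1, e2]

private lemma ca_empty {n₀ N m : ℕ} (h : N < m) : Ioc (n₀ / m) (N / m) = ∅ := by
  rw [Nat.div_eq_of_lt h]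
  rw [Finset.Ioc_eq_empty]
  exact Nat.not_lt_zero _

/-- the part of small `m` -/
private lemma ca_small (hX : Lg X T C) (f : ℕ → ℝ) (B : ℝ) (hB : 0 ≤ B) (hf : ∀ m, |f m| ≤ B)
    (G : ℕ → ℝ) (D : ℝ) (hD : 0 ≤ D) (hG : ∀ m : ℕ, 0 < m → (m : ℝ) ≤ X ^ (1 / 3 : ℝ) → |G m| ≤ D) :
    |∑ m ∈ Ioc 0 ⌊X ^ (1 / 3 : ℝ)⌋₊, f m * G m| ≤ X ^ (1 / 3 : ℝ) * (B * D) := by
  have hX0 : 0 ≤ X := by linarith [hX.X1]
  have h0 : 0 ≤ X ^ (1 / 3 : ℝ) := Real.rpow_nonneg hX0 _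
  calc |∑ m ∈ Ioc 0 ⌊X ^ (1 / 3 : ℝ)⌋₊, f m * G m| ≤ ∑ m ∈ Ioc 0 ⌊X ^ (1 / 3 : ℝ)⌋₊, |f m * G m| :=
        abs_sum_le_sum_abs _ _
    _ ≤ ∑ m ∈ Ioc 0 ⌊X ^ (1 / 3 : ℝ)⌋₊, B * D := by
        apply sum_le_sum
        intro m hm
        rw [mem_Ioc] at hm
        rw [abs_mul]
        have h1 : (m : ℝ) ≤ X ^ (1 / 3 : ℝ) := by
          calc (m : ℝ) ≤ (⌊X ^ (1 / 3 : ℝ)⌋₊ : ℝ) := by exact_mod_cast hm.2
            _ ≤ _ := Nat.floor_le h0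
        exact mul_le_mul (hf m) (hG m hm.1 h1) (abs_nonneg _) hB
    _ = (⌊X ^ (1 / 3 : ℝ)⌋₊ : ℝ) * (B * D) := by
        rw [sum_const, Nat.card_Ioc, Nat.sub_zero, nsmul_eq_mul]
    _ ≤ _ := by
        apply mul_le_mul_of_nonneg_right (Nat.floor_le h0) (by positivity)

end CorrAaux

theorem corr_div {w₀ wh : ℝ → ℝ} {CA : ℕ → ℝ} (hW : Wt w₀ wh C CA) (hX : Lg X T C)
    (hCA : CA 20000 ≤ T) (hLL : ∀ i, LL (PS X i) ≤ 1)
    (j : ℤ) (hj : j ≠ 0) (hjX : |(j : ℝ)| ≤ X ^ eps4) (n₀ N : ℕ) (hn : n₀ ≤ N)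
    (hn0 : X ^ (9995 / 10000 : ℝ) ≤ (n₀ : ℝ) + 1) (hN : (N : ℝ) ≤ 4 * X)
    (lam : ℕ → ℝ) (A : ℝ) (hA : 1 ≤ A) (hlam : ∀ m, |lam m| ≤ A)
    (hsupp : ∀ m : ℕ, X ^ (667 / 1000 : ℝ) < (m : ℝ) → lam m = 0) :
    |∑ n ∈ Ioc n₀ N, (∑ m ∈ n.divisors, lam m) * FQ (Q2 X) ((n : ℤ) + j)| ≤
      A ^ 2 * X ^ (1 - 7 / 10 ^ 6 : ℝ) := by
  have hX1 := hX.X1
  have hX0 : 0 < X := by linarith
  have hT0 : (0 : ℝ) ≤ T := by linarith [hX.h10]
  set U := ⌊X ^ (1 / 3 : ℝ)⌋₊ with hU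
  set V := ⌊X ^ (667 / 1000 : ℝ)⌋₊ with hV
  have hUV : U ≤ V := Nat.floor_le_floor (Real.rpow_le_rpow_of_exponent_le hX1 (by norm_num))
  set G : ℕ → ℝ := fun m => ∑ t ∈ Ioc (n₀ / m) (N / m), FQ (Q2 X) ((m : ℤ) * t + j) with hG
  have h1 : ∑ n ∈ Ioc n₀ N, (∑ m ∈ n.divisors, lam m) * FQ (Q2 X) ((n : ℤ) + j) =
      ∑ m ∈ Ioc 0 N, lam m * G m := by
    have e1 : ∀ n ∈ Ioc n₀ N, (∑ m ∈ n.divisors, lam m) * FQ (Q2 X) ((n : ℤ) + j) =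
        ∑ m ∈ n.divisors, lam m * FQ (Q2 X) ((n : ℤ) + j) := by
      intro n _; rw [sum_mul]
    rw [sum_congr rfl e1, ca_swap n₀ N (fun m n => lam m * FQ (Q2 X) ((n : ℤ) + j))]
    apply sum_congr rfl
    intro m _
    rw [hG]
    simp only
    rw [mul_sum]
    apply sum_congr rfl
    intro t _
    push_cast
    rfl
  have h2 : ∑ m ∈ Ioc 0 N, lam m * G m = ∑ m ∈ Ioc 0 V, lam m * G m := by
    apply ca_range 0 V N
    · intro m hm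
      have : m = 0 := by omega
      subst this
      rw [hG]
      simp
    · intro m hm
      have : lam m = 0 := by
        apply hsupp
        exact (Nat.floor_lt (Real.rpow_nonneg hX0.le _)).1 hm
      rw [this, zero_mul]
    · intro m hm
      rw [hG]
      simp only
      rw [ca_empty hm]
      simp
  rw [h1, h2, ← Finset.sum_Ioc_consecutive _ (Nat.zero_le U) hUV]
  have h3 := ca_small hX lam A (by linarith) hlam G (2 * T ^ 3 * X ^ (501 / 1000 : ℝ)) (by positivity) (by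
    intro m hm0 hm
    exact ca_typeI hX hm0 hm j _ _ (Nat.div_le_div_right hn))
  have h4 := t2 hW hX hCA hLL j hj hjX n₀ N hn hn0 hN lam (fun _ => 1) A hlam
    (fun _ => by rw [abs_one]; exact hA) V (Nat.floor_le (Real.rpow_nonneg hX0.le _))
  have h5 : ∑ m ∈ Ioc U V, lam m * G m = ∑ m ∈ Ioc ⌊X ^ (1 / 3 : ℝ)⌋₊ V, ∑ t ∈ Ioc (n₀ / m) (N / m),
      lam m * (fun _ => (1 : ℝ)) t * FQ (Q2 X) ((m : ℤ) * t + j) := by
    apply sum_congr rfl; intro m _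
    rw [hG]
    simp only
    rw [mul_sum]
    apply sum_congr rfl; intro t _
    ring
  rw [← h5] at h4
  have h6 : 10 ^ 10 * T ^ 3 * X ^ (1 / 3 + 501 / 1000 : ℝ) ≤ X ^ (1 - 7 / 10 ^ 6 : ℝ) :=
    ca_absorb hX 3 (by unfold tau0; norm_num)
  have h7 : 10 ^ 10 * T ^ 0 * X ^ (1 - 8 / 10 ^ 6 : ℝ) ≤ X ^ (1 - 7 / 10 ^ 6 : ℝ) :=
    ca_absorb hX 0 (by unfold tau0; norm_num)
  rw [pow_zero, mul_one] at h7
  have h8 : X ^ (1 / 3 : ℝ) * (A * (2 * T ^ 3 * X ^ (501 / 1000 : ℝ))) =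
      A * (2 * T ^ 3 * X ^ (1 / 3 + 501 / 1000 : ℝ)) := by
    rw [Real.rpow_add hX0]; ring
  rw [h8] at h3
  have hAA : A ≤ A ^ 2 := by nlinarith
  have p1 : 0 ≤ T ^ 3 * X ^ (1 / 3 + 501 / 1000 : ℝ) := by positivity
  have p2 : 0 ≤ X ^ (1 - 8 / 10 ^ 6 : ℝ) := by positivity
  have p3 : 2 * T ^ 3 * X ^ (1 / 3 + 501 / 1000 : ℝ) ≤ 1 / 2 * X ^ (1 - 7 / 10 ^ 6 : ℝ) := by
    have : 10 ^ 10 * T ^ 3 * X ^ (1 / 3 + 501 / 1000 : ℝ) = 10 ^ 10 * (T ^ 3 * X ^ (1 / 3 + 501 / 1000 : ℝ)) := by ring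
    rw [this] at h6
    have : 2 * T ^ 3 * X ^ (1 / 3 + 501 / 1000 : ℝ) = 2 * (T ^ 3 * X ^ (1 / 3 + 501 / 1000 : ℝ)) := by ring
    rw [this]
    linarith
  have p4 : X ^ (1 - 8 / 10 ^ 6 : ℝ) ≤ 1 / 2 * X ^ (1 - 7 / 10 ^ 6 : ℝ) := by linarith
  refine (abs_add_le _ _).trans ((add_le_add h3 h4).trans ?_)
  have q1 : A * (2 * T ^ 3 * X ^ (1 / 3 + 501 / 1000 : ℝ)) ≤ A ^ 2 * (1 / 2 * X ^ (1 - 7 / 10 ^ 6 : ℝ)) :=
    mul_le_mul hAA p3 (by positivity) (by positivity)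
  have q2 : A ^ 2 * X ^ (1 - 8 / 10 ^ 6 : ℝ) ≤ A ^ 2 * (1 / 2 * X ^ (1 - 7 / 10 ^ 6 : ℝ)) :=
    mul_le_mul_of_nonneg_left p4 (by positivity)
  linarith

section CorrAaux2

/-- the twist -/
private noncomputable def kap (X : ℝ) (j : ℤ) (n₀ : ℕ) (n : ℕ) : ℂ :=
  if n₀ < n then ((FQ (Q2 X) ((n : ℤ) + j) : ℝ) : ℂ) else 0

private lemma ca_tw (j : ℤ) (n₀ N : ℕ) (hn : n₀ ≤ N) (f : ArithmeticFunction ℝ) :
    tw N (kap X j n₀) f = ((∑ n ∈ Ioc n₀ N, f n * FQ (Q2 X) ((n : ℤ) + j) : ℝ) : ℂ) := by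
  unfold tw
  rw [← Finset.sum_Ioc_consecutive _ (Nat.zero_le n₀) hn]
  have h1 : ∑ n ∈ Ioc 0 n₀, (f n : ℂ) * kap X j n₀ n = 0 := by
    apply sum_eq_zero
    intro n hn
    rw [mem_Ioc] at hn
    unfold kap
    rw [if_neg (by omega), mul_zero]
  rw [h1, zero_add, Complex.ofReal_sum]
  apply sum_congr rfl
  intro n hn
  rw [mem_Ioc] at hn
  unfold kap
  rw [if_pos hn.1]
  push_cast
  rfl

private lemma ca_tw_mul (j : ℤ) (n₀ N : ℕ) (f g : ArithmeticFunction ℝ) :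
    tw N (kap X j n₀) (f * g) = ((∑ m ∈ Ioc 0 N, f m * ∑ d ∈ Ioc (n₀ / m) (N / m),
      g d * FQ (Q2 X) ((m : ℤ) * d + j) : ℝ) : ℂ) := by
  rw [tw_mul, Complex.ofReal_sum]
  apply sum_congr rfl
  intro m hm
  rw [mem_Ioc] at hm
  have h1 : Ioc (n₀ / m) (N / m) = (Ioc 0 (N / m)).filter (fun d => n₀ < m * d) := by
    ext d
    rw [mem_filter, mem_Ioc, mem_Ioc, Nat.div_lt_iff_lt_mul hm.1, mul_comm d m]
    constructor
    · rintro ⟨a, b⟩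
      refine ⟨⟨?_, b⟩, a⟩
      rcases Nat.eq_zero_or_pos d with h | h
      · subst h; omega
      · exact h
    · rintro ⟨⟨a, b⟩, c⟩
      exact ⟨c, b⟩
  rw [h1, sum_filter, mul_sum, Complex.ofReal_sum]
  apply sum_congr rfl
  intro d _
  unfold kap
  split_ifs with h
  · push_cast
    ring
  · simp

end CorrAaux2

theorem corr_vM {w₀ wh : ℝ → ℝ} {CA : ℕ → ℝ} (hW : Wt w₀ wh C CA) (hX : Lg X T C)
    (hCA : CA 20000 ≤ T) (hLL : ∀ i, LL (PS X i) ≤ 1)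
    (j : ℤ) (hj : j ≠ 0) (hjX : |(j : ℝ)| ≤ X ^ eps4) (n₀ N : ℕ) (hn : n₀ ≤ N)
    (hn0 : X ^ (9995 / 10000 : ℝ) ≤ (n₀ : ℝ) + 1) (hN : (N : ℝ) ≤ 4 * X) :
    |∑ n ∈ Ioc n₀ N, vM n * FQ (Q2 X) ((n : ℤ) + j)| ≤ X ^ (1 - 6 / 10 ^ 6 : ℝ) := by
  have hX1 := hX.X1
  have hX0 : 0 < X := by linarith
  have hT0 : (0 : ℝ) ≤ T := by linarith [hX.h10]
  have hT1 : (1 : ℝ) ≤ T := by linarith [hX.h10]
  set U := ⌊X ^ (1 / 3 : ℝ)⌋₊ with hU
  have hx3 : 0 ≤ X ^ (1 / 3 : ℝ) := Real.rpow_nonneg hX0.le _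
  have hUle : (U : ℝ) ≤ X ^ (1 / 3 : ℝ) := Nat.floor_le hx3
  have hx3T : 10 ^ 10 ≤ X ^ (1 / 3 : ℝ) := by
    have := ca_absorb hX 0 (a := 0) (b := 1 / 3) (by unfold tau0; norm_num)
    rw [Real.rpow_zero, pow_zero] at this
    linarith
  have hUge : X ^ (1 / 3 : ℝ) / 2 ≤ (U : ℝ) := by
    have := Nat.sub_one_lt_floor (X ^ (1 / 3 : ℝ))
    linarith
  have hUpos : 0 < U := by
    have : (0 : ℝ) < U := by linarith
    exact_mod_cast this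
  have hUn0 : U ≤ n₀ := by
    have h1 : 10 ^ 10 * T ^ 0 * X ^ (1 / 3 : ℝ) ≤ X ^ (9995 / 10000 : ℝ) :=
      ca_absorb hX 0 (by unfold tau0; norm_num)
    rw [pow_zero, mul_one] at h1
    have h2 : (U : ℝ) ≤ n₀ := by linarith
    exact_mod_cast h2
  -- the decomposition
  have hdec := tw_vM N U (kap X j n₀)
  rw [ca_tw j n₀ N hn, ca_tw j n₀ N hn, ca_tw_mul, ca_tw_mul, ca_tw_mul, ca_tw_mul] at hdec
  have hz : ∑ n ∈ Ioc n₀ N, lo U vM n * FQ (Q2 X) ((n : ℤ) + j) = 0 := by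
    apply sum_eq_zero
    intro n hn
    rw [mem_Ioc] at hn
    rw [lo_apply, if_neg (by omega), zero_mul]
  rw [hz] at hdec
  set S2 := ∑ m ∈ Ioc 0 N, lo U muR m * ∑ d ∈ Ioc (n₀ / m) (N / m),
      ArithmeticFunction.log d * FQ (Q2 X) ((m : ℤ) * d + j) with hS2
  set S3 := ∑ m ∈ Ioc 0 N, lo U (cU U) m * ∑ d ∈ Ioc (n₀ / m) (N / m),
      zeR d * FQ (Q2 X) ((m : ℤ) * d + j) with hS3
  set S4 := ∑ m ∈ Ioc 0 N, hi U (cU U) m * ∑ d ∈ Ioc (n₀ / m) (N / m),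
      zeR d * FQ (Q2 X) ((m : ℤ) * d + j) with hS4
  set S5 := ∑ m ∈ Ioc 0 N, hi U muR m * ∑ d ∈ Ioc (n₀ / m) (N / m),
      (hi U vM * zeR) d * FQ (Q2 X) ((m : ℤ) * d + j) with hS5
  have hmain : ∑ n ∈ Ioc n₀ N, vM n * FQ (Q2 X) ((n : ℤ) + j) = S2 - S3 - S4 + S5 := by
    have : ((∑ n ∈ Ioc n₀ N, vM n * FQ (Q2 X) ((n : ℤ) + j) : ℝ) : ℂ) = ((S2 - S3 - S4 + S5 : ℝ) : ℂ) := by
      rw [hdec]; push_cast; ring
    exact_mod_cast this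
  rw [hmain]
  -- sizes
  have h4X := ca_4X hX
  have hNM : (N : ℝ) ≤ X ^ (10 : ℝ) := hN.trans h4X
  have hUU : ((U * U : ℕ) : ℝ) ≤ X ^ (2 / 3 : ℝ) := by
    push_cast
    calc (U : ℝ) * U ≤ X ^ (1 / 3 : ℝ) * X ^ (1 / 3 : ℝ) := by gcongr
      _ = X ^ (2 / 3 : ℝ) := by rw [← Real.rpow_add hX0]; norm_num
  have hzeR : ∀ d : ℕ, 0 < d → zeR d = 1 := by
    intro d hd
    rw [zeR_apply, if_neg (by omega)]
  have hcU : ∀ m, |cU U m| ≤ T := by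
    intro m
    rcases Nat.lt_or_ge (U * U) m with h | h
    · rw [cU_eq_zero U m h, abs_zero]; exact hT0
    · refine (cU_abs_le U m).trans (ca_log hX ?_)
      calc (m : ℝ) ≤ ((U * U : ℕ) : ℝ) := by exact_mod_cast h
        _ ≤ X ^ (2 / 3 : ℝ) := hUU
        _ ≤ X ^ (10 : ℝ) := Real.rpow_le_rpow_of_exponent_le hX1 (by norm_num)
  -- S2
  have b2 : |S2| ≤ X ^ (1 / 3 : ℝ) * (1 * (8 * T ^ 4 * X ^ (501 / 1000 : ℝ))) := by
    have e1 : S2 = ∑ m ∈ Ioc 0 U, lo U muR m * ∑ d ∈ Ioc (n₀ / m) (N / m),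
        ArithmeticFunction.log d * FQ (Q2 X) ((m : ℤ) * d + j) := by
      rw [hS2]
      apply ca_range 0 U N
      · intro m hm
        have : m = 0 := by omega
        subst this
        simp
      · intro m hm
        rw [lo_apply, if_neg (by omega), zero_mul]
      · intro m hm
        rw [ca_empty hm]; simp
    rw [e1]
    apply ca_small hX (fun m => lo U muR m) 1 (by norm_num) (lo_muR_abs_le U)
      (fun m => ∑ d ∈ Ioc (n₀ / m) (N / m), ArithmeticFunction.log d * FQ (Q2 X) ((m : ℤ) * d + j))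
      _ (by positivity)
    intro m hm0 hm
    have := ca_typeI_log hX hm0 hm j (n₀ / m) (N / m) (Nat.div_le_div_right hn) (by
      calc ((N / m : ℕ) : ℝ) ≤ (N : ℝ) := by exact_mod_cast Nat.div_le_self _ _
        _ ≤ _ := hNM)
    exact this
  -- S3
  have b3 : |S3| ≤ X ^ (1 / 3 : ℝ) * (T * (2 * T ^ 3 * X ^ (501 / 1000 : ℝ))) := by
    have e1 : S3 = ∑ m ∈ Ioc 0 U, lo U (cU U) m * ∑ d ∈ Ioc (n₀ / m) (N / m),
        zeR d * FQ (Q2 X) ((m : ℤ) * d + j) := by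
      rw [hS3]
      apply ca_range 0 U N
      · intro m hm
        have : m = 0 := by omega
        subst this
        simp
      · intro m hm
        rw [lo_apply, if_neg (by omega), zero_mul]
      · intro m hm
        rw [ca_empty hm]; simp
    rw [e1]
    apply ca_small hX (fun m => lo U (cU U) m) T hT0 _
      (fun m => ∑ d ∈ Ioc (n₀ / m) (N / m), zeR d * FQ (Q2 X) ((m : ℤ) * d + j))
      _ (by positivity)
    · intro m hm0 hm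
      have := ca_typeI hX hm0 hm j (n₀ / m) (N / m) (Nat.div_le_div_right hn)
      have e2 : ∑ d ∈ Ioc (n₀ / m) (N / m), zeR d * FQ (Q2 X) ((m : ℤ) * d + j) =
          ∑ d ∈ Ioc (n₀ / m) (N / m), FQ (Q2 X) ((m : ℤ) * d + j) := by
        apply sum_congr rfl
        intro d hd
        rw [mem_Ioc] at hd
        rw [hzeR d ((Nat.zero_le _).trans_lt hd.1), one_mul]
      rw [e2]
      exact this
    · intro m
      rw [lo_apply]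
      split_ifs with h
      · exact hcU m
      · rw [abs_zero]; exact hT0
  -- S4
  have b4 : |S4| ≤ T ^ 2 * X ^ (1 - 8 / 10 ^ 6 : ℝ) := by
    have h4 := t2 hW hX hCA hLL j hj hjX n₀ N hn hn0 hN (fun m => cU U m) (fun _ => 1) T hcU
      (fun _ => by rw [abs_one]; exact hT1) (U * U)
      (hUU.trans (Real.rpow_le_rpow_of_exponent_le hX1 (by norm_num)))
    have e1 : S4 = ∑ m ∈ Ioc U (U * U), hi U (cU U) m * ∑ d ∈ Ioc (n₀ / m) (N / m),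
        zeR d * FQ (Q2 X) ((m : ℤ) * d + j) := by
      rw [hS4]
      apply ca_range U (U * U) N
      · intro m hm
        rw [hi_apply, if_neg (by omega), zero_mul]
      · intro m hm
        rw [hi_apply]
        split_ifs with h
        · rw [cU_eq_zero U m hm, zero_mul]
        · rw [zero_mul]
      · intro m hm
        rw [ca_empty hm]; simp
    rw [e1]
    convert h4 using 2
    apply sum_congr rfl
    intro m hm
    rw [mem_Ioc] at hm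
    rw [hi_apply, if_pos hm.1, mul_sum]
    apply sum_congr rfl
    intro d hd
    rw [mem_Ioc] at hd
    rw [hzeR d ((Nat.zero_le _).trans_lt hd.1)]
    ring
  -- S5
  have b5 : |S5| ≤ T ^ 2 * X ^ (1 - 8 / 10 ^ 6 : ℝ) := by
    have hV : ((N / U : ℕ) : ℝ) ≤ X ^ (667 / 1000 : ℝ) := by
      have e1 : ((N / U : ℕ) : ℝ) ≤ (N : ℝ) / U := Nat.cast_div_le
      have hU0 : (0 : ℝ) < U := by exact_mod_cast hUpos
      have e2 : (N : ℝ) / U ≤ 8 * X ^ (2 / 3 : ℝ) := by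
        rw [div_le_iff₀ hU0]
        have e3 : X ^ (2 / 3 : ℝ) * X ^ (1 / 3 : ℝ) = X := by
          rw [← Real.rpow_add hX0]; norm_num
        have e4 : 0 ≤ X ^ (2 / 3 : ℝ) := Real.rpow_nonneg hX0.le _
        nlinarith
      have e5 : 10 ^ 10 * T ^ 0 * X ^ (2 / 3 : ℝ) ≤ X ^ (667 / 1000 : ℝ) :=
        ca_absorb hX 0 (by unfold tau0; norm_num)
      rw [pow_zero, mul_one] at e5
      have e4 : 0 ≤ X ^ (2 / 3 : ℝ) := Real.rpow_nonneg hX0.le _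
      linarith
    have h4 := t2 hW hX hCA hLL j hj hjX n₀ N hn hn0 hN (fun m => hi U muR m)
      (fun d => if d ≤ N then (hi U vM * zeR) d else 0) T
      (fun m => (hi_muR_abs_le U m).trans hT1) (fun d => by
        split_ifs with h
        · rw [abs_of_nonneg (vz_nonneg U d)]
          refine (vz_le U d).trans (ca_log hX ?_)
          calc (d : ℝ) ≤ N := by exact_mod_cast h
            _ ≤ _ := hNM
        · rw [abs_zero]; exact hT0) (N / U) hV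
    have e1 : S5 = ∑ m ∈ Ioc U (N / U), hi U muR m * ∑ d ∈ Ioc (n₀ / m) (N / m),
        (hi U vM * zeR) d * FQ (Q2 X) ((m : ℤ) * d + j) := by
      rw [hS5]
      apply ca_range U (N / U) N
      · intro m hm
        rw [hi_apply, if_neg (by omega), zero_mul]
      · intro m hm
        have hm0 : 0 < m := (Nat.zero_le _).trans_lt hm
        have e2 : ∑ d ∈ Ioc (n₀ / m) (N / m), (hi U vM * zeR) d * FQ (Q2 X) ((m : ℤ) * d + j) = 0 := by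
          apply sum_eq_zero
          intro d hd
          rw [mem_Ioc] at hd
          rw [vz_eq_zero U d, zero_mul]
          by_contra hcon
          rw [not_le] at hcon
          have e3 : U ≤ N / m := hcon.le.trans hd.2
          rw [Nat.le_div_iff_mul_le hm0] at e3
          have e4 : m ≤ N / U := by
            rw [Nat.le_div_iff_mul_le hUpos, mul_comm]; exact e3
          omega
        rw [e2, mul_zero]
      · intro m hm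
        rw [ca_empty hm]; simp
    rw [e1]
    convert h4 using 2
    apply sum_congr rfl
    intro m hm
    rw [mem_Ioc] at hm
    rw [mul_sum]
    apply sum_congr rfl
    intro d hd
    rw [mem_Ioc] at hd
    rw [if_pos (hd.2.trans (Nat.div_le_self _ _))]
    ring
  -- assembly
  have h6 : 10 ^ 10 * T ^ 4 * X ^ (1 / 3 + 501 / 1000 : ℝ) ≤ X ^ (1 - 6 / 10 ^ 6 : ℝ) :=
    ca_absorb hX 4 (by unfold tau0; norm_num)
  have h7 : 10 ^ 10 * T ^ 2 * X ^ (1 - 8 / 10 ^ 6 : ℝ) ≤ X ^ (1 - 6 / 10 ^ 6 : ℝ) :=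
    ca_absorb hX 2 (by unfold tau0; norm_num)
  have h8 : X ^ (1 / 3 : ℝ) * (1 * (8 * T ^ 4 * X ^ (501 / 1000 : ℝ))) =
      8 * (T ^ 4 * X ^ (1 / 3 + 501 / 1000 : ℝ)) := by
    rw [Real.rpow_add hX0]; ring
  have h9 : X ^ (1 / 3 : ℝ) * (T * (2 * T ^ 3 * X ^ (501 / 1000 : ℝ))) =
      2 * (T ^ 4 * X ^ (1 / 3 + 501 / 1000 : ℝ)) := by
    rw [Real.rpow_add hX0]; ring
  rw [h8] at b2
  rw [h9] at b3
  have p1 : 0 ≤ T ^ 4 * X ^ (1 / 3 + 501 / 1000 : ℝ) := by positivity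
  have p2 : 0 ≤ T ^ 2 * X ^ (1 - 8 / 10 ^ 6 : ℝ) := by positivity
  rw [mul_assoc] at h6 h7
  have habs : |S2 - S3 - S4 + S5| ≤ |S2| + |S3| + |S4| + |S5| := by
    rw [abs_le]
    constructor
    · linarith [neg_abs_le S2, le_abs_self S3, le_abs_self S4, neg_abs_le S5]
    · linarith [le_abs_self S2, neg_abs_le S3, neg_abs_le S4, le_abs_self S5]
  linarith

end Pool.Agent.Lib.MP_2a816b_nt.BH
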