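import Pool.Agent.Lib.MP_2a816b_nt.BH.CrossB
import Pool.Agent.Lib.MP_2a816b_nt.BH.CrossC

/-!
# JOB Cross: upper bound for the cross term

`cross_main`, `BN_full`, `lam_sum`: the sum is at most
`∑_u (u / φ(u)) [(φ(u)/u) S ψ(⌊N/u⌋) + (N/u) X ^ (-8/10^5) + X ^ (1/3) - (N/u) S + X ^ 0.491] + X ^ 0.992`, `ψ(m) = ∑_{n ≤ m} vM n`. Chebyshev: `ψ(m) ≤ 1.39 m` for `m ≥ m₀` (Mathlib: `Chebyshev.theta_le_log4_mul_x`, `log 4 < 1.3863`, and
`ψ - θ = O(√m log m)`, e.g. `Chebyshev.psi_le` / `abs_psi_sub_theta_le_sqrt_mul_log`), and `N / u ≥ X ^ 0.49` is large. So the bracket is `≤ S (1.39 N / u) φ(u)/u - (N/u) S + ...` and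
`(u/φ(u)) (φ(u)/u · 1.39 N/u - N/u) S = S N (1.39 / u - 1 / φ(u)) ≤ 0.39 S N / φ(u)`. Sum over `u`: `∑_u 1/φ(u) = ∏ LL (PS X i)` (`prod_LL`). The errors: `∑_u (u/φ(u)) (N/u) X ^ (-8/10^5) ≤ N X ^ (-8/10^5) ∏ LL`,
`∑_u (u/φ(u)) (X ^ (1/3) + X ^ 0.491) ≤ T · T X ^ 0.5005 · 2 X ^ 0.491 ≤ X ^ 0.992` (there are at most `T X ^ 0.5005` numbers `u`).
-/

set_option autoImplicit false

open Finset Real
open scoped Pointwise

namespace Pool.Agent.Lib.MP_2a816b_nt.BH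

private theorem cross_psi {x : ℝ} (hx : 10 ^ 16 ≤ x) : Chebyshev.psi x ≤ 139 / 100 * x := by
  have hx1 : (1 : ℝ) ≤ x := by linarith
  have hx0 : (0 : ℝ) < x := by linarith
  have h1 := Chebyshev.psi_le hx1
  have hl4 : Real.log 4 ≤ 1.3863 := by
    have e : (4 : ℝ) = 2 ^ 2 := by norm_num
    rw [e, Real.log_pow]
    have := Real.log_two_lt_d9
    push_cast
    linarith
  have hlog : Real.log x ≤ x ^ (1 / 4 : ℝ) / (1 / 4) :=
    Real.log_le_rpow_div hx0.le (by norm_num)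
  have hq : (10 : ℝ) ^ 4 ≤ x ^ (1 / 4 : ℝ) := by
    have e : (10 : ℝ) ^ 4 = ((10 : ℝ) ^ 16) ^ (1 / 4 : ℝ) := by
      rw [← Real.rpow_natCast (10 : ℝ) 16, ← Real.rpow_mul (by norm_num),
        ← Real.rpow_natCast (10 : ℝ) 4]
      norm_num
    rw [e]
    exact Real.rpow_le_rpow (by positivity) hx (by norm_num)
  have hsplit : x = x ^ (1 / 4 : ℝ) * (√x * x ^ (1 / 4 : ℝ)) := by
    rw [Real.sqrt_eq_rpow, ← Real.rpow_add hx0, ← Real.rpow_add hx0]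
    norm_num
  have hs : 0 ≤ √x * x ^ (1 / 4 : ℝ) := by positivity
  have h2 : 2 * √x * Real.log x ≤ 8 * (√x * x ^ (1 / 4 : ℝ)) := by
    have : √x * Real.log x ≤ √x * (x ^ (1 / 4 : ℝ) / (1 / 4)) :=
      mul_le_mul_of_nonneg_left hlog (Real.sqrt_nonneg _)
    linarith
  have h3 : (10 : ℝ) ^ 4 * (√x * x ^ (1 / 4 : ℝ)) ≤ x := by
    calc (10 : ℝ) ^ 4 * (√x * x ^ (1 / 4 : ℝ)) ≤ x ^ (1 / 4 : ℝ) * (√x * x ^ (1 / 4 : ℝ)) :=
          mul_le_mul_of_nonneg_right hq hs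
      _ = x := hsplit.symm
  have h4 : Real.log 4 * x ≤ 1.3863 * x := mul_le_mul_of_nonneg_right hl4 hx0.le
  linarith

theorem cross_le : ∃ C₄ : ℝ, ∀ (X T : ℝ), Lg X T C₄ → (∀ i, LL (PS X i) ≤ 1) →
    ∀ ε : ℝ, 0 < ε → ε ≤ 1 / 10 ^ 4 → ∀ N : ℕ, X / 2 ≤ (N : ℝ) → (N : ℝ) ≤ 4 * X →
    ∑ n ∈ Ioc 0 N, FQ (Q1 X ε) n * FQ (Q2 X) n ≤
      4 / 10 * (SR X * ∏ i, LL (PS X i)) * N + X ^ (1 - 7 / 10 ^ 5 : ℝ) := by
  obtain ⟨C₃, hC₃⟩ := lam_sum
  refine ⟨C₃, ?_⟩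
  intro X T hX hLL ε hε hε1 N hN1 hN2
  have hX1 : (1 : ℝ) ≤ X := hX.X1
  have hX0 : (0 : ℝ) < X := by linarith
  have hT : T = X ^ tau0 := hX.hT
  have hT10 : (10 : ℝ) ^ 10 ≤ T := hX.h10
  have hT0 : (0 : ℝ) < T := by linarith [show (0 : ℝ) < 10 ^ 10 by norm_num]
  have htau : tau0 = 1 / 10 ^ 7 := rfl
  -- powers
  have hpow : ∀ a : ℝ, 1 ≤ a * 10 ^ 7 → T ≤ X ^ a := by
    intro a ha
    rw [hT, htau]
    apply Real.rpow_le_rpow_of_exponent_le hX1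
    rw [div_le_iff₀ (by norm_num)]
    exact ha
  have hmono : ∀ a b : ℝ, a ≤ b → X ^ a ≤ X ^ b := fun a b hab =>
    Real.rpow_le_rpow_of_exponent_le hX1 hab
  -- the main inequality
  have hε100 : ε ≤ 1 / 100 := hε1.trans (by norm_num)
  have hmain := cross_main hX hLL ε hε hε100 N hN2
  have hmain' := (abs_le.1 hmain).2
  set U : Finset ℕ := ∏ i, PS X i with hU
  -- facts on `u`
  have hmem : ∀ u ∈ U, Squarefree u ∧ X ^ (5005 / 10000 : ℝ) ≤ (u : ℝ) ∧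
      (u : ℝ) ≤ T * X ^ (5005 / 10000 : ℝ) := by
    intro u hu
    have h := mem_prod_PS hX univ hu
    rw [exs_univ] at h
    exact ⟨h.1, h.2.1, h.2.2.1⟩
  have hTX : T * X ^ (5005 / 10000 : ℝ) ≤ X ^ (501 / 1000 : ℝ) := by
    rw [hT, htau, ← Real.rpow_add hX0]
    exact hmono _ _ (by norm_num)
  have huM : ∀ u ∈ U, u ≤ ⌊X ^ (10 : ℝ)⌋₊ := by
    intro u hu
    apply Nat.le_floor
    exact ((hmem u hu).2.2.trans hTX).trans (hmono _ _ (by norm_num))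
  have hSR : 0 ≤ SR X := by
    unfold SR
    exact sum_nonneg fun r _ => by positivity
  have hbigm : ∀ u ∈ U, (10 : ℝ) ^ 16 ≤ ((N / u : ℕ) : ℝ) := by
    intro u hu
    obtain ⟨h1, h2, h3⟩ := hmem u hu
    have hu0 : 0 < u := Nat.pos_of_ne_zero h1.ne_zero
    have hu0' : (0 : ℝ) < u := by exact_mod_cast hu0
    have h4 : (N : ℝ) / u < ((N / u : ℕ) : ℝ) + 1 := by
      rw [div_lt_iff₀ hu0']
      have : N < (N / u + 1) * u := by
        have := Nat.div_add_mod N u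
        have h5 := Nat.mod_lt N hu0
        nlinarith
      exact_mod_cast this
    have h6 : X ^ (499 / 1000 : ℝ) / 2 ≤ (N : ℝ) / u := by
      rw [le_div_iff₀ hu0']
      calc X ^ (499 / 1000 : ℝ) / 2 * u ≤ X ^ (499 / 1000 : ℝ) / 2 * X ^ (501 / 1000 : ℝ) :=
            mul_le_mul_of_nonneg_left (h3.trans hTX) (by positivity)
        _ = X ^ ((499 / 1000 : ℝ) + 501 / 1000) / 2 := by
            rw [Real.rpow_add hX0]; ring
        _ = X / 2 := by norm_num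
        _ ≤ N := hN1
    have h7 : T ^ 2 ≤ X ^ (499 / 1000 : ℝ) := by
      have e : X ^ (499 / 1000 : ℝ) = X ^ (2 / 10 : ℝ) * X ^ (299 / 1000 : ℝ) := by
        rw [← Real.rpow_add hX0]; norm_num
      rw [e, sq]
      exact mul_le_mul (hpow _ (by norm_num)) (hpow _ (by norm_num)) hT0.le (by positivity)
    have h8 : (10 : ℝ) ^ 20 ≤ T ^ 2 := by
      calc (10 : ℝ) ^ 20 = (10 ^ 10) ^ 2 := by norm_num
        _ ≤ T ^ 2 := pow_le_pow_left₀ (by norm_num) hT10 2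
    have h9 : (10 : ℝ) ^ 16 + 1 ≤ 10 ^ 20 / 2 := by norm_num
    linarith
  -- the bound for each `u`
  set E1 : ℝ := X ^ (-(8 / 10 ^ 5) : ℝ) with hE1
  set E2 : ℝ := X ^ (1 / 3 : ℝ) + X ^ (491 / 1000 : ℝ) with hE2
  have hE1nn : 0 ≤ E1 := by positivity
  have hE2nn : 0 ≤ E2 := by positivity
  have hterm : ∀ u ∈ U, (u : ℝ) / (u.totient : ℝ) * (BN X ε N u - (N : ℝ) / u * mu X ε u) ≤
      39 / 100 * SR X * N * (1 / (u.totient : ℝ)) + N * E1 * (1 / (u.totient : ℝ)) + T * E2 := by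
    intro u hu
    obtain ⟨h1, h2, h3⟩ := hmem u hu
    have hu0 : 0 < u := Nat.pos_of_ne_zero h1.ne_zero
    have hu0' : (0 : ℝ) < u := by exact_mod_cast hu0
    have hφ0 : (0 : ℝ) < u.totient := by exact_mod_cast Nat.totient_pos.2 hu0
    have hφu : (u.totient : ℝ) ≤ u := by exact_mod_cast Nat.totient_le u
    have hB := BN_full hX ε hε hε100 N u hN2 hu
    have hS := hC₃ X T hX ε hε hε1 N u hN2 hu
    have hψ : ∑ n ∈ Ioc 0 (N / u), vM n ≤ 139 / 100 * ((N : ℝ) / u) := by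
      have e : ∑ n ∈ Ioc 0 (N / u), vM n = Chebyshev.psi ((N / u : ℕ) : ℝ) := by
        unfold Chebyshev.psi
        rw [Nat.floor_natCast]
        rfl
      rw [e]
      refine (cross_psi (hbigm u hu)).trans ?_
      apply mul_le_mul_of_nonneg_left Nat.cast_div_le (by norm_num)
    have hT' : (u : ℝ) / (u.totient : ℝ) ≤ T := div_totient_le hX.big h1 (huM u hu)
    have hr0 : 0 ≤ (u : ℝ) / (u.totient : ℝ) := by positivity
    have hstep : BN X ε N u - (N : ℝ) / u * mu X ε u ≤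
        (u.totient : ℝ) / u * SR X * (139 / 100 * ((N : ℝ) / u)) + ((N : ℝ) / u) * E1 -
          (N : ℝ) / u * SR X + E2 := by
      have h5 : (u.totient : ℝ) / u * SR X * ∑ n ∈ Ioc 0 (N / u), vM n ≤
          (u.totient : ℝ) / u * SR X * (139 / 100 * ((N : ℝ) / u)) :=
        mul_le_mul_of_nonneg_left hψ (by positivity)
      rw [← hE1] at hS
      rw [hE2]
      linarith
    calc (u : ℝ) / (u.totient : ℝ) * (BN X ε N u - (N : ℝ) / u * mu X ε u)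
        ≤ (u : ℝ) / (u.totient : ℝ) * ((u.totient : ℝ) / u * SR X * (139 / 100 * ((N : ℝ) / u)) +
          ((N : ℝ) / u) * E1 - (N : ℝ) / u * SR X + E2) := mul_le_mul_of_nonneg_left hstep hr0
      _ = 139 / 100 * (SR X * N) * (1 / (u : ℝ)) + N * E1 * (1 / (u.totient : ℝ)) -
          SR X * N * (1 / (u.totient : ℝ)) + (u : ℝ) / (u.totient : ℝ) * E2 := by
          field_simp
      _ ≤ 139 / 100 * (SR X * N) * (1 / (u.totient : ℝ)) + N * E1 * (1 / (u.totient : ℝ)) -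
          SR X * N * (1 / (u.totient : ℝ)) + T * E2 := by
          have h6 : 139 / 100 * (SR X * N) * (1 / (u : ℝ)) ≤
              139 / 100 * (SR X * N) * (1 / (u.totient : ℝ)) :=
            mul_le_mul_of_nonneg_left (one_div_le_one_div_of_le hφ0 hφu) (by positivity)
          have h7 := mul_le_mul_of_nonneg_right hT' hE2nn
          linarith
      _ = _ := by ring
  have hsumφ : ∑ u ∈ U, 1 / (u.totient : ℝ) = ∏ i, LL (PS X i) :=
    (prod_LL (fun i i' h => cross_PS hX i i' h) (fun i p hp => (mem_PS hp hX1).1) univ).symm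
  have hLL0 : ∀ i, 0 ≤ LL (PS X i) := by
    intro i
    unfold LL
    refine sum_nonneg fun p hp => ?_
    have h1 : (1 : ℝ) ≤ p := by exact_mod_cast (mem_PS hp hX1).1.one_le
    have : (0 : ℝ) ≤ (p : ℝ) - 1 := by linarith
    positivity
  have hL1 : ∏ i, LL (PS X i) ≤ 1 := prod_le_one (fun i _ => hLL0 i) (fun i _ => hLL i)
  have hL0 : 0 ≤ ∏ i, LL (PS X i) := prod_nonneg (fun i _ => hLL0 i)
  have hcard : (U.card : ℝ) ≤ T * X ^ (5005 / 10000 : ℝ) := by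
    have h1 : U ⊆ Ioc 0 ⌊T * X ^ (5005 / 10000 : ℝ)⌋₊ := by
      intro u hu
      rw [mem_Ioc]
      exact ⟨Nat.pos_of_ne_zero (hmem u hu).1.ne_zero, Nat.le_floor (hmem u hu).2.2⟩
    have h2 := card_le_card h1
    rw [Nat.card_Ioc, Nat.sub_zero] at h2
    calc (U.card : ℝ) ≤ (⌊T * X ^ (5005 / 10000 : ℝ)⌋₊ : ℝ) := by exact_mod_cast h2
      _ ≤ _ := Nat.floor_le (by positivity)
  have hsum : ∑ u ∈ U, (u : ℝ) / (u.totient : ℝ) * (BN X ε N u - (N : ℝ) / u * mu X ε u) ≤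
      39 / 100 * SR X * N * (∏ i, LL (PS X i)) + N * E1 * (∏ i, LL (PS X i)) +
        (T * X ^ (5005 / 10000 : ℝ)) * (T * E2) := by
    refine (sum_le_sum hterm).trans ?_
    rw [sum_add_distrib, sum_add_distrib, ← mul_sum, ← mul_sum, hsumφ, sum_const, nsmul_eq_mul]
    have := mul_le_mul_of_nonneg_right hcard (show 0 ≤ T * E2 by positivity)
    linarith
  -- the errors
  set Y : ℝ := X ^ (1 - 8 / 10 ^ 5 : ℝ) with hY
  have hY0 : 0 ≤ Y := by positivity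
  have he1 : (N : ℝ) * E1 * (∏ i, LL (PS X i)) ≤ 4 * Y := by
    calc (N : ℝ) * E1 * (∏ i, LL (PS X i)) ≤ (N : ℝ) * E1 * 1 :=
          mul_le_mul_of_nonneg_left hL1 (by positivity)
      _ = (N : ℝ) * E1 := mul_one _
      _ ≤ (4 * X) * E1 := mul_le_mul_of_nonneg_right hN2 hE1nn
      _ = 4 * Y := by
          rw [hY, hE1, sub_eq_add_neg, Real.rpow_add hX0, Real.rpow_one]
          ring
  have he2 : (T * X ^ (5005 / 10000 : ℝ)) * (T * E2) ≤ 2 * Y := by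
    have h1 : E2 ≤ 2 * X ^ (491 / 1000 : ℝ) := by
      have := hmono (1 / 3) (491 / 1000) (by norm_num)
      rw [hE2]
      linarith
    have h2 : T * X ^ (491 / 1000 : ℝ) ≤ X ^ (492 / 1000 : ℝ) := by
      rw [hT, htau, ← Real.rpow_add hX0]
      exact hmono _ _ (by norm_num)
    have h3 : T * E2 ≤ 2 * X ^ (492 / 1000 : ℝ) := by
      have := mul_le_mul_of_nonneg_left h1 hT0.le
      linarith
    calc (T * X ^ (5005 / 10000 : ℝ)) * (T * E2)
        ≤ X ^ (501 / 1000 : ℝ) * (2 * X ^ (492 / 1000 : ℝ)) :=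
          mul_le_mul hTX h3 (by positivity) (by positivity)
      _ = 2 * X ^ ((501 / 1000 : ℝ) + 492 / 1000) := by rw [Real.rpow_add hX0]; ring
      _ ≤ 2 * Y := by
          have := hmono ((501 / 1000 : ℝ) + 492 / 1000) (1 - 8 / 10 ^ 5) (by norm_num)
          linarith
  have he3 : X ^ (992 / 1000 : ℝ) ≤ Y := hmono _ _ (by norm_num)
  have he4 : 7 * Y ≤ X ^ (1 - 7 / 10 ^ 5 : ℝ) := by
    have e : X ^ (1 - 7 / 10 ^ 5 : ℝ) = X ^ (1 / 10 ^ 5 : ℝ) * Y := by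
      rw [hY, ← Real.rpow_add hX0]; norm_num
    rw [e]
    apply mul_le_mul_of_nonneg_right _ hY0
    have := hpow (1 / 10 ^ 5) (by norm_num)
    have h5 : (7 : ℝ) ≤ 10 ^ 10 := by norm_num
    linarith
  have hfin : 39 / 100 * SR X * N * (∏ i, LL (PS X i)) ≤
      4 / 10 * (SR X * ∏ i, LL (PS X i)) * N := by
    have h1 : 0 ≤ SR X * (∏ i, LL (PS X i)) * N := by positivity
    have e1 : 39 / 100 * SR X * N * (∏ i, LL (PS X i)) =
        39 / 100 * (SR X * (∏ i, LL (PS X i)) * N) := by ring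
    have e2 : 4 / 10 * (SR X * ∏ i, LL (PS X i)) * N =
        4 / 10 * (SR X * (∏ i, LL (PS X i)) * N) := by ring
    rw [e1, e2]
    linarith
  linarith

end Pool.Agent.Lib.MP_2a816b_nt.BH
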