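import Pool.Agent.Lib.MP_2a816b_nt.BH.Par
import Pool.Agent.Lib.MP_2a816b_nt.BH.RamC
import Pool.Agent.Lib.MP_2a816b_nt.BH.QB

/-!
# JOB CrossA: the cross term: expansion of `G` and mean values

`G_expand`: `∏_i x_i = ∏_i ((x_i - L_i) + L_i) = ∑_I ∏_{i ∈ I} (x_i - L_i) ∏_{i ∉ I} L_i` (`Finset.prod_add`) and `top_term`.

`cross_expand`: multiply by `F_{Q1}(n) F_{RS}(n)`, sum over `n ≤ N`, write `n = u n'`; `F_{RS}(u n') = F_{RS}(n')` because `u` is prime to all `r ∈ RS` (`bc_mul_arg`, `cross_RS`).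

`BN_mean`: for `q` squarefree and `g = (q, u)`, `q' = q / g`: `bc q (u n') = bc g (u n') bc q' (u n') = μ(g) bc q' n'` (all primes of `g` divide `u n'`, `q'` is prime to `u`). So `BN N u = ∑_{q ∈ Q1} ∑_{r ∈ RS} μ(g) ∑_{n' ≤ N/u} bc q' n' bc r n'` and by
`corr_ne`, `corr_eq` (with `j = 0`), `bq_bc_zero`, the inner sum is `⌊N/u⌋ [q' = r] / φ(r) + O(2 T ^ 4)`. So with `mu(u) = ∑_{q ∈ Q1} μ((q,u)) [q / (q,u) ∈ RS] / φ(q / (q,u))`:
`|BN N u - ⌊N/u⌋ mu(u)| ≤ 2 T ^ 4 #Q1 #RS`, and `|(N/u - ⌊N/u⌋) mu(u)| ≤ #Q1`.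
-/

set_option autoImplicit false

open Finset Real
open scoped Pointwise

namespace Pool.Agent.Lib.MP_2a816b_nt.BH

variable {X T C : ℝ}

theorem G_expand (hX : Lg X T C) (n : ℤ) : ∏ i, FQ (PS X i) n =
    ∑ I ∈ (univ : Finset (Fin 6)).powerset, (-1) ^ I.card * (∏ i ∈ univ \ I, LL (PS X i)) *
      ∑ u ∈ (∏ i ∈ I, PS X i).filter (fun u : ℕ => (u : ℤ) ∣ n), (u : ℝ) / (u.totient : ℝ) := by
  have hP : ∀ i i' : Fin 6, i ≠ i' → Cross (PS X i) (PS X i') := fun i i' h => cross_PS hX i i' h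
  have hp : ∀ i : Fin 6, ∀ p ∈ PS X i, p.Prime := fun i p h => (mem_PS h hX.X1).1
  have h1 : ∏ i, FQ (PS X i) n =
      ∏ i : Fin 6, ((FQ (PS X i) n - LL (PS X i)) + LL (PS X i)) :=
    prod_congr rfl fun i _ => by ring
  rw [h1, prod_add]
  apply sum_congr rfl
  intro I _
  rw [top_term hP hp I n]
  ring

/-- the sum over the multiples of `u` -/
noncomputable def BN (X ε : ℝ) (N u : ℕ) : ℝ :=
  ∑ n ∈ Ioc 0 (N / u), FQ (Q1 X ε) ((u : ℤ) * n) * FQ (RS X) n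

/-- the sum over the multiples of `u` -/
private lemma CrossA_mult (u N : ℕ) (hu : 0 < u) (g : ℤ → ℝ) :
    ∑ n ∈ Ioc 0 N, (if (u : ℤ) ∣ (n : ℤ) then g n else 0) =
      ∑ m ∈ Ioc 0 (N / u), g ((u : ℤ) * m) := by
  rw [← sum_filter]
  symm
  refine sum_nbij' (fun m => u * m) (fun n => n / u) ?_ ?_ ?_ ?_ ?_
  · intro m hm
    rw [mem_Ioc] at hm
    rw [mem_filter, mem_Ioc]
    refine ⟨⟨Nat.mul_pos hu hm.1, ?_⟩, ?_⟩
    · calc u * m ≤ u * (N / u) := Nat.mul_le_mul_left _ hm.2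
        _ ≤ N := Nat.mul_div_le N u
    · push_cast; exact dvd_mul_right _ _
  · intro n hn
    rw [mem_filter, mem_Ioc] at hn
    have hd : u ∣ n := by exact_mod_cast hn.2
    rw [mem_Ioc]
    exact ⟨Nat.div_pos (Nat.le_of_dvd hn.1.1 hd) hu, Nat.div_le_div_right hn.1.2⟩
  · intro m _
    exact Nat.mul_div_cancel_left m hu
  · intro n hn
    rw [mem_filter] at hn
    have hd : u ∣ n := by exact_mod_cast hn.2
    exact Nat.mul_div_cancel' hd
  · intro m _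
    push_cast
    rfl

private lemma CrossA_upos (hX : Lg X T C) {I : Finset (Fin 6)} {u : ℕ} (hu : u ∈ ∏ i ∈ I, PS X i) :
    0 < u := Nat.pos_of_ne_zero (mem_prod_PS hX I hu).1.ne_zero

private lemma CrossA_RS (hX : Lg X T C) {I : Finset (Fin 6)} {u : ℕ} (hu : u ∈ ∏ i ∈ I, PS X i)
    (n : ℤ) : FQ (RS X) ((u : ℤ) * n) = FQ (RS X) n := by
  unfold FQ
  apply sum_congr rfl
  intro r hr
  have hc := cross_RS hX I r hr u hu
  exact bc_mul_arg (mem_RS hr hX.X1).1.ne_zero (Nat.isCoprime_iff_coprime.2 hc.symm) n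

theorem cross_expand (hX : Lg X T C) (ε : ℝ) (N : ℕ) :
    ∑ n ∈ Ioc 0 N, FQ (Q1 X ε) n * FQ (Q2 X) n =
      ∑ I ∈ (univ : Finset (Fin 6)).powerset, (-1) ^ I.card * (∏ i ∈ univ \ I, LL (PS X i)) *
        ∑ u ∈ ∏ i ∈ I, PS X i, (u : ℝ) / (u.totient : ℝ) * BN X ε N u := by
  have h1 : ∀ n ∈ Ioc 0 N, FQ (Q1 X ε) (n : ℤ) * FQ (Q2 X) n =
      ∑ I ∈ (univ : Finset (Fin 6)).powerset, (-1) ^ I.card * (∏ i ∈ univ \ I, LL (PS X i)) *
        ∑ u ∈ ∏ i ∈ I, PS X i, (u : ℝ) / (u.totient : ℝ) *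
          (if (u : ℤ) ∣ (n : ℤ) then FQ (Q1 X ε) n * FQ (RS X) n else 0) := by
    intro n _
    rw [FQ_Q2 hX, G_expand hX, mul_sum, mul_sum]
    apply sum_congr rfl
    intro I _
    rw [sum_filter]
    have h2 : ∑ u ∈ ∏ i ∈ I, PS X i, (u : ℝ) / (u.totient : ℝ) *
          (if (u : ℤ) ∣ (n : ℤ) then FQ (Q1 X ε) n * FQ (RS X) n else 0) =
        (FQ (Q1 X ε) n * FQ (RS X) n) * ∑ u ∈ ∏ i ∈ I, PS X i,
          (if (u : ℤ) ∣ (n : ℤ) then (u : ℝ) / (u.totient : ℝ) else 0) := by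
      rw [mul_sum]
      apply sum_congr rfl
      intro u _
      split_ifs <;> ring
    rw [h2]
    ring
  rw [sum_congr rfl h1, sum_comm]
  apply sum_congr rfl
  intro I _
  rw [← mul_sum, sum_comm]
  congr 1
  apply sum_congr rfl
  intro u hu
  rw [← mul_sum, CrossA_mult u N (CrossA_upos hX hu) (fun n => FQ (Q1 X ε) n * FQ (RS X) n)]
  unfold BN
  congr 1
  apply sum_congr rfl
  intro m _
  rw [CrossA_RS hX hu]

/-- the mean value of `F_{Q1}(u n) F_{RS}(n)` -/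
noncomputable def mu (X ε : ℝ) (u : ℕ) : ℝ :=
  ∑ q ∈ Q1 X ε, ((ArithmeticFunction.moebius (q.gcd u) : ℤ) : ℝ) *
    (if q / q.gcd u ∈ RS X then 1 / ((q / q.gcd u).totient : ℝ) else 0)

/-- `bc g` at a multiple of `g` is `μ(g)` -/
private lemma CrossA_moebius {g : ℕ} (hg : Squarefree g) {n : ℤ} (hn : (g : ℤ) ∣ n) :
    bc g n = ((ArithmeticFunction.moebius g : ℤ) : ℝ) := by
  unfold bc
  have h1 : ∏ p ∈ g.primeFactors, (if (p : ℤ) ∣ n then (-1 : ℝ) else 1 / ((p : ℝ) - 1)) =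
      ∏ p ∈ g.primeFactors, (-1 : ℝ) := by
    apply prod_congr rfl
    intro p hp
    rw [if_pos ((Int.natCast_dvd_natCast.2 (Nat.dvd_of_mem_primeFactors hp)).trans hn)]
  have h2 := ArithmeticFunction.isMultiplicative_moebius.map_prod_of_subset_primeFactors g
    g.primeFactors (subset_refl _)
  rw [Nat.prod_primeFactors_of_squarefree hg] at h2
  rw [h1, h2]
  push_cast
  apply prod_congr rfl
  intro p hp
  rw [ArithmeticFunction.moebius_apply_prime (Nat.prime_of_mem_primeFactors hp)]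
  push_cast
  rfl

/-- the factorisation of `bc q (u n)` -/
private lemma CrossA_split {q u : ℕ} (hq : Squarefree q) (n : ℤ) :
    bc q ((u : ℤ) * n) =
      ((ArithmeticFunction.moebius (q.gcd u) : ℤ) : ℝ) * bc (q / q.gcd u) n := by
  have hq0 : 0 < q := Nat.pos_of_ne_zero hq.ne_zero
  have hg0 : 0 < q.gcd u := Nat.gcd_pos_of_pos_left _ hq0
  have h1 : q.gcd u * (q / q.gcd u) = q := Nat.mul_div_cancel' (Nat.gcd_dvd_left q u)
  have hsq : Squarefree (q.gcd u * (q / q.gcd u)) := by rw [h1]; exact hq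
  obtain ⟨hc, hs1, hs2⟩ := Nat.squarefree_mul_iff.1 hsq
  have hcu : (q / q.gcd u).Coprime u := by
    apply Nat.coprime_of_dvd
    intro p hp hp1 hp2
    have hpq : p ∣ q := hp1.trans (Nat.div_dvd_of_dvd (Nat.gcd_dvd_left q u))
    have hpg : p ∣ q.gcd u := Nat.dvd_gcd hpq hp2
    have := Nat.dvd_gcd hpg hp1
    rw [Nat.coprime_iff_gcd_eq_one.1 hc] at this
    exact hp.one_lt.ne' (Nat.dvd_one.1 this)
  have h2 : bc q ((u : ℤ) * n) = bc (q.gcd u) ((u : ℤ) * n) * bc (q / q.gcd u) ((u : ℤ) * n) := by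
    conv_lhs => rw [← h1]
    exact bc_mul hc _
  rw [h2, CrossA_moebius hs1 (dvd_mul_of_dvd_left (by exact_mod_cast Nat.gcd_dvd_right q u) n),
    bc_mul_arg hs2.ne_zero (Nat.isCoprime_iff_coprime.2 hcu.symm) n]

private lemma CrossA_moebius_abs (n : ℕ) : |((ArithmeticFunction.moebius n : ℤ) : ℝ)| ≤ 1 := by
  rw [← Int.cast_abs]
  exact_mod_cast ArithmeticFunction.abs_moebius_le_one

theorem BN_mean (hX : Lg X T C) (ε : ℝ) (hε : 0 < ε) (hε1 : ε ≤ 1 / 100) (I : Finset (Fin 6))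
    (u : ℕ) (hu : u ∈ ∏ i ∈ I, PS X i) (N : ℕ) :
    |BN X ε N u - (N : ℝ) / u * mu X ε u| ≤ 3 * T ^ 4 * X ^ (1 / 2 - ε + eps4) := by
  have hX1 := hX.X1
  have hX0 : 0 < X := by linarith
  have hT1 : 100 ≤ T := hX.big.one
  have hT4 : 1 ≤ T ^ 4 := one_le_pow₀ (by linarith)
  have hu0 := CrossA_upos hX hu
  set M := ⌊X ^ (10 : ℝ)⌋₊ with hM
  -- sizes
  have hQ1c : ((Q1 X ε).card : ℝ) ≤ X ^ (1 / 2 - ε) := by
    have h1 : (Q1 X ε).card ≤ ⌊X ^ (1 / 2 - ε)⌋₊ := by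
      unfold Q1
      refine (card_filter_le _ _).trans ?_
      rw [Nat.card_Ioc]
      exact Nat.sub_le _ _
    exact (Nat.cast_le.2 h1).trans (Nat.floor_le (Real.rpow_nonneg hX0.le _))
  have hRSc : ((RS X).card : ℝ) ≤ X ^ eps4 := by
    have h1 : (RS X).card ≤ ⌊X ^ eps4⌋₊ := by
      unfold RS
      refine (card_filter_le _ _).trans ?_
      rw [Nat.card_Ioc, Nat.sub_zero]
    exact (Nat.cast_le.2 h1).trans (Nat.floor_le (Real.rpow_nonneg hX0.le _))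
  have hQm : ∀ q ∈ Q1 X ε, Squarefree q ∧ q ≤ M := by
    intro q hq
    unfold Q1 at hq
    rw [mem_filter, mem_Ioc] at hq
    refine ⟨hq.2, hq.1.2.trans ?_⟩
    apply Nat.floor_le_floor
    exact Real.rpow_le_rpow_of_exponent_le hX1 (by linarith)
  have hRm : ∀ r ∈ RS X, Squarefree r ∧ r ≤ M := by
    intro r hr
    obtain ⟨h1, _, h3⟩ := mem_RS hr hX1
    refine ⟨h1, Nat.le_floor (h3.trans ?_)⟩
    apply Real.rpow_le_rpow_of_exponent_le hX1
    unfold eps4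
    norm_num
  have hXe : 1 ≤ X ^ eps4 := Real.one_le_rpow hX1 (by unfold eps4; norm_num)
  -- expansion
  have hBN : BN X ε N u = ∑ q ∈ Q1 X ε, ∑ r ∈ RS X,
      ((ArithmeticFunction.moebius (q.gcd u) : ℤ) : ℝ) *
        ∑ n ∈ Ioc 0 (0 + N / u), bc (q / q.gcd u) n * bc r ((n : ℤ) + 0) := by
    unfold BN FQ
    have h1 : ∀ n ∈ Ioc 0 (N / u), (∑ q ∈ Q1 X ε, bc q ((u : ℤ) * n)) * ∑ r ∈ RS X, bc r (n : ℤ) =
        ∑ q ∈ Q1 X ε, ∑ r ∈ RS X, ((ArithmeticFunction.moebius (q.gcd u) : ℤ) : ℝ) *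
          (bc (q / q.gcd u) n * bc r ((n : ℤ) + 0)) := by
      intro n _
      rw [sum_mul_sum]
      apply sum_congr rfl
      intro q hq
      apply sum_congr rfl
      intro r _
      rw [CrossA_split (hQm q hq).1, add_zero]
      ring
    rw [sum_congr rfl h1, sum_comm, zero_add]
    apply sum_congr rfl
    intro q _
    rw [sum_comm]
    apply sum_congr rfl
    intro r _
    rw [mul_sum]
  have hmu : ((N / u : ℕ) : ℝ) * mu X ε u = ∑ q ∈ Q1 X ε, ∑ r ∈ RS X,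
      ((ArithmeticFunction.moebius (q.gcd u) : ℤ) : ℝ) *
        (if q / q.gcd u = r then ((N / u : ℕ) : ℝ) * (1 / ((q / q.gcd u).totient : ℝ)) else 0) := by
    unfold mu
    rw [mul_sum]
    apply sum_congr rfl
    intro q _
    rw [← mul_sum, sum_ite_eq]
    split_ifs <;> ring
  have hdiff : |BN X ε N u - ((N / u : ℕ) : ℝ) * mu X ε u| ≤
      (Q1 X ε).card * ((RS X).card * (2 * T ^ 4)) := by
    rw [hBN, hmu, ← sum_sub_distrib]
    refine (abs_sum_le_sum_abs _ _).trans ?_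
    refine (sum_le_card_nsmul _ _ ((RS X).card * (2 * T ^ 4)) ?_).trans
      (le_of_eq (nsmul_eq_mul _ _))
    intro q hq
    rw [← sum_sub_distrib]
    refine (abs_sum_le_sum_abs _ _).trans ?_
    refine (sum_le_card_nsmul _ _ (2 * T ^ 4) ?_).trans (le_of_eq (nsmul_eq_mul _ _))
    intro r hr
    rw [← mul_sub, abs_mul]
    have hq' := hQm q hq
    have hr' := hRm r hr
    have hqq : Squarefree (q / q.gcd u) :=
      hq'.1.squarefree_of_dvd (Nat.div_dvd_of_dvd (Nat.gcd_dvd_left q u))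
    have hqqM : q / q.gcd u ≤ M := (Nat.div_le_self _ _).trans hq'.2
    have hin : |∑ n ∈ Ioc 0 (0 + N / u), bc (q / q.gcd u) n * bc r ((n : ℤ) + 0) -
        (if q / q.gcd u = r then ((N / u : ℕ) : ℝ) * (1 / ((q / q.gcd u).totient : ℝ)) else 0)| ≤
        2 * T ^ 4 := by
      split_ifs with h
      · have h3 := corr_eq hX.big hqq hqqM 0 0 (N / u)
        rw [bq_bc_zero hqq] at h3
        rw [← h]
        exact h3
      · rw [sub_zero]
        exact corr_ne hX.big hqq hr'.1 hqqM hr'.2 h 0 0 (N / u)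
    calc |((ArithmeticFunction.moebius (q.gcd u) : ℤ) : ℝ)| * _ ≤ 1 * (2 * T ^ 4) :=
          mul_le_mul (CrossA_moebius_abs _) hin (abs_nonneg _) zero_le_one
      _ = 2 * T ^ 4 := one_mul _
  have hmuabs : |mu X ε u| ≤ (Q1 X ε).card := by
    unfold mu
    refine (abs_sum_le_sum_abs _ _).trans ?_
    have : ((Q1 X ε).card : ℝ) = ∑ q ∈ Q1 X ε, (1 : ℝ) := by simp
    rw [this]
    apply sum_le_sum
    intro q hq
    rw [abs_mul]
    refine mul_le_one₀ (CrossA_moebius_abs _) (abs_nonneg _) ?_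
    split_ifs
    · have hq' := hQm q hq
      have hqq : Squarefree (q / q.gcd u) :=
        hq'.1.squarefree_of_dvd (Nat.div_dvd_of_dvd (Nat.gcd_dvd_left q u))
      have h1 : (1 : ℝ) ≤ ((q / q.gcd u).totient : ℝ) := by
        exact_mod_cast Nat.totient_pos.2 (Nat.pos_of_ne_zero hqq.ne_zero)
      rw [abs_of_nonneg (by positivity), div_le_one (by linarith)]
      exact h1
    · rw [abs_zero]; exact zero_le_one
  have hfl : |((N / u : ℕ) : ℝ) - (N : ℝ) / u| ≤ 1 := by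
    have hur : (0 : ℝ) < u := by exact_mod_cast hu0
    have h1 : ((N / u : ℕ) : ℝ) ≤ (N : ℝ) / u := Nat.cast_div_le
    have h2 : (N : ℝ) / u < ((N / u : ℕ) : ℝ) + 1 := by
      rw [div_lt_iff₀ hur]
      have h3 : N < (N / u + 1) * u := by
        have := Nat.lt_mul_div_succ N hu0
        rw [mul_comm]; exact this
      exact_mod_cast h3
    rw [abs_le]
    constructor <;> linarith
  have hsecond : |(((N / u : ℕ) : ℝ) - (N : ℝ) / u) * mu X ε u| ≤ (Q1 X ε).card := by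
    rw [abs_mul]
    calc |((N / u : ℕ) : ℝ) - (N : ℝ) / u| * |mu X ε u| ≤ 1 * (Q1 X ε).card :=
          mul_le_mul hfl hmuabs (abs_nonneg _) zero_le_one
      _ = _ := one_mul _
  have htri : |BN X ε N u - (N : ℝ) / u * mu X ε u| ≤
      (Q1 X ε).card * ((RS X).card * (2 * T ^ 4)) + (Q1 X ε).card := by
    have e : BN X ε N u - (N : ℝ) / u * mu X ε u =
        (BN X ε N u - ((N / u : ℕ) : ℝ) * mu X ε u) + (((N / u : ℕ) : ℝ) - (N : ℝ) / u) * mu X ε u := by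
      ring
    rw [e]
    exact (abs_add_le _ _).trans (add_le_add hdiff hsecond)
  refine htri.trans ?_
  have hA0 : 0 < X ^ (1 / 2 - ε) := Real.rpow_pos_of_pos hX0 _
  rw [Real.rpow_add hX0]
  calc ((Q1 X ε).card : ℝ) * ((RS X).card * (2 * T ^ 4)) + (Q1 X ε).card
      ≤ X ^ (1 / 2 - ε) * (X ^ eps4 * (2 * T ^ 4)) + X ^ (1 / 2 - ε) * (X ^ eps4 * T ^ 4) := by
        apply add_le_add
        · gcongr
        · calc ((Q1 X ε).card : ℝ) ≤ X ^ (1 / 2 - ε) * 1 := by rw [mul_one]; exact hQ1c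
            _ ≤ X ^ (1 / 2 - ε) * (X ^ eps4 * T ^ 4) := by
              apply mul_le_mul_of_nonneg_left _ hA0.le
              exact one_le_mul_of_one_le_of_one_le hXe hT4
    _ = 3 * T ^ 4 * (X ^ (1 / 2 - ε) * X ^ eps4) := by ring

end Pool.Agent.Lib.MP_2a816b_nt.BH
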