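import Pool.Agent.Lib.MP_2a816b_nt.BH.DDef

/-!
# JOB D1: the first Cauchy-Schwarz inequality and the diagonal

`first`: the left side is `∑_{u ∈ SU} ∑_{k ≤ K} α_k c_u (∑_{l, u ∣ k l + j} β_l F(k l + j))`; Cauchy-Schwarz over the pairs `(u, k)`, whose number is at most
`T U K` (`SU ⊆ (0, T U]`), `w(k / K) ≥ 1` for `0 < k ≤ K`, and all terms of `S2` are `≥ 0`.

`split`: expand the square in `S2`. Diagonal `l₁ = l₂`: at most `T L` values `l`, `2 ⌈2 K⌉ + 1 ≤ 7 K` values `k`, `w ≤ C`, for given `k, l` at most `T` values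
`u ∣ k l + j`, and `F ^ 2 ≤ T ^ 6` (`sum_abs_bc_le`; `k l + j ≠ 0` as `0 < |j| ≤ L < l`, and `|k l + j| ≤ M`): at most `7 C T ^ 8 K L`.
Off-diagonal: `u ∣ k l₁ + j` and `u ∣ k l₂ + j` iff `u ∣ k l₁ + j` and `u ∣ l₁ - l₂` (as `u ∣ k (l₁ - l₂)` and `(u, k) = 1`: a prime dividing
`u` and `k` divides `j`, but it is `≥ y > |j|`); expand the product of the two `F_{SV}` and split the pairs `(v₁, v₂)` into good and bad.
The bad ones are estimated by absolute values.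
-/

set_option autoImplicit false

open Finset Real
open scoped Pointwise

namespace Pool.Agent.Lib.MP_2a816b_nt.BH

namespace DD

variable {M : ℕ} {T : ℝ} (d : DD M T)

private lemma D1_card (S : Finset ℕ) (X : ℝ) (h : ∀ n ∈ S, 0 < n ∧ (n : ℝ) ≤ X) (hX : 0 ≤ X) :
    (S.card : ℝ) ≤ X := by
  have h1 : S ⊆ Ioc 0 ⌊X⌋₊ := by
    intro n hn
    obtain ⟨h2, h3⟩ := h n hn
    exact mem_Ioc.2 ⟨h2, Nat.le_floor h3⟩
  have h2 := card_le_card h1
  rw [Nat.card_Ioc, Nat.sub_zero] at h2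
  calc (S.card : ℝ) ≤ (⌊X⌋₊ : ℝ) := by exact_mod_cast h2
    _ ≤ X := Nat.floor_le hX

include d in
private lemma D1_T : 100 ≤ T := d.hB.one

private lemma D1_pos_u {u : ℕ} (hu : u ∈ d.SU) : 0 < u := by
  have h1 := (d.hSU u hu).1
  have h2 := d.hU1
  have : (0 : ℝ) < u := by linarith
  exact_mod_cast this

private lemma D1_pos_l {l : ℕ} (hl : l ∈ d.SL) : 0 < l := by
  have h1 := (d.hSL l hl).2.1
  have h2 := d.hL1
  have : (0 : ℝ) < l := by linarith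
  exact_mod_cast this

private lemma D1_SV {v : ℕ} (hv : v ∈ d.SV) : Squarefree v ∧ v ≤ M := by
  obtain ⟨z, hz, w, hw, rfl⟩ := mem_mul.1 hv
  have hT := d.D1_T
  have hZ := d.hSZ z hz
  have hW := d.hSW w hw
  have hU1 := d.hU1
  have hW1 := d.hW1
  have hZ1 := d.hZ1
  have hL1 := d.hL1
  have hK1 := d.hK1
  have hN1 : (1 : ℝ) ≤ d.N := by exact_mod_cast d.hN1
  refine ⟨(Nat.squarefree_mul (d.cZW z hz w hw)).2 ⟨hZ.1.squarefree, hW.1⟩, ?_⟩
  have h1 : ((z * w : ℕ) : ℝ) ≤ T ^ 2 * (d.W * d.Z) := by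
    push_cast
    calc (z : ℝ) * w ≤ (T * d.Z) * (T * d.W) := by
          gcongr
          · exact hZ.2.2.1
          · exact hW.2.2.1
      _ = T ^ 2 * (d.W * d.Z) := by ring
  have h2 : d.W * d.Z ≤ d.U * d.W * d.Z * d.L * d.K * d.N := by
    have e1 : d.U * d.W * d.Z * d.L * d.K * d.N = (d.W * d.Z) * (d.U * (d.L * (d.K * d.N))) := by
      ring
    rw [e1]
    refine le_mul_of_one_le_right (by positivity) ?_
    have a1 : 1 ≤ d.K * d.N := one_le_mul_of_one_le_of_one_le hK1 hN1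
    have a2 : 1 ≤ d.L * (d.K * d.N) := one_le_mul_of_one_le_of_one_le hL1 a1
    exact one_le_mul_of_one_le_of_one_le hU1 a2
  have h3 : 1 ≤ d.W * d.Z := one_le_mul_of_one_le_of_one_le hW1 hZ1
  have h4 : d.W * d.Z ≤ (d.U * d.W * d.Z * d.L * d.K * d.N) ^ 2 := by
    have : 1 ≤ d.U * d.W * d.Z * d.L * d.K * d.N := le_trans h3 h2
    nlinarith
  have h5 : T ^ 2 ≤ T ^ 20 := pow_le_pow_right₀ (by linarith) (by norm_num)
  have h6 : T ^ 2 * (d.W * d.Z) ≤ (M : ℝ) :=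
    le_trans (mul_le_mul h5 h4 (by positivity) (by positivity)) d.hM
  exact_mod_cast le_trans h1 h6

/-- the numbers `k l + j` are nonzero and at most `M` -/
private lemma D1_n {k : ℤ} (hk : k ∈ d.SK) {l : ℕ} (hl : l ∈ d.SL) :
    k * l + d.j ≠ 0 ∧ (k * l + d.j).natAbs ≤ M := by
  have hT := d.D1_T
  have hU1 := d.hU1
  have hW1 := d.hW1
  have hZ1 := d.hZ1
  have hL1 := d.hL1
  have hK1 := d.hK1
  have hN1 : (1 : ℝ) ≤ d.N := by exact_mod_cast d.hN1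
  have hlL := (d.hSL l hl).2
  have hl0 : (0 : ℝ) < l := by linarith [hlL.1]
  constructor
  · intro h0
    have h1 : (l : ℤ) ∣ d.j := by
      have h2 : d.j = l * (-k) := by linarith
      exact ⟨-k, h2⟩
    have h2 : (l : ℤ) ≤ |d.j| := Int.le_of_dvd (abs_pos.2 d.hj) ((dvd_abs _ _).2 h1)
    have h3 : (l : ℝ) ≤ |(d.j : ℝ)| := by exact_mod_cast h2
    linarith [d.hjL, hlL.1]
  · rw [SK, mem_Icc] at hk
    have hc : (⌈2 * d.K⌉ : ℝ) ≤ 3 * d.K := by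
      have := Int.ceil_lt_add_one (2 * d.K)
      linarith
    have hk1 : |(k : ℝ)| ≤ 3 * d.K := by
      have h1 : (-⌈2 * d.K⌉ : ℝ) ≤ k := by exact_mod_cast hk.1
      have h2 : (k : ℝ) ≤ ⌈2 * d.K⌉ := by exact_mod_cast hk.2
      rw [abs_le]
      constructor <;> linarith
    have h3 : |((k * l + d.j : ℤ) : ℝ)| ≤ 4 * T * (d.L * d.K) := by
      push_cast
      calc |(k : ℝ) * l + d.j| ≤ |(k : ℝ) * l| + |(d.j : ℝ)| := abs_add_le _ _
        _ = |(k : ℝ)| * l + |(d.j : ℝ)| := by rw [abs_mul, abs_of_pos hl0]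
        _ ≤ (3 * d.K) * (T * d.L) + d.L := by
            gcongr
            · exact hlL.2
            · exact d.hjL
        _ ≤ (3 * d.K) * (T * d.L) + T * (d.L * d.K) := by
            have h4 : d.L ≤ d.L * d.K := le_mul_of_one_le_right (by linarith) hK1
            have h5 : d.L * d.K ≤ T * (d.L * d.K) :=
              le_mul_of_one_le_left (by positivity) (by linarith)
            linarith
        _ = 4 * T * (d.L * d.K) := by ring
    have h6 : d.L * d.K ≤ d.U * d.W * d.Z * d.L * d.K * d.N := by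
      have e1 : d.U * d.W * d.Z * d.L * d.K * d.N = (d.L * d.K) * (d.U * (d.W * (d.Z * d.N))) := by
        ring
      rw [e1]
      refine le_mul_of_one_le_right (by positivity) ?_
      have a1 : 1 ≤ d.Z * d.N := one_le_mul_of_one_le_of_one_le hZ1 hN1
      have a2 : 1 ≤ d.W * (d.Z * d.N) := one_le_mul_of_one_le_of_one_le hW1 a1
      exact one_le_mul_of_one_le_of_one_le hU1 a2
    have h7 : 1 ≤ d.L * d.K := one_le_mul_of_one_le_of_one_le hL1 hK1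
    have h8 : d.L * d.K ≤ (d.U * d.W * d.Z * d.L * d.K * d.N) ^ 2 := by
      have : 1 ≤ d.U * d.W * d.Z * d.L * d.K * d.N := le_trans h7 h6
      nlinarith
    have h9 : 4 * T ≤ T ^ 20 := by
      calc 4 * T ≤ T * T := by nlinarith
        _ = T ^ 2 := by ring
        _ ≤ T ^ 20 := pow_le_pow_right₀ (by linarith) (by norm_num)
    have h10 : |((k * l + d.j : ℤ) : ℝ)| ≤ (M : ℝ) :=
      h3.trans ((mul_le_mul h9 h8 (by positivity) (by positivity)).trans d.hM)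
    have h11 : |k * l + d.j| ≤ (M : ℤ) := by exact_mod_cast h10
    have h12 := Int.natCast_natAbs (k * l + d.j)
    omega

private lemma D1_FQ {k : ℤ} (hk : k ∈ d.SK) {l : ℕ} (hl : l ∈ d.SL) :
    |FQ d.SV (k * l + d.j)| ≤ T ^ 3 :=
  abs_FQ_le d.hB d.SV (fun _ hv => d.D1_SV hv) _ (d.D1_n hk hl).1 (d.D1_n hk hl).2

/-- `u` is prime to `k` if `u ∣ k l + j` -/
private lemma D1_cop {u : ℕ} (hu : u ∈ d.SU) {k : ℤ} {l : ℕ} (h : (u : ℤ) ∣ k * l + d.j) :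
    IsCoprime (u : ℤ) k := by
  rw [Int.isCoprime_iff_gcd_eq_one]
  by_contra hne
  have hne' : ¬ Nat.Coprime u k.natAbs := by
    intro h1
    apply hne
    rw [Int.gcd_eq_natAbs, Int.natAbs_natCast]
    exact h1
  obtain ⟨p, hp, hpu, hpk⟩ := Nat.Prime.not_coprime_iff_dvd.1 hne'
  have h1 : (p : ℤ) ∣ k * l + d.j := dvd_trans (by exact_mod_cast hpu) h
  have h2 : (p : ℤ) ∣ k * l := dvd_mul_of_dvd_left (Int.natCast_dvd.2 hpk) _
  have h3 : (p : ℤ) ∣ d.j := (dvd_add_right h2).1 h1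
  have h4 : (p : ℤ) ≤ |d.j| := Int.le_of_dvd (abs_pos.2 d.hj) ((dvd_abs _ _).2 h3)
  have h5 : (p : ℝ) ≤ |(d.j : ℝ)| := by exact_mod_cast h4
  have h6 := (d.hSU u hu).2.2 p hp hpu
  linarith [d.hjy]

theorem first {w wh : ℝ → ℝ} {C : ℝ} {CA : ℕ → ℝ} (hw : Wt w wh C CA) (α β c : ℕ → ℝ)
    (hα : ∀ k, |α k| ≤ 1) (hβ : ∀ l, |β l| ≤ 1) (hc : ∀ u, |c u| ≤ 1) :
    (∑ k ∈ Ioc 0 ⌊d.K⌋₊, ∑ l ∈ d.SL, α k * β l *
      ((∑ u ∈ d.SU.filter (fun u : ℕ => (u : ℤ) ∣ (k : ℤ) * l + d.j), c u) *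
        FQ d.SV ((k : ℤ) * l + d.j))) ^ 2 ≤ T * d.U * d.K * d.S2 w β := by
  have hT := d.D1_T
  have hU1 := d.hU1
  have hK1 := d.hK1
  set G : ℕ → ℤ → ℝ := fun u k =>
    ∑ l ∈ d.SL.filter (fun l : ℕ => (u : ℤ) ∣ k * l + d.j), β l * FQ d.SV (k * l + d.j) with hG
  have h1 : ∑ k ∈ Ioc 0 ⌊d.K⌋₊, ∑ l ∈ d.SL, α k * β l *
      ((∑ u ∈ d.SU.filter (fun u : ℕ => (u : ℤ) ∣ (k : ℤ) * l + d.j), c u) *
        FQ d.SV ((k : ℤ) * l + d.j)) =
      ∑ x ∈ d.SU ×ˢ Ioc 0 ⌊d.K⌋₊, (c x.1 * α x.2) * G x.1 x.2 := by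
    rw [sum_product, sum_comm (s := d.SU)]
    apply sum_congr rfl
    intro k _
    simp only [hG, sum_filter, mul_sum, sum_mul]
    rw [sum_comm]
    apply sum_congr rfl
    intro u _
    apply sum_congr rfl
    intro l _
    split_ifs <;> ring
  rw [h1]
  have h2 := sum_mul_sq_le_sq_mul_sq (d.SU ×ˢ Ioc 0 ⌊d.K⌋₊) (fun x => c x.1 * α x.2)
    (fun x => G x.1 x.2)
  refine h2.trans ?_
  have h3 : ∑ x ∈ d.SU ×ˢ Ioc 0 ⌊d.K⌋₊, (c x.1 * α x.2) ^ 2 ≤ T * d.U * d.K := by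
    calc ∑ x ∈ d.SU ×ˢ Ioc 0 ⌊d.K⌋₊, (c x.1 * α x.2) ^ 2
        ≤ ∑ _x ∈ d.SU ×ˢ Ioc 0 ⌊d.K⌋₊, (1 : ℝ) := by
          apply sum_le_sum
          intro x _
          rw [← sq_abs, abs_mul]
          have e1 : |c x.1| * |α x.2| ≤ 1 := mul_le_one₀ (hc _) (abs_nonneg _) (hα _)
          have e2 : 0 ≤ |c x.1| * |α x.2| := by positivity
          nlinarith
      _ = (d.SU.card : ℝ) * (⌊d.K⌋₊ : ℝ) := by
          rw [sum_const, card_product, Nat.card_Ioc, Nat.sub_zero, nsmul_eq_mul, mul_one]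
          push_cast
          ring
      _ ≤ (T * d.U) * d.K := by
          gcongr
          · exact D1_card d.SU (T * d.U) (fun u hu => ⟨d.D1_pos_u hu, (d.hSU u hu).2.1⟩)
              (by positivity)
          · exact Nat.floor_le (by linarith)
  have h4 : ∑ x ∈ d.SU ×ˢ Ioc 0 ⌊d.K⌋₊, (G x.1 x.2) ^ 2 ≤ d.S2 w β := by
    rw [sum_product]
    unfold S2
    apply sum_le_sum
    intro u _
    let f : ℕ ↪ ℤ := ⟨fun n => (n : ℤ), fun a b h => by simpa using h⟩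
    have e1 : ∑ k ∈ Ioc 0 ⌊d.K⌋₊, (G u (k : ℤ)) ^ 2 = ∑ k ∈ (Ioc 0 ⌊d.K⌋₊).map f, (G u k) ^ 2 := by
      rw [sum_map]
      rfl
    have e2 : (Ioc 0 ⌊d.K⌋₊).map f ⊆ d.SK := by
      intro k hk
      obtain ⟨n, hn, rfl⟩ := mem_map.1 hk
      rw [mem_Ioc] at hn
      change (n : ℤ) ∈ d.SK
      rw [SK, mem_Icc]
      have e3 : (n : ℝ) ≤ d.K := (Nat.le_floor_iff (by linarith)).1 hn.2
      have e4 : (n : ℤ) ≤ ⌈2 * d.K⌉ := by
        have : ((n : ℤ) : ℝ) ≤ ⌈2 * d.K⌉ := by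
          have := Int.le_ceil (2 * d.K)
          push_cast
          linarith
        exact_mod_cast this
      omega
    calc ∑ k ∈ Ioc 0 ⌊d.K⌋₊, (G u (k : ℤ)) ^ 2
        = ∑ k ∈ (Ioc 0 ⌊d.K⌋₊).map f, (G u k) ^ 2 := e1
      _ ≤ ∑ k ∈ (Ioc 0 ⌊d.K⌋₊).map f, w ((k : ℝ) / d.K) * (G u k) ^ 2 := by
          apply sum_le_sum
          intro k hk
          obtain ⟨n, hn, rfl⟩ := mem_map.1 hk
          rw [mem_Ioc] at hn
          have e3 : (n : ℝ) ≤ d.K := (Nat.le_floor_iff (by linarith)).1 hn.2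
          have e4 : 1 ≤ w (((f n : ℤ) : ℝ) / d.K) := by
            apply hw.one
            change |(((n : ℕ) : ℤ) : ℝ) / d.K| ≤ 1
            rw [Int.cast_natCast, abs_of_nonneg (by positivity), div_le_one (by linarith)]
            exact e3
          exact le_mul_of_one_le_left (sq_nonneg _) e4
      _ ≤ ∑ k ∈ d.SK, w ((k : ℝ) / d.K) * (G u k) ^ 2 := by
          apply sum_le_sum_of_subset_of_nonneg e2
          intro k _ _
          exact mul_nonneg (hw.nonneg _) (sq_nonneg _)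
  exact mul_le_mul h3 h4 (sum_nonneg fun x _ => sq_nonneg _) (by positivity)

/-- the bad part, in absolute values -/
noncomputable def BadSum : ℝ :=
  ∑ u ∈ d.SU, ∑ x ∈ d.SLL u, ∑ k ∈ d.SK.filter (fun k => (u : ℤ) ∣ k * x.1 + d.j),
    ∑ v ∈ (d.SV ×ˢ d.SV).filter (fun v => ¬ Good v.1 v.2 x.1 x.2),
      |bc v.1 (k * x.1 + d.j)| * |bc v.2 (k * x.2 + d.j)|

theorem split {w wh : ℝ → ℝ} {C : ℝ} {CA : ℕ → ℝ} (hw : Wt w wh C CA) (β : ℕ → ℝ)
    (hβ : ∀ l, |β l| ≤ 1) :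
    d.S2 w β ≤ 7 * C * T ^ 8 * (d.K * d.L) + C * d.BadSum + |d.GoodSum w β| := by
  have hT := d.D1_T
  have hU1 := d.hU1
  have hK1 := d.hK1
  have hL1 := d.hL1
  have hC : 0 ≤ C := by linarith [hw.C1]
  -- the expansion of the square
  have hexp : ∀ u ∈ d.SU, ∀ k ∈ d.SK,
      (∑ l ∈ d.SL.filter (fun l : ℕ => (u : ℤ) ∣ k * l + d.j), β l * FQ d.SV (k * l + d.j)) ^ 2 =
      ∑ l ∈ d.SL.filter (fun l : ℕ => (u : ℤ) ∣ k * l + d.j), (β l * FQ d.SV (k * l + d.j)) ^ 2 +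
      ∑ x ∈ (d.SLL u).filter (fun x => (u : ℤ) ∣ k * x.1 + d.j),
        (β x.1 * FQ d.SV (k * x.1 + d.j)) * (β x.2 * FQ d.SV (k * x.2 + d.j)) := by
    intro u hu k hk
    set A : Finset ℕ := d.SL.filter (fun l : ℕ => (u : ℤ) ∣ k * l + d.j) with hA
    set g : ℕ → ℝ := fun l => β l * FQ d.SV (k * l + d.j) with hg
    have e1 : (∑ l ∈ A, g l) ^ 2 = ∑ x ∈ A ×ˢ A, g x.1 * g x.2 := by
      rw [sq, sum_mul_sum, sum_product]
    have e2 : ∑ x ∈ (A ×ˢ A).filter (fun x => x.1 = x.2), g x.1 * g x.2 = ∑ l ∈ A, (g l) ^ 2 := by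
      symm
      apply sum_bij (fun (l : ℕ) _ => (l, l))
      · intro l hl
        rw [mem_filter, mem_product]
        exact ⟨⟨hl, hl⟩, rfl⟩
      · intro a _ b _ hab
        exact congrArg Prod.fst hab
      · intro x hx
        rw [mem_filter, mem_product] at hx
        exact ⟨x.1, hx.1.1, Prod.ext rfl hx.2⟩
      · intro l _
        exact sq _
    have e3 : (A ×ˢ A).filter (fun x => ¬ x.1 = x.2) =
        (d.SLL u).filter (fun x => (u : ℤ) ∣ k * x.1 + d.j) := by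
      ext x
      rw [mem_filter, mem_product, hA, mem_filter, mem_filter, mem_filter, SLL, mem_filter,
        mem_product]
      constructor
      · rintro ⟨⟨⟨h1, h2⟩, h3, h4⟩, h5⟩
        refine ⟨⟨⟨h1, h3⟩, h5, ?_⟩, h2⟩
        have h6 : (u : ℤ) ∣ k * ((x.1 : ℤ) - x.2) := by
          have := dvd_sub h2 h4
          have e : (k * (x.1 : ℤ) + d.j) - (k * x.2 + d.j) = k * ((x.1 : ℤ) - x.2) := by ring
          rwa [e] at this
        exact (d.D1_cop hu h2).dvd_of_dvd_mul_left h6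
      · rintro ⟨⟨⟨h1, h3⟩, h5, h6⟩, h2⟩
        refine ⟨⟨⟨h1, h2⟩, h3, ?_⟩, h5⟩
        have e : k * (x.2 : ℤ) + d.j = (k * x.1 + d.j) - k * ((x.1 : ℤ) - x.2) := by ring
        rw [e]
        exact dvd_sub h2 (h6.mul_left k)
    rw [e1, ← sum_filter_add_sum_filter_not (A ×ˢ A) (fun x => x.1 = x.2), e2, e3]
  -- the product of the two `FQ`
  have hFF : ∀ (k : ℤ) (x : ℕ × ℕ),
      (β x.1 * FQ d.SV (k * x.1 + d.j)) * (β x.2 * FQ d.SV (k * x.2 + d.j)) =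
      β x.1 * β x.2 * ∑ v ∈ (d.SV ×ˢ d.SV).filter (fun v => Good v.1 v.2 x.1 x.2),
        bc v.1 (k * x.1 + d.j) * bc v.2 (k * x.2 + d.j) +
      β x.1 * β x.2 * ∑ v ∈ (d.SV ×ˢ d.SV).filter (fun v => ¬ Good v.1 v.2 x.1 x.2),
        bc v.1 (k * x.1 + d.j) * bc v.2 (k * x.2 + d.j) := by
    intro k x
    rw [← mul_add, sum_filter_add_sum_filter_not, sum_product]
    unfold FQ
    change _ = β x.1 * β x.2 *
      ∑ a ∈ d.SV, ∑ b ∈ d.SV, bc a (k * x.1 + d.j) * bc b (k * x.2 + d.j)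
    rw [← sum_mul_sum]
    ring
  have hS2 : d.S2 w β =
      ∑ u ∈ d.SU, ∑ k ∈ d.SK, w ((k : ℝ) / d.K) *
        ∑ l ∈ d.SL.filter (fun l : ℕ => (u : ℤ) ∣ k * l + d.j), (β l * FQ d.SV (k * l + d.j)) ^ 2 +
      (∑ u ∈ d.SU, ∑ k ∈ d.SK, ∑ x ∈ (d.SLL u).filter (fun x => (u : ℤ) ∣ k * x.1 + d.j),
        w ((k : ℝ) / d.K) * (β x.1 * β x.2 *
          ∑ v ∈ (d.SV ×ˢ d.SV).filter (fun v => Good v.1 v.2 x.1 x.2),
            bc v.1 (k * x.1 + d.j) * bc v.2 (k * x.2 + d.j)) +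
      ∑ u ∈ d.SU, ∑ k ∈ d.SK, ∑ x ∈ (d.SLL u).filter (fun x => (u : ℤ) ∣ k * x.1 + d.j),
        w ((k : ℝ) / d.K) * (β x.1 * β x.2 *
          ∑ v ∈ (d.SV ×ˢ d.SV).filter (fun v => ¬ Good v.1 v.2 x.1 x.2),
            bc v.1 (k * x.1 + d.j) * bc v.2 (k * x.2 + d.j))) := by
    unfold S2
    rw [← sum_add_distrib, ← sum_add_distrib]
    apply sum_congr rfl
    intro u hu
    rw [← sum_add_distrib, ← sum_add_distrib]
    apply sum_congr rfl
    intro k hk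
    rw [hexp u hu k hk, ← sum_add_distrib, mul_add, mul_sum (s := (d.SLL u).filter _)]
    congr 1
    apply sum_congr rfl
    intro x _
    rw [hFF k x, mul_add]
  -- the diagonal
  have hdiag : ∑ u ∈ d.SU, ∑ k ∈ d.SK, w ((k : ℝ) / d.K) *
      ∑ l ∈ d.SL.filter (fun l : ℕ => (u : ℤ) ∣ k * l + d.j), (β l * FQ d.SV (k * l + d.j)) ^ 2 ≤
      7 * C * T ^ 8 * (d.K * d.L) := by
    have e1 : ∑ u ∈ d.SU, ∑ k ∈ d.SK, w ((k : ℝ) / d.K) *
        ∑ l ∈ d.SL.filter (fun l : ℕ => (u : ℤ) ∣ k * l + d.j), (β l * FQ d.SV (k * l + d.j)) ^ 2 =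
        ∑ k ∈ d.SK, ∑ l ∈ d.SL, ∑ u ∈ d.SU.filter (fun u : ℕ => (u : ℤ) ∣ k * l + d.j),
          w ((k : ℝ) / d.K) * (β l * FQ d.SV (k * l + d.j)) ^ 2 := by
      rw [sum_comm]
      apply sum_congr rfl
      intro k _
      simp only [sum_filter, mul_sum]
      rw [sum_comm]
      apply sum_congr rfl
      intro l _
      apply sum_congr rfl
      intro u _
      split_ifs <;> ring
    rw [e1]
    have e2 : ∀ k ∈ d.SK, ∀ l ∈ d.SL,
        ∑ u ∈ d.SU.filter (fun u : ℕ => (u : ℤ) ∣ k * l + d.j),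
          w ((k : ℝ) / d.K) * (β l * FQ d.SV (k * l + d.j)) ^ 2 ≤ T * (C * T ^ 6) := by
      intro k hk l hl
      obtain ⟨hn0, hnM⟩ := d.D1_n hk hl
      have hF := d.D1_FQ hk hl
      have hsq : (β l * FQ d.SV (k * l + d.j)) ^ 2 ≤ T ^ 6 := by
        rw [← sq_abs, abs_mul]
        have e3 : |β l| * |FQ d.SV (k * l + d.j)| ≤ T ^ 3 := by
          calc |β l| * |FQ d.SV (k * l + d.j)| ≤ 1 * T ^ 3 := by
                gcongr
                exact hβ l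
            _ = T ^ 3 := one_mul _
        calc (|β l| * |FQ d.SV (k * l + d.j)|) ^ 2 ≤ (T ^ 3) ^ 2 := by gcongr
          _ = T ^ 6 := by ring
      have hcard : ((d.SU.filter (fun u : ℕ => (u : ℤ) ∣ k * l + d.j)).card : ℝ) ≤ T := by
        have hsub : d.SU.filter (fun u : ℕ => (u : ℤ) ∣ k * l + d.j) ⊆
            (k * l + d.j).natAbs.divisors := by
          intro u hu
          rw [mem_filter] at hu
          exact Nat.mem_divisors.2 ⟨Int.natCast_dvd.1 hu.2, Int.natAbs_ne_zero.2 hn0⟩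
        have h3 := card_le_card hsub
        calc ((d.SU.filter (fun u : ℕ => (u : ℤ) ∣ k * l + d.j)).card : ℝ)
            ≤ ((k * l + d.j).natAbs.divisors.card : ℝ) := by exact_mod_cast h3
          _ ≤ T := d.hB.tau _ (Int.natAbs_pos.2 hn0) hnM
      rw [sum_const, nsmul_eq_mul]
      have h5 : 0 ≤ w ((k : ℝ) / d.K) := hw.nonneg _
      have h6 : w ((k : ℝ) / d.K) ≤ C := hw.le _
      gcongr
    have hcK : (d.SK.card : ℝ) ≤ 7 * d.K := by
      rw [SK, Int.card_Icc]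
      have h3 : 0 ≤ ⌈2 * d.K⌉ := Int.ceil_nonneg (by linarith)
      have h4 : (((⌈2 * d.K⌉ + 1 - -⌈2 * d.K⌉).toNat : ℕ) : ℤ) = 2 * ⌈2 * d.K⌉ + 1 := by
        rw [Int.toNat_of_nonneg (by linarith)]
        ring
      have h5 : (((⌈2 * d.K⌉ + 1 - -⌈2 * d.K⌉).toNat : ℕ) : ℝ) = 2 * (⌈2 * d.K⌉ : ℝ) + 1 := by
        exact_mod_cast congrArg (Int.cast : ℤ → ℝ) h4
      rw [h5]
      have := Int.ceil_lt_add_one (2 * d.K)
      linarith
    have hcL : (d.SL.card : ℝ) ≤ T * d.L :=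
      D1_card d.SL (T * d.L) (fun n hn => ⟨d.D1_pos_l hn, (d.hSL n hn).2.2⟩) (by positivity)
    calc ∑ k ∈ d.SK, ∑ l ∈ d.SL, ∑ u ∈ d.SU.filter (fun u : ℕ => (u : ℤ) ∣ k * l + d.j),
          w ((k : ℝ) / d.K) * (β l * FQ d.SV (k * l + d.j)) ^ 2
        ≤ ∑ _k ∈ d.SK, ∑ _l ∈ d.SL, T * (C * T ^ 6) :=
          sum_le_sum fun k hk => sum_le_sum fun l hl => e2 k hk l hl
      _ = (d.SK.card : ℝ) * ((d.SL.card : ℝ) * (T * (C * T ^ 6))) := by
          rw [sum_const, sum_const, nsmul_eq_mul, nsmul_eq_mul]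
      _ ≤ (7 * d.K) * ((T * d.L) * (T * (C * T ^ 6))) := by gcongr
      _ = 7 * C * T ^ 8 * (d.K * d.L) := by ring
  -- the good part
  have hgood : ∑ u ∈ d.SU, ∑ k ∈ d.SK, ∑ x ∈ (d.SLL u).filter (fun x => (u : ℤ) ∣ k * x.1 + d.j),
        w ((k : ℝ) / d.K) * (β x.1 * β x.2 *
          ∑ v ∈ (d.SV ×ˢ d.SV).filter (fun v => Good v.1 v.2 x.1 x.2),
            bc v.1 (k * x.1 + d.j) * bc v.2 (k * x.2 + d.j)) = d.GoodSum w β := by
    unfold GoodSum kSum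
    apply sum_congr rfl
    intro u _
    simp only [sum_filter (p := fun x : ℕ × ℕ => (u : ℤ) ∣ _ * (x.1 : ℤ) + d.j)]
    rw [sum_comm]
    apply sum_congr rfl
    intro x _
    rw [sum_comm (s := (d.SV ×ˢ d.SV).filter _), mul_sum]
    apply sum_congr rfl
    intro k _
    split_ifs with h
    · rw [mul_sum, mul_sum, mul_sum]
      apply sum_congr rfl
      intro v _
      ring
    · simp
  -- the bad part
  have hbad : ∑ u ∈ d.SU, ∑ k ∈ d.SK, ∑ x ∈ (d.SLL u).filter (fun x => (u : ℤ) ∣ k * x.1 + d.j),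
        w ((k : ℝ) / d.K) * (β x.1 * β x.2 *
          ∑ v ∈ (d.SV ×ˢ d.SV).filter (fun v => ¬ Good v.1 v.2 x.1 x.2),
            bc v.1 (k * x.1 + d.j) * bc v.2 (k * x.2 + d.j)) ≤ C * d.BadSum := by
    unfold BadSum
    rw [mul_sum]
    apply sum_le_sum
    intro u _
    simp only [sum_filter (p := fun x : ℕ × ℕ => (u : ℤ) ∣ _ * (x.1 : ℤ) + d.j)]
    rw [sum_comm, mul_sum]
    apply sum_le_sum
    intro x _
    rw [sum_filter (s := d.SK), mul_sum]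
    apply sum_le_sum
    intro k _
    split_ifs with h
    · have h1 : |∑ v ∈ (d.SV ×ˢ d.SV).filter (fun v => ¬ Good v.1 v.2 x.1 x.2),
            bc v.1 (k * x.1 + d.j) * bc v.2 (k * x.2 + d.j)| ≤
          ∑ v ∈ (d.SV ×ˢ d.SV).filter (fun v => ¬ Good v.1 v.2 x.1 x.2),
            |bc v.1 (k * x.1 + d.j)| * |bc v.2 (k * x.2 + d.j)| := by
        refine (abs_sum_le_sum_abs _ _).trans (le_of_eq ?_)
        apply sum_congr rfl
        intro v _
        exact abs_mul _ _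
      have h2 : |β x.1 * β x.2| ≤ 1 := by
        rw [abs_mul]
        exact mul_le_one₀ (hβ _) (abs_nonneg _) (hβ _)
      have h5 : 0 ≤ w ((k : ℝ) / d.K) := hw.nonneg _
      have h6 : w ((k : ℝ) / d.K) ≤ C := hw.le _
      refine (le_abs_self _).trans ?_
      rw [abs_mul, abs_mul, abs_of_nonneg h5]
      have h7 := abs_nonneg (∑ v ∈ (d.SV ×ˢ d.SV).filter (fun v => ¬ Good v.1 v.2 x.1 x.2),
            bc v.1 (k * x.1 + d.j) * bc v.2 (k * x.2 + d.j))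
      refine mul_le_mul h6 ?_ (by positivity) hC
      calc |β x.1 * β x.2| * |∑ v ∈ (d.SV ×ˢ d.SV).filter (fun v => ¬ Good v.1 v.2 x.1 x.2),
            bc v.1 (k * x.1 + d.j) * bc v.2 (k * x.2 + d.j)|
          ≤ 1 * |∑ v ∈ (d.SV ×ˢ d.SV).filter (fun v => ¬ Good v.1 v.2 x.1 x.2),
            bc v.1 (k * x.1 + d.j) * bc v.2 (k * x.2 + d.j)| :=
            mul_le_mul_of_nonneg_right h2 h7
        _ ≤ _ := by rw [one_mul]; exact h1
    · simp
  rw [hS2, hgood]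
  have := le_abs_self (d.GoodSum w β)
  linarith

end DD

end Pool.Agent.Lib.MP_2a816b_nt.BH
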