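import Pool.Agent.Lib.MP_2a816b_nt.BH.D1

/-!
# JOB D3: the bad pairs

Pointwise bound (`bad_pointwise`): let `n₁ = k l₁ + j`, `n₂ = k l₂ + j` (both nonzero, `|n_i| ≤ M`). If `(v₁, v₂)` is bad then there is a prime `p` (with `p ≥ y` since
`p` divides some `v ∈ SV`) with one of: (i) `p ∣ v₁, p ∣ v₂`; (ii) `p ∣ v₁, p ∣ l₁`; (iii) `p ∣ v₂, p ∣ l₂`; (iv) `p ∣ v₂, p ∣ l₁`. By
`sum_abs_bc_le`, `sum_abs_bc_dvd_le` the sum over the `(v₁, v₂)` for given `p` is at most (i) `T ^ 6 |bc p n₁| |bc p n₂|`, (ii) `T ^ 6 |bc p n₁|`, (iii), (iv) `T ^ 6 |bc p n₂|`.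
`|bc p n| = 1 / (p - 1) ≤ 2 / y` if `p ∤ n`, and `1` if `p ∣ n`.
(i) `∑_{p ≥ y} |bc p n₁| |bc p n₂| ≤ ∑_{p ≥ y} 1 / (p - 1) ^ 2 + ∑_{p ∣ n₁} 2 / y + ∑_{p ∣ n₂} 2 / y + #{p ∣ n₁, p ∣ n₂} ≤ 4 / y + 4 T / y + #`.
(ii) `p ∣ l₁` implies `p ∤ n₁` (otherwise `p ∣ j`, but `0 < |j| < y ≤ p`): at most `T` primes, `≤ 2 T / y`. (iii) the same with `l₂`. (iv) `≤ 2 T / y + #{p ∣ l₁, p ∣ n₂}`.
Total `≤ T ^ 6 (14 T / y + #{p ∈ PP : p ∣ n₁, p ∣ n₂} + #{p ∈ PP : p ∣ l₁, p ∣ n₂})`, `PP` = the primes dividing some `v ∈ SV`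
(they do not divide any `u ∈ SU`, `cUW`, `cUZ`).

Summation (`bad`): (A) the number of `(u, l₁, l₂, k)`: `(u, l₁) = 1` (otherwise there is no `k`), the `k ∈ SK` with `u ∣ k l₁ + j` lie in one residue class modulo `u`: at most
`(4 K + 3) / u + 1`; for given `l₁, u` at most `2 T L / u` values `l₂`: total `≤ ∑_u T L (2 T L / U) (7 K / U + 1) ≤ T U T L (2 T L / U) (7 K / U + 1)`
`= 2 T ^ 3 L ^ 2 (7 K / U + 1)`. (B) `p ∣ n₁, n₂` implies `p ∣ l₁ - l₂`, and `u p ∣ l₁ - l₂`, `u p ∣ k l₁ + j`: the sum is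
`≤ ∑_u ∑_{p ∈ PP} T L (2 T L / (u p)) (7 K / (u p) + 1) ≤ 2 T ^ 2 L ^ 2 (7 K (T / U) (2 / y) + T ^ 2)`. (C) `p ∣ l₁, p ∣ n₂`: `u p ∣ k l₂ + j`: the sum is
`≤ ∑_u ∑_{l₁} ∑_{p ∣ l₁} (2 T L / u) (7 K / (u y) + 1) ≤ 2 T ^ 3 L ^ 2 (7 K T / (U y) + T)`. (`∑_{u ∈ SU} 1 / u ≤ T`, `∑_{u ∈ SU} 1 / u ^ 2 ≤ T / U`,
`∑_{p ∈ PP} 1 / p ≤ T`, `∑_{p ≥ y} 1 / p ^ 2 ≤ 2 / y`.) Everything together is `≤ 1000 T ^ 11 L ^ 2 (K / (U y) + 1)`. Any other exponent of `T` up to `14` is fine too.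
-/

set_option autoImplicit false

open Finset Real
open scoped Pointwise

namespace Pool.Agent.Lib.MP_2a816b_nt.BH

/-- integers of an interval in one residue class -/
private lemma D3_cnt (S : Finset ℤ) (m : ℤ) (hm : 0 < m) (a b : ℝ) (hab : a ≤ b)
    (h1 : ∀ s ∈ S, a ≤ (s : ℝ) ∧ (s : ℝ) ≤ b) (h2 : ∀ s ∈ S, ∀ t ∈ S, m ∣ s - t) :
    (S.card : ℝ) ≤ (b - a) / m + 1 := by
  have hmR : (0 : ℝ) < m := by exact_mod_cast hm
  have hq : 0 ≤ (b - a) / m := div_nonneg (by linarith) hmR.le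
  rcases S.eq_empty_or_nonempty with rfl | hne
  · simp only [card_empty, Nat.cast_zero]
    linarith
  · set s0 := S.min' hne
    have hs0 : s0 ∈ S := S.min'_mem hne
    have key : ∀ s ∈ S, ∃ t : ℤ, 0 ≤ t ∧ s - s0 = m * t ∧ (s - s0) / m = t := by
      intro s hs
      obtain ⟨t, ht⟩ := h2 s hs s0 hs0
      refine ⟨t, ?_, ht, ?_⟩
      · have hle : s0 ≤ s := S.min'_le s hs
        have : 0 ≤ m * t := by rw [← ht]; linarith
        exact nonneg_of_mul_nonneg_right this hm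
      · rw [ht, Int.mul_ediv_cancel_left _ hm.ne']
    have hinj : S.card ≤ (Finset.range (⌊(b - a) / m⌋₊ + 1)).card := by
      apply Finset.card_le_card_of_injOn (fun s => ((s - s0) / m).toNat)
      · intro s hs
        obtain ⟨t, ht0, ht1, ht2⟩ := key s hs
        simp only [coe_range, Set.mem_Iio]
        rw [ht2, Nat.lt_add_one_iff]
        apply Nat.le_floor
        have h3 : ((t.toNat : ℕ) : ℝ) = (t : ℝ) := by
          have : ((t.toNat : ℕ) : ℤ) = t := Int.toNat_of_nonneg ht0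
          exact_mod_cast this
        rw [h3, le_div_iff₀ hmR]
        have h4 : (s : ℝ) - s0 = m * t := by exact_mod_cast ht1
        have h5 := (h1 s hs).2
        have h6 := (h1 s0 hs0).1
        linarith
      · intro s hs s' hs' hss
        obtain ⟨t, ht0, ht1, ht2⟩ := key s hs
        obtain ⟨t', ht0', ht1', ht2'⟩ := key s' hs'
        simp only at hss
        rw [ht2, ht2'] at hss
        have h3 : t = t' := by
          have e1 : ((t.toNat : ℕ) : ℤ) = t := Int.toNat_of_nonneg ht0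
          have e2 : ((t'.toNat : ℕ) : ℤ) = t' := Int.toNat_of_nonneg ht0'
          rw [← e1, ← e2, hss]
        rw [h3] at ht1
        linarith
    rw [card_range] at hinj
    calc (S.card : ℝ) ≤ ((⌊(b - a) / m⌋₊ + 1 : ℕ) : ℝ) := by exact_mod_cast hinj
      _ ≤ (b - a) / m + 1 := by
          push_cast
          linarith [Nat.floor_le hq]

namespace DD

variable {M : ℕ} {T : ℝ} (d : DD M T)

/-- the primes dividing some `v ∈ SV` -/
noncomputable def PP : Finset ℕ := d.SV.biUnion Nat.primeFactors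

private noncomputable def Pr : ℝ := d.U * d.W * d.Z * d.L * d.K * d.N

private lemma D3_one {a b : ℝ} (ha : 1 ≤ a) (hb : 1 ≤ b) : 1 ≤ a * b := by nlinarith

private lemma D3_N : (1 : ℝ) ≤ d.N := by exact_mod_cast d.hN1

include d in
private lemma D3_T : 1 ≤ T := by linarith [d.hB.one]

private lemma D3_Pr1 : 1 ≤ d.Pr := by
  unfold Pr
  exact D3_one (D3_one (D3_one (D3_one (D3_one d.hU1 d.hW1) d.hZ1) d.hL1) d.hK1) d.D3_N

private lemma D3_U : d.U ≤ d.Pr := by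
  have h : d.Pr = d.U * (d.W * d.Z * d.L * d.K * d.N) := by unfold Pr; ring
  rw [h]
  apply le_mul_of_one_le_right (by linarith [d.hU1])
  exact D3_one (D3_one (D3_one (D3_one d.hW1 d.hZ1) d.hL1) d.hK1) d.D3_N

private lemma D3_L : d.L ≤ d.Pr := by
  have h : d.Pr = d.L * (d.U * d.W * d.Z * d.K * d.N) := by unfold Pr; ring
  rw [h]
  apply le_mul_of_one_le_right (by linarith [d.hL1])
  exact D3_one (D3_one (D3_one (D3_one d.hU1 d.hW1) d.hZ1) d.hK1) d.D3_N

private lemma D3_ZW : d.Z * d.W ≤ d.Pr := by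
  have h : d.Pr = d.Z * d.W * (d.U * d.L * d.K * d.N) := by unfold Pr; ring
  rw [h]
  apply le_mul_of_one_le_right
  · have := D3_one d.hZ1 d.hW1
    linarith
  · exact D3_one (D3_one (D3_one d.hU1 d.hL1) d.hK1) d.D3_N

private lemma D3_KL : d.K * d.L ≤ d.Pr := by
  have h : d.Pr = d.K * d.L * (d.U * d.W * d.Z * d.N) := by unfold Pr; ring
  rw [h]
  apply le_mul_of_one_le_right
  · have := D3_one d.hK1 d.hL1
    linarith
  · exact D3_one (D3_one (D3_one d.hU1 d.hW1) d.hZ1) d.D3_N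

private lemma D3_M {n : ℕ} {x : ℝ} (hx : x ≤ d.Pr) (h : (n : ℝ) ≤ T ^ 2 * x) : n ≤ M := by
  have hT := d.D3_T
  have hP := d.D3_Pr1
  have h1 : T ^ 2 * x ≤ T ^ 20 * d.Pr ^ 2 := by
    calc T ^ 2 * x ≤ T ^ 2 * d.Pr := by gcongr
      _ ≤ T ^ 20 * d.Pr := by
          apply mul_le_mul_of_nonneg_right _ (by linarith)
          exact pow_le_pow_right₀ hT (by norm_num)
      _ ≤ T ^ 20 * d.Pr ^ 2 := by
          apply mul_le_mul_of_nonneg_left _ (by positivity)
          nlinarith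
  have h2 : T ^ 20 * d.Pr ^ 2 ≤ (M : ℝ) := d.hM
  exact_mod_cast h.trans (h1.trans h2)

private lemma D3_u {u : ℕ} (hu : u ∈ d.SU) : 0 < u ∧ u ≤ M := by
  obtain ⟨h1, h2, _⟩ := d.hSU u hu
  have hT := d.D3_T
  refine ⟨?_, d.D3_M d.D3_U ?_⟩
  · have : (0 : ℝ) < u := by linarith [d.hU1]
    exact_mod_cast this
  · have hU := d.hU1
    refine h2.trans ?_
    apply mul_le_mul_of_nonneg_right _ (by linarith)
    nlinarith

private lemma D3_l {l : ℕ} (hl : l ∈ d.SL) : 0 < l ∧ l ≤ M := by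
  obtain ⟨_, h1, h2⟩ := d.hSL l hl
  have hT := d.D3_T
  refine ⟨?_, d.D3_M d.D3_L ?_⟩
  · have : (0 : ℝ) < l := by linarith [d.hL1]
    exact_mod_cast this
  · have hL := d.hL1
    refine h2.trans ?_
    apply mul_le_mul_of_nonneg_right _ (by linarith)
    nlinarith

private lemma D3_v {v : ℕ} (hv : v ∈ d.SV) : Squarefree v ∧ v ≤ M ∧
    ∀ p : ℕ, p.Prime → p ∣ v → d.y ≤ (p : ℝ) ∧ ∀ u ∈ d.SU, ¬ p ∣ u := by
  unfold SV at hv
  rw [Finset.mem_mul] at hv
  obtain ⟨z, hz, w, hw, rfl⟩ := hv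
  obtain ⟨z1, z2, z3, z4⟩ := d.hSZ z hz
  obtain ⟨w1, w2, w3, w4⟩ := d.hSW w hw
  have hT := d.D3_T
  refine ⟨?_, ?_, ?_⟩
  · exact Nat.squarefree_mul_iff.2 ⟨d.cZW z hz w hw, z1.squarefree, w1⟩
  · apply d.D3_M d.D3_ZW
    push_cast
    have hZ := d.hZ1
    have hW := d.hW1
    calc (z : ℝ) * w ≤ (T * d.Z) * (T * d.W) := by gcongr
      _ = T ^ 2 * (d.Z * d.W) := by ring
  · intro p hp hpv
    rcases (Nat.Prime.dvd_mul hp).1 hpv with h | h
    · have hpz : p = z := (Nat.prime_dvd_prime_iff_eq hp z1).1 h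
      refine ⟨by rw [hpz]; exact z4, ?_⟩
      intro u hu hpu
      have h1 := d.cUZ u hu z hz
      rw [← hpz] at h1
      have h2 := Nat.dvd_gcd hpu (dvd_refl p)
      rw [Nat.Coprime] at h1
      rw [h1] at h2
      exact hp.one_lt.ne' (Nat.dvd_one.1 h2)
    · refine ⟨w4 p hp h, ?_⟩
      intro u hu hpu
      have h1 := d.cUW u hu w hw
      have h2 := Nat.dvd_gcd hpu h
      rw [Nat.Coprime] at h1
      rw [h1] at h2
      exact hp.one_lt.ne' (Nat.dvd_one.1 h2)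

private lemma D3_p {p : ℕ} (hp : p ∈ d.PP) : p.Prime ∧ d.y ≤ (p : ℝ) ∧ p ≤ M ∧
    ∀ u ∈ d.SU, ¬ p ∣ u := by
  unfold PP at hp
  rw [Finset.mem_biUnion] at hp
  obtain ⟨v, hv, hpv⟩ := hp
  obtain ⟨h1, h2, h3⟩ := d.D3_v hv
  have hpp := Nat.prime_of_mem_primeFactors hpv
  have hdv := Nat.dvd_of_mem_primeFactors hpv
  obtain ⟨h4, h5⟩ := h3 p hpp hdv
  refine ⟨hpp, h4, ?_, h5⟩
  exact (Nat.le_of_dvd (Nat.pos_of_ne_zero h1.ne_zero) hdv).trans h2

private lemma D3_j {p : ℕ} (hp : d.y ≤ p) : ¬ (p : ℤ) ∣ d.j := by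
  intro h
  have h1 : (p : ℤ) ∣ |d.j| := (dvd_abs _ _).2 h
  have h2 := Int.le_of_dvd (abs_pos.2 d.hj) h1
  have h3 : (p : ℝ) ≤ |(d.j : ℝ)| := by exact_mod_cast h2
  linarith [d.hjy]

private lemma D3_k {k : ℤ} (hk : k ∈ d.SK) : |(k : ℝ)| ≤ 2 * d.K + 1 := by
  unfold SK at hk
  rw [Finset.mem_Icc] at hk
  have h1 : ((⌈2 * d.K⌉ : ℤ) : ℝ) ≤ 2 * d.K + 1 := (Int.ceil_lt_add_one _).le
  have h2 : (k : ℝ) ≤ ((⌈2 * d.K⌉ : ℤ) : ℝ) := by exact_mod_cast hk.2
  have h3 : -((⌈2 * d.K⌉ : ℤ) : ℝ) ≤ (k : ℝ) := by exact_mod_cast hk.1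
  rw [abs_le]
  constructor <;> linarith

private lemma D3_ne {l : ℕ} (hl : l ∈ d.SL) (k : ℤ) : k * l + d.j ≠ 0 := by
  intro h
  obtain ⟨_, h1, _⟩ := d.hSL l hl
  have h2 : (k : ℝ) * l = -d.j := by
    have : k * l = -d.j := by linarith
    exact_mod_cast this
  have hk : k ≠ 0 := by
    rintro rfl
    apply d.hj
    have : (-d.j : ℝ) = 0 := by rw [← h2]; simp
    have : (d.j : ℝ) = 0 := by linarith
    exact_mod_cast this
  have h3 : (1 : ℝ) ≤ |(k : ℝ)| := by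
    have : 1 ≤ |k| := Int.one_le_abs hk
    exact_mod_cast this
  have h4 : |(k : ℝ)| * l = |(d.j : ℝ)| := by
    have h5 : |(k : ℝ) * l| = |(-d.j : ℝ)| := by rw [h2]
    rw [abs_mul, abs_neg, abs_of_nonneg (Nat.cast_nonneg l : (0 : ℝ) ≤ (l : ℝ))] at h5
    exact h5
  have h5 : (l : ℝ) ≤ |(k : ℝ)| * l := le_mul_of_one_le_left (Nat.cast_nonneg l) h3
  linarith [d.hjL]

private lemma D3_nM {l : ℕ} (hl : l ∈ d.SL) {k : ℤ} (hk : k ∈ d.SK) :
    (k * l + d.j).natAbs ≤ M := by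
  obtain ⟨_, h1, h2⟩ := d.hSL l hl
  have h3 := d.D3_k hk
  have hT := d.hB.one
  have hK := d.hK1
  have hL := d.hL1
  apply d.D3_M d.D3_KL
  have h4 : (((k * l + d.j).natAbs : ℕ) : ℝ) = |(k : ℝ) * l + d.j| := by
    rw [Nat.cast_natAbs]
    push_cast
    rfl
  rw [h4]
  calc |(k : ℝ) * l + d.j| ≤ |(k : ℝ) * l| + |(d.j : ℝ)| := abs_add_le _ _
    _ = |(k : ℝ)| * l + |(d.j : ℝ)| := by rw [abs_mul, abs_of_nonneg (Nat.cast_nonneg l : (0 : ℝ) ≤ (l : ℝ))]
    _ ≤ (2 * d.K + 1) * (T * d.L) + d.L := by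
        have := d.hjL
        gcongr
    _ ≤ (3 * d.K) * (T * d.L) + T * (d.K * d.L) := by
        have h5 : (2 * d.K + 1) * (T * d.L) ≤ (3 * d.K) * (T * d.L) := by
          apply mul_le_mul_of_nonneg_right (by linarith)
          positivity
        have h6 : d.L ≤ T * (d.K * d.L) := by
          have h7 : 1 ≤ T * d.K := D3_one (by linarith) hK
          nlinarith
        linarith
    _ = 4 * T * (d.K * d.L) := by ring
    _ ≤ T ^ 2 * (d.K * d.L) := by
        apply mul_le_mul_of_nonneg_right _ (by positivity)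
        nlinarith

private lemma D3_card {n : ℤ} (hn : n ≠ 0) (hnM : n.natAbs ≤ M) :
    ((d.PP.filter (fun p : ℕ => (p : ℤ) ∣ n)).card : ℝ) ≤ T := by
  refine le_trans ?_ (d.hB.tau n.natAbs (Int.natAbs_pos.2 hn) hnM)
  have : (d.PP.filter (fun p : ℕ => (p : ℤ) ∣ n)).card ≤ n.natAbs.divisors.card := by
    apply Finset.card_le_card
    intro p hp
    rw [mem_filter] at hp
    rw [Nat.mem_divisors]
    exact ⟨Int.natCast_dvd.1 hp.2, (Int.natAbs_pos.2 hn).ne'⟩
  exact_mod_cast this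

private lemma D3_inv : ∑ p ∈ d.PP, (1 : ℝ) / p ≤ T := by
  apply RamB_sum_inv d.hB
  intro p hp
  obtain ⟨h1, _, h2, _⟩ := d.D3_p hp
  exact ⟨h1.pos, h2⟩

private lemma D3_invU : ∑ u ∈ d.SU, (1 : ℝ) / u ≤ T :=
  RamB_sum_inv d.hB _ (fun _ hu => d.D3_u hu)

theorem bad_pointwise (l₁ l₂ : ℕ) (h₁ : l₁ ∈ d.SL) (h₂ : l₂ ∈ d.SL) (k : ℤ) (hk : k ∈ d.SK) :
    ∑ v ∈ (d.SV ×ˢ d.SV).filter (fun v => ¬ Good v.1 v.2 l₁ l₂),
      |bc v.1 (k * l₁ + d.j)| * |bc v.2 (k * l₂ + d.j)| ≤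
    T ^ 6 * (14 * T / d.y +
      ((d.PP.filter (fun p : ℕ => (p : ℤ) ∣ k * l₁ + d.j ∧ (p : ℤ) ∣ k * l₂ + d.j)).card : ℝ) +
      ((d.PP.filter (fun p : ℕ => p ∣ l₁ ∧ (p : ℤ) ∣ k * l₂ + d.j)).card : ℝ)) := by
  classical
  have hT := d.D3_T
  have hy0 : 0 < d.y := by linarith [d.hy]
  have hn1 := d.D3_ne h₁ k
  have hn2 := d.D3_ne h₂ k
  have hm1 := d.D3_nM h₁ hk
  have hm2 := d.D3_nM h₂ hk
  set n₁ : ℤ := k * l₁ + d.j with hn₁
  set n₂ : ℤ := k * l₂ + d.j with hn₂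
  set a : ℕ → ℝ := fun v => |bc v n₁| with ha
  set b : ℕ → ℝ := fun v => |bc v n₂| with hb
  have ha0 : ∀ v, 0 ≤ a v := fun v => abs_nonneg _
  have hb0 : ∀ v, 0 ≤ b v := fun v => abs_nonneg _
  set iA : ℕ → ℕ → ℝ := fun p v => if p ∣ v then a v else 0 with hiA
  set iB : ℕ → ℕ → ℝ := fun p v => if p ∣ v then b v else 0 with hiB
  have hiA0 : ∀ p v, 0 ≤ iA p v := by
    intro p v
    simp only [hiA]
    split_ifs
    · exact ha0 v
    · exact le_rfl
  have hiB0 : ∀ p v, 0 ≤ iB p v := by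
    intro p v
    simp only [hiB]
    split_ifs
    · exact hb0 v
    · exact le_rfl
  set e₁ : ℕ → ℝ := fun p => if p ∣ l₁ then 1 else 0 with he₁
  set e₂ : ℕ → ℝ := fun p => if p ∣ l₂ then 1 else 0 with he₂
  have he₁0 : ∀ p, 0 ≤ e₁ p := by
    intro p
    simp only [he₁]
    split_ifs <;> norm_num
  have he₂0 : ∀ p, 0 ≤ e₂ p := by
    intro p
    simp only [he₂]
    split_ifs <;> norm_num
  set i₁ : ℕ → ℝ := fun p => if (p : ℤ) ∣ n₁ then 1 else 0 with hi₁
  set i₂ : ℕ → ℝ := fun p => if (p : ℤ) ∣ n₂ then 1 else 0 with hi₂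
  -- the four types
  set G : ℕ → ℕ × ℕ → ℝ := fun p v => iA p v.1 * iB p v.2 + e₁ p * (iA p v.1 * b v.2) +
    e₁ p * (a v.1 * iB p v.2) + e₂ p * (a v.1 * iB p v.2) with hG
  have hG0 : ∀ p v, 0 ≤ G p v := by
    intro p v
    simp only [hG]
    have := ha0 v.1
    have := hb0 v.2
    have := hiA0 p v.1
    have := hiB0 p v.2
    have := he₁0 p
    have := he₂0 p
    positivity
  have hmemPP : ∀ v ∈ d.SV, ∀ p : ℕ, p.Prime → p ∣ v → p ∈ d.PP := by
    intro v hv p hp hpv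
    unfold PP
    rw [Finset.mem_biUnion]
    exact ⟨v, hv, Nat.mem_primeFactors.2 ⟨hp, hpv, (d.D3_v hv).1.ne_zero⟩⟩
  have step1 : ∑ v ∈ (d.SV ×ˢ d.SV).filter (fun v => ¬ Good v.1 v.2 l₁ l₂), a v.1 * b v.2 ≤
      ∑ v ∈ d.SV ×ˢ d.SV, ∑ p ∈ d.PP, G p v := by
    rw [sum_filter]
    apply sum_le_sum
    intro v hv
    rw [mem_product] at hv
    by_cases hgood : Good v.1 v.2 l₁ l₂
    · rw [if_neg (not_not.2 hgood)]
      exact sum_nonneg fun p _ => hG0 p v
    · rw [if_pos hgood]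
      have hex : ∃ p ∈ d.PP, (p ∣ v.1 ∧ p ∣ v.2) ∨ (p ∣ v.1 ∧ p ∣ l₁) ∨ (p ∣ v.2 ∧ p ∣ l₁) ∨
          (p ∣ v.2 ∧ p ∣ l₂) := by
        unfold Good at hgood
        by_cases c1 : v.1.Coprime v.2
        · by_cases c2 : v.1.Coprime l₁
          · by_cases c3 : v.2.Coprime l₁
            · have c4 : ¬ v.2.Coprime l₂ := fun c4 => hgood ⟨c1, c2, c3, c4⟩
              obtain ⟨p, hp, h1, h2⟩ := Nat.Prime.not_coprime_iff_dvd.1 c4
              exact ⟨p, hmemPP v.2 hv.2 p hp h1, Or.inr (Or.inr (Or.inr ⟨h1, h2⟩))⟩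
            · obtain ⟨p, hp, h1, h2⟩ := Nat.Prime.not_coprime_iff_dvd.1 c3
              exact ⟨p, hmemPP v.2 hv.2 p hp h1, Or.inr (Or.inr (Or.inl ⟨h1, h2⟩))⟩
          · obtain ⟨p, hp, h1, h2⟩ := Nat.Prime.not_coprime_iff_dvd.1 c2
            exact ⟨p, hmemPP v.1 hv.1 p hp h1, Or.inr (Or.inl ⟨h1, h2⟩)⟩
        · obtain ⟨p, hp, h1, h2⟩ := Nat.Prime.not_coprime_iff_dvd.1 c1
          exact ⟨p, hmemPP v.1 hv.1 p hp h1, Or.inl ⟨h1, h2⟩⟩
      obtain ⟨p, hp, hcase⟩ := hex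
      refine le_trans ?_ (single_le_sum (f := fun p => G p v) (fun p _ => hG0 p v) hp)
      have t1 : 0 ≤ iA p v.1 * iB p v.2 := mul_nonneg (hiA0 _ _) (hiB0 _ _)
      have t2 : 0 ≤ e₁ p * (iA p v.1 * b v.2) :=
        mul_nonneg (he₁0 _) (mul_nonneg (hiA0 _ _) (hb0 _))
      have t3 : 0 ≤ e₁ p * (a v.1 * iB p v.2) :=
        mul_nonneg (he₁0 _) (mul_nonneg (ha0 _) (hiB0 _ _))
      have t4 : 0 ≤ e₂ p * (a v.1 * iB p v.2) :=
        mul_nonneg (he₂0 _) (mul_nonneg (ha0 _) (hiB0 _ _))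
      simp only [hG]
      rcases hcase with ⟨c1, c2⟩ | ⟨c1, c2⟩ | ⟨c1, c2⟩ | ⟨c1, c2⟩
      · have : iA p v.1 * iB p v.2 = a v.1 * b v.2 := by
          simp only [hiA, hiB, if_pos c1, if_pos c2]
        linarith
      · have : e₁ p * (iA p v.1 * b v.2) = a v.1 * b v.2 := by
          simp only [hiA, he₁, if_pos c1, if_pos c2, one_mul]
        linarith
      · have : e₁ p * (a v.1 * iB p v.2) = a v.1 * b v.2 := by
          simp only [hiB, he₁, if_pos c1, if_pos c2, one_mul]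
        linarith
      · have : e₂ p * (a v.1 * iB p v.2) = a v.1 * b v.2 := by
          simp only [hiB, he₂, if_pos c1, if_pos c2, one_mul]
        linarith
  -- the sums over `v`
  set A₀ : ℝ := ∑ v ∈ d.SV, a v with hA₀
  set B₀ : ℝ := ∑ v ∈ d.SV, b v with hB₀
  set A : ℕ → ℝ := fun p => ∑ v ∈ d.SV, iA p v with hA
  set B : ℕ → ℝ := fun p => ∑ v ∈ d.SV, iB p v with hBdef
  have step2 : ∀ p, ∑ v ∈ d.SV ×ˢ d.SV, G p v =
      A p * B p + e₁ p * (A p * B₀) + e₁ p * (A₀ * B p) + e₂ p * (A₀ * B p) := by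
    intro p
    simp only [hG]
    rw [sum_add_distrib, sum_add_distrib, sum_add_distrib, ← mul_sum, ← mul_sum, ← mul_sum]
    simp only [hA, hBdef, hA₀, hB₀]
    rw [sum_mul_sum, sum_mul_sum, sum_mul_sum, sum_product, sum_product, sum_product]
  have hsq : ∀ v ∈ d.SV, Squarefree v ∧ v ≤ M := fun v hv => ⟨(d.D3_v hv).1, (d.D3_v hv).2.1⟩
  have bA₀ : A₀ ≤ T ^ 3 := sum_abs_bc_le d.hB d.SV hsq n₁ hn1 hm1
  have bB₀ : B₀ ≤ T ^ 3 := sum_abs_bc_le d.hB d.SV hsq n₂ hn2 hm2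
  have A₀0 : 0 ≤ A₀ := sum_nonneg fun v _ => ha0 v
  have B₀0 : 0 ≤ B₀ := sum_nonneg fun v _ => hb0 v
  have bA : ∀ p ∈ d.PP, A p ≤ |bc p n₁| * T ^ 3 := by
    intro p hp
    have := sum_abs_bc_dvd_le d.hB d.SV hsq n₁ hn1 hm1 p (d.D3_p hp).1
    rw [sum_filter] at this
    exact this
  have bB : ∀ p ∈ d.PP, B p ≤ |bc p n₂| * T ^ 3 := by
    intro p hp
    have := sum_abs_bc_dvd_le d.hB d.SV hsq n₂ hn2 hm2 p (d.D3_p hp).1
    rw [sum_filter] at this
    exact this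
  have A0 : ∀ p, 0 ≤ A p := fun p => sum_nonneg fun v _ => hiA0 p v
  have B0 : ∀ p, 0 ≤ B p := fun p => sum_nonneg fun v _ => hiB0 p v
  -- the bound for one prime
  have step3 : ∀ p ∈ d.PP, ∑ v ∈ d.SV ×ˢ d.SV, G p v ≤
      T ^ 6 * ((4 / d.y) * (1 / p) + (2 / d.y) * i₁ p + (2 / d.y) * i₂ p + (4 / d.y) * e₁ p +
        (2 / d.y) * e₂ p + i₁ p * i₂ p + e₁ p * i₂ p) := by
    intro p hp
    obtain ⟨hpp, hpy, _, _⟩ := d.D3_p hp
    have hp2 : (2 : ℝ) ≤ p := by exact_mod_cast hpp.two_le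
    have hp0 : (0 : ℝ) < p := by linarith
    rw [step2 p]
    have c1 : A p * B p ≤ T ^ 6 * (|bc p n₁| * |bc p n₂|) := by
      calc A p * B p ≤ (|bc p n₁| * T ^ 3) * (|bc p n₂| * T ^ 3) :=
            mul_le_mul (bA p hp) (bB p hp) (B0 p) (by positivity)
        _ = T ^ 6 * (|bc p n₁| * |bc p n₂|) := by ring
    have c2 : A p * B₀ ≤ T ^ 6 * |bc p n₁| := by
      calc A p * B₀ ≤ (|bc p n₁| * T ^ 3) * T ^ 3 :=
            mul_le_mul (bA p hp) bB₀ B₀0 (by positivity)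
        _ = T ^ 6 * |bc p n₁| := by ring
    have c3 : A₀ * B p ≤ T ^ 6 * |bc p n₂| := by
      calc A₀ * B p ≤ T ^ 3 * (|bc p n₂| * T ^ 3) :=
            mul_le_mul bA₀ (bB p hp) (B0 p) (by positivity)
        _ = T ^ 6 * |bc p n₂| := by ring
    have c4 : A p * B p + e₁ p * (A p * B₀) + e₁ p * (A₀ * B p) + e₂ p * (A₀ * B p) ≤
        T ^ 6 * (|bc p n₁| * |bc p n₂| + e₁ p * |bc p n₁| + e₁ p * |bc p n₂| +
          e₂ p * |bc p n₂|) := by
      have x1 := mul_le_mul_of_nonneg_left c2 (he₁0 p)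
      have x2 := mul_le_mul_of_nonneg_left c3 (he₁0 p)
      have x3 := mul_le_mul_of_nonneg_left c3 (he₂0 p)
      calc _ ≤ T ^ 6 * (|bc p n₁| * |bc p n₂|) + e₁ p * (T ^ 6 * |bc p n₁|) +
            e₁ p * (T ^ 6 * |bc p n₂|) + e₂ p * (T ^ 6 * |bc p n₂|) := by linarith
        _ = _ := by ring
    refine c4.trans ?_
    apply mul_le_mul_of_nonneg_left _ (by positivity)
    -- values of `bc p`
    have hinv : 1 / ((p : ℝ) - 1) ≤ 2 / p := by
      rw [div_le_div_iff₀ (by linarith) hp0]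
      linarith
    have hinv2 : 2 / (p : ℝ) ≤ 2 / d.y := by
      apply div_le_div_of_nonneg_left (by norm_num) hy0 hpy
    have hinv0 : 0 ≤ 1 / ((p : ℝ) - 1) := by
      apply one_div_nonneg.2
      linarith
    have v1 : |bc p n₁| ≤ i₁ p + (1 - i₁ p) * (2 / p) := by
      rw [bc_prime hpp]
      simp only [hi₁]
      split_ifs with h
      · simp
      · rw [abs_of_nonneg hinv0]
        linarith
    have v2 : |bc p n₂| ≤ i₂ p + (1 - i₂ p) * (2 / p) := by
      rw [bc_prime hpp]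
      simp only [hi₂]
      split_ifs with h
      · simp
      · rw [abs_of_nonneg hinv0]
        linarith
    have w1 : e₁ p = 1 → i₁ p = 0 := by
      intro h
      have hpl : p ∣ l₁ := by
        by_contra hcon
        simp only [he₁, if_neg hcon] at h
        norm_num at h
      simp only [hi₁]
      rw [if_neg]
      intro hdiv
      apply d.D3_j hpy
      have h3 : (p : ℤ) ∣ k * l₁ := (Int.natCast_dvd_natCast.2 hpl).mul_left k
      have h4 := dvd_sub hdiv h3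
      rw [hn₁, add_sub_cancel_left] at h4
      exact h4
    have w2 : e₂ p = 1 → i₂ p = 0 := by
      intro h
      have hpl : p ∣ l₂ := by
        by_contra hcon
        simp only [he₂, if_neg hcon] at h
        norm_num at h
      simp only [hi₂]
      rw [if_neg]
      intro hdiv
      apply d.D3_j hpy
      have h3 : (p : ℤ) ∣ k * l₂ := (Int.natCast_dvd_natCast.2 hpl).mul_left k
      have h4 := dvd_sub hdiv h3
      rw [hn₂, add_sub_cancel_left] at h4
      exact h4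
    have z1 : i₁ p = 0 ∨ i₁ p = 1 := by
      simp only [hi₁]; split_ifs <;> simp
    have z2 : i₂ p = 0 ∨ i₂ p = 1 := by
      simp only [hi₂]; split_ifs <;> simp
    have z3 : e₁ p = 0 ∨ e₁ p = 1 := by
      simp only [he₁]; split_ifs <;> simp
    have z4 : e₂ p = 0 ∨ e₂ p = 1 := by
      simp only [he₂]; split_ifs <;> simp
    have g1 : (2 / (p : ℝ)) * (2 / p) ≤ (4 / d.y) * (1 / p) := by
      calc (2 / (p : ℝ)) * (2 / p) ≤ (2 / d.y) * (2 / p) := by
            apply mul_le_mul_of_nonneg_right hinv2 (by positivity)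
        _ = (4 / d.y) * (1 / p) := by ring
    have g2 : 0 ≤ (4 / d.y) * (1 / (p : ℝ)) := by positivity
    have g3 : 0 ≤ 2 / d.y := by positivity
    have g4 : 0 ≤ 2 / (p : ℝ) := by positivity
    have g5 : (4 : ℝ) / d.y = 2 * (2 / d.y) := by ring
    have b1 : 0 ≤ |bc p n₁| := abs_nonneg _
    have b2 : 0 ≤ |bc p n₂| := abs_nonneg _
    have q1 : |bc p n₁| * |bc p n₂| ≤ (4 / d.y) * (1 / p) + (2 / d.y) * i₁ p +
        (2 / d.y) * i₂ p + i₁ p * i₂ p := by
      refine (mul_le_mul v1 v2 b2 ?_).trans ?_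
      · rcases z1 with z | z <;> rw [z] <;> linarith
      · rcases z1 with z | z <;> rcases z2 with z' | z' <;> rw [z, z']
        · linarith
        · linarith
        · linarith
        · linarith
    have q2 : e₁ p * |bc p n₁| ≤ (2 / d.y) * e₁ p := by
      rcases z3 with z | z
      · rw [z]; norm_num
      · rw [z]
        rw [w1 z] at v1
        linarith
    have q3 : e₂ p * |bc p n₂| ≤ (2 / d.y) * e₂ p := by
      rcases z4 with z | z
      · rw [z]; norm_num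
      · rw [z]
        rw [w2 z] at v2
        linarith
    have q4 : e₁ p * |bc p n₂| ≤ (2 / d.y) * e₁ p + e₁ p * i₂ p := by
      rcases z3 with z | z
      · rw [z]; norm_num
      · rw [z]
        rcases z2 with z' | z'
        · rw [z'] at v2 ⊢
          linarith
        · rw [z'] at v2 ⊢
          linarith
    rw [g5]
    rw [g5] at q1
    linarith
  calc ∑ v ∈ (d.SV ×ˢ d.SV).filter (fun v => ¬ Good v.1 v.2 l₁ l₂), a v.1 * b v.2
      ≤ ∑ v ∈ d.SV ×ˢ d.SV, ∑ p ∈ d.PP, G p v := step1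
    _ = ∑ p ∈ d.PP, ∑ v ∈ d.SV ×ˢ d.SV, G p v := sum_comm
    _ ≤ ∑ p ∈ d.PP, T ^ 6 * ((4 / d.y) * (1 / p) + (2 / d.y) * i₁ p + (2 / d.y) * i₂ p +
        (4 / d.y) * e₁ p + (2 / d.y) * e₂ p + i₁ p * i₂ p + e₁ p * i₂ p) := sum_le_sum step3
    _ = T ^ 6 * ((4 / d.y) * ∑ p ∈ d.PP, (1 / (p : ℝ)) + (2 / d.y) * ∑ p ∈ d.PP, i₁ p +
        (2 / d.y) * ∑ p ∈ d.PP, i₂ p + (4 / d.y) * ∑ p ∈ d.PP, e₁ p +
        (2 / d.y) * ∑ p ∈ d.PP, e₂ p + ∑ p ∈ d.PP, i₁ p * i₂ p +
        ∑ p ∈ d.PP, e₁ p * i₂ p) := by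
        rw [← mul_sum]
        congr 1
        rw [sum_add_distrib, sum_add_distrib, sum_add_distrib, sum_add_distrib, sum_add_distrib,
          sum_add_distrib, ← mul_sum, ← mul_sum, ← mul_sum, ← mul_sum, ← mul_sum]
    _ ≤ T ^ 6 * (14 * T / d.y +
      ((d.PP.filter (fun p : ℕ => (p : ℤ) ∣ n₁ ∧ (p : ℤ) ∣ n₂)).card : ℝ) +
      ((d.PP.filter (fun p : ℕ => p ∣ l₁ ∧ (p : ℤ) ∣ n₂)).card : ℝ)) := by
        apply mul_le_mul_of_nonneg_left _ (by positivity)
        have s1 : ∑ p ∈ d.PP, (1 / (p : ℝ)) ≤ T := d.D3_inv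
        have s2 : ∑ p ∈ d.PP, i₁ p ≤ T := by
          simp only [hi₁]
          rw [sum_boole]
          exact d.D3_card hn1 hm1
        have s3 : ∑ p ∈ d.PP, i₂ p ≤ T := by
          simp only [hi₂]
          rw [sum_boole]
          exact d.D3_card hn2 hm2
        have s4 : ∑ p ∈ d.PP, e₁ p ≤ T := by
          simp only [he₁]
          rw [sum_boole]
          have := d.D3_card (n := (l₁ : ℤ)) (by exact_mod_cast (d.D3_l h₁).1.ne')
            (by simpa using (d.D3_l h₁).2)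
          simpa only [Int.natCast_dvd_natCast] using this
        have s5 : ∑ p ∈ d.PP, e₂ p ≤ T := by
          simp only [he₂]
          rw [sum_boole]
          have := d.D3_card (n := (l₂ : ℤ)) (by exact_mod_cast (d.D3_l h₂).1.ne')
            (by simpa using (d.D3_l h₂).2)
          simpa only [Int.natCast_dvd_natCast] using this
        have s6 : ∑ p ∈ d.PP, i₁ p * i₂ p =
            ((d.PP.filter (fun p : ℕ => (p : ℤ) ∣ n₁ ∧ (p : ℤ) ∣ n₂)).card : ℝ) := by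
          rw [← sum_boole]
          apply sum_congr rfl
          intro p _
          simp only [hi₁, hi₂]
          by_cases c1 : (p : ℤ) ∣ n₁ <;> by_cases c2 : (p : ℤ) ∣ n₂ <;> simp [c1, c2]
        have s7 : ∑ p ∈ d.PP, e₁ p * i₂ p =
            ((d.PP.filter (fun p : ℕ => p ∣ l₁ ∧ (p : ℤ) ∣ n₂)).card : ℝ) := by
          rw [← sum_boole]
          apply sum_congr rfl
          intro p _
          simp only [he₁, hi₂]
          by_cases c1 : p ∣ l₁ <;> by_cases c2 : (p : ℤ) ∣ n₂ <;> simp [c1, c2]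
        rw [s6, s7]
        have g3 : 0 ≤ 2 / d.y := by positivity
        have g4 : 0 ≤ 4 / d.y := by positivity
        have m1 := mul_le_mul_of_nonneg_left s1 g4
        have m2 := mul_le_mul_of_nonneg_left s2 g3
        have m3 := mul_le_mul_of_nonneg_left s3 g3
        have m4 := mul_le_mul_of_nonneg_left s4 g4
        have m5 := mul_le_mul_of_nonneg_left s5 g3
        have m6 : 14 * T / d.y = 4 / d.y * T + 2 / d.y * T + 2 / d.y * T + 4 / d.y * T +
          2 / d.y * T := by ring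
        rw [m6]
        linarith

/-- the `k` in the residue class -/
private lemma D3_cntK (m : ℕ) (hm : 0 < m) (hpm : ∀ p : ℕ, p.Prime → p ∣ m → d.y ≤ (p : ℝ))
    (l : ℕ) : ((d.SK.filter (fun k => (m : ℤ) ∣ k * l + d.j)).card : ℝ) ≤ 6 * d.K / m + 1 := by
  have hK := d.hK1
  have hmR : (0 : ℝ) < m := by exact_mod_cast hm
  rcases Nat.eq_zero_or_pos (d.SK.filter (fun k => (m : ℤ) ∣ k * l + d.j)).card with h0 | h0
  · rw [h0]
    have : 0 ≤ 6 * d.K / m := by positivity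
    push_cast
    linarith
  · obtain ⟨k0, hk0⟩ := card_pos.1 h0
    rw [mem_filter] at hk0
    have hco : IsCoprime (m : ℤ) (l : ℤ) := by
      rw [Nat.isCoprime_iff_coprime]
      by_contra hcon
      obtain ⟨p, hp, h1, h2⟩ := Nat.Prime.not_coprime_iff_dvd.1 hcon
      apply d.D3_j (hpm p hp h1)
      have h3 : (p : ℤ) ∣ k0 * l + d.j := (Int.natCast_dvd_natCast.2 h1).trans hk0.2
      have h4 : (p : ℤ) ∣ k0 * l := (Int.natCast_dvd_natCast.2 h2).mul_left k0
      have h5 := dvd_sub h3 h4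
      rwa [add_sub_cancel_left] at h5
    have h := D3_cnt (d.SK.filter (fun k => (m : ℤ) ∣ k * l + d.j)) (m : ℤ)
      (by exact_mod_cast hm) (-(2 * d.K + 1)) (2 * d.K + 1) (by linarith)
      (by
        intro s hs
        rw [mem_filter] at hs
        exact abs_le.1 (d.D3_k hs.1))
      (by
        intro s hs t ht
        rw [mem_filter] at hs ht
        have h1 := dvd_sub hs.2 ht.2
        have h2 : (s * l + d.j) - (t * l + d.j) = (s - t) * l := by ring
        rw [h2] at h1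
        exact hco.dvd_of_dvd_mul_right h1)
    refine h.trans ?_
    have h2 : (2 * d.K + 1 - -(2 * d.K + 1)) / ((m : ℤ) : ℝ) ≤ 6 * d.K / m := by
      push_cast
      apply div_le_div_of_nonneg_right _ hmR.le
      linarith
    linarith

/-- the pairs `l₁ ≠ l₂` in one residue class -/
private lemma D3_cntL (m : ℕ) (hm : 0 < m) :
    ((d.SLL m).card : ℝ) ≤ T ^ 2 * d.L ^ 2 * (1 / m) := by
  classical
  have hL := d.hL1
  have hT := d.D3_T
  have hmR : (0 : ℝ) < m := by exact_mod_cast hm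
  -- cast to the integers
  set S : Finset ℤ := d.SL.image (fun l : ℕ => (l : ℤ)) with hS
  have hTL : 1 ≤ T * d.L := D3_one hT hL
  -- the number of `l ∈ SL`
  have hcard : (d.SL.card : ℝ) ≤ T * d.L := by
    have h := D3_cnt S 1 (by norm_num) 1 (T * d.L) hTL
      (by
        intro s hs
        rw [hS, mem_image] at hs
        obtain ⟨l, hl, rfl⟩ := hs
        obtain ⟨_, h1, h2⟩ := d.hSL l hl
        have h3 := (d.D3_l hl).1
        have h4 : (1 : ℝ) ≤ l := by exact_mod_cast h3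
        push_cast
        exact ⟨h4, h2⟩)
      (by
        intro s _ t _
        exact one_dvd _)
    rw [hS, card_image_of_injective _ Nat.cast_injective] at h
    push_cast at h
    linarith
  have hone : ∀ l₁ ∈ d.SL, ((d.SL.filter (fun l₂ : ℕ => l₁ ≠ l₂ ∧ (m : ℤ) ∣ (l₁ : ℤ) - l₂)).card : ℝ) ≤
      T * d.L / m := by
    intro l₁ hl₁
    set S₁ : Finset ℕ := insert l₁ (d.SL.filter (fun l₂ : ℕ => l₁ ≠ l₂ ∧ (m : ℤ) ∣ (l₁ : ℤ) - l₂))
      with hS₁
    have hnot : l₁ ∉ d.SL.filter (fun l₂ : ℕ => l₁ ≠ l₂ ∧ (m : ℤ) ∣ (l₁ : ℤ) - l₂) := by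
      simp
    have hmem : ∀ l ∈ S₁, l ∈ d.SL ∧ (m : ℤ) ∣ (l₁ : ℤ) - l := by
      intro l hl
      rw [hS₁, mem_insert, mem_filter] at hl
      rcases hl with rfl | ⟨h1, _, h2⟩
      · exact ⟨hl₁, by simp⟩
      · exact ⟨h1, h2⟩
    have h := D3_cnt (S₁.image (fun l : ℕ => (l : ℤ))) (m : ℤ) (by exact_mod_cast hm) 0 (T * d.L)
      (by linarith)
      (by
        intro s hs
        rw [mem_image] at hs
        obtain ⟨l, hl, rfl⟩ := hs
        obtain ⟨_, h1, h2⟩ := d.hSL l (hmem l hl).1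
        push_cast
        exact ⟨Nat.cast_nonneg l, h2⟩)
      (by
        intro s hs t ht
        rw [mem_image] at hs ht
        obtain ⟨l, hl, rfl⟩ := hs
        obtain ⟨l', hl', rfl⟩ := ht
        have h1 := dvd_sub (hmem l' hl').2 (hmem l hl).2
        have h2 : ((l₁ : ℤ) - l') - (l₁ - l) = l - l' := by ring
        rwa [h2] at h1)
    rw [card_image_of_injective _ Nat.cast_injective, hS₁, card_insert_of_notMem hnot] at h
    push_cast at h
    rw [sub_zero] at h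
    linarith
  have hfib : (d.SLL m).card = ∑ l₁ ∈ d.SL,
      (d.SL.filter (fun l₂ : ℕ => l₁ ≠ l₂ ∧ (m : ℤ) ∣ (l₁ : ℤ) - l₂)).card := by
    unfold SLL
    rw [card_filter, sum_product]
    apply sum_congr rfl
    intro l₁ _
    rw [card_filter]
  rw [hfib]
  push_cast
  calc ∑ l₁ ∈ d.SL, ((d.SL.filter (fun l₂ : ℕ => l₁ ≠ l₂ ∧ (m : ℤ) ∣ (l₁ : ℤ) - l₂)).card : ℝ)
      ≤ ∑ _l₁ ∈ d.SL, T * d.L / m := sum_le_sum hone
    _ = d.SL.card * (T * d.L / m) := by rw [sum_const, nsmul_eq_mul]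
    _ ≤ (T * d.L) * (T * d.L / m) := by
        apply mul_le_mul_of_nonneg_right hcard
        positivity
    _ = T ^ 2 * d.L ^ 2 * (1 / m) := by ring

theorem bad : d.BadSum ≤ 1000 * T ^ 14 * d.L ^ 2 * (d.K / (d.U * d.y) + 1) := by
  classical
  have hT := d.D3_T
  have hL := d.hL1
  have hK := d.hK1
  have hU := d.hU1
  have hy := d.hy
  have hy0 : 0 < d.y := by linarith
  have hU0 : 0 < d.U := by linarith
  set Q : ℝ := d.K / (d.U * d.y) with hQ
  have hQ0 : 0 ≤ Q := by positivity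
  -- bound for one `u`
  have main : ∀ u ∈ d.SU,
      ∑ x ∈ d.SLL u, ∑ k ∈ d.SK.filter (fun k => (u : ℤ) ∣ k * x.1 + d.j),
        ∑ v ∈ (d.SV ×ˢ d.SV).filter (fun v => ¬ Good v.1 v.2 x.1 x.2),
          |bc v.1 (k * x.1 + d.j)| * |bc v.2 (k * x.2 + d.j)| ≤
      (1 / (u : ℝ)) * (T ^ 6 * ((14 * T / d.y) * (T ^ 2 * d.L ^ 2 * (6 * d.K / d.U + 1)) +
        T ^ 3 * d.L ^ 2 * (6 * Q + 1) + T ^ 3 * d.L ^ 2 * (6 * Q + 1))) := by
    intro u hu
    obtain ⟨hu0, huM⟩ := d.D3_u hu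
    obtain ⟨huU, _, hup⟩ := d.hSU u hu
    have huR : (0 : ℝ) < u := by exact_mod_cast hu0
    have hmemL : ∀ x ∈ d.SLL u, x.1 ∈ d.SL ∧ x.2 ∈ d.SL ∧ x.1 ≠ x.2 ∧ (u : ℤ) ∣ (x.1 : ℤ) - x.2 := by
      intro x hx
      unfold SLL at hx
      rw [mem_filter, mem_product] at hx
      exact ⟨hx.1.1, hx.1.2, hx.2.1, hx.2.2⟩
    -- first: pointwise bound
    have e1 : ∑ x ∈ d.SLL u, ∑ k ∈ d.SK.filter (fun k => (u : ℤ) ∣ k * x.1 + d.j),
        ∑ v ∈ (d.SV ×ˢ d.SV).filter (fun v => ¬ Good v.1 v.2 x.1 x.2),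
          |bc v.1 (k * x.1 + d.j)| * |bc v.2 (k * x.2 + d.j)| ≤
        ∑ x ∈ d.SLL u, ∑ k ∈ d.SK.filter (fun k => (u : ℤ) ∣ k * x.1 + d.j),
          T ^ 6 * (14 * T / d.y +
          ((d.PP.filter (fun p : ℕ => (p : ℤ) ∣ k * x.1 + d.j ∧ (p : ℤ) ∣ k * x.2 + d.j)).card : ℝ) +
          ((d.PP.filter (fun p : ℕ => p ∣ x.1 ∧ (p : ℤ) ∣ k * x.2 + d.j)).card : ℝ)) := by
      apply sum_le_sum
      intro x hx
      apply sum_le_sum
      intro k hk
      obtain ⟨h1, h2, _, _⟩ := hmemL x hx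
      exact d.bad_pointwise x.1 x.2 h1 h2 k (mem_filter.1 hk).1
    have e2 : ∑ x ∈ d.SLL u, ∑ k ∈ d.SK.filter (fun k => (u : ℤ) ∣ k * x.1 + d.j),
          T ^ 6 * (14 * T / d.y +
          ((d.PP.filter (fun p : ℕ => (p : ℤ) ∣ k * x.1 + d.j ∧ (p : ℤ) ∣ k * x.2 + d.j)).card : ℝ) +
          ((d.PP.filter (fun p : ℕ => p ∣ x.1 ∧ (p : ℤ) ∣ k * x.2 + d.j)).card : ℝ)) =
        T ^ 6 * ((14 * T / d.y) * (∑ x ∈ d.SLL u,
          ((d.SK.filter (fun k => (u : ℤ) ∣ k * x.1 + d.j)).card : ℝ)) +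
        (∑ x ∈ d.SLL u, ∑ k ∈ d.SK.filter (fun k => (u : ℤ) ∣ k * x.1 + d.j),
          ((d.PP.filter (fun p : ℕ => (p : ℤ) ∣ k * x.1 + d.j ∧
            (p : ℤ) ∣ k * x.2 + d.j)).card : ℝ)) +
        (∑ x ∈ d.SLL u, ∑ k ∈ d.SK.filter (fun k => (u : ℤ) ∣ k * x.1 + d.j),
          ((d.PP.filter (fun p : ℕ => p ∣ x.1 ∧ (p : ℤ) ∣ k * x.2 + d.j)).card : ℝ))) := by
      rw [mul_sum, ← sum_add_distrib, ← sum_add_distrib, mul_sum]
      apply sum_congr rfl
      intro x _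
      rw [← mul_sum, sum_add_distrib, sum_add_distrib, sum_const, nsmul_eq_mul]
      ring
    -- part A
    have pA : ∑ x ∈ d.SLL u, ((d.SK.filter (fun k => (u : ℤ) ∣ k * x.1 + d.j)).card : ℝ) ≤
        (1 / (u : ℝ)) * (T ^ 2 * d.L ^ 2 * (6 * d.K / d.U + 1)) := by
      calc ∑ x ∈ d.SLL u, ((d.SK.filter (fun k => (u : ℤ) ∣ k * x.1 + d.j)).card : ℝ)
          ≤ ∑ _x ∈ d.SLL u, (6 * d.K / d.U + 1) := by
            apply sum_le_sum
            intro x _
            refine (d.D3_cntK u hu0 hup x.1).trans ?_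
            have : 6 * d.K / u ≤ 6 * d.K / d.U :=
              div_le_div_of_nonneg_left (by positivity) hU0 huU
            linarith
        _ = (d.SLL u).card * (6 * d.K / d.U + 1) := by rw [sum_const, nsmul_eq_mul]
        _ ≤ (T ^ 2 * d.L ^ 2 * (1 / u)) * (6 * d.K / d.U + 1) := by
            apply mul_le_mul_of_nonneg_right (d.D3_cntL u hu0)
            positivity
        _ = _ := by ring
    -- part B
    have pB : ∑ x ∈ d.SLL u, ∑ k ∈ d.SK.filter (fun k => (u : ℤ) ∣ k * x.1 + d.j),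
          ((d.PP.filter (fun p : ℕ => (p : ℤ) ∣ k * x.1 + d.j ∧
            (p : ℤ) ∣ k * x.2 + d.j)).card : ℝ) ≤
        (1 / (u : ℝ)) * (T ^ 3 * d.L ^ 2 * (6 * Q + 1)) := by
      have b1 : ∀ p ∈ d.PP, ∑ x ∈ d.SLL u, ∑ k ∈ d.SK.filter (fun k => (u : ℤ) ∣ k * x.1 + d.j),
          (if (p : ℤ) ∣ k * x.1 + d.j ∧ (p : ℤ) ∣ k * x.2 + d.j then (1 : ℝ) else 0) ≤
          (1 / (p : ℝ)) * ((1 / (u : ℝ)) * (T ^ 2 * d.L ^ 2 * (6 * Q + 1))) := by
        intro p hp
        obtain ⟨hpp, hpy, _, hpu⟩ := d.D3_p hp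
        have hpR : (0 : ℝ) < p := by linarith
        have hup0 : 0 < u * p := Nat.mul_pos hu0 hpp.pos
        have hcop : Nat.Coprime u p := ((Nat.Prime.coprime_iff_not_dvd hpp).2 (hpu u hu)).symm
        have hIcop : IsCoprime (u : ℤ) (p : ℤ) := Nat.isCoprime_iff_coprime.2 hcop
        have hupp : ∀ q : ℕ, q.Prime → q ∣ u * p → d.y ≤ (q : ℝ) := by
          intro q hq hqup
          rcases (Nat.Prime.dvd_mul hq).1 hqup with h | h
          · exact hup q hq h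
          · rw [(Nat.prime_dvd_prime_iff_eq hq hpp).1 h]
            exact hpy
        have hsub : d.SLL (u * p) ⊆ d.SLL u := by
          intro x hx
          unfold SLL at hx ⊢
          rw [mem_filter] at hx ⊢
          refine ⟨hx.1, hx.2.1, ?_⟩
          have h1 : (u : ℤ) ∣ ((u * p : ℕ) : ℤ) := by
            push_cast
            exact dvd_mul_right _ _
          exact h1.trans hx.2.2
        rw [← sum_subset hsub]
        · calc ∑ x ∈ d.SLL (u * p), ∑ k ∈ d.SK.filter (fun k => (u : ℤ) ∣ k * x.1 + d.j),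
              (if (p : ℤ) ∣ k * x.1 + d.j ∧ (p : ℤ) ∣ k * x.2 + d.j then (1 : ℝ) else 0)
              ≤ ∑ _x ∈ d.SLL (u * p), (6 * Q + 1) := by
                apply sum_le_sum
                intro x _
                rw [sum_boole]
                have hle : (((d.SK.filter (fun k => (u : ℤ) ∣ k * x.1 + d.j)).filter
                    (fun k => (p : ℤ) ∣ k * x.1 + d.j ∧ (p : ℤ) ∣ k * x.2 + d.j)).card : ℝ) ≤
                    ((d.SK.filter (fun k => ((u * p : ℕ) : ℤ) ∣ k * x.1 + d.j)).card : ℝ) := by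
                  have : ((d.SK.filter (fun k => (u : ℤ) ∣ k * x.1 + d.j)).filter
                    (fun k => (p : ℤ) ∣ k * x.1 + d.j ∧ (p : ℤ) ∣ k * x.2 + d.j)) ⊆
                    (d.SK.filter (fun k => ((u * p : ℕ) : ℤ) ∣ k * x.1 + d.j)) := by
                    intro k hk
                    rw [mem_filter, mem_filter] at hk
                    rw [mem_filter]
                    refine ⟨hk.1.1, ?_⟩
                    push_cast
                    exact hIcop.mul_dvd hk.1.2 hk.2.1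
                  exact_mod_cast card_le_card this
                refine hle.trans ((d.D3_cntK (u * p) hup0 hupp x.1).trans ?_)
                have : 6 * d.K / ((u * p : ℕ) : ℝ) ≤ 6 * Q := by
                  rw [hQ, mul_div_assoc]
                  push_cast
                  gcongr
                linarith
            _ = (d.SLL (u * p)).card * (6 * Q + 1) := by rw [sum_const, nsmul_eq_mul]
            _ ≤ (T ^ 2 * d.L ^ 2 * (1 / ((u * p : ℕ) : ℝ))) * (6 * Q + 1) := by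
                apply mul_le_mul_of_nonneg_right (d.D3_cntL (u * p) hup0)
                positivity
            _ = _ := by
                push_cast
                field_simp
        · intro x hx hx2
          apply sum_eq_zero
          intro k hk
          rw [mem_filter] at hk
          rw [if_neg]
          rintro ⟨c1, c2⟩
          apply hx2
          unfold SLL at hx ⊢
          rw [mem_filter] at hx ⊢
          refine ⟨hx.1, hx.2.1, ?_⟩
          push_cast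
          apply hIcop.mul_dvd hx.2.2
          have h1 := dvd_sub c1 c2
          have h2 : (k * (x.1 : ℤ) + d.j) - (k * x.2 + d.j) = k * ((x.1 : ℤ) - x.2) := by ring
          rw [h2] at h1
          rcases (Nat.prime_iff_prime_int.1 hpp).dvd_or_dvd h1 with h | h
          · exfalso
            apply d.D3_j hpy
            have h3 : (p : ℤ) ∣ k * x.1 := h.mul_right _
            have h4 := dvd_sub c1 h3
            rwa [add_sub_cancel_left] at h4
          · exact h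
      have b2 : ∑ x ∈ d.SLL u, ∑ k ∈ d.SK.filter (fun k => (u : ℤ) ∣ k * x.1 + d.j),
          ((d.PP.filter (fun p : ℕ => (p : ℤ) ∣ k * x.1 + d.j ∧
            (p : ℤ) ∣ k * x.2 + d.j)).card : ℝ) =
          ∑ p ∈ d.PP, ∑ x ∈ d.SLL u, ∑ k ∈ d.SK.filter (fun k => (u : ℤ) ∣ k * x.1 + d.j),
          (if (p : ℤ) ∣ k * x.1 + d.j ∧ (p : ℤ) ∣ k * x.2 + d.j then (1 : ℝ) else 0) := by
        rw [sum_comm]
        apply sum_congr rfl
        intro x _
        rw [sum_comm]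
        apply sum_congr rfl
        intro k _
        rw [sum_boole]
      rw [b2]
      calc ∑ p ∈ d.PP, ∑ x ∈ d.SLL u, ∑ k ∈ d.SK.filter (fun k => (u : ℤ) ∣ k * x.1 + d.j),
          (if (p : ℤ) ∣ k * x.1 + d.j ∧ (p : ℤ) ∣ k * x.2 + d.j then (1 : ℝ) else 0)
          ≤ ∑ p ∈ d.PP, (1 / (p : ℝ)) * ((1 / (u : ℝ)) * (T ^ 2 * d.L ^ 2 * (6 * Q + 1))) :=
            sum_le_sum b1
        _ = (∑ p ∈ d.PP, (1 / (p : ℝ))) * ((1 / (u : ℝ)) * (T ^ 2 * d.L ^ 2 * (6 * Q + 1))) := by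
            rw [sum_mul]
        _ ≤ T * ((1 / (u : ℝ)) * (T ^ 2 * d.L ^ 2 * (6 * Q + 1))) := by
            apply mul_le_mul_of_nonneg_right d.D3_inv
            positivity
        _ = _ := by ring
    -- part C
    have pC : ∑ x ∈ d.SLL u, ∑ k ∈ d.SK.filter (fun k => (u : ℤ) ∣ k * x.1 + d.j),
          ((d.PP.filter (fun p : ℕ => p ∣ x.1 ∧ (p : ℤ) ∣ k * x.2 + d.j)).card : ℝ) ≤
        (1 / (u : ℝ)) * (T ^ 3 * d.L ^ 2 * (6 * Q + 1)) := by
      have c1 : ∀ x ∈ d.SLL u, ∑ k ∈ d.SK.filter (fun k => (u : ℤ) ∣ k * x.1 + d.j),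
          ((d.PP.filter (fun p : ℕ => p ∣ x.1 ∧ (p : ℤ) ∣ k * x.2 + d.j)).card : ℝ) ≤
          T * (6 * Q + 1) := by
        intro x hx
        obtain ⟨hx1, hx2, hxne, hxu⟩ := hmemL x hx
        have c2 : ∑ k ∈ d.SK.filter (fun k => (u : ℤ) ∣ k * x.1 + d.j),
          ((d.PP.filter (fun p : ℕ => p ∣ x.1 ∧ (p : ℤ) ∣ k * x.2 + d.j)).card : ℝ) =
          ∑ p ∈ d.PP.filter (fun p : ℕ => (p : ℤ) ∣ (x.1 : ℤ)),
            ∑ k ∈ d.SK.filter (fun k => (u : ℤ) ∣ k * x.1 + d.j),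
              (if (p : ℤ) ∣ k * x.2 + d.j then (1 : ℝ) else 0) := by
          rw [sum_comm]
          apply sum_congr rfl
          intro k _
          rw [sum_boole, filter_filter]
          simp only [Int.natCast_dvd_natCast]
        rw [c2]
        calc _ ≤ ∑ p ∈ d.PP.filter (fun p : ℕ => (p : ℤ) ∣ (x.1 : ℤ)), (6 * Q + 1) := by
              apply sum_le_sum
              intro p hp
              rw [mem_filter] at hp
              obtain ⟨hpp, hpy, _, hpu⟩ := d.D3_p hp.1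
              have hup0 : 0 < u * p := Nat.mul_pos hu0 hpp.pos
              have hpR : (0 : ℝ) < p := by linarith
              have hcop : Nat.Coprime u p :=
                ((Nat.Prime.coprime_iff_not_dvd hpp).2 (hpu u hu)).symm
              have hIcop : IsCoprime (u : ℤ) (p : ℤ) := Nat.isCoprime_iff_coprime.2 hcop
              have hupp : ∀ q : ℕ, q.Prime → q ∣ u * p → d.y ≤ (q : ℝ) := by
                intro q hq hqup
                rcases (Nat.Prime.dvd_mul hq).1 hqup with h | h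
                · exact hup q hq h
                · rw [(Nat.prime_dvd_prime_iff_eq hq hpp).1 h]
                  exact hpy
              rw [sum_boole]
              have hle : (((d.SK.filter (fun k => (u : ℤ) ∣ k * x.1 + d.j)).filter
                  (fun k => (p : ℤ) ∣ k * x.2 + d.j)).card : ℝ) ≤
                  ((d.SK.filter (fun k => ((u * p : ℕ) : ℤ) ∣ k * x.2 + d.j)).card : ℝ) := by
                have : ((d.SK.filter (fun k => (u : ℤ) ∣ k * x.1 + d.j)).filter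
                  (fun k => (p : ℤ) ∣ k * x.2 + d.j)) ⊆
                  (d.SK.filter (fun k => ((u * p : ℕ) : ℤ) ∣ k * x.2 + d.j)) := by
                  intro k hk
                  rw [mem_filter, mem_filter] at hk
                  rw [mem_filter]
                  refine ⟨hk.1.1, ?_⟩
                  push_cast
                  apply hIcop.mul_dvd _ hk.2
                  have h1 : (u : ℤ) ∣ k * ((x.1 : ℤ) - x.2) := hxu.mul_left k
                  have h2 := dvd_sub hk.1.2 h1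
                  have h3 : (k * (x.1 : ℤ) + d.j) - k * ((x.1 : ℤ) - x.2) = k * x.2 + d.j := by
                    ring
                  rwa [h3] at h2
                exact_mod_cast card_le_card this
              refine hle.trans ((d.D3_cntK (u * p) hup0 hupp x.2).trans ?_)
              have : 6 * d.K / ((u * p : ℕ) : ℝ) ≤ 6 * Q := by
                rw [hQ, mul_div_assoc]
                push_cast
                gcongr
              linarith
          _ = ((d.PP.filter (fun p : ℕ => (p : ℤ) ∣ (x.1 : ℤ))).card : ℝ) * (6 * Q + 1) := by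
              rw [sum_const, nsmul_eq_mul]
          _ ≤ T * (6 * Q + 1) := by
              apply mul_le_mul_of_nonneg_right _ (by positivity)
              exact d.D3_card (by exact_mod_cast (d.D3_l hx1).1.ne') (by simpa using (d.D3_l hx1).2)
      calc _ ≤ ∑ _x ∈ d.SLL u, T * (6 * Q + 1) := sum_le_sum c1
        _ = (d.SLL u).card * (T * (6 * Q + 1)) := by rw [sum_const, nsmul_eq_mul]
        _ ≤ (T ^ 2 * d.L ^ 2 * (1 / u)) * (T * (6 * Q + 1)) := by
            apply mul_le_mul_of_nonneg_right (d.D3_cntL u hu0)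
            positivity
        _ = _ := by ring
    refine e1.trans ?_
    rw [e2]
    have g : 0 ≤ 14 * T / d.y := by positivity
    have pA' := mul_le_mul_of_nonneg_left pA g
    have := add_le_add (add_le_add pA' pB) pC
    calc _ ≤ T ^ 6 * (14 * T / d.y * (1 / (u : ℝ) * (T ^ 2 * d.L ^ 2 * (6 * d.K / d.U + 1))) +
          1 / (u : ℝ) * (T ^ 3 * d.L ^ 2 * (6 * Q + 1)) +
          1 / (u : ℝ) * (T ^ 3 * d.L ^ 2 * (6 * Q + 1))) := by
          apply mul_le_mul_of_nonneg_left this (by positivity)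
      _ = _ := by ring
  unfold BadSum
  calc _ ≤ ∑ u ∈ d.SU, (1 / (u : ℝ)) * (T ^ 6 * ((14 * T / d.y) *
        (T ^ 2 * d.L ^ 2 * (6 * d.K / d.U + 1)) +
        T ^ 3 * d.L ^ 2 * (6 * Q + 1) + T ^ 3 * d.L ^ 2 * (6 * Q + 1))) := sum_le_sum main
    _ = (∑ u ∈ d.SU, (1 / (u : ℝ))) * (T ^ 6 * ((14 * T / d.y) *
        (T ^ 2 * d.L ^ 2 * (6 * d.K / d.U + 1)) +
        T ^ 3 * d.L ^ 2 * (6 * Q + 1) + T ^ 3 * d.L ^ 2 * (6 * Q + 1))) := by rw [sum_mul]
    _ ≤ T * (T ^ 6 * ((14 * T / d.y) *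
        (T ^ 2 * d.L ^ 2 * (6 * d.K / d.U + 1)) +
        T ^ 3 * d.L ^ 2 * (6 * Q + 1) + T ^ 3 * d.L ^ 2 * (6 * Q + 1))) := by
        apply mul_le_mul_of_nonneg_right d.D3_invU
        positivity
    _ = T ^ 10 * d.L ^ 2 * (14 * (6 * (d.K / (d.U * d.y)) + 1 / d.y) + (12 * Q + 2)) := by
        field_simp
        ring
    _ ≤ T ^ 10 * d.L ^ 2 * (14 * (6 * Q + 1) + (12 * Q + 2)) := by
        apply mul_le_mul_of_nonneg_left _ (by positivity)
        have : 1 / d.y ≤ 1 := by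
          rw [div_le_one hy0]
          linarith
        rw [← hQ]
        linarith
    _ ≤ T ^ 10 * d.L ^ 2 * (1000 * (Q + 1)) := by
        apply mul_le_mul_of_nonneg_left _ (by positivity)
        linarith
    _ ≤ T ^ 14 * d.L ^ 2 * (1000 * (Q + 1)) := by
        apply mul_le_mul_of_nonneg_right _ (by positivity)
        apply mul_le_mul_of_nonneg_right _ (by positivity)
        exact pow_le_pow_right₀ hT (by norm_num)
    _ = 1000 * T ^ 14 * d.L ^ 2 * (Q + 1) := by ring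

end DD

end Pool.Agent.Lib.MP_2a816b_nt.BH
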