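import Pool.Agent.Lib.MP_2a816b_nt.BH.CompA

/-!
# JOB Phase: reciprocity

Let `u, v₁, v₂, l₁` be pairwise coprime positive integers (`v₂` also prime to `l₂`), `l₂ = l₁ + u t` an integer, `j` an integer.
Choose (Chinese remainder theorem) an integer `k₀` with `u v₁ ∣ k₀ l₁ + j` and `v₂ ∣ k₀ l₂ + j`. Then modulo 1
`- k₀ / (u v₁ v₂) = j / (l₁ u v₁ v₂) - j \overline{u v₁ v₂} / l₁ - j t \overline{v₁ l₁ l₂} / v₂`.
Proof: clear denominators. Let `x, y` be integers with `x u v₁ v₂ ≡ 1 (l₁)`, `y v₁ l₁ l₂ ≡ 1 (v₂)`. Multiply by `l₁ u v₁ v₂`: the claim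
is `E := k₀ l₁ + j - j x u v₁ v₂ - j t y l₁ u v₁ ≡ 0 (mod l₁ u v₁ v₂)`. Check modulo the pairwise coprime numbers
`u v₁`: `k₀ l₁ + j ≡ 0`, the other terms are multiples of `u v₁`. Modulo `l₁`: `j - j (x u v₁ v₂) ≡ 0`. Modulo `v₂`:
`E ≡ k₀ l₁ + j - j t y l₁ u v₁`; multiply by `l₂` (prime to `v₂`) and use `k₀ l₂ ≡ - j`, `y v₁ l₁ l₂ ≡ 1`:
`l₂ E ≡ - j l₁ + j l₂ - j t u = 0`. (Sign: `e(- k₀ ν / (u v₁ v₂))` is the `ν`-th power.)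
-/

set_option autoImplicit false

open Finset Real

namespace Pool.Agent.Lib.MP_2a816b_nt.BH

private lemma phase_inv (q : ℕ) (a x : ZMod q) (h : a * x = 1) : a⁻¹ = x := by
  have hu : IsUnit a := IsUnit.of_mul_eq_one x h
  calc a⁻¹ = a⁻¹ * (a * x) := by rw [h, mul_one]
    _ = (a⁻¹ * a) * x := by ring
    _ = x := by rw [ZMod.inv_mul_of_unit a hu, one_mul]

theorem phase (u v₁ v₂ l₁ : ℕ) (l₂ t j : ℤ) (hu : 0 < u) (hv₁ : 0 < v₁) (hv₂ : 0 < v₂)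
    (hl₁ : 0 < l₁) (h1 : u.Coprime v₁) (h2 : u.Coprime v₂) (h3 : v₁.Coprime v₂)
    (h4 : l₁.Coprime u) (h5 : l₁.Coprime v₁) (h6 : l₁.Coprime v₂)
    (h7 : IsCoprime l₂ (v₂ : ℤ)) (hl₂ : l₂ = l₁ + u * t) :
    ∃ k₀ : ℤ, ((u * v₁ : ℕ) : ℤ) ∣ k₀ * l₁ + j ∧ (v₂ : ℤ) ∣ k₀ * l₂ + j ∧
      ∀ ν : ℤ, e (-(ν * k₀ : ℤ) / (u * v₁ * v₂ : ℕ)) =
        e ((ν * j : ℤ) / (l₁ * u * v₁ * v₂ : ℕ)) *
        ee l₁ (-((ν * j : ℤ) : ZMod l₁) * ((u * v₁ * v₂ : ℕ) : ZMod l₁)⁻¹) *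
        ee v₂ (-((ν * j * t : ℤ) : ZMod v₂) * ((v₁ * l₁ * l₂ : ℤ) : ZMod v₂)⁻¹) := by
  have c1 : IsCoprime (u : ℤ) (v₁ : ℤ) := Nat.isCoprime_iff_coprime.2 h1
  have c2 : IsCoprime (u : ℤ) (v₂ : ℤ) := Nat.isCoprime_iff_coprime.2 h2
  have c3 : IsCoprime (v₁ : ℤ) (v₂ : ℤ) := Nat.isCoprime_iff_coprime.2 h3
  have c4 : IsCoprime (l₁ : ℤ) (u : ℤ) := Nat.isCoprime_iff_coprime.2 h4
  have c5 : IsCoprime (l₁ : ℤ) (v₁ : ℤ) := Nat.isCoprime_iff_coprime.2 h5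
  have c6 : IsCoprime (l₁ : ℤ) (v₂ : ℤ) := Nat.isCoprime_iff_coprime.2 h6
  have cuv : IsCoprime ((u : ℤ) * v₁) (v₂ : ℤ) := c2.mul_left c3
  obtain ⟨a, b, hab⟩ := c4.mul_right c5
  have h7' := h7
  obtain ⟨a', b', hab'⟩ := h7'
  obtain ⟨p, q, hpq⟩ := cuv
  obtain ⟨x, x', hx⟩ := ((c4.mul_right c5).mul_right c6).symm
  obtain ⟨y, y', hy⟩ := (c3.mul_left c6).mul_left h7
  refine ⟨-j * a * (q * v₂) + -j * a' * (p * (u * v₁)), ?_, ?_, ?_⟩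
  · refine ⟨j * b - (-j * a) * p * l₁ + (-j * a') * p * l₁, ?_⟩
    push_cast
    have e1 : q * v₂ = 1 - p * (u * v₁) := by linarith
    have e2 : a * l₁ = 1 - b * (u * v₁) := by linarith
    rw [e1]
    linear_combination (-j) * e2
  · refine ⟨j * b' - (-j * a') * q * l₂ + (-j * a) * q * l₂, ?_⟩
    have e1 : p * (u * v₁) = 1 - q * v₂ := by linarith
    have e2 : a' * l₂ = 1 - b' * v₂ := by linarith
    rw [e1]
    linear_combination (-j) * e2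
  intro ν
  set k₀ : ℤ := -j * a * (q * v₂) + -j * a' * (p * (u * v₁)) with hk₀
  have d1 : (u : ℤ) * v₁ ∣ k₀ * l₁ + j := by
    refine ⟨j * b - (-j * a) * p * l₁ + (-j * a') * p * l₁, ?_⟩
    rw [hk₀]
    have e1 : q * v₂ = 1 - p * (u * v₁) := by linarith
    have e2 : a * l₁ = 1 - b * (u * v₁) := by linarith
    rw [e1]
    linear_combination (-j) * e2
  obtain ⟨z, hz⟩ : (v₂ : ℤ) ∣ k₀ * l₂ + j := by
    refine ⟨j * b' - (-j * a') * q * l₂ + (-j * a) * q * l₂, ?_⟩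
    rw [hk₀]
    have e1 : p * (u * v₁) = 1 - q * v₂ := by linarith
    have e2 : a' * l₂ = 1 - b' * v₂ := by linarith
    rw [e1]
    linear_combination (-j) * e2
  -- the integer `E`
  have hE : (l₁ : ℤ) * ((u * v₁) * v₂) ∣
      k₀ * l₁ + j - j * x * (u * v₁ * v₂) - j * t * y * (l₁ * (u * v₁)) := by
    apply IsCoprime.mul_dvd ((c4.mul_right c5).mul_right c6)
    · refine ⟨k₀ + j * x' - j * t * y * (u * v₁), ?_⟩
      linear_combination (-j) * hx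
    · apply IsCoprime.mul_dvd (c2.mul_left c3)
      · obtain ⟨w, hw⟩ := d1
        refine ⟨w - j * x * v₂ - j * t * y * l₁, ?_⟩
        linear_combination hw
      · have h8 : (v₂ : ℤ) ∣ l₂ *
            (k₀ * l₁ + j - j * x * (u * v₁ * v₂) - j * t * y * (l₁ * (u * v₁))) := by
          refine ⟨l₁ * z - l₂ * j * x * (u * v₁) + j * t * u * y', ?_⟩
          linear_combination (l₁ : ℤ) * hz - (j * t * u) * hy + j * hl₂
        exact IsCoprime.dvd_of_dvd_mul_left ⟨b', a', by linarith⟩ h8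
  obtain ⟨m, hm⟩ := hE
  have i1 : ((u * v₁ * v₂ : ℕ) : ZMod l₁)⁻¹ = (x : ZMod l₁) := by
    apply phase_inv
    have := congrArg (fun n : ℤ => (n : ZMod l₁)) hx
    push_cast at this ⊢
    rw [ZMod.natCast_self, mul_zero, add_zero] at this
    rw [← this]
    ring
  have i2 : ((v₁ * l₁ * l₂ : ℤ) : ZMod v₂)⁻¹ = (y : ZMod v₂) := by
    apply phase_inv
    have := congrArg (fun n : ℤ => (n : ZMod v₂)) hy
    push_cast at this ⊢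
    rw [ZMod.natCast_self, mul_zero, add_zero] at this
    rw [← this]
    ring
  have f1 : ee l₁ (-((ν * j : ℤ) : ZMod l₁) * ((u * v₁ * v₂ : ℕ) : ZMod l₁)⁻¹) =
      e (((-(ν * j) * x : ℤ) : ℝ) / l₁) := by
    rw [i1, ← ee_intCast l₁ hl₁]
    congr 1
    push_cast
    ring
  have f2 : ee v₂ (-((ν * j * t : ℤ) : ZMod v₂) * ((v₁ * l₁ * l₂ : ℤ) : ZMod v₂)⁻¹) =
      e (((-(ν * j * t) * y : ℤ) : ℝ) / v₂) := by
    rw [i2, ← ee_intCast v₂ hv₂]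
    congr 1
    push_cast
    ring
  rw [f1, f2, ← e_add, ← e_add]
  have g1 : ((u : ℝ)) ≠ 0 := by exact_mod_cast hu.ne'
  have g2 : ((v₁ : ℝ)) ≠ 0 := by exact_mod_cast hv₁.ne'
  have g3 : ((v₂ : ℝ)) ≠ 0 := by exact_mod_cast hv₂.ne'
  have g4 : ((l₁ : ℝ)) ≠ 0 := by exact_mod_cast hl₁.ne'
  have key : ((ν * j : ℤ) : ℝ) / (l₁ * u * v₁ * v₂ : ℕ) + ((-(ν * j) * x : ℤ) : ℝ) / l₁ +
      ((-(ν * j * t) * y : ℤ) : ℝ) / v₂ = -((ν * k₀ : ℤ) : ℝ) / (u * v₁ * v₂ : ℕ) +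
        ((ν * m : ℤ) : ℝ) := by
    have hmR : (k₀ : ℝ) * l₁ + j - j * x * (u * v₁ * v₂) - j * t * y * (l₁ * (u * v₁)) =
        l₁ * ((u * v₁) * v₂) * m := by exact_mod_cast hm
    push_cast
    field_simp
    linear_combination (ν : ℝ) * hmR
  rw [key, e_add_int]

end Pool.Agent.Lib.MP_2a816b_nt.BH
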