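import Pool.Agent.Lib.MP_2a816b_nt.BH.RamA
import Pool.Agent.Lib.MP_2a816b_nt.BH.Phase

/-!
# JOB Pois: Poisson summation for the good part

`expand`: `[u ∣ x] bc v x = (b_v / u) ∑_{c mod u v, (c, v) = 1} e(c x / (u v))` for `v` squarefree, `(u, v) = 1`: by `bc_exp` and
`[u ∣ x] = (1 / u) ∑_{a mod u} e(a x / u)`; `(a, b) ↦ (a v + b u) mod u v` is a bijection
from `{a mod u} × {b mod v : (b, v) = 1}` onto `{c mod u v : (c, v) = 1}`.

`pois`: with `k₀` from `phase`: `u ∣ k l₁ + j ↔ u ∣ k - k₀`, `bc v₁ (k l₁ + j) = bc v₁ (l₁ (k - k₀) + (k₀ l₁ + j)) = bc v₁ (k - k₀)`,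
`bc v₂ (k l₂ + j) = bc v₂ (k - k₀)` (`bc_congr`, `bc_mul_arg`, `bc_mul`). With `v = v₁ v₂` and `expand`, the left side is
`(b_v / u) ∑_{c mod u v, (c, v) = 1} e(- c k₀ / (u v)) ∑_k w(k / K) e(k c / (u v))` and by `Wt.poisson` (`θ = c / (u v)`) the inner sum is
`∑_ν K wh(K (ν - c / (u v)))`. Put `ν' = c - u v ν`: these are exactly the integers prime to `v`, each once, and
`wh(K (ν - c / (u v))) = wh(- K ν' / (u v)) = wh(K ν' / (u v))`, `e(- c k₀ / (u v)) = e(- ν' k₀ / (u v))`. Use `phase`.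
(`HasSum` over `ℤ`, decomposed into the residue classes modulo `u v`: the sum over `c ∈ range (u v)` of the `HasSum`s along the injective maps
`ν ↦ c - u v ν`; `HasSum.sum`, `Function.Injective.hasSum_iff`, or the equivalence `ℤ ≃ Fin (u v) × ℤ`.)
-/

set_option autoImplicit false

open Finset Real

namespace Pool.Agent.Lib.MP_2a816b_nt.BH

/-- full sum over `range u` of a character -/
private lemma pois_full (u : ℕ) (hu : 0 < u) (x : ℤ) :
    ∑ a ∈ range u, e ((a : ℝ) * x / u) = if (u : ℤ) ∣ x then (u : ℂ) else 0 := by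
  have hu0 : (u : ℝ) ≠ 0 := by exact_mod_cast hu.ne'
  split_ifs with h
  · obtain ⟨y, hy⟩ := h
    have h1 : ∀ a ∈ range u, e ((a : ℝ) * x / u) = 1 := by
      intro a _
      have : (a : ℝ) * x / u = ((a * y : ℤ) : ℝ) := by
        rw [hy]
        push_cast
        field_simp
      rw [this, e_int]
    rw [sum_congr rfl h1, sum_const, card_range, nsmul_eq_mul, mul_one]
  · have h1 : ∑ a ∈ range u, e ((a : ℝ) * x / u) = D u ((x : ℝ) / u) := by
      unfold D
      apply sum_congr rfl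
      intro a _
      rw [mul_div_assoc]
    rw [h1]
    have h2 := D_mul u ((x : ℝ) / u)
    have h3 : (u : ℝ) * ((x : ℝ) / u) = ((x : ℤ) : ℝ) := by field_simp
    rw [h3, e_int, sub_self] at h2
    rcases mul_eq_zero.1 h2 with h4 | h4
    · exact h4
    · exfalso
      rw [sub_eq_zero, e_eq_one_iff] at h4
      obtain ⟨m, hm⟩ := h4
      apply h
      refine ⟨m, ?_⟩
      rw [div_eq_iff hu0] at hm
      have : (x : ℝ) = ((u * m : ℤ) : ℝ) := by
        rw [hm]; push_cast; ring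
      exact_mod_cast this

lemma expand (u v : ℕ) (hu : 0 < u) (hv : Squarefree v) (huv : u.Coprime v) (x : ℤ) :
    (((if (u : ℤ) ∣ x then (1 : ℝ) else 0) * bc v x : ℝ) : ℂ) =
      ((bq v / u : ℝ) : ℂ) * ∑ c ∈ (range (u * v)).filter (fun c => c.Coprime v),
        e ((c : ℝ) * x / (u * v : ℕ)) := by
  have hv0 : 0 < v := Nat.pos_of_ne_zero hv.ne_zero
  have hvR : (v : ℝ) ≠ 0 := by exact_mod_cast hv0.ne'
  have huR : (u : ℝ) ≠ 0 := by exact_mod_cast hu.ne'
  have huC : (u : ℂ) ≠ 0 := by exact_mod_cast hu.ne'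
  have h1 : ∑ c ∈ (range (u * v)).filter (fun c => c.Coprime v), e ((c : ℝ) * x / (u * v : ℕ)) =
      ∑ b ∈ (range v).filter (fun b => b.Coprime v), ∑ a ∈ range u,
        e ((b : ℝ) * x / (u * v : ℕ)) * e ((a : ℝ) * x / u) := by
    rw [← sum_product']
    symm
    apply sum_bij' (fun (p : ℕ × ℕ) _ => p.1 + v * p.2) (fun c _ => (c % v, c / v))
    · rintro ⟨b, a⟩ hp
      rw [mem_product, mem_filter, mem_range, mem_range] at hp
      rw [mem_filter, mem_range]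
      obtain ⟨⟨h2, h3⟩, h4⟩ := hp
      simp only at h2 h3 h4 ⊢
      constructor
      · calc b + v * a < v + v * a := by omega
          _ = v * (a + 1) := by ring
          _ ≤ v * u := Nat.mul_le_mul_left _ h4
          _ = u * v := mul_comm _ _
      · exact (Nat.coprime_add_mul_left_left b v a).2 h3
    · intro c hc
      rw [mem_filter, mem_range] at hc
      rw [mem_product, mem_filter, mem_range, mem_range]
      simp only
      refine ⟨⟨Nat.mod_lt _ hv0, ?_⟩, ?_⟩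
      · have := hc.2
        rw [← Nat.mod_add_div c v, Nat.coprime_add_mul_left_left] at this
        exact this
      · rw [Nat.div_lt_iff_lt_mul hv0]
        exact hc.1
    · rintro ⟨b, a⟩ hp
      rw [mem_product, mem_filter, mem_range, mem_range] at hp
      obtain ⟨⟨h2, h3⟩, h4⟩ := hp
      simp only at h2 h3 h4 ⊢
      rw [Nat.add_mul_mod_self_left, Nat.mod_eq_of_lt h2, Nat.add_mul_div_left _ _ hv0,
        Nat.div_eq_of_lt h2, zero_add]
    · intro c hc
      simp only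
      exact Nat.mod_add_div c v
    · rintro ⟨b, a⟩ hp
      simp only
      rw [← e_add]
      congr 1
      push_cast
      field_simp
  rw [h1]
  simp only [← mul_sum]
  rw [pois_full u hu x]
  split_ifs with h
  · obtain ⟨y, hy⟩ := h
    have h2 : bc v x = bc v y := by
      rw [hy]
      exact bc_mul_arg hv.ne_zero (Nat.isCoprime_iff_coprime.2 huv) y
    have h3 : ∀ b ∈ (range v).filter (fun b => b.Coprime v),
        e ((b : ℝ) * x / (u * v : ℕ)) * (u : ℂ) = e ((b : ℝ) * y / v) * u := by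
      intro b _
      congr 2
      rw [hy]
      push_cast
      field_simp
    rw [one_mul, h2, bc_exp hv y, sum_congr rfl h3, ← sum_mul]
    generalize (∑ b ∈ (range v).filter (fun b => b.Coprime v), e ((b : ℝ) * y / v)) = S
    push_cast
    field_simp
  · simp

/-- the dual term -/
noncomputable def dualTerm (wh : ℝ → ℝ) (K : ℝ) (u v₁ v₂ l₁ : ℕ) (l₂ t j ν : ℤ) : ℂ :=
  (if IsCoprime ν ((v₁ * v₂ : ℕ) : ℤ) then (1 : ℂ) else 0) *
    ((K / u * (bq v₁ * bq v₂) * wh (K * ν / (u * v₁ * v₂ : ℕ)) : ℝ) : ℂ) *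
    (e ((ν * j : ℤ) / (l₁ * u * v₁ * v₂ : ℕ)) *
      ee l₁ (-((ν * j : ℤ) : ZMod l₁) * ((u * v₁ * v₂ : ℕ) : ZMod l₁)⁻¹) *
      ee v₂ (-((ν * j * t : ℤ) : ZMod v₂) * ((v₁ * l₁ * l₂ : ℤ) : ZMod v₂)⁻¹))

theorem pois {w wh : ℝ → ℝ} {C : ℝ} {CA : ℕ → ℝ} (hw : Wt w wh C CA) (K : ℝ) (hK : 0 < K)
    (u v₁ v₂ l₁ : ℕ) (l₂ t j : ℤ) (hu : 0 < u) (hv₁ : Squarefree v₁) (hv₂ : Squarefree v₂)
    (hl₁ : 0 < l₁) (h1 : u.Coprime v₁) (h2 : u.Coprime v₂) (h3 : v₁.Coprime v₂)
    (h4 : l₁.Coprime u) (h5 : l₁.Coprime v₁) (h6 : l₁.Coprime v₂)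
    (h7 : IsCoprime l₂ (v₂ : ℤ)) (hl₂ : l₂ = l₁ + u * t) :
    HasSum (fun ν : ℤ => dualTerm wh K u v₁ v₂ l₁ l₂ t j ν)
      (∑ k ∈ Icc (-⌈2 * K⌉) ⌈2 * K⌉, ((w ((k : ℝ) / K) *
        ((if (u : ℤ) ∣ k * l₁ + j then (1 : ℝ) else 0) * bc v₁ (k * l₁ + j) *
          bc v₂ (k * l₂ + j)) : ℝ) : ℂ)) := by
  have hv10 : 0 < v₁ := Nat.pos_of_ne_zero hv₁.ne_zero
  have hv20 : 0 < v₂ := Nat.pos_of_ne_zero hv₂.ne_zero
  obtain ⟨k₀, hk1, hk2, hph⟩ := phase u v₁ v₂ l₁ l₂ t j hu hv10 hv20 hl₁ h1 h2 h3 h4 h5 h6 h7 hl₂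
  have hv : Squarefree (v₁ * v₂) := (Nat.squarefree_mul h3).2 ⟨hv₁, hv₂⟩
  obtain ⟨v, hvdef⟩ : ∃ v, v = v₁ * v₂ := ⟨_, rfl⟩
  rw [← hvdef] at hv
  have hv0 : 0 < v := Nat.pos_of_ne_zero hv.ne_zero
  have huv : u.Coprime v := by rw [hvdef]; exact Nat.Coprime.mul_right h1 h2
  obtain ⟨N, hNdef⟩ : ∃ N, N = u * v := ⟨_, rfl⟩
  have hN0 : 0 < N := by rw [hNdef]; exact Nat.mul_pos hu hv0
  have hNR : (N : ℝ) ≠ 0 := by exact_mod_cast hN0.ne'
  have hN2 : u * v₁ * v₂ = N := by rw [hNdef, hvdef]; ring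
  have huR : (u : ℝ) ≠ 0 := by exact_mod_cast hu.ne'
  let P : ℕ → ℂ := fun c =>
    ∑ k ∈ Icc (-⌈2 * K⌉) ⌈2 * K⌉, (w ((k : ℝ) / K) : ℂ) * e ((k : ℝ) * ((c : ℝ) / N))
  let a : ℕ → ℂ := fun c =>
    if c.Coprime v then ((bq v / u : ℝ) : ℂ) * e (-((c : ℝ) * k₀) / N) else 0
  -- the identity for one `k`
  have hk : ∀ k : ℤ, (if (u : ℤ) ∣ k * l₁ + j then (1 : ℝ) else 0) * bc v₁ (k * l₁ + j) *
      bc v₂ (k * l₂ + j) = (if (u : ℤ) ∣ k - k₀ then (1 : ℝ) else 0) * bc v (k - k₀) := by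
    intro k
    have e1 : k * l₁ + j = l₁ * (k - k₀) + (k₀ * l₁ + j) := by ring
    have e2 : k * l₂ + j = l₂ * (k - k₀) + (k₀ * l₂ + j) := by ring
    have hu1 : (u : ℤ) ∣ k₀ * l₁ + j := by
      refine dvd_trans ?_ hk1
      push_cast
      exact dvd_mul_right _ _
    have hv1 : (v₁ : ℤ) ∣ k₀ * l₁ + j := by
      refine dvd_trans ?_ hk1
      push_cast
      exact dvd_mul_left _ _
    have d1 : (u : ℤ) ∣ k * l₁ + j ↔ (u : ℤ) ∣ k - k₀ := by
      rw [e1, dvd_add_left hu1]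
      constructor
      · intro h
        exact IsCoprime.dvd_of_dvd_mul_left (Nat.isCoprime_iff_coprime.2 h4.symm) h
      · intro h
        exact Dvd.dvd.mul_left h _
    have d2 : bc v₁ (k * l₁ + j) = bc v₁ (k - k₀) := by
      rw [← bc_mul_arg hv₁.ne_zero (Nat.isCoprime_iff_coprime.2 h5) (k - k₀)]
      apply bc_congr
      rw [e1, add_sub_cancel_left]
      exact hv1
    have d3 : bc v₂ (k * l₂ + j) = bc v₂ (k - k₀) := by
      rw [← bc_mul_arg hv₂.ne_zero h7 (k - k₀)]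
      apply bc_congr
      rw [e2, add_sub_cancel_left]
      exact hk2
    rw [d2, d3, mul_assoc, ← bc_mul h3, ← hvdef]
    congr 1
    by_cases h : (u : ℤ) ∣ k - k₀
    · rw [if_pos h, if_pos (d1.2 h)]
    · rw [if_neg h, if_neg (fun h' => h (d1.1 h'))]
  -- the target
  have htarget : (∑ k ∈ Icc (-⌈2 * K⌉) ⌈2 * K⌉, ((w ((k : ℝ) / K) *
        ((if (u : ℤ) ∣ k * l₁ + j then (1 : ℝ) else 0) * bc v₁ (k * l₁ + j) *
          bc v₂ (k * l₂ + j)) : ℝ) : ℂ)) = ∑ c ∈ range N, a c * P c := by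
    have q1 : ∑ c ∈ range N, a c * P c = ∑ c ∈ (range N).filter (fun c => c.Coprime v),
        (((bq v / u : ℝ) : ℂ) * e (-((c : ℝ) * k₀) / N)) * P c := by
      rw [sum_filter]
      apply sum_congr rfl
      intro c _
      simp only [a]
      split_ifs
      · rfl
      · rw [zero_mul]
    rw [q1]
    simp only [P, mul_sum]
    rw [sum_comm]
    apply sum_congr rfl
    intro k _
    rw [hk k, Complex.ofReal_mul, expand u v hu hv huv (k - k₀), mul_sum, mul_sum, ← hNdef]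
    apply sum_congr rfl
    intro c _
    have q2 : e ((c : ℝ) * ((k - k₀ : ℤ) : ℝ) / (N : ℕ)) =
        e (-((c : ℝ) * k₀) / N) * e ((k : ℝ) * ((c : ℝ) / N)) := by
      rw [← e_add]
      congr 1
      push_cast
      field_simp
      ring
    rw [q2]
    ring
  rw [htarget]
  -- the dual terms
  have hdual : ∀ (c : ℕ) (ν : ℤ), dualTerm wh K u v₁ v₂ l₁ l₂ t j (c - N * ν) =
      a c * ((K * wh (K * ((ν : ℝ) - (c : ℝ) / N)) : ℝ) : ℂ) := by
    intro c ν
    unfold dualTerm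
    rw [← hph, hN2, ← hvdef, ← bq_mul h3, ← hvdef]
    have hcop : IsCoprime ((c : ℤ) - N * ν) (v : ℤ) ↔ c.Coprime v := by
      rw [← Nat.isCoprime_iff_coprime]
      have : (c : ℤ) - N * ν = c + v * (-(u * ν)) := by
        rw [hNdef]; push_cast; ring
      rw [this]
      exact IsCoprime.add_mul_left_left_iff
    have q3 : wh (K * (((c : ℤ) - N * ν : ℤ) : ℝ) / (N : ℕ)) = wh (K * ((ν : ℝ) - (c : ℝ) / N)) := by
      rw [← hw.wh_even]
      congr 1
      push_cast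
      field_simp
      ring
    have q4 : e (-((((c : ℤ) - N * ν) * k₀ : ℤ) : ℝ) / (N : ℕ)) = e (-((c : ℝ) * k₀) / N) := by
      rw [← e_add_int (-((c : ℝ) * k₀) / N) (ν * k₀)]
      congr 1
      push_cast
      field_simp
      ring
    rw [q3, q4]
    simp only [a]
    by_cases h : c.Coprime v
    · rw [if_pos h, if_pos (hcop.2 h)]
      push_cast
      ring
    · rw [if_neg h, if_neg (fun h' => h (hcop.1 h'))]
      ring
  have hfib : ∀ c ∈ range N, HasSum (fun ν' : ℤ => if ν' % N = c then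
      dualTerm wh K u v₁ v₂ l₁ l₂ t j ν' else 0) (a c * P c) := by
    intro c hc
    rw [mem_range] at hc
    have hinj : Function.Injective (fun ν : ℤ => (c : ℤ) - N * ν) := by
      intro x y hxy
      simp only at hxy
      have h8 : (N : ℤ) * x = N * y := by linarith
      have h9 : (N : ℤ) ≠ 0 := by exact_mod_cast hN0.ne'
      exact mul_left_cancel₀ h9 h8
    have hmod : ∀ ν : ℤ, ((c : ℤ) - N * ν) % N = c := by
      intro ν
      rw [Int.sub_mul_emod_self_left]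
      exact Int.emod_eq_of_lt (Int.natCast_nonneg _) (by exact_mod_cast hc)
    rw [← hinj.hasSum_iff]
    · have h8 := (hw.poisson K hK ((c : ℝ) / N)).mul_left (a c)
      have h9 : ((fun ν' : ℤ => if ν' % N = c then dualTerm wh K u v₁ v₂ l₁ l₂ t j ν' else 0) ∘
          fun ν : ℤ => (c : ℤ) - N * ν) =
          fun ν : ℤ => a c * ((K * wh (K * ((ν : ℝ) - (c : ℝ) / N)) : ℝ) : ℂ) := by
        funext ν
        simp only [Function.comp_apply]
        rw [if_pos (hmod ν), hdual]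
      rw [h9]
      exact h8
    · intro ν' hν'
      rw [if_neg]
      intro h8
      apply hν'
      refine ⟨-(ν' / N), ?_⟩
      simp only
      have := Int.emod_add_mul_ediv ν' N
      rw [h8] at this
      linarith
  have hall := hasSum_sum hfib
  suffices hfun : (fun ν : ℤ => dualTerm wh K u v₁ v₂ l₁ l₂ t j ν) =
      fun ν' : ℤ => ∑ c ∈ range N, if ν' % N = c then
        dualTerm wh K u v₁ v₂ l₁ l₂ t j ν' else 0 by
    rw [hfun]
    exact hall
  funext ν'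
  have hNZ : (N : ℤ) ≠ 0 := by exact_mod_cast hN0.ne'
  have h8 : 0 ≤ ν' % N := Int.emod_nonneg _ hNZ
  have h9 : ν' % N < N := Int.emod_lt_of_pos _ (by exact_mod_cast hN0)
  obtain ⟨c0, hc0⟩ := Int.eq_ofNat_of_zero_le h8
  symm
  rw [sum_eq_single c0]
  · rw [if_pos hc0]
  · intro c _ hne
    rw [if_neg]
    intro h10
    apply hne
    rw [hc0] at h10
    exact_mod_cast h10.symm
  · intro h10
    exfalso
    apply h10
    rw [mem_range]
    rw [hc0] at h9
    exact_mod_cast h9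

end Pool.Agent.Lib.MP_2a816b_nt.BH
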