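import Pool.Agent.Lib.MP_2a816b_nt.BH.DDef
import Pool.Agent.Lib.MP_2a816b_nt.BH.Pois

/-!
# JOB D4: the good pairs by Poisson summation, truncation

For a good pair `(v₁, v₂)` and `(u, l₁) = 1` apply `pois` (`l₂ = l₁ + u t`, `t = (l₂ - l₁) / u`): `kSum` is the sum over all `ν ∈ ℤ` of `dualTerm`.
(`u` is prime to `v₁, v₂` by `cUW`, `cUZ`.) If `(u, l₁) ≠ 1` then `kSum = 0`: a prime dividing `u` and `l₁` and `k l₁ + j` divides `j`, impossible.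
The terms with `|ν| > N`: `|dualTerm| ≤ (K / u) |b_{v₁} b_{v₂}| |wh(K ν / (u v₁ v₂))|`, and with `D = u v₁ v₂ ≤ T ^ 5 U (W Z) ^ 2` and the decay property
`|wh x| ≤ CA A / |x| ^ A`, `A ≥ 2`: `∑_{|ν| > N} |wh(K ν / D)| ≤ 2 CA A (D / K) ^ A ∑_{ν > N} ν ^ (-A) ≤ 2 CA A (D / K) ^ A / N ^ (A - 1)`.
Sum over the `v`'s: `∑ |b_{v₁} b_{v₂}| ≤ T ^ 4` (`abs_bq`, `sum_inv_totient_le`); over `(u, l₁, l₂)`: at most `T U T L (2 T L / U)` triples; `K / u ≤ K / U`.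
Total `≤ 2 T ^ 3 L ^ 2 (K / U) T ^ 4 2 CA A (T ^ 5 U (W Z) ^ 2 / K) ^ A / N ^ (A - 1)`.
-/

set_option autoImplicit false

open Finset Real
open scoped Pointwise

namespace Pool.Agent.Lib.MP_2a816b_nt.BH

private lemma D4_term (B : ℕ) (n : ℕ) (hn : 1 ≤ n) :
    (1 : ℝ) / ((n + 1 : ℕ) : ℝ) ^ (B + 2) ≤
      1 / (n : ℝ) ^ (B + 1) - 1 / ((n + 1 : ℕ) : ℝ) ^ (B + 1) := by
  have hx : (0 : ℝ) < n := by exact_mod_cast hn
  push_cast
  set x : ℝ := (n : ℝ)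
  have h1 : (0 : ℝ) < (x + 1) ^ (B + 2) := by positivity
  have h2 : (0 : ℝ) < (x + 1) ^ (B + 1) := by positivity
  have h3 : (0 : ℝ) < x ^ (B + 1) := by positivity
  have h4 : (x + 2) * x ^ (B + 1) ≤ (x + 1) ^ (B + 2) := by
    have h5 : x ^ B ≤ (x + 1) ^ B := pow_le_pow_left₀ hx.le (by linarith) B
    have h6 : (x + 2) * x ≤ (x + 1) ^ 2 := by nlinarith
    calc (x + 2) * x ^ (B + 1) = ((x + 2) * x) * x ^ B := by ring
      _ ≤ (x + 1) ^ 2 * (x + 1) ^ B := by gcongr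
      _ = (x + 1) ^ (B + 2) := by ring
  have h7 : 1 / (x + 1) ^ (B + 2) + 1 / (x + 1) ^ (B + 1) = (x + 2) / (x + 1) ^ (B + 2) := by
    rw [pow_succ (x + 1) (B + 1)]
    field_simp
    ring
  have h8 : (x + 2) / (x + 1) ^ (B + 2) ≤ 1 / x ^ (B + 1) := by
    rw [div_le_div_iff₀ h1 h3]
    linarith
  linarith

private lemma D4_sum (A : ℕ) (hA : 2 ≤ A) (N : ℕ) (hN : 1 ≤ N) (M : ℕ) :
    ∑ n ∈ Ioc N M, (1 : ℝ) / (n : ℝ) ^ A ≤ 1 / (N : ℝ) ^ (A - 1) := by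
  obtain ⟨B, rfl⟩ : ∃ B, A = B + 2 := ⟨A - 2, by omega⟩
  have hB : B + 2 - 1 = B + 1 := by omega
  rw [hB]
  rcases le_total M N with h | h
  · rw [Ioc_eq_empty_of_le h]
    simp only [sum_empty]
    positivity
  · have key : ∑ n ∈ Ioc N M, (1 : ℝ) / (n : ℝ) ^ (B + 2) ≤
        1 / (N : ℝ) ^ (B + 1) - 1 / (M : ℝ) ^ (B + 1) := by
      induction M, h using Nat.le_induction with
      | base => simp
      | succ M hM ih =>
        rw [sum_Ioc_succ_top hM]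
        have := D4_term B M (le_trans hN hM)
        linarith
    have : (0 : ℝ) ≤ 1 / (M : ℝ) ^ (B + 1) := by positivity
    linarith

private lemma D4_int (A : ℕ) (hA : 2 ≤ A) (N : ℕ) (hN : 1 ≤ N) (t : Finset ℤ)
    (ht : ∀ ν ∈ t, N < ν.natAbs) :
    ∑ ν ∈ t, (1 : ℝ) / |(ν : ℝ)| ^ A ≤ 2 / (N : ℝ) ^ (A - 1) := by
  set M : ℕ := t.sup Int.natAbs
  let f1 : ℕ ↪ ℤ := ⟨fun n => (n : ℤ), fun a b h => by simpa using h⟩
  let f2 : ℕ ↪ ℤ := ⟨fun n => -(n : ℤ), fun a b h => by simpa using h⟩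
  have hsub : t ⊆ (Ioc N M).map f1 ∪ (Ioc N M).map f2 := by
    intro ν hν
    have h1 := ht ν hν
    have h2 : ν.natAbs ≤ M := Finset.le_sup (f := Int.natAbs) hν
    have hm : ν.natAbs ∈ Ioc N M := mem_Ioc.2 ⟨h1, h2⟩
    rw [mem_union, mem_map, mem_map]
    rcases Int.natAbs_eq ν with h | h
    · left; exact ⟨ν.natAbs, hm, h.symm⟩
    · right; exact ⟨ν.natAbs, hm, h.symm⟩
  have hnn : ∀ ν : ℤ, (0 : ℝ) ≤ 1 / |(ν : ℝ)| ^ A := fun ν => by positivity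
  calc ∑ ν ∈ t, (1 : ℝ) / |(ν : ℝ)| ^ A
      ≤ ∑ ν ∈ (Ioc N M).map f1 ∪ (Ioc N M).map f2, (1 : ℝ) / |(ν : ℝ)| ^ A :=
        sum_le_sum_of_subset_of_nonneg hsub fun ν _ _ => hnn ν
    _ ≤ ∑ ν ∈ (Ioc N M).map f1, (1 : ℝ) / |(ν : ℝ)| ^ A +
        ∑ ν ∈ (Ioc N M).map f2, (1 : ℝ) / |(ν : ℝ)| ^ A := by
        rw [← sum_union_inter]
        have : (0 : ℝ) ≤ ∑ ν ∈ (Ioc N M).map f1 ∩ (Ioc N M).map f2, (1 : ℝ) / |(ν : ℝ)| ^ A :=
          sum_nonneg fun ν _ => hnn ν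
        linarith
    _ = ∑ n ∈ Ioc N M, (1 : ℝ) / (n : ℝ) ^ A + ∑ n ∈ Ioc N M, (1 : ℝ) / (n : ℝ) ^ A := by
        rw [sum_map, sum_map]
        congr 1
        · refine sum_congr rfl fun n _ => ?_
          simp [f1]
        · refine sum_congr rfl fun n _ => ?_
          simp [f2]
    _ ≤ 2 / (N : ℝ) ^ (A - 1) := by
        have := D4_sum A hA N hN M
        have e : (2 : ℝ) / (N : ℝ) ^ (A - 1) = 1 / (N : ℝ) ^ (A - 1) + 1 / (N : ℝ) ^ (A - 1) := by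
          ring
        rw [e]
        linarith

private lemma D4_tail {f : ℤ → ℂ} {S : ℂ} (h : HasSum f S) (N : ℕ) (hN : 1 ≤ N) (A : ℕ)
    (hA : 2 ≤ A) (c : ℝ) (hc : 0 ≤ c) (hf : ∀ ν : ℤ, ν ≠ 0 → ‖f ν‖ ≤ c * (1 / |(ν : ℝ)| ^ A)) :
    ‖S - ∑ ν ∈ Icc (-(N : ℤ)) N, f ν‖ ≤ c * (2 / (N : ℝ) ^ (A - 1)) := by
  have h0 : Filter.Tendsto (fun s : Finset ℤ => ∑ ν ∈ s, f ν) Filter.atTop (nhds S) := h
  have h1 : Filter.Tendsto (fun s : Finset ℤ => ‖∑ ν ∈ s, f ν - ∑ ν ∈ Icc (-(N : ℤ)) N, f ν‖)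
      Filter.atTop (nhds ‖S - ∑ ν ∈ Icc (-(N : ℤ)) N, f ν‖) := (h0.sub_const _).norm
  refine le_of_tendsto h1 ?_
  filter_upwards [Filter.eventually_ge_atTop (Icc (-(N : ℤ)) N)] with s hs
  have hs' : Icc (-(N : ℤ)) N ⊆ s := hs
  rw [← sum_sdiff hs', add_sub_cancel_right]
  have hmem : ∀ ν ∈ s \ Icc (-(N : ℤ)) N, N < ν.natAbs := by
    intro ν hν
    rw [mem_sdiff, mem_Icc] at hν
    omega
  calc ‖∑ ν ∈ s \ Icc (-(N : ℤ)) N, f ν‖ ≤ ∑ ν ∈ s \ Icc (-(N : ℤ)) N, ‖f ν‖ := norm_sum_le _ _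
    _ ≤ ∑ ν ∈ s \ Icc (-(N : ℤ)) N, c * (1 / |(ν : ℝ)| ^ A) := by
        refine sum_le_sum fun ν hν => hf ν ?_
        have := hmem ν hν
        intro h0
        rw [h0] at this
        simp at this
    _ = c * ∑ ν ∈ s \ Icc (-(N : ℤ)) N, 1 / |(ν : ℝ)| ^ A := by rw [mul_sum]
    _ ≤ c * (2 / (N : ℝ) ^ (A - 1)) :=
        mul_le_mul_of_nonneg_left (D4_int A hA N hN _ hmem) hc

private lemma D4_norm_ee (q : ℕ) (x : ZMod q) : ‖ee q x‖ = 1 := norm_e _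

private lemma D4_norm_dual (wh : ℝ → ℝ) (K : ℝ) (hK : 0 ≤ K) (u v₁ v₂ l₁ : ℕ) (l₂ t j ν : ℤ) :
    ‖dualTerm wh K u v₁ v₂ l₁ l₂ t j ν‖ ≤
      K / u * (|bq v₁| * |bq v₂|) * |wh (K * ν / (u * v₁ * v₂ : ℕ))| := by
  unfold dualTerm
  rw [norm_mul, norm_mul, norm_mul, norm_mul, norm_e, D4_norm_ee, D4_norm_ee, mul_one, mul_one,
    mul_one, Complex.norm_real, Real.norm_eq_abs, abs_mul, abs_mul, abs_mul, abs_div,
    abs_of_nonneg hK, Nat.abs_cast]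
  have h1 : ‖(if IsCoprime ν ((v₁ * v₂ : ℕ) : ℤ) then (1 : ℂ) else 0)‖ ≤ 1 := by
    split_ifs <;> simp
  refine le_trans (mul_le_mul_of_nonneg_right h1 (by positivity)) ?_
  rw [one_mul]

/-- the truncation for one tuple -/
private lemma D4_one {w wh : ℝ → ℝ} {C : ℝ} {CA : ℕ → ℝ} (hw : Wt w wh C CA) (K : ℝ) (hK : 0 < K)
    (u v₁ v₂ l₁ : ℕ) (l₂ t j : ℤ) (hu : 0 < u) (hv₁ : Squarefree v₁) (hv₂ : Squarefree v₂)
    (hl₁ : 0 < l₁) (h1 : u.Coprime v₁) (h2 : u.Coprime v₂) (h3 : v₁.Coprime v₂)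
    (h4 : l₁.Coprime u) (h5 : l₁.Coprime v₁) (h6 : l₁.Coprime v₂)
    (h7 : IsCoprime l₂ (v₂ : ℤ)) (hl₂ : l₂ = l₁ + u * t) (N : ℕ) (hN : 1 ≤ N) (A : ℕ)
    (hA : 2 ≤ A) (U D : ℝ) (hU : 0 < U) (hUu : U ≤ u) (hD : ((u * v₁ * v₂ : ℕ) : ℝ) ≤ D) :
    ‖(∑ k ∈ Icc (-⌈2 * K⌉) ⌈2 * K⌉, ((w ((k : ℝ) / K) *
        ((if (u : ℤ) ∣ k * l₁ + j then (1 : ℝ) else 0) * bc v₁ (k * l₁ + j) *
          bc v₂ (k * l₂ + j)) : ℝ) : ℂ)) -
      ∑ ν ∈ Icc (-(N : ℤ)) N, dualTerm wh K u v₁ v₂ l₁ l₂ t j ν‖ ≤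
      (K / U * (|bq v₁| * |bq v₂|) * (CA A * (D / K) ^ A)) * (2 / (N : ℝ) ^ (A - 1)) := by
  have hCA : 0 ≤ CA A := le_trans (by positivity) (hw.decay A 1)
  have hD0 : (0 : ℝ) < ((u * v₁ * v₂ : ℕ) : ℝ) := by
    have : 0 < u * v₁ * v₂ :=
      Nat.mul_pos (Nat.mul_pos hu (Nat.pos_of_ne_zero hv₁.ne_zero)) (Nat.pos_of_ne_zero hv₂.ne_zero)
    exact_mod_cast this
  have hDp : 0 < D := lt_of_lt_of_le hD0 hD
  refine D4_tail (pois hw K hK u v₁ v₂ l₁ l₂ t j hu hv₁ hv₂ hl₁ h1 h2 h3 h4 h5 h6 h7 hl₂) N hN A hA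
    _ (by positivity) fun ν hν => ?_
  refine le_trans (D4_norm_dual wh K hK.le u v₁ v₂ l₁ l₂ t j ν) ?_
  have hν' : (0 : ℝ) < |(ν : ℝ)| := by
    rw [abs_pos]; exact_mod_cast hν
  have hx : |K * ν / (u * v₁ * v₂ : ℕ)| = K / (u * v₁ * v₂ : ℕ) * |(ν : ℝ)| := by
    rw [abs_div, abs_mul, abs_of_pos hK, abs_of_pos hD0]
    ring
  have hwh : |wh (K * ν / (u * v₁ * v₂ : ℕ))| ≤ CA A * (D / K) ^ A * (1 / |(ν : ℝ)| ^ A) := by
    have hd := hw.decay A (K * ν / (u * v₁ * v₂ : ℕ))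
    rw [hx, mul_pow] at hd
    have hp : 0 < (K / ((u * v₁ * v₂ : ℕ) : ℝ)) ^ A := by positivity
    have hq : 0 < |(ν : ℝ)| ^ A := by positivity
    have h8 : |wh (K * ν / (u * v₁ * v₂ : ℕ))| ≤
        CA A / ((K / ((u * v₁ * v₂ : ℕ) : ℝ)) ^ A * |(ν : ℝ)| ^ A) := by
      rw [le_div_iff₀ (by positivity)]
      linarith
    refine le_trans h8 ?_
    have h9 : CA A / ((K / ((u * v₁ * v₂ : ℕ) : ℝ)) ^ A * |(ν : ℝ)| ^ A) =
        CA A * (((u * v₁ * v₂ : ℕ) : ℝ) / K) ^ A * (1 / |(ν : ℝ)| ^ A) := by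
      rw [div_pow, div_pow]
      field_simp
    rw [h9]
    gcongr
  have hKu : K / u ≤ K / U := by gcongr
  calc K / u * (|bq v₁| * |bq v₂|) * |wh (K * ν / (u * v₁ * v₂ : ℕ))|
      ≤ K / U * (|bq v₁| * |bq v₂|) * (CA A * (D / K) ^ A * (1 / |(ν : ℝ)| ^ A)) := by
        gcongr
    _ = _ := by ring

namespace DD

variable {M : ℕ} {T : ℝ} (d : DD M T)

/-- the truncated dual sum -/
noncomputable def MainSum (wh : ℝ → ℝ) (β : ℕ → ℝ) : ℂ :=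
  ∑ u ∈ d.SU, ∑ x ∈ (d.SLL u).filter (fun x => x.1.Coprime u), ((β x.1 * β x.2 : ℝ) : ℂ) *
    ∑ v ∈ (d.SV ×ˢ d.SV).filter (fun v => Good v.1 v.2 x.1 x.2),
      ∑ ν ∈ Icc (-(d.N : ℤ)) d.N,
        dualTerm wh d.K u v.1 v.2 x.1 x.2 (((x.2 : ℤ) - x.1) / u) d.j ν

private lemma D4_card (S : Finset ℕ) (X : ℝ) (h : ∀ n ∈ S, 0 < n ∧ (n : ℝ) ≤ X) (hX : 0 ≤ X) :
    (S.card : ℝ) ≤ X := by
  have h1 : S ⊆ Ioc 0 ⌊X⌋₊ := by
    intro n hn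
    obtain ⟨h2, h3⟩ := h n hn
    exact mem_Ioc.2 ⟨h2, Nat.le_floor h3⟩
  have h2 := card_le_card h1
  rw [Nat.card_Ioc, Nat.sub_zero] at h2
  calc (S.card : ℝ) ≤ (⌊X⌋₊ : ℝ) := by exact_mod_cast h2
    _ ≤ X := Nat.floor_le hX

include d in
private lemma D4_T : 1 ≤ T := by linarith [d.hB.one]

private lemma D4_pos_u {u : ℕ} (hu : u ∈ d.SU) : 0 < u := by
  have h1 := (d.hSU u hu).1
  have h2 := d.hU1
  have : (0 : ℝ) < u := by linarith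
  exact_mod_cast this

private lemma D4_pos_l {l : ℕ} (hl : l ∈ d.SL) : 0 < l := by
  have h1 := (d.hSL l hl).2.1
  have h2 := d.hL1
  have : (0 : ℝ) < l := by linarith
  exact_mod_cast this

private lemma D4_SV {v : ℕ} (hv : v ∈ d.SV) :
    Squarefree v ∧ (v : ℝ) ≤ T ^ 2 * (d.W * d.Z) ∧ ∀ u ∈ d.SU, u.Coprime v := by
  obtain ⟨z, hz, w, hw, rfl⟩ := mem_mul.1 hv
  have hT := d.D4_T
  have hZ := d.hSZ z hz
  have hW := d.hSW w hw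
  have hW1 := d.hW1
  have hZ1 := d.hZ1
  refine ⟨(Nat.squarefree_mul (d.cZW z hz w hw)).2 ⟨hZ.1.squarefree, hW.1⟩, ?_, ?_⟩
  · push_cast
    calc (z : ℝ) * w ≤ (T * d.Z) * (T * d.W) := by
          gcongr
          · exact hZ.2.2.1
          · exact hW.2.2.1
      _ = T ^ 2 * (d.W * d.Z) := by ring
  · intro u hu
    exact Nat.Coprime.mul_right (d.cUZ u hu z hz) (d.cUW u hu w hw)

private lemma D4_SV_M {v : ℕ} (hv : v ∈ d.SV) : v ≤ M := by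
  have h1 := (d.D4_SV hv).2.1
  have hT := d.D4_T
  have hU1 := d.hU1
  have hW1 := d.hW1
  have hZ1 := d.hZ1
  have hL1 := d.hL1
  have hK1 := d.hK1
  have hN1 : (1 : ℝ) ≤ d.N := by exact_mod_cast d.hN1
  have h2 : d.W * d.Z ≤ d.U * d.W * d.Z * d.L * d.K * d.N := by
    have e1 : d.U * d.W * d.Z * d.L * d.K * d.N = (d.W * d.Z) * (d.U * (d.L * (d.K * d.N))) := by
      ring
    rw [e1]
    refine le_mul_of_one_le_right (by positivity) ?_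
    have a1 : 1 ≤ d.K * d.N := one_le_mul_of_one_le_of_one_le hK1 hN1
    have a2 : 1 ≤ d.L * (d.K * d.N) := one_le_mul_of_one_le_of_one_le hL1 a1
    exact one_le_mul_of_one_le_of_one_le hU1 a2
  have h3 : 1 ≤ d.W * d.Z := one_le_mul_of_one_le_of_one_le hW1 hZ1
  have h4 : d.W * d.Z ≤ (d.U * d.W * d.Z * d.L * d.K * d.N) ^ 2 := by
    have : 1 ≤ d.U * d.W * d.Z * d.L * d.K * d.N := le_trans h3 h2
    nlinarith
  have h5 : T ^ 2 ≤ T ^ 20 := pow_le_pow_right₀ hT (by norm_num)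
  have h6 : T ^ 2 * (d.W * d.Z) ≤ (M : ℝ) :=
    le_trans (mul_le_mul h5 h4 (by positivity) (by positivity)) d.hM
  exact_mod_cast le_trans h1 h6

private lemma D4_sum_bq : ∑ v ∈ d.SV, |bq v| ≤ T ^ 2 := by
  rw [sum_congr rfl fun v hv => abs_bq (d.D4_SV hv).1]
  exact sum_inv_totient_le d.hB d.SV fun v hv => ⟨(d.D4_SV hv).1, d.D4_SV_M hv⟩

private lemma D4_cardSLL {u : ℕ} (hu : u ∈ d.SU) :
    ((d.SLL u).card : ℝ) ≤ (T * d.L) * (2 * (T * d.L / d.U)) := by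
  have hT := d.D4_T
  have hL1 := d.hL1
  have hU1 := d.hU1
  have hu0 := d.D4_pos_u hu
  have huU := (d.hSU u hu).1
  have hur : (0 : ℝ) < u := by exact_mod_cast hu0
  set X : ℝ := T * d.L / d.U with hX
  have hX0 : 0 ≤ X := by positivity
  have hF0 : 0 ≤ ⌊X⌋ := Int.floor_nonneg.2 hX0
  have hmaps : ∀ x ∈ d.SLL u, (x.1, ((x.2 : ℤ) - x.1) / u) ∈
      d.SL ×ˢ ((Icc (-⌊X⌋) ⌊X⌋).erase 0) := by
    intro x hx
    rw [SLL, mem_filter, mem_product] at hx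
    obtain ⟨⟨hx1, hx2⟩, hne, hdvd⟩ := hx
    have hdvd' : (u : ℤ) ∣ (x.2 : ℤ) - x.1 := by
      rw [← neg_sub]; exact (dvd_neg).2 hdvd
    obtain ⟨t, ht⟩ := hdvd'
    have hu0' : (u : ℤ) ≠ 0 := by exact_mod_cast hu0.ne'
    have e1 : ((x.2 : ℤ) - x.1) / u = t := by
      rw [ht]; exact Int.mul_ediv_cancel_left t hu0'
    rw [e1, mem_product]
    refine ⟨hx1, ?_⟩
    rw [mem_erase, mem_Icc]
    have ht0 : t ≠ 0 := by
      rintro rfl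
      rw [mul_zero] at ht
      apply hne
      have : (x.2 : ℤ) = x.1 := by linarith
      exact_mod_cast this.symm
    have hb : |(t : ℝ)| ≤ X := by
      have h1 : (u : ℝ) * |(t : ℝ)| ≤ T * d.L := by
        have h2 : (u : ℝ) * |(t : ℝ)| = |(x.2 : ℝ) - x.1| := by
          have h3 : ((x.2 : ℝ) - x.1) = (u : ℝ) * t := by exact_mod_cast ht
          rw [h3, abs_mul, Nat.abs_cast]
        rw [h2, abs_le]
        have a1 := (d.hSL x.1 hx1).2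
        have a2 := (d.hSL x.2 hx2).2
        constructor <;> linarith [a1.1, a1.2, a2.1, a2.2]
      rw [hX, le_div_iff₀ (by linarith)]
      calc |(t : ℝ)| * d.U ≤ |(t : ℝ)| * u := by gcongr
        _ = u * |(t : ℝ)| := mul_comm _ _
        _ ≤ T * d.L := h1
    have hb' : |t| ≤ ⌊X⌋ := by
      rw [Int.le_floor]
      push_cast
      exact hb
    exact ⟨ht0, (abs_le.1 hb').1, (abs_le.1 hb').2⟩
  have hinj : Set.InjOn (fun x : ℕ × ℕ => (x.1, ((x.2 : ℤ) - x.1) / (u : ℤ)))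
      (d.SLL u : Set (ℕ × ℕ)) := by
    intro x hx y hy hxy
    rw [mem_coe, SLL, mem_filter] at hx hy
    simp only [Prod.mk.injEq] at hxy
    obtain ⟨h1, h2⟩ := hxy
    have hdx : (u : ℤ) ∣ (x.2 : ℤ) - x.1 := by
      rw [← neg_sub]; exact (dvd_neg).2 hx.2.2
    have hdy : (u : ℤ) ∣ (y.2 : ℤ) - y.1 := by
      rw [← neg_sub]; exact (dvd_neg).2 hy.2.2
    have h3 := Int.mul_ediv_cancel' hdx
    have h4 := Int.mul_ediv_cancel' hdy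
    rw [h2] at h3
    have h5 : (x.2 : ℤ) = y.2 := by
      have h1' : (x.1 : ℤ) = y.1 := by rw [h1]
      linarith
    exact Prod.ext h1 (by exact_mod_cast h5)
  have hcard := card_le_card_of_injOn _ hmaps hinj
  rw [card_product] at hcard
  have hc2 : (((Icc (-⌊X⌋) ⌊X⌋).erase 0).card : ℝ) ≤ 2 * X := by
    have hmem : (0 : ℤ) ∈ Icc (-⌊X⌋) ⌊X⌋ := mem_Icc.2 ⟨by linarith, hF0⟩
    rw [card_erase_of_mem hmem, Int.card_Icc]
    have e2 : (⌊X⌋ + 1 - -⌊X⌋).toNat - 1 = (2 * ⌊X⌋).toNat := by omega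
    rw [e2]
    have e3 : (((2 * ⌊X⌋).toNat : ℕ) : ℝ) = ((2 * ⌊X⌋ : ℤ) : ℝ) := by
      have : (((2 * ⌊X⌋).toNat : ℕ) : ℤ) = 2 * ⌊X⌋ := Int.toNat_of_nonneg (by linarith)
      exact_mod_cast congrArg (Int.cast : ℤ → ℝ) this
    rw [e3]
    push_cast
    linarith [Int.floor_le X]
  have hc1 : (d.SL.card : ℝ) ≤ T * d.L :=
    D4_card d.SL (T * d.L) (fun n hn => ⟨d.D4_pos_l hn, (d.hSL n hn).2.2⟩) (by positivity)
  calc ((d.SLL u).card : ℝ) ≤ ((d.SL.card * ((Icc (-⌊X⌋) ⌊X⌋).erase 0).card : ℕ) : ℝ) := by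
        exact_mod_cast hcard
    _ = (d.SL.card : ℝ) * (((Icc (-⌊X⌋) ⌊X⌋).erase 0).card : ℝ) := by push_cast; ring
    _ ≤ (T * d.L) * (2 * X) := by gcongr

private lemma D4_zero (w : ℝ → ℝ) {u v₁ v₂ l₁ l₂ : ℕ} (hu : u ∈ d.SU) (h : ¬ l₁.Coprime u) :
    d.kSum w u v₁ v₂ l₁ l₂ = 0 := by
  obtain ⟨p, hp, hpl, hpu⟩ := Nat.Prime.not_coprime_iff_dvd.1 h
  unfold kSum
  refine sum_eq_zero fun k _ => ?_
  rw [if_neg, zero_mul, zero_mul, mul_zero]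
  intro hdiv
  have h1 : (p : ℤ) ∣ k * l₁ + d.j := dvd_trans (by exact_mod_cast hpu) hdiv
  have h2 : (p : ℤ) ∣ k * l₁ := dvd_mul_of_dvd_right (by exact_mod_cast hpl) k
  have h3 : (p : ℤ) ∣ d.j := (dvd_add_right h2).1 h1
  have h4 : (p : ℤ) ≤ |d.j| := by
    have h5 := Int.le_of_dvd (abs_pos.2 d.hj) ((dvd_abs _ _).2 h3)
    exact h5
  have h5 : (p : ℝ) ≤ |(d.j : ℝ)| := by
    exact_mod_cast h4
  have h6 := (d.hSU u hu).2.2 p hp hpu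
  linarith [d.hjy]

theorem good {w wh : ℝ → ℝ} {C : ℝ} {CA : ℕ → ℝ} (hw : Wt w wh C CA) (β : ℕ → ℝ)
    (hβ : ∀ l, |β l| ≤ 1) (A : ℕ) (hA : 2 ≤ A) :
    |d.GoodSum w β| ≤ ‖d.MainSum wh β‖ + 4 * T ^ 7 * (d.K * d.L ^ 2 / d.U) *
      (CA A * (T ^ 5 * d.U * (d.W * d.Z) ^ 2 / d.K) ^ A / (d.N : ℝ) ^ (A - 1)) := by
  have hT := d.D4_T
  have hU1 := d.hU1
  have hW1 := d.hW1
  have hZ1 := d.hZ1
  have hL1 := d.hL1
  have hK1 := d.hK1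
  have hN1 : (1 : ℝ) ≤ d.N := by exact_mod_cast d.hN1
  have hCA : 0 ≤ CA A := le_trans (by positivity) (hw.decay A 1)
  set D : ℝ := T ^ 5 * d.U * (d.W * d.Z) ^ 2 with hD
  have hD0 : 0 < D := by positivity
  -- the bound for one tuple
  set c : ℝ := d.K / d.U * (CA A * (D / d.K) ^ A) * (2 / (d.N : ℝ) ^ (A - 1)) with hc
  have hc0 : 0 ≤ c := by positivity
  have hone : ∀ u ∈ d.SU, ∀ x ∈ (d.SLL u).filter (fun x => x.1.Coprime u),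
      ∀ v ∈ (d.SV ×ˢ d.SV).filter (fun v => Good v.1 v.2 x.1 x.2),
      ‖((d.kSum w u v.1 v.2 x.1 x.2 : ℝ) : ℂ) - ∑ ν ∈ Icc (-(d.N : ℤ)) d.N,
        dualTerm wh d.K u v.1 v.2 x.1 x.2 (((x.2 : ℤ) - x.1) / u) d.j ν‖ ≤
        c * (|bq v.1| * |bq v.2|) := by
    intro u hu x hx v hv
    rw [mem_filter, SLL, mem_filter, mem_product] at hx
    obtain ⟨⟨⟨hx1, hx2⟩, hne, hdvd⟩, hcop⟩ := hx
    rw [mem_filter, mem_product] at hv
    obtain ⟨⟨hv1, hv2⟩, hg⟩ := hv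
    obtain ⟨g1, g2, g3, g4⟩ := hg
    obtain ⟨a1, a2, a3⟩ := d.D4_SV hv1
    obtain ⟨b1, b2, b3⟩ := d.D4_SV hv2
    have hdvd' : (u : ℤ) ∣ (x.2 : ℤ) - x.1 := by
      rw [← neg_sub]; exact (dvd_neg).2 hdvd
    have hl2 : (x.2 : ℤ) = x.1 + u * (((x.2 : ℤ) - x.1) / u) := by
      rw [Int.mul_ediv_cancel' hdvd']; ring
    have hDle : ((u * v.1 * v.2 : ℕ) : ℝ) ≤ D := by
      push_cast
      have hu2 := (d.hSU u hu).2.1
      calc (u : ℝ) * v.1 * v.2 ≤ (T * d.U) * (T ^ 2 * (d.W * d.Z)) * (T ^ 2 * (d.W * d.Z)) := by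
            gcongr
        _ = D := by rw [hD]; ring
    have hmain := D4_one hw d.K (by linarith) u v.1 v.2 x.1 x.2 (((x.2 : ℤ) - x.1) / u) d.j
      (d.D4_pos_u hu) a1 b1 (d.D4_pos_l hx1) (a3 u hu) (b3 u hu) g1 hcop g2.symm g3.symm
      (Nat.isCoprime_iff_coprime.2 g4.symm) hl2 d.N d.hN1 A hA d.U D (by linarith)
      (d.hSU u hu).1 hDle
    have hcast : ((d.kSum w u v.1 v.2 x.1 x.2 : ℝ) : ℂ) =
        (∑ k ∈ Icc (-⌈2 * d.K⌉) ⌈2 * d.K⌉, ((w ((k : ℝ) / d.K) *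
        ((if (u : ℤ) ∣ k * x.1 + d.j then (1 : ℝ) else 0) * bc v.1 (k * x.1 + d.j) *
          bc v.2 (k * x.2 + d.j)) : ℝ) : ℂ)) := by
      rw [kSum, Complex.ofReal_sum]
      rfl
    rw [hcast]
    refine le_trans hmain (le_of_eq ?_)
    rw [hc]
    ring
  -- the difference
  have hdiff : ((d.GoodSum w β : ℝ) : ℂ) - d.MainSum wh β =
      ∑ u ∈ d.SU, ∑ x ∈ (d.SLL u).filter (fun x => x.1.Coprime u), ((β x.1 * β x.2 : ℝ) : ℂ) *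
        ∑ v ∈ (d.SV ×ˢ d.SV).filter (fun v => Good v.1 v.2 x.1 x.2),
          (((d.kSum w u v.1 v.2 x.1 x.2 : ℝ) : ℂ) - ∑ ν ∈ Icc (-(d.N : ℤ)) d.N,
            dualTerm wh d.K u v.1 v.2 x.1 x.2 (((x.2 : ℤ) - x.1) / u) d.j ν) := by
    rw [GoodSum, MainSum, Complex.ofReal_sum, ← sum_sub_distrib]
    refine sum_congr rfl fun u hu => ?_
    rw [Complex.ofReal_sum]
    have hz : ∑ x ∈ d.SLL u, (((β x.1 * β x.2 *
        ∑ v ∈ (d.SV ×ˢ d.SV).filter (fun v => Good v.1 v.2 x.1 x.2),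
          d.kSum w u v.1 v.2 x.1 x.2 : ℝ)) : ℂ) =
        ∑ x ∈ (d.SLL u).filter (fun x => x.1.Coprime u), (((β x.1 * β x.2 *
        ∑ v ∈ (d.SV ×ˢ d.SV).filter (fun v => Good v.1 v.2 x.1 x.2),
          d.kSum w u v.1 v.2 x.1 x.2 : ℝ)) : ℂ) := by
      rw [sum_filter]
      refine sum_congr rfl fun x _ => ?_
      split_ifs with h
      · rfl
      · have : ∑ v ∈ (d.SV ×ˢ d.SV).filter (fun v => Good v.1 v.2 x.1 x.2),
            d.kSum w u v.1 v.2 x.1 x.2 = 0 := sum_eq_zero fun v _ => d.D4_zero w hu h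
        rw [this, mul_zero, Complex.ofReal_zero]
    rw [hz, ← sum_sub_distrib]
    refine sum_congr rfl fun x _ => ?_
    rw [sum_sub_distrib, mul_sub, Complex.ofReal_mul, Complex.ofReal_sum]
  have hbound : ‖((d.GoodSum w β : ℝ) : ℂ) - d.MainSum wh β‖ ≤
      (T * d.U) * ((T * d.L) * (2 * (T * d.L / d.U))) * (c * (T ^ 2 * T ^ 2)) := by
    rw [hdiff]
    have hB : 0 ≤ c * (T ^ 2 * T ^ 2) := by positivity
    have hSV : (∑ v ∈ d.SV ×ˢ d.SV, |bq v.1| * |bq v.2|) ≤ T ^ 2 * T ^ 2 := by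
      rw [sum_product]
      simp only
      rw [← sum_mul_sum]
      have h1 := d.D4_sum_bq
      have h2 : 0 ≤ ∑ v ∈ d.SV, |bq v| := sum_nonneg fun v _ => abs_nonneg _
      exact mul_le_mul h1 h1 h2 (by positivity)
    calc _ ≤ ∑ u ∈ d.SU, ∑ x ∈ (d.SLL u).filter (fun x => x.1.Coprime u),
          c * (T ^ 2 * T ^ 2) := by
          refine le_trans (norm_sum_le _ _) (sum_le_sum fun u hu => ?_)
          refine le_trans (norm_sum_le _ _) (sum_le_sum fun x hx => ?_)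
          rw [norm_mul]
          have hb1 : ‖((β x.1 * β x.2 : ℝ) : ℂ)‖ ≤ 1 := by
            rw [Complex.norm_real, Real.norm_eq_abs, abs_mul]
            exact mul_le_one₀ (hβ _) (abs_nonneg _) (hβ _)
          refine le_trans (mul_le_mul_of_nonneg_right hb1 (norm_nonneg _)) ?_
          rw [one_mul]
          refine le_trans (norm_sum_le _ _) ?_
          refine le_trans (sum_le_sum fun v hv => hone u hu x hx v hv) ?_
          rw [← mul_sum]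
          refine mul_le_mul_of_nonneg_left ?_ hc0
          refine le_trans (sum_le_sum_of_subset_of_nonneg (filter_subset _ _) fun v _ _ => ?_) hSV
          positivity
      _ ≤ ∑ u ∈ d.SU, ((T * d.L) * (2 * (T * d.L / d.U))) * (c * (T ^ 2 * T ^ 2)) := by
          refine sum_le_sum fun u hu => ?_
          rw [sum_const, nsmul_eq_mul]
          refine mul_le_mul_of_nonneg_right ?_ hB
          refine le_trans ?_ (d.D4_cardSLL hu)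
          exact_mod_cast card_le_card (filter_subset _ _)
      _ = (d.SU.card : ℝ) * (((T * d.L) * (2 * (T * d.L / d.U))) * (c * (T ^ 2 * T ^ 2))) := by
          rw [sum_const, nsmul_eq_mul]
      _ ≤ (T * d.U) * (((T * d.L) * (2 * (T * d.L / d.U))) * (c * (T ^ 2 * T ^ 2))) := by
          refine mul_le_mul_of_nonneg_right ?_ (by positivity)
          exact D4_card d.SU (T * d.U) (fun n hn => ⟨d.D4_pos_u hn, (d.hSU n hn).2.1⟩)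
            (by positivity)
      _ = _ := by ring
  have habs : |d.GoodSum w β| = ‖((d.GoodSum w β : ℝ) : ℂ)‖ := by
    rw [Complex.norm_real, Real.norm_eq_abs]
  have htri : ‖((d.GoodSum w β : ℝ) : ℂ)‖ ≤ ‖d.MainSum wh β‖ +
      ‖((d.GoodSum w β : ℝ) : ℂ) - d.MainSum wh β‖ := by
    have := norm_add_le (d.MainSum wh β) (((d.GoodSum w β : ℝ) : ℂ) - d.MainSum wh β)
    rwa [add_sub_cancel] at this
  have hfin : (T * d.U) * ((T * d.L) * (2 * (T * d.L / d.U))) * (c * (T ^ 2 * T ^ 2)) =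
      4 * T ^ 7 * (d.K * d.L ^ 2 / d.U) * (CA A * (D / d.K) ^ A / (d.N : ℝ) ^ (A - 1)) := by
    rw [hc]
    have hU0 : d.U ≠ 0 := by linarith
    field_simp
    ring
  rw [habs]
  rw [hfin] at hbound
  linarith

end DD

end Pool.Agent.Lib.MP_2a816b_nt.BH
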