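import Pool.Agent.Lib.MP_2a816b_nt.BH.D4

/-!
# JOB D5: the inner sums of the second Cauchy-Schwarz inequality

`Inn t w u l` is the inner sum. Reduction (`main_le`): in `MainSum` write `v₁ = v ∈ SV`, `v₂ = z w` with `z ∈ SZ`, `w ∈ SW` (`sum_mul_set`), `bq (z w) = bq z bq w`,
`l₁ = l`, `l₂ = l + u t`, `0 < |t| ≤ T L / U` (`|l₂ - l₁| ≤ T L`, `u ≥ U`), `t = (l₂ - l₁) / u` exactly. The conditions `Good v₁ v₂ l₁ l₂` become: `(v, z w) = 1`,
`(v, l) = 1`, `(z w, l) = 1`, `(z w, l + u t) = 1`; those on `w` alone (`(w, l) = 1`, `(w, l + u t) = 1`) go to the outer sum, the others are in `Inn` (with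
`IsCoprime ν (v z w)` from `dualTerm`). Move `K / u · |bq w| ≤ (K / U) (T / W)` out (`|bq w| = 1 / φ(w) ≤ T / w`, `div_totient_le`) and use the triangle inequality:
`‖MainSum‖ ≤ (K T / (U W)) ∑_{t, w, l} ∑_u ‖Inn‖`, where the sums may be extended (terms `≥ 0`) to all `w ∈ SW`, `l ∈ SL` with `(w, l) = 1`, all integers
`u ∈ (⌈U⌉ - 1, ⌊T U⌋]` with `(u, l) = 1`, `(w, l + u t) = 1`, and all `t` with `0 < |t| ≤ T L / U`.
Then Cauchy-Schwarz: the number of `(t, w, l, u)` is at most `(2 T L / U) (T W) (T L) (T U) = 2 T ^ 4 L ^ 2 W`. So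
`‖MainSum‖ ^ 2 ≤ (K T / (U W)) ^ 2 · 2 T ^ 4 L ^ 2 W · R`.
-/

set_option autoImplicit false

open Finset Real
open scoped Pointwise

namespace Pool.Agent.Lib.MP_2a816b_nt.BH

namespace DD

variable {M : ℕ} {T : ℝ} (d : DD M T)

/-- the phase of the second Cauchy-Schwarz inequality -/
noncomputable def ph (wh : ℝ → ℝ) (t : ℤ) (w l : ℕ) (z v : ℕ) (ν : ℤ) (u : ℕ) : ℂ :=
  (wh (d.K * ν / (u * v * (z * w) : ℕ)) : ℂ) *
    (e ((ν * d.j : ℤ) / (l * u * v * (z * w) : ℕ)) *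
      ee l (-((ν * d.j : ℤ) : ZMod l) * ((u * v * (z * w) : ℕ) : ZMod l)⁻¹) *
      ee (z * w) (-((ν * d.j * t : ℤ) : ZMod (z * w)) *
        (((v : ℤ) * (l : ℤ) * ((l : ℤ) + u * t) : ℤ) : ZMod (z * w))⁻¹))

/-- the conditions that do not involve `u` -/
def cond (w l : ℕ) (z v : ℕ) (ν : ℤ) : Prop :=
  v.Coprime (z * w) ∧ v.Coprime l ∧ z.Coprime l ∧ IsCoprime ν ((v * (z * w) : ℕ) : ℤ)

open Classical in
/-- the index set of the inner sums -/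
noncomputable def SI (w l : ℕ) : Finset (ℕ × ℕ × ℤ) :=
  (d.SZ ×ˢ d.SV ×ˢ Icc (-(d.N : ℤ)) d.N).filter (fun i => cond w l i.1 i.2.1 i.2.2)

open Classical in
/-- the inner sum; the index is `i = (z, v, ν)` -/
noncomputable def Inn (wh : ℝ → ℝ) (t : ℤ) (w l u : ℕ) : ℂ :=
  ∑ i ∈ d.SI w l, (if IsCoprime ((l : ℤ) + u * t) (i.1 : ℤ) then (1 : ℂ) else 0) *
    ((bq i.1 * bq i.2.1 : ℝ) : ℂ) * d.ph wh t w l i.1 i.2.1 i.2.2 u

/-- the range of `t` -/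
noncomputable def ST : Finset ℤ := (Icc (-⌊T * d.L / d.U⌋) ⌊T * d.L / d.U⌋).erase 0

open Classical in
/-- the range of `u` -/
noncomputable def SUU (t : ℤ) (w l : ℕ) : Finset ℕ :=
  (Ioc (⌈d.U⌉₊ - 1) ⌊T * d.U⌋₊).filter
    (fun u => u.Coprime l ∧ IsCoprime ((l : ℤ) + u * t) (w : ℤ))

/-- the sum after the second Cauchy-Schwarz inequality -/
noncomputable def R (wh : ℝ → ℝ) : ℝ :=
  ∑ t ∈ d.ST, ∑ w ∈ d.SW, ∑ l ∈ d.SL.filter (fun l => w.Coprime l), ∑ u ∈ d.SUU t w l,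
    ‖d.Inn wh t w l u‖ ^ 2

private lemma D5_card (S : Finset ℕ) (X : ℝ) (h : ∀ n ∈ S, 0 < n ∧ (n : ℝ) ≤ X) (hX : 0 ≤ X) :
    (S.card : ℝ) ≤ X := by
  have h1 : S ⊆ Ioc 0 ⌊X⌋₊ := by
    intro n hn
    obtain ⟨h2, h3⟩ := h n hn
    exact mem_Ioc.2 ⟨h2, Nat.le_floor h3⟩
  have h2 := card_le_card h1
  rw [Nat.card_Ioc, Nat.sub_zero] at h2
  calc (S.card : ℝ) ≤ (⌊X⌋₊ : ℝ) := by exact_mod_cast h2
    _ ≤ X := Nat.floor_le hX

include d in
private lemma D5_T : 100 ≤ T := d.hB.one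

private lemma D5_pos_l {l : ℕ} (hl : l ∈ d.SL) : 0 < l := by
  have h1 := (d.hSL l hl).2.1
  have h2 := d.hL1
  have : (0 : ℝ) < l := by linarith
  exact_mod_cast this

private lemma D5_pos_w {w : ℕ} (hw : w ∈ d.SW) : 0 < w :=
  Nat.pos_of_ne_zero (d.hSW w hw).1.ne_zero

private lemma D5_wM {w : ℕ} (hw : w ∈ d.SW) : w ≤ M := by
  have hT := d.D5_T
  have hW := d.hSW w hw
  have hU1 := d.hU1
  have hW1 := d.hW1
  have hZ1 := d.hZ1
  have hL1 := d.hL1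
  have hK1 := d.hK1
  have hN1 : (1 : ℝ) ≤ d.N := by exact_mod_cast d.hN1
  have h2 : d.W ≤ d.U * d.W * d.Z * d.L * d.K * d.N := by
    have e1 : d.U * d.W * d.Z * d.L * d.K * d.N = d.W * (d.Z * (d.U * (d.L * (d.K * d.N)))) := by
      ring
    rw [e1]
    refine le_mul_of_one_le_right (by positivity) ?_
    have a1 : 1 ≤ d.K * d.N := one_le_mul_of_one_le_of_one_le hK1 hN1
    have a2 : 1 ≤ d.L * (d.K * d.N) := one_le_mul_of_one_le_of_one_le hL1 a1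
    exact one_le_mul_of_one_le_of_one_le hZ1 (one_le_mul_of_one_le_of_one_le hU1 a2)
  have h4 : d.W ≤ (d.U * d.W * d.Z * d.L * d.K * d.N) ^ 2 := by
    have : 1 ≤ d.U * d.W * d.Z * d.L * d.K * d.N := le_trans hW1 h2
    nlinarith
  have h5 : T ≤ T ^ 20 := le_self_pow₀ (by linarith) (by norm_num)
  have h6 : T * d.W ≤ (M : ℝ) :=
    le_trans (mul_le_mul h5 h4 (by positivity) (by positivity)) d.hM
  exact_mod_cast le_trans hW.2.2.1 h6

private lemma D5_bq {w : ℕ} (hw : w ∈ d.SW) : |bq w| ≤ T / d.W := by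
  have hT := d.D5_T
  have hW := d.hSW w hw
  have hW1 := d.hW1
  have hw0 : (0 : ℝ) < w := by exact_mod_cast d.D5_pos_w hw
  have h1 := div_totient_le d.hB hW.1 (d.D5_wM hw)
  have hphi : (0 : ℝ) < w.totient := by exact_mod_cast Nat.totient_pos.2 (d.D5_pos_w hw)
  rw [abs_bq hW.1]
  have h2 : 1 / (w.totient : ℝ) = ((w : ℝ) / w.totient) * (1 / w) := by field_simp
  rw [h2]
  calc ((w : ℝ) / w.totient) * (1 / w) ≤ T * (1 / d.W) := by
        gcongr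
        exact hW.2.1
    _ = T / d.W := by ring

open Classical in
/-- all conditions on `(t, w, l, u)` -/
private def D5_c (t : ℤ) (w l u : ℕ) : Prop :=
  w.Coprime l ∧ u.Coprime l ∧ IsCoprime ((l : ℤ) + u * t) (w : ℤ)

open Classical in
private lemma D5_E (wh : ℝ → ℝ) (u l l₂ : ℕ) (t : ℤ) (hl₂ : (l₂ : ℤ) = l + u * t) :
    ∑ v ∈ (d.SV ×ˢ d.SV).filter (fun v => Good v.1 v.2 l l₂),
      ∑ ν ∈ Icc (-(d.N : ℤ)) d.N, dualTerm wh d.K u v.1 v.2 l l₂ t d.j ν =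
    ∑ w ∈ d.SW, (if w.Coprime l ∧ IsCoprime ((l : ℤ) + u * t) (w : ℤ) then
      ((d.K / u * bq w : ℝ) : ℂ) * d.Inn wh t w l u else 0) := by
  rw [sum_filter, sum_product]
  have hSV : ∀ f : ℕ → ℂ, ∑ v ∈ d.SV, f v = ∑ z ∈ d.SZ, ∑ w ∈ d.SW, f (z * w) :=
    fun f => sum_mul_set d.cZW f
  have e1 : ∀ v : ℕ, ∑ v₂ ∈ d.SV, (if Good v v₂ l l₂ then
      ∑ ν ∈ Icc (-(d.N : ℤ)) d.N, dualTerm wh d.K u v v₂ l l₂ t d.j ν else 0) =
      ∑ w ∈ d.SW, ∑ z ∈ d.SZ, (if Good v (z * w) l l₂ then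
      ∑ ν ∈ Icc (-(d.N : ℤ)) d.N, dualTerm wh d.K u v (z * w) l l₂ t d.j ν else 0) := by
    intro v
    rw [hSV, sum_comm]
  rw [sum_congr rfl fun v _ => e1 v, sum_comm]
  apply sum_congr rfl
  intro w hw
  rw [sum_comm]
  have e2 : d.Inn wh t w l u = ∑ z ∈ d.SZ, ∑ v ∈ d.SV, ∑ ν ∈ Icc (-(d.N : ℤ)) d.N,
      (if cond w l z v ν then (if IsCoprime ((l : ℤ) + u * t) (z : ℤ) then (1 : ℂ) else 0) *
        ((bq z * bq v : ℝ) : ℂ) * d.ph wh t w l z v ν u else 0) := by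
    unfold Inn SI
    rw [sum_filter, sum_product]
    apply sum_congr rfl
    intro z _
    rw [sum_product]
  rw [e2]
  by_cases hA : w.Coprime l ∧ IsCoprime ((l : ℤ) + u * t) (w : ℤ)
  swap
  · rw [if_neg hA]
    apply sum_eq_zero
    intro z _
    apply sum_eq_zero
    intro v _
    rw [if_neg]
    rintro ⟨_, _, h3, h4⟩
    apply hA
    refine ⟨Nat.Coprime.coprime_mul_left h3, ?_⟩
    rw [← hl₂, Nat.isCoprime_iff_coprime]
    exact (Nat.Coprime.coprime_mul_left h4).symm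
  rw [if_pos hA, mul_sum]
  apply sum_congr rfl
  intro z hz
  rw [mul_sum]
  apply sum_congr rfl
  intro v _
  rw [mul_sum]
  have hwl := hA.1
  have hwl₂ : w.Coprime l₂ := by
    have := hA.2
    rw [← hl₂, Nat.isCoprime_iff_coprime] at this
    exact this.symm
  have hzw : z.Coprime w := d.cZW z hz w hw
  have hzl₂ : IsCoprime ((l : ℤ) + u * t) (z : ℤ) ↔ z.Coprime l₂ := by
    rw [← hl₂, Nat.isCoprime_iff_coprime]
    exact Nat.coprime_comm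
  by_cases hG : Good v (z * w) l l₂
  · rw [if_pos hG]
    obtain ⟨h1, h2, h3, h4⟩ := hG
    have hzl : z.Coprime l := Nat.Coprime.coprime_mul_right h3
    have hz2 : z.Coprime l₂ := Nat.Coprime.coprime_mul_right h4
    apply sum_congr rfl
    intro ν _
    rw [if_pos (hzl₂.2 hz2)]
    unfold dualTerm ph
    rw [bq_mul hzw, hl₂]
    by_cases hν : IsCoprime ν ((v * (z * w) : ℕ) : ℤ)
    · rw [if_pos hν, if_pos (show cond w l z v ν from ⟨h1, h2, hzl, hν⟩)]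
      push_cast
      ring
    · rw [if_neg hν, if_neg (fun h : cond w l z v ν => hν h.2.2.2)]
      ring
  · rw [if_neg hG]
    symm
    apply sum_eq_zero
    intro ν _
    by_cases hc : cond w l z v ν
    · rw [if_pos hc]
      obtain ⟨h1, h2, h3, h4⟩ := hc
      have hz2 : ¬ z.Coprime l₂ := by
        intro h5
        exact hG ⟨h1, h2, Nat.Coprime.mul_left h3 hwl, Nat.Coprime.mul_left h5 hwl₂⟩
      rw [if_neg (fun h => hz2 (hzl₂.1 h))]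
      ring
    · rw [if_neg hc, mul_zero]

open Classical in
/-- the summand -/
private noncomputable def D5_g (wh : ℝ → ℝ) (t : ℤ) (w l u : ℕ) : ℝ :=
  if D5_c t w l u then ‖d.Inn wh t w l u‖ else 0

private lemma D5_g_nonneg (wh : ℝ → ℝ) (t : ℤ) (w l u : ℕ) : 0 ≤ d.D5_g wh t w l u := by
  unfold D5_g
  split_ifs
  · exact norm_nonneg _
  · exact le_rfl

private lemma D5_one (wh : ℝ → ℝ) (β : ℕ → ℝ) (hβ : ∀ l, |β l| ≤ 1) {u : ℕ} (hu : u ∈ d.SU)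
    {x : ℕ × ℕ} (hx : x ∈ (d.SLL u).filter (fun x => x.1.Coprime u)) :
    ‖((β x.1 * β x.2 : ℝ) : ℂ) *
      ∑ v ∈ (d.SV ×ˢ d.SV).filter (fun v => Good v.1 v.2 x.1 x.2),
        ∑ ν ∈ Icc (-(d.N : ℤ)) d.N,
          dualTerm wh d.K u v.1 v.2 x.1 x.2 (((x.2 : ℤ) - x.1) / u) d.j ν‖ ≤
      d.K * T / (d.U * d.W) * ∑ w ∈ d.SW, d.D5_g wh (((x.2 : ℤ) - x.1) / u) w x.1 u := by
  classical
  have hT := d.D5_T
  have hU1 := d.hU1
  have hW1 := d.hW1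
  have hK1 := d.hK1
  rw [mem_filter, SLL, mem_filter, mem_product] at hx
  obtain ⟨⟨⟨hx1, hx2⟩, hne, hdvd⟩, hcop⟩ := hx
  have huU := (d.hSU u hu).1
  have hu0 : (0 : ℝ) < u := by linarith
  have hdvd' : (u : ℤ) ∣ (x.2 : ℤ) - x.1 := by
    rw [← neg_sub]; exact (dvd_neg).2 hdvd
  set t : ℤ := ((x.2 : ℤ) - x.1) / u with ht
  have ht2 : (x.2 : ℤ) = x.1 + u * t := by
    rw [ht, Int.mul_ediv_cancel' hdvd']
    ring
  rw [norm_mul, Complex.norm_real, Real.norm_eq_abs]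
  have hb : |β x.1 * β x.2| ≤ 1 := by
    rw [abs_mul]
    exact mul_le_one₀ (hβ _) (abs_nonneg _) (hβ _)
  have h1 : ‖∑ v ∈ (d.SV ×ˢ d.SV).filter (fun v => Good v.1 v.2 x.1 x.2),
        ∑ ν ∈ Icc (-(d.N : ℤ)) d.N, dualTerm wh d.K u v.1 v.2 x.1 x.2 t d.j ν‖ ≤
      d.K * T / (d.U * d.W) * ∑ w ∈ d.SW, d.D5_g wh t w x.1 u := by
    rw [d.D5_E wh u x.1 x.2 t ht2, mul_sum]
    refine (norm_sum_le _ _).trans (sum_le_sum fun w hw => ?_)
    unfold D5_g D5_c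
    by_cases hA : w.Coprime x.1 ∧ IsCoprime ((x.1 : ℤ) + u * t) (w : ℤ)
    · rw [if_pos hA, if_pos ⟨hA.1, hcop.symm, hA.2⟩, norm_mul, Complex.norm_real,
        Real.norm_eq_abs, abs_mul, abs_of_nonneg (by positivity : 0 ≤ d.K / (u : ℝ))]
      have h2 := d.D5_bq hw
      calc d.K / u * |bq w| * ‖d.Inn wh t w x.1 u‖
          ≤ d.K / d.U * (T / d.W) * ‖d.Inn wh t w x.1 u‖ := by gcongr
        _ = d.K * T / (d.U * d.W) * ‖d.Inn wh t w x.1 u‖ := by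
            congr 1
            field_simp
    · rw [if_neg hA, norm_zero]
      split_ifs
      · positivity
      · simp
  have h3 := mul_le_mul_of_nonneg_right hb (norm_nonneg (∑ v ∈ (d.SV ×ˢ d.SV).filter
    (fun v => Good v.1 v.2 x.1 x.2),
        ∑ ν ∈ Icc (-(d.N : ℤ)) d.N, dualTerm wh d.K u v.1 v.2 x.1 x.2 t d.j ν))
  rw [one_mul] at h3
  exact h3.trans h1

private lemma D5_u (wh : ℝ → ℝ) {u : ℕ} (hu : u ∈ d.SU) :
    ∑ x ∈ (d.SLL u).filter (fun x => x.1.Coprime u),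
      ∑ w ∈ d.SW, d.D5_g wh (((x.2 : ℤ) - x.1) / u) w x.1 u ≤
    ∑ t ∈ d.ST, ∑ l ∈ d.SL, ∑ w ∈ d.SW, d.D5_g wh t w l u := by
  classical
  have hT := d.D5_T
  have hU1 := d.hU1
  have hL1 := d.hL1
  have huU := (d.hSU u hu).1
  have hu0 : (0 : ℝ) < u := by linarith
  have hu0' : (u : ℤ) ≠ 0 := by
    intro h0
    have : (u : ℝ) = 0 := by exact_mod_cast h0
    linarith
  have hx : ∀ x ∈ (d.SLL u).filter (fun x => x.1.Coprime u), x.1 ∈ d.SL ∧ x.2 ∈ d.SL ∧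
      x.1 ≠ x.2 ∧ (u : ℤ) * (((x.2 : ℤ) - x.1) / u) = (x.2 : ℤ) - x.1 := by
    intro x hx
    rw [mem_filter, SLL, mem_filter, mem_product] at hx
    obtain ⟨⟨⟨hx1, hx2⟩, hne, hdvd⟩, _⟩ := hx
    have hdvd' : (u : ℤ) ∣ (x.2 : ℤ) - x.1 := by
      rw [← neg_sub]; exact (dvd_neg).2 hdvd
    exact ⟨hx1, hx2, hne, Int.mul_ediv_cancel' hdvd'⟩
  have hinj : Set.InjOn (fun x : ℕ × ℕ => (((x.2 : ℤ) - x.1) / (u : ℤ), x.1))
      (((d.SLL u).filter (fun x => x.1.Coprime u) : Finset (ℕ × ℕ)) : Set (ℕ × ℕ)) := by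
    intro x hx' y hy' hxy
    obtain ⟨_, _, _, h3⟩ := hx x (mem_coe.1 hx')
    obtain ⟨_, _, _, h4⟩ := hx y (mem_coe.1 hy')
    simp only [Prod.mk.injEq] at hxy
    obtain ⟨h1, h2⟩ := hxy
    rw [h1] at h3
    have h5 : (x.2 : ℤ) = y.2 := by
      have h1' : (x.1 : ℤ) = y.1 := by rw [h2]
      linarith
    exact Prod.ext h2 (by exact_mod_cast h5)
  have e1 : ∑ x ∈ (d.SLL u).filter (fun x => x.1.Coprime u),
      ∑ w ∈ d.SW, d.D5_g wh (((x.2 : ℤ) - x.1) / u) w x.1 u =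
      ∑ y ∈ ((d.SLL u).filter (fun x => x.1.Coprime u)).image
        (fun x : ℕ × ℕ => (((x.2 : ℤ) - x.1) / (u : ℤ), x.1)),
        ∑ w ∈ d.SW, d.D5_g wh y.1 w y.2 u := by
    rw [sum_image hinj]
  rw [e1, ← sum_product (s := d.ST) (t := d.SL)
    (f := fun y => ∑ w ∈ d.SW, d.D5_g wh y.1 w y.2 u)]
  apply sum_le_sum_of_subset_of_nonneg
  · intro y hy
    obtain ⟨x, hx', rfl⟩ := mem_image.1 hy
    obtain ⟨hx1, hx2, hne, h3⟩ := hx x hx'
    rw [mem_product]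
    refine ⟨?_, hx1⟩
    change ((x.2 : ℤ) - x.1) / (u : ℤ) ∈ d.ST
    set t : ℤ := ((x.2 : ℤ) - x.1) / (u : ℤ)
    rw [ST, mem_erase, mem_Icc]
    have ht0 : t ≠ 0 := by
      intro h0
      rw [h0, mul_zero] at h3
      apply hne
      have : (x.2 : ℤ) = x.1 := by linarith
      exact_mod_cast this.symm
    have hb : |(t : ℝ)| ≤ T * d.L / d.U := by
      have h1 : (u : ℝ) * |(t : ℝ)| ≤ T * d.L := by
        have h2 : (u : ℝ) * |(t : ℝ)| = |(x.2 : ℝ) - x.1| := by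
          have h4 : (u : ℝ) * t = ((x.2 : ℝ) - x.1) := by exact_mod_cast h3
          rw [← h4, abs_mul, Nat.abs_cast]
        rw [h2, abs_le]
        have a1 := (d.hSL x.1 hx1).2
        have a2 := (d.hSL x.2 hx2).2
        constructor <;> linarith [a1.1, a1.2, a2.1, a2.2]
      rw [le_div_iff₀ (by linarith)]
      calc |(t : ℝ)| * d.U ≤ |(t : ℝ)| * u := by gcongr
        _ = u * |(t : ℝ)| := mul_comm _ _
        _ ≤ T * d.L := h1
    have hb' : |t| ≤ ⌊T * d.L / d.U⌋ := by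
      rw [Int.le_floor]
      push_cast
      exact hb
    exact ⟨ht0, (abs_le.1 hb').1, (abs_le.1 hb').2⟩
  · intro y _ _
    exact sum_nonneg fun w _ => d.D5_g_nonneg wh _ _ _ _

/-- the full range of `u` -/
private noncomputable def D5_UU : Finset ℕ := Ioc (⌈d.U⌉₊ - 1) ⌊T * d.U⌋₊

private lemma D5_sub : d.SU ⊆ d.D5_UU := by
  intro u hu
  have hU1 := d.hU1
  have h1 := d.hSU u hu
  rw [D5_UU, mem_Ioc]
  have h2 : ⌈d.U⌉₊ ≤ u := Nat.ceil_le.2 h1.1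
  have h3 : 0 < ⌈d.U⌉₊ := Nat.ceil_pos.2 (by linarith)
  exact ⟨by omega, Nat.le_floor h1.2.1⟩

private lemma D5_R (wh : ℝ → ℝ) : d.R wh =
    ∑ p ∈ d.ST ×ˢ d.SW ×ˢ d.SL ×ˢ d.D5_UU, d.D5_g wh p.1 p.2.1 p.2.2.1 p.2.2.2 ^ 2 := by
  classical
  unfold R
  rw [sum_product]
  apply sum_congr rfl
  intro t _
  rw [sum_product]
  apply sum_congr rfl
  intro w _
  rw [sum_product, sum_filter]
  apply sum_congr rfl
  intro l _
  unfold SUU D5_UU D5_g D5_c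
  by_cases h : w.Coprime l
  · rw [if_pos h, sum_filter]
    apply sum_congr rfl
    intro u _
    by_cases h2 : u.Coprime l ∧ IsCoprime ((l : ℤ) + u * t) (w : ℤ)
    · rw [if_pos h2, if_pos ⟨h, h2⟩]
    · rw [if_neg h2, if_neg (fun h3 => h2 h3.2)]
      simp
  · rw [if_neg h]
    symm
    apply sum_eq_zero
    intro u _
    rw [if_neg (fun h3 => h h3.1)]
    simp

theorem main_le {w wh : ℝ → ℝ} {C : ℝ} {CA : ℕ → ℝ} (hw : Wt w wh C CA) (β : ℕ → ℝ)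
    (hβ : ∀ l, |β l| ≤ 1) :
    ‖d.MainSum wh β‖ ^ 2 ≤ (d.K * T / (d.U * d.W)) ^ 2 * (2 * T ^ 4 * d.L ^ 2 * d.W) * d.R wh := by
  have hT := d.D5_T
  have hU1 := d.hU1
  have hW1 := d.hW1
  have hK1 := d.hK1
  have hL1 := d.hL1
  set κ : ℝ := d.K * T / (d.U * d.W) with hκ
  have hκ0 : 0 ≤ κ := by positivity
  set P : Finset (ℤ × ℕ × ℕ × ℕ) := d.ST ×ˢ d.SW ×ˢ d.SL ×ˢ d.D5_UU with hP
  set S : ℝ := ∑ p ∈ P, d.D5_g wh p.1 p.2.1 p.2.2.1 p.2.2.2 with hS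
  have hS0 : 0 ≤ S := sum_nonneg fun p _ => d.D5_g_nonneg wh _ _ _ _
  have h1 : ‖d.MainSum wh β‖ ≤ κ * S := by
    unfold MainSum
    calc _ ≤ ∑ u ∈ d.SU, ∑ x ∈ (d.SLL u).filter (fun x => x.1.Coprime u),
          κ * ∑ w ∈ d.SW, d.D5_g wh (((x.2 : ℤ) - x.1) / u) w x.1 u := by
          refine (norm_sum_le _ _).trans (sum_le_sum fun u hu => ?_)
          refine (norm_sum_le _ _).trans (sum_le_sum fun x hx => ?_)
          exact d.D5_one wh β hβ hu hx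
      _ ≤ ∑ u ∈ d.SU, κ * ∑ t ∈ d.ST, ∑ l ∈ d.SL, ∑ w ∈ d.SW, d.D5_g wh t w l u := by
          refine sum_le_sum fun u hu => ?_
          rw [← mul_sum]
          exact mul_le_mul_of_nonneg_left (d.D5_u wh hu) hκ0
      _ ≤ ∑ u ∈ d.D5_UU, κ * ∑ t ∈ d.ST, ∑ l ∈ d.SL, ∑ w ∈ d.SW, d.D5_g wh t w l u := by
          apply sum_le_sum_of_subset_of_nonneg d.D5_sub
          intro u _ _
          exact mul_nonneg hκ0 (sum_nonneg fun t _ => sum_nonneg fun l _ =>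
            sum_nonneg fun w _ => d.D5_g_nonneg wh _ _ _ _)
      _ = κ * S := by
          rw [← mul_sum]
          congr 1
          rw [hS, hP, sum_product, sum_comm]
          apply sum_congr rfl
          intro t _
          rw [sum_product]
          have e1 : ∑ u ∈ d.D5_UU, ∑ l ∈ d.SL, ∑ w ∈ d.SW, d.D5_g wh t w l u =
              ∑ u ∈ d.D5_UU, ∑ w ∈ d.SW, ∑ l ∈ d.SL, d.D5_g wh t w l u :=
            sum_congr rfl fun u _ => sum_comm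
          rw [e1, sum_comm]
          apply sum_congr rfl
          intro w _
          rw [sum_product, sum_comm]
  have h2 : S ^ 2 ≤ (P.card : ℝ) * d.R wh := by
    rw [d.D5_R wh]
    exact sq_sum_le_card_mul_sum_sq
  have hcST : (d.ST.card : ℝ) ≤ 2 * (T * d.L / d.U) := by
    set X : ℝ := T * d.L / d.U with hX
    have hX0 : 0 ≤ X := by positivity
    have hF0 : 0 ≤ ⌊X⌋ := Int.floor_nonneg.2 hX0
    have hmem : (0 : ℤ) ∈ Icc (-⌊X⌋) ⌊X⌋ := mem_Icc.2 ⟨by linarith, hF0⟩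
    rw [ST, card_erase_of_mem hmem, Int.card_Icc]
    have e2 : (⌊X⌋ + 1 - -⌊X⌋).toNat - 1 = (2 * ⌊X⌋).toNat := by omega
    rw [e2]
    have e3 : (((2 * ⌊X⌋).toNat : ℕ) : ℝ) = ((2 * ⌊X⌋ : ℤ) : ℝ) := by
      have : (((2 * ⌊X⌋).toNat : ℕ) : ℤ) = 2 * ⌊X⌋ := Int.toNat_of_nonneg (by linarith)
      exact_mod_cast congrArg (Int.cast : ℤ → ℝ) this
    rw [e3]
    push_cast
    linarith [Int.floor_le X]
  have hcW : (d.SW.card : ℝ) ≤ T * d.W :=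
    D5_card d.SW (T * d.W) (fun n hn => ⟨d.D5_pos_w hn, (d.hSW n hn).2.2.1⟩) (by positivity)
  have hcL : (d.SL.card : ℝ) ≤ T * d.L :=
    D5_card d.SL (T * d.L) (fun n hn => ⟨d.D5_pos_l hn, (d.hSL n hn).2.2⟩) (by positivity)
  have hcU : (d.D5_UU.card : ℝ) ≤ T * d.U := by
    refine D5_card d.D5_UU (T * d.U) (fun n hn => ?_) (by positivity)
    rw [D5_UU, mem_Ioc] at hn
    exact ⟨by omega, (Nat.le_floor_iff (by positivity)).1 hn.2⟩
  have hcP : (P.card : ℝ) ≤ 2 * T ^ 4 * d.L ^ 2 * d.W := by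
    rw [hP, card_product, card_product, card_product]
    push_cast
    calc (d.ST.card : ℝ) * (d.SW.card * (d.SL.card * d.D5_UU.card))
        ≤ (2 * (T * d.L / d.U)) * ((T * d.W) * ((T * d.L) * (T * d.U))) := by gcongr
      _ = 2 * T ^ 4 * d.L ^ 2 * d.W := by
          field_simp
  have hR0 : 0 ≤ d.R wh := by
    rw [d.D5_R wh]
    exact sum_nonneg fun p _ => sq_nonneg _
  calc ‖d.MainSum wh β‖ ^ 2 ≤ (κ * S) ^ 2 := by gcongr
    _ = κ ^ 2 * S ^ 2 := by ring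
    _ ≤ κ ^ 2 * ((P.card : ℝ) * d.R wh) := by gcongr
    _ ≤ κ ^ 2 * ((2 * T ^ 4 * d.L ^ 2 * d.W) * d.R wh) := by gcongr
    _ = κ ^ 2 * (2 * T ^ 4 * d.L ^ 2 * d.W) * d.R wh := by ring

end DD

end Pool.Agent.Lib.MP_2a816b_nt.BH
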