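import Pool.Agent.Lib.MP_2a816b_nt.BH.CompC

/-!
# JOB Incomp: incomplete sums by completion, and with weights by partial summation

`incomp`: `F` periodic modulo `m`, `‖∑_{u mod m} F(u) e(h u / m)‖ ≤ B` for all `h`. Then for `u ∈ (a, b]`
`∑_{u ∈ (a, b]} F(u) = (1 / m) ∑_{h mod m} (∑_{v mod m} F(v) e(h v / m)) ∑_{u ∈ (a, b]} e(- h u / m)`
(orthogonality) and `|∑_{u ∈ (a, b]} e(- h u / m)| ≤ min(b - a, 1 / (2 ‖h / m‖))` (`norm_D_mul_nn` in `Expo.lean`), and
`∑_{0 < h < m} 1 / (2 ‖h / m‖) ≤ m ∑_{1 ≤ h ≤ m / 2} 1 / h ≤ m (1 + log m)`.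

`incomp_wt`: summation by parts: `∑_{u ∈ (a, b]} ω(u) F(u) = ω(b) S(b) - ∑_{u ∈ [a + 1, b)} (ω(u + 1) - ω(u)) S(u)` with
`S(u) = ∑_{v ∈ (a, u]} F(v)`.
-/

set_option autoImplicit false

open Finset Real

namespace Pool.Agent.Lib.MP_2a816b_nt.BH

/-- orthogonality -/
private lemma incomp_orth (m : ℕ) (hm : 0 < m) (n : ℤ) :
    ∑ h ∈ range m, e ((h : ℝ) * (n : ℝ) / m) = if (m : ℤ) ∣ n then (m : ℂ) else 0 := by
  have hm' : (m : ℝ) ≠ 0 := by positivity
  split_ifs with hd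
  · obtain ⟨q, rfl⟩ := hd
    have : ∀ h ∈ range m, e ((h : ℝ) * (((m : ℤ) * q : ℤ) : ℝ) / m) = 1 := by
      intro h _
      have : (h : ℝ) * (((m : ℤ) * q : ℤ) : ℝ) / m = (((h : ℤ) * q : ℤ) : ℝ) := by
        push_cast
        field_simp
      rw [this, e_int]
    rw [sum_congr rfl this]
    simp
  · have h1 := D_mul m ((n : ℝ) / m)
    have h2 : e ((m : ℝ) * ((n : ℝ) / m)) = 1 := by
      have : (m : ℝ) * ((n : ℝ) / m) = (n : ℝ) := by field_simp
      rw [this, e_int]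
    rw [h2, sub_self] at h1
    have h3 : e ((n : ℝ) / m) - 1 ≠ 0 := by
      intro h0
      rw [sub_eq_zero, e_eq_one_iff] at h0
      obtain ⟨q, hq⟩ := h0
      apply hd
      refine ⟨q, ?_⟩
      have : (n : ℝ) = m * q := by
        rw [div_eq_iff hm'] at hq
        rw [hq]; ring
      exact_mod_cast this
    have h4 : D m ((n : ℝ) / m) = 0 := (mul_eq_zero.1 h1).resolve_right h3
    rw [← h4]
    unfold D
    refine sum_congr rfl fun h _ => ?_
    rw [mul_div_assoc]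

/-- periodicity -/
private lemma incomp_per (F : ℤ → ℂ) (m : ℕ) (hF : ∀ u, F (u + m) = F u) (u : ℤ) (q : ℤ) :
    F (u + m * q) = F u := by
  induction q using Int.induction_on with
  | zero => simp
  | succ i ih =>
    have : u + (m : ℤ) * ((i : ℤ) + 1) = (u + m * i) + m := by ring
    rw [this, hF, ih]
  | pred i ih =>
    have : u + (m : ℤ) * (-(i : ℤ)) = (u + m * (-(i : ℤ) - 1)) + m := by ring
    rw [this, hF] at ih
    exact ih

/-- Fourier inversion modulo `m` -/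
private lemma incomp_inv (F : ℤ → ℂ) (m : ℕ) (hm : 0 < m) (hF : ∀ u, F (u + m) = F u) (u : ℤ) :
    (m : ℂ) * F u = ∑ h ∈ range m, (∑ v ∈ range m, F v * e ((h : ℝ) * v / m)) *
      e (-((h : ℝ) * u / m)) := by
  have h1 : ∀ h ∈ range m, (∑ v ∈ range m, F v * e ((h : ℝ) * v / m)) *
      e (-((h : ℝ) * u / m)) =
      ∑ v ∈ range m, F v * e ((h : ℝ) * (((v : ℤ) - u : ℤ) : ℝ) / m) := by
    intro h _
    rw [sum_mul]
    refine sum_congr rfl fun v _ => ?_
    rw [mul_assoc, ← e_add]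
    congr 2
    push_cast
    ring
  rw [sum_congr rfl h1, sum_comm]
  have h2 : ∀ v ∈ range m, ∑ h ∈ range m, F v * e ((h : ℝ) * (((v : ℤ) - u : ℤ) : ℝ) / m) =
      if (m : ℤ) ∣ (v : ℤ) - u then (m : ℂ) * F v else 0 := by
    intro v _
    rw [← mul_sum, incomp_orth m hm]
    split_ifs
    · ring
    · ring
  rw [sum_congr rfl h2]
  have hmz : (0 : ℤ) < m := by exact_mod_cast hm
  have hr0 : 0 ≤ u % m := Int.emod_nonneg _ hmz.ne'
  have hr1 : u % m < m := Int.emod_lt_of_pos _ hmz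
  obtain ⟨r, hr⟩ := Int.eq_ofNat_of_zero_le hr0
  have hrm : r < m := by
    have : (r : ℤ) < m := by rw [← hr]; exact hr1
    exact_mod_cast this
  rw [sum_eq_single r]
  · rw [if_pos]
    · congr 1
      have h3 := Int.emod_add_mul_ediv u m
      rw [hr] at h3
      rw [← h3, incomp_per F m hF]
    · rw [← hr]
      have h3 := Int.emod_add_mul_ediv u m
      refine ⟨-(u / m), ?_⟩
      linarith
  · intro v hv hvr
    rw [if_neg]
    rintro ⟨q, hq⟩
    apply hvr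
    have h3 : u % m = (v : ℤ) % m := by
      have : u = (v : ℤ) + m * (-q) := by linarith
      rw [this, Int.add_mul_emod_self_left]
    have h4 : (v : ℤ) % m = v := by
      apply Int.emod_eq_of_lt
      · positivity
      · exact_mod_cast mem_range.1 hv
    rw [hr, h4] at h3
    exact_mod_cast h3.symm
  · intro h
    exact absurd (mem_range.2 hrm) h

/-- distance of `h / m` to the nearest integer -/
private lemma incomp_nn (m h : ℕ) (h0 : 0 < h) (hm : h < m) :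
    1 / nn ((h : ℝ) / m) ≤ (m : ℝ) * (1 / h + 1 / ((m : ℝ) - h)) := by
  have hm0 : (0 : ℝ) < m := by
    have : 0 < m := by omega
    exact_mod_cast this
  have hh0 : (0 : ℝ) < h := by exact_mod_cast h0
  have hmh : (0 : ℝ) < (m : ℝ) - h := by
    have : (h : ℝ) < m := by exact_mod_cast hm
    linarith
  have key : (h : ℝ) / m ≤ nn ((h : ℝ) / m) ∨ ((m : ℝ) - h) / m ≤ nn ((h : ℝ) / m) := by
    unfold nn
    rcases le_or_gt (round ((h : ℝ) / m)) 0 with hr | hr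
    · left
      have h1 : ((round ((h : ℝ) / m) : ℤ) : ℝ) ≤ 0 := by exact_mod_cast hr
      have h2 : (0 : ℝ) < (h : ℝ) / m := by positivity
      rw [abs_of_pos (by linarith)]
      linarith
    · right
      have h1 : (1 : ℝ) ≤ ((round ((h : ℝ) / m) : ℤ) : ℝ) := by exact_mod_cast hr
      have h2 : (h : ℝ) / m < 1 := by
        rw [div_lt_one hm0]
        linarith
      rw [abs_of_neg (by linarith), sub_div, div_self hm0.ne']
      linarith
  have hp1 : (0 : ℝ) < (h : ℝ) / m := by positivity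
  have hp2 : (0 : ℝ) < ((m : ℝ) - h) / m := by positivity
  rcases key with hk | hk
  · calc 1 / nn ((h : ℝ) / m) ≤ 1 / ((h : ℝ) / m) := one_div_le_one_div_of_le hp1 hk
      _ = (m : ℝ) * (1 / h) := by field_simp
      _ ≤ (m : ℝ) * (1 / h + 1 / ((m : ℝ) - h)) := by
        apply mul_le_mul_of_nonneg_left _ hm0.le
        have : (0 : ℝ) < 1 / ((m : ℝ) - h) := by positivity
        linarith
  · calc 1 / nn ((h : ℝ) / m) ≤ 1 / (((m : ℝ) - h) / m) := one_div_le_one_div_of_le hp2 hk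
      _ = (m : ℝ) * (1 / ((m : ℝ) - h)) := by field_simp
      _ ≤ (m : ℝ) * (1 / h + 1 / ((m : ℝ) - h)) := by
        apply mul_le_mul_of_nonneg_left _ hm0.le
        have : (0 : ℝ) < 1 / (h : ℝ) := by positivity
        linarith

/-- `e` at negatives -/
private lemma incomp_S (m h a b : ℕ) :
    ‖∑ u ∈ Ioc a b, e (-((h : ℝ) * ((u : ℤ) : ℝ) / m))‖ = ‖D (b - a) ((h : ℝ) / m)‖ := by
  have h1 : ∑ u ∈ Ioc a b, e (-((h : ℝ) * ((u : ℤ) : ℝ) / m)) =
      e (-((h : ℝ) * (a + 1) / m)) * (starRingEnd ℂ) (D (b - a) ((h : ℝ) / m)) := by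
    have h2 : Ioc a b = Ico (a + 1) (b + 1) := by
      ext x
      simp only [mem_Ioc, mem_Ico]
      omega
    rw [h2, sum_Ico_eq_sum_range]
    unfold D
    rw [map_sum, mul_sum]
    have h3 : b + 1 - (a + 1) = b - a := by omega
    rw [h3]
    refine sum_congr rfl fun u _ => ?_
    rw [conj_e, ← e_add]
    congr 1
    push_cast
    ring
  rw [h1, norm_mul, norm_e, one_mul, RCLike.norm_conj]

private lemma incomp_harm (m : ℕ) (hm : 0 < m) :
    ∑ h ∈ Ico 1 m, (1 / (h : ℝ) + 1 / ((m : ℝ) - h)) ≤ 2 * (1 + Real.log m) := by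
  have h1 : ∑ h ∈ Ico 1 m, 1 / ((m : ℝ) - h) = ∑ h ∈ Ico 1 m, 1 / (h : ℝ) := by
    apply sum_bij (fun h _ => m - h)
    · intro h hh
      rw [mem_Ico] at hh ⊢
      omega
    · intro h hh h' hh' he
      rw [mem_Ico] at hh hh'
      omega
    · intro h hh
      rw [mem_Ico] at hh
      exact ⟨m - h, by rw [mem_Ico]; omega, by omega⟩
    · intro h hh
      rw [mem_Ico] at hh
      rw [Nat.cast_sub hh.2.le]
  have h2 : ∑ h ∈ Ico 1 m, 1 / (h : ℝ) ≤ 1 + Real.log m := by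
    rcases Nat.lt_or_ge m 2 with h | h
    · have : m = 1 := by omega
      subst this
      simp
    · have h3 : ∑ h ∈ Ico 1 m, 1 / (h : ℝ) = ((harmonic (m - 1) : ℚ) : ℝ) := by
        rw [harmonic, sum_Ico_eq_sum_range]
        push_cast
        refine sum_congr rfl fun i _ => ?_
        rw [one_div, add_comm]
      rw [h3]
      refine (harmonic_le_one_add_log (m - 1)).trans ?_
      have h4 : Real.log ((m - 1 : ℕ) : ℝ) ≤ Real.log m := by
        apply Real.log_le_log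
        · have : 0 < m - 1 := by omega
          exact_mod_cast this
        · have : m - 1 ≤ m := by omega
          exact_mod_cast this
      linarith
  rw [sum_add_distrib, h1]
  linarith

theorem incomp (F : ℤ → ℂ) (m : ℕ) (hm : 0 < m) (hF : ∀ u, F (u + m) = F u) (B : ℝ)
    (hB : ∀ h : ℤ, ‖∑ u ∈ range m, F u * e ((h : ℝ) * u / m)‖ ≤ B) (a b : ℕ) (hab : a ≤ b) :
    ‖∑ u ∈ Ioc a b, F u‖ ≤ B * (((b : ℝ) - a) / m + 1 + Real.log m) := by
  have hB0 : 0 ≤ B := (norm_nonneg _).trans (hB 0)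
  have hm' : (0 : ℝ) < m := by exact_mod_cast hm
  set G : ℕ → ℂ := fun h => ∑ v ∈ range m, F v * e ((h : ℝ) * v / m) with hG
  have hGB : ∀ h : ℕ, ‖G h‖ ≤ B := by
    intro h
    have := hB (h : ℤ)
    simpa [hG] using this
  have h1 : (m : ℂ) * ∑ u ∈ Ioc a b, F u =
      ∑ h ∈ range m, G h * ∑ u ∈ Ioc a b, e (-((h : ℝ) * ((u : ℤ) : ℝ) / m)) := by
    rw [mul_sum]
    have : ∀ u ∈ Ioc a b, (m : ℂ) * F (u : ℤ) =
        ∑ h ∈ range m, G h * e (-((h : ℝ) * ((u : ℤ) : ℝ) / m)) :=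
      fun u _ => incomp_inv F m hm hF u
    rw [sum_congr rfl this, sum_comm]
    refine sum_congr rfl fun h _ => ?_
    rw [mul_sum]
  have h2 : (m : ℝ) * ‖∑ u ∈ Ioc a b, F u‖ ≤
      ∑ h ∈ range m, B * ‖D (b - a) ((h : ℝ) / m)‖ := by
    have : (m : ℝ) * ‖∑ u ∈ Ioc a b, F u‖ = ‖(m : ℂ) * ∑ u ∈ Ioc a b, F u‖ := by
      rw [norm_mul, Complex.norm_natCast]
    rw [this, h1]
    refine (norm_sum_le _ _).trans (sum_le_sum fun h _ => ?_)
    rw [norm_mul, incomp_S]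
    exact mul_le_mul_of_nonneg_right (hGB h) (norm_nonneg _)
  have h3 : ∑ h ∈ range m, ‖D (b - a) ((h : ℝ) / m)‖ ≤ ((b : ℝ) - a) + m * (1 + Real.log m) := by
    have h4 : range m = insert 0 (Ico 1 m) := by
      ext x
      simp only [mem_range, mem_insert, mem_Ico]
      omega
    rw [h4, sum_insert (by simp)]
    have h5 : ‖D (b - a) (((0 : ℕ) : ℝ) / m)‖ ≤ (b : ℝ) - a := by
      refine (norm_D_le _ _).trans ?_
      rw [Nat.cast_sub hab]
    have h6 : ∑ h ∈ Ico 1 m, ‖D (b - a) ((h : ℝ) / m)‖ ≤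
        ∑ h ∈ Ico 1 m, ((m : ℝ) / 2) * (1 / (h : ℝ) + 1 / ((m : ℝ) - h)) := by
      refine sum_le_sum fun h hh => ?_
      rw [mem_Ico] at hh
      have h7 := norm_D_mul_nn (b - a) ((h : ℝ) / m)
      have h8 := incomp_nn m h (by omega) hh.2
      have hnn : 0 < nn ((h : ℝ) / m) := by
        rcases (nn_nonneg ((h : ℝ) / m)).lt_or_eq with h9 | h9
        · exact h9
        · exfalso
          unfold nn at h9
          have h10 : (h : ℝ) / m = round ((h : ℝ) / m) := by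
            have := abs_eq_zero.1 h9.symm
            linarith
          have h11 : (0 : ℝ) < (h : ℝ) / m := by
            have : (0 : ℝ) < h := by exact_mod_cast (by omega : 0 < h)
            positivity
          have h12 : (h : ℝ) / m < 1 := by
            rw [div_lt_one hm']
            exact_mod_cast hh.2
          rw [h10] at h11 h12
          have h13 : 0 < round ((h : ℝ) / m) := by exact_mod_cast h11
          have h14 : round ((h : ℝ) / m) < 1 := by exact_mod_cast h12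
          omega
      have h15 : ‖D (b - a) ((h : ℝ) / m)‖ ≤ (1 / 2) * (1 / nn ((h : ℝ) / m)) := by
        rw [← mul_div_assoc, mul_one, le_div_iff₀ hnn]
        linarith
      calc ‖D (b - a) ((h : ℝ) / m)‖ ≤ (1 / 2) * (1 / nn ((h : ℝ) / m)) := h15
        _ ≤ (1 / 2) * ((m : ℝ) * (1 / h + 1 / ((m : ℝ) - h))) := by linarith
        _ = _ := by ring
    have h7 : ∑ h ∈ Ico 1 m, ((m : ℝ) / 2) * (1 / (h : ℝ) + 1 / ((m : ℝ) - h)) ≤
        m * (1 + Real.log m) := by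
      rw [← mul_sum]
      have := incomp_harm m hm
      nlinarith
    linarith
  have h4 : (m : ℝ) * ‖∑ u ∈ Ioc a b, F u‖ ≤ B * (((b : ℝ) - a) + m * (1 + Real.log m)) := by
    refine h2.trans ?_
    rw [← mul_sum]
    exact mul_le_mul_of_nonneg_left h3 hB0
  have h5 : B * (((b : ℝ) - a) + m * (1 + Real.log m)) =
      m * (B * (((b : ℝ) - a) / m + 1 + Real.log m)) := by
    field_simp
    ring
  rw [h5] at h4
  exact le_of_mul_le_mul_left h4 hm'

/-- summation by parts -/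
private lemma incomp_parts (F : ℕ → ℂ) (ω : ℕ → ℂ) (a b : ℕ) (hab : a ≤ b) :
    ∑ u ∈ Ioc a b, ω u * F u = ω b * ∑ v ∈ Ioc a b, F v -
      ∑ u ∈ Ico (a + 1) b, (ω (u + 1) - ω u) * ∑ v ∈ Ioc a u, F v := by
  induction b, hab using Nat.le_induction with
  | base => simp
  | succ b hab ih =>
    have h1 : ∀ f : ℕ → ℂ, ∑ u ∈ Ioc a (b + 1), f u = ∑ u ∈ Ioc a b, f u + f (b + 1) :=
      fun f => sum_Ioc_succ_top hab f
    rw [h1, h1, ih]
    rcases hab.eq_or_lt with rfl | hlt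
    · simp
    · rw [sum_Ico_succ_top (by omega)]
      ring

theorem incomp_wt (F : ℤ → ℂ) (m : ℕ) (hm : 0 < m) (hF : ∀ u, F (u + m) = F u) (B : ℝ)
    (hB : ∀ h : ℤ, ‖∑ u ∈ range m, F u * e ((h : ℝ) * u / m)‖ ≤ B) (a b : ℕ) (hab : a ≤ b)
    (ω : ℕ → ℂ) (W₀ W₁ : ℝ) (h0 : ∀ u, ‖ω u‖ ≤ W₀)
    (h1 : ∑ u ∈ Ico (a + 1) b, ‖ω (u + 1) - ω u‖ ≤ W₁) :
    ‖∑ u ∈ Ioc a b, ω u * F u‖ ≤ (W₀ + W₁) * (B * (((b : ℝ) - a) / m + 1 + Real.log m)) := by
  have hB0 : 0 ≤ B := (norm_nonneg _).trans (hB 0)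
  have hm' : (0 : ℝ) < m := by exact_mod_cast hm
  have hlog : 0 ≤ Real.log m := Real.log_natCast_nonneg m
  set Q : ℝ := B * (((b : ℝ) - a) / m + 1 + Real.log m) with hQ
  have hab' : (a : ℝ) ≤ b := by exact_mod_cast hab
  have hQ0 : 0 ≤ Q := by
    have : 0 ≤ ((b : ℝ) - a) / m := div_nonneg (by linarith) hm'.le
    positivity
  have hS : ∀ u, a ≤ u → u ≤ b → ‖∑ v ∈ Ioc a u, F v‖ ≤ Q := by
    intro u hau hub
    refine (incomp F m hm hF B hB a u hau).trans ?_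
    rw [hQ]
    apply mul_le_mul_of_nonneg_left _ hB0
    have : ((u : ℝ) - a) / m ≤ ((b : ℝ) - a) / m := by
      apply div_le_div_of_nonneg_right _ hm'.le
      have : (u : ℝ) ≤ b := by exact_mod_cast hub
      linarith
    linarith
  rw [incomp_parts (fun u => F (u : ℤ)) ω a b hab, add_mul]
  refine (norm_sub_le _ _).trans (add_le_add ?_ ?_)
  · rw [norm_mul]
    exact mul_le_mul (h0 b) (hS b hab le_rfl) (norm_nonneg _) ((norm_nonneg _).trans (h0 b))
  · refine (norm_sum_le _ _).trans ?_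
    calc ∑ u ∈ Ico (a + 1) b, ‖(ω (u + 1) - ω u) * ∑ v ∈ Ioc a u, F v‖
        ≤ ∑ u ∈ Ico (a + 1) b, ‖ω (u + 1) - ω u‖ * Q := by
          refine sum_le_sum fun u hu => ?_
          rw [mem_Ico] at hu
          rw [norm_mul]
          exact mul_le_mul_of_nonneg_left (hS u (by omega) hu.2.le) (norm_nonneg _)
      _ = (∑ u ∈ Ico (a + 1) b, ‖ω (u + 1) - ω u‖) * Q := by rw [sum_mul]
      _ ≤ W₁ * Q := mul_le_mul_of_nonneg_right h1 hQ0

/-- The incomplete Kloosterman sum. -/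
theorem kl_incomplete {M : ℕ} {T : ℝ} (hBig : Big M T) (l m : ℕ) (hlm : Squarefree (l * m))
    (hlM : l * m ≤ M) (t A B : ℤ) (a b : ℕ) (hab : a ≤ b) (hb : b ≤ M) (hbm : (b : ℝ) - a ≤ T * (l * m : ℕ))
    (ω : ℕ → ℂ) (W₀ W₁ : ℝ) (h0 : ∀ u, ‖ω u‖ ≤ W₀)
    (h1 : ∑ u ∈ Ico (a + 1) b, ‖ω (u + 1) - ω u‖ ≤ W₁) :
    ‖∑ u ∈ Ioc a b, ω u * kl l m t A B u‖ ≤
      (W₀ + W₁) * (2 * T ^ 2 * √(l * m : ℕ) * √(A.natAbs.gcd l : ℝ) *
        (√(B.natAbs.gcd m : ℝ) * √(t.natAbs.gcd m : ℝ))) := by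
  have hpos : 0 < l * m := Nat.pos_of_ne_zero hlm.ne_zero
  have hpos' : (0 : ℝ) < ((l * m : ℕ) : ℝ) := by exact_mod_cast hpos
  have h2 := incomp_wt (fun u => kl l m t A B u) (l * m) hpos (fun u => kl_periodic l m t A B u)
    _ (fun h => kl_complete l m hlm t A B h) a b hab ω W₀ W₁ h0 h1
  refine h2.trans ?_
  have hW0 : 0 ≤ W₀ := (norm_nonneg _).trans (h0 0)
  have hW1 : 0 ≤ W₁ := (sum_nonneg fun _ _ => norm_nonneg _).trans h1
  apply mul_le_mul_of_nonneg_left _ (by linarith)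
  have hT : 100 ≤ T := hBig.one
  have htau : ((l * m).divisors.card : ℝ) ≤ T := hBig.tau _ hpos hlM
  have h3 : ((b : ℝ) - a) / (l * m : ℕ) ≤ T := by
    rw [div_le_iff₀ hpos']
    exact hbm
  have h4 : Real.log (l * m : ℕ) ≤ Real.log M := by
    apply Real.log_le_log hpos'
    exact_mod_cast hlM
  have h5 := hBig.log
  have h6 : ((b : ℝ) - a) / (l * m : ℕ) + 1 + Real.log (l * m : ℕ) ≤ 2 * T := by linarith
  have h7 : 0 ≤ ((b : ℝ) - a) / (l * m : ℕ) + 1 + Real.log (l * m : ℕ) := by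
    have hab' : (a : ℝ) ≤ b := by exact_mod_cast hab
    have e1 : 0 ≤ ((b : ℝ) - a) / (l * m : ℕ) := div_nonneg (by linarith) hpos'.le
    have e2 : 0 ≤ Real.log (l * m : ℕ) := Real.log_natCast_nonneg _
    linarith
  set X : ℝ := √(l * m : ℕ) * √(A.natAbs.gcd l : ℝ) *
        (√(B.natAbs.gcd m : ℝ) * √(t.natAbs.gcd m : ℝ)) with hX
  have hX0 : 0 ≤ X := by positivity
  have e1 : ((l * m).divisors.card : ℝ) * √(l * m : ℕ) * √(A.natAbs.gcd l : ℝ) *
        (√(B.natAbs.gcd m : ℝ) * √(t.natAbs.gcd m : ℝ)) = ((l * m).divisors.card : ℝ) * X := by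
    rw [hX]; ring
  have e2 : 2 * T ^ 2 * √(l * m : ℕ) * √(A.natAbs.gcd l : ℝ) *
        (√(B.natAbs.gcd m : ℝ) * √(t.natAbs.gcd m : ℝ)) = (T * X) * (2 * T) := by
    rw [hX]; ring
  rw [e1, e2]
  exact mul_le_mul (mul_le_mul_of_nonneg_right htau hX0) h6 h7 (by positivity)

end Pool.Agent.Lib.MP_2a816b_nt.BH
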