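import Pool.Agent.Lib.MP_2a816b_nt.BH.D5
import Pool.Agent.Lib.MP_2a816b_nt.BH.Incomp

/-!
# JOB D6a: the phase of a pair of indices as a Kloosterman phase

Fix `t ∈ ST`, `w ∈ SW`, `l ∈ SL` with `(w, l) = 1`, and two indices `i = (z, v, ν)`, `i' = (z', v', ν')` of `SI w l`. Put `D = ν v' z' - ν' v z ≠ 0` and
`m = w z z'` if `z ≠ z'`, `m = w z` if `z = z'`; `l m` is squarefree (`w` squarefree, `z, z'` primes not dividing `w` (`cZW`), everything prime to `l`).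

For `u` with `(u, l) = 1`, `(l + u t, w z z') = 1`:
* the factors modulo `l`: `- ν j \overline{u v z w} + ν' j \overline{u v' z' w} = A ū` with `A ≡ - j w̄ (ν \overline{v z} - ν' \overline{v' z'}) ≡ - j \overline{w v z v' z'} D (mod l)`, so
  `gcd(A, l) = gcd(j D, l)` (`v, v', z, z', w` are prime to `l`).
* the factors modulo `z w` and `z' w` combine to a character modulo `m`: with integer inverses `x` of `v l` modulo `z w` and `x'` of `v' l` modulo `z' w`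
  (`v` is prime to `z w`, `v'` to `z' w`), they are `e((- ν j t x s + ν' j t x' s') \overline{(l + u t)} / m)` with `s = m / (z w)`, `s' = m / (z' w)`
  (for `z ≠ z'`: `s = z'`, `s' = z`; for `z = z'`: `s = s' = 1`), where `\overline{(l + u t)}` is the inverse modulo `m`. So `B = j t (- ν x s + ν' x' s')`.
* modulo `w`: (`v, v', l, z, z'` are prime to `w`) if `z ≠ z'`: `B ≡ - j t \overline{l v v'} (ν z' v' - ν' z v) = - j t \overline{l v v'} D`; if `z = z'`: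
  `B ≡ - j t \overline{l v v'} (ν v' - ν' v)`, and `z` times this bracket is `D`. So `gcd(B, w) = gcd(t D, w)` (`j` is prime to `w` as `0 < |j| < y`).
* if `z ≠ z'`: modulo `z`, `B ≡ - j t ν x z'`, so `gcd(B, z) = gcd(t, z)` (`ν, x, z', j` are prime to `z`), and similarly modulo `z'`. If `z = z'` use `gcd(B, z) ≤ z`.
* Bound: `m' := gcd` computations are multiplicative over the squarefree `m`. For `z ≠ z'`: `√(l m) √gcd(A,l) √gcd(B,m) √gcd(t,m) ≤ √(l w z z') gcd(jD,l) √gcd(tD,w) √gcd(t,w) gcd(t,z) gcd(t,z')`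
  and `gcd(t,w) ∣ gcd(tD,w)`. For `z = z'`: `√(l w z) √z = √(l w z z')`, `√gcd(t,z) ≤ gcd(t,z)`.
* the factor `wh(K ν / (u v z w)) wh(K ν' / (u v' z' w)) e(j ν / (l u v z w) - j ν' / (l u v' z' w))` is `ω(u)`, of the form of `omega` (see `D6b.lean`) with
  `a = K ν / (v z w)`, `a' = K ν' / (v' z' w)`, `b = j ν / (l v z w) - j ν' / (l v' z' w)`, `|b| ≤ 2 |j| N / (L W Z · W Z) ≤ 2` (using `|j| ≤ L` and `N ≤ W Z ^ 2`).
* if `(u, l) ≠ 1` or `(l + u t, w z z') ≠ 1` then `kl = 0` and the left side is not in the sum.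
-/

set_option autoImplicit false

open Finset Real
open scoped Pointwise

namespace Pool.Agent.Lib.MP_2a816b_nt.BH

section D6aAux

private lemma d6a_inv (q : ℕ) (a x : ZMod q) (h : a * x = 1) : a⁻¹ = x := by
  have hu : IsUnit a := IsUnit.of_mul_eq_one x h
  calc a⁻¹ = a⁻¹ * (a * x) := by rw [h, mul_one]
    _ = (a⁻¹ * a) * x := by ring
    _ = x := by rw [ZMod.inv_mul_of_unit a hu, one_mul]

/-- cast of a congruence -/
private lemma d6a_cast (q : ℕ) (a k : ℤ) (h : a = 1 + q * k) : ((a : ℤ) : ZMod q) = 1 := by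
  rw [h]
  push_cast
  rw [ZMod.natCast_self, zero_mul, add_zero]

private lemma d6a_conj_e (x : ℝ) : (starRingEnd ℂ) (e x) = e (-x) := conj_e x

/-- the factors modulo `z w` and `z' w` -/
private lemma d6a_B (z w z' v v' l s s' m : ℕ) (ν ν' j t : ℤ) (hzw : 0 < z * w) (hzw' : 0 < z' * w)
    (hm0 : 0 < m) (hm : m = z * w * s) (hm' : m = z' * w * s') (x x' k1 k2 : ℤ)
    (hx : ((v : ℤ) * l) * x = 1 + ((z * w : ℕ) : ℤ) * k1)
    (hx' : ((v' : ℤ) * l) * x' = 1 + ((z' * w : ℕ) : ℤ) * k2) (c : ℤ) (hc : IsCoprime c (m : ℤ)) :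
    ee (z * w) (-((ν * j * t : ℤ) : ZMod (z * w)) *
        (((v : ℤ) * (l : ℤ) * c : ℤ) : ZMod (z * w))⁻¹) *
      (starRingEnd ℂ) (ee (z' * w) (-((ν' * j * t : ℤ) : ZMod (z' * w)) *
        (((v' : ℤ) * (l : ℤ) * c : ℤ) : ZMod (z' * w))⁻¹)) =
      ee m (((j * t * (-(ν * x * s) + ν' * x' * s') : ℤ) : ZMod m) * ((c : ℤ) : ZMod m)⁻¹) := by
  obtain ⟨y, y', hy⟩ := hc
  have i1 : (((v : ℤ) * (l : ℤ) * c : ℤ) : ZMod (z * w))⁻¹ = ((x * y : ℤ) : ZMod (z * w)) := by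
    apply d6a_inv
    rw [← Int.cast_mul]
    apply d6a_cast (z * w) _ (k1 * (c * y) - y' * s)
    have e1 : (m : ℤ) = ((z * w : ℕ) : ℤ) * s := by rw [hm]; push_cast; ring
    rw [e1] at hy
    linear_combination (c * y) * hx + hy
  have i2 : (((v' : ℤ) * (l : ℤ) * c : ℤ) : ZMod (z' * w))⁻¹ = ((x' * y : ℤ) : ZMod (z' * w)) := by
    apply d6a_inv
    rw [← Int.cast_mul]
    apply d6a_cast (z' * w) _ (k2 * (c * y) - y' * s')
    have e1 : (m : ℤ) = ((z' * w : ℕ) : ℤ) * s' := by rw [hm']; push_cast; ring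
    rw [e1] at hy
    linear_combination (c * y) * hx' + hy
  have i3 : ((c : ℤ) : ZMod m)⁻¹ = ((y : ℤ) : ZMod m) := by
    apply d6a_inv
    rw [← Int.cast_mul]
    apply d6a_cast m _ (-y')
    linear_combination hy
  rw [i1, i2, i3]
  have f1 : -((ν * j * t : ℤ) : ZMod (z * w)) * ((x * y : ℤ) : ZMod (z * w))
      = ((-(ν * j * t) * (x * y) : ℤ) : ZMod (z * w)) := by
    push_cast
    ring
  have f2 : -((ν' * j * t : ℤ) : ZMod (z' * w)) * ((x' * y : ℤ) : ZMod (z' * w))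
      = ((-(ν' * j * t) * (x' * y) : ℤ) : ZMod (z' * w)) := by
    push_cast
    ring
  rw [f1, f2, ← Int.cast_mul, ee_intCast _ hzw, ee_intCast _ hzw', ee_intCast _ hm0, conj_e, ← e_add]
  congr 1
  have r1 : ((z * w : ℕ) : ℝ) ≠ 0 := by exact_mod_cast hzw.ne'
  have r2 : ((z' * w : ℕ) : ℝ) ≠ 0 := by exact_mod_cast hzw'.ne'
  have r3 : (m : ℝ) ≠ 0 := by exact_mod_cast hm0.ne'
  have e1 : (m : ℝ) = ((z * w : ℕ) : ℝ) * s := by exact_mod_cast hm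
  have e2 : (m : ℝ) = ((z' * w : ℕ) : ℝ) * s' := by exact_mod_cast hm'
  have e3 : 1 / ((z * w : ℕ) : ℝ) = s / m := by
    rw [div_eq_div_iff r1 r3, e1]
    ring
  have e4 : 1 / ((z' * w : ℕ) : ℝ) = s' / m := by
    rw [div_eq_div_iff r2 r3, e2]
    ring
  have e5 : ∀ a : ℝ, a / ((z * w : ℕ) : ℝ) = a * (s / m) := fun a => by rw [← e3]; ring
  have e6 : ∀ a : ℝ, a / ((z' * w : ℕ) : ℝ) = a * (s' / m) := fun a => by rw [← e4]; ring
  rw [e5, e6]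
  push_cast
  ring

/-- the factors modulo `l` -/
private lemma d6a_A (l P P' u : ℕ) (ν ν' j : ℤ) (hl : 0 < l) (x x' k1 k2 : ℤ)
    (hx : (P : ℤ) * x = 1 + (l : ℤ) * k1) (hx' : (P' : ℤ) * x' = 1 + (l : ℤ) * k2)
    (hu : u.Coprime l) (n n' : ℕ) (hn : n = u * P) (hn' : n' = u * P') :
    ee l (-((ν * j : ℤ) : ZMod l) * ((n : ℕ) : ZMod l)⁻¹) *
      (starRingEnd ℂ) (ee l (-((ν' * j : ℤ) : ZMod l) * ((n' : ℕ) : ZMod l)⁻¹)) =
      ee l (((-(ν * j * x) + ν' * j * x' : ℤ) : ZMod l) * (((u : ℤ) : ℤ) : ZMod l)⁻¹) := by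
  obtain ⟨y, y', hy⟩ := Nat.isCoprime_iff_coprime.2 hu
  have i1 : ((n : ℕ) : ZMod l)⁻¹ = ((x * y : ℤ) : ZMod l) := by
    apply d6a_inv
    have e0 : ((n : ℕ) : ZMod l) = (((u : ℤ) * P : ℤ) : ZMod l) := by rw [hn]; push_cast; ring
    rw [e0, ← Int.cast_mul]
    apply d6a_cast l _ (k1 * (u * y) - y')
    linear_combination ((u : ℤ) * y) * hx + hy
  have i2 : ((n' : ℕ) : ZMod l)⁻¹ = ((x' * y : ℤ) : ZMod l) := by
    apply d6a_inv
    have e0 : ((n' : ℕ) : ZMod l) = (((u : ℤ) * P' : ℤ) : ZMod l) := by rw [hn']; push_cast; ring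
    rw [e0, ← Int.cast_mul]
    apply d6a_cast l _ (k2 * (u * y) - y')
    linear_combination ((u : ℤ) * y) * hx' + hy
  have i3 : (((u : ℤ) : ℤ) : ZMod l)⁻¹ = ((y : ℤ) : ZMod l) := by
    apply d6a_inv
    rw [← Int.cast_mul]
    apply d6a_cast l _ (-y')
    linear_combination hy
  rw [i1, i2, i3, ← ee_neg l hl, ← ee_add l hl]
  congr 1
  push_cast
  ring

private lemma d6a_exists_inv (a b : ℤ) (h : IsCoprime a b) : ∃ x k : ℤ, a * x = 1 + b * k := by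
  obtain ⟨x, y, hxy⟩ := h
  exact ⟨x, -y, by linear_combination hxy⟩

private lemma d6a_gcd_dvd (a b : ℤ) (l : ℕ) (h : ∀ g : ℕ, (g : ℤ) ∣ a → g ∣ l → (g : ℤ) ∣ b) :
    a.natAbs.gcd l ∣ b.natAbs.gcd l := by
  refine Nat.dvd_gcd ?_ (Nat.gcd_dvd_right _ _)
  have h1 : ((a.natAbs.gcd l : ℕ) : ℤ) ∣ a := by
    rw [← Int.dvd_natAbs]
    exact_mod_cast Nat.gcd_dvd_left a.natAbs l
  have h2 := h _ h1 (Nat.gcd_dvd_right _ _)
  rw [← Int.dvd_natAbs] at h2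
  exact_mod_cast h2

/-- cancel a factor prime to `l` -/
private lemma d6a_cancel (g l : ℕ) (a b : ℤ) (hg : g ∣ l) (ha : IsCoprime a (l : ℤ))
    (h : (g : ℤ) ∣ a * b) : (g : ℤ) ∣ b := by
  have h1 : IsCoprime (g : ℤ) a := by
    have h2 : (g : ℤ) ∣ (l : ℤ) := by exact_mod_cast hg
    exact (IsCoprime.of_isCoprime_of_dvd_right ha h2).symm
  exact h1.dvd_of_dvd_mul_left h

private lemma d6a_gA (l w P P' : ℕ) (ν ν' j : ℤ) (D : ℤ) (x x' k1 k2 : ℤ)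
    (hx : (P : ℤ) * x = 1 + (l : ℤ) * k1) (hx' : (P' : ℤ) * x' = 1 + (l : ℤ) * k2)
    (hD : ν * P' - ν' * P = w * D) (hw : IsCoprime (w : ℤ) (l : ℤ)) :
    (-(ν * j * x) + ν' * j * x').natAbs.gcd l ∣ (j * D).natAbs.gcd l := by
  apply d6a_gcd_dvd
  intro g hg hgl
  apply d6a_cancel g l (w : ℤ) _ hgl hw
  obtain ⟨a, ha⟩ := hg
  obtain ⟨b, hb⟩ := hgl
  have hb' : (l : ℤ) = g * b := by exact_mod_cast hb
  refine ⟨-a * P * P' - b * (ν * j * P' * k1 - ν' * j * P * k2), ?_⟩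
  have e1 : (-(ν * j * x) + ν' * j * x') * P * P'
      = -(ν * j) * P' * (1 + l * k1) + (ν' * j) * P * (1 + l * k2) := by
    rw [← hx, ← hx']
    ring
  rw [ha, hb'] at e1
  linear_combination (-j) * hD + e1

private lemma d6a_gBw (z w z' v v' l s s' κ : ℕ) (ν ν' j t D : ℤ) (x x' k1 k2 : ℤ)
    (hx : ((v : ℤ) * l) * x = 1 + ((z * w : ℕ) : ℤ) * k1)
    (hx' : ((v' : ℤ) * l) * x' = 1 + ((z' * w : ℕ) : ℤ) * k2)
    (hs : κ * s = z') (hs' : κ * s' = z) (hD : D = ν * v' * z' - ν' * v * z)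
    (hl : IsCoprime (l : ℤ) (w : ℤ)) (hj : IsCoprime j (w : ℤ)) :
    (j * t * (-(ν * x * s) + ν' * x' * s')).natAbs.gcd w ∣ (t * D).natAbs.gcd w := by
  apply d6a_gcd_dvd
  intro g hg hgw
  apply d6a_cancel g w (j * l) _ hgw (hj.mul_left hl)
  obtain ⟨a, ha⟩ := hg
  obtain ⟨b, hb⟩ := hgw
  have hb' : (w : ℤ) = g * b := by exact_mod_cast hb
  have hs1 : (κ : ℤ) * s = z' := by exact_mod_cast hs
  have hs2 : (κ : ℤ) * s' = z := by exact_mod_cast hs'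
  have e1 : κ * (j * t * (-(ν * x * s) + ν' * x' * s')) * (v * l) * (v' * l)
      = j * t * l * (-(ν * v' * (κ * s)) * (1 + ((z * w : ℕ) : ℤ) * k1)
        + ν' * v * (κ * s') * (1 + ((z' * w : ℕ) : ℤ) * k2)) := by
    rw [← hx, ← hx']
    ring
  rw [ha, hs1, hs2] at e1
  push_cast at e1
  rw [hb'] at e1
  refine ⟨-(κ * a * (v * l) * (v' * l)) + j * t * l *
    (-(ν * v' * z') * (z * b * k1) + ν' * v * z * (z' * b * k2)), ?_⟩
  rw [hD]
  linear_combination e1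

private lemma d6a_gBz (z w z' v l s s' : ℕ) (ν ν' j t : ℤ) (x x' k1 : ℤ)
    (hx : ((v : ℤ) * l) * x = 1 + ((z * w : ℕ) : ℤ) * k1) (hs : s = z') (hs' : s' = z)
    (hν : IsCoprime ν (z : ℤ)) (hj : IsCoprime j (z : ℤ)) (hzz : IsCoprime (z' : ℤ) (z : ℤ)) :
    (j * t * (-(ν * x * s) + ν' * x' * s')).natAbs.gcd z ∣ t.natAbs.gcd z := by
  apply d6a_gcd_dvd
  intro g hg hgz
  apply d6a_cancel g z (j * ν * z') _ hgz ((hj.mul_left hν).mul_left hzz)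
  obtain ⟨a, ha⟩ := hg
  obtain ⟨b, hb⟩ := hgz
  have hb' : (z : ℤ) = g * b := by exact_mod_cast hb
  subst hs hs'
  have e1 : (j * t * (-(ν * x * s) + ν' * x' * s')) * (v * l)
      = j * t * (-(ν * s) * (1 + ((s' * w : ℕ) : ℤ) * k1) + ν' * x' * s' * (v * l)) := by
    rw [← hx]
    ring
  rw [ha] at e1
  push_cast at e1
  rw [hb'] at e1
  refine ⟨-(a * (v * l)) + j * t * (-(ν * s) * (b * w * k1) + ν' * x' * b * (v * l)), ?_⟩
  linear_combination e1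

end D6aAux

/-- the smooth factor -/
noncomputable def omega (wh : ℝ → ℝ) (a a' b : ℝ) (u : ℕ) : ℂ :=
  (wh (a / u) : ℂ) * (wh (a' / u) : ℂ) * e (b / u)

namespace DD

variable {M : ℕ} {T : ℝ} (d : DD M T)

/-- the determinant of a pair of indices -/
def Dt (i i' : ℕ × ℕ × ℤ) : ℤ := i.2.2 * i'.2.1 * i'.1 - i'.2.2 * i.2.1 * i.1

private theorem d6a_assemble (wh : ℝ → ℝ) (t : ℤ) (w l z v z' v' s s' m : ℕ) (ν ν' : ℤ)
    (hl : 0 < l) (hzw : 0 < z * w) (hzw' : 0 < z' * w) (hm0 : 0 < m)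
    (hm : m = z * w * s) (hm' : m = z' * w * s') (x x' k1 k2 X X' K1 K2 : ℤ)
    (hx : ((v : ℤ) * l) * x = 1 + ((z * w : ℕ) : ℤ) * k1)
    (hx' : ((v' : ℤ) * l) * x' = 1 + ((z' * w : ℕ) : ℤ) * k2)
    (hX : ((v * (z * w) : ℕ) : ℤ) * X = 1 + (l : ℤ) * K1)
    (hX' : ((v' * (z' * w) : ℕ) : ℤ) * X' = 1 + (l : ℤ) * K2)
    (hcond : ∀ c : ℤ, IsCoprime c (m : ℤ) ↔
      (IsCoprime c (w : ℤ) ∧ IsCoprime c (z : ℤ) ∧ IsCoprime c (z' : ℤ))) (u : ℕ) :
    (u.Coprime l ∧ IsCoprime ((l : ℤ) + u * t) (w : ℤ) ∧ IsCoprime ((l : ℤ) + u * t) (z : ℤ) ∧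
        IsCoprime ((l : ℤ) + u * t) (z' : ℤ) →
      d.ph wh t w l z v ν u * (starRingEnd ℂ) (d.ph wh t w l z' v' ν' u) =
        omega wh (d.K * ν / ((v * (z * w) : ℕ) : ℝ)) (d.K * ν' / ((v' * (z' * w) : ℕ) : ℝ))
          ((ν : ℝ) * d.j / ((l * (v * (z * w)) : ℕ) : ℝ) -
            (ν' : ℝ) * d.j / ((l * (v' * (z' * w)) : ℕ) : ℝ)) u *
        kl l m t (-(ν * d.j * X) + ν' * d.j * X')
          (d.j * t * (-(ν * x * s) + ν' * x' * s')) u) ∧
    (¬ (u.Coprime l ∧ IsCoprime ((l : ℤ) + u * t) (w : ℤ) ∧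
        IsCoprime ((l : ℤ) + u * t) (z : ℤ) ∧ IsCoprime ((l : ℤ) + u * t) (z' : ℤ)) →
      kl l m t (-(ν * d.j * X) + ν' * d.j * X')
          (d.j * t * (-(ν * x * s) + ν' * x' * s')) u = 0) := by
  have hu1 : IsUnit (((u : ℤ) : ℤ) : ZMod l) ↔ u.Coprime l := by
    rw [Int.cast_natCast]
    exact ZMod.isUnit_iff_coprime u l
  have hu2 : IsUnit ((((l : ℤ) + u * t : ℤ)) : ZMod m) ↔
      (IsCoprime ((l : ℤ) + u * t) (w : ℤ) ∧ IsCoprime ((l : ℤ) + u * t) (z : ℤ) ∧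
        IsCoprime ((l : ℤ) + u * t) (z' : ℤ)) := by
    rw [ZMod.coe_int_isUnit_iff_isCoprime, ← hcond]
    exact isCoprime_comm
  constructor
  · rintro ⟨hu, hc⟩
    have hcm := (hcond _).2 hc
    have hE := d6a_A l (v * (z * w)) (v' * (z' * w)) u ν ν' d.j hl X X' K1 K2 hX hX' hu
      (u * v * (z * w)) (u * v' * (z' * w)) (by ring) (by ring)
    have hF := d6a_B z w z' v v' l s s' m ν ν' d.j t hzw hzw' hm0 hm hm' x x' k1 k2 hx hx'
      ((l : ℤ) + u * t) hcm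
    have w1 : d.K * ν / ((u * v * (z * w) : ℕ) : ℝ) = d.K * ν / ((v * (z * w) : ℕ) : ℝ) / u := by
      rw [div_div]
      congr 1
      push_cast
      ring
    have w2 : d.K * ν' / ((u * v' * (z' * w) : ℕ) : ℝ)
        = d.K * ν' / ((v' * (z' * w) : ℕ) : ℝ) / u := by
      rw [div_div]
      congr 1
      push_cast
      ring
    have w3 : e (((ν : ℝ) * d.j / ((l * (v * (z * w)) : ℕ) : ℝ) -
        (ν' : ℝ) * d.j / ((l * (v' * (z' * w)) : ℕ) : ℝ)) / u)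
        = e (((ν * d.j : ℤ) : ℝ) / ((l * u * v * (z * w) : ℕ) : ℝ)) *
          e (-(((ν' * d.j : ℤ) : ℝ) / ((l * u * v' * (z' * w) : ℕ) : ℝ))) := by
      rw [← e_add]
      congr 1
      rw [sub_div, div_div, div_div, sub_eq_add_neg]
      congr 1
      · congr 1
        · push_cast
          ring
        · push_cast
          ring
      · congr 1
        congr 1
        · push_cast
          ring
        · push_cast
          ring
    unfold ph omega kl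
    rw [if_pos ⟨hu1.2 hu, hu2.2 hc⟩, ← hE, ← hF, w3, w1, w2]
    simp only [map_mul, Complex.conj_ofReal, conj_e]
    ring
  · intro hc
    unfold kl
    rw [if_neg]
    rintro ⟨h1, h2⟩
    exact hc ⟨hu1.1 h1, hu2.1 h2⟩

private theorem d6a_jcop (n : ℕ) (hn : ∀ p : ℕ, p.Prime → p ∣ n → d.y ≤ (p : ℝ)) :
    IsCoprime d.j (n : ℤ) := by
  rw [Int.isCoprime_iff_gcd_eq_one, Int.gcd, Int.natAbs_natCast]
  apply Nat.coprime_of_dvd
  intro p hp hpj hpn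
  have h1 := hn p hp hpn
  have h2 : p ≤ d.j.natAbs := Nat.le_of_dvd (Int.natAbs_pos.2 d.hj) hpj
  have h3 : ((d.j.natAbs : ℕ) : ℝ) = |(d.j : ℝ)| := by
    rw [← Int.cast_abs, Int.abs_eq_natAbs]
    simp
  have h4 : (p : ℝ) ≤ |(d.j : ℝ)| := by
    rw [← h3]
    exact_mod_cast h2
  linarith [d.hjy]

private theorem d6a_b (hN : (d.N : ℝ) ≤ d.W * d.Z ^ 2) (l v z w : ℕ) (ν : ℤ)
    (hl : d.L ≤ (l : ℝ)) (hv : d.Z * d.W ≤ (v : ℝ)) (hz : d.Z ≤ (z : ℝ)) (hw : d.W ≤ (w : ℝ))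
    (hν : |(ν : ℝ)| ≤ d.N) : |(ν : ℝ) * d.j / ((l * (v * (z * w)) : ℕ) : ℝ)| ≤ 1 := by
  have hW := d.hW1
  have hZ := d.hZ1
  have hL := d.hL1
  have h1 : |(ν : ℝ)| ≤ d.W * d.Z ^ 2 := hν.trans hN
  have h2 : |(ν : ℝ)| * |(d.j : ℝ)| ≤ d.W * d.Z ^ 2 * d.L :=
    mul_le_mul h1 d.hjL (abs_nonneg _) (by positivity)
  have h3 : d.L * (d.Z * d.W * (d.Z * d.W)) ≤ ((l * (v * (z * w)) : ℕ) : ℝ) := by
    push_cast
    have h4 : d.Z * d.W ≤ (z : ℝ) * w := mul_le_mul hz hw (by linarith) (by linarith)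
    have h5 : d.Z * d.W * (d.Z * d.W) ≤ (v : ℝ) * (z * w) :=
      mul_le_mul hv h4 (by positivity) (by linarith [show 0 ≤ d.Z * d.W by positivity])
    exact mul_le_mul hl h5 (by positivity) (by linarith)
  have h6 : d.W * d.Z ^ 2 * d.L ≤ d.L * (d.Z * d.W * (d.Z * d.W)) := by
    have : d.L * (d.Z * d.W * (d.Z * d.W)) = d.W * (d.W * d.Z ^ 2 * d.L) := by ring
    rw [this]
    have h7 : 0 ≤ d.W * d.Z ^ 2 * d.L := by positivity
    nlinarith
  have h8 : 0 < ((l * (v * (z * w)) : ℕ) : ℝ) := lt_of_lt_of_le (by positivity) h3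
  rw [abs_div, abs_mul, abs_of_pos h8, div_le_one h8]
  linarith

private theorem d6a_gcd_pos (a n : ℕ) (hn : 0 < n) : 0 < a.gcd n := Nat.gcd_pos_of_pos_right _ hn

private theorem d6a_sqrt_le (n : ℕ) : √(n : ℝ) ≤ n := by
  rcases Nat.eq_zero_or_pos n with h | h
  · rw [h]
    simp
  · have h1 : (1 : ℝ) ≤ n := by exact_mod_cast h
    calc √(n : ℝ) ≤ √((n : ℝ) * n) := Real.sqrt_le_sqrt (by nlinarith)
      _ = n := Real.sqrt_mul_self (by linarith)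

theorem pair_form (wh : ℝ → ℝ) (hN : (d.N : ℝ) ≤ d.W * d.Z ^ 2) (t : ℤ) (ht : t ∈ d.ST)
    (w l : ℕ) (hw : w ∈ d.SW) (hl : l ∈ d.SL) (hwl : w.Coprime l) (i i' : ℕ × ℕ × ℤ)
    (hi : i ∈ d.SI w l) (hi' : i' ∈ d.SI w l) (hD : Dt i i' ≠ 0) :
    ∃ (m : ℕ) (A B : ℤ) (a a' b : ℝ), Squarefree (l * m) ∧ (m : ℝ) ≤ w * i.1 * i'.1 ∧ |b| ≤ 2 ∧
      d.L ≤ (l * m : ℕ) ∧
      √(l * m : ℕ) * √(A.natAbs.gcd l : ℝ) * (√(B.natAbs.gcd m : ℝ) * √(t.natAbs.gcd m : ℝ)) ≤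
        √((l : ℝ) * w * i.1 * i'.1) * ((((d.j * Dt i i').natAbs.gcd l : ℕ) : ℝ) *
          (((t * Dt i i').natAbs.gcd w : ℕ) : ℝ) *
          ((t.natAbs.gcd i.1 : ℕ) : ℝ) * ((t.natAbs.gcd i'.1 : ℕ) : ℝ)) ∧
      ∀ u : ℕ,
        (u.Coprime l ∧ IsCoprime ((l : ℤ) + u * t) (w : ℤ) ∧ IsCoprime ((l : ℤ) + u * t) (i.1 : ℤ) ∧
          IsCoprime ((l : ℤ) + u * t) (i'.1 : ℤ) →
          d.ph wh t w l i.1 i.2.1 i.2.2 u * (starRingEnd ℂ) (d.ph wh t w l i'.1 i'.2.1 i'.2.2 u) =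
            omega wh a a' b u * kl l m t A B u) ∧
        (¬ (u.Coprime l ∧ IsCoprime ((l : ℤ) + u * t) (w : ℤ) ∧
          IsCoprime ((l : ℤ) + u * t) (i.1 : ℤ) ∧ IsCoprime ((l : ℤ) + u * t) (i'.1 : ℤ)) →
          kl l m t A B u = 0) := by
  classical
  obtain ⟨z, v, ν⟩ := i
  obtain ⟨z', v', ν'⟩ := i'
  unfold SI at hi hi'
  rw [Finset.mem_filter, Finset.mem_product, Finset.mem_product] at hi hi'
  obtain ⟨⟨hz, hv, hν⟩, hc1, hc2, hc3, hc4⟩ := hi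
  obtain ⟨⟨hz', hv', hν'⟩, hc1', hc2', hc3', hc4'⟩ := hi'
  dsimp only at hz hv hν hc1 hc2 hc3 hc4 hz' hv' hν' hc1' hc2' hc3' hc4' hD ⊢
  obtain ⟨hzp, hzZ, -, hzy⟩ := d.hSZ z hz
  obtain ⟨hzp', hzZ', -, hzy'⟩ := d.hSZ z' hz'
  obtain ⟨hwsq, hwW, -, hwy⟩ := d.hSW w hw
  obtain ⟨hlsq, hlL, -⟩ := d.hSL l hl
  have hW := d.hW1
  have hZ := d.hZ1
  have hL := d.hL1
  have hl0 : 0 < l := Nat.pos_of_ne_zero hlsq.ne_zero
  have hw0 : 0 < w := Nat.pos_of_ne_zero hwsq.ne_zero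
  have hz0 : 0 < z := hzp.pos
  have hz0' : 0 < z' := hzp'.pos
  have hzw0 : 0 < z * w := Nat.mul_pos hz0 hw0
  have hzw0' : 0 < z' * w := Nat.mul_pos hz0' hw0
  have hzw : z.Coprime w := d.cZW z hz w hw
  have hzw' : z'.Coprime w := d.cZW z' hz' w hw
  have hVge : ∀ v ∈ d.SV, d.Z * d.W ≤ (v : ℝ) := by
    intro v hv
    unfold SV at hv
    obtain ⟨a, ha, b, hb, rfl⟩ := Finset.mem_mul.1 hv
    push_cast
    exact mul_le_mul (d.hSZ a ha).2.1 (d.hSW b hb).2.1 (by linarith) (by positivity)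
  have hνN : ∀ ν : ℤ, ν ∈ Icc (-(d.N : ℤ)) d.N → |(ν : ℝ)| ≤ d.N := by
    intro ν hν
    rw [Finset.mem_Icc] at hν
    rw [abs_le]
    constructor
    · exact_mod_cast hν.1
    · exact_mod_cast hν.2
  have hjw : IsCoprime d.j (w : ℤ) := d.d6a_jcop w hwy
  have hjz : IsCoprime d.j (z : ℤ) := d.d6a_jcop z (fun p hp hpz => by
    rw [(Nat.prime_dvd_prime_iff_eq hp hzp).1 hpz]; exact hzy)
  have hjz' : IsCoprime d.j (z' : ℤ) := d.d6a_jcop z' (fun p hp hpz => by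
    rw [(Nat.prime_dvd_prime_iff_eq hp hzp').1 hpz]; exact hzy')
  -- coprimality of `v * l` with `z * w`
  have i1 : IsCoprime ((v : ℤ) * l) ((z * w : ℕ) : ℤ) := by
    have : (v * l).Coprime (z * w) :=
      Nat.Coprime.mul_left hc1 (Nat.Coprime.mul_right hc3.symm hwl.symm)
    exact_mod_cast Nat.isCoprime_iff_coprime.2 this
  have i1' : IsCoprime ((v' : ℤ) * l) ((z' * w : ℕ) : ℤ) := by
    have : (v' * l).Coprime (z' * w) :=
      Nat.Coprime.mul_left hc1' (Nat.Coprime.mul_right hc3'.symm hwl.symm)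
    exact_mod_cast Nat.isCoprime_iff_coprime.2 this
  have i2 : IsCoprime ((v * (z * w) : ℕ) : ℤ) (l : ℤ) :=
    Nat.isCoprime_iff_coprime.2 (Nat.Coprime.mul_left hc2 (Nat.Coprime.mul_left hc3 hwl))
  have i2' : IsCoprime ((v' * (z' * w) : ℕ) : ℤ) (l : ℤ) :=
    Nat.isCoprime_iff_coprime.2 (Nat.Coprime.mul_left hc2' (Nat.Coprime.mul_left hc3' hwl))
  obtain ⟨x, k1, hx⟩ := d6a_exists_inv _ _ i1
  obtain ⟨x', k2, hx'⟩ := d6a_exists_inv _ _ i1'
  obtain ⟨X, K1, hX⟩ := d6a_exists_inv _ _ i2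
  obtain ⟨X', K2, hX'⟩ := d6a_exists_inv _ _ i2'
  set D : ℤ := Dt (z, v, ν) (z', v', ν') with hDdef
  have hDe : D = ν * v' * z' - ν' * v * z := rfl
  have hwlz : IsCoprime (w : ℤ) (l : ℤ) := Nat.isCoprime_iff_coprime.2 hwl
  have hgA := d6a_gA l w (v * (z * w)) (v' * (z' * w)) ν ν' d.j D X X' K1 K2 hX hX'
    (by rw [hDe]; push_cast; ring) hwlz
  have hb : |(ν : ℝ) * d.j / ((l * (v * (z * w)) : ℕ) : ℝ) -
            (ν' : ℝ) * d.j / ((l * (v' * (z' * w)) : ℕ) : ℝ)| ≤ 2 := by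
    have b1 := d.d6a_b hN l v z w ν hlL.le (hVge v hv) hzZ hwW (hνN ν hν)
    have b2 := d.d6a_b hN l v' z' w ν' hlL.le (hVge v' hv') hzZ' hwW (hνN ν' hν')
    refine (abs_sub _ _).trans ?_
    linarith
  have hlge : ∀ m : ℕ, 0 < m → d.L ≤ ((l * m : ℕ) : ℝ) := by
    intro m hm
    have h1 : (l : ℝ) ≤ ((l * m : ℕ) : ℝ) := by exact_mod_cast Nat.le_mul_of_pos_right l hm
    linarith
  -- the gcds
  have pG1 : 0 < (d.j * D).natAbs.gcd l := d6a_gcd_pos _ _ hl0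
  have pG2 : 0 < (t * D).natAbs.gcd w := d6a_gcd_pos _ _ hw0
  have pG3 : 0 < t.natAbs.gcd z := d6a_gcd_pos _ _ hz0
  have pG4 : 0 < t.natAbs.gcd z' := d6a_gcd_pos _ _ hz0'
  have lA := Nat.le_of_dvd pG1 hgA
  have ltw : t.natAbs.gcd w ≤ (t * D).natAbs.gcd w := by
    apply Nat.le_of_dvd pG2
    apply Nat.gcd_dvd_gcd_of_dvd_left
    rw [Int.natAbs_mul]
    exact Nat.dvd_mul_right _ _
  by_cases hzz : z = z'
  · subst hzz
    have hm0 : 0 < z * w * 1 := by rw [mul_one]; exact hzw0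
    have hgBw := d6a_gBw z w z v v' l 1 1 z ν ν' d.j t D x x' k1 k2 hx hx' (mul_one z) (mul_one z)
      hDe hwlz.symm hjw
    have lBw := Nat.le_of_dvd pG2 hgBw
    refine ⟨z * w * 1, -(ν * d.j * X) + ν' * d.j * X',
      d.j * t * (-(ν * x * (1 : ℕ)) + ν' * x' * (1 : ℕ)),
      d.K * ν / ((v * (z * w) : ℕ) : ℝ), d.K * ν' / ((v' * (z * w) : ℕ) : ℝ),
      (ν : ℝ) * d.j / ((l * (v * (z * w)) : ℕ) : ℝ) -
        (ν' : ℝ) * d.j / ((l * (v' * (z * w)) : ℕ) : ℝ), ?_, ?_, hb, hlge _ hm0, ?_, ?_⟩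
    · rw [mul_one, Nat.squarefree_mul (Nat.Coprime.mul_right hc3.symm hwl.symm),
        Nat.squarefree_mul hzw]
      exact ⟨hlsq, hzp.prime.squarefree, hwsq⟩
    · push_cast
      have h1 : (1 : ℝ) ≤ z := by exact_mod_cast hz0
      have h2 : (0 : ℝ) ≤ (z : ℝ) * w := by positivity
      nlinarith
    · set A : ℤ := -(ν * d.j * X) + ν' * d.j * X' with hA
      set B : ℤ := d.j * t * (-(ν * x * (1 : ℕ)) + ν' * x' * (1 : ℕ)) with hBdef
      set G1 : ℕ := (d.j * D).natAbs.gcd l with hG1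
      set G2 : ℕ := (t * D).natAbs.gcd w with hG2
      set G3 : ℕ := t.natAbs.gcd z with hG3
      have eB : B.natAbs.gcd (z * w * 1) ≤ z * G2 := by
        rw [mul_one, Nat.Coprime.gcd_mul _ hzw]
        exact Nat.mul_le_mul (Nat.gcd_le_right _ hz0) lBw
      have et : t.natAbs.gcd (z * w * 1) ≤ G3 * G2 := by
        rw [mul_one, Nat.Coprime.gcd_mul _ hzw]
        exact Nat.mul_le_mul le_rfl ltw
      have f1 : √((A.natAbs.gcd l : ℕ) : ℝ) ≤ G1 :=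
        (Real.sqrt_le_sqrt (by exact_mod_cast lA)).trans (d6a_sqrt_le G1)
      have f2 : √((B.natAbs.gcd (z * w * 1) : ℕ) : ℝ) ≤ √(z : ℝ) * √(G2 : ℝ) := by
        rw [← Real.sqrt_mul (Nat.cast_nonneg z)]
        exact Real.sqrt_le_sqrt (by exact_mod_cast eB)
      have f3 : √((t.natAbs.gcd (z * w * 1) : ℕ) : ℝ) ≤ G3 * √(G2 : ℝ) := by
        have h1 : √((t.natAbs.gcd (z * w * 1) : ℕ) : ℝ) ≤ √(G3 : ℝ) * √(G2 : ℝ) := by
          rw [← Real.sqrt_mul (Nat.cast_nonneg G3)]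
          exact Real.sqrt_le_sqrt (by exact_mod_cast et)
        exact h1.trans (mul_le_mul_of_nonneg_right (d6a_sqrt_le G3) (Real.sqrt_nonneg _))
      have f4 : √((l : ℝ) * w * z * z) = √((l * (z * w * 1) : ℕ) : ℝ) * √(z : ℝ) := by
        rw [← Real.sqrt_mul (Nat.cast_nonneg _)]
        congr 1
        push_cast
        ring
      have f5 : √(G2 : ℝ) * √(G2 : ℝ) = G2 := Real.mul_self_sqrt (Nat.cast_nonneg _)
      have g3 : (1 : ℝ) ≤ G3 := by exact_mod_cast pG3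
      rw [f4]
      calc √((l * (z * w * 1) : ℕ) : ℝ) * √((A.natAbs.gcd l : ℕ) : ℝ) *
            (√((B.natAbs.gcd (z * w * 1) : ℕ) : ℝ) * √((t.natAbs.gcd (z * w * 1) : ℕ) : ℝ))
          ≤ √((l * (z * w * 1) : ℕ) : ℝ) * G1 *
            ((√(z : ℝ) * √(G2 : ℝ)) * (G3 * √(G2 : ℝ))) := by
            apply mul_le_mul
            · exact mul_le_mul_of_nonneg_left f1 (Real.sqrt_nonneg _)
            · exact mul_le_mul f2 f3 (Real.sqrt_nonneg _) (by positivity)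
            · positivity
            · positivity
        _ = √((l * (z * w * 1) : ℕ) : ℝ) * √(z : ℝ) * (G1 * G2 * G3 * 1) := by
            linear_combination (√((l * (z * w * 1) : ℕ) : ℝ) * G1 * √(z : ℝ) * G3) * f5
        _ ≤ √((l * (z * w * 1) : ℕ) : ℝ) * √(z : ℝ) * (G1 * G2 * G3 * G3) := by
            apply mul_le_mul_of_nonneg_left _ (by positivity)
            exact mul_le_mul_of_nonneg_left g3 (by positivity)
    · intro u
      exact d.d6a_assemble wh t w l z v z v' 1 1 (z * w * 1) ν ν' hl0 hzw0 hzw0' hm0 rfl rfl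
        x x' k1 k2 X X' K1 K2 hx hx' hX hX' (fun c => by
          push_cast
          rw [mul_one, IsCoprime.mul_right_iff]
          tauto) u
  · have hzz' : z.Coprime z' := (Nat.coprime_primes hzp hzp').2 hzz
    have hzzI : IsCoprime (z : ℤ) (z' : ℤ) := Nat.isCoprime_iff_coprime.2 hzz'
    have hm0 : 0 < z * w * z' := Nat.mul_pos hzw0 hz0'
    have hνz : IsCoprime ν (z : ℤ) := by
      apply IsCoprime.of_isCoprime_of_dvd_right hc4
      push_cast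
      exact ⟨v * w, by ring⟩
    have hνz' : IsCoprime ν' (z' : ℤ) := by
      apply IsCoprime.of_isCoprime_of_dvd_right hc4'
      push_cast
      exact ⟨v' * w, by ring⟩
    have hgBw := d6a_gBw z w z' v v' l z' z 1 ν ν' d.j t D x x' k1 k2 hx hx' (one_mul z')
      (one_mul z) hDe hwlz.symm hjw
    have lBw := Nat.le_of_dvd pG2 hgBw
    have hgBz := d6a_gBz z w z' v l z' z ν ν' d.j t x x' k1 hx rfl rfl hνz hjz hzzI.symm
    have lBz := Nat.le_of_dvd pG3 hgBz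
    have hgBz' := d6a_gBz z' w z v' l z z' ν' ν d.j t x' x k2 hx' rfl rfl hνz' hjz' hzzI
    have eneg : d.j * t * (-(ν' * x' * z) + ν * x * z')
        = -(d.j * t * (-(ν * x * z') + ν' * x' * z)) := by ring
    rw [eneg, Int.natAbs_neg] at hgBz'
    have lBz' := Nat.le_of_dvd pG4 hgBz'
    have hc12 : (z * w).Coprime z' := Nat.Coprime.mul_left hzz' hzw'.symm
    refine ⟨z * w * z', -(ν * d.j * X) + ν' * d.j * X',
      d.j * t * (-(ν * x * z') + ν' * x' * z),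
      d.K * ν / ((v * (z * w) : ℕ) : ℝ), d.K * ν' / ((v' * (z' * w) : ℕ) : ℝ),
      (ν : ℝ) * d.j / ((l * (v * (z * w)) : ℕ) : ℝ) -
        (ν' : ℝ) * d.j / ((l * (v' * (z' * w)) : ℕ) : ℝ), ?_, ?_, hb, hlge _ hm0, ?_, ?_⟩
    · have hcl : l.Coprime (z * w * z') :=
        Nat.Coprime.mul_right (Nat.Coprime.mul_right hc3.symm hwl.symm) hc3'.symm
      rw [Nat.squarefree_mul hcl, Nat.squarefree_mul hc12, Nat.squarefree_mul hzw]
      exact ⟨hlsq, ⟨hzp.prime.squarefree, hwsq⟩, hzp'.prime.squarefree⟩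
    · push_cast
      apply le_of_eq
      ring
    · set A : ℤ := -(ν * d.j * X) + ν' * d.j * X' with hA
      set B : ℤ := d.j * t * (-(ν * x * z') + ν' * x' * z) with hBdef
      set G1 : ℕ := (d.j * D).natAbs.gcd l with hG1
      set G2 : ℕ := (t * D).natAbs.gcd w with hG2
      set G3 : ℕ := t.natAbs.gcd z with hG3
      set G4 : ℕ := t.natAbs.gcd z' with hG4
      have eB : B.natAbs.gcd (z * w * z') ≤ G3 * G2 * G4 := by
        rw [Nat.Coprime.gcd_mul _ hc12, Nat.Coprime.gcd_mul _ hzw]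
        exact Nat.mul_le_mul (Nat.mul_le_mul lBz lBw) lBz'
      have et : t.natAbs.gcd (z * w * z') ≤ G3 * G2 * G4 := by
        rw [Nat.Coprime.gcd_mul _ hc12, Nat.Coprime.gcd_mul _ hzw]
        exact Nat.mul_le_mul (Nat.mul_le_mul le_rfl ltw) le_rfl
      have f1 : √((A.natAbs.gcd l : ℕ) : ℝ) ≤ G1 :=
        (Real.sqrt_le_sqrt (by exact_mod_cast lA)).trans (d6a_sqrt_le G1)
      have f2 : √((B.natAbs.gcd (z * w * z') : ℕ) : ℝ) ≤ √((G3 * G2 * G4 : ℕ) : ℝ) :=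
        Real.sqrt_le_sqrt (by exact_mod_cast eB)
      have f3 : √((t.natAbs.gcd (z * w * z') : ℕ) : ℝ) ≤ √((G3 * G2 * G4 : ℕ) : ℝ) :=
        Real.sqrt_le_sqrt (by exact_mod_cast et)
      have f4 : √((l : ℝ) * w * z * z') = √((l * (z * w * z') : ℕ) : ℝ) := by
        congr 1
        push_cast
        ring
      have f5 : √((G3 * G2 * G4 : ℕ) : ℝ) * √((G3 * G2 * G4 : ℕ) : ℝ) = ((G3 * G2 * G4 : ℕ) : ℝ) :=
        Real.mul_self_sqrt (Nat.cast_nonneg _)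
      rw [f4]
      calc √((l * (z * w * z') : ℕ) : ℝ) * √((A.natAbs.gcd l : ℕ) : ℝ) *
            (√((B.natAbs.gcd (z * w * z') : ℕ) : ℝ) * √((t.natAbs.gcd (z * w * z') : ℕ) : ℝ))
          ≤ √((l * (z * w * z') : ℕ) : ℝ) * G1 *
            (√((G3 * G2 * G4 : ℕ) : ℝ) * √((G3 * G2 * G4 : ℕ) : ℝ)) := by
            apply mul_le_mul
            · exact mul_le_mul_of_nonneg_left f1 (Real.sqrt_nonneg _)
            · exact mul_le_mul f2 f3 (Real.sqrt_nonneg _) (Real.sqrt_nonneg _)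
            · positivity
            · positivity
        _ = √((l * (z * w * z') : ℕ) : ℝ) * (G1 * G2 * G3 * G4) := by
            rw [f5]
            push_cast
            ring
    · intro u
      exact d.d6a_assemble wh t w l z v z' v' z' z (z * w * z') ν ν' hl0 hzw0 hzw0' hm0 rfl
        (by ring) x x' k1 k2 X X' K1 K2 hx hx' hX hX' (fun c => by
          push_cast
          rw [IsCoprime.mul_right_iff, IsCoprime.mul_right_iff]
          tauto) u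

end DD

end Pool.Agent.Lib.MP_2a816b_nt.BH
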