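import Pool.Agent.Lib.MP_2a816b_nt.BH.D6a

/-!
# JOB D6b: variation of the smooth factor, and the pair sums

`omega_var`: `|x y z - x' y' z'| ≤ |x - x'| + ...`: with `|wh| ≤ C`, `|e| = 1` the variation is at most `C V(wh(a/·)) + C V(wh(a'/·)) + C ^ 2 V(e(b/·))`;
`Wt.var` gives `C` for the first two, and `‖e(x) - e(y)‖ ≤ 2 π |x - y|`, `∑_u |b / u - b / (u + 1)| ≤ |b|` (telescoping, `u ≥ 1`) gives `2 π |b| ≤ 4 π ≤ 13`.
(`C ≥ 1`.)

`pair_ne`: `pair_form` and `kl_incomplete` with the interval `(⌈U⌉ - 1, ⌊T U⌋]`; `T U ≤ T (l m)` since `U ≤ L ≤ l m`; `l m ≤ M` since `l m ≤ T L · T W · T Z · T Z`.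
-/

set_option autoImplicit false

open Finset Real
open scoped Pointwise

namespace Pool.Agent.Lib.MP_2a816b_nt.BH

lemma norm_omega_le {w wh : ℝ → ℝ} {C : ℝ} {CA : ℕ → ℝ} (hw : Wt w wh C CA) (a a' b : ℝ) (u : ℕ) :
    ‖omega wh a a' b u‖ ≤ C ^ 2 := by
  have hC : 0 ≤ C := by linarith [hw.C1]
  unfold omega
  rw [norm_mul, norm_mul, norm_e, mul_one, Complex.norm_real, Complex.norm_real,
    Real.norm_eq_abs, Real.norm_eq_abs, pow_two]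
  exact mul_le_mul (hw.wh_le _) (hw.wh_le _) (abs_nonneg _) hC

private lemma D6b_e_sub (x y : ℝ) : ‖e x - e y‖ ≤ 2 * π * |x - y| := by
  have h1 : e x - e y = e y * (e (x - y) - 1) := by
    rw [mul_sub, ← e_add, mul_one]
    congr 2
    ring
  rw [h1, norm_mul, norm_e, one_mul, norm_e_sub_one]
  have h2 : |sin (π * (x - y))| ≤ |π * (x - y)| := Real.abs_sin_le_abs
  rw [abs_mul, abs_of_pos Real.pi_pos] at h2
  linarith

private lemma D6b_tri (C : ℝ) (hC : 0 ≤ C) (x y x' y' : ℝ) (z z' : ℂ) (hy : |y| ≤ C)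
    (hx' : |x'| ≤ C) (hy' : |y'| ≤ C) (hz : ‖z‖ = 1) :
    ‖(x : ℂ) * y * z - (x' : ℂ) * y' * z'‖ ≤ C * |x - x'| + C * |y - y'| + C ^ 2 * ‖z - z'‖ := by
  have h1 : (x : ℂ) * y * z - (x' : ℂ) * y' * z' =
      ((x - x' : ℝ) : ℂ) * (y : ℂ) * z + (x' : ℂ) * ((y - y' : ℝ) : ℂ) * z +
        (x' : ℂ) * (y' : ℂ) * (z - z') := by
    push_cast; ring
  rw [h1]
  have n1 : ‖((x - x' : ℝ) : ℂ) * (y : ℂ) * z‖ ≤ C * |x - x'| := by
    rw [norm_mul, norm_mul, hz, mul_one, Complex.norm_real, Complex.norm_real,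
      Real.norm_eq_abs, Real.norm_eq_abs, mul_comm]
    exact mul_le_mul_of_nonneg_right hy (abs_nonneg _)
  have n2 : ‖(x' : ℂ) * ((y - y' : ℝ) : ℂ) * z‖ ≤ C * |y - y'| := by
    rw [norm_mul, norm_mul, hz, mul_one, Complex.norm_real, Complex.norm_real,
      Real.norm_eq_abs, Real.norm_eq_abs]
    exact mul_le_mul_of_nonneg_right hx' (abs_nonneg _)
  have n3 : ‖(x' : ℂ) * (y' : ℂ) * (z - z')‖ ≤ C ^ 2 * ‖z - z'‖ := by
    rw [norm_mul, norm_mul, Complex.norm_real, Complex.norm_real,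
      Real.norm_eq_abs, Real.norm_eq_abs, pow_two]
    exact mul_le_mul_of_nonneg_right (mul_le_mul hx' hy' (abs_nonneg _) hC) (norm_nonneg _)
  exact (norm_add₃_le).trans (by linarith)

lemma omega_var {w wh : ℝ → ℝ} {C : ℝ} {CA : ℕ → ℝ} (hw : Wt w wh C CA) (a a' b : ℝ) (hb : |b| ≤ 2)
    (U₁ U₂ : ℕ) (h0 : 0 < U₁) :
    ∑ u ∈ Ico U₁ U₂, ‖omega wh a a' b (u + 1) - omega wh a a' b u‖ ≤ 15 * C ^ 2 := by
  have hC1 := hw.C1
  have hC : 0 ≤ C := by linarith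
  rcases le_total U₂ U₁ with hle | hle
  · rw [Ico_eq_empty_of_le hle, sum_empty]
    positivity
  have h1 : ∀ u ∈ Ico U₁ U₂, ‖omega wh a a' b (u + 1) - omega wh a a' b u‖ ≤
      C * |wh (a / ((u : ℝ) + 1)) - wh (a / u)| + C * |wh (a' / ((u : ℝ) + 1)) - wh (a' / u)| +
        C ^ 2 * (2 * π * (|b| * (1 / (u : ℝ) - 1 / ((u : ℝ) + 1)))) := by
    intro u hu
    have hu0 : (0 : ℝ) < u := by
      have := (Finset.mem_Ico.mp hu).1
      exact_mod_cast (lt_of_lt_of_le h0 this)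
    unfold omega
    refine (D6b_tri C hC _ _ _ _ _ _ (hw.wh_le _) (hw.wh_le _) (hw.wh_le _) (norm_e _)).trans ?_
    have h2 : ‖e (b / ((u + 1 : ℕ) : ℝ)) - e (b / u)‖ ≤
        2 * π * (|b| * (1 / (u : ℝ) - 1 / ((u : ℝ) + 1))) := by
      refine (D6b_e_sub _ _).trans (le_of_eq ?_)
      congr 1
      have h3 : b / ((u + 1 : ℕ) : ℝ) - b / u = b * (1 / ((u : ℝ) + 1) - 1 / (u : ℝ)) := by
        push_cast; ring
      rw [h3, abs_mul]
      congr 1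
      rw [abs_sub_comm, abs_of_nonneg]
      have : 1 / ((u : ℝ) + 1) ≤ 1 / (u : ℝ) := one_div_le_one_div_of_le hu0 (by linarith)
      linarith
    have h3 := mul_le_mul_of_nonneg_left h2 (by positivity : (0 : ℝ) ≤ C ^ 2)
    push_cast at h3 ⊢
    linarith
  refine (Finset.sum_le_sum h1).trans ?_
  rw [sum_add_distrib, sum_add_distrib, ← mul_sum, ← mul_sum, ← mul_sum, ← mul_sum, ← mul_sum]
  have v1 := hw.var a U₁ U₂ h0 hle
  have v2 := hw.var a' U₁ U₂ h0 hle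
  have v3 : ∑ u ∈ Ico U₁ U₂, (1 / (u : ℝ) - 1 / ((u : ℝ) + 1)) ≤ 1 := by
    have ht : ∑ u ∈ Ico U₁ U₂, (1 / (u : ℝ) - 1 / ((u : ℝ) + 1)) = 1 / (U₁ : ℝ) - 1 / (U₂ : ℝ) := by
      have := Finset.sum_Ico_sub (f := fun u : ℕ => -(1 / (u : ℝ))) hle
      rw [← sum_congr rfl (fun u _ => show -(1 / ((u + 1 : ℕ) : ℝ)) - -(1 / (u : ℝ)) =
        1 / (u : ℝ) - 1 / ((u : ℝ) + 1) by push_cast; ring), this]
      ring
    rw [ht]
    have hU1 : (1 : ℝ) ≤ U₁ := by exact_mod_cast h0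
    have e1 : 1 / (U₁ : ℝ) ≤ 1 := by rw [div_le_one (by linarith)]; exact hU1
    have e2 : 0 ≤ 1 / (U₂ : ℝ) := by positivity
    linarith
  have v30 : 0 ≤ ∑ u ∈ Ico U₁ U₂, (1 / (u : ℝ) - 1 / ((u : ℝ) + 1)) := by
    refine sum_nonneg fun u hu => ?_
    have hu0 : (0 : ℝ) < u := by
      have := (Finset.mem_Ico.mp hu).1
      exact_mod_cast (lt_of_lt_of_le h0 this)
    have : 1 / ((u : ℝ) + 1) ≤ 1 / (u : ℝ) := one_div_le_one_div_of_le hu0 (by linarith)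
    linarith
  have v4 : 2 * π * (|b| * ∑ u ∈ Ico U₁ U₂, (1 / (u : ℝ) - 1 / ((u : ℝ) + 1))) ≤ 13 := by
    have hpi : π ≤ 3.15 := Real.pi_lt_d2.le
    have hpi0 := Real.pi_pos
    have e1 : |b| * ∑ u ∈ Ico U₁ U₂, (1 / (u : ℝ) - 1 / ((u : ℝ) + 1)) ≤ 2 * 1 :=
      mul_le_mul hb v3 v30 (by norm_num)
    calc 2 * π * (|b| * ∑ u ∈ Ico U₁ U₂, (1 / (u : ℝ) - 1 / ((u : ℝ) + 1)))
        ≤ 2 * 3.15 * (2 * 1) := by
          refine mul_le_mul (by linarith) e1 (mul_nonneg (abs_nonneg _) v30) (by norm_num)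
      _ ≤ 13 := by norm_num
  have w1 := mul_le_mul_of_nonneg_left v1 hC
  have w2 := mul_le_mul_of_nonneg_left v2 hC
  have w3 := mul_le_mul_of_nonneg_left v4 (by positivity : (0 : ℝ) ≤ C ^ 2)
  nlinarith [w1, w2, w3]

private lemma D6b_norm_ee (q : ℕ) (x : ZMod q) : ‖ee q x‖ = 1 := norm_e _

namespace DD

variable {M : ℕ} {T : ℝ} (d : DD M T)

open Classical in
/-- the sum over `u` for a pair of indices -/
noncomputable def pairSum (wh : ℝ → ℝ) (t : ℤ) (w l : ℕ) (i i' : ℕ × ℕ × ℤ) : ℂ :=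
  ∑ u ∈ (d.SUU t w l).filter (fun u : ℕ => IsCoprime ((l : ℤ) + u * t) (i.1 : ℤ) ∧
      IsCoprime ((l : ℤ) + u * t) (i'.1 : ℤ)),
    d.ph wh t w l i.1 i.2.1 i.2.2 u * (starRingEnd ℂ) (d.ph wh t w l i'.1 i'.2.1 i'.2.2 u)

private lemma D6b_norm_ph {w₀ wh : ℝ → ℝ} {C : ℝ} {CA : ℕ → ℝ} (hW : Wt w₀ wh C CA) (t : ℤ)
    (w l z v : ℕ) (ν : ℤ) (u : ℕ) : ‖d.ph wh t w l z v ν u‖ ≤ C := by
  unfold ph
  rw [norm_mul, norm_mul, norm_mul, norm_e, D6b_norm_ee, D6b_norm_ee, mul_one, mul_one, mul_one,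
    Complex.norm_real, Real.norm_eq_abs]
  exact hW.wh_le _

/-- trivial bound: at most `T U` terms of modulus at most `C ^ 2` -/
theorem pair_trivial {w₀ wh : ℝ → ℝ} {C : ℝ} {CA : ℕ → ℝ} (hW : Wt w₀ wh C CA) (t : ℤ)
    (w l : ℕ) (i i' : ℕ × ℕ × ℤ) : ‖d.pairSum wh t w l i i'‖ ≤ C ^ 2 * (T * d.U) := by
  classical
  have hC : 0 ≤ C := by linarith [hW.C1]
  have hT : 100 ≤ T := d.hB.one
  have hU := d.hU1
  unfold pairSum
  refine (norm_sum_le _ _).trans ?_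
  refine (Finset.sum_le_card_nsmul _ _ (C ^ 2) (fun u _ => ?_)).trans ?_
  · rw [norm_mul, RCLike.norm_conj, pow_two]
    exact mul_le_mul (d.D6b_norm_ph hW _ _ _ _ _ _ _) (d.D6b_norm_ph hW _ _ _ _ _ _ _)
      (norm_nonneg _) hC
  · rw [nsmul_eq_mul, mul_comm]
    refine mul_le_mul_of_nonneg_left ?_ (by positivity)
    have h1 : #((d.SUU t w l).filter (fun u : ℕ => IsCoprime ((l : ℤ) + u * t) (i.1 : ℤ) ∧
      IsCoprime ((l : ℤ) + u * t) (i'.1 : ℤ))) ≤ ⌊T * d.U⌋₊ := by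
      refine (card_filter_le _ _).trans ?_
      unfold SUU
      refine (card_filter_le _ _).trans ?_
      rw [Nat.card_Ioc]
      omega
    have h2 : ((⌊T * d.U⌋₊ : ℕ) : ℝ) ≤ T * d.U := Nat.floor_le (by positivity)
    exact (by exact_mod_cast h1 : ((_ : ℕ) : ℝ) ≤ ((⌊T * d.U⌋₊ : ℕ) : ℝ)).trans h2

theorem pair_ne {w₀ wh : ℝ → ℝ} {C : ℝ} {CA : ℕ → ℝ} (hW : Wt w₀ wh C CA)
    (hN : (d.N : ℝ) ≤ d.W * d.Z ^ 2) (hUL : d.U ≤ d.L) (t : ℤ) (ht : t ∈ d.ST)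
    (w l : ℕ) (hw : w ∈ d.SW) (hl : l ∈ d.SL) (hwl : w.Coprime l) (i i' : ℕ × ℕ × ℤ)
    (hi : i ∈ d.SI w l) (hi' : i' ∈ d.SI w l) (hD : Dt i i' ≠ 0) :
    ‖d.pairSum wh t w l i i'‖ ≤ 32 * C ^ 2 * T ^ 2 *
      (√((l : ℝ) * w * i.1 * i'.1) * ((((d.j * Dt i i').natAbs.gcd l : ℕ) : ℝ) *
        (((t * Dt i i').natAbs.gcd w : ℕ) : ℝ) *
        ((t.natAbs.gcd i.1 : ℕ) : ℝ) * ((t.natAbs.gcd i'.1 : ℕ) : ℝ))) := by
  classical
  obtain ⟨m, A, B, a, a', b, hsq, hm, hb, hLlm, hbound, hphase⟩ :=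
    d.pair_form wh hN t ht w l hw hl hwl i i' hi hi' hD
  have hC1 := hW.C1
  have hT : 100 ≤ T := d.hB.one
  have hU := d.hU1
  have hW1 := d.hW1
  have hZ1 := d.hZ1
  have hL1 := d.hL1
  have hK1 := d.hK1
  have hN1 : (1 : ℝ) ≤ d.N := by exact_mod_cast d.hN1
  have hM := d.hM
  -- rewrite the sum
  have hsum : d.pairSum wh t w l i i' =
      ∑ u ∈ Ioc (⌈d.U⌉₊ - 1) ⌊T * d.U⌋₊, omega wh a a' b u * kl l m t A B (u : ℤ) := by
    unfold pairSum SUU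
    rw [filter_filter, sum_filter]
    refine sum_congr rfl fun u _ => ?_
    obtain ⟨h1, h2⟩ := hphase u
    split_ifs with hc
    · exact h1 ⟨hc.1.1, hc.1.2, hc.2.1, hc.2.2⟩
    · rw [h2 (fun h => hc ⟨⟨h.1, h.2.1⟩, h.2.2.1, h.2.2.2⟩), mul_zero]
  have hTU : 0 ≤ T * d.U := by positivity
  have hab : ⌈d.U⌉₊ - 1 ≤ ⌊T * d.U⌋₊ := by
    apply Nat.le_floor
    have h1 : ((⌈d.U⌉₊ : ℕ) : ℝ) < d.U + 1 := Nat.ceil_lt_add_one (by linarith)
    have h2 : 1 ≤ ⌈d.U⌉₊ := Nat.one_le_ceil_iff.2 (by linarith)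
    rw [Nat.cast_sub h2, Nat.cast_one]
    nlinarith
  have hfl : ((⌊T * d.U⌋₊ : ℕ) : ℝ) ≤ T * d.U := Nat.floor_le hTU
  -- the product is large
  set P : ℝ := d.U * d.W * d.Z * d.L * d.K * d.N with hP
  have hP1 : 1 ≤ P := by
    rw [hP]
    have h1 : 1 ≤ d.U * d.W := one_le_mul_of_one_le_of_one_le hU hW1
    have h2 : 1 ≤ d.U * d.W * d.Z := one_le_mul_of_one_le_of_one_le h1 hZ1
    have h3 : 1 ≤ d.U * d.W * d.Z * d.L := one_le_mul_of_one_le_of_one_le h2 hL1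
    have h4 : 1 ≤ d.U * d.W * d.Z * d.L * d.K := one_le_mul_of_one_le_of_one_le h3 hK1
    exact one_le_mul_of_one_le_of_one_le h4 hN1
  have hbM : ⌊T * d.U⌋₊ ≤ M := by
    have h1 : T * d.U ≤ (M : ℝ) := by
      refine le_trans ?_ hM
      have h2 : T ≤ T ^ 20 := le_self_pow₀ (by linarith) (by norm_num)
      have h3 : d.U ≤ P := by
        have e1 : 1 ≤ d.W * d.Z * d.L * d.K * d.N := by
          have h2 : 1 ≤ d.W * d.Z := one_le_mul_of_one_le_of_one_le hW1 hZ1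
          have h3 : 1 ≤ d.W * d.Z * d.L := one_le_mul_of_one_le_of_one_le h2 hL1
          have h4 : 1 ≤ d.W * d.Z * d.L * d.K := one_le_mul_of_one_le_of_one_le h3 hK1
          exact one_le_mul_of_one_le_of_one_le h4 hN1
        have e2 : P = d.U * (d.W * d.Z * d.L * d.K * d.N) := by rw [hP]; ring
        rw [e2]
        exact le_mul_of_one_le_right (by linarith) e1
      have h4 : P ≤ P ^ 2 := le_self_pow₀ hP1 (by norm_num)
      exact mul_le_mul h2 (h3.trans h4) (by linarith) (by positivity)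
    exact_mod_cast hfl.trans h1
  obtain ⟨_, hw2, hw3, _⟩ := d.hSW w hw
  obtain ⟨_, hl2, hl3⟩ := d.hSL l hl
  have hz : i.1 ∈ d.SZ := by
    have h1 := (mem_filter.1 (by unfold SI at hi; exact hi)).1
    exact (mem_product.1 h1).1
  have hz' : i'.1 ∈ d.SZ := by
    have h1 := (mem_filter.1 (by unfold SI at hi'; exact hi')).1
    exact (mem_product.1 h1).1
  obtain ⟨_, hz2, hz3, _⟩ := d.hSZ i.1 hz
  obtain ⟨_, hz2', hz3', _⟩ := d.hSZ i'.1 hz'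
  have hlmM : l * m ≤ M := by
    have h1 : ((l * m : ℕ) : ℝ) ≤ (M : ℝ) := by
      refine le_trans ?_ hM
      push_cast
      have h2 : (m : ℝ) ≤ (T * d.W) * (T * d.Z) * (T * d.Z) := by
        refine hm.trans ?_
        gcongr
      have h3 : (l : ℝ) * m ≤ (T * d.L) * ((T * d.W) * (T * d.Z) * (T * d.Z)) := by
        gcongr
      refine h3.trans ?_
      have h4 : (T * d.L) * ((T * d.W) * (T * d.Z) * (T * d.Z)) = T ^ 4 * (d.L * d.W * d.Z ^ 2) := by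
        ring
      rw [h4]
      have h5 : T ^ 4 ≤ T ^ 20 := pow_le_pow_right₀ (by linarith) (by norm_num)
      have h6 : d.L * d.W * d.Z ^ 2 ≤ P ^ 2 := by
        have e1 : P ^ 2 = (d.L * d.W * d.Z ^ 2) * (d.L * d.W * (d.U * d.K * d.N) ^ 2) := by
          rw [hP]; ring
        have e2 : 1 ≤ d.U * d.K * d.N :=
          one_le_mul_of_one_le_of_one_le (one_le_mul_of_one_le_of_one_le hU hK1) hN1
        have e3 : 1 ≤ d.L * d.W * (d.U * d.K * d.N) ^ 2 :=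
          one_le_mul_of_one_le_of_one_le (one_le_mul_of_one_le_of_one_le hL1 hW1)
            (one_le_pow₀ e2)
        rw [e1]
        exact le_mul_of_one_le_right (by positivity) e3
      exact mul_le_mul h5 h6 (by positivity) (by positivity)
    exact_mod_cast h1
  have hbm : ((⌊T * d.U⌋₊ : ℕ) : ℝ) - ((⌈d.U⌉₊ - 1 : ℕ) : ℝ) ≤ T * (l * m : ℕ) := by
    have h1 : (0 : ℝ) ≤ ((⌈d.U⌉₊ - 1 : ℕ) : ℝ) := by positivity
    have h2 : T * d.U ≤ T * ((l * m : ℕ) : ℝ) :=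
      mul_le_mul_of_nonneg_left (hUL.trans hLlm) (by linarith)
    linarith
  have hk := kl_incomplete d.hB l m hsq hlmM t A B (⌈d.U⌉₊ - 1) ⌊T * d.U⌋₊ hab hbM hbm
    (omega wh a a' b) (C ^ 2) (15 * C ^ 2) (fun u => norm_omega_le hW a a' b u)
    (omega_var hW a a' b hb _ _ (Nat.succ_pos _))
  rw [hsum]
  refine hk.trans ?_
  have h1 : (C ^ 2 + 15 * C ^ 2) * (2 * T ^ 2 * √(l * m : ℕ) * √(A.natAbs.gcd l : ℝ) *
        (√(B.natAbs.gcd m : ℝ) * √(t.natAbs.gcd m : ℝ))) =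
      32 * C ^ 2 * T ^ 2 * (√(l * m : ℕ) * √(A.natAbs.gcd l : ℝ) *
        (√(B.natAbs.gcd m : ℝ) * √(t.natAbs.gcd m : ℝ))) := by ring
  rw [h1]
  exact mul_le_mul_of_nonneg_left hbound (by positivity)

end DD

end Pool.Agent.Lib.MP_2a816b_nt.BH
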