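import Pool.Agent.Lib.MP_2a816b_nt.BH.D6b

/-!
# JOB D6c: the bound for `R`

Expand: `R = ∑_{t, w, l} ∑_{i, i' ∈ SI w l} (bq z bq v) (bq z' bq v') pairSum(i, i')`, so `R ≤ ∑ |bq z bq v bq z' bq v'| ‖pairSum(i, i')‖`. Here `|bq z bq v| ≤ T ^ 2 / (W Z ^ 2)` for
`z ∈ SZ`, `v ∈ SV` (`abs_bq`, `div_totient_le`, `z ≥ Z`, `v ≥ W Z`). `ν ≠ 0` in `SI` because `IsCoprime ν (v z w)` and `v z w > 1`. Sizes: `#SV ≤ T ^ 2 W Z`, `#SZ ≤ T Z`,
`#SW ≤ T W`, `#SL ≤ T L`, `#ST ≤ 2 T L / U`, at most `2 N` values `ν`.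

`D = 0` (`count_zero`): `ν v' z' = ν' v z = n ≠ 0`; given `(ν, v', z')`, `z` and `v` are divisors of `|n| ≤ N T ^ 3 W Z ^ 2 ≤ M` and `ν'` is determined: at most `T ^ 2` possibilities. So at most
`2 N (T ^ 2 W Z) (T Z) T ^ 2` pairs, each contributing at most `(T ^ 2 / (W Z ^ 2)) ^ 2 C ^ 2 T U`, for at most `(2 T L / U) (T W) (T L)` triples `(t, w, l)`:
total `≤ 4 C ^ 2 T ^ 13 L ^ 2 W (N / (W Z ^ 2))`.

`D ≠ 0`: by `pair_ne` and `l w z z' ≤ T ^ 4 L W Z ^ 2` the contribution is at most (extending the sums over `i, i'` to all `(z, v, ν)`, `ν ≠ 0`, and interchanging)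
`(T ^ 2 / (W Z ^ 2)) ^ 2 32 C ^ 2 T ^ 2 T ^ 2 √(L W) Z ∑_t ∑_{i, i'} gcd(t, z) gcd(t, z') (∑_{l ≤ T L} gcd(j D, l)) (∑_{w ≤ T W} gcd(t D, w))`, and by `sum_gcd_le` the last sums are
`≤ T ^ 2 L`, `≤ T ^ 2 W` (`|j D|, |t D| ≤ M`), and `∑_{z ≤ T Z} gcd(t, z) ≤ T ^ 2 Z`: total `≤ 256 C ^ 2 T ^ 21 L ^ 2 W (N ^ 2 √(L W) Z / U)`.
All size conditions follow from `hM`.
-/

set_option autoImplicit false

open Finset Real
open scoped Pointwise

namespace Pool.Agent.Lib.MP_2a816b_nt.BH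

namespace DD

variable {M : ℕ} {T : ℝ} (d : DD M T)

private lemma sq_ge {x : ℝ} (hx : 1 ≤ x) : x ≤ x ^ 2 := by nlinarith

/-- the numeric size condition -/
private lemma keyM : 2 * T ^ 4 * (d.L * d.N * d.W * d.Z ^ 2) ≤ (M : ℝ) := by
  have hT : 100 ≤ T := d.hB.one
  have hN : (1 : ℝ) ≤ d.N := by exact_mod_cast d.hN1
  have hU := d.hU1
  have hW := d.hW1
  have hZ := d.hZ1
  have hL := d.hL1
  have hK := d.hK1
  have hT0 : 0 < T := by linarith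
  have h1 : 2 * T ^ 4 ≤ T ^ 20 := by
    calc 2 * T ^ 4 ≤ T * T ^ 4 := by gcongr; linarith
      _ = T ^ 5 := by ring
      _ ≤ T ^ 20 := pow_le_pow_right₀ (by linarith) (by norm_num)
  have h2 : d.L * d.N * d.W * d.Z ^ 2 ≤ (d.U * d.W * d.Z * d.L * d.K * d.N) ^ 2 := by
    have e1 : (d.U * d.W * d.Z * d.L * d.K * d.N) ^ 2 =
        (d.L ^ 2 * d.N ^ 2 * d.W ^ 2 * d.Z ^ 2) * (d.U ^ 2 * d.K ^ 2) := by ring
    have e2 : d.L * d.N * d.W * d.Z ^ 2 ≤ d.L ^ 2 * d.N ^ 2 * d.W ^ 2 * d.Z ^ 2 := by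
      have := sq_ge hL
      have := sq_ge hN
      have := sq_ge hW
      gcongr
    have e3 : 1 ≤ d.U ^ 2 * d.K ^ 2 := by
      have a1 : 1 ≤ d.U ^ 2 := one_le_pow₀ hU
      have a2 : 1 ≤ d.K ^ 2 := one_le_pow₀ hK
      nlinarith
    rw [e1]
    have e4 : 0 ≤ d.L ^ 2 * d.N ^ 2 * d.W ^ 2 * d.Z ^ 2 := by positivity
    nlinarith
  refine le_trans ?_ d.hM
  have h3 : 0 ≤ d.L * d.N * d.W * d.Z ^ 2 := by positivity
  have h4 : (0:ℝ) ≤ T ^ 20 := by positivity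
  exact mul_le_mul h1 h2 h3 h4

private lemma SV_prop {v : ℕ} (hv : v ∈ d.SV) :
    Squarefree v ∧ d.W * d.Z ≤ (v : ℝ) ∧ (v : ℝ) ≤ T ^ 2 * (d.W * d.Z) ∧ 0 < v ∧ v ≤ M := by
  have hT : 100 ≤ T := d.hB.one
  have hW := d.hW1
  have hZ := d.hZ1
  have hN : (1 : ℝ) ≤ d.N := by exact_mod_cast d.hN1
  have hL := d.hL1
  obtain ⟨z, hz, w, hw, rfl⟩ := Finset.mem_mul.1 hv
  obtain ⟨z1, z2, z3, z4⟩ := d.hSZ z hz
  obtain ⟨w1, w2, w3, w4⟩ := d.hSW w hw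
  have hw0 : 0 < w := Nat.pos_of_ne_zero w1.ne_zero
  have hup : ((z * w : ℕ) : ℝ) ≤ T ^ 2 * (d.W * d.Z) := by
    push_cast
    calc (z : ℝ) * w ≤ (T * d.Z) * (T * d.W) := by
          apply mul_le_mul z3 w3 (by positivity)
          have : 0 < T := by linarith
          positivity
      _ = _ := by ring
  refine ⟨?_, ?_, hup, Nat.mul_pos z1.pos hw0, ?_⟩
  · exact (Nat.squarefree_mul (d.cZW z hz w hw)).2 ⟨z1.prime.squarefree, w1⟩
  · push_cast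
    calc d.W * d.Z = d.Z * d.W := by ring
      _ ≤ z * w := by gcongr
  · have h1 := d.keyM
    have h2 : ((z * w : ℕ) : ℝ) ≤ M := by
      refine hup.trans (le_trans ?_ h1)
      have e1 : T ^ 2 ≤ 2 * T ^ 4 := by
        have : T ^ 2 ≤ T ^ 4 := pow_le_pow_right₀ (by linarith) (by norm_num)
        have : 0 ≤ T ^ 4 := by positivity
        linarith
      have e2 : d.W * d.Z ≤ d.L * d.N * d.W * d.Z ^ 2 := by
        have a1 : d.Z ≤ d.Z ^ 2 := sq_ge hZ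
        have a2 : 1 ≤ d.L * d.N := by nlinarith
        calc d.W * d.Z ≤ d.W * d.Z ^ 2 := by gcongr
          _ = 1 * (d.W * d.Z ^ 2) := by ring
          _ ≤ (d.L * d.N) * (d.W * d.Z ^ 2) := by gcongr
          _ = _ := by ring
      have e3 : 0 ≤ d.W * d.Z := by positivity
      apply mul_le_mul e1 e2 e3 (by positivity)
    exact_mod_cast h2

private lemma SZ_le {z : ℕ} (hz : z ∈ d.SZ) : z ≤ M := by
  have hT : 100 ≤ T := d.hB.one
  have hW := d.hW1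
  have hZ := d.hZ1
  have hN : (1 : ℝ) ≤ d.N := by exact_mod_cast d.hN1
  have hL := d.hL1
  obtain ⟨z1, z2, z3, z4⟩ := d.hSZ z hz
  have h1 := d.keyM
  have h2 : ((z : ℕ) : ℝ) ≤ M := by
    refine z3.trans (le_trans ?_ h1)
    have e1 : T ≤ 2 * T ^ 4 := by
      have : T ^ 1 ≤ T ^ 4 := pow_le_pow_right₀ (by linarith) (by norm_num)
      have : 0 ≤ T ^ 4 := by positivity
      linarith
    have e2 : d.Z ≤ d.L * d.N * d.W * d.Z ^ 2 := by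
      have a1 : d.Z ≤ d.Z ^ 2 := sq_ge hZ
      have a2 : 1 ≤ d.L * d.N := by nlinarith
      have a3 : 1 ≤ d.L * d.N * d.W := by nlinarith
      calc d.Z ≤ d.Z ^ 2 := a1
        _ = 1 * (d.Z ^ 2) := by ring
        _ ≤ (d.L * d.N * d.W) * (d.Z ^ 2) := by gcongr
    apply mul_le_mul e1 e2 (by positivity) (by positivity)
  exact_mod_cast h2

private lemma card_le_of {S : Finset ℕ} {X : ℝ} (hX : 0 ≤ X)
    (h : ∀ n ∈ S, 0 < n ∧ (n : ℝ) ≤ X) : (S.card : ℝ) ≤ X := by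
  have h1 : S ⊆ Ioc 0 ⌊X⌋₊ := by
    intro n hn
    rw [mem_Ioc]
    exact ⟨(h n hn).1, Nat.le_floor (h n hn).2⟩
  have h2 := card_le_card h1
  rw [Nat.card_Ioc, Nat.sub_zero] at h2
  calc (S.card : ℝ) ≤ (⌊X⌋₊ : ℝ) := by exact_mod_cast h2
    _ ≤ X := Nat.floor_le hX

private lemma sum_gcd_of (hB : Big M T) {S : Finset ℕ} {X : ℝ} (hX : 0 ≤ X)
    (h : ∀ n ∈ S, 0 < n ∧ (n : ℝ) ≤ X) (m : ℕ) (hm : 0 < m) (hmM : m ≤ M) :
    ∑ n ∈ S, ((m.gcd n : ℕ) : ℝ) ≤ X * T := by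
  have h1 : S ⊆ Ioc 0 ⌊X⌋₊ := by
    intro n hn
    rw [mem_Ioc]
    exact ⟨(h n hn).1, Nat.le_floor (h n hn).2⟩
  calc ∑ n ∈ S, ((m.gcd n : ℕ) : ℝ) ≤ ∑ n ∈ Ioc 0 ⌊X⌋₊, ((m.gcd n : ℕ) : ℝ) :=
        sum_le_sum_of_subset_of_nonneg h1 (by intros; positivity)
    _ ≤ (⌊X⌋₊ : ℝ) * (m.divisors.card : ℝ) := sum_gcd_le m _ hm
    _ ≤ X * T := by
        apply mul_le_mul (Nat.floor_le hX) (hB.tau m hm hmM) (by positivity) hX

private lemma card_SZ : (d.SZ.card : ℝ) ≤ T * d.Z := by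
  have hT : 100 ≤ T := d.hB.one
  have hZ := d.hZ1
  apply card_le_of (by positivity)
  intro n hn
  obtain ⟨z1, z2, z3, z4⟩ := d.hSZ n hn
  exact ⟨z1.pos, z3⟩

private lemma card_SW : (d.SW.card : ℝ) ≤ T * d.W := by
  have hT : 100 ≤ T := d.hB.one
  have hZ := d.hW1
  apply card_le_of (by positivity)
  intro n hn
  obtain ⟨z1, z2, z3, z4⟩ := d.hSW n hn
  exact ⟨Nat.pos_of_ne_zero z1.ne_zero, z3⟩

private lemma card_SL : (d.SL.card : ℝ) ≤ T * d.L := by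
  have hT : 100 ≤ T := d.hB.one
  have hZ := d.hL1
  apply card_le_of (by positivity)
  intro n hn
  obtain ⟨z1, z2, z3⟩ := d.hSL n hn
  exact ⟨Nat.pos_of_ne_zero z1.ne_zero, z3⟩

private lemma card_SV : (d.SV.card : ℝ) ≤ T ^ 2 * (d.W * d.Z) := by
  have hT : 100 ≤ T := d.hB.one
  have hZ := d.hZ1
  have hW := d.hW1
  apply card_le_of (by positivity)
  intro n hn
  obtain ⟨h1, h2, h3, h4, h5⟩ := d.SV_prop hn
  exact ⟨h4, h3⟩

/-- the nonzero `ν` -/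
private noncomputable def NN : Finset ℤ := (Icc (-(d.N : ℤ)) d.N).erase 0

private lemma card_NN : (d.NN.card : ℝ) = 2 * d.N := by
  unfold NN
  rw [card_erase_of_mem (by rw [mem_Icc]; constructor <;> omega), Int.card_Icc]
  have : ((d.N : ℤ) + 1 - -(d.N : ℤ)).toNat - 1 = 2 * d.N := by omega
  rw [this]; push_cast; ring

private lemma card_ST : (d.ST.card : ℝ) ≤ 2 * (T * d.L / d.U) := by
  have hT : 100 ≤ T := d.hB.one
  have hL := d.hL1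
  have hU := d.hU1
  have h0 : 0 ≤ T * d.L / d.U := by positivity
  have hf : 0 ≤ ⌊T * d.L / d.U⌋ := Int.floor_nonneg.2 h0
  unfold ST
  rw [card_erase_of_mem (by rw [mem_Icc]; constructor <;> omega), Int.card_Icc]
  have e1 : ((⌊T * d.L / d.U⌋ + 1 - -⌊T * d.L / d.U⌋).toNat - 1 : ℕ) = 2 * ⌊T * d.L / d.U⌋.toNat := by
    omega
  rw [e1]
  push_cast
  have e2 : ((⌊T * d.L / d.U⌋.toNat : ℕ) : ℝ) = (⌊T * d.L / d.U⌋ : ℝ) := by
    have : ((⌊T * d.L / d.U⌋.toNat : ℕ) : ℤ) = ⌊T * d.L / d.U⌋ := Int.toNat_of_nonneg hf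
    exact_mod_cast this
  rw [e2]
  have := Int.floor_le (T * d.L / d.U)
  linarith

private lemma mem_SI {w l : ℕ} {i : ℕ × ℕ × ℤ} (hi : i ∈ d.SI w l) :
    i.1 ∈ d.SZ ∧ i.2.1 ∈ d.SV ∧ i.2.2 ∈ d.NN := by
  classical
  unfold SI at hi
  rw [mem_filter, mem_product, mem_product] at hi
  obtain ⟨⟨h1, h2, h3⟩, h4⟩ := hi
  refine ⟨h1, h2, ?_⟩
  unfold NN
  rw [mem_erase]
  refine ⟨?_, h3⟩
  intro h0
  unfold cond at h4
  obtain ⟨-, -, -, h5⟩ := h4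
  rw [h0, isCoprime_zero_left, Int.isUnit_iff] at h5
  obtain ⟨z1, -⟩ := d.hSZ i.1 h1
  have h6 : i.1 ∣ i.2.1 * (i.1 * w) := Dvd.dvd.mul_left (dvd_mul_right _ _) _
  have h7 : i.2.1 * (i.1 * w) = 1 := by
    rcases h5 with h | h
    · exact_mod_cast h
    · exfalso
      have : (0 : ℤ) ≤ ((i.2.1 * (i.1 * w) : ℕ) : ℤ) := Int.natCast_nonneg _
      omega
  rw [h7, Nat.dvd_one] at h6
  exact z1.one_lt.ne' h6

/-- the coefficient -/
private lemma coef_le {w l : ℕ} {i : ℕ × ℕ × ℤ} (hi : i ∈ d.SI w l) :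
    |bq i.1 * bq i.2.1| ≤ T ^ 2 / (d.W * d.Z ^ 2) := by
  have hT : 100 ≤ T := d.hB.one
  have hZ := d.hZ1
  have hW := d.hW1
  obtain ⟨h1, h2, -⟩ := d.mem_SI hi
  obtain ⟨z1, z2, z3, z4⟩ := d.hSZ i.1 h1
  obtain ⟨v1, v2, v3, v4, v5⟩ := d.SV_prop h2
  have hz := d.SZ_le h1
  have e1 := div_totient_le d.hB z1.prime.squarefree hz
  have e2 := div_totient_le d.hB v1 v5
  have zp : (0 : ℝ) < i.1 := by exact_mod_cast z1.pos
  have vp : (0 : ℝ) < i.2.1 := by exact_mod_cast v4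
  have tz : (0 : ℝ) < (i.1.totient : ℝ) := by exact_mod_cast Nat.totient_pos.2 z1.pos
  have tv : (0 : ℝ) < (i.2.1.totient : ℝ) := by exact_mod_cast Nat.totient_pos.2 v4
  rw [abs_mul, abs_bq z1.prime.squarefree, abs_bq v1]
  have f1 : 1 / (i.1.totient : ℝ) ≤ T / d.Z := by
    rw [div_le_div_iff₀ tz (by linarith)]
    rw [div_le_iff₀ tz] at e1
    linarith
  have f2 : 1 / (i.2.1.totient : ℝ) ≤ T / (d.W * d.Z) := by
    rw [div_le_div_iff₀ tv (by positivity)]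
    rw [div_le_iff₀ tv] at e2
    linarith
  calc 1 / (i.1.totient : ℝ) * (1 / (i.2.1.totient : ℝ)) ≤ (T / d.Z) * (T / (d.W * d.Z)) := by
        apply mul_le_mul f1 f2 (by positivity) (by positivity)
    _ = _ := by field_simp

/-- expansion of the square -/
private lemma R_expand (wh : ℝ → ℝ) (t : ℤ) (w l : ℕ) :
    ∑ u ∈ d.SUU t w l, ‖d.Inn wh t w l u‖ ^ 2 ≤
      ∑ i ∈ d.SI w l, ∑ i' ∈ d.SI w l, |bq i.1 * bq i.2.1| * |bq i'.1 * bq i'.2.1| *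
        ‖d.pairSum wh t w l i i'‖ := by
  classical
  have h1 : ∀ u ∈ d.SUU t w l, ((‖d.Inn wh t w l u‖ ^ 2 : ℝ) : ℂ) =
      ∑ i ∈ d.SI w l, ∑ i' ∈ d.SI w l, (((bq i.1 * bq i.2.1) * (bq i'.1 * bq i'.2.1) : ℝ) : ℂ) *
        (if IsCoprime ((l : ℤ) + u * t) (i.1 : ℤ) ∧ IsCoprime ((l : ℤ) + u * t) (i'.1 : ℤ) then
          d.ph wh t w l i.1 i.2.1 i.2.2 u * (starRingEnd ℂ) (d.ph wh t w l i'.1 i'.2.1 i'.2.2 u)
          else 0) := by
    intro u _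
    have h2 := Complex.mul_conj (d.Inn wh t w l u)
    rw [Complex.normSq_eq_norm_sq] at h2
    rw [← h2]
    unfold Inn
    rw [map_sum, sum_mul_sum]
    apply sum_congr rfl; intro i _
    apply sum_congr rfl; intro i' _
    rw [map_mul, map_mul, Complex.conj_ofReal]
    by_cases c1 : IsCoprime ((l : ℤ) + u * t) (i.1 : ℤ)
    · by_cases c2 : IsCoprime ((l : ℤ) + u * t) (i'.1 : ℤ)
      · rw [if_pos c1, if_pos c2, if_pos ⟨c1, c2⟩, map_one]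
        push_cast
        ring
      · have c3 : ¬ (IsCoprime ((l : ℤ) + u * t) (i.1 : ℤ) ∧ IsCoprime ((l : ℤ) + u * t) (i'.1 : ℤ)) :=
          fun h => c2 h.2
        rw [if_neg c2, if_neg c3, map_zero]
        ring
    · have c3 : ¬ (IsCoprime ((l : ℤ) + u * t) (i.1 : ℤ) ∧ IsCoprime ((l : ℤ) + u * t) (i'.1 : ℤ)) :=
        fun h => c1 h.1
      rw [if_neg c1, if_neg c3]
      ring
  have h3 : ((∑ u ∈ d.SUU t w l, ‖d.Inn wh t w l u‖ ^ 2 : ℝ) : ℂ) =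
      ∑ i ∈ d.SI w l, ∑ i' ∈ d.SI w l, (((bq i.1 * bq i.2.1) * (bq i'.1 * bq i'.2.1) : ℝ) : ℂ) *
        d.pairSum wh t w l i i' := by
    rw [Complex.ofReal_sum, sum_congr rfl h1, sum_comm]
    apply sum_congr rfl; intro i _
    rw [sum_comm]
    apply sum_congr rfl; intro i' _
    rw [← mul_sum]
    unfold pairSum
    rw [sum_filter]
  have h4 : 0 ≤ ∑ u ∈ d.SUU t w l, ‖d.Inn wh t w l u‖ ^ 2 := by positivity
  have h5 : ∑ u ∈ d.SUU t w l, ‖d.Inn wh t w l u‖ ^ 2 =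
      ‖((∑ u ∈ d.SUU t w l, ‖d.Inn wh t w l u‖ ^ 2 : ℝ) : ℂ)‖ := by
    rw [Complex.norm_real, Real.norm_eq_abs, abs_of_nonneg h4]
  rw [h5, h3]
  refine (norm_sum_le _ _).trans (sum_le_sum fun i _ => ?_)
  refine (norm_sum_le _ _).trans (sum_le_sum fun i' _ => ?_)
  rw [norm_mul, Complex.norm_real, Real.norm_eq_abs, abs_mul]

/-- sizes of `ν v' z'` -/
private lemma nvz_le {v z : ℕ} {ν : ℤ} (hv : v ∈ d.SV) (hz : z ∈ d.SZ) (hν : ν ∈ d.NN) :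
    (((ν * v * z).natAbs : ℕ) : ℝ) ≤ T ^ 3 * (d.N * d.W * d.Z ^ 2) ∧ 0 < (ν * v * z).natAbs := by
  have hT : 100 ≤ T := d.hB.one
  have hZ := d.hZ1
  have hW := d.hW1
  obtain ⟨z1, z2, z3, z4⟩ := d.hSZ z hz
  obtain ⟨v1, v2, v3, v4, v5⟩ := d.SV_prop hv
  unfold NN at hν
  rw [mem_erase, mem_Icc] at hν
  constructor
  · rw [Int.natAbs_mul, Int.natAbs_mul, Int.natAbs_natCast, Int.natAbs_natCast]
    have hn : ν.natAbs ≤ d.N := by omega
    push_cast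
    have hn' : (ν.natAbs : ℝ) ≤ d.N := by exact_mod_cast hn
    calc (ν.natAbs : ℝ) * v * z ≤ d.N * (T ^ 2 * (d.W * d.Z)) * (T * d.Z) := by
          gcongr
      _ = _ := by ring
  · rw [Int.natAbs_pos]
    have : (v : ℤ) ≠ 0 := by exact_mod_cast v4.ne'
    have : (z : ℤ) ≠ 0 := by exact_mod_cast z1.pos.ne'
    simp_all

open Classical in
theorem count_zero (w l : ℕ) (hw : w ∈ d.SW) :
    (((d.SI w l ×ˢ d.SI w l).filter (fun x => Dt x.1 x.2 = 0)).card : ℝ) ≤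
      2 * T ^ 5 * d.N * (d.W * d.Z ^ 2) := by
  have hT : 100 ≤ T := d.hB.one
  have hZ := d.hZ1
  have hW := d.hW1
  have hL := d.hL1
  have hN : (1 : ℝ) ≤ d.N := by exact_mod_cast d.hN1
  set A : Finset (ℤ × ℕ × ℕ) := d.NN ×ˢ d.SV ×ˢ d.SZ with hA
  set n : ℤ × ℕ × ℕ → ℕ := fun a => (a.1 * a.2.1 * a.2.2).natAbs with hn
  set B : Finset (Σ _ : ℤ × ℕ × ℕ, ℕ × ℕ) := A.sigma (fun a => (n a).divisors ×ˢ (n a).divisors) with hB
  have hcard : ((d.SI w l ×ˢ d.SI w l).filter (fun x => Dt x.1 x.2 = 0)).card ≤ B.card := by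
    apply card_le_card_of_injOn
      (fun x => (⟨(x.1.2.2, x.2.2.1, x.2.1), (x.1.1, x.1.2.1)⟩ : Σ _ : ℤ × ℕ × ℕ, ℕ × ℕ))
    · rintro ⟨i, i'⟩ hx
      rw [mem_coe, mem_filter, mem_product] at hx
      obtain ⟨⟨hi, hi'⟩, hD⟩ := hx
      obtain ⟨a1, a2, a3⟩ := d.mem_SI hi
      obtain ⟨b1, b2, b3⟩ := d.mem_SI hi'
      dsimp only at *
      have hnz := (d.nvz_le b2 b1 a3).2
      unfold Dt at hD
      have hD' : i.2.2 * i'.2.1 * i'.1 = i'.2.2 * i.2.1 * i.1 := by linarith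
      refine mem_coe.2 (mem_sigma.2 ⟨mem_product.2 ⟨a3, mem_product.2 ⟨b2, b1⟩⟩,
        mem_product.2 ⟨Nat.mem_divisors.2 ⟨?_, hnz.ne'⟩, Nat.mem_divisors.2 ⟨?_, hnz.ne'⟩⟩⟩)
      · rw [← Int.natCast_dvd]
        dsimp only
        rw [hD']
        exact dvd_mul_left _ _
      · rw [← Int.natCast_dvd]
        dsimp only
        rw [hD']
        exact Dvd.dvd.mul_right (dvd_mul_left _ _) _
    · rintro ⟨⟨z, v, ν⟩, ⟨z', v', ν'⟩⟩ hx ⟨⟨z₁, v₁, ν₁⟩, ⟨z₁', v₁', ν₁'⟩⟩ hy hxy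
      rw [mem_coe, mem_filter, mem_product] at hx hy
      obtain ⟨⟨hi, hi'⟩, hD⟩ := hx
      obtain ⟨⟨hj, hj'⟩, hE⟩ := hy
      simp only [Sigma.mk.injEq, Prod.mk.injEq, heq_eq_eq] at hxy
      obtain ⟨⟨rfl, rfl, rfl⟩, rfl, rfl⟩ := hxy
      unfold Dt at hD hE
      dsimp only at hD hE
      obtain ⟨a1, a2, a3⟩ := d.mem_SI hi
      dsimp only at a1 a2 a3
      have z0 : (z : ℤ) ≠ 0 := by exact_mod_cast (d.hSZ z a1).1.pos.ne'
      have v0 : (v : ℤ) ≠ 0 := by exact_mod_cast (d.SV_prop a2).2.2.2.1.ne'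
      have : ν' * v * z = ν₁' * v * z := by linarith
      have : ν' = ν₁' := by
        have h1 := mul_right_cancel₀ z0 this
        exact mul_right_cancel₀ v0 h1
      subst this
      rfl
  have hBc : (B.card : ℝ) ≤ (A.card : ℝ) * T ^ 2 := by
    rw [hB, card_sigma]
    push_cast
    calc ∑ a ∈ A, (((n a).divisors ×ˢ (n a).divisors).card : ℝ) ≤ ∑ a ∈ A, T ^ 2 := by
          apply sum_le_sum
          intro a ha
          rw [hA, mem_product, mem_product] at ha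
          obtain ⟨h1, h2, h3⟩ := ha
          obtain ⟨e1, e2⟩ := d.nvz_le h2 h3 h1
          have e3 : n a ≤ M := by
            have h4 : ((n a : ℕ) : ℝ) ≤ M := by
              refine e1.trans (le_trans ?_ d.keyM)
              have f1 : T ^ 3 ≤ 2 * T ^ 4 := by
                have : T ^ 3 ≤ T ^ 4 := pow_le_pow_right₀ (by linarith) (by norm_num)
                have : 0 ≤ T ^ 4 := by positivity
                linarith
              have f2 : d.N * d.W * d.Z ^ 2 ≤ d.L * d.N * d.W * d.Z ^ 2 := by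
                have : (0:ℝ) ≤ d.N * d.W * d.Z ^ 2 := by positivity
                nlinarith
              exact mul_le_mul f1 f2 (by positivity) (by positivity)
            exact_mod_cast h4
          have e4 := d.hB.tau (n a) e2 e3
          rw [card_product]
          push_cast
          calc ((n a).divisors.card : ℝ) * ((n a).divisors.card : ℝ) ≤ T * T := by gcongr
            _ = T ^ 2 := by ring
      _ = (A.card : ℝ) * T ^ 2 := by rw [sum_const, nsmul_eq_mul]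
  have hAc : (A.card : ℝ) ≤ 2 * d.N * (T ^ 2 * (d.W * d.Z)) * (T * d.Z) := by
    rw [hA, card_product, card_product]
    push_cast
    rw [d.card_NN]
    have h1 := d.card_SV
    have h2 := d.card_SZ
    calc 2 * (d.N : ℝ) * (d.SV.card * d.SZ.card) ≤ 2 * (d.N : ℝ) * ((T ^ 2 * (d.W * d.Z)) * (T * d.Z)) := by
          gcongr
      _ = _ := by ring
  calc _ ≤ (B.card : ℝ) := by exact_mod_cast hcard
    _ ≤ (A.card : ℝ) * T ^ 2 := hBc
    _ ≤ (2 * d.N * (T ^ 2 * (d.W * d.Z)) * (T * d.Z)) * T ^ 2 := by gcongr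
    _ = _ := by ring

/-- all triples `(z, v, ν)` -/
private noncomputable def I0 : Finset (ℕ × ℕ × ℤ) := d.SZ ×ˢ d.SV ×ˢ d.NN

/-- the gcd factor -/
private noncomputable def GG (t : ℤ) (w l : ℕ) (x : (ℕ × ℕ × ℤ) × (ℕ × ℕ × ℤ)) : ℝ :=
  (((d.j * Dt x.1 x.2).natAbs.gcd l : ℕ) : ℝ) * (((t * Dt x.1 x.2).natAbs.gcd w : ℕ) : ℝ) *
    ((t.natAbs.gcd x.1.1 : ℕ) : ℝ) * ((t.natAbs.gcd x.2.1 : ℕ) : ℝ)

private lemma GG_nonneg (t : ℤ) (w l : ℕ) (x : (ℕ × ℕ × ℤ) × (ℕ × ℕ × ℤ)) : 0 ≤ d.GG t w l x := by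
  unfold GG; positivity

private lemma Dt_le {i i' : ℕ × ℕ × ℤ} (hi : i ∈ d.I0) (hi' : i' ∈ d.I0) :
    ((Dt i i').natAbs : ℝ) ≤ 2 * (T ^ 3 * (d.N * d.W * d.Z ^ 2)) := by
  unfold I0 at hi hi'
  rw [mem_product, mem_product] at hi hi'
  obtain ⟨a1, a2, a3⟩ := hi
  obtain ⟨b1, b2, b3⟩ := hi'
  have h1 := (d.nvz_le b2 b1 a3).1
  have h2 := (d.nvz_le a2 a1 b3).1
  have h3 : (Dt i i').natAbs ≤ (i.2.2 * i'.2.1 * i'.1).natAbs + (i'.2.2 * i.2.1 * i.1).natAbs := by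
    unfold Dt
    exact Int.natAbs_sub_le _ _
  have h4 : ((Dt i i').natAbs : ℝ) ≤ ((i.2.2 * i'.2.1 * i'.1).natAbs : ℝ) +
      ((i'.2.2 * i.2.1 * i.1).natAbs : ℝ) := by exact_mod_cast h3
  linarith

private lemma sum_GG {t : ℤ} (ht : t ∈ d.ST) :
    ∑ w ∈ d.SW, ∑ l ∈ d.SL, ∑ x ∈ (d.I0 ×ˢ d.I0).filter (fun x => Dt x.1 x.2 ≠ 0), d.GG t w l x ≤
      4 * T ^ 12 * (d.L * d.W ^ 3 * d.Z ^ 4 * d.N ^ 2) := by
  have hT : 100 ≤ T := d.hB.one
  have hZ := d.hZ1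
  have hW := d.hW1
  have hL := d.hL1
  have hU := d.hU1
  have hN : (1 : ℝ) ≤ d.N := by exact_mod_cast d.hN1
  have ht0 : t ≠ 0 := by
    unfold ST at ht
    exact (mem_erase.1 ht).1
  have htL : (t.natAbs : ℝ) ≤ T * d.L := by
    unfold ST at ht
    rw [mem_erase, mem_Icc] at ht
    have h1 : (t.natAbs : ℤ) ≤ ⌊T * d.L / d.U⌋ := by omega
    have h2 : (t.natAbs : ℝ) ≤ T * d.L / d.U := by
      have := (Int.cast_le (R := ℝ)).2 h1
      push_cast at this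
      have e0 : (t.natAbs : ℝ) = |(t : ℝ)| := by
        rw [Nat.cast_natAbs, Int.cast_abs]
      rw [e0]
      exact this.trans (Int.floor_le _)
    refine h2.trans (div_le_self (by positivity) hU)
  have hjL : (d.j.natAbs : ℝ) ≤ d.L := by
    have e0 : (d.j.natAbs : ℝ) = |(d.j : ℝ)| := by
      rw [Nat.cast_natAbs, Int.cast_abs]
    rw [e0]; exact d.hjL
  have hkey := d.keyM
  have hswap : ∑ w ∈ d.SW, ∑ l ∈ d.SL, ∑ x ∈ (d.I0 ×ˢ d.I0).filter (fun x => Dt x.1 x.2 ≠ 0), d.GG t w l x =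
      ∑ x ∈ (d.I0 ×ˢ d.I0).filter (fun x => Dt x.1 x.2 ≠ 0),
        (((t.natAbs.gcd x.1.1 : ℕ) : ℝ) * ((t.natAbs.gcd x.2.1 : ℕ) : ℝ)) *
        ((∑ l ∈ d.SL, (((d.j * Dt x.1 x.2).natAbs.gcd l : ℕ) : ℝ)) *
          (∑ w ∈ d.SW, (((t * Dt x.1 x.2).natAbs.gcd w : ℕ) : ℝ))) := by
    have h1 : ∀ w ∈ d.SW, ∑ l ∈ d.SL, ∑ x ∈ (d.I0 ×ˢ d.I0).filter (fun x => Dt x.1 x.2 ≠ 0), d.GG t w l x =
        ∑ x ∈ (d.I0 ×ˢ d.I0).filter (fun x => Dt x.1 x.2 ≠ 0), ∑ l ∈ d.SL, d.GG t w l x :=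
      fun w _ => sum_comm
    rw [sum_congr rfl h1, sum_comm]
    apply sum_congr rfl
    intro x _
    rw [sum_mul_sum, mul_sum, sum_comm]
    apply sum_congr rfl; intro l _
    rw [mul_sum]
    apply sum_congr rfl; intro w _
    unfold GG
    ring
  rw [hswap]
  have hT4 : 2 * T ^ 3 ≤ 2 * T ^ 4 := by
    have : T ^ 3 ≤ T ^ 4 := pow_le_pow_right₀ (by linarith) (by norm_num)
    linarith
  have hbound : ∀ x ∈ (d.I0 ×ˢ d.I0).filter (fun x => Dt x.1 x.2 ≠ 0),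
      (∑ l ∈ d.SL, (((d.j * Dt x.1 x.2).natAbs.gcd l : ℕ) : ℝ)) *
          (∑ w ∈ d.SW, (((t * Dt x.1 x.2).natAbs.gcd w : ℕ) : ℝ)) ≤ (T ^ 2 * d.L) * (T ^ 2 * d.W) := by
    intro x hx
    rw [mem_filter, mem_product] at hx
    obtain ⟨⟨hx1, hx2⟩, hx3⟩ := hx
    have hDle := d.Dt_le hx1 hx2
    have h1 : (d.j * Dt x.1 x.2).natAbs ≤ M := by
      have : (((d.j * Dt x.1 x.2).natAbs : ℕ) : ℝ) ≤ M := by
        rw [Int.natAbs_mul, Nat.cast_mul]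
        calc (d.j.natAbs : ℝ) * ((Dt x.1 x.2).natAbs : ℝ) ≤ d.L * (2 * (T ^ 3 * (d.N * d.W * d.Z ^ 2))) := by
              gcongr
          _ = (2 * T ^ 3) * (d.L * d.N * d.W * d.Z ^ 2) := by ring
          _ ≤ (2 * T ^ 4) * (d.L * d.N * d.W * d.Z ^ 2) := by gcongr
          _ ≤ M := hkey
      exact_mod_cast this
    have h2 : (t * Dt x.1 x.2).natAbs ≤ M := by
      have : (((t * Dt x.1 x.2).natAbs : ℕ) : ℝ) ≤ M := by
        rw [Int.natAbs_mul, Nat.cast_mul]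
        calc (t.natAbs : ℝ) * ((Dt x.1 x.2).natAbs : ℝ) ≤
              (T * d.L) * (2 * (T ^ 3 * (d.N * d.W * d.Z ^ 2))) := by
              gcongr
          _ = (2 * T ^ 4) * (d.L * d.N * d.W * d.Z ^ 2) := by ring
          _ ≤ M := hkey
      exact_mod_cast this
    have h1' : 0 < (d.j * Dt x.1 x.2).natAbs := by
      rw [Int.natAbs_pos]; exact mul_ne_zero d.hj hx3
    have h2' : 0 < (t * Dt x.1 x.2).natAbs := by
      rw [Int.natAbs_pos]; exact mul_ne_zero ht0 hx3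
    have s1 := sum_gcd_of d.hB (S := d.SL) (X := T * d.L) (by positivity) (by
      intro n hn
      obtain ⟨z1, z2, z3⟩ := d.hSL n hn
      exact ⟨Nat.pos_of_ne_zero z1.ne_zero, z3⟩) _ h1' h1
    have s2 := sum_gcd_of d.hB (S := d.SW) (X := T * d.W) (by positivity) (by
      intro n hn
      obtain ⟨z1, z2, z3, z4⟩ := d.hSW n hn
      exact ⟨Nat.pos_of_ne_zero z1.ne_zero, z3⟩) _ h2' h2
    apply mul_le_mul
    · refine s1.trans (le_of_eq (by ring))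
    · refine s2.trans (le_of_eq (by ring))
    · positivity
    · positivity
  have hsz : ∑ z ∈ d.SZ, ((t.natAbs.gcd z : ℕ) : ℝ) ≤ T ^ 2 * d.Z := by
    have h1 : t.natAbs ≤ M := by
      have : ((t.natAbs : ℕ) : ℝ) ≤ M := by
        refine htL.trans (le_trans ?_ hkey)
        have e1 : T ≤ 2 * T ^ 4 := by
          have : T ^ 1 ≤ T ^ 4 := pow_le_pow_right₀ (by linarith) (by norm_num)
          have : 0 ≤ T ^ 4 := by positivity
          linarith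
        have e2 : d.L ≤ d.L * d.N * d.W * d.Z ^ 2 := by
          have a1 : 1 ≤ d.Z ^ 2 := one_le_pow₀ hZ
          have a2 : 1 ≤ d.N * d.W := by nlinarith
          have a3 : 1 ≤ (d.N * d.W) * d.Z ^ 2 := by nlinarith
          calc d.L = d.L * 1 := by ring
            _ ≤ d.L * ((d.N * d.W) * d.Z ^ 2) := by gcongr
            _ = _ := by ring
        apply mul_le_mul e1 e2 (by positivity) (by positivity)
      exact_mod_cast this
    have s1 := sum_gcd_of d.hB (S := d.SZ) (X := T * d.Z) (by positivity) (by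
      intro n hn
      obtain ⟨z1, z2, z3, z4⟩ := d.hSZ n hn
      exact ⟨z1.pos, z3⟩) _ (Int.natAbs_pos.2 ht0) h1
    refine s1.trans (le_of_eq (by ring))
  have hI0 : ∑ i ∈ d.I0, ((t.natAbs.gcd i.1 : ℕ) : ℝ) ≤ 2 * T ^ 4 * (d.W * d.Z ^ 2 * d.N) := by
    unfold I0
    rw [sum_product]
    simp only
    have h1 : ∀ z ∈ d.SZ, ∑ _y ∈ d.SV ×ˢ d.NN, ((t.natAbs.gcd z : ℕ) : ℝ) =
        ((d.SV.card : ℝ) * (2 * d.N)) * ((t.natAbs.gcd z : ℕ) : ℝ) := by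
      intro z _
      rw [sum_const, card_product, nsmul_eq_mul, Nat.cast_mul, d.card_NN]
    rw [sum_congr rfl h1, ← mul_sum]
    calc _ ≤ ((T ^ 2 * (d.W * d.Z)) * (2 * d.N)) * (T ^ 2 * d.Z) := by
          have := d.card_SV
          gcongr
      _ = _ := by ring
  calc _ ≤ ∑ x ∈ (d.I0 ×ˢ d.I0).filter (fun x => Dt x.1 x.2 ≠ 0),
        (((t.natAbs.gcd x.1.1 : ℕ) : ℝ) * ((t.natAbs.gcd x.2.1 : ℕ) : ℝ)) *
        ((T ^ 2 * d.L) * (T ^ 2 * d.W)) := by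
        apply sum_le_sum
        intro x hx
        exact mul_le_mul_of_nonneg_left (hbound x hx) (by positivity)
    _ ≤ ∑ x ∈ d.I0 ×ˢ d.I0, (((t.natAbs.gcd x.1.1 : ℕ) : ℝ) * ((t.natAbs.gcd x.2.1 : ℕ) : ℝ)) *
        ((T ^ 2 * d.L) * (T ^ 2 * d.W)) := by
        apply sum_le_sum_of_subset_of_nonneg (filter_subset _ _)
        intros; positivity
    _ = (∑ i ∈ d.I0, ((t.natAbs.gcd i.1 : ℕ) : ℝ)) * (∑ i ∈ d.I0, ((t.natAbs.gcd i.1 : ℕ) : ℝ)) *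
        ((T ^ 2 * d.L) * (T ^ 2 * d.W)) := by
        rw [← sum_mul, sum_product, sum_mul_sum]
    _ ≤ (2 * T ^ 4 * (d.W * d.Z ^ 2 * d.N)) * (2 * T ^ 4 * (d.W * d.Z ^ 2 * d.N)) *
        ((T ^ 2 * d.L) * (T ^ 2 * d.W)) := by gcongr
    _ = _ := by ring

private lemma sqrt_bound {w l : ℕ} (hw : w ∈ d.SW) (hl : l ∈ d.SL) {z z' : ℕ} (hz : z ∈ d.SZ)
    (hz' : z' ∈ d.SZ) : √((l : ℝ) * w * z * z') ≤ T ^ 2 * √(d.L * d.W) * d.Z := by
  have hT : 100 ≤ T := d.hB.one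
  have hZ := d.hZ1
  have hW := d.hW1
  have hL := d.hL1
  obtain ⟨-, -, z3, -⟩ := d.hSZ z hz
  obtain ⟨-, -, z3', -⟩ := d.hSZ z' hz'
  obtain ⟨-, -, w3, -⟩ := d.hSW w hw
  obtain ⟨-, -, l3⟩ := d.hSL l hl
  have h1 : (l : ℝ) * w * z * z' ≤ (T ^ 2 * d.Z) ^ 2 * (d.L * d.W) := by
    calc (l : ℝ) * w * z * z' ≤ (T * d.L) * (T * d.W) * (T * d.Z) * (T * d.Z) := by gcongr
      _ = _ := by ring
  calc √((l : ℝ) * w * z * z') ≤ √((T ^ 2 * d.Z) ^ 2 * (d.L * d.W)) := Real.sqrt_le_sqrt h1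
    _ = (T ^ 2 * d.Z) * √(d.L * d.W) := by
        rw [Real.sqrt_mul (by positivity), Real.sqrt_sq (by positivity)]
    _ = _ := by ring

private lemma inner_le {w₀ wh : ℝ → ℝ} {C : ℝ} {CA : ℕ → ℝ} (hW : Wt w₀ wh C CA)
    (hN : (d.N : ℝ) ≤ d.W * d.Z ^ 2) (hUL : d.U ≤ d.L) (t : ℤ) (ht : t ∈ d.ST) (w l : ℕ)
    (hw : w ∈ d.SW) (hl : l ∈ d.SL) (hwl : w.Coprime l) :
    ∑ u ∈ d.SUU t w l, ‖d.Inn wh t w l u‖ ^ 2 ≤ (T ^ 2 / (d.W * d.Z ^ 2)) ^ 2 *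
      ((2 * T ^ 5 * d.N * (d.W * d.Z ^ 2)) * (C ^ 2 * (T * d.U)) +
        (32 * C ^ 2 * T ^ 2) * (T ^ 2 * √(d.L * d.W) * d.Z) *
          ∑ x ∈ (d.I0 ×ˢ d.I0).filter (fun x => Dt x.1 x.2 ≠ 0), d.GG t w l x) := by
  classical
  have hT : 100 ≤ T := d.hB.one
  have hZ := d.hZ1
  have hWW := d.hW1
  have hL := d.hL1
  have hU := d.hU1
  have hC := hW.C1
  refine (d.R_expand wh t w l).trans ?_
  have h1 : ∑ i ∈ d.SI w l, ∑ i' ∈ d.SI w l, |bq i.1 * bq i.2.1| * |bq i'.1 * bq i'.2.1| *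
        ‖d.pairSum wh t w l i i'‖ ≤ ∑ i ∈ d.SI w l, ∑ i' ∈ d.SI w l,
        (T ^ 2 / (d.W * d.Z ^ 2)) ^ 2 * ‖d.pairSum wh t w l i i'‖ := by
    apply sum_le_sum; intro i hi
    apply sum_le_sum; intro i' hi'
    apply mul_le_mul_of_nonneg_right _ (norm_nonneg _)
    rw [sq]
    exact mul_le_mul (d.coef_le hi) (d.coef_le hi') (abs_nonneg _) (by positivity)
  refine h1.trans ?_
  have h2 : ∑ i ∈ d.SI w l, ∑ i' ∈ d.SI w l,
        (T ^ 2 / (d.W * d.Z ^ 2)) ^ 2 * ‖d.pairSum wh t w l i i'‖ =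
        (T ^ 2 / (d.W * d.Z ^ 2)) ^ 2 * ∑ x ∈ d.SI w l ×ˢ d.SI w l, ‖d.pairSum wh t w l x.1 x.2‖ := by
    rw [sum_product, mul_sum]
    apply sum_congr rfl; intro i _
    rw [mul_sum]
  rw [h2]
  apply mul_le_mul_of_nonneg_left _ (by positivity)
  rw [← sum_filter_add_sum_filter_not (d.SI w l ×ˢ d.SI w l) (fun x => Dt x.1 x.2 = 0)]
  apply add_le_add
  · calc _ ≤ ∑ x ∈ (d.SI w l ×ˢ d.SI w l).filter (fun x => Dt x.1 x.2 = 0), C ^ 2 * (T * d.U) :=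
          sum_le_sum fun x _ => d.pair_trivial hW t w l x.1 x.2
      _ ≤ _ := by
          rw [sum_const, nsmul_eq_mul]
          apply mul_le_mul_of_nonneg_right _ (by positivity)
          exact d.count_zero w l hw
  · calc _ ≤ ∑ x ∈ (d.SI w l ×ˢ d.SI w l).filter (fun x => ¬ Dt x.1 x.2 = 0),
          (32 * C ^ 2 * T ^ 2) * (T ^ 2 * √(d.L * d.W) * d.Z) * d.GG t w l x := by
          apply sum_le_sum
          intro x hx
          rw [mem_filter, mem_product] at hx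
          obtain ⟨⟨hx1, hx2⟩, hx3⟩ := hx
          have h3 := d.pair_ne hW hN hUL t ht w l hw hl hwl x.1 x.2 hx1 hx2 hx3
          refine h3.trans ?_
          have h4 := d.sqrt_bound hw hl (d.mem_SI hx1).1 (d.mem_SI hx2).1
          have h5 := d.GG_nonneg t w l x
          have e1 : ((((d.j * Dt x.1 x.2).natAbs.gcd l : ℕ) : ℝ) *
            (((t * Dt x.1 x.2).natAbs.gcd w : ℕ) : ℝ) *
            ((t.natAbs.gcd x.1.1 : ℕ) : ℝ) * ((t.natAbs.gcd x.2.1 : ℕ) : ℝ)) = d.GG t w l x := rfl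
          rw [e1, mul_assoc (32 * C ^ 2 * T ^ 2) _ (d.GG t w l x)]
          apply mul_le_mul_of_nonneg_left _ (by positivity)
          exact mul_le_mul_of_nonneg_right h4 h5
      _ ≤ ∑ x ∈ (d.I0 ×ˢ d.I0).filter (fun x => Dt x.1 x.2 ≠ 0),
          (32 * C ^ 2 * T ^ 2) * (T ^ 2 * √(d.L * d.W) * d.Z) * d.GG t w l x := by
          apply sum_le_sum_of_subset_of_nonneg
          · intro x hx
            rw [mem_filter, mem_product] at hx ⊢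
            obtain ⟨⟨hx1, hx2⟩, hx3⟩ := hx
            obtain ⟨a1, a2, a3⟩ := d.mem_SI hx1
            obtain ⟨b1, b2, b3⟩ := d.mem_SI hx2
            refine ⟨⟨?_, ?_⟩, hx3⟩
            · unfold I0
              exact mem_product.2 ⟨a1, mem_product.2 ⟨a2, a3⟩⟩
            · unfold I0
              exact mem_product.2 ⟨b1, mem_product.2 ⟨b2, b3⟩⟩
          · intro x _ _
            have h5 := d.GG_nonneg t w l x
            positivity
      _ = _ := by rw [mul_sum]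

theorem R_le {w₀ wh : ℝ → ℝ} {C : ℝ} {CA : ℕ → ℝ} (hW : Wt w₀ wh C CA)
    (hN : (d.N : ℝ) ≤ d.W * d.Z ^ 2) (hUL : d.U ≤ d.L) :
    d.R wh ≤ 256 * C ^ 2 * T ^ 21 * (d.L ^ 2 * d.W) *
      (d.N / (d.W * d.Z ^ 2) + (d.N : ℝ) ^ 2 * √(d.L * d.W) * d.Z / d.U) := by
  classical
  have hT : 100 ≤ T := d.hB.one
  have hZ := d.hZ1
  have hWW := d.hW1
  have hL := d.hL1
  have hU := d.hU1
  have hC := hW.C1
  have hN1 : (1 : ℝ) ≤ d.N := by exact_mod_cast d.hN1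
  set A0 : ℝ := (2 * T ^ 5 * d.N * (d.W * d.Z ^ 2)) * (C ^ 2 * (T * d.U)) with hA0
  set B0 : ℝ := (32 * C ^ 2 * T ^ 2) * (T ^ 2 * √(d.L * d.W) * d.Z) with hB0
  set κ : ℝ := (T ^ 2 / (d.W * d.Z ^ 2)) ^ 2 with hκ
  have hA0' : 0 ≤ A0 := by positivity
  have hB0' : 0 ≤ B0 := by positivity
  have hκ' : 0 ≤ κ := by positivity
  set X : ℝ := κ * ((T * d.W) * (T * d.L) * A0 + B0 * (4 * T ^ 12 * (d.L * d.W ^ 3 * d.Z ^ 4 * d.N ^ 2)))
    with hX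
  have hX' : 0 ≤ X := by positivity
  have hfix : ∀ t ∈ d.ST, ∑ w ∈ d.SW, ∑ l ∈ d.SL.filter (fun l => w.Coprime l), ∑ u ∈ d.SUU t w l,
      ‖d.Inn wh t w l u‖ ^ 2 ≤ X := by
    intro t ht
    calc _ ≤ ∑ w ∈ d.SW, ∑ l ∈ d.SL.filter (fun l => w.Coprime l), κ * (A0 + B0 *
          ∑ x ∈ (d.I0 ×ˢ d.I0).filter (fun x => Dt x.1 x.2 ≠ 0), d.GG t w l x) := by
          apply sum_le_sum; intro w hw
          apply sum_le_sum; intro l hl
          rw [mem_filter] at hl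
          exact d.inner_le hW hN hUL t ht w l hw hl.1 hl.2
      _ ≤ ∑ w ∈ d.SW, ∑ l ∈ d.SL, κ * (A0 + B0 *
          ∑ x ∈ (d.I0 ×ˢ d.I0).filter (fun x => Dt x.1 x.2 ≠ 0), d.GG t w l x) := by
          apply sum_le_sum; intro w hw
          apply sum_le_sum_of_subset_of_nonneg (filter_subset _ _)
          intro l _ _
          have : 0 ≤ ∑ x ∈ (d.I0 ×ˢ d.I0).filter (fun x => Dt x.1 x.2 ≠ 0), d.GG t w l x :=
            sum_nonneg fun x _ => d.GG_nonneg t w l x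
          positivity
      _ = κ * ((d.SW.card * d.SL.card : ℝ) * A0 + B0 * ∑ w ∈ d.SW, ∑ l ∈ d.SL,
          ∑ x ∈ (d.I0 ×ˢ d.I0).filter (fun x => Dt x.1 x.2 ≠ 0), d.GG t w l x) := by
          simp_rw [← mul_sum, sum_add_distrib, ← mul_sum, sum_const, nsmul_eq_mul]
          ring
      _ ≤ X := by
          rw [hX]
          apply mul_le_mul_of_nonneg_left _ hκ'
          apply add_le_add
          · apply mul_le_mul_of_nonneg_right _ hA0'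
            exact mul_le_mul d.card_SW d.card_SL (by positivity) (by positivity)
          · exact mul_le_mul_of_nonneg_left (d.sum_GG ht) hB0'
  have hR : d.R wh ≤ (d.ST.card : ℝ) * X := by
    unfold R
    calc _ ≤ ∑ t ∈ d.ST, X := sum_le_sum hfix
      _ = _ := by rw [sum_const, nsmul_eq_mul]
  refine hR.trans ((mul_le_mul_of_nonneg_right d.card_ST hX').trans ?_)
  have hWpos : (0 : ℝ) < d.W := by linarith
  have hZpos : (0 : ℝ) < d.Z := by linarith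
  have hUpos : (0 : ℝ) < d.U := by linarith
  have e1 : 2 * (T * d.L / d.U) * X = 4 * C ^ 2 * T ^ 13 * (d.L ^ 2 * d.W) * (d.N / (d.W * d.Z ^ 2)) +
      256 * C ^ 2 * T ^ 21 * (d.L ^ 2 * d.W) * ((d.N : ℝ) ^ 2 * √(d.L * d.W) * d.Z / d.U) := by
    rw [hX, hκ, hA0, hB0]
    field_simp
    ring
  rw [e1, mul_add]
  apply add_le_add _ le_rfl
  apply mul_le_mul_of_nonneg_right _ (by positivity)
  apply mul_le_mul_of_nonneg_right _ (by positivity)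
  have : T ^ 13 ≤ T ^ 21 := pow_le_pow_right₀ (by linarith) (by norm_num)
  have h0 : 0 ≤ C ^ 2 := by positivity
  have h1 : (0:ℝ) ≤ T ^ 13 := by positivity
  nlinarith [mul_nonneg h0 h1, mul_le_mul_of_nonneg_left this h0]

end DD

end Pool.Agent.Lib.MP_2a816b_nt.BH
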