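import Pool.Agent.Lib.MP_2a816b_nt.BH.D3
import Pool.Agent.Lib.MP_2a816b_nt.BH.D4
import Pool.Agent.Lib.MP_2a816b_nt.BH.D6c

/-!
# JOB D7: the type II bound by dispersion

`S2 ≤ 7 C T ^ 8 K L + C BadSum + |GoodSum|` (`split`), `BadSum ≤ 1000 T ^ 14 L ^ 2 (K / (U y) + 1)` (`bad`), `|GoodSum| ≤ ‖MainSum‖ + 4 T ^ 7 (K L ^ 2 / U) (CA A X ^ A / N ^ (A - 1))`
(`good`), `‖MainSum‖ ≤ (K T / (U W)) √(2 T ^ 4 L ^ 2 W R)` (`main_le`), `R_le`. With `δ`: `K L = (K L ^ 2 / U) (U / L) ≤ (K L ^ 2 / U) δ`, `L ^ 2 (K / (U y) + 1) = (K L ^ 2 / U) (1 / y + U / K) ≤ 2 δ (K L ^ 2 / U)`,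
`R ≤ 256 C ^ 2 T ^ 21 L ^ 2 W 2 δ ^ 2`, `‖MainSum‖ ≤ (K T / (U W)) L ^ 2 W √(1024 C ^ 2 T ^ 25) δ ≤ 32 C T ^ 14 (K L ^ 2 / U) δ`. So `S2 ≤ 3000 C T ^ 14 (K L ^ 2 / U) δ` and by `first`
the square of the left side is `≤ T U K S2 ≤ 3000 C T ^ 15 (K L) ^ 2 δ`.
-/

set_option autoImplicit false

open Finset Real
open scoped Pointwise

namespace Pool.Agent.Lib.MP_2a816b_nt.BH

private lemma typeII_aux {T C δ K L U W Z y n S Bd Gd Mn R E : ℝ} (hT : 1 ≤ T) (hC : 1 ≤ C)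
    (hδ : 0 < δ) (hK : 0 < K) (hL : 0 < L) (hU : 0 < U) (hW : 0 < W) (hZ : 0 < Z)
    (hy : 0 < y) (hMn : 0 ≤ Mn)
    (h1 : U ≤ δ * L) (h2 : 1 ≤ δ * y) (h3 : U ≤ δ * K) (h4 : n ≤ δ ^ 2 * (W * Z ^ 2))
    (h5 : n ^ 2 * √(L * W) * Z ≤ δ ^ 2 * U) (h6 : E ≤ δ)
    (hS : S ≤ 7 * C * T ^ 8 * (K * L) + C * Bd + Gd)
    (hBd : Bd ≤ 1000 * T ^ 14 * L ^ 2 * (K / (U * y) + 1))
    (hGd : Gd ≤ Mn + 4 * T ^ 7 * (K * L ^ 2 / U) * E)
    (hM : Mn ^ 2 ≤ (K * T / (U * W)) ^ 2 * (2 * T ^ 4 * L ^ 2 * W) * R)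
    (hR : R ≤ 256 * C ^ 2 * T ^ 21 * (L ^ 2 * W) * (n / (W * Z ^ 2) + n ^ 2 * √(L * W) * Z / U)) :
    T * U * K * S ≤ 3000 * C * T ^ 15 * δ * (K * L) ^ 2 := by
  have hT0 : 0 < T := by linarith
  have hC0 : 0 < C := by linarith
  have hX : 0 < K * L ^ 2 / U := by positivity
  obtain ⟨X, hXd⟩ : ∃ X, X = K * L ^ 2 / U := ⟨_, rfl⟩
  rw [← hXd] at hX hGd
  have hXU : X * U = K * L ^ 2 := by rw [hXd]; field_simp
  -- the three error terms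
  have a1 : K * L ≤ X * δ := by
    have e1 : K * L * U ≤ K * L * (δ * L) := mul_le_mul_of_nonneg_left h1 (by positivity)
    have e2 : K * L * U ≤ X * δ * U := by
      calc K * L * U ≤ K * L * (δ * L) := e1
        _ = (X * U) * δ := by rw [hXU]; ring
        _ = X * δ * U := by ring
    exact le_of_mul_le_mul_right e2 hU
  have a2 : L ^ 2 * (K / (U * y) + 1) ≤ 2 * (X * δ) := by
    have e1 : L ^ 2 * (K / (U * y)) ≤ X * δ := by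
      have : L ^ 2 * (K / (U * y)) = X * (1 / y) := by rw [hXd]; field_simp
      rw [this]
      apply mul_le_mul_of_nonneg_left _ hX.le
      rw [div_le_iff₀ hy]; exact h2
    have e2 : L ^ 2 * 1 ≤ X * δ := by
      have e3 : L ^ 2 * 1 * U ≤ X * δ * U := by
        calc L ^ 2 * 1 * U ≤ L ^ 2 * 1 * (δ * K) := mul_le_mul_of_nonneg_left h3 (by positivity)
          _ = (X * U) * δ := by rw [hXU]; ring
          _ = X * δ * U := by ring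
      exact le_of_mul_le_mul_right e3 hU
    rw [mul_add]; linarith
  have hXδ : 0 < X * δ := mul_pos hX hδ
  have a3 : n / (W * Z ^ 2) + n ^ 2 * √(L * W) * Z / U ≤ 2 * δ ^ 2 := by
    have e1 : n / (W * Z ^ 2) ≤ δ ^ 2 := by
      rw [div_le_iff₀ (by positivity)]; exact h4
    have e2 : n ^ 2 * √(L * W) * Z / U ≤ δ ^ 2 := by
      rw [div_le_iff₀ hU]; exact h5
    linarith
  have a4 : R ≤ 512 * C ^ 2 * T ^ 21 * (L ^ 2 * W) * δ ^ 2 := by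
    refine hR.trans ?_
    calc 256 * C ^ 2 * T ^ 21 * (L ^ 2 * W) * (n / (W * Z ^ 2) + n ^ 2 * √(L * W) * Z / U)
        ≤ 256 * C ^ 2 * T ^ 21 * (L ^ 2 * W) * (2 * δ ^ 2) :=
          mul_le_mul_of_nonneg_left a3 (by positivity)
      _ = _ := by ring
  have a5 : Mn ≤ 32 * C * T ^ 14 * (X * δ) := by
    apply le_of_sq_le_sq _ (by positivity)
    have e1 : Mn ^ 2 ≤ (K * T / (U * W)) ^ 2 * (2 * T ^ 4 * L ^ 2 * W) *
        (512 * C ^ 2 * T ^ 21 * (L ^ 2 * W) * δ ^ 2) :=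
      hM.trans (mul_le_mul_of_nonneg_left a4 (by positivity))
    have e2 : (K * T / (U * W)) ^ 2 * (2 * T ^ 4 * L ^ 2 * W) *
        (512 * C ^ 2 * T ^ 21 * (L ^ 2 * W) * δ ^ 2) = 1024 * C ^ 2 * T ^ 27 * (X * δ) ^ 2 := by
      rw [hXd]; field_simp; ring
    have e3 : 1024 * C ^ 2 * T ^ 27 * (X * δ) ^ 2 ≤ 1024 * C ^ 2 * T ^ 28 * (X * δ) ^ 2 := by
      have : T ^ 27 ≤ T ^ 28 := pow_le_pow_right₀ hT (by norm_num)
      gcongr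
    calc Mn ^ 2 ≤ 1024 * C ^ 2 * T ^ 28 * (X * δ) ^ 2 := by rw [e2] at e1; exact e1.trans e3
      _ = (32 * C * T ^ 14 * (X * δ)) ^ 2 := by ring
  -- assembling
  have b1 : 7 * C * T ^ 8 * (K * L) ≤ 7 * (C * T ^ 14 * (X * δ)) := by
    have : T ^ 8 ≤ T ^ 14 := pow_le_pow_right₀ hT (by norm_num)
    calc 7 * C * T ^ 8 * (K * L) ≤ 7 * C * T ^ 14 * (X * δ) := by gcongr
      _ = _ := by ring
  have b2 : C * Bd ≤ 2000 * (C * T ^ 14 * (X * δ)) := by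
    calc C * Bd ≤ C * (1000 * T ^ 14 * L ^ 2 * (K / (U * y) + 1)) :=
          mul_le_mul_of_nonneg_left hBd hC0.le
      _ = C * (1000 * T ^ 14) * (L ^ 2 * (K / (U * y) + 1)) := by ring
      _ ≤ C * (1000 * T ^ 14) * (2 * (X * δ)) := mul_le_mul_of_nonneg_left a2 (by positivity)
      _ = _ := by ring
  have b3 : 4 * T ^ 7 * X * E ≤ 4 * (C * T ^ 14 * (X * δ)) := by
    have e7 : T ^ 7 ≤ T ^ 14 := pow_le_pow_right₀ hT (by norm_num)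
    have e8 : 1 * T ^ 14 ≤ C * T ^ 14 := mul_le_mul_of_nonneg_right hC (by positivity)
    calc 4 * T ^ 7 * X * E ≤ 4 * T ^ 7 * X * δ := mul_le_mul_of_nonneg_left h6 (by positivity)
      _ = 4 * (T ^ 7 * (X * δ)) := by ring
      _ ≤ 4 * (C * T ^ 14 * (X * δ)) := by
          have : T ^ 7 * (X * δ) ≤ C * T ^ 14 * (X * δ) :=
            mul_le_mul_of_nonneg_right (by linarith) hXδ.le
          linarith
  have hfin : S ≤ 3000 * (C * T ^ 14 * (X * δ)) := by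
    have : 0 ≤ C * T ^ 14 * (X * δ) := by positivity
    linarith
  calc T * U * K * S ≤ T * U * K * (3000 * (C * T ^ 14 * (X * δ))) :=
        mul_le_mul_of_nonneg_left hfin (by positivity)
    _ = 3000 * C * T ^ 15 * δ * K * (X * U) := by ring
    _ = 3000 * C * T ^ 15 * δ * (K * L) ^ 2 := by rw [hXU]; ring

namespace DD

variable {M : ℕ} {T : ℝ} (d : DD M T)

theorem typeII {w₀ wh : ℝ → ℝ} {C : ℝ} {CA : ℕ → ℝ} (hW : Wt w₀ wh C CA) (δ : ℝ) (hδ : 0 < δ)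
    (hδ1 : δ ≤ 1) (h1 : d.U ≤ δ * d.L) (h2 : 1 ≤ δ * d.y) (h3 : d.U ≤ δ * d.K)
    (h4 : (d.N : ℝ) ≤ δ ^ 2 * (d.W * d.Z ^ 2))
    (h5 : (d.N : ℝ) ^ 2 * √(d.L * d.W) * d.Z ≤ δ ^ 2 * d.U)
    (A : ℕ) (hA : 2 ≤ A)
    (h6 : CA A * (T ^ 5 * d.U * (d.W * d.Z) ^ 2 / d.K) ^ A / (d.N : ℝ) ^ (A - 1) ≤ δ)
    (α β c : ℕ → ℝ) (hα : ∀ k, |α k| ≤ 1) (hβ : ∀ l, |β l| ≤ 1) (hc : ∀ u, |c u| ≤ 1) :
    |∑ k ∈ Ioc 0 ⌊d.K⌋₊, ∑ l ∈ d.SL, α k * β l *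
      ((∑ u ∈ d.SU.filter (fun u : ℕ => (u : ℤ) ∣ (k : ℤ) * l + d.j), c u) *
        FQ d.SV ((k : ℤ) * l + d.j))| ≤ √(3000 * C * T ^ 15 * δ) * (d.K * d.L) := by
  have hT : 1 ≤ T := by have := d.hB.one; linarith
  have hK := lt_of_lt_of_le one_pos d.hK1
  have hL := lt_of_lt_of_le one_pos d.hL1
  have hU := lt_of_lt_of_le one_pos d.hU1
  have hW0 := lt_of_lt_of_le one_pos d.hW1
  have hZ := lt_of_lt_of_le one_pos d.hZ1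
  have hy := lt_of_lt_of_le two_pos d.hy
  have hδ2 : δ ^ 2 ≤ 1 := pow_le_one₀ hδ.le hδ1
  have hN : (d.N : ℝ) ≤ d.W * d.Z ^ 2 :=
    h4.trans (mul_le_of_le_one_left (by positivity) hδ2)
  have hUL : d.U ≤ d.L := h1.trans (mul_le_of_le_one_left hL.le hδ1)
  have key := typeII_aux (T := T) (C := C) (δ := δ) (K := d.K) (L := d.L) (U := d.U) (W := d.W)
    (Z := d.Z) (y := d.y) (n := (d.N : ℝ)) (S := d.S2 w₀ β) (Bd := d.BadSum)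
    (Gd := |d.GoodSum w₀ β|) (Mn := ‖d.MainSum wh β‖) (R := d.R wh)
    (E := CA A * (T ^ 5 * d.U * (d.W * d.Z) ^ 2 / d.K) ^ A / (d.N : ℝ) ^ (A - 1))
    hT hW.C1 hδ hK hL hU hW0 hZ hy (norm_nonneg _) h1 h2 h3 h4 h5 h6
    (d.split hW β hβ) d.bad (d.good hW β hβ A hA) (d.main_le hW β hβ) (d.R_le hW hN hUL)
  have hf := (d.first hW α β c hα hβ hc).trans key
  have hC1 := hW.C1
  have h0 : 0 ≤ 3000 * C * T ^ 15 * δ := by positivity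
  rw [← abs_of_nonneg (a := √(3000 * C * T ^ 15 * δ) * (d.K * d.L)) (by positivity)]
  apply sq_le_sq.1
  rw [mul_pow, Real.sq_sqrt h0]
  exact hf

end DD

end Pool.Agent.Lib.MP_2a816b_nt.BH
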