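import Pool.Agent.Lib.MP_2a816b_nt.BH.RamB
import Pool.Agent.Lib.MP_2a816b_nt.BH.Mul

/-!
# The dispersion argument: data
-/

set_option autoImplicit false

open Finset Real
open scoped Pointwise

namespace Pool.Agent.Lib.MP_2a816b_nt.BH

/-- The data of the dispersion argument. `SU` (numbers `u` of size `U`), `SW` (squarefree `w` of size `W`), `SZ` (primes `z` of size
`Z`), `SL` (squarefree `l` of size `L`); `y` is a lower bound for all prime factors of the `u, w, z` and `|j| < y`. -/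
structure DD (M : ℕ) (T : ℝ) where
  j : ℤ
  y : ℝ
  U : ℝ
  W : ℝ
  Z : ℝ
  L : ℝ
  K : ℝ
  N : ℕ
  SU : Finset ℕ
  SW : Finset ℕ
  SZ : Finset ℕ
  SL : Finset ℕ
  hB : Big M T
  hj : j ≠ 0
  hjy : |(j : ℝ)| < y
  hy : 2 ≤ y
  hU1 : 1 ≤ U
  hW1 : 1 ≤ W
  hZ1 : 1 ≤ Z
  hL1 : 1 ≤ L
  hK1 : 1 ≤ K
  hN1 : 1 ≤ N
  hSU : ∀ u ∈ SU, U ≤ (u : ℝ) ∧ (u : ℝ) ≤ T * U ∧ ∀ p : ℕ, p.Prime → p ∣ u → y ≤ (p : ℝ)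
  hSW : ∀ w ∈ SW, Squarefree w ∧ W ≤ (w : ℝ) ∧ (w : ℝ) ≤ T * W ∧
    ∀ p : ℕ, p.Prime → p ∣ w → y ≤ (p : ℝ)
  hSZ : ∀ z ∈ SZ, z.Prime ∧ Z ≤ (z : ℝ) ∧ (z : ℝ) ≤ T * Z ∧ y ≤ (z : ℝ)
  hSL : ∀ l ∈ SL, Squarefree l ∧ L < (l : ℝ) ∧ (l : ℝ) ≤ T * L
  cUW : Cross SU SW
  cUZ : Cross SU SZ
  cZW : Cross SZ SW
  hjL : |(j : ℝ)| ≤ L
  hM : T ^ 20 * (U * W * Z * L * K * N) ^ 2 ≤ (M : ℝ)

namespace DD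

variable {M : ℕ} {T : ℝ} (d : DD M T)

/-- the products `v = z w` -/
def SV : Finset ℕ := d.SZ * d.SW

/-- the range of `k` -/
noncomputable def SK : Finset ℤ := Icc (-⌈2 * d.K⌉) ⌈2 * d.K⌉

/-- the sum after the first Cauchy-Schwarz -/
noncomputable def S2 (w : ℝ → ℝ) (β : ℕ → ℝ) : ℝ :=
  ∑ u ∈ d.SU, ∑ k ∈ d.SK, w ((k : ℝ) / d.K) *
    (∑ l ∈ d.SL.filter (fun l : ℕ => (u : ℤ) ∣ k * l + d.j), β l * FQ d.SV (k * l + d.j)) ^ 2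

/-- one term of the off-diagonal part: `w(k / K) [u ∣ k l₁ + j] bc v₁ (k l₁ + j) bc v₂ (k l₂ + j)` summed over `k` -/
noncomputable def kSum (w : ℝ → ℝ) (u v₁ v₂ l₁ l₂ : ℕ) : ℝ :=
  ∑ k ∈ d.SK, w ((k : ℝ) / d.K) *
    ((if (u : ℤ) ∣ k * l₁ + d.j then (1 : ℝ) else 0) * bc v₁ (k * l₁ + d.j) *
      bc v₂ (k * l₂ + d.j))

/-- the good pairs -/
def Good (v₁ v₂ l₁ l₂ : ℕ) : Prop :=
  v₁.Coprime v₂ ∧ v₁.Coprime l₁ ∧ v₂.Coprime l₁ ∧ v₂.Coprime l₂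

instance (v₁ v₂ l₁ l₂ : ℕ) : Decidable (Good v₁ v₂ l₁ l₂) := by unfold Good; infer_instance

/-- the pairs `(l₁, l₂)` with `l₁ ≠ l₂` and `u ∣ l₁ - l₂` -/
def SLL (u : ℕ) : Finset (ℕ × ℕ) :=
  (d.SL ×ˢ d.SL).filter (fun x => x.1 ≠ x.2 ∧ (u : ℤ) ∣ (x.1 : ℤ) - x.2)

/-- the off-diagonal part, good terms -/
noncomputable def GoodSum (w : ℝ → ℝ) (β : ℕ → ℝ) : ℝ :=
  ∑ u ∈ d.SU, ∑ x ∈ d.SLL u, β x.1 * β x.2 *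
    ∑ v ∈ (d.SV ×ˢ d.SV).filter (fun v => Good v.1 v.2 x.1 x.2), d.kSum w u v.1 v.2 x.1 x.2

end DD

end Pool.Agent.Lib.MP_2a816b_nt.BH
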