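import Mathlib
import Pool.Agent.Lib.MP_2a816b_nt.Expo

/-!
# Beyond one half: definitions
-/

set_option autoImplicit false

open Finset Real

namespace Pool.Agent.Lib.MP_2a816b_nt.BH

/-- `bc q n = b_q c_q(n)` for squarefree `q`, where `b_q = μ(q) / φ(q)` and `c_q` is the Ramanujan sum:
the product over the primes `p ∣ q` of `-1` if `p ∣ n` and `1 / (p - 1)` otherwise. -/
noncomputable def bc (q : ℕ) (n : ℤ) : ℝ :=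
  ∏ p ∈ q.primeFactors, if (p : ℤ) ∣ n then (-1 : ℝ) else 1 / ((p : ℝ) - 1)

/-- `b_q = μ(q) / φ(q)` -/
noncomputable def bq (q : ℕ) : ℝ := ((ArithmeticFunction.moebius q : ℤ) : ℝ) / (q.totient : ℝ)

/-- `F_Q(n) = ∑_{q ∈ Q} b_q c_q(n)` -/
noncomputable def FQ (Q : Finset ℕ) (n : ℤ) : ℝ := ∑ q ∈ Q, bc q n

/-- `T` bounds the divisor function and the logarithm up to `M` -/
structure Big (M : ℕ) (T : ℝ) : Prop where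
  one : 100 ≤ T
  tau : ∀ n : ℕ, 0 < n → n ≤ M → (n.divisors.card : ℝ) ≤ T
  log : Real.log M + 2 ≤ T

/-- bilinear bound: for all bounded coefficients -/
def Bil (F : ℤ → ℝ) (K : ℕ) (S : Finset ℕ) (B : ℝ) : Prop :=
  ∀ α β : ℕ → ℝ, (∀ k, |α k| ≤ 1) → (∀ l, |β l| ≤ 1) →
    |∑ k ∈ Ioc 0 K, ∑ l ∈ S, α k * β l * F ((k : ℤ) * l)| ≤ B

/-- additive character of `ZMod q` (for `q = 0` a junk value) -/
noncomputable def ee (q : ℕ) (x : ZMod q) : ℂ := e ((x.val : ℝ) / q)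

/-- the Kloosterman phase: `e(A ū / l) e(B \overline{(l + u t)} / m)` if the inverses exist, otherwise `0` -/
noncomputable def kl (l m : ℕ) (t A B : ℤ) (u : ℤ) : ℂ :=
  open Classical in
  if IsUnit ((u : ℤ) : ZMod l) ∧ IsUnit (((l : ℤ) + u * t : ℤ) : ZMod m) then
    ee l ((A : ZMod l) * ((u : ℤ) : ZMod l)⁻¹) *
      ee m ((B : ZMod m) * (((l : ℤ) + u * t : ℤ) : ZMod m)⁻¹)
  else 0

/-- a smooth weight `w` and its Fourier transform `wh` -/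
structure Wt (w wh : ℝ → ℝ) (C : ℝ) (CA : ℕ → ℝ) : Prop where
  C1 : 1 ≤ C
  nonneg : ∀ x, 0 ≤ w x
  le : ∀ x, w x ≤ C
  one : ∀ x, |x| ≤ 1 → 1 ≤ w x
  supp : ∀ x, 2 ≤ |x| → w x = 0
  wh_le : ∀ x, |wh x| ≤ C
  wh_even : ∀ x, wh (-x) = wh x
  decay : ∀ (A : ℕ) (x : ℝ), |x| ^ A * |wh x| ≤ CA A
  var : ∀ (a : ℝ) (U₁ U₂ : ℕ), 0 < U₁ → U₁ ≤ U₂ →
    ∑ u ∈ Ico U₁ U₂, |wh (a / ((u : ℝ) + 1)) - wh (a / u)| ≤ C
  poisson : ∀ K : ℝ, 0 < K → ∀ θ : ℝ, HasSum (fun ν : ℤ => ((K * wh (K * ((ν : ℝ) - θ)) : ℝ) : ℂ))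
    (∑ k ∈ Icc (-⌈2 * K⌉) ⌈2 * K⌉, (w ((k : ℝ) / K) : ℂ) * e ((k : ℝ) * θ))

end Pool.Agent.Lib.MP_2a816b_nt.BH
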