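import Pool.Agent.Lib.MP_2a816b_nt.BH.Defs

/-!
# JOB Dens: `∑_{e ≤ y, (e, D) = 1} μ²(e) / φ(e)` with power saving

`f(e) = μ²(e) / φ(e)` for `(e, D) = 1`, `0` otherwise. Let `k` be the multiplicative function with: for `p ∤ D`: `k(p) = 1 / (p (p - 1))`, `k(p ^ 2) = - 1 / (p (p - 1))`; for `p ∣ D`: `k(p) = - 1 / p`,
`k(p ^ 2) = 0`; `k(p ^ i) = 0` for `i ≥ 3`. Then `f(e) = ∑_{a b = e} k(a) / b` (check on prime powers: `p ∤ D`: `k(p) + 1/p = 1/(p-1)`, `k(p^2) + k(p)/p + 1/p^2 = 0`, etc.; `p ∣ D`: `k(p) + 1/p = 0`).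
So `k = f * g` with `g(b) = μ(b) / b`, i.e. one may define `k` as the Dirichlet product `f * (μ(b) / b)` and compute it on prime powers (multiplicativity of `ArithmeticFunction`s).
`∑_a |k(a)| a ^ (1/4) ≤ ∏_p (1 + |k(p)| p ^ (1/4) + |k(p ^ 2)| p ^ (1/2)) ≤ C ∏_{p ∣ D} (1 + p ^ (-3/4)) ≤ C τ(D)`, because for `p ∤ D` the factor is `≤ 1 + 4 p ^ (-3/2)` and for `p ∣ D` `≤ 1 + p ^ (-3/4) ≤ 2`
(for finite partial sums: `∑_{a ≤ A} ≤ ∏_{p ≤ A}`; `EulerProduct`, or `Nat.primesBelow`/`smoothNumbers` versions; or any other way to get a bound `C τ(D)`).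
`∑_a k(a) = ∏_p (1 + k(p) + k(p ^ 2)) = ∏_{p ∣ D} (1 - 1 / p) = φ(D) / D` (`EulerProduct.eulerProduct_hasProd` etc.; the factors are `1` for `p ∤ D`).
Finally `∑_{e ≤ y} f(e) = ∑_{a ≤ y} k(a) H(⌊y / a⌋)`, `|H(⌊x⌋) - log x - γ| ≤ 2 / x` for `x ≥ 1` (`Real.eulerMascheroniConstant` lemmas), and `∑_{a > y} |k(a)| (log(a / y) + γ) ≤ 5 y ^ (-1/4) ∑ |k(a)| a ^ (1/4)`
(`log x ≤ 4 x ^ (1/4)`), `∑_{a ≤ y} |k(a)| a / y ≤ y ^ (-1/4) ∑ |k(a)| a ^ (1/4)`. `B = γ ∑ k(a) - ∑ k(a) log a`.
-/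

set_option autoImplicit false

open Finset Real

namespace Pool.Agent.Lib.MP_2a816b_nt.BH

/-- `S(y; D) = ∑_{e ≤ y, (e, D) = 1} μ²(e) / φ(e)` -/
noncomputable def SD (y D : ℕ) : ℝ :=
  ∑ e ∈ (Ioc 0 y).filter (fun e => Squarefree e ∧ e.Coprime D), 1 / (e.totient : ℝ)

private noncomputable def DensF (D : ℕ) : ArithmeticFunction ℝ :=
  ⟨fun e => if Squarefree e ∧ e.Coprime D then 1 / (e.totient : ℝ) else 0, by simp⟩

private noncomputable def DensI : ArithmeticFunction ℝ := ⟨fun b => 1 / (b : ℝ), by simp⟩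

private noncomputable def DensG : ArithmeticFunction ℝ :=
  ⟨fun b => ((ArithmeticFunction.moebius b : ℤ) : ℝ) / (b : ℝ), by simp⟩

private noncomputable def DensK (D : ℕ) : ArithmeticFunction ℝ := DensF D * DensG

private theorem DensF_apply (D e : ℕ) :
    DensF D e = if Squarefree e ∧ e.Coprime D then 1 / (e.totient : ℝ) else 0 := rfl

private theorem DensI_apply (b : ℕ) : DensI b = 1 / (b : ℝ) := rfl

private theorem DensG_apply (b : ℕ) :
    DensG b = ((ArithmeticFunction.moebius b : ℤ) : ℝ) / (b : ℝ) := rfl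

private theorem DensGI : DensG * DensI = 1 := by
  ext n
  rcases Nat.eq_zero_or_pos n with rfl | hn
  · simp
  rw [ArithmeticFunction.mul_apply]
  have h1 : ∑ x ∈ n.divisorsAntidiagonal, DensG x.1 * DensI x.2 =
      (((∑ x ∈ n.divisorsAntidiagonal, ArithmeticFunction.moebius x.1 : ℤ)) : ℝ) / (n : ℝ) := by
    push_cast
    rw [Finset.sum_div]
    refine Finset.sum_congr rfl fun x hx => ?_
    have hx' := (Nat.mem_divisorsAntidiagonal.mp hx).1
    rw [DensG_apply, DensI_apply, ← hx']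
    push_cast
    rw [div_mul_div_comm, mul_one]
  have h2 : ∑ x ∈ n.divisorsAntidiagonal, ArithmeticFunction.moebius x.1 =
      (1 : ArithmeticFunction ℤ) n := by
    rw [← ArithmeticFunction.moebius_mul_coe_zeta, ArithmeticFunction.mul_apply]
    refine Finset.sum_congr rfl fun x hx => ?_
    have hx' : x.2 ≠ 0 := by
      have := Nat.mem_divisorsAntidiagonal.mp hx
      rintro h
      rw [h, mul_zero] at this
      exact this.2 this.1.symm
    simp [ArithmeticFunction.natCoe_apply, ArithmeticFunction.zeta_apply, hx']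
  rw [h1, h2]
  by_cases h : n = 1
  · subst h
    simp
  · simp [h]

private theorem DensKI (D : ℕ) : DensK D * DensI = DensF D := by
  rw [DensK, mul_assoc, DensGI, mul_one]

private theorem DensF_mult (D : ℕ) : (DensF D).IsMultiplicative := by
  refine ⟨?_, ?_⟩
  · rw [DensF_apply]
    simp
  · intro m n hmn
    rw [DensF_apply, DensF_apply, DensF_apply]
    have h1 : (Squarefree (m * n) ∧ (m * n).Coprime D) ↔
        ((Squarefree m ∧ m.Coprime D) ∧ (Squarefree n ∧ n.Coprime D)) := by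
      rw [Nat.squarefree_mul hmn, Nat.coprime_mul_iff_left]
      tauto
    by_cases hm : Squarefree m ∧ m.Coprime D
    · by_cases hn : Squarefree n ∧ n.Coprime D
      · rw [if_pos (h1.mpr ⟨hm, hn⟩), if_pos hm, if_pos hn, Nat.totient_mul hmn]
        push_cast
        rw [div_mul_div_comm, mul_one]
      · rw [if_neg (fun h => hn (h1.mp h).2), if_neg hn, mul_zero]
    · rw [if_neg (fun h => hm (h1.mp h).1), if_neg hm, zero_mul]

private theorem DensG_mult : DensG.IsMultiplicative := by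
  refine ⟨?_, ?_⟩
  · rw [DensG_apply]
    simp
  · intro m n hmn
    rw [DensG_apply, DensG_apply, DensG_apply,
      ArithmeticFunction.isMultiplicative_moebius.map_mul_of_coprime hmn]
    push_cast
    rw [div_mul_div_comm]

private theorem DensK_mult (D : ℕ) : (DensK D).IsMultiplicative :=
  (DensF_mult D).mul DensG_mult

private theorem DensK_pow (D p i : ℕ) (hp : p.Prime) :
    DensK D (p ^ i) = ∑ x ∈ range (i + 1), DensF D (p ^ x) * DensG (p ^ (i - x)) := by
  rw [DensK, ArithmeticFunction.mul_apply,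
    Nat.sum_divisorsAntidiagonal (fun a b => DensF D a * DensG b),
    Nat.sum_divisors_prime_pow hp]
  refine Finset.sum_congr rfl fun x hx => ?_
  rw [Nat.pow_div (Nat.lt_succ_iff.mp (Finset.mem_range.mp hx)) hp.pos]

private theorem DensF_big (D p x : ℕ) (hp : p.Prime) (hx : 2 ≤ x) : DensF D (p ^ x) = 0 := by
  rw [DensF_apply, if_neg]
  rintro ⟨h, _⟩
  have h1 : p * p ∣ p ^ x := by
    rw [← sq]
    exact pow_dvd_pow p hx
  exact hp.not_isUnit (h p h1)

private theorem DensG_big (p x : ℕ) (hp : p.Prime) (hx : 2 ≤ x) : DensG (p ^ x) = 0 := by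
  rw [DensG_apply, ArithmeticFunction.moebius_eq_zero_of_not_squarefree]
  · simp
  · intro h
    have h1 : p * p ∣ p ^ x := by
      rw [← sq]
      exact pow_dvd_pow p hx
    exact hp.not_isUnit (h p h1)

private theorem DensK_big (D p i : ℕ) (hp : p.Prime) (hi : 3 ≤ i) : DensK D (p ^ i) = 0 := by
  rw [DensK_pow D p i hp]
  refine Finset.sum_eq_zero fun x hx => ?_
  by_cases h : 2 ≤ x
  · rw [DensF_big D p x hp h, zero_mul]
  · rw [DensG_big p (i - x) hp (by omega), mul_zero]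

private theorem DensG_prime (p : ℕ) (hp : p.Prime) : DensG p = -(1 / (p : ℝ)) := by
  rw [DensG_apply, ArithmeticFunction.moebius_apply_prime hp]
  push_cast
  ring

private theorem DensK_one_ (D p : ℕ) (hp : p.Prime) : DensK D (p ^ 1) = DensF D p - 1 / (p : ℝ) := by
  rw [DensK_pow D p 1 hp, Finset.sum_range_succ, Finset.sum_range_succ, Finset.sum_range_zero]
  simp only [pow_zero, pow_one, Nat.sub_self, Nat.sub_zero, (DensF_mult D).1, DensG_mult.1]
  rw [DensG_prime p hp]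
  ring

private theorem DensK_two_ (D p : ℕ) (hp : p.Prime) : DensK D (p ^ 2) = -(DensF D p / (p : ℝ)) := by
  rw [DensK_pow D p 2 hp, Finset.sum_range_succ, Finset.sum_range_succ, Finset.sum_range_succ,
    Finset.sum_range_zero]
  have h1 : DensF D (p ^ 2) = 0 := DensF_big D p 2 hp le_rfl
  have h2 : DensG (p ^ (2 - 0)) = 0 := DensG_big p 2 hp le_rfl
  have h3 : DensG (p ^ (2 - 1)) = -(1 / (p : ℝ)) := by
    rw [show 2 - 1 = 1 from rfl, pow_one, DensG_prime p hp]
  rw [h1, h2, h3, pow_one]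
  ring

private theorem DensF_prime_dvd (D p : ℕ) (hp : p.Prime) (h : p ∣ D) : DensF D p = 0 := by
  rw [DensF_apply, if_neg]
  rintro ⟨_, h1⟩
  exact (Nat.Prime.coprime_iff_not_dvd hp).mp h1 h

private theorem DensF_prime_not (D p : ℕ) (hp : p.Prime) (h : ¬ p ∣ D) :
    DensF D p = 1 / ((p : ℝ) - 1) := by
  rw [DensF_apply, if_pos ⟨hp.prime.squarefree, (Nat.Prime.coprime_iff_not_dvd hp).mpr h⟩,
    Nat.totient_prime hp, Nat.cast_sub hp.one_le, Nat.cast_one]

private theorem DensK_tsum (D p : ℕ) (hp : p.Prime) :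
    ∑' e : ℕ, DensK D (p ^ e) = if p ∣ D then 1 - 1 / (p : ℝ) else 1 := by
  rw [tsum_eq_sum (s := range 3)]
  · rw [Finset.sum_range_succ, Finset.sum_range_succ, Finset.sum_range_succ, Finset.sum_range_zero,
      DensK_one_ D p hp, DensK_two_ D p hp, pow_zero, (DensK_mult D).1]
    split_ifs with h
    · rw [DensF_prime_dvd D p hp h]
      ring
    · rw [DensF_prime_not D p hp h]
      have h2 : (1 : ℝ) < p := by exact_mod_cast hp.one_lt
      have h3 : (p : ℝ) - 1 ≠ 0 := by linarith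
      have h4 : (p : ℝ) ≠ 0 := by linarith
      field_simp
      ring
  · intro e he
    rw [Finset.mem_range, not_lt] at he
    exact DensK_big D p e hp he

/-- the weighted absolute value -/
private noncomputable def DensH (D a : ℕ) : ℝ := |DensK D a| * (a : ℝ) ^ (1 / 4 : ℝ)

private theorem DensH_nonneg (D a : ℕ) : 0 ≤ DensH D a := by
  unfold DensH
  positivity

private theorem DensH_zero (D : ℕ) : DensH D 0 = 0 := by
  unfold DensH
  simp

private theorem DensH_one (D : ℕ) : DensH D 1 = 1 := by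
  unfold DensH
  rw [(DensK_mult D).1]
  simp

private theorem DensH_mul (D : ℕ) {m n : ℕ} (h : Nat.Coprime m n) :
    DensH D (m * n) = DensH D m * DensH D n := by
  unfold DensH
  rw [(DensK_mult D).2 h, abs_mul, Nat.cast_mul, Real.mul_rpow (Nat.cast_nonneg m)
    (Nat.cast_nonneg n)]
  ring

private theorem DensH_big (D p i : ℕ) (hp : p.Prime) (hi : 3 ≤ i) : DensH D (p ^ i) = 0 := by
  unfold DensH
  rw [DensK_big D p i hp hi]
  simp

private theorem DensH_tsum (D p : ℕ) (hp : p.Prime) :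
    ∑' e : ℕ, DensH D (p ^ e) ≤
      (1 + 4 * (p : ℝ) ^ (-(3 / 2) : ℝ)) * (if p ∣ D then 2 else 1) := by
  have hp2 : (2 : ℝ) ≤ p := by exact_mod_cast hp.two_le
  have hp0 : (0 : ℝ) < p := by linarith
  rw [tsum_eq_sum (s := range 3)]
  · rw [Finset.sum_range_succ, Finset.sum_range_succ, Finset.sum_range_succ, Finset.sum_range_zero,
      pow_zero, DensH_one]
    unfold DensH
    rw [DensK_one_ D p hp, DensK_two_ D p hp]
    have hq1 : (((p ^ 1 : ℕ) : ℝ)) ^ (1 / 4 : ℝ) = (p : ℝ) ^ (1 / 4 : ℝ) := by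
      rw [pow_one]
    have hq2 : (((p ^ 2 : ℕ) : ℝ)) ^ (1 / 4 : ℝ) = (p : ℝ) ^ (1 / 2 : ℝ) := by
      rw [Nat.cast_pow, ← Real.rpow_natCast, ← Real.rpow_mul hp0.le]
      norm_num
    rw [hq1, hq2]
    have hpos : 0 ≤ (p : ℝ) ^ (-(3 / 2) : ℝ) := by positivity
    split_ifs with h
    · rw [DensF_prime_dvd D p hp h]
      have h1 : |(0 : ℝ) - 1 / (p : ℝ)| * (p : ℝ) ^ (1 / 4 : ℝ) ≤ 1 := by
        rw [zero_sub, abs_neg, abs_of_pos (by positivity)]
        have h2 : (p : ℝ) ^ (1 / 4 : ℝ) ≤ (p : ℝ) ^ (1 : ℝ) :=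
          Real.rpow_le_rpow_of_exponent_le (by linarith) (by norm_num)
        rw [Real.rpow_one] at h2
        rw [div_mul_eq_mul_div, one_mul, div_le_one hp0]
        exact h2
      simp only [zero_div, neg_zero, abs_zero, zero_mul]
      nlinarith
    · rw [DensF_prime_not D p hp h]
      have h3 : (p : ℝ) - 1 > 0 := by linarith
      have h4 : |1 / ((p : ℝ) - 1) - 1 / (p : ℝ)| = 1 / (p * (p - 1)) := by
        rw [abs_of_nonneg]
        · field_simp
          ring
        · rw [sub_nonneg]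
          exact one_div_le_one_div_of_le h3 (by linarith)
      have h5 : |-(1 / ((p : ℝ) - 1) / (p : ℝ))| = 1 / (p * (p - 1)) := by
        rw [abs_neg, abs_of_pos (by positivity)]
        field_simp
      rw [h4, h5]
      have h6 : 1 / ((p : ℝ) * (p - 1)) ≤ 2 * (p : ℝ) ^ (-(2 : ℝ)) := by
        rw [Real.rpow_neg hp0.le, show ((p : ℝ) ^ (2 : ℝ)) = (p : ℝ) ^ (2 : ℕ) by
          rw [← Real.rpow_natCast]; norm_num]
        rw [← div_eq_mul_inv, div_le_div_iff₀ (by positivity) (by positivity)]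
        nlinarith
      have h7 : (p : ℝ) ^ (1 / 4 : ℝ) ≤ (p : ℝ) ^ (1 / 2 : ℝ) :=
        Real.rpow_le_rpow_of_exponent_le (by linarith) (by norm_num)
      have h8 : (p : ℝ) ^ (-(2 : ℝ)) * (p : ℝ) ^ (1 / 2 : ℝ) = (p : ℝ) ^ (-(3 / 2) : ℝ) := by
        rw [← Real.rpow_add hp0]
        norm_num
      have h9 : 0 ≤ (p : ℝ) ^ (1 / 2 : ℝ) := by positivity
      have h10 : 0 ≤ 1 / ((p : ℝ) * (p - 1)) := by positivity
      have h11 : 1 / ((p : ℝ) * (p - 1)) * (p : ℝ) ^ (1 / 2 : ℝ) ≤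
          2 * (p : ℝ) ^ (-(3 / 2) : ℝ) := by
        rw [← h8, ← mul_assoc]
        exact mul_le_mul_of_nonneg_right h6 h9
      have h12 : 1 / ((p : ℝ) * (p - 1)) * (p : ℝ) ^ (1 / 4 : ℝ) ≤
          1 / ((p : ℝ) * (p - 1)) * (p : ℝ) ^ (1 / 2 : ℝ) :=
        mul_le_mul_of_nonneg_left h7 h10
      linarith
  · intro e he
    rw [Finset.mem_range, not_lt] at he
    exact DensH_big D p e hp he

/-- the constant -/
private noncomputable def DensZ : ℝ := ∑' n : ℕ, (n : ℝ) ^ (-(3 / 2) : ℝ)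

private theorem DensZ_summable : Summable fun n : ℕ => (n : ℝ) ^ (-(3 / 2) : ℝ) :=
  Real.summable_nat_rpow.mpr (by norm_num)

private theorem DensZ_nonneg : 0 ≤ DensZ := tsum_nonneg fun n => by positivity

private theorem Dens_two_pow (D N : ℕ) (hD : 0 < D) :
    ∏ p ∈ N.primesBelow, (if p ∣ D then (2 : ℝ) else 1) ≤ (D.divisors.card : ℝ) := by
  rw [← Finset.prod_filter, Finset.prod_const]
  have h1 : (N.primesBelow.filter fun p => p ∣ D) ⊆ D.primeFactors := by
    intro p hp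
    rw [Finset.mem_filter] at hp
    exact Nat.mem_primeFactors.mpr ⟨Nat.prime_of_mem_primesBelow hp.1, hp.2, hD.ne'⟩
  have h2 : (2 : ℝ) ^ (N.primesBelow.filter fun p => p ∣ D).card ≤
      (2 : ℝ) ^ D.primeFactors.card :=
    pow_le_pow_right₀ (by norm_num) (Finset.card_le_card h1)
  refine h2.trans ?_
  rw [Nat.card_divisors hD.ne']
  push_cast
  rw [← Finset.prod_const]
  refine Finset.prod_le_prod (fun _ _ => by norm_num) fun p hp => ?_
  have h3 : 1 ≤ D.factorization p :=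
    (Nat.mem_primeFactors.mp hp).1.factorization_pos_of_dvd hD.ne' (Nat.mem_primeFactors.mp hp).2.1
  have h4 : (1 : ℝ) ≤ (D.factorization p : ℝ) := by exact_mod_cast h3
  linarith

private theorem Dens_prod_le (D N : ℕ) (hD : 0 < D) :
    ∏ p ∈ N.primesBelow, ∑' e : ℕ, DensH D (p ^ e) ≤
      Real.exp (4 * DensZ) * (D.divisors.card : ℝ) := by
  have h1 : ∏ p ∈ N.primesBelow, ∑' e : ℕ, DensH D (p ^ e) ≤
      ∏ p ∈ N.primesBelow, ((1 + 4 * (p : ℝ) ^ (-(3 / 2) : ℝ)) * (if p ∣ D then 2 else 1)) :=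
    Finset.prod_le_prod (fun p _ => tsum_nonneg fun e => DensH_nonneg D _)
      fun p hp => DensH_tsum D p (Nat.prime_of_mem_primesBelow hp)
  rw [Finset.prod_mul_distrib] at h1
  refine h1.trans ?_
  have h2 : ∏ p ∈ N.primesBelow, (1 + 4 * (p : ℝ) ^ (-(3 / 2) : ℝ)) ≤ Real.exp (4 * DensZ) := by
    calc ∏ p ∈ N.primesBelow, (1 + 4 * (p : ℝ) ^ (-(3 / 2) : ℝ))
        ≤ ∏ p ∈ N.primesBelow, Real.exp (4 * (p : ℝ) ^ (-(3 / 2) : ℝ)) := by
          refine Finset.prod_le_prod (fun p _ => by positivity) fun p _ => ?_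
          have := Real.add_one_le_exp (4 * (p : ℝ) ^ (-(3 / 2) : ℝ))
          linarith
      _ = Real.exp (∑ p ∈ N.primesBelow, 4 * (p : ℝ) ^ (-(3 / 2) : ℝ)) := by
          rw [Real.exp_sum]
      _ ≤ Real.exp (4 * DensZ) := by
          apply Real.exp_le_exp.mpr
          rw [← Finset.mul_sum]
          apply mul_le_mul_of_nonneg_left _ (by norm_num)
          exact DensZ_summable.sum_le_tsum _ fun n _ => by positivity
  exact mul_le_mul h2 (Dens_two_pow D N hD)
    (Finset.prod_nonneg fun p _ => by split_ifs <;> norm_num) (Real.exp_pos _).le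

private theorem Dens_sum_le (D : ℕ) (hD : 0 < D) (N : ℕ) :
    ∑ a ∈ range N, DensH D a ≤ Real.exp (4 * DensZ) * (D.divisors.card : ℝ) := by
  have hs : ∀ {p : ℕ}, p.Prime → Summable fun n : ℕ => ‖DensH D (p ^ n)‖ := by
    intro p hp
    apply summable_of_ne_finset_zero (s := range 3)
    intro n hn
    rw [Finset.mem_range, not_lt] at hn
    rw [DensH_big D p n hp hn, norm_zero]
  obtain ⟨h1, h2⟩ := EulerProduct.summable_and_hasSum_smoothNumbers_prod_primesBelow_tsum
    (f := DensH D) (DensH_one D) (fun h => DensH_mul D h) hs N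
  refine le_trans ?_ (Dens_prod_le D N hD)
  rw [← h2.tsum_eq]
  have h3 : Summable (Set.indicator (N.smoothNumbers) (DensH D)) :=
    (summable_subtype_iff_indicator).mp h2.summable
  have h4 : ∑' m : N.smoothNumbers, DensH D m = ∑' m, Set.indicator (N.smoothNumbers) (DensH D) m :=
    tsum_subtype _ _
  rw [h4]
  refine le_trans (Finset.sum_le_sum fun a ha => ?_) (h3.sum_le_tsum (range N) fun a _ =>
    Set.indicator_nonneg (fun m _ => DensH_nonneg D m) a)
  rcases Nat.eq_zero_or_pos a with rfl | ha0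
  · rw [DensH_zero]
    exact Set.indicator_nonneg (fun m _ => DensH_nonneg D m) 0
  · rw [Set.indicator_of_mem (Nat.mem_smoothNumbers_of_lt ha0 (Finset.mem_range.mp ha))]

private theorem DensH_summable (D : ℕ) (hD : 0 < D) : Summable (DensH D) :=
  summable_of_sum_range_le (DensH_nonneg D) (Dens_sum_le D hD)

private theorem DensH_tsum_le (D : ℕ) (hD : 0 < D) :
    ∑' a, DensH D a ≤ Real.exp (4 * DensZ) * (D.divisors.card : ℝ) :=
  Real.tsum_le_of_sum_range_le (DensH_nonneg D) (Dens_sum_le D hD)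

private theorem DensK_le (D a : ℕ) : |DensK D a| ≤ DensH D a := by
  rcases Nat.eq_zero_or_pos a with rfl | ha
  · rw [DensH_zero]
    simp
  · unfold DensH
    have h1 : (1 : ℝ) ≤ (a : ℝ) ^ (1 / 4 : ℝ) :=
      Real.one_le_rpow (by exact_mod_cast ha) (by norm_num)
    have h2 := abs_nonneg (DensK D a)
    nlinarith

private theorem DensK_summable (D : ℕ) (hD : 0 < D) : Summable fun a => ‖DensK D a‖ :=
  Summable.of_nonneg_of_le (fun _ => norm_nonneg _) (fun a => DensK_le D a) (DensH_summable D hD)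

private theorem DensK_sum (D : ℕ) (hD : 0 < D) :
    ∑' a, DensK D a = (D.totient : ℝ) / D := by
  have h1 := (DensK_mult D).eulerProduct (DensK_summable D hD)
  have h2 : ∀ n : ℕ, D < n → ∏ p ∈ n.primesBelow, ∑' e : ℕ, DensK D (p ^ e) =
      (D.totient : ℝ) / D := by
    intro n hn
    have h3 : ∏ p ∈ n.primesBelow, ∑' e : ℕ, DensK D (p ^ e) =
        ∏ p ∈ n.primesBelow, (if p ∣ D then 1 - 1 / (p : ℝ) else 1) :=
      Finset.prod_congr rfl fun p hp => DensK_tsum D p (Nat.prime_of_mem_primesBelow hp)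
    rw [h3, ← Finset.prod_filter]
    have h4 : (n.primesBelow.filter fun p => p ∣ D) = D.primeFactors := by
      ext p
      rw [Finset.mem_filter, Nat.mem_primesBelow, Nat.mem_primeFactors]
      constructor
      · rintro ⟨⟨_, h5⟩, h6⟩
        exact ⟨h5, h6, hD.ne'⟩
      · rintro ⟨h5, h6, _⟩
        exact ⟨⟨lt_of_le_of_lt (Nat.le_of_dvd hD h6) hn, h5⟩, h6⟩
    rw [h4]
    have h5 := Nat.totient_eq_mul_prod_factors D
    have h6 : ((D.totient : ℚ) : ℝ) = ((D * ∏ p ∈ D.primeFactors, (1 - (p : ℚ)⁻¹) : ℚ) : ℝ) := by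
      rw [h5]
    push_cast at h6
    have hD' : (D : ℝ) ≠ 0 := by exact_mod_cast hD.ne'
    rw [h6, mul_div_assoc, mul_comm, div_mul_cancel₀ _ hD']
    refine Finset.prod_congr rfl fun p _ => ?_
    rw [one_div]
  have h3 : Filter.Tendsto (fun n : ℕ => ∏ p ∈ n.primesBelow, ∑' e : ℕ, DensK D (p ^ e))
      Filter.atTop (nhds ((D.totient : ℝ) / D)) := by
    apply tendsto_const_nhds.congr'
    filter_upwards [Filter.eventually_gt_atTop D] with n hn
    exact (h2 n hn).symm
  exact tendsto_nhds_unique h1 h3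

/-- harmonic numbers -/
private theorem Dens_harm (n : ℕ) (x : ℝ) (hn : 1 ≤ n) (h1 : (n : ℝ) ≤ x) (h2 : x < n + 1) :
    |∑ m ∈ Ioc 0 n, DensI m - Real.log x - Real.eulerMascheroniConstant| ≤ 2 / x := by
  have hn' : (1 : ℝ) ≤ n := by exact_mod_cast hn
  have hH : ∑ m ∈ Ioc 0 n, DensI m = ((harmonic n : ℚ) : ℝ) := by
    rw [harmonic_eq_sum_Icc]
    push_cast
    refine Finset.sum_congr ?_ fun m _ => ?_
    · ext m
      simp only [Finset.mem_Ioc, Finset.mem_Icc]
      omega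
    · rw [DensI_apply, one_div]
  have h3 := Real.eulerMascheroniSeq_lt_eulerMascheroniConstant n
  have h4 := Real.eulerMascheroniConstant_lt_eulerMascheroniSeq' n
  rw [Real.eulerMascheroniSeq] at h3
  rw [Real.eulerMascheroniSeq', if_neg (by omega)] at h4
  rw [hH]
  have h5 : Real.log n ≤ Real.log x := Real.log_le_log (by linarith) h1
  have h6 : Real.log x ≤ Real.log (n + 1) := Real.log_le_log (by linarith) h2.le
  have h7 : Real.log (n + 1) - Real.log n ≤ 1 / n := by
    rw [← Real.log_div (by linarith) (by linarith)]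
    have h8 := Real.log_le_sub_one_of_pos (x := ((n : ℝ) + 1) / n) (by positivity)
    have h9 : ((n : ℝ) + 1) / n - 1 = 1 / n := by
      field_simp
      ring
    linarith
  have h8 : 1 / (n : ℝ) ≤ 2 / x := by
    rw [div_le_div_iff₀ (by linarith) (by linarith)]
    linarith
  rw [abs_le]
  constructor <;> linarith

private theorem Dens_point (D y a : ℕ) (hy : 1 ≤ y) :
    |DensK D a * ((if a ∈ Ioc 0 y then ∑ m ∈ Ioc 0 (y / a), DensI m else 0) -
      (Real.log y - Real.log a + Real.eulerMascheroniConstant))| ≤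
      5 * (y : ℝ) ^ (-(1 / 4) : ℝ) * DensH D a := by
  rcases Nat.eq_zero_or_pos a with rfl | ha
  · rw [DensH_zero]
    simp
  have hy' : (0 : ℝ) < y := by exact_mod_cast hy
  have ha' : (0 : ℝ) < a := by exact_mod_cast ha
  have hγ1 := Real.one_half_lt_eulerMascheroniConstant
  have hγ2 := Real.eulerMascheroniConstant_lt_two_thirds
  rw [abs_mul]
  have hexp : ((a : ℝ) / y) ^ (1 / 4 : ℝ) = (y : ℝ) ^ (-(1 / 4) : ℝ) * (a : ℝ) ^ (1 / 4 : ℝ) := by
    rw [Real.div_rpow ha'.le hy'.le, Real.rpow_neg hy'.le, div_eq_mul_inv, mul_comm]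
  have key : |(if a ∈ Ioc 0 y then ∑ m ∈ Ioc 0 (y / a), DensI m else 0) -
      (Real.log y - Real.log a + Real.eulerMascheroniConstant)| ≤
      5 * ((a : ℝ) / y) ^ (1 / 4 : ℝ) := by
    by_cases hay : a ≤ y
    · rw [if_pos (Finset.mem_Ioc.mpr ⟨ha, hay⟩)]
      have h1 : 1 ≤ y / a := Nat.div_pos hay ha
      have h2 : ((y / a : ℕ) : ℝ) ≤ (y : ℝ) / a := Nat.cast_div_le
      have h3 : (y : ℝ) / a < ((y / a : ℕ) : ℝ) + 1 := by
        rw [div_lt_iff₀ ha']
        have h4 : y < (y / a + 1) * a := by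
          rw [mul_comm]
          exact Nat.lt_mul_div_succ y ha
        exact_mod_cast h4
      have h4 := Dens_harm (y / a) ((y : ℝ) / a) h1 h2 h3
      rw [Real.log_div hy'.ne' ha'.ne'] at h4
      have h5 : 2 / ((y : ℝ) / a) = 2 * ((a : ℝ) / y) := by
        field_simp
      have h6 : (a : ℝ) / y ≤ 1 := by
        rw [div_le_one hy']
        exact_mod_cast hay
      have h7 : (a : ℝ) / y ≤ ((a : ℝ) / y) ^ (1 / 4 : ℝ) := by
        have h8 := Real.rpow_le_rpow_of_exponent_ge (x := (a : ℝ) / y) (by positivity) h6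
          (by norm_num : (1 / 4 : ℝ) ≤ 1)
        rwa [Real.rpow_one] at h8
      have h8 : 0 ≤ ((a : ℝ) / y) ^ (1 / 4 : ℝ) := by positivity
      have h9 : ∑ m ∈ Ioc 0 (y / a), DensI m - (Real.log y - Real.log a +
          Real.eulerMascheroniConstant) = ∑ m ∈ Ioc 0 (y / a), DensI m -
          (Real.log y - Real.log a) - Real.eulerMascheroniConstant := by ring
      rw [h9]
      rw [h5] at h4
      linarith
    · rw [if_neg (fun h => hay (Finset.mem_Ioc.mp h).2)]
      have hya : (y : ℝ) < a := by exact_mod_cast not_le.mp hay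
      have h1 : 1 ≤ (a : ℝ) / y := by
        rw [one_le_div hy']
        exact hya.le
      have h2 : Real.log ((a : ℝ) / y) ≤ ((a : ℝ) / y) ^ (1 / 4 : ℝ) / (1 / 4) :=
        Real.log_le_rpow_div (by positivity) (by norm_num)
      have h3 : 1 ≤ ((a : ℝ) / y) ^ (1 / 4 : ℝ) := Real.one_le_rpow h1 (by norm_num)
      have h4 : 0 ≤ Real.log ((a : ℝ) / y) := Real.log_nonneg h1
      rw [Real.log_div ha'.ne' hy'.ne'] at h2 h4
      rw [abs_le]
      constructor <;> linarith
  calc |DensK D a| * _ ≤ |DensK D a| * (5 * ((a : ℝ) / y) ^ (1 / 4 : ℝ)) :=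
        mul_le_mul_of_nonneg_left key (abs_nonneg _)
    _ = 5 * (y : ℝ) ^ (-(1 / 4) : ℝ) * DensH D a := by
        rw [hexp]
        unfold DensH
        ring

private theorem DensK_log_summable (D : ℕ) (hD : 0 < D) :
    Summable fun a : ℕ => DensK D a * Real.log a := by
  apply Summable.of_norm_bounded (g := fun a => 4 * DensH D a) ((DensH_summable D hD).mul_left 4)
  intro a
  rcases Nat.eq_zero_or_pos a with rfl | ha
  · simp [DensH_zero]
  · have ha' : (1 : ℝ) ≤ a := by exact_mod_cast ha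
    rw [norm_mul, Real.norm_eq_abs, Real.norm_eq_abs, abs_of_nonneg (Real.log_nonneg ha')]
    have h2 : Real.log (a : ℝ) ≤ (a : ℝ) ^ (1 / 4 : ℝ) / (1 / 4) :=
      Real.log_le_rpow_div (by positivity) (by norm_num)
    unfold DensH
    have h3 : |DensK D a| * Real.log a ≤ |DensK D a| * ((a : ℝ) ^ (1 / 4 : ℝ) / (1 / 4)) :=
      mul_le_mul_of_nonneg_left h2 (abs_nonneg _)
    linarith

private theorem Dens_SD (D y : ℕ) :
    SD y D = ∑ a ∈ Ioc 0 y, DensK D a * ∑ m ∈ Ioc 0 (y / a), DensI m := by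
  rw [← ArithmeticFunction.sum_Ioc_mul_eq_sum_sum, DensKI, SD, Finset.sum_filter]
  rfl

theorem density : ∃ C₁ : ℝ, 1 ≤ C₁ ∧ ∀ D : ℕ, 0 < D → ∃ B : ℝ, ∀ y : ℕ, 1 ≤ y →
    |SD y D - ((D.totient : ℝ) / D * Real.log y + B)| ≤
      C₁ * (D.divisors.card : ℝ) * (y : ℝ) ^ (-(1 / 4) : ℝ) := by
  refine ⟨5 * Real.exp (4 * DensZ), ?_, ?_⟩
  · have := Real.one_le_exp (mul_nonneg (by norm_num : (0 : ℝ) ≤ 4) DensZ_nonneg)
    linarith
  intro D hD
  have hK : Summable fun a => DensK D a := (DensK_summable D hD).of_norm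
  have hL := DensK_log_summable D hD
  refine ⟨Real.eulerMascheroniConstant * ((D.totient : ℝ) / D) - ∑' a : ℕ, DensK D a * Real.log a,
    ?_⟩
  intro y hy
  have h1 : HasSum (fun a : ℕ => DensK D a *
      (if a ∈ Ioc 0 y then ∑ m ∈ Ioc 0 (y / a), DensI m else 0)) (SD y D) := by
    rw [Dens_SD]
    have h2 : ∑ a ∈ Ioc 0 y, DensK D a * ∑ m ∈ Ioc 0 (y / a), DensI m =
        ∑ a ∈ Ioc 0 y, DensK D a *
          (if a ∈ Ioc 0 y then ∑ m ∈ Ioc 0 (y / a), DensI m else 0) :=
      Finset.sum_congr rfl fun a ha => by rw [if_pos ha]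
    rw [h2]
    apply hasSum_sum_of_ne_finset_zero
    intro a ha
    rw [if_neg ha, mul_zero]
  have h3 : HasSum (fun a : ℕ => DensK D a *
      (Real.log y - Real.log a + Real.eulerMascheroniConstant))
      ((D.totient : ℝ) / D * Real.log y - ∑' a : ℕ, DensK D a * Real.log a +
        (D.totient : ℝ) / D * Real.eulerMascheroniConstant) := by
    have h4 := hK.hasSum
    rw [DensK_sum D hD] at h4
    have h5 := ((h4.mul_right (Real.log y)).sub hL.hasSum).add
      (h4.mul_right Real.eulerMascheroniConstant)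
    have h6 : (fun a : ℕ => DensK D a *
        (Real.log y - Real.log a + Real.eulerMascheroniConstant)) =
        fun b : ℕ => DensK D b * Real.log y - DensK D b * Real.log b +
          DensK D b * Real.eulerMascheroniConstant := by
      funext a
      ring
    rw [h6]
    exact h5
  have h6 := h1.sub h3
  have h7 : SD y D - ((D.totient : ℝ) / D * Real.log y +
      (Real.eulerMascheroniConstant * ((D.totient : ℝ) / D) -
        ∑' a : ℕ, DensK D a * Real.log a)) = SD y D -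
      ((D.totient : ℝ) / D * Real.log y - ∑' a : ℕ, DensK D a * Real.log a +
        (D.totient : ℝ) / D * Real.eulerMascheroniConstant) := by ring
  rw [h7, ← h6.tsum_eq]
  have h8 : ∀ a : ℕ, ‖DensK D a * (if a ∈ Ioc 0 y then ∑ m ∈ Ioc 0 (y / a), DensI m else 0) -
      DensK D a * (Real.log y - Real.log a + Real.eulerMascheroniConstant)‖ ≤
      5 * (y : ℝ) ^ (-(1 / 4) : ℝ) * DensH D a := by
    intro a
    rw [← mul_sub, Real.norm_eq_abs]
    exact Dens_point D y a hy
  have h9 : Summable fun a => 5 * (y : ℝ) ^ (-(1 / 4) : ℝ) * DensH D a :=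
    (DensH_summable D hD).mul_left _
  have h10 := tsum_of_norm_bounded h9.hasSum h8
  rw [Real.norm_eq_abs] at h10
  refine h10.trans ?_
  rw [tsum_mul_left]
  have h11 := DensH_tsum_le D hD
  have h12 : 0 ≤ 5 * (y : ℝ) ^ (-(1 / 4) : ℝ) := by positivity
  calc 5 * (y : ℝ) ^ (-(1 / 4) : ℝ) * ∑' a, DensH D a ≤
      5 * (y : ℝ) ^ (-(1 / 4) : ℝ) * (Real.exp (4 * DensZ) * (D.divisors.card : ℝ)) :=
        mul_le_mul_of_nonneg_left h11 h12
    _ = 5 * Real.exp (4 * DensZ) * (D.divisors.card : ℝ) * (y : ℝ) ^ (-(1 / 4) : ℝ) := by ring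

end Pool.Agent.Lib.MP_2a816b_nt.BH
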