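import Pool.Agent.Lib.MP_2a816b_nt.BH.Cross
import Pool.Agent.Lib.MP_2a816b_nt.Final2

/-!
# JOB Diag: the diagonal terms
-/

set_option autoImplicit false

open Finset Real
open scoped Pointwise

namespace Pool.Agent.Lib.MP_2a816b_nt.BH

private lemma Diag_bc_of_cop {q : ℕ} (hq : Squarefree q) (n : ℤ)
    (h : ∀ p ∈ q.primeFactors, ¬ (p : ℤ) ∣ n) : bc q n = 1 / (q.totient : ℝ) := by
  unfold bc
  rw [RamA_totient hq, one_div, ← prod_inv_distrib]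
  apply prod_congr rfl
  intro p hp
  rw [if_neg (h p hp), one_div]

private lemma Diag_FQ_prime (Q : Finset ℕ) (Qm : ℕ) (hQ : ∀ q ∈ Q, Squarefree q ∧ q ≤ Qm) (n : ℕ)
    (hn : n.Prime) (hnQ : Qm < n) : FQ Q n = ∑ q ∈ Q, 1 / (q.totient : ℝ) := by
  unfold FQ
  refine sum_congr rfl fun q hq => Diag_bc_of_cop (hQ q hq).1 _ fun p hp hdvd => ?_
  have h1 : p ∣ n := Int.natCast_dvd_natCast.1 hdvd
  have hpp := Nat.prime_of_mem_primeFactors hp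
  have h2 : p = n := (Nat.prime_dvd_prime_iff_eq hpp hn).1 h1
  have h3 : p ≤ q := Nat.le_of_dvd (Nat.pos_of_ne_zero (hQ q hq).1.ne_zero)
    (Nat.dvd_of_mem_primeFactors hp)
  have h4 := (hQ q hq).2
  omega

/-- For a prime `n > Qm`, `n` divides no `q ∈ Q`, so `F_Q(n) = ∑ 1/φ(q)`. For the other `n`: `|F_Q(n) - ∑ 1/φ(q)| ≤ T ^ 3 + T ^ 2` and the sum of `Λ(n)` over `n ≤ Qm` is `≤ T Qm`, over the
prime powers `p ^ k ≤ A + N`, `k ≥ 2`, it is `≤ T ^ 2 √(A + N)`. -/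
theorem vM_diag {M : ℕ} {T : ℝ} (hB : Big M T) (Q : Finset ℕ) (Qm : ℕ) (hQm : Qm ≤ M)
    (hQ : ∀ q ∈ Q, Squarefree q ∧ q ≤ Qm) (A N : ℕ) (hM : A + N ≤ M) :
    |∑ n ∈ Ioc A (A + N), vM n * FQ Q n -
      (∑ q ∈ Q, 1 / (q.totient : ℝ)) * ∑ n ∈ Ioc A (A + N), vM n| ≤
      2 * T ^ 5 * (Qm + √((A + N : ℕ) : ℝ)) := by
  have hT := hB.one
  have hQM : ∀ q ∈ Q, Squarefree q ∧ q ≤ M := fun q hq => ⟨(hQ q hq).1, (hQ q hq).2.trans hQm⟩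
  set S := ∑ q ∈ Q, 1 / (q.totient : ℝ) with hS
  have hS0 : 0 ≤ S := sum_nonneg fun q _ => by positivity
  have hS1 : S ≤ T ^ 2 := sum_inv_totient_le hB Q hQM
  have hT23 : T ^ 2 ≤ T ^ 3 := pow_le_pow_right₀ (by linarith) (by norm_num)
  have hlog : ∀ n : ℕ, 0 < n → n ≤ M → Real.log n ≤ T := by
    intro n hn hnM
    have h1 : Real.log n ≤ Real.log M := by
      apply Real.log_le_log
      · exact_mod_cast hn
      · exact_mod_cast hnM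
    linarith [hB.log]
  rw [mul_sum, ← sum_sub_distrib]
  have hterm : ∀ n ∈ Ioc A (A + N), |vM n * FQ Q n - S * vM n| ≤
      2 * T ^ 3 * ((if n ≤ Qm then vM n else 0) + (if ¬ n.Prime then vM n else 0)) := by
    intro n hn
    rw [mem_Ioc] at hn
    have hv := vM_nonneg n
    have e1 : vM n * FQ Q n - S * vM n = vM n * (FQ Q n - S) := by ring
    rw [e1, abs_mul, abs_of_nonneg hv]
    by_cases hp : n.Prime
    · by_cases hq : n ≤ Qm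
      · rw [if_pos hq, if_neg (not_not.2 hp), add_zero]
        have h1 := abs_FQ_le hB Q hQM (n : ℤ) (by exact_mod_cast hp.ne_zero)
          (by simpa using (hn.2.trans hM))
        have h2 : |FQ Q n - S| ≤ 2 * T ^ 3 := by
          refine (abs_sub _ _).trans ?_
          rw [abs_of_nonneg hS0]
          linarith
        nlinarith
      · rw [Diag_FQ_prime Q Qm hQ n hp (by omega), sub_self, abs_zero, mul_zero]
        have : (0 : ℝ) ≤ (if n ≤ Qm then vM n else 0) + (if ¬ n.Prime then vM n else 0) := by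
          split_ifs <;> linarith
        positivity
    · have h1 := abs_FQ_le hB Q hQM (n : ℤ) (by
          have : 0 < n := by omega
          exact_mod_cast this.ne')
          (by simpa using (hn.2.trans hM))
      have h2 : |FQ Q n - S| ≤ 2 * T ^ 3 := by
        refine (abs_sub _ _).trans ?_
        rw [abs_of_nonneg hS0]
        linarith
      rw [if_pos hp]
      have h3 : (0 : ℝ) ≤ (if n ≤ Qm then vM n else 0) := by
        split_ifs <;> linarith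
      have h4 : (0 : ℝ) ≤ 2 * T ^ 3 := by positivity
      nlinarith [mul_nonneg h4 h3]
  refine (abs_sum_le_sum_abs _ _).trans ((sum_le_sum hterm).trans ?_)
  rw [← mul_sum, sum_add_distrib]
  have hA : ∑ n ∈ Ioc A (A + N), (if n ≤ Qm then vM n else 0) ≤ T * Qm := by
    rw [← sum_filter]
    calc ∑ n ∈ (Ioc A (A + N)).filter (fun n => n ≤ Qm), vM n
        ≤ ∑ n ∈ Ioc 0 Qm, vM n := by
          apply sum_le_sum_of_subset_of_nonneg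
          · intro n hn
            rw [mem_filter, mem_Ioc] at hn
            rw [mem_Ioc]
            omega
          · intro n _ _; exact vM_nonneg n
      _ ≤ ∑ _n ∈ Ioc 0 Qm, T := by
          apply sum_le_sum
          intro n hn
          rw [mem_Ioc] at hn
          exact (vM_le_log n).trans (hlog n hn.1 (hn.2.trans hQm))
      _ = T * Qm := by
          rw [sum_const, Nat.card_Ioc, nsmul_eq_mul, Nat.sub_zero, mul_comm]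
  have hC : ∑ n ∈ Ioc A (A + N), (if ¬ n.Prime then vM n else 0) ≤
      T ^ 2 * √((A + N : ℕ) : ℝ) := by
    rcases Nat.eq_zero_or_pos (A + N) with h0 | h0
    · have : Ioc A (A + N) = ∅ := by
        apply Ioc_eq_empty_of_le
        omega
      rw [this, sum_empty]
      positivity
    have hY : (1 : ℝ) ≤ ((A + N : ℕ) : ℝ) := by exact_mod_cast h0
    have h1 := Chebyshev.psi_sub_theta_le hY
    rw [Chebyshev.psi_sub_theta_eq_sum_not_prime] at h1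
    have h2 : ∑ n ∈ Ioc A (A + N), (if ¬ n.Prime then vM n else 0) ≤
        2 * √((A + N : ℕ) : ℝ) * Real.log ((A + N : ℕ) : ℝ) := by
      refine le_trans ?_ h1
      rw [← sum_filter]
      apply sum_le_sum_of_subset_of_nonneg
      · intro n hn
        rw [mem_filter, mem_Ioc] at hn
        rw [mem_filter, mem_Ioc, Nat.floor_natCast]
        exact ⟨⟨by omega, hn.1.2⟩, hn.2⟩
      · intro n _ _; exact vM_nonneg n
    refine h2.trans ?_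
    have h3 := hlog (A + N) h0 hM
    have h4 : 0 ≤ √((A + N : ℕ) : ℝ) := Real.sqrt_nonneg _
    calc 2 * √((A + N : ℕ) : ℝ) * Real.log ((A + N : ℕ) : ℝ)
        ≤ 2 * √((A + N : ℕ) : ℝ) * T := by gcongr
      _ = (2 * T) * √((A + N : ℕ) : ℝ) := by ring
      _ ≤ T ^ 2 * √((A + N : ℕ) : ℝ) := by
          apply mul_le_mul_of_nonneg_right _ h4
          nlinarith
  have hs0 : 0 ≤ √((A + N : ℕ) : ℝ) := Real.sqrt_nonneg _
  have hQ0 : (0 : ℝ) ≤ Qm := by positivity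
  calc 2 * T ^ 3 * (∑ n ∈ Ioc A (A + N), (if n ≤ Qm then vM n else 0) +
        ∑ n ∈ Ioc A (A + N), (if ¬ n.Prime then vM n else 0))
      ≤ 2 * T ^ 3 * (T * Qm + T ^ 2 * √((A + N : ℕ) : ℝ)) := by gcongr
    _ ≤ 2 * T ^ 3 * (T ^ 2 * Qm + T ^ 2 * √((A + N : ℕ) : ℝ)) := by
        gcongr
        nlinarith
    _ = 2 * T ^ 5 * (Qm + √((A + N : ℕ) : ℝ)) := by ring

variable {X T C : ℝ}

/-- `∑_{q ∈ Q2} 1/φ(q) = SR X ∏ LL (PS X i)` (`sum_mul_set`, `prod_LL`) -/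
theorem sum_Q2 (hX : Lg X T C) :
    ∑ q ∈ Q2 X, 1 / (q.totient : ℝ) = SR X * ∏ i, LL (PS X i) := by
  have hc := cross_RS hX (univ : Finset (Fin 6))
  unfold Q2 SR
  rw [sum_mul_set hc, prod_LL (fun i i' h => cross_PS hX i i' h)
    (fun i p hp => (mem_PS hp hX.X1).1) univ, sum_mul_sum]
  refine sum_congr rfl fun a ha => sum_congr rfl fun b hb => ?_
  rw [Nat.totient_mul (hc a ha b hb), Nat.cast_mul, one_div_mul_one_div]

private lemma Diag_T (hX : Lg X T C) : 0 < X ∧ 1 ≤ T ∧ 10 ^ 10 ≤ T ∧ ∀ k : ℕ, T ^ k = X ^ (k * tau0) := by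
  have hX0 : 0 < X := by linarith [hX.X1]
  refine ⟨hX0, by linarith [hX.big.one], hX.h10, fun k => ?_⟩
  rw [hX.hT, ← Real.rpow_natCast, ← Real.rpow_mul hX0.le, mul_comm]

private lemma Diag_Xbig (hX : Lg X T C) : 10 ^ 10 ≤ X := by
  obtain ⟨hX0, hT1, hT10, -⟩ := Diag_T hX
  refine hT10.trans ?_
  rw [hX.hT]
  calc X ^ tau0 ≤ X ^ (1 : ℝ) := by
        apply Real.rpow_le_rpow_of_exponent_le hX.X1
        unfold tau0; norm_num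
    _ = X := Real.rpow_one X

/-- `F_{Q2} ^ 2 = F_{RS} ^ 2 G ^ 2 ≤ 300 ^ 12 F_{RS} ^ 2` (`abs_G_le`), and `corr_sets_zero` for `RS` -/
theorem q2_sq (hX : Lg X T C) (hLL : ∀ i, LL (PS X i) ≤ 1) (A N : ℕ)
    (hN : ((A + N : ℕ) : ℝ) ≤ 4 * X) :
    ∑ n ∈ Ioc A (A + N), FQ (Q2 X) n ^ 2 ≤ 300 ^ 12 * (SR X * N + X ^ (1 / 100 : ℝ)) := by
  obtain ⟨hX0, hT1, hT10, hTk⟩ := Diag_T hX
  have hXb := Diag_Xbig hX
  have h1 : ∀ n ∈ Ioc A (A + N), FQ (Q2 X) n ^ 2 ≤ 300 ^ 12 * (FQ (RS X) n * FQ (RS X) n) := by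
    intro n hn
    rw [mem_Ioc] at hn
    have hG := abs_G_le hX hLL (n : ℤ) (by
      have : 0 < n := by omega
      exact_mod_cast this.ne') (by
      have h2 : ((n : ℤ) : ℝ) ≤ 4 * X := by
        have : ((n : ℕ) : ℝ) ≤ ((A + N : ℕ) : ℝ) := by exact_mod_cast hn.2
        push_cast at this ⊢
        push_cast at hN
        linarith
      have h3 : (0 : ℝ) ≤ ((n : ℤ) : ℝ) := by push_cast; positivity
      rw [abs_of_nonneg h3]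
      have h4 : X ^ (2 : ℝ) = X * X := by
        rw [show (2 : ℝ) = ((2 : ℕ) : ℝ) by norm_num, Real.rpow_natCast, pow_two]
      rw [h4]
      nlinarith)
    rw [FQ_Q2 hX, mul_pow]
    have h5 : (∏ i, FQ (PS X i) (n : ℤ)) ^ 2 ≤ 300 ^ 12 := by
      rw [← sq_abs]
      calc |∏ i, FQ (PS X i) (n : ℤ)| ^ 2 ≤ (300 ^ 6) ^ 2 := by gcongr
        _ = 300 ^ 12 := by norm_num
    have h6 : 0 ≤ FQ (RS X) (n : ℤ) ^ 2 := sq_nonneg _
    nlinarith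
  refine (sum_le_sum h1).trans ?_
  rw [← mul_sum]
  apply mul_le_mul_of_nonneg_left _ (by norm_num)
  have hR : ∀ r ∈ RS X, Squarefree r ∧ r ≤ ⌊X ^ eps4⌋₊ := by
    intro r hr
    obtain ⟨h2, _, h3⟩ := mem_RS hr hX.X1
    exact ⟨h2, Nat.le_floor h3⟩
  have hRM : ⌊X ^ eps4⌋₊ ≤ ⌊X ^ (10 : ℝ)⌋₊ := by
    apply Nat.floor_le_floor
    apply Real.rpow_le_rpow_of_exponent_le hX.X1
    unfold eps4; norm_num
  have h2 := corr_sets_zero hX.big (RS X) (RS X) ⌊X ^ eps4⌋₊ ⌊X ^ eps4⌋₊ hR hR hRM hRM A N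
  rw [inter_self] at h2
  have h3 := (abs_le.1 h2).2
  have h4 : 2 * T ^ 4 * (((⌊X ^ eps4⌋₊ : ℕ) : ℝ) * ((⌊X ^ eps4⌋₊ : ℕ) : ℝ)) ≤ X ^ (1 / 100 : ℝ) := by
    have h5 : ((⌊X ^ eps4⌋₊ : ℕ) : ℝ) ≤ X ^ eps4 := Nat.floor_le (by positivity)
    calc 2 * T ^ 4 * (((⌊X ^ eps4⌋₊ : ℕ) : ℝ) * ((⌊X ^ eps4⌋₊ : ℕ) : ℝ))
        ≤ T * T ^ 4 * (X ^ eps4 * X ^ eps4) := by
          gcongr
          linarith
      _ = T ^ 5 * (X ^ eps4 * X ^ eps4) := by ring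
      _ = X ^ (((5 : ℕ) : ℝ) * tau0 + (eps4 + eps4)) := by
          rw [hTk, ← Real.rpow_add hX0, ← Real.rpow_add hX0]
      _ ≤ X ^ (1 / 100 : ℝ) := by
          apply Real.rpow_le_rpow_of_exponent_le hX.X1
          unfold eps4 tau0; norm_num
  unfold SR
  linarith

/-- `corr_sets_zero` for `Q1` with `T' = X ^ (ε / 1000)`: the error is `2 T' ^ 4 X ^ (1 - 2 ε)` -/
theorem q1_sq (ε : ℝ) (hε : 0 < ε) (hε1 : ε ≤ 1 / 10 ^ 4) {T' : ℝ} (hX' : Le X T' ε)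
    (A N : ℕ) :
    |∑ n ∈ Ioc A (A + N), FQ (Q1 X ε) n ^ 2 - (∑ q ∈ Q1 X ε, 1 / (q.totient : ℝ)) * N| ≤
      X ^ (1 - ε) := by
  have hX0 : 0 < X := by linarith [hX'.X1]
  have hT0 : 0 ≤ T' := by linarith [hX'.h10]
  have hQ : ∀ q ∈ Q1 X ε, Squarefree q ∧ q ≤ ⌊X ^ (1 / 2 - ε)⌋₊ := by
    intro q hq
    unfold Q1 at hq
    rw [mem_filter, mem_Ioc] at hq
    exact ⟨hq.2, hq.1.2⟩
  have hQM : ⌊X ^ (1 / 2 - ε)⌋₊ ≤ ⌊X ^ (10 : ℝ)⌋₊ := by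
    apply Nat.floor_le_floor
    apply Real.rpow_le_rpow_of_exponent_le hX'.X1
    linarith
  have h2 := corr_sets_zero hX'.big (Q1 X ε) (Q1 X ε) ⌊X ^ (1 / 2 - ε)⌋₊ ⌊X ^ (1 / 2 - ε)⌋₊
    hQ hQ hQM hQM A N
  rw [inter_self] at h2
  have h3 : ∑ n ∈ Ioc A (A + N), FQ (Q1 X ε) n ^ 2 - (∑ q ∈ Q1 X ε, 1 / (q.totient : ℝ)) * N =
      ∑ n ∈ Ioc A (A + N), FQ (Q1 X ε) n * FQ (Q1 X ε) n -
        N * ∑ q ∈ Q1 X ε, 1 / (q.totient : ℝ) := by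
    rw [mul_comm (∑ q ∈ Q1 X ε, 1 / (q.totient : ℝ))]
    congr 1
    exact sum_congr rfl fun n _ => pow_two _
  rw [h3]
  refine h2.trans ?_
  have h5 : ((⌊X ^ (1 / 2 - ε)⌋₊ : ℕ) : ℝ) ≤ X ^ (1 / 2 - ε) := Nat.floor_le (by positivity)
  calc 2 * T' ^ 4 * (((⌊X ^ (1 / 2 - ε)⌋₊ : ℕ) : ℝ) * ((⌊X ^ (1 / 2 - ε)⌋₊ : ℕ) : ℝ))
      ≤ T' * T' ^ 4 * (X ^ (1 / 2 - ε) * X ^ (1 / 2 - ε)) := by
        gcongr
        linarith [hX'.h10]
    _ = T' ^ 5 * (X ^ (1 / 2 - ε) * X ^ (1 / 2 - ε)) := by ring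
    _ = X ^ (ε / 1000 * ((5 : ℕ) : ℝ) + ((1 / 2 - ε) + (1 / 2 - ε))) := by
        rw [hX'.hT, ← Real.rpow_natCast, ← Real.rpow_mul hX0.le, ← Real.rpow_add hX0,
          ← Real.rpow_add hX0]
    _ ≤ X ^ (1 - ε) := by
        apply Real.rpow_le_rpow_of_exponent_le hX'.X1
        push_cast
        linarith

private lemma Diag_Q2M (hX : Lg X T C) : ∀ q ∈ Q2 X, Squarefree q ∧ q ≤ ⌊X ^ (10 : ℝ)⌋₊ := by
  intro q hq
  obtain ⟨h1, _, h3⟩ := mem_Q2 hX hq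
  refine ⟨h1, Nat.le_floor (h3.trans ?_)⟩
  apply Real.rpow_le_rpow_of_exponent_le hX.X1
  norm_num

private lemma Diag_Q1M (hX : Lg X T C) (ε : ℝ) (hε : 0 < ε) :
    ∀ q ∈ Q1 X ε, Squarefree q ∧ q ≤ ⌊X ^ (10 : ℝ)⌋₊ := by
  intro q hq
  unfold Q1 at hq
  rw [mem_filter, mem_Ioc] at hq
  refine ⟨hq.2, hq.1.2.trans ?_⟩
  apply Nat.floor_le_floor
  apply Real.rpow_le_rpow_of_exponent_le hX.X1
  linarith

/-- the cross term over `(A, A + N]`, `A ≤ X ^ (1/10)` (`cross_le`, the difference to `(0, N]` is at most `2 A T ^ 6`; note `F_{Q}(n)` is only used for `n ≥ 1`) -/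
theorem cross_shift : ∃ C₅ : ℝ, ∀ (X T : ℝ), Lg X T C₅ → (∀ i, LL (PS X i) ≤ 1) →
    ∀ ε : ℝ, 0 < ε → ε ≤ 1 / 10 ^ 4 → ∀ A N : ℕ, (A : ℝ) ≤ X ^ (1 / 10 : ℝ) → X / 2 ≤ (N : ℝ) →
    ((A + N : ℕ) : ℝ) ≤ 4 * X →
    ∑ n ∈ Ioc A (A + N), FQ (Q1 X ε) n * FQ (Q2 X) n ≤
      4 / 10 * (SR X * ∏ i, LL (PS X i)) * N + X ^ (1 - 6 / 10 ^ 5 : ℝ) := by
  obtain ⟨C₄, hC4⟩ := cross_le
  refine ⟨C₄, fun X T hX hLL ε hε hε1 A N hA hN1 hN2 => ?_⟩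
  obtain ⟨hX0, hT1, hT10, hTk⟩ := Diag_T hX
  have hXb := Diag_Xbig hX
  have hmain := hC4 X T hX hLL ε hε hε1 (A + N) (by push_cast; linarith [(Nat.cast_nonneg A : (0 : ℝ) ≤ A)]) hN2
  -- split
  have hsplit : ∑ n ∈ Ioc 0 (A + N), FQ (Q1 X ε) n * FQ (Q2 X) n =
      ∑ n ∈ Ioc 0 A, FQ (Q1 X ε) n * FQ (Q2 X) n +
        ∑ n ∈ Ioc A (A + N), FQ (Q1 X ε) n * FQ (Q2 X) n := by
    rw [Finset.sum_Ioc_consecutive _ (Nat.zero_le A) (Nat.le_add_right A N)]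
  have hX10 : X ≤ X ^ (10 : ℝ) := by
    calc X = X ^ (1 : ℝ) := (Real.rpow_one X).symm
      _ ≤ X ^ (10 : ℝ) := by
          apply Real.rpow_le_rpow_of_exponent_le hX.X1
          norm_num
  have hAX : X ^ (1 / 10 : ℝ) ≤ X := by
    calc X ^ (1 / 10 : ℝ) ≤ X ^ (1 : ℝ) := by
          apply Real.rpow_le_rpow_of_exponent_le hX.X1
          norm_num
      _ = X := Real.rpow_one X
  have hsmall : |∑ n ∈ Ioc 0 A, FQ (Q1 X ε) n * FQ (Q2 X) n| ≤ A * T ^ 6 := by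
    refine (abs_sum_le_sum_abs _ _).trans ?_
    have h1 : ∀ n ∈ Ioc 0 A, |FQ (Q1 X ε) (n : ℤ) * FQ (Q2 X) (n : ℤ)| ≤ T ^ 6 := by
      intro n hn
      rw [mem_Ioc] at hn
      have hnM : (n : ℤ).natAbs ≤ ⌊X ^ (10 : ℝ)⌋₊ := by
        rw [Int.natAbs_natCast]
        apply Nat.le_floor
        have : (n : ℝ) ≤ A := by exact_mod_cast hn.2
        linarith
      have hn0 : (n : ℤ) ≠ 0 := by exact_mod_cast hn.1.ne'
      have h2 := abs_FQ_le hX.big (Q1 X ε) (Diag_Q1M hX ε hε) n hn0 hnM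
      have h3 := abs_FQ_le hX.big (Q2 X) (Diag_Q2M hX) n hn0 hnM
      rw [abs_mul]
      calc |FQ (Q1 X ε) (n : ℤ)| * |FQ (Q2 X) (n : ℤ)| ≤ T ^ 3 * T ^ 3 :=
            mul_le_mul h2 h3 (abs_nonneg _) (by positivity)
        _ = T ^ 6 := by ring
    refine (sum_le_sum h1).trans ?_
    rw [sum_const, Nat.card_Ioc, nsmul_eq_mul, Nat.sub_zero]
  have hLL0 : ∀ i, 0 ≤ LL (PS X i) := by
    intro i
    unfold LL
    refine sum_nonneg fun p hp => ?_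
    have := (mem_PS hp hX.X1).1.two_le
    have h2 : (2 : ℝ) ≤ p := by exact_mod_cast this
    apply one_div_nonneg.2
    linarith
  have hP1 : ∏ i, LL (PS X i) ≤ 1 := prod_le_one (fun i _ => hLL0 i) (fun i _ => hLL i)
  have hP0 : 0 ≤ ∏ i, LL (PS X i) := prod_nonneg fun i _ => hLL0 i
  have hSR0 : 0 ≤ SR X := by
    unfold SR
    exact sum_nonneg fun r _ => by positivity
  have hSR1 : SR X ≤ T ^ 2 := by
    unfold SR
    apply sum_inv_totient_le hX.big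
    intro r hr
    obtain ⟨h1, _, h3⟩ := mem_RS hr hX.X1
    refine ⟨h1, Nat.le_floor (h3.trans ?_)⟩
    apply Real.rpow_le_rpow_of_exponent_le hX.X1
    unfold eps4; norm_num
  have hV : SR X * ∏ i, LL (PS X i) ≤ T ^ 6 := by
    calc SR X * ∏ i, LL (PS X i) ≤ T ^ 2 * 1 := mul_le_mul hSR1 hP1 hP0 (by positivity)
      _ = T ^ 2 := mul_one _
      _ ≤ T ^ 6 := pow_le_pow_right₀ hT1 (by norm_num)
  have hV0 : 0 ≤ SR X * ∏ i, LL (PS X i) := mul_nonneg hSR0 hP0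
  have hA0 : (0 : ℝ) ≤ A := Nat.cast_nonneg A
  have hAT : (A : ℝ) * T ^ 6 ≤ X ^ (1 / 10 : ℝ) * T ^ 6 := by gcongr
  have hfin : 2 * (X ^ (1 / 10 : ℝ) * T ^ 6) ≤ X ^ (1 - 7 / 10 ^ 5 : ℝ) := by
    calc 2 * (X ^ (1 / 10 : ℝ) * T ^ 6) ≤ T * (X ^ (1 / 10 : ℝ) * T ^ 6) := by
          gcongr
          linarith
      _ = X ^ (1 / 10 : ℝ) * T ^ 7 := by ring
      _ = X ^ (1 / 10 + ((7 : ℕ) : ℝ) * tau0) := by
          rw [hTk, ← Real.rpow_add hX0]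
      _ ≤ X ^ (1 - 7 / 10 ^ 5 : ℝ) := by
          apply Real.rpow_le_rpow_of_exponent_le hX.X1
          unfold tau0; norm_num
  have hfin2 : 2 * X ^ (1 - 7 / 10 ^ 5 : ℝ) ≤ X ^ (1 - 6 / 10 ^ 5 : ℝ) := by
    calc 2 * X ^ (1 - 7 / 10 ^ 5 : ℝ) ≤ T * X ^ (1 - 7 / 10 ^ 5 : ℝ) := by
          gcongr
          linarith
      _ = X ^ (tau0 + (1 - 7 / 10 ^ 5) : ℝ) := by
          rw [hX.hT, ← Real.rpow_add hX0]
      _ ≤ X ^ (1 - 6 / 10 ^ 5 : ℝ) := by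
          apply Real.rpow_le_rpow_of_exponent_le hX.X1
          unfold tau0; norm_num
  have hab := abs_le.1 hsmall
  have hVA : 4 / 10 * (SR X * ∏ i, LL (PS X i)) * A ≤ X ^ (1 / 10 : ℝ) * T ^ 6 := by
    have : (SR X * ∏ i, LL (PS X i)) * A ≤ T ^ 6 * X ^ (1 / 10 : ℝ) :=
      mul_le_mul hV hA hA0 (by positivity)
    nlinarith [mul_nonneg hV0 hA0]
  push_cast at hmain
  nlinarith [hmain, hsplit, hab.1, hAT, hfin, hfin2, hVA]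

private lemma Diag_Q1_SD (X ε : ℝ) (hX : 1 ≤ X) (hε : 0 < ε) (hε1 : ε ≤ 1 / 10 ^ 4) :
    ∑ q ∈ Q1 X ε, 1 / (q.totient : ℝ) = SD ⌊X ^ (1 / 2 - ε)⌋₊ 1 - SD ⌊X ^ ε⌋₊ 1 := by
  have hle : ⌊X ^ ε⌋₊ ≤ ⌊X ^ (1 / 2 - ε)⌋₊ := by
    apply Nat.floor_le_floor
    apply Real.rpow_le_rpow_of_exponent_le hX
    linarith
  unfold SD Q1
  rw [eq_sub_iff_add_eq, add_comm]
  simp only [Nat.coprime_one_right_eq_true, and_true, sum_filter]
  exact Finset.sum_Ioc_consecutive _ (Nat.zero_le _) hle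

private lemma Diag_key : ∃ C₁ : ℝ, 0 ≤ C₁ ∧ ∀ y₁ y₂ : ℕ, 1 ≤ y₁ → 1 ≤ y₂ →
    |SD y₂ 1 - SD y₁ 1 - (Real.log y₂ - Real.log y₁)| ≤ 2 * C₁ := by
  obtain ⟨C₁, h1, hd⟩ := density
  obtain ⟨B, hB⟩ := hd 1 one_pos
  refine ⟨C₁, by linarith, fun y₁ y₂ h2 h3 => ?_⟩
  have key : ∀ y : ℕ, 1 ≤ y → |SD y 1 - (Real.log y + B)| ≤ C₁ := by
    intro y hy
    have h4 := hB y hy
    simp only [Nat.totient_one, Nat.cast_one, div_one, one_mul, Nat.divisors_one,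
      card_singleton, mul_one] at h4
    refine h4.trans ?_
    have h5 : (y : ℝ) ^ (-(1 / 4) : ℝ) ≤ 1 := by
      apply Real.rpow_le_one_of_one_le_of_nonpos
      · exact_mod_cast hy
      · norm_num
    nlinarith
  have k1 := abs_le.1 (key y₁ h2)
  have k2 := abs_le.1 (key y₂ h3)
  rw [abs_le]
  constructor <;> linarith [k1.1, k1.2, k2.1, k2.2]

/-- `∑_{q ∈ Q1} 1/φ(q) ≥ (1/2 - 2 ε) log X - C₆`, by `density` with `D = 1` at `⌊X ^ (1/2 - ε)⌋` and `⌊X ^ ε⌋`; and `≤ T ^ 2`, which is clear. -/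
theorem sum_Q1_ge : ∃ C₆ : ℝ, ∀ ε : ℝ, 0 < ε → ε ≤ 1 / 10 ^ 4 → ∃ X₀ : ℝ, ∀ X : ℝ, X₀ ≤ X →
    (1 / 2 - 2 * ε) * Real.log X - C₆ ≤ ∑ q ∈ Q1 X ε, 1 / (q.totient : ℝ) := by
  obtain ⟨C₁, hC1, hk⟩ := Diag_key
  refine ⟨Real.log 2 + 2 * C₁, fun ε hε hε1 => ⟨1, fun X hX => ?_⟩⟩
  have hX0 : 0 < X := by linarith
  rw [Diag_Q1_SD X ε hX hε hε1]
  have h1 : 1 ≤ X ^ ε := Real.one_le_rpow hX hε.le
  have h2 : 1 ≤ X ^ (1 / 2 - ε) := Real.one_le_rpow hX (by linarith)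
  have f1 : 1 ≤ ⌊X ^ ε⌋₊ := Nat.one_le_floor_iff _ |>.2 h1
  have f2 : 1 ≤ ⌊X ^ (1 / 2 - ε)⌋₊ := Nat.one_le_floor_iff _ |>.2 h2
  have h3 := (abs_le.1 (hk _ _ f1 f2)).1
  have g1 : Real.log ((⌊X ^ ε⌋₊ : ℕ) : ℝ) ≤ ε * Real.log X := by
    rw [← Real.log_rpow hX0]
    apply Real.log_le_log
    · exact_mod_cast f1
    · exact Nat.floor_le (by positivity)
  have g2 : (1 / 2 - ε) * Real.log X - Real.log 2 ≤ Real.log ((⌊X ^ (1 / 2 - ε)⌋₊ : ℕ) : ℝ) := by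
    rw [← Real.log_rpow hX0, ← Real.log_div (by positivity) (by norm_num)]
    apply Real.log_le_log (by positivity)
    have h4 := Nat.lt_floor_add_one (X ^ (1 / 2 - ε))
    have h5 : (1 : ℝ) ≤ ((⌊X ^ (1 / 2 - ε)⌋₊ : ℕ) : ℝ) := by exact_mod_cast f2
    linarith
  linarith

/-- also an upper bound, for the terms multiplied by small constants -/
theorem sum_Q1_le : ∃ C₇ : ℝ, ∀ ε : ℝ, 0 < ε → ε ≤ 1 / 10 ^ 4 → ∃ X₀ : ℝ, ∀ X : ℝ, X₀ ≤ X →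
    ∑ q ∈ Q1 X ε, 1 / (q.totient : ℝ) ≤ 1 / 2 * Real.log X + C₇ := by
  obtain ⟨C₁, hC1, hk⟩ := Diag_key
  refine ⟨2 * C₁, fun ε hε hε1 => ⟨1, fun X hX => ?_⟩⟩
  have hX0 : 0 < X := by linarith
  rw [Diag_Q1_SD X ε hX hε hε1]
  have h1 : 1 ≤ X ^ ε := Real.one_le_rpow hX hε.le
  have h2 : 1 ≤ X ^ (1 / 2 - ε) := Real.one_le_rpow hX (by linarith)
  have f1 : 1 ≤ ⌊X ^ ε⌋₊ := Nat.one_le_floor_iff _ |>.2 h1
  have f2 : 1 ≤ ⌊X ^ (1 / 2 - ε)⌋₊ := Nat.one_le_floor_iff _ |>.2 h2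
  have h3 := (abs_le.1 (hk _ _ f1 f2)).2
  have g1 : 0 ≤ Real.log ((⌊X ^ ε⌋₊ : ℕ) : ℝ) := Real.log_natCast_nonneg _
  have g2 : Real.log ((⌊X ^ (1 / 2 - ε)⌋₊ : ℕ) : ℝ) ≤ (1 / 2 - ε) * Real.log X := by
    rw [← Real.log_rpow hX0]
    apply Real.log_le_log
    · exact_mod_cast f2
    · exact Nat.floor_le (by positivity)
  have g3 : 0 ≤ Real.log X := Real.log_nonneg hX
  nlinarith [mul_nonneg hε.le g3]

end Pool.Agent.Lib.MP_2a816b_nt.BH
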