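import Pool.Agent.Lib.MP_2a816b_nt.BH.Minor
import Pool.Agent.Lib.MP_2a816b_nt.Final2

/-!
# JOB Fin: the lower bound with a constant larger than one half

Take `δ₀, ε, τ` from `gain`, `ε₀ = ε / 400`, `C₀ = 100 / τ ^ 2` (or larger). Let `C₀ log X ≤ H ≤ X ^ ε₀`. Apply `meanSquare_of_discrete` with `C = (1/2 + δ₀ / 2) H X log X`. For given `h, s, M`:
* if `∑_{n ≤ s + M} vM n ≤ (1 - τ / 2) (s + M)`: `few_primes` with `ε₁ = τ / 2` (`Lg = 3 log X`) gives `∑ win ^ 2 ≥ (τ ^ 2 / 16) H ^ 2 X ≥ H X log X`.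
* otherwise, for every `u < h`: `∑_{n ∈ (s + u, s + u + M]} vM n ≥ (1 - τ/2)(s + M) - 2 (s + h) 3 log X ≥ (1 - τ) M` (the interval differs from `(0, s + M]` by at most `s + 2 h + ...` integers). Apply `gain` with `A = s + u ≤ X ^ (1/10)`, `N = M`, and
  `minor` with `B = B' = X ^ (1 - ε / 50)` (`corr_gt`; `|j| < h ≤ H + 1 ≤ X ^ (ε / 100)`): `∑ win ^ 2 ≥ h (1/2 + δ₀) X log X - 3 h ^ 2 B - 2 H h B ≥ (1/2 + δ₀/2) H X log X`, because `h ≥ H - 1 ≥ H (1 - 1 / (C₀ log X))` and
  `h B ≤ 2 X ^ (1 - ε/50 + ε/400)` is small.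
-/

set_option autoImplicit false

open Finset Real
open scoped Pointwise

namespace Pool.Agent.Lib.MP_2a816b_nt.BH

/-- many primes on average: every shifted interval has many primes -/
private lemma Fin_shift (s M u : ℕ) (τ Lg : ℝ) (hτ1 : τ ≤ 1)
    (hLg : ∀ n : ℕ, n ≤ s + u → Real.log n ≤ Lg)
    (hψ : (1 - τ / 2) * ((s : ℝ) + M) ≤ ∑ n ∈ Ioc 0 (s + M), vM n)
    (hsm : ((s : ℝ) + u) * Lg ≤ τ / 2 * M) :
    (1 - τ) * (M : ℝ) ≤ ∑ n ∈ Ioc (s + u) (s + u + M), vM n := by
  have h1 : Ioc 0 (s + M) ⊆ Ioc 0 (s + u) ∪ Ioc (s + u) (s + u + M) := by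
    intro n hn
    rw [mem_Ioc] at hn
    rw [mem_union, mem_Ioc, mem_Ioc]
    omega
  have hdisj : Disjoint (Ioc 0 (s + u)) (Ioc (s + u) (s + u + M)) := by
    rw [disjoint_left]
    intro n hn hn'
    rw [mem_Ioc] at hn hn'
    omega
  have h2 : ∑ n ∈ Ioc 0 (s + M), vM n ≤
      ∑ n ∈ Ioc 0 (s + u), vM n + ∑ n ∈ Ioc (s + u) (s + u + M), vM n := by
    rw [← sum_union hdisj]
    exact sum_le_sum_of_subset_of_nonneg h1 (fun n _ _ => vM_nonneg n)
  have h3 : ∑ n ∈ Ioc 0 (s + u), vM n ≤ ((s : ℝ) + u) * Lg := by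
    calc ∑ n ∈ Ioc 0 (s + u), vM n ≤ ∑ n ∈ Ioc 0 (s + u), Lg := by
          apply sum_le_sum; intro n hn
          rw [mem_Ioc] at hn
          exact (vM_le_log n).trans (hLg n (by omega))
      _ = ((s : ℝ) + u) * Lg := by
          rw [sum_const, Nat.card_Ioc, nsmul_eq_mul]
          simp
  have h4 : (0 : ℝ) ≤ (1 - τ / 2) * s := by
    have : (0 : ℝ) ≤ s := Nat.cast_nonneg _
    have : 0 ≤ 1 - τ / 2 := by linarith
    positivity
  nlinarith

theorem beyond_half : ∃ (δ ε₀ C₀ : ℝ), 0 < δ ∧ 0 < ε₀ ∧ 0 < C₀ ∧ ∃ X₀ : ℝ, ∀ X : ℝ, X₀ ≤ X →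
    ∀ H : ℝ, C₀ * Real.log X ≤ H → H ≤ X ^ ε₀ →
      (1 / 2 + δ) * H * Real.log X ≤ meanSquare X H := by
  obtain ⟨δ, ε, τ, hδ, hε, hε1, hτ, hτ1, X₁, hgain⟩ := gain
  obtain ⟨X₂, hcorr⟩ := corr_gt ε hε hε1
  have hC₀ : 0 < 16 * (1 + δ) / τ ^ 2 + 4 * (1 / 2 + δ) / δ + 8 / τ := by positivity
  refine ⟨δ / 2, ε / 400, 16 * (1 + δ) / τ ^ 2 + 4 * (1 / 2 + δ) / δ + 8 / τ, by positivity,
    by positivity, hC₀, ?_⟩
  set C₀ : ℝ := 16 * (1 + δ) / τ ^ 2 + 4 * (1 / 2 + δ) / δ + 8 / τ with hC₀def
  have hc1 : 16 * (1 + δ) / τ ^ 2 ≤ C₀ := by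
    have h1 : 0 ≤ 4 * (1 / 2 + δ) / δ := by positivity
    have h2 : 0 ≤ 8 / τ := by positivity
    linarith
  have hc2 : 4 * (1 / 2 + δ) / δ ≤ C₀ := by
    have h1 : 0 ≤ 16 * (1 + δ) / τ ^ 2 := by positivity
    have h2 : 0 ≤ 8 / τ := by positivity
    linarith
  have hc3 : 8 / τ ≤ C₀ := by
    have h1 : 0 ≤ 4 * (1 / 2 + δ) / δ := by positivity
    have h2 : 0 ≤ 16 * (1 + δ) / τ ^ 2 := by positivity
    linarith
  have hc4 : (8 : ℝ) ≤ C₀ := by
    refine le_trans ?_ hc3
    rw [le_div_iff₀ hτ]; linarith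
  -- the large parameter
  have hev1 : ∀ᶠ X : ℝ in Filter.atTop, (200 / τ + 64 / δ + 100) ≤ X ^ (ε / 400) :=
    (tendsto_rpow_atTop (by positivity : 0 < ε / 400)).eventually_ge_atTop _
  have hev2 : ∀ᶠ X : ℝ in Filter.atTop, Real.log X ≤ X ^ (ε / 400) := by
    have h := (isLittleO_log_rpow_atTop (by positivity : 0 < ε / 400)).bound
      (show (0 : ℝ) < 1 by norm_num)
    filter_upwards [h, Filter.eventually_ge_atTop 1] with X hX hX1
    rw [one_mul, Real.norm_of_nonneg (Real.log_nonneg hX1),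
      Real.norm_of_nonneg (by positivity)] at hX
    exact hX
  obtain ⟨X₀, hX₀⟩ := Filter.eventually_atTop.mp (hev1.and (hev2.and
    ((Filter.eventually_ge_atTop X₁).and ((Filter.eventually_ge_atTop X₂).and
      (Filter.eventually_ge_atTop 3)))))
  refine ⟨X₀, fun X hX H hH1 hH2 => ?_⟩
  obtain ⟨hy, hly, hXX1, hXX2, hX3⟩ := hX₀ X hX
  set y : ℝ := X ^ (ε / 400) with hydef
  have hX0 : 0 < X := by linarith
  have hX1 : 1 ≤ X := by linarith
  have h200 : 0 < 200 / τ := by positivity
  have h64 : 0 < 64 / δ := by positivity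
  have hy100 : 100 ≤ y := by linarith
  have hyτ : 200 / τ ≤ y := by linarith
  have hyδ : 64 / δ ≤ y := by linarith
  have hy0 : 0 < y := by linarith
  have hlog1 : 1 ≤ Real.log X := by
    rw [Real.le_log_iff_exp_le hX0]
    have := Real.exp_one_lt_d9
    linarith
  have hy4 : y ^ 4 = X ^ (ε / 100) := by
    rw [hydef, ← Real.rpow_natCast, ← Real.rpow_mul hX0.le]
    congr 1; push_cast; ring
  have hy8 : y ^ 8 = X ^ (ε / 50) := by
    rw [hydef, ← Real.rpow_natCast, ← Real.rpow_mul hX0.le]
    congr 1; push_cast; ring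
  have hy8X : y ^ 8 ≤ X := by
    rw [hy8]
    calc X ^ (ε / 50) ≤ X ^ (1 : ℝ) := Real.rpow_le_rpow_of_exponent_le hX1 (by linarith)
      _ = X := Real.rpow_one X
  have hy4X : y ^ 4 ≤ X ^ (1 / 10 : ℝ) := by
    rw [hy4]
    exact Real.rpow_le_rpow_of_exponent_le hX1 (by linarith)
  have hB : X ^ (1 - ε / 50) * y ^ 8 = X := by
    rw [hy8, ← Real.rpow_add hX0]
    have : 1 - ε / 50 + ε / 50 = 1 := by ring
    rw [this, Real.rpow_one]
  -- bounds for H
  have hHC : C₀ ≤ H := by
    calc C₀ = C₀ * 1 := by ring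
      _ ≤ C₀ * Real.log X := by gcongr
      _ ≤ H := hH1
  have hH8 : 8 ≤ H := by linarith
  have hH0 : 0 < H := by linarith
  have hy2 : 100 * y ≤ y ^ 2 := by
    have : y ^ 2 = y * y := by ring
    rw [this]; gcongr
  have hy3 : 10000 * y ≤ y ^ 3 := by
    have e : y ^ 3 = y ^ 2 * y := by ring
    have e2 : (100 * y) * 100 ≤ y ^ 2 * y := by gcongr
    linarith
  have hy4' : 1000000 * y ≤ y ^ 4 := by
    have e : y ^ 4 = y ^ 3 * y := by ring
    have e2 : (10000 * y) * 100 ≤ y ^ 3 * y := by gcongr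
    linarith
  have hpow48 : y ^ 4 ≤ y ^ 8 := pow_le_pow_right₀ (by linarith) (by norm_num)
  have hbig : 4 * H + 4 ≤ X := by linarith
  have hmain : (1 / X) * ((1 / 2 + δ / 2) * H * X * Real.log X) ≤ meanSquare X H := by
    apply meanSquare_of_discrete X H _ (by linarith) hbig
    intro h s M hh1 hh2 hh3 hs hM1 hM2
    have hM0r : (0 : ℝ) < M := by linarith
    have hM0 : 0 < M := by exact_mod_cast hM0r
    have hs0 : (0 : ℝ) ≤ s := Nat.cast_nonneg _
    have hh0 : (0 : ℝ) ≤ h := Nat.cast_nonneg _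
    have hMX : X / 2 ≤ M := by linarith
    have hlogn : ∀ n : ℕ, (n : ℝ) ≤ 3 * X → Real.log n ≤ 3 * Real.log X := by
      intro n hn
      rcases Nat.eq_zero_or_pos n with h0 | h0
      · subst h0
        simp only [Nat.cast_zero, Real.log_zero]
        positivity
      · have hn0 : (0 : ℝ) < n := by exact_mod_cast h0
        have h1 : (n : ℝ) ≤ X ^ 3 := by
          have e0 : X ^ 3 = X * X * X := by ring
          have e1 : 3 * X * 1 ≤ X * X * X := by gcongr
          linarith
        calc Real.log n ≤ Real.log (X ^ 3) := Real.log_le_log hn0 h1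
          _ = 3 * Real.log X := by rw [Real.log_pow]; push_cast; ring
    have hsh : ∀ n : ℕ, n ≤ s + M + h → Real.log n ≤ 3 * Real.log X := by
      intro n hn
      apply hlogn
      have : (n : ℝ) ≤ s + M + h := by exact_mod_cast hn
      linarith
    -- the small quantity
    have hyτ2 : 200 ≤ τ * y := by
      rw [div_le_iff₀ hτ] at hyτ; linarith
    have hq : H * (12 + 12 * Real.log X) ≤ τ / 8 * X := by
      have h1 : H * (12 + 12 * Real.log X) ≤ y * (12 + 12 * y) := by
        apply mul_le_mul hH2 (by linarith) (by positivity) hy0.le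
      have h2 : y * (12 + 12 * y) ≤ 13 * y ^ 2 := by
        have e : y * (12 + 12 * y) = 12 * y + 12 * y ^ 2 := by ring
        linarith
      have h3 : 13 * y ^ 2 ≤ τ / 8 * y ^ 8 := by
        have h4 : 13 * 8 * y ^ 2 ≤ 200 * y ^ 2 := by gcongr; norm_num
        have h5 : 200 * y ^ 2 ≤ (τ * y) * y ^ 2 := by
          apply mul_le_mul_of_nonneg_right hyτ2; positivity
        have h6 : (τ * y) * y ^ 2 ≤ τ * y ^ 8 := by
          have : y ^ 3 ≤ y ^ 8 := pow_le_pow_right₀ (by linarith) (by norm_num)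
          have h7 : (τ * y) * y ^ 2 = τ * y ^ 3 := by ring
          rw [h7]
          gcongr
        linarith
      have h4 : τ / 8 * y ^ 8 ≤ τ / 8 * X := by gcongr
      linarith
    by_cases hψ : ∑ n ∈ Ioc 0 (s + M), vM n ≤ (1 - τ / 2) * (s + M)
    · have hfew := few_primes X H (τ / 2) (by positivity) (by linarith) (by linarith) h s M hh2 hs
        hM1 hM2 hM0 (3 * Real.log X) hsh (by positivity) ?_ hψ
      · refine le_trans ?_ hfew
        have h1 : (1 / 2 + δ / 2) * Real.log X ≤ (τ / 2) ^ 2 / 4 * H := by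
          have h2 : 16 * (1 + δ) / τ ^ 2 * Real.log X ≤ H := by
            refine le_trans ?_ hH1
            gcongr
          have h3 : (τ / 2) ^ 2 / 4 * (16 * (1 + δ) / τ ^ 2 * Real.log X) ≤
              (τ / 2) ^ 2 / 4 * H := by gcongr
          have h4 : (τ / 2) ^ 2 / 4 * (16 * (1 + δ) / τ ^ 2 * Real.log X) =
              (1 + δ) * Real.log X := by
            field_simp; ring
          rw [h4] at h3
          have h5 : (1 / 2 + δ / 2) * Real.log X ≤ (1 + δ) * Real.log X := by
            gcongr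
            · norm_num
            · linarith
          linarith
        have h5 : (1 / 2 + δ / 2) * H * X * Real.log X =
            ((1 / 2 + δ / 2) * Real.log X) * (H * X) := by ring
        have h6 : (τ / 2) ^ 2 / 4 * (H ^ 2 * X) = ((τ / 2) ^ 2 / 4 * H) * (H * X) := by ring
        rw [h5, h6]
        gcongr
      · -- hbig of few_primes
        have h1 : (H + 1) * (H + 3 + (H + 1) * (3 * Real.log X)) + (H + 3) * H ≤
            H * (H * (12 + 12 * Real.log X)) := by
          have e1 : H + 1 ≤ 2 * H := by linarith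
          have e2 : H + 3 ≤ 2 * H := by linarith
          have e3 : (H + 1) * (3 * Real.log X) ≤ 2 * H * (3 * Real.log X) := by gcongr
          have e4 : (H + 1) * (H + 3 + (H + 1) * (3 * Real.log X)) ≤
              2 * H * (2 * H + 2 * H * (3 * Real.log X)) := by
            apply mul_le_mul e1 (by linarith) (by positivity) (by positivity)
          have e5 : (H + 3) * H ≤ 2 * H * H := by gcongr
          have e6 : H * (H * (12 + 12 * Real.log X)) =
              2 * H * (2 * H + 2 * H * (3 * Real.log X)) + 2 * H * H + 6 * H ^ 2 := by ring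
          have e7 : 0 ≤ 6 * H ^ 2 := by positivity
          linarith
        have h2 : H * (H * (12 + 12 * Real.log X)) ≤ H * (τ / 8 * X) := by gcongr
        have h3 : X ≤ τ / 8 * (H * X) := by
          have : 8 / τ ≤ H := hc3.trans hHC
          rw [div_le_iff₀ hτ] at this
          have e8 : 1 * X ≤ (H * τ / 8) * X := by
            gcongr
            linarith
          linarith
        have h4 : τ / 2 / 2 * (H * X) = H * (τ / 8 * X) + τ / 8 * (H * X) := by ring
        rw [h4]
        linarith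
    · push Not at hψ
      obtain ⟨lam, hl0, hl1, hg⟩ := hgain X hXX1
      have hhy : (h : ℝ) ≤ y + 1 := by linarith
      have h2y : 2 * y + 4 ≤ y ^ 4 := by linarith
      -- gain for each shift
      have hgu : ∀ u ∈ range h, (1 / 2 + δ) * (X * Real.log X) ≤
          2 * ∑ n ∈ Ioc (s + u) (s + u + M), vM n * gt X ε lam n -
            ∑ n ∈ Ioc (s + u) (s + u + M), gt X ε lam n ^ 2 := by
        intro u hu
        rw [mem_range] at hu
        have hu' : (u : ℝ) ≤ h := by exact_mod_cast hu.le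
        have hu0 : (0 : ℝ) ≤ u := Nat.cast_nonneg _
        apply hg (s + u) M
        · push_cast
          linarith
        · linarith
        · push_cast
          linarith
        · apply Fin_shift s M u τ (3 * Real.log X) hτ1
          · intro n hn
            apply hsh
            omega
          · linarith
          · have h1 : ((s : ℝ) + u) * (3 * Real.log X) ≤ (4 * H) * (3 * Real.log X) := by
              apply mul_le_mul_of_nonneg_right _ (by positivity)
              linarith
            have h2 : (4 * H) * (3 * Real.log X) ≤ τ / 8 * X := by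
              refine le_trans ?_ hq
              have e : H * (12 + 12 * Real.log X) = 12 * H + (4 * H) * (3 * Real.log X) := by ring
              linarith
            have h3 : τ / 2 * (X / 2) ≤ τ / 2 * M := by gcongr
            have h4 : 0 ≤ τ * X := by positivity
            linarith
      have hBpos : 0 ≤ X ^ (1 - ε / 50) := by positivity
      have hmin := minor h H hH0.le s M (gt X ε lam) (X ^ (1 - ε / 50)) (X ^ (1 - ε / 50))
        hBpos hBpos ?_ ?_ ?_
      · refine le_trans ?_ hmin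
        have h1 : (h : ℝ) * ((1 / 2 + δ) * (X * Real.log X)) ≤
            ∑ u ∈ range h, (2 * ∑ n ∈ Ioc (s + u) (s + u + M), vM n * gt X ε lam n -
              ∑ n ∈ Ioc (s + u) (s + u + M), gt X ε lam n ^ 2) := by
          calc (h : ℝ) * ((1 / 2 + δ) * (X * Real.log X)) =
                ∑ u ∈ range h, (1 / 2 + δ) * (X * Real.log X) := by
                rw [sum_const, card_range, nsmul_eq_mul]
            _ ≤ _ := sum_le_sum hgu
        have h2 : (H - 1) * ((1 / 2 + δ) * (X * Real.log X)) ≤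
            (h : ℝ) * ((1 / 2 + δ) * (X * Real.log X)) := by gcongr
        -- error
        set B : ℝ := X ^ (1 - ε / 50) with hBdef
        have hh2H : (h : ℝ) ≤ 2 * H := by linarith
        have h3 : 3 * (h : ℝ) ^ 2 * B + 2 * H * h * B ≤ 16 * H ^ 2 * B := by
          have e1 : (h : ℝ) ^ 2 ≤ (2 * H) ^ 2 := by gcongr
          have e2 : 3 * (h : ℝ) ^ 2 * B ≤ 3 * (2 * H) ^ 2 * B := by gcongr
          have e3 : 2 * H * h * B ≤ 2 * H * (2 * H) * B := by gcongr
          have e4 : 16 * H ^ 2 * B = 3 * (2 * H) ^ 2 * B + 2 * H * (2 * H) * B := by ring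
          linarith
        have h4 : 16 * H * B ≤ δ / 4 * X := by
          have e1 : 64 ≤ δ * y := by
            rw [div_le_iff₀ hδ] at hyδ; linarith
          have e2 : 16 * H * B ≤ 16 * y * B := by gcongr
          have e3 : 64 * y ≤ δ * y ^ 8 := by
            have e4 : 64 * y ≤ (δ * y) * y := by gcongr
            have e5 : (δ * y) * y = δ * y ^ 2 := by ring
            have e6 : y ^ 2 ≤ y ^ 8 := pow_le_pow_right₀ (by linarith) (by norm_num)
            have e7 : δ * y ^ 2 ≤ δ * y ^ 8 := by gcongr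
            linarith
          have e4 : 16 * y * B ≤ δ / 4 * y ^ 8 * B := by
            apply mul_le_mul_of_nonneg_right _ hBpos
            linarith
          have e5 : δ / 4 * y ^ 8 * B = δ / 4 * X := by
            rw [← hB]; ring
          linarith
        have h5 : 16 * H ^ 2 * B ≤ δ / 4 * (H * (X * Real.log X)) := by
          have e1 : 16 * H ^ 2 * B = H * (16 * H * B) := by ring
          have e2 : H * (16 * H * B) ≤ H * (δ / 4 * X) := by gcongr
          have e3 : H * (δ / 4 * X) * 1 ≤ H * (δ / 4 * X) * Real.log X := by gcongr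
          have e4 : H * (δ / 4 * X) * Real.log X = δ / 4 * (H * (X * Real.log X)) := by ring
          linarith
        have h6 : (1 / 2 + δ) ≤ δ / 4 * H := by
          have : 4 * (1 / 2 + δ) / δ ≤ H := hc2.trans hHC
          rw [div_le_iff₀ hδ] at this
          linarith
        have h7 : (1 / 2 + δ) * (X * Real.log X) ≤ δ / 4 * H * (X * Real.log X) := by
          have : 0 ≤ X * Real.log X := by positivity
          gcongr
        have h8 : (1 / 2 + δ / 2) * H * X * Real.log X =
            (H - 1) * ((1 / 2 + δ) * (X * Real.log X)) + (1 / 2 + δ) * (X * Real.log X) -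
              δ / 2 * (H * (X * Real.log X)) := by ring
        rw [h8]
        linarith
      · intro A j hj0 hjh hA hAj
        have hjr : |(j : ℝ)| ≤ X ^ (ε / 100) := by
          rw [← hy4]
          have e1 : |(j : ℝ)| < h := by exact_mod_cast hjh
          linarith
        have hAr : (A : ℝ) < s + h := by exact_mod_cast hA
        refine ((hcorr X hXX2 lam hl0 hl1 A M ?_).1 j hj0 hjr hAj).1
        push_cast
        linarith
      · intro A j hj0 hjh hA hAj
        have hjr : |(j : ℝ)| ≤ X ^ (ε / 100) := by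
          rw [← hy4]
          have e1 : |(j : ℝ)| < h := by exact_mod_cast hjh
          linarith
        have hAr : (A : ℝ) < s + h := by exact_mod_cast hA
        refine ((hcorr X hXX2 lam hl0 hl1 A M ?_).1 j hj0 hjr hAj).2
        push_cast
        linarith
      · intro A hA
        have hAr : (A : ℝ) < s + h := by exact_mod_cast hA
        refine (hcorr X hXX2 lam hl0 hl1 A M ?_).2
        push_cast
        linarith
  have hfin : (1 / X) * ((1 / 2 + δ / 2) * H * X * Real.log X) =
      (1 / 2 + δ / 2) * H * Real.log X := by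
    field_simp
  rw [← hfin]
  exact hmain

end Pool.Agent.Lib.MP_2a816b_nt.BH
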