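import Pool.Agent.Lib.MP_2a816b_nt.BH.RamA

/-!
# JOB RedA: reduction of bilinear sums to squarefree `l`
-/

set_option autoImplicit false

open Finset Real

namespace Pool.Agent.Lib.MP_2a816b_nt.BH

/-- squarefull numbers: `p ∣ s → p ^ 2 ∣ s` -/
def Sqfull (s : ℕ) : Prop := ∀ p : ℕ, p.Prime → p ∣ s → p ^ 2 ∣ s

private lemma sqfull_one : Sqfull 1 := by
  intro p hp h
  exact absurd (Nat.dvd_one.1 h) hp.one_lt.ne'

/-- every `l ≥ 1` is `s * l'` with `s` squarefull, `l'` squarefree, coprime; uniquely -/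
lemma sqfull_decomp (l : ℕ) (hl : 0 < l) :
    ∃ s l' : ℕ, l = s * l' ∧ 0 < s ∧ Sqfull s ∧ Squarefree l' ∧ s.Coprime l' := by
  induction l using Nat.recOnPosPrimePosCoprime with
  | prime_pow p n hp hn =>
    rcases Nat.lt_or_ge n 2 with h | h
    · have : n = 1 := by omega
      subst this
      refine ⟨1, p, by simp, one_pos, sqfull_one, hp.prime.squarefree, by simp⟩
    · refine ⟨p ^ n, 1, by simp, pow_pos hp.pos n, ?_, squarefree_one, by simp⟩
      intro q hq hqd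
      have : q ∣ p := hq.dvd_of_dvd_pow hqd
      have hqp : q = p := (Nat.prime_dvd_prime_iff_eq hq hp).1 this
      subst hqp
      exact pow_dvd_pow q h
  | zero => exact absurd hl (lt_irrefl 0)
  | one => exact ⟨1, 1, by simp, one_pos, sqfull_one, squarefree_one, by simp⟩
  | coprime a b ha hb hab iha ihb =>
    obtain ⟨s, m, h1, h2, h3, h4, h5⟩ := iha (by omega)
    obtain ⟨s', m', h1', h2', h3', h4', h5'⟩ := ihb (by omega)
    have hss : s.Coprime s' := Nat.Coprime.coprime_dvd_left ⟨m, h1⟩ (Nat.Coprime.coprime_dvd_right ⟨m', h1'⟩ hab)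
    have hsm : s.Coprime m' := Nat.Coprime.coprime_dvd_left ⟨m, h1⟩
      (Nat.Coprime.coprime_dvd_right ⟨s', by rw [h1']; ring⟩ hab)
    have hms : m.Coprime s' := Nat.Coprime.coprime_dvd_left ⟨s, by rw [h1]; ring⟩
      (Nat.Coprime.coprime_dvd_right ⟨m', h1'⟩ hab)
    have hmm : m.Coprime m' := Nat.Coprime.coprime_dvd_left ⟨s, by rw [h1]; ring⟩
      (Nat.Coprime.coprime_dvd_right ⟨s', by rw [h1']; ring⟩ hab)
    refine ⟨s * s', m * m', by rw [h1, h1']; ring, Nat.mul_pos h2 h2', ?_, ?_, ?_⟩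
    · intro p hp hd
      rcases (Nat.Prime.dvd_mul hp).1 hd with h | h
      · exact (h3 p hp h).mul_right _
      · exact (h3' p hp h).mul_left _
    · exact (Nat.squarefree_mul hmm).2 ⟨h4, h4'⟩
    · exact Nat.Coprime.mul_left (Nat.Coprime.mul_right h5 hsm)
        (Nat.Coprime.mul_right hms.symm h5')

private lemma sqfull_dvd {s s' l l' : ℕ} (h : s * l = s' * l')
    (hs : Sqfull s) (hl' : Squarefree l') (hc' : s'.Coprime l') : s ∣ s' := by
  have hco : s.Coprime l' := by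
    apply Nat.Coprime.symm
    rw [Nat.coprime_iff_isRelPrime]
    by_contra hcon
    rw [← Nat.coprime_iff_isRelPrime] at hcon
    obtain ⟨p, hp, hpl, hps⟩ := Nat.Prime.not_coprime_iff_dvd.1 hcon
    have h2 : p ^ 2 ∣ s' * l' := by
      rw [← h]; exact (hs p hp hps).mul_right _
    have h3 : (p ^ 2).Coprime s' := by
      apply Nat.Coprime.pow_left
      rw [Nat.Prime.coprime_iff_not_dvd hp]
      intro hps'
      have h5 : p ∣ Nat.gcd s' l' := Nat.dvd_gcd hps' hpl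
      rw [Nat.Coprime.gcd_eq_one hc'] at h5
      exact hp.one_lt.ne' (Nat.dvd_one.1 h5)
    have h4 : p ^ 2 ∣ l' := h3.dvd_of_dvd_mul_left h2
    have := hl' p (by rw [← sq]; exact h4)
    exact hp.one_lt.ne' (Nat.isUnit_iff.1 this)
  have : s ∣ s' * l' := by rw [← h]; exact dvd_mul_right _ _
  exact hco.dvd_of_dvd_mul_right this

lemma sqfull_decomp_unique {s s' l l' : ℕ} (h : s * l = s' * l') (hs0 : 0 < s) (hs0' : 0 < s')
    (hs : Sqfull s) (hs' : Sqfull s')
    (hl : Squarefree l) (hl' : Squarefree l') (hc : s.Coprime l) (hc' : s'.Coprime l') :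
    s = s' ∧ l = l' := by
  have h1 : s ∣ s' := sqfull_dvd h hs hl' hc'
  have h2 : s' ∣ s := sqfull_dvd h.symm hs' hl hc
  have h3 : s = s' := Nat.dvd_antisymm h1 h2
  subst h3
  exact ⟨rfl, Nat.eq_of_mul_eq_mul_left hs0 h⟩

/-- a squarefull number is `a ^ 2 * b ^ 3` -/
private lemma sqfull_rep (s : ℕ) (hs0 : 0 < s) (hs : Sqfull s) : ∃ a b : ℕ, s = a ^ 2 * b ^ 3 := by
  revert hs
  induction s using Nat.recOnPosPrimePosCoprime with
  | prime_pow p n hp hn =>
    intro hs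
    have h2 : 2 ≤ n := by
      by_contra hcon
      have : n = 1 := by omega
      subst this
      have := hs p hp (by simp)
      rw [pow_one] at this
      have h3 := Nat.le_of_dvd hp.pos this
      nlinarith [hp.two_le]
    rcases Nat.even_or_odd' n with ⟨m, hm | hm⟩
    · exact ⟨p ^ m, 1, by rw [hm]; ring⟩
    · refine ⟨p ^ (m - 1), p, ?_⟩
      rw [hm, ← pow_mul, ← pow_add]
      congr 1
      omega
  | zero => exact absurd hs0 (lt_irrefl 0)
  | one => intro _; exact ⟨1, 1, by simp⟩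
  | coprime a b ha hb hab iha ihb =>
    intro hs
    have hA : Sqfull a := by
      intro p hp hpa
      have h1 := hs p hp (hpa.mul_right _)
      have h3 : (p ^ 2).Coprime b := by
        apply Nat.Coprime.pow_left
        exact Nat.Coprime.coprime_dvd_left hpa hab
      exact h3.dvd_of_dvd_mul_right h1
    have hB : Sqfull b := by
      intro p hp hpa
      have h1 := hs p hp (hpa.mul_left _)
      have h3 : (p ^ 2).Coprime a := by
        apply Nat.Coprime.pow_left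
        exact Nat.Coprime.coprime_dvd_left hpa hab.symm
      exact h3.dvd_of_dvd_mul_left h1
    obtain ⟨x, y, h1⟩ := iha (by omega) hA
    obtain ⟨x', y', h1'⟩ := ihb (by omega) hB
    exact ⟨x * x', y * y', by rw [h1, h1']; ring⟩

private lemma tele (N : ℕ) : ∑ b ∈ Ioc 0 N, 1 / ((b : ℝ) * √b) ≤ 4 * (1 - 1 / √((N : ℝ) + 1)) := by
  induction N with
  | zero => simp
  | succ n ih =>
    rw [← Finset.sum_Ioc_consecutive _ (Nat.zero_le n) (Nat.le_succ n)]
    have h1 : Ioc n (n + 1) = {n + 1} := by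
      ext x; simp only [mem_Ioc, mem_singleton]; omega
    rw [show n.succ = n + 1 from rfl, h1, sum_singleton]
    push_cast
    set x : ℝ := (n : ℝ) + 1 with hx
    have hx1 : 1 ≤ x := by rw [hx]; have : (0:ℝ) ≤ n := Nat.cast_nonneg n; linarith
    have hs1 : 0 < √x := Real.sqrt_pos.2 (by linarith)
    have hs2 : 0 < √(x + 1) := Real.sqrt_pos.2 (by linarith)
    have e1 : √x ^ 2 = x := Real.sq_sqrt (by linarith)
    have e2 : √(x + 1) ^ 2 = x + 1 := Real.sq_sqrt (by linarith)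
    have hle : √x ≤ √(x + 1) := Real.sqrt_le_sqrt (by linarith)
    have key : 1 / (x * √x) ≤ 4 * (1 / √x - 1 / √(x + 1)) := by
      have h3 : 1 / √x - 1 / √(x + 1) = 1 / (√x * √(x + 1) * (√(x + 1) + √x)) := by
        field_simp
        nlinarith
      rw [h3]
      have h4 : √x * √(x + 1) * (√(x + 1) + √x) ≤ 4 * (x * √x) := by
        have : √(x + 1) * (√(x + 1) + √x) ≤ 4 * x := by nlinarith
        nlinarith
      rw [show 4 * (1 / (√x * √(x + 1) * (√(x + 1) + √x))) = 4 / (√x * √(x + 1) * (√(x + 1) + √x)) by ring]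
      rw [div_le_div_iff₀ (by positivity) (by positivity)]
      linarith
    linarith

private lemma sum_a (b S₀ N : ℕ) (hb : 0 < b) (hS : 1 ≤ S₀) :
    ∑ a ∈ (Ioc 0 N).filter (fun a => S₀ < a ^ 2 * b ^ 3), 1 / ((a : ℝ) ^ 2) ≤
      2 * (b * √b) / √S₀ := by
  set A := (Ioc 0 N).filter (fun a => S₀ < a ^ 2 * b ^ 3) with hA
  have hb' : (0 : ℝ) < b := by exact_mod_cast hb
  have hS' : (0 : ℝ) < S₀ := by exact_mod_cast hS
  rcases A.eq_empty_or_nonempty with h | h
  · rw [h, sum_empty]; positivity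
  · set a₀ := A.min' h with ha₀
    have hm : a₀ ∈ A := A.min'_mem h
    rw [hA, mem_filter, mem_Ioc] at hm
    obtain ⟨⟨h1, h2⟩, h3⟩ := hm
    have hsub : A ⊆ Ioo (a₀ - 1) (N + 1) := by
      intro a ha
      have h4 : a₀ ≤ a := A.min'_le a ha
      rw [hA, mem_filter, mem_Ioc] at ha
      rw [mem_Ioo]
      omega
    have h5 : ∑ a ∈ A, 1 / ((a : ℝ) ^ 2) ≤ 2 / (((a₀ - 1 : ℕ) : ℝ) + 1) := by
      calc ∑ a ∈ A, 1 / ((a : ℝ) ^ 2) ≤ ∑ a ∈ Ioo (a₀ - 1) (N + 1), 1 / ((a : ℝ) ^ 2) :=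
            sum_le_sum_of_subset_of_nonneg hsub (by intros; positivity)
        _ = ∑ a ∈ Ioo (a₀ - 1) (N + 1), ((a : ℝ) ^ 2)⁻¹ := by simp
        _ ≤ _ := sum_Ioo_inv_sq_le _ _
    have h6 : (((a₀ - 1 : ℕ) : ℝ) + 1) = a₀ := by
      have : ((a₀ - 1 : ℕ) : ℝ) = (a₀ : ℝ) - 1 := by
        rw [Nat.cast_sub (by omega)]; simp
      rw [this]; ring
    rw [h6] at h5
    refine h5.trans ?_
    have ha0 : (0 : ℝ) < a₀ := by exact_mod_cast h1
    rw [div_le_div_iff₀ ha0 (Real.sqrt_pos.2 hS')]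
    have h7 : √(S₀ : ℝ) ≤ (b * √b) * a₀ := by
      rw [show (b : ℝ) * √b * a₀ = √((b * √b * a₀) ^ 2) by
        rw [Real.sqrt_sq (by positivity)]]
      apply Real.sqrt_le_sqrt
      rw [mul_pow, mul_pow, Real.sq_sqrt hb'.le]
      have : (S₀ : ℝ) < a₀ ^ 2 * b ^ 3 := by exact_mod_cast h3
      nlinarith
    nlinarith

/-- `∑ 1 / s ≤ 10 / √S₀` over squarefull `s ∈ (S₀, N]`: every squarefull `s` is `a ^ 2 b ^ 3` (with `b` squarefree), and
`∑_b b ^ (-3) ∑_{a > √(S₀ / b ^ 3)} a ^ (-2) ≤ ∑_b b ^ (-3) min(2, 2 √(b ^ 3 / S₀)) ≤ 2 S₀ ^ (-1/2) ∑_b b ^ (-3/2)`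
(`∑_{a > x} a ^ (-2) ≤ 2 / max(x, 1)` for real `x ≥ 0`). -/
lemma sum_sqfull (S₀ N : ℕ) (hS : 1 ≤ S₀) (V : Finset ℕ)
    (hV : ∀ s ∈ V, Sqfull s ∧ S₀ < s ∧ s ≤ N) : ∑ s ∈ V, (1 : ℝ) / s ≤ 10 / √S₀ := by
  have hS' : (0 : ℝ) < S₀ := by exact_mod_cast hS
  have hsS : 0 < √(S₀ : ℝ) := Real.sqrt_pos.2 hS'
  set P := (Ioc 0 N).sigma (fun b => (Ioc 0 N).filter (fun a => S₀ < a ^ 2 * b ^ 3)) with hP
  set g : (Σ _ : ℕ, ℕ) → ℕ := fun x => x.2 ^ 2 * x.1 ^ 3 with hg
  have hsub : V ⊆ P.image g := by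
    intro s hs
    obtain ⟨h1, h2, h3⟩ := hV s hs
    obtain ⟨a, b, hab⟩ := sqfull_rep s (by omega) h1
    have ha : 0 < a := by
      rcases Nat.eq_zero_or_pos a with h | h
      · subst h; simp at hab; omega
      · exact h
    have hb : 0 < b := by
      rcases Nat.eq_zero_or_pos b with h | h
      · subst h; simp at hab; omega
      · exact h
    rw [mem_image]
    refine ⟨⟨b, a⟩, ?_, hab.symm⟩
    rw [hP, mem_sigma, mem_filter, mem_Ioc, mem_Ioc]
    dsimp only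
    have haN : a ≤ N := by
      have : a ≤ s := by
        rw [hab]
        calc a = a * 1 := (mul_one a).symm
          _ ≤ a * (a * b ^ 3) := Nat.mul_le_mul_left _ (Nat.mul_pos ha (pow_pos hb 3))
          _ = a ^ 2 * b ^ 3 := by ring
      omega
    have hbN : b ≤ N := by
      have : b ≤ s := by
        rw [hab]
        calc b = b * 1 := (mul_one b).symm
          _ ≤ b * (b ^ 2 * a ^ 2) := Nat.mul_le_mul_left _ (Nat.mul_pos (pow_pos hb 2) (pow_pos ha 2))
          _ = a ^ 2 * b ^ 3 := by ring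
      omega
    refine ⟨⟨hb, hbN⟩, ⟨ha, haN⟩, ?_⟩
    rw [← hab]; exact h2
  calc ∑ s ∈ V, (1 : ℝ) / s ≤ ∑ s ∈ P.image g, (1 : ℝ) / s :=
        sum_le_sum_of_subset_of_nonneg hsub (by intros; positivity)
    _ ≤ ∑ x ∈ P, (1 : ℝ) / ((g x : ℕ) : ℝ) := by
        apply sum_image_le_of_nonneg (f := fun s : ℕ => (1 : ℝ) / (s : ℝ))
        intros; positivity
    _ = ∑ b ∈ Ioc 0 N, ∑ a ∈ (Ioc 0 N).filter (fun a => S₀ < a ^ 2 * b ^ 3),
          1 / ((a : ℝ) ^ 2) * (1 / (b : ℝ) ^ 3) := by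
        rw [hP, sum_sigma]
        apply sum_congr rfl; intro b hb
        apply sum_congr rfl; intro a ha
        rw [hg]
        push_cast
        rw [one_div_mul_one_div]
    _ ≤ ∑ b ∈ Ioc 0 N, (2 / √S₀) * (1 / ((b : ℝ) * √b)) := by
        apply sum_le_sum
        intro b hb
        rw [mem_Ioc] at hb
        have hb' : (0 : ℝ) < b := by exact_mod_cast hb.1
        have hsb : 0 < √(b : ℝ) := Real.sqrt_pos.2 hb'
        have hsb2 : √(b : ℝ) ^ 2 = b := Real.sq_sqrt hb'.le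
        rw [← sum_mul]
        refine (mul_le_mul_of_nonneg_right (sum_a b S₀ N hb.1 hS) (by positivity)).trans ?_
        apply le_of_eq
        field_simp
        nlinarith
    _ = (2 / √S₀) * ∑ b ∈ Ioc 0 N, (1 / ((b : ℝ) * √b)) := by rw [mul_sum]
    _ ≤ (2 / √S₀) * 4 := by
        apply mul_le_mul_of_nonneg_left _ (by positivity)
        refine (tele N).trans ?_
        have : 0 ≤ 1 / √((N : ℝ) + 1) := by positivity
        linarith
    _ ≤ 10 / √S₀ := by
        rw [div_mul_eq_mul_div]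
        apply div_le_div_of_nonneg_right _ hsS.le
        norm_num

private lemma sum_mult (s K : ℕ) (hs : 0 < s) (H : ℕ → ℝ) :
    ∑ k' ∈ Ioc 0 (K * s), (if s ∣ k' then H k' else 0) = ∑ k ∈ Ioc 0 K, H (k * s) := by
  rw [← sum_filter]
  symm
  apply sum_bij (fun k _ => k * s)
  · intro k hk
    rw [mem_Ioc] at hk
    rw [mem_filter, mem_Ioc]
    exact ⟨⟨Nat.mul_pos hk.1 hs, Nat.mul_le_mul_right _ hk.2⟩, dvd_mul_left _ _⟩
  · intro a _ b _ h
    exact Nat.eq_of_mul_eq_mul_right hs h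
  · intro k' hk'
    rw [mem_filter, mem_Ioc] at hk'
    obtain ⟨⟨h1, h2⟩, c, hc⟩ := hk'
    subst hc
    refine ⟨c, ?_, mul_comm _ _⟩
    rw [mem_Ioc]
    constructor
    · exact Nat.pos_of_mul_pos_left h1 |> fun h => by
        rcases Nat.eq_zero_or_pos c with h0 | h0
        · subst h0; simp at h1
        · exact h0
    · have : s * c ≤ s * K := by rw [mul_comm s K]; exact h2
      exact Nat.le_of_mul_le_mul_left this hs
  · intro k _; rfl

open Classical in
private lemma sum_decomp (L₁ L₂ : ℕ) (f : ℕ → ℝ) :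
    ∑ l ∈ Ioc L₁ L₂, f l = ∑ s ∈ (Ioc 0 L₂).filter Sqfull,
      ∑ l' ∈ (Ioc (L₁ / s) (L₂ / s)).filter Squarefree,
        (if s.Coprime l' then f (s * l') else 0) := by
  have h1 : ∀ s ∈ (Ioc 0 L₂).filter Sqfull, ∑ l' ∈ (Ioc (L₁ / s) (L₂ / s)).filter Squarefree,
        (if s.Coprime l' then f (s * l') else 0) =
      ∑ l' ∈ ((Ioc (L₁ / s) (L₂ / s)).filter Squarefree).filter (fun l' => s.Coprime l'),
        f (s * l') := by
    intro s _
    rw [sum_filter (p := fun l' => s.Coprime l')]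
  rw [sum_congr rfl h1, sum_sigma']
  symm
  apply sum_bij (fun x _ => x.1 * x.2)
  · rintro ⟨s, l'⟩ hx
    rw [mem_sigma, mem_filter, mem_filter, mem_filter, mem_Ioc, mem_Ioc] at hx
    obtain ⟨⟨⟨h1, h2⟩, h3⟩, ⟨⟨h4, h5⟩, h6⟩, h7⟩ := hx
    dsimp only at *
    rw [mem_Ioc]
    rw [Nat.div_lt_iff_lt_mul h1] at h4
    rw [Nat.le_div_iff_mul_le h1] at h5
    rw [mul_comm s l']
    exact ⟨h4, h5⟩
  · rintro ⟨s, l'⟩ hx ⟨t, m'⟩ hy hxy
    rw [mem_sigma, mem_filter, mem_filter, mem_filter, mem_Ioc, mem_Ioc] at hx hy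
    obtain ⟨⟨⟨h1, h2⟩, h3⟩, ⟨⟨h4, h5⟩, h6⟩, h7⟩ := hx
    obtain ⟨⟨⟨h1', h2'⟩, h3'⟩, ⟨⟨h4', h5'⟩, h6'⟩, h7'⟩ := hy
    dsimp only at *
    obtain ⟨e1, e2⟩ := sqfull_decomp_unique hxy h1 h1' h3 h3' h6 h6' h7 h7'
    subst e1; subst e2; rfl
  · intro l hl
    rw [mem_Ioc] at hl
    obtain ⟨s, l', h1, h2, h3, h4, h5⟩ := sqfull_decomp l (by omega)
    refine ⟨⟨s, l'⟩, ?_, h1.symm⟩
    rw [mem_sigma, mem_filter, mem_filter, mem_filter, mem_Ioc, mem_Ioc]
    dsimp only
    have hl' : 0 < l' := Nat.pos_of_ne_zero h4.ne_zero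
    refine ⟨⟨⟨h2, ?_⟩, h3⟩, ⟨⟨?_, ?_⟩, h4⟩, h5⟩
    · calc s = s * 1 := (mul_one s).symm
        _ ≤ s * l' := Nat.mul_le_mul_left _ hl'
        _ ≤ L₂ := by rw [← h1]; exact hl.2
    · rw [Nat.div_lt_iff_lt_mul h2, mul_comm, ← h1]; exact hl.1
    · rw [Nat.le_div_iff_mul_le h2, mul_comm, ← h1]; exact hl.2
  · intro x _; rfl

/-- Reduction to squarefree `l`. Write `l = s l'`; for `s ≤ S₀` the sum over `(k, l')` is a bilinear sum in `(k' = k s, l')`,
`k' ≤ K s`, with coefficients `α' k' = [s ∣ k'] α (k' / s)` and `β' l' = [(s, l') = 1] β (s l')`; for `s > S₀` use the trivial bound: at most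
`K L₂ / s` pairs `(k, l')`. -/
theorem sqfree_red (F : ℤ → ℝ) (K L₁ L₂ S₀ : ℕ) (hS : 1 ≤ S₀) (B B₀ : ℝ)
    (hF : ∀ n : ℕ, 0 < n → n ≤ K * L₂ → |F n| ≤ B₀)
    (hB : ∀ s : ℕ, 1 ≤ s → s ≤ S₀ → Bil F (K * s) ((Ioc (L₁ / s) (L₂ / s)).filter Squarefree) B) :
    Bil F K (Ioc L₁ L₂) (S₀ * B + 10 * B₀ * (K * L₂) / √S₀) := by
  classical
  intro α β hα hβ
  have hB0 : 0 ≤ B := by
    have := hB 1 le_rfl hS (fun _ => 0) (fun _ => 0) (by simp) (by simp)
    exact (abs_nonneg _).trans this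
  -- trivial case
  rcases Nat.eq_zero_or_pos (K * L₂) with h0 | h0
  · have hz : ∑ k ∈ Ioc 0 K, ∑ l ∈ Ioc L₁ L₂, α k * β l * F ((k : ℤ) * l) = 0 := by
      rcases Nat.mul_eq_zero.1 h0 with h | h
      · subst h; simp
      · subst h
        have : Ioc L₁ 0 = ∅ := by rw [Finset.Ioc_eq_empty]; omega
        rw [this]; simp
    have h0' : (K : ℝ) * L₂ = 0 := by exact_mod_cast h0
    rw [hz, abs_zero, h0', mul_zero, zero_div, add_zero]
    positivity
  have hB00 : 0 ≤ B₀ := (abs_nonneg _).trans (hF 1 one_pos h0)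
  set T := (Ioc 0 L₂).filter Sqfull with hT
  set X : ℕ → ℝ := fun s => ∑ k ∈ Ioc 0 K, ∑ l' ∈ (Ioc (L₁ / s) (L₂ / s)).filter Squarefree,
    (if s.Coprime l' then α k * β (s * l') * F ((k : ℤ) * ((s * l' : ℕ) : ℤ)) else 0) with hX
  have h1 : ∑ k ∈ Ioc 0 K, ∑ l ∈ Ioc L₁ L₂, α k * β l * F ((k : ℤ) * l) = ∑ s ∈ T, X s := by
    have h2 : ∑ s ∈ T, X s = ∑ k ∈ Ioc 0 K, ∑ s ∈ T,
        ∑ l' ∈ (Ioc (L₁ / s) (L₂ / s)).filter Squarefree,
        (if s.Coprime l' then α k * β (s * l') * F ((k : ℤ) * ((s * l' : ℕ) : ℤ)) else 0) := sum_comm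
    rw [h2]
    apply sum_congr rfl
    intro k _
    exact sum_decomp L₁ L₂ (fun l => α k * β l * F ((k : ℤ) * l))
  rw [h1]
  have hsmall : ∀ s ∈ T.filter (fun s => s ≤ S₀), |X s| ≤ B := by
    intro s hs
    rw [mem_filter, hT, mem_filter, mem_Ioc] at hs
    obtain ⟨⟨⟨hs1, hs2⟩, hs3⟩, hs4⟩ := hs
    have := hB s hs1 hs4 (fun k' => if s ∣ k' then α (k' / s) else 0)
      (fun l' => if s.Coprime l' then β (s * l') else 0)
      (by intro k; split_ifs with h
          · exact hα _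
          · simp)
      (by intro k; split_ifs with h
          · exact hβ _
          · simp)
    convert this using 2
    have h2 : ∀ k' ∈ Ioc 0 (K * s), (∑ l' ∈ (Ioc (L₁ / s) (L₂ / s)).filter Squarefree,
        (if s ∣ k' then α (k' / s) else 0) * (if s.Coprime l' then β (s * l') else 0) *
          F ((k' : ℤ) * l')) =
        if s ∣ k' then (∑ l' ∈ (Ioc (L₁ / s) (L₂ / s)).filter Squarefree,
          α (k' / s) * (if s.Coprime l' then β (s * l') else 0) * F ((k' : ℤ) * l')) else 0 := by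
      intro k' _
      split_ifs with h
      · rfl
      · simp
    rw [sum_congr rfl h2, sum_mult s K hs1]
    apply sum_congr rfl; intro k _
    apply sum_congr rfl; intro l' _
    rw [Nat.mul_div_cancel _ hs1]
    split_ifs with h
    · congr 2
      push_cast; ring
    · simp
  have hbig : ∀ s ∈ T.filter (fun s => ¬ s ≤ S₀), |X s| ≤ B₀ * (K * L₂) * (1 / s) := by
    intro s hs
    rw [mem_filter, hT, mem_filter, mem_Ioc] at hs
    obtain ⟨⟨⟨hs1, hs2⟩, hs3⟩, hs4⟩ := hs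
    have hs1' : (0 : ℝ) < s := by exact_mod_cast hs1
    calc |X s| ≤ ∑ k ∈ Ioc 0 K, |∑ l' ∈ (Ioc (L₁ / s) (L₂ / s)).filter Squarefree,
          (if s.Coprime l' then α k * β (s * l') * F ((k : ℤ) * ((s * l' : ℕ) : ℤ)) else 0)| :=
          abs_sum_le_sum_abs _ _
      _ ≤ ∑ k ∈ Ioc 0 K, ∑ l' ∈ (Ioc (L₁ / s) (L₂ / s)).filter Squarefree, B₀ := by
          apply sum_le_sum
          intro k hk
          rw [mem_Ioc] at hk
          refine (abs_sum_le_sum_abs _ _).trans ?_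
          apply sum_le_sum
          intro l' hl'
          rw [mem_filter, mem_Ioc] at hl'
          split_ifs with h
          · rw [abs_mul, abs_mul]
            have h3 : |F ((k : ℤ) * ((s * l' : ℕ) : ℤ))| ≤ B₀ := by
              have := hF (k * (s * l')) (Nat.mul_pos hk.1 (Nat.mul_pos hs1 ((Nat.zero_le _).trans_lt hl'.1.1))) (by
                apply Nat.mul_le_mul hk.2
                rw [mul_comm]
                exact (Nat.le_div_iff_mul_le hs1).1 hl'.1.2)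
              push_cast at this ⊢
              exact this
            calc |α k| * |β (s * l')| * |F ((k : ℤ) * ((s * l' : ℕ) : ℤ))| ≤ 1 * 1 * B₀ := by
                  gcongr
                  · exact hα k
                  · exact hβ _
              _ = B₀ := by ring
          · simpa using hB00
      _ ≤ K * (((L₂ / s : ℕ) : ℝ) * B₀) := by
          rw [sum_const, sum_const, Nat.card_Ioc, nsmul_eq_mul, nsmul_eq_mul, Nat.sub_zero]
          apply mul_le_mul_of_nonneg_left _ (by positivity)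
          apply mul_le_mul_of_nonneg_right _ hB00
          have : ((Ioc (L₁ / s) (L₂ / s)).filter Squarefree).card ≤ L₂ / s := by
            refine (card_filter_le _ _).trans ?_
            rw [Nat.card_Ioc]; exact Nat.sub_le _ _
          exact_mod_cast this
      _ ≤ K * (((L₂ : ℝ) / s) * B₀) := by
          gcongr
          exact Nat.cast_div_le
      _ = B₀ * (K * L₂) * (1 / s) := by ring
  rw [← sum_filter_add_sum_filter_not T (fun s => s ≤ S₀)]
  refine (abs_add_le _ _).trans ?_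
  apply add_le_add
  · calc |∑ s ∈ T.filter (fun s => s ≤ S₀), X s| ≤ ∑ s ∈ T.filter (fun s => s ≤ S₀), |X s| :=
          abs_sum_le_sum_abs _ _
      _ ≤ ∑ s ∈ T.filter (fun s => s ≤ S₀), B := sum_le_sum hsmall
      _ ≤ S₀ * B := by
          rw [sum_const, nsmul_eq_mul]
          apply mul_le_mul_of_nonneg_right _ hB0
          have : (T.filter (fun s => s ≤ S₀)).card ≤ (Ioc 0 S₀).card := by
            apply card_le_card
            intro s hs
            rw [mem_filter, hT, mem_filter, mem_Ioc] at hs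
            rw [mem_Ioc]
            exact ⟨hs.1.1.1, hs.2⟩
          rw [Nat.card_Ioc, Nat.sub_zero] at this
          exact_mod_cast this
  · calc |∑ s ∈ T.filter (fun s => ¬ s ≤ S₀), X s| ≤ ∑ s ∈ T.filter (fun s => ¬ s ≤ S₀), |X s| :=
          abs_sum_le_sum_abs _ _
      _ ≤ ∑ s ∈ T.filter (fun s => ¬ s ≤ S₀), B₀ * (K * L₂) * (1 / s) := sum_le_sum hbig
      _ = B₀ * (K * L₂) * ∑ s ∈ T.filter (fun s => ¬ s ≤ S₀), (1 / s : ℝ) := by rw [mul_sum]
      _ ≤ B₀ * (K * L₂) * (10 / √S₀) := by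
          apply mul_le_mul_of_nonneg_left _ (by positivity)
          apply sum_sqfull S₀ L₂ hS
          intro s hs
          rw [mem_filter, hT, mem_filter, mem_Ioc] at hs
          exact ⟨hs.1.2, by omega, hs.1.1.2⟩
      _ = _ := by ring

end Pool.Agent.Lib.MP_2a816b_nt.BH
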