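import Pool.Agent.Lib.MP_2a816b_nt.BH.RamA

/-!
# JOB RedB: reductions for bilinear sums: the condition `k l ≤ Y`, the factor `bc r`, sums
-/

set_option autoImplicit false

open Finset Real

namespace Pool.Agent.Lib.MP_2a816b_nt.BH

/-- The condition `k l ≤ Y`, `l ∈ (L₁, L₂]`. Split `(L₁, L₂]` into intervals `(L₁ + i λ, L₁ + (i + 1) λ]` of length `λ` (the last one shorter);
on such an interval replace `k ≤ Y / l` by `k ≤ Y / (L₁ + i λ)` (then `Bil` applies, since `Y / (L₁ + i λ) ≤ Y / L₁ ≤ K`: put `α = 0`, `β = 0` elsewhere);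
the extra pairs have `Y < k l ≤ Y (1 + λ / L₁)`, and the number of pairs `(k, l)` with product `n` is at most `τ(n) ≤ T`. -/
theorem box {M : ℕ} {T : ℝ} (hBig : Big M T) (F : ℤ → ℝ) (K L₁ L₂ Y lam : ℕ) (hL : 1 ≤ L₁)
    (hlam : 1 ≤ lam) (hlam' : lam ≤ L₁) (hL12 : L₁ ≤ L₂) (hK : Y / L₁ ≤ K) (hYM : 2 * Y ≤ M) (B B₀ : ℝ)
    (hB₀ : 0 ≤ B₀) (hF : ∀ n : ℕ, 0 < n → n ≤ 2 * Y → |F n| ≤ B₀) (hB : Bil F K (Ioc L₁ L₂) B)
    (α β : ℕ → ℝ) (hα : ∀ k, |α k| ≤ 1) (hβ : ∀ l, |β l| ≤ 1) :
    |∑ l ∈ Ioc L₁ L₂, ∑ k ∈ Ioc 0 (Y / l), α k * β l * F ((k : ℤ) * l)| ≤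
      (((L₂ : ℝ) - L₁) / lam + 1) * B + B₀ * T * ((Y : ℝ) * lam / L₁ + 1) := by
  classical
  have hlam0 : 0 < lam := hlam
  have hL0 : 0 < L₁ := hL
  have hT0 : 0 ≤ T := by linarith [hBig.one]
  have hB0 : 0 ≤ B := by
    have := hB (fun _ => 0) (fun _ => 0) (fun _ => by simp) (fun _ => by simp)
    exact (abs_nonneg _).trans this
  set idx : ℕ → ℕ := fun l => (l - L₁ - 1) / lam with hidx
  set a : ℕ → ℕ := fun i => L₁ + i * lam with ha
  set N : ℕ := (L₂ - L₁) / lam + 1 with hN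
  have hfact : ∀ l ∈ Ioc L₁ L₂, a (idx l) < l ∧ l ≤ a (idx l) + lam ∧ idx l < N := by
    intro l hl
    rw [Finset.mem_Ioc] at hl
    have h1 : (l - L₁ - 1) / lam * lam ≤ l - L₁ - 1 := Nat.div_mul_le_self _ _
    have h2 : l - L₁ - 1 < lam * ((l - L₁ - 1) / lam + 1) := Nat.lt_mul_div_succ _ hlam0
    have h3 : lam * ((l - L₁ - 1) / lam + 1) = (l - L₁ - 1) / lam * lam + lam := by ring
    have h4 : (l - L₁ - 1) / lam ≤ (L₂ - L₁) / lam := Nat.div_le_div_right (by omega)
    simp only [hidx, ha, hN]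
    generalize (l - L₁ - 1) / lam * lam = u at *
    generalize (l - L₁ - 1) / lam = w at *
    refine ⟨by omega, by omega, by omega⟩
  have hKi : ∀ i, Y / a i ≤ K := fun i => by
    refine le_trans (Nat.div_le_div_left ?_ hL0) hK
    simp only [ha]
    exact Nat.le_add_right _ _
  -- splitting of the range of `k`
  have hsplit : ∀ l ∈ Ioc L₁ L₂, ∑ k ∈ Ioc 0 (Y / l), α k * β l * F ((k : ℤ) * l) =
      ∑ k ∈ Ioc 0 (Y / a (idx l)), α k * β l * F ((k : ℤ) * l) -
      ∑ k ∈ Ioc (Y / l) (Y / a (idx l)), α k * β l * F ((k : ℤ) * l) := by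
    intro l hl
    obtain ⟨h1, -, -⟩ := hfact l hl
    have h2 : Y / l ≤ Y / a (idx l) := Nat.div_le_div_left h1.le (by simp only [ha]; omega)
    rw [← Finset.sum_Ioc_consecutive _ (Nat.zero_le _) h2]
    ring
  rw [Finset.sum_congr rfl hsplit, Finset.sum_sub_distrib]
  -- the main part
  have hmain : |∑ l ∈ Ioc L₁ L₂, ∑ k ∈ Ioc 0 (Y / a (idx l)), α k * β l * F ((k : ℤ) * l)| ≤
      (((L₂ : ℝ) - L₁) / lam + 1) * B := by
    have e : ∑ l ∈ Ioc L₁ L₂, ∑ k ∈ Ioc 0 (Y / a (idx l)), α k * β l * F ((k : ℤ) * l) =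
        ∑ i ∈ range N, ∑ k ∈ Ioc 0 K, ∑ l ∈ Ioc L₁ L₂,
          (if k ≤ Y / a i then α k else 0) * (if idx l = i then β l else 0) * F ((k : ℤ) * l) := by
      have e1 : ∀ i ∈ range N, ∑ k ∈ Ioc 0 K, ∑ l ∈ Ioc L₁ L₂,
          (if k ≤ Y / a i then α k else 0) * (if idx l = i then β l else 0) * F ((k : ℤ) * l) =
          ∑ l ∈ Ioc L₁ L₂, ∑ k ∈ Ioc 0 K,
          (if k ≤ Y / a i then α k else 0) * (if idx l = i then β l else 0) * F ((k : ℤ) * l) :=
        fun i _ => Finset.sum_comm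
      rw [Finset.sum_congr rfl e1, Finset.sum_comm]
      refine Finset.sum_congr rfl fun l hl => ?_
      obtain ⟨-, -, h3⟩ := hfact l hl
      refine Eq.trans ?_ (Finset.sum_eq_single (idx l) ?_ ?_).symm
      · have h4 : Ioc 0 (Y / a (idx l)) = (Ioc 0 K).filter (fun k => k ≤ Y / a (idx l)) := by
          ext k
          have := hKi (idx l)
          simp only [Finset.mem_Ioc, Finset.mem_filter]
          omega
        rw [h4, Finset.sum_filter]
        refine Finset.sum_congr rfl fun k _ => ?_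
        rw [if_pos rfl]
        split_ifs <;> ring
      · intro i _ hi
        refine Finset.sum_eq_zero fun k _ => ?_
        rw [if_neg (show ¬ (idx l = i) from fun h => hi h.symm)]
        ring
      · intro h5
        exact absurd (Finset.mem_range.2 h3) h5
    rw [e]
    refine (Finset.abs_sum_le_sum_abs _ _).trans ?_
    calc ∑ i ∈ range N, |∑ k ∈ Ioc 0 K, ∑ l ∈ Ioc L₁ L₂,
          (if k ≤ Y / a i then α k else 0) * (if idx l = i then β l else 0) * F ((k : ℤ) * l)|
        ≤ ∑ i ∈ range N, B := by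
          refine Finset.sum_le_sum fun i _ => ?_
          exact hB (fun k => if k ≤ Y / a i then α k else 0) (fun l => if idx l = i then β l else 0)
            (fun k => by split_ifs; exacts [hα k, by simp])
            (fun l => by split_ifs; exacts [hβ l, by simp])
      _ = N * B := by rw [Finset.sum_const, Finset.card_range, nsmul_eq_mul]
      _ ≤ (((L₂ : ℝ) - L₁) / lam + 1) * B := by
          refine mul_le_mul_of_nonneg_right ?_ hB0
          rw [hN]
          push_cast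
          have h1 : (((L₂ - L₁) / lam : ℕ) : ℝ) ≤ ((L₂ - L₁ : ℕ) : ℝ) / lam := Nat.cast_div_le
          rw [Nat.cast_sub hL12] at h1
          linarith
  -- the error part
  have herr : |∑ l ∈ Ioc L₁ L₂, ∑ k ∈ Ioc (Y / l) (Y / a (idx l)), α k * β l * F ((k : ℤ) * l)| ≤
      B₀ * T * ((Y : ℝ) * lam / L₁ + 1) := by
    have hprod : ∀ l ∈ Ioc L₁ L₂, ∀ k ∈ Ioc (Y / l) (Y / a (idx l)),
        Y < k * l ∧ k * l ≤ Y + Y * lam / L₁ := by
      intro l hl k hk
      obtain ⟨h1, h2, -⟩ := hfact l hl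
      rw [Finset.mem_Ioc] at hl hk
      have ha0 : 0 < a (idx l) := by simp only [ha]; omega
      refine ⟨?_, ?_⟩
      · exact (Nat.div_lt_iff_lt_mul (by omega)).1 hk.1
      · have h3 : k * a (idx l) ≤ Y := (Nat.le_div_iff_mul_le ha0).1 hk.2
        have h4 : k ≤ Y / L₁ := hk.2.trans (Nat.div_le_div_left (by simp only [ha]; omega) hL0)
        have h5 : k * lam ≤ Y * lam / L₁ := by
          rw [Nat.le_div_iff_mul_le hL0]
          have h6 : k * L₁ ≤ Y := (Nat.le_div_iff_mul_le hL0).1 h4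
          calc k * lam * L₁ = k * L₁ * lam := by ring
            _ ≤ Y * lam := Nat.mul_le_mul_right _ h6
        calc k * l ≤ k * (a (idx l) + lam) := Nat.mul_le_mul_left _ h2
          _ = k * a (idx l) + k * lam := by ring
          _ ≤ Y + Y * lam / L₁ := add_le_add h3 h5
    have hle2 : Y + Y * lam / L₁ ≤ 2 * Y := by
      have : Y * lam / L₁ ≤ Y := by
        rw [Nat.div_le_iff_le_mul_add_pred hL0]
        have : Y * lam ≤ Y * L₁ := Nat.mul_le_mul_left _ hlam'
        have e : L₁ * Y = Y * L₁ := Nat.mul_comm _ _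
        omega
      omega
    set P : Finset (Σ _ : ℕ, ℕ) := (Ioc L₁ L₂).sigma (fun l => Ioc (Y / l) (Y / a (idx l))) with hP
    have hcard : (P.card : ℝ) ≤ T * ((Y : ℝ) * lam / L₁ + 1) := by
      set f : (Σ _ : ℕ, ℕ) → ℕ := fun x => x.2 * x.1 with hf
      have himg : P.image f ⊆ Ioc Y (Y + Y * lam / L₁) := by
        intro n hn
        obtain ⟨x, hx, rfl⟩ := Finset.mem_image.1 hn
        rw [hP, Finset.mem_sigma] at hx
        rw [Finset.mem_Ioc]
        exact hprod x.1 hx.1 x.2 hx.2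
      have hfib : ∀ n ∈ P.image f, ((P.filter (fun x => f x = n)).card : ℝ) ≤ T := by
        intro n hn
        have hn' := Finset.mem_Ioc.1 (himg hn)
        refine le_trans ?_ (hBig.tau n (by omega) (by omega))
        norm_cast
        refine Finset.card_le_card_of_injOn (fun x => x.1) ?_ ?_
        · intro x hx
          rw [Finset.mem_coe, Finset.mem_filter] at hx
          rw [Finset.mem_coe, Nat.mem_divisors]
          exact ⟨⟨x.2, by rw [← hx.2, hf]; ring⟩, by omega⟩
        · intro x hx y hy hxy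
          rw [Finset.mem_coe, Finset.mem_filter] at hx hy
          obtain ⟨hx1, hx2⟩ := hx
          obtain ⟨hy1, hy2⟩ := hy
          rw [hP, Finset.mem_sigma, Finset.mem_Ioc] at hx1
          obtain ⟨x1, x2⟩ := x
          obtain ⟨y1, y2⟩ := y
          simp only [hf] at hx2 hy2 hxy hx1
          subst hxy
          have : x2 = y2 := Nat.eq_of_mul_eq_mul_right (by omega) (hx2.trans hy2.symm)
          rw [this]
      rw [Finset.card_eq_sum_card_image f P]
      push_cast
      calc ∑ n ∈ P.image f, ((P.filter (fun x => f x = n)).card : ℝ) ≤ ∑ n ∈ P.image f, T :=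
            Finset.sum_le_sum hfib
        _ = (P.image f).card * T := by rw [Finset.sum_const, nsmul_eq_mul]
        _ ≤ ((Y : ℝ) * lam / L₁ + 1) * T := by
            refine mul_le_mul_of_nonneg_right ?_ hT0
            have h1 : (P.image f).card ≤ Y * lam / L₁ := by
              refine (Finset.card_le_card himg).trans ?_
              rw [Nat.card_Ioc, Nat.add_sub_cancel_left]
            have h2 : ((Y * lam / L₁ : ℕ) : ℝ) ≤ ((Y * lam : ℕ) : ℝ) / L₁ := Nat.cast_div_le
            have h3 : ((P.image f).card : ℝ) ≤ ((Y * lam / L₁ : ℕ) : ℝ) := by exact_mod_cast h1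
            push_cast at h2
            linarith
        _ = T * ((Y : ℝ) * lam / L₁ + 1) := mul_comm _ _
    calc |∑ l ∈ Ioc L₁ L₂, ∑ k ∈ Ioc (Y / l) (Y / a (idx l)), α k * β l * F ((k : ℤ) * l)|
        ≤ ∑ l ∈ Ioc L₁ L₂, ∑ k ∈ Ioc (Y / l) (Y / a (idx l)), B₀ := by
          refine (Finset.abs_sum_le_sum_abs _ _).trans (Finset.sum_le_sum fun l hl => ?_)
          refine (Finset.abs_sum_le_sum_abs _ _).trans (Finset.sum_le_sum fun k hk => ?_)
          obtain ⟨h1, h2⟩ := hprod l hl k hk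
          have h3 := hF (k * l) (by omega) (by omega)
          push_cast at h3
          rw [abs_mul, abs_mul]
          have h4 : |α k| * |β l| ≤ 1 := mul_le_one₀ (hα k) (abs_nonneg _) (hβ l)
          calc |α k| * |β l| * |F ((k : ℤ) * l)| ≤ 1 * B₀ :=
                mul_le_mul h4 h3 (abs_nonneg _) (by norm_num)
            _ = B₀ := one_mul _
      _ = P.card * B₀ := by
          rw [hP, Finset.card_sigma]
          push_cast
          rw [Finset.sum_mul]
          refine Finset.sum_congr rfl fun l _ => ?_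
          rw [Finset.sum_const, nsmul_eq_mul]
      _ ≤ (T * ((Y : ℝ) * lam / L₁ + 1)) * B₀ := mul_le_mul_of_nonneg_right hcard hB₀
      _ = B₀ * T * ((Y : ℝ) * lam / L₁ + 1) := by ring
  exact (abs_sub _ _).trans (add_le_add hmain herr)

/-- The factor `bc r (k l + j)` depends only on `k, l` modulo `r`. -/
theorem r_split (G : ℤ → ℝ) (j : ℤ) (K : ℕ) (S : Finset ℕ) (B : ℝ) (r : ℕ) (hr : 0 < r)
    (hB : Bil (fun n => G (n + j)) K S B) :
    Bil (fun n => bc r (n + j) * G (n + j)) K S ((r : ℝ) ^ 2 * B) := by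
  classical
  intro α β hα hβ
  have hB0 : 0 ≤ B := by
    have := hB (fun _ => 0) (fun _ => 0) (fun _ => by simp) (fun _ => by simp)
    exact (abs_nonneg _).trans this
  have e : ∑ k ∈ Ioc 0 K, ∑ l ∈ S,
      α k * β l * (bc r ((k : ℤ) * l + j) * G ((k : ℤ) * l + j)) =
      ∑ a ∈ range r, ∑ b ∈ range r, bc r ((a : ℤ) * b + j) *
        ∑ k ∈ Ioc 0 K, ∑ l ∈ S, (if k % r = a then α k else 0) * (if l % r = b then β l else 0) *
          G ((k : ℤ) * l + j) := by
    have e1 : ∀ k l : ℕ, α k * β l * (bc r ((k : ℤ) * l + j) * G ((k : ℤ) * l + j)) =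
        ∑ a ∈ range r, ∑ b ∈ range r, bc r ((a : ℤ) * b + j) *
          ((if k % r = a then α k else 0) * (if l % r = b then β l else 0) *
          G ((k : ℤ) * l + j)) := by
      intro k l
      rw [Finset.sum_eq_single (k % r), Finset.sum_eq_single (l % r)]
      · rw [if_pos rfl, if_pos rfl]
        have h1 : bc r ((k : ℤ) * l + j) = bc r (((k % r : ℕ) : ℤ) * ((l % r : ℕ) : ℤ) + j) := by
          apply bc_congr
          have h2 : ((k : ℤ) * l + j) - (((k % r : ℕ) : ℤ) * ((l % r : ℕ) : ℤ) + j) =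
              (k : ℤ) * l - ((k % r : ℕ) : ℤ) * ((l % r : ℕ) : ℤ) := by ring
          rw [h2]
          have h3 : (((k % r : ℕ) : ℤ) * ((l % r : ℕ) : ℤ)) ≡ (k : ℤ) * l [ZMOD r] := by
            push_cast
            exact Int.ModEq.mul (Int.mod_modEq _ _) (Int.mod_modEq _ _)
          exact (Int.modEq_iff_dvd.1 h3)
        rw [h1]
        ring
      · intro b _ hb
        rw [if_neg (show ¬ (l % r = b) from fun h => hb h.symm)]
        ring
      · intro h
        exact absurd (Finset.mem_range.2 (Nat.mod_lt _ hr)) h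
      · intro a _ ha
        refine Finset.sum_eq_zero fun b _ => ?_
        rw [if_neg (show ¬ (k % r = a) from fun h => ha h.symm)]
        ring
      · intro h
        exact absurd (Finset.mem_range.2 (Nat.mod_lt _ hr)) h
    simp only [e1, Finset.mul_sum]
    rw [Finset.sum_congr rfl fun k _ => Finset.sum_comm, Finset.sum_comm]
    refine Finset.sum_congr rfl fun a _ => ?_
    rw [Finset.sum_congr rfl fun k _ => Finset.sum_comm, Finset.sum_comm]
  rw [e]
  refine (Finset.abs_sum_le_sum_abs _ _).trans ?_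
  calc ∑ a ∈ range r, |∑ b ∈ range r, bc r ((a : ℤ) * b + j) *
        ∑ k ∈ Ioc 0 K, ∑ l ∈ S, (if k % r = a then α k else 0) * (if l % r = b then β l else 0) *
          G ((k : ℤ) * l + j)|
      ≤ ∑ a ∈ range r, ∑ b ∈ range r, B := by
        refine Finset.sum_le_sum fun a _ => ?_
        refine (Finset.abs_sum_le_sum_abs _ _).trans (Finset.sum_le_sum fun b _ => ?_)
        rw [abs_mul]
        have h1 := hB (fun k => if k % r = a then α k else 0) (fun l => if l % r = b then β l else 0)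
          (fun k => by split_ifs; exacts [hα k, by simp])
          (fun l => by split_ifs; exacts [hβ l, by simp])
        calc |bc r ((a : ℤ) * b + j)| * _ ≤ 1 * B :=
              mul_le_mul (abs_bc_le_one _ _) h1 (abs_nonneg _) (by norm_num)
          _ = B := one_mul _
    _ = (r : ℝ) ^ 2 * B := by
        simp only [Finset.sum_const, Finset.card_range, nsmul_eq_mul]
        ring

lemma Bil.add {F G : ℤ → ℝ} {K : ℕ} {S : Finset ℕ} {B C : ℝ} (hF : Bil F K S B)
    (hG : Bil G K S C) : Bil (fun n => F n + G n) K S (B + C) := by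
  intro α β hα hβ
  have h1 := hF α β hα hβ
  have h2 := hG α β hα hβ
  have e : ∑ k ∈ Ioc 0 K, ∑ l ∈ S, α k * β l * (F ((k : ℤ) * l) + G ((k : ℤ) * l)) =
      (∑ k ∈ Ioc 0 K, ∑ l ∈ S, α k * β l * F ((k : ℤ) * l)) +
      ∑ k ∈ Ioc 0 K, ∑ l ∈ S, α k * β l * G ((k : ℤ) * l) := by
    simp only [← Finset.sum_add_distrib, mul_add]
  rw [e]
  exact (abs_add_le _ _).trans (add_le_add h1 h2)

lemma Bil.smul {F : ℤ → ℝ} {K : ℕ} {S : Finset ℕ} {B : ℝ} (hF : Bil F K S B) (c : ℝ) :
    Bil (fun n => c * F n) K S (|c| * B) := by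
  intro α β hα hβ
  have h1 := hF α β hα hβ
  have e : ∑ k ∈ Ioc 0 K, ∑ l ∈ S, α k * β l * (c * F ((k : ℤ) * l)) =
      c * ∑ k ∈ Ioc 0 K, ∑ l ∈ S, α k * β l * F ((k : ℤ) * l) := by
    simp only [Finset.mul_sum]
    refine Finset.sum_congr rfl fun k _ => Finset.sum_congr rfl fun l _ => ?_
    ring
  rw [e, abs_mul]
  exact mul_le_mul_of_nonneg_left h1 (abs_nonneg _)

lemma Bil.sum {ι : Type*} (s : Finset ι) (F : ι → ℤ → ℝ) {K : ℕ} {S : Finset ℕ} (B : ι → ℝ)
    (hF : ∀ i ∈ s, Bil (F i) K S (B i)) :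
    Bil (fun n => ∑ i ∈ s, F i n) K S (∑ i ∈ s, B i) := by
  intro α β hα hβ
  have e : ∑ k ∈ Ioc 0 K, ∑ l ∈ S, α k * β l * (∑ i ∈ s, F i ((k : ℤ) * l)) =
      ∑ i ∈ s, ∑ k ∈ Ioc 0 K, ∑ l ∈ S, α k * β l * F i ((k : ℤ) * l) := by
    simp only [Finset.mul_sum]
    rw [Finset.sum_congr rfl fun k _ => Finset.sum_comm, Finset.sum_comm]
  rw [e]
  exact (Finset.abs_sum_le_sum_abs _ _).trans (Finset.sum_le_sum fun i hi => hF i hi α β hα hβ)

lemma Bil.mono {F : ℤ → ℝ} {K K' : ℕ} {S S' : Finset ℕ} {B B' : ℝ} (hF : Bil F K S B)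
    (hK : K' ≤ K) (hS : S' ⊆ S) (hB : B ≤ B') : Bil F K' S' B' := by
  classical
  intro α β hα hβ
  have h1 := hF (fun k => if k ≤ K' then α k else 0) (fun l => if l ∈ S' then β l else 0)
    (fun k => by split_ifs; exacts [hα k, by simp]) (fun l => by split_ifs; exacts [hβ l, by simp])
  refine le_trans (le_of_eq ?_) (h1.trans hB)
  congr 1
  have hsub : Ioc 0 K' ⊆ Ioc 0 K := Finset.Ioc_subset_Ioc le_rfl hK
  rw [← Finset.sum_subset hsub]
  · refine Finset.sum_congr rfl fun k hk => ?_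
    rw [← Finset.sum_subset hS]
    · refine Finset.sum_congr rfl fun l hl => ?_
      rw [if_pos (Finset.mem_Ioc.1 hk).2, if_pos hl]
    · intro l _ hl
      rw [if_neg hl]
      ring
  · intro k hk hk'
    refine Finset.sum_eq_zero fun l _ => ?_
    rw [if_neg]
    · ring
    · intro h
      exact hk' (Finset.mem_Ioc.2 ⟨(Finset.mem_Ioc.1 hk).1, h⟩)

end Pool.Agent.Lib.MP_2a816b_nt.BH
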