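import Pool.Agent.Lib.MP_2a816b_nt.BH.Par
import Pool.Agent.Lib.MP_2a816b_nt.BH.D7
import Pool.Agent.Lib.MP_2a816b_nt.BH.RedB

/-!
# JOB Top: the top term, by the dispersion bound

`I` = the indices `0, ..., s - 1` (`s = 1, 2, 3, 4`), `J` = the indices `s, ..., 4`, and the index `5`. Data for `DD ⌊X ^ 10⌋ T`: `SU = ∏_{i ∈ I} PS X i`, `SW = ∏_{i ∈ J} PS X i`, `SZ = PS X 5`,
`SL` = the squarefree numbers in `(L₁, L₂]`, `U = X ^ exs I`, `W = X ^ exs J`, `Z = X ^ (1/100)`, `y = X ^ (1/100)`, `L = L₁`, `K = 16 X / L₁`,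
`N = ⌈X ^ 0.0002 T ^ 5 U (W Z) ^ 2 / K⌉`, `A = 20000`. Write `ℓ` for the exponent of `L₁` (`L₁ = X ^ ℓ`). Exponents: `u = exs I`: `0.33, 0.3565, 0.3935, 0.445` for `s = 1, 2, 3, 4`;
`w = exs J = 0.5005 - 0.01 - u`; the ranges of `ℓ`: `s = 1`: `[0.3316, 0.358]`, `s = 2`: `[0.358, 0.395]`, `s = 3`: `[0.395, 0.4465]`, `s = 4`: `[0.4465, 0.5015]`.
`δ = X ^ (-0.001)`. Conditions of `typeII`:
(h1) `U ≤ δ L`: `u + 0.001 ≤ ℓ`. (h2) `0.001 ≤ 0.01`. (h3) `U ≤ δ K`: `u + 0.001 ≤ 1 - ℓ`. `N ≤ 2 max(1, X ^ 0.0002 T ^ 5 U (W Z) ^ 2 / K)` and the second number is `X ^ (0.0002 + 5 τ₀ + u + 2 (w + 0.01) - 1 + ℓ) / 16`, i.e. exponent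
`ℓ - u + 0.001 + 0.0002 + 5 τ₀` (as `u + w + 0.01 = 0.5005`).
(h4) `N ≤ δ ^ 2 W Z ^ 2`: `ℓ - u + 0.0012 + 5 τ₀ + (small) ≤ w + 0.02 - 0.002 = 0.5085 - u`, i.e. `ℓ ≤ 0.5073 - ...`; and `2 ≤ δ ^ 2 W Z ^ 2`.
(h5) `N ^ 2 √(L W) Z ≤ δ ^ 2 U`: `2 (ℓ - u + 0.0012 + 5 τ₀) + (ℓ + 0.4905 - u) / 2 + 0.01 + 0.002 + (small) ≤ u`, i.e. `5 ℓ + 0.5193 + (small) ≤ 7 u`: check `s = 1`: `5 · 0.358 + 0.5193 = 2.3093 < 2.31`;
`s = 2`: `5 · 0.395 + 0.5193 = 2.4943 < 2.4955`; `s = 3`: `5 · 0.4465 + 0.5193 = 2.7518 < 2.7545`; `s = 4`: `5 · 0.5015 + 0.5193 = 3.0268 < 3.115`. With `N ≤ 2`: `(ℓ + 0.4905 - u) / 2 + 0.012 < u`.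
(h6) with `q = T ^ 5 U (W Z) ^ 2 / K`, `N ≥ X ^ 0.0002 q`: `CA q ^ A / N ^ (A - 1) ≤ CA q X ^ (- 0.0002 · 19999) ≤ CA X ^ (1 - 3.9) ≤ δ`.
The result is `√(3000 C T ^ 15 δ) K L ≤ √(T ^ 17) X ^ (-0.0005) 16 X ≤ X ^ (1 - 0.00049)`. The coefficients `c u = (u / φ(u)) / 16 ∈ [0, 1]` for `top_term` (`p / (p - 1) ≤ 2`, at most four primes), times `16 (-1) ^ s`.
For `K' ≤ 16 X / L₁` use `α = 0` beyond `K'` (`Bil.mono`).
-/

set_option autoImplicit false

open Finset Real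
open scoped Pointwise

namespace Pool.Agent.Lib.MP_2a816b_nt.BH

variable {X T C : ℝ}

/-- the first `s` indices -/
def Is (s : ℕ) : Finset (Fin 6) := univ.filter (fun i => (i : ℕ) < s)

private lemma tp_mono (hX : 1 ≤ X) {a b : ℝ} (h : a ≤ b) : X ^ a ≤ X ^ b :=
  Real.rpow_le_rpow_of_exponent_le hX h

private lemma tp_pow (hX : 0 ≤ X) (a : ℝ) (n : ℕ) : (X ^ a) ^ n = X ^ (a * n) := by
  rw [← Real.rpow_natCast, ← Real.rpow_mul hX]

private lemma tp_alg (a b c : ℝ) (n : ℕ) : a * b ^ (n + 1) / c ^ n = a * (b * (b / c) ^ n) := by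
  rw [pow_succ, div_pow]
  ring

private lemma tp_sqrt (hX : 0 ≤ X) (a : ℝ) : √(X ^ a) = X ^ (a / 2) := by
  have h : X ^ a = (X ^ (a / 2)) ^ 2 := by
    rw [tp_pow hX]
    congr 1
    push_cast
    ring
  rw [h, Real.sqrt_sq (Real.rpow_nonneg hX _)]

private lemma tp_gt (hX : Lg X T C) : 1 < X := by
  rcases lt_or_eq_of_le hX.X1 with h | h
  · exact h
  · exfalso
    have h1 := hX.h10
    rw [hX.hT, ← h, Real.one_rpow] at h1
    norm_num at h1

/-- the quotient `m / φ(m)` for products of primes from different sets -/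
private lemma tp_quot {P : Fin 6 → Finset ℕ} (hP : ∀ i i', i ≠ i' → Cross (P i) (P i'))
    (hp : ∀ i, ∀ p ∈ P i, p.Prime) (I : Finset (Fin 6)) (m : ℕ) (hm : m ∈ ∏ i ∈ I, P i) :
    0 < (m.totient : ℝ) ∧ (m : ℝ) ≤ 2 ^ I.card * (m.totient : ℝ) := by
  induction I using Finset.induction_on generalizing m with
  | empty =>
    rw [Finset.prod_empty, Finset.mem_one] at hm
    subst hm
    simp
  | insert i I hi ih =>
    rw [Finset.prod_insert hi, Finset.mem_mul] at hm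
    obtain ⟨a, ha, b, hb, rfl⟩ := hm
    have hc : a.Coprime b := by
      have := cross_prod hP (I := {i}) (I' := I) (Finset.disjoint_singleton_left.2 hi)
      rw [Finset.prod_singleton] at this
      exact this a ha b hb
    obtain ⟨h1, h2⟩ := ih b hb
    have hap := hp i a ha
    have ha2 : (2 : ℝ) ≤ a := by exact_mod_cast hap.two_le
    have e : ((a * b).totient : ℝ) = ((a : ℝ) - 1) * (b.totient : ℝ) := by
      rw [Nat.totient_mul hc, Nat.totient_prime hap, Nat.cast_mul, Nat.cast_sub hap.one_le,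
        Nat.cast_one]
    rw [e, Finset.card_insert_of_notMem hi]
    refine ⟨mul_pos (by linarith) h1, ?_⟩
    push_cast
    calc (a : ℝ) * b ≤ (2 * ((a : ℝ) - 1)) * (2 ^ I.card * (b.totient : ℝ)) :=
          mul_le_mul (by linarith) h2 (by positivity) (by linarith)
      _ = 2 ^ (I.card + 1) * (((a : ℝ) - 1) * (b.totient : ℝ)) := by ring

private lemma tp_prime {i : Fin 6} {p : ℕ} (hp : p ∈ PS X i) : p.Prime := by
  unfold PS at hp
  exact (Finset.mem_filter.1 hp).2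

/-- the core: everything in terms of the exponents -/
private theorem top_core {w₀ wh : ℝ → ℝ} {CA : ℕ → ℝ} (hW : Wt w₀ wh C CA) (hX : Lg X T C)
    (hCA : CA 20000 ≤ T) (I J : Finset (Fin 6)) (hIJ : Disjoint I J) (h5I : 5 ∉ I) (h5J : 5 ∉ J)
    (hun : univ \ I = insert 5 J) (hI4 : I.card ≤ 4) (u ℓ : ℝ) (hu : exs I = u)
    (hw : exs J = 4905 / 10000 - u)
    (j : ℤ) (hj : j ≠ 0) (hjX : |(j : ℝ)| ≤ X ^ eps4) (K L₁ L₂ : ℕ) (hL12 : L₂ ≤ 4 * L₁)
    (hK : (K : ℝ) * L₁ ≤ 16 * X) (hℓ : (L₁ : ℝ) = X ^ ℓ)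
    (hu0 : 0 ≤ u) (hu1 : u ≤ 49 / 100) (c1 : u + 1 / 1000 ≤ ℓ) (c2 : ℓ ≤ 5015 / 10000)
    (c5 : 5 * ℓ + 5193 / 10000 + 1 / 10 ^ 4 ≤ 7 * u) :
    Bil (fun n => (∏ i ∈ I, (FQ (PS X i) (n + j) - LL (PS X i))) *
      ∏ i ∈ univ \ I, FQ (PS X i) (n + j)) K ((Ioc L₁ L₂).filter Squarefree)
      (X ^ (1 - 4 / 10000 : ℝ)) := by
  have hXg : 1 < X := tp_gt hX
  have hX1 : 1 ≤ X := hXg.le
  have hX0 : 0 < X := by linarith
  have hX0' : 0 ≤ X := hX0.le
  have hTt : T = X ^ (1 / 10 ^ 7 : ℝ) := hX.hT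
  have hT10 : 10 ^ 10 ≤ T := hX.h10
  have hT0 : 0 < T := by linarith
  have hex5 : ex 5 = 1 / 100 := by simp [ex]
  -- the parameter e
  set e : ℝ := 5 / 10 ^ 7 + ℓ - u + 12 / 10000 with he
  have hTle : ∀ a : ℝ, 1 / 10 ^ 7 ≤ a → T ≤ X ^ a := fun a ha => by rw [hTt]; exact tp_mono hX1 ha
  set N : ℕ := ⌈X ^ e / 16⌉₊ with hN
  have hN1 : 1 ≤ N := by
    rw [hN, Nat.one_le_ceil_iff]
    positivity
  have hNlo : X ^ e / 16 ≤ N := Nat.le_ceil _
  have hNhi : (N : ℝ) ≤ X ^ e := by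
    have h1 : (N : ℝ) < X ^ e / 16 + 1 := Nat.ceil_lt_add_one (by positivity)
    have h2 : T ≤ X ^ e := hTle e (by rw [he]; norm_num; linarith)
    linarith
  have hL1r : (1 : ℝ) ≤ L₁ := by
    rw [hℓ]
    exact Real.one_le_rpow hX1 (by linarith)
  have hL0 : (0 : ℝ) < L₁ := by linarith
  -- K
  have hKe : 16 * X / L₁ = 16 * X ^ (1 - ℓ) := by
    rw [hℓ, Real.rpow_sub hX0, Real.rpow_one]
    ring
  have h16 : (16 : ℝ) ≤ X ^ (1 / 10 ^ 7 : ℝ) := by rw [← hTt]; linarith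
  have hcross : ∀ i i', i ≠ i' → Cross (PS X i) (PS X i') := fun i i' h => cross_PS hX i i' h
  have hprime : ∀ i, ∀ p ∈ PS X i, p.Prime := fun i p hp => tp_prime hp
  -- the data
  let d : DD ⌊X ^ (10 : ℝ)⌋₊ T :=
  { j := j
    y := X ^ (1 / 100 : ℝ)
    U := X ^ u
    W := X ^ (4905 / 10000 - u)
    Z := X ^ (1 / 100 : ℝ)
    L := (L₁ : ℝ)
    K := 16 * X / L₁
    N := N
    SU := ∏ i ∈ I, PS X i
    SW := ∏ i ∈ J, PS X i
    SZ := PS X 5
    SL := (Ioc L₁ L₂).filter Squarefree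
    hB := hX.big
    hj := hj
    hjy := lt_of_le_of_lt hjX (Real.rpow_lt_rpow_of_exponent_lt hXg (by unfold eps4; norm_num))
    hy := by
      have := hTle (1 / 100) (by norm_num)
      linarith
    hU1 := Real.one_le_rpow hX1 hu0
    hW1 := Real.one_le_rpow hX1 (by linarith)
    hZ1 := Real.one_le_rpow hX1 (by norm_num)
    hL1 := hL1r
    hK1 := by
      rw [hKe]
      have := Real.one_le_rpow hX1 (by linarith : (0 : ℝ) ≤ 1 - ℓ)
      linarith
    hN1 := hN1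
    hSU := fun m hm => by
      obtain ⟨h1, h2, h3, h4⟩ := mem_prod_PS hX I hm
      rw [hu] at h2 h3
      exact ⟨h2, h3, h4⟩
    hSW := fun m hm => by
      obtain ⟨h1, h2, h3, h4⟩ := mem_prod_PS hX J hm
      rw [hw] at h2 h3
      exact ⟨h1, h2, h3, h4⟩
    hSZ := fun z hz => by
      obtain ⟨h1, h2, h3⟩ := mem_PS hz hX1
      rw [hex5] at h2 h3
      refine ⟨h1, h2.le, h3.trans ?_, h2.le⟩
      rw [Real.rpow_add hX0, hTt, mul_comm]
      exact mul_le_mul_of_nonneg_right (tp_mono hX1 (by unfold eta0; norm_num)) (by positivity)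
    hSL := fun l hl => by
      rw [Finset.mem_filter, Finset.mem_Ioc] at hl
      obtain ⟨⟨h1, h2⟩, h3⟩ := hl
      refine ⟨h3, by exact_mod_cast h1, ?_⟩
      have h4 : (l : ℝ) ≤ 4 * L₁ := by exact_mod_cast h2.trans hL12
      nlinarith
    cUW := cross_prod hcross hIJ
    cUZ := by
      have := cross_prod hcross (I := I) (I' := {5}) (Finset.disjoint_singleton_right.2 h5I)
      rwa [Finset.prod_singleton] at this
    cZW := by
      have := cross_prod hcross (I := {5}) (I' := J) (Finset.disjoint_singleton_left.2 h5J)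
      rwa [Finset.prod_singleton] at this
    hjL := by
      rw [hℓ]
      exact hjX.trans (tp_mono hX1 (by unfold eps4; norm_num; linarith))
    hM := by
      have h1 : X ^ u * X ^ (4905 / 10000 - u) * X ^ (1 / 100 : ℝ) * (L₁ : ℝ) * (16 * X / L₁) * N ≤
          X ^ (17 / 10 : ℝ) := by
        have e1 : X ^ u * X ^ (4905 / 10000 - u) * X ^ (1 / 100 : ℝ) * (L₁ : ℝ) * (16 * X / L₁) * N =
            X ^ (5005 / 10000 : ℝ) * (16 * X) * N := by
          rw [← Real.rpow_add hX0, ← Real.rpow_add hX0]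
          have : u + (4905 / 10000 - u) + 1 / 100 = (5005 / 10000 : ℝ) := by ring
          rw [this]
          field_simp
        rw [e1]
        calc X ^ (5005 / 10000 : ℝ) * (16 * X) * N
            ≤ X ^ (5005 / 10000 : ℝ) * (X ^ (1 / 10 ^ 7 : ℝ) * X ^ (1 : ℝ)) * X ^ e := by
              rw [Real.rpow_one]
              gcongr
          _ = X ^ (5005 / 10000 + (1 / 10 ^ 7 + 1) + e : ℝ) := by
              rw [← Real.rpow_add hX0, ← Real.rpow_add hX0, ← Real.rpow_add hX0]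
          _ ≤ X ^ (17 / 10 : ℝ) := tp_mono hX1 (by rw [he]; norm_num; linarith)
      have h0 : 0 ≤ X ^ u * X ^ (4905 / 10000 - u) * X ^ (1 / 100 : ℝ) * (L₁ : ℝ) *
          (16 * X / L₁) * N := by positivity
      have h2 : T ^ 20 ≤ X ^ (1 / 10 ^ 5 : ℝ) := by
        rw [hTt, tp_pow hX0']
        exact tp_mono hX1 (by norm_num)
      have h3 : X ^ (5 : ℝ) ≤ (⌊X ^ (10 : ℝ)⌋₊ : ℝ) := by
        have h4 : X ^ (10 : ℝ) < (⌊X ^ (10 : ℝ)⌋₊ : ℝ) + 1 := Nat.lt_floor_add_one _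
        have h5 : X ^ (10 : ℝ) = X ^ (5 : ℝ) * X ^ (5 : ℝ) := by
          rw [← Real.rpow_add hX0]; norm_num
        have h6 : T ≤ X ^ (5 : ℝ) := hTle 5 (by norm_num)
        have h7 : 2 * X ^ (5 : ℝ) ≤ X ^ (5 : ℝ) * X ^ (5 : ℝ) :=
          mul_le_mul_of_nonneg_right (by linarith) (by positivity)
        generalize (⌊X ^ (10 : ℝ)⌋₊ : ℝ) = f at h4 ⊢
        rw [h5] at h4
        generalize X ^ (5 : ℝ) = a at h4 h6 h7 ⊢
        linarith
      calc T ^ 20 * (X ^ u * X ^ (4905 / 10000 - u) * X ^ (1 / 100 : ℝ) * (L₁ : ℝ) *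
            (16 * X / L₁) * N) ^ 2
          ≤ X ^ (1 / 10 ^ 5 : ℝ) * (X ^ (17 / 10 : ℝ)) ^ 2 :=
            mul_le_mul h2 (pow_le_pow_left₀ h0 h1 2) (by positivity) (by positivity)
        _ = X ^ (1 / 10 ^ 5 + 17 / 10 * 2 : ℝ) := by
            rw [tp_pow hX0', ← Real.rpow_add hX0]
            norm_num
        _ ≤ X ^ (5 : ℝ) := tp_mono hX1 (by norm_num)
        _ ≤ _ := h3 }
  -- the coefficients
  set SU : Finset ℕ := ∏ i ∈ I, PS X i with hSU
  classical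
  set c : ℕ → ℝ := fun m => if m ∈ SU then (m : ℝ) / (m.totient : ℝ) / 16 else 0 with hc
  have hc1 : ∀ m, |c m| ≤ 1 := by
    intro m
    simp only [hc]
    split_ifs with hm
    · obtain ⟨h1, h2⟩ := tp_quot hcross hprime I m hm
      have h3 : (2 : ℝ) ^ I.card ≤ 2 ^ 4 := pow_le_pow_right₀ (by norm_num) hI4
      have h4 : 0 ≤ (m : ℝ) / (m.totient : ℝ) / 16 := by positivity
      rw [abs_of_nonneg h4, div_div, div_le_one (by positivity)]
      nlinarith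
    · simp
  -- the typeII bound
  have hII := d.typeII hW (X ^ (-(1 / 1000) : ℝ)) (by positivity)
    (Real.rpow_le_one_of_one_le_of_nonpos hX1 (by norm_num))
    (by
      show X ^ u ≤ X ^ (-(1 / 1000) : ℝ) * (L₁ : ℝ)
      rw [hℓ, ← Real.rpow_add hX0]
      exact tp_mono hX1 (by linarith))
    (by
      show 1 ≤ X ^ (-(1 / 1000) : ℝ) * X ^ (1 / 100 : ℝ)
      rw [← Real.rpow_add hX0]
      exact Real.one_le_rpow hX1 (by norm_num))
    (by
      show X ^ u ≤ X ^ (-(1 / 1000) : ℝ) * (16 * X / L₁)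
      rw [hKe]
      have h1 : X ^ u ≤ X ^ (-(1 / 1000) : ℝ) * X ^ (1 - ℓ) := by
        rw [← Real.rpow_add hX0]
        exact tp_mono hX1 (by linarith)
      have h2 : 0 ≤ X ^ (-(1 / 1000) : ℝ) * X ^ (1 - ℓ) := by positivity
      linarith)
    (by
      show (N : ℝ) ≤ (X ^ (-(1 / 1000) : ℝ)) ^ 2 *
        (X ^ (4905 / 10000 - u) * (X ^ (1 / 100 : ℝ)) ^ 2)
      rw [tp_pow hX0', tp_pow hX0', ← Real.rpow_add hX0, ← Real.rpow_add hX0]
      refine hNhi.trans (tp_mono hX1 ?_)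
      rw [he]
      push_cast
      norm_num
      linarith)
    (by
      show (N : ℝ) ^ 2 * √((L₁ : ℝ) * X ^ (4905 / 10000 - u)) * X ^ (1 / 100 : ℝ) ≤
        (X ^ (-(1 / 1000) : ℝ)) ^ 2 * X ^ u
      rw [hℓ, ← Real.rpow_add hX0, tp_sqrt hX0', tp_pow hX0', ← Real.rpow_add hX0]
      calc (N : ℝ) ^ 2 * X ^ ((ℓ + (4905 / 10000 - u)) / 2) * X ^ (1 / 100 : ℝ)
          ≤ (X ^ e) ^ 2 * X ^ ((ℓ + (4905 / 10000 - u)) / 2) * X ^ (1 / 100 : ℝ) := by
            gcongr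
        _ = X ^ (e * (2 : ℕ) + (ℓ + (4905 / 10000 - u)) / 2 + 1 / 100) := by
            rw [tp_pow hX0', ← Real.rpow_add hX0, ← Real.rpow_add hX0]
        _ ≤ _ := by
            refine tp_mono hX1 ?_
            rw [he]
            push_cast
            norm_num
            linarith)
    20000 (by norm_num)
    (by
      show CA 20000 * (T ^ 5 * X ^ u * (X ^ (4905 / 10000 - u) * X ^ (1 / 100 : ℝ)) ^ 2 /
        (16 * X / L₁)) ^ 20000 / (N : ℝ) ^ (20000 - 1) ≤ X ^ (-(1 / 1000) : ℝ)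
      have hq : T ^ 5 * X ^ u * (X ^ (4905 / 10000 - u) * X ^ (1 / 100 : ℝ)) ^ 2 /
          (16 * X / L₁) = X ^ (e - 2 / 10000) / 16 := by
        rw [hKe, hTt, tp_pow hX0', ← Real.rpow_add hX0, ← Real.rpow_add hX0, tp_pow hX0',
          ← Real.rpow_add hX0, mul_comm (16 : ℝ), ← div_div, ← Real.rpow_sub hX0]
        congr 2
        rw [he]
        push_cast
        ring
      rw [hq]
      set q : ℝ := X ^ (e - 2 / 10000) / 16 with hqd
      have hq0 : 0 ≤ q := by positivity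
      have hN0 : (0 : ℝ) < N := by exact_mod_cast hN1
      have hqN : q / N ≤ X ^ (-(2 / 10000) : ℝ) := by
        rw [div_le_iff₀ hN0]
        calc q = X ^ (-(2 / 10000) : ℝ) * (X ^ e / 16) := by
              rw [hqd, ← mul_div_assoc, ← Real.rpow_add hX0]
              congr 2
              ring
          _ ≤ X ^ (-(2 / 10000) : ℝ) * N := mul_le_mul_of_nonneg_left hNlo (by positivity)
      have e1 : CA 20000 * q ^ 20000 / (N : ℝ) ^ (20000 - 1) = CA 20000 * (q * (q / N) ^ 19999) :=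
        tp_alg _ _ _ 19999
      rw [e1]
      calc CA 20000 * (q * (q / N) ^ 19999)
          ≤ T * (q * (q / N) ^ 19999) :=
            mul_le_mul_of_nonneg_right hCA (mul_nonneg hq0 (pow_nonneg (div_nonneg hq0 hN0.le) _))
        _ ≤ X ^ (1 / 10 ^ 7 : ℝ) * (X ^ (1 / 10 : ℝ) * (X ^ (-(2 / 10000) : ℝ)) ^ 19999) := by
            rw [hTt]
            refine mul_le_mul_of_nonneg_left ?_ (by positivity)
            refine mul_le_mul ?_ (pow_le_pow_left₀ (div_nonneg hq0 hN0.le) hqN _)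
              (pow_nonneg (div_nonneg hq0 hN0.le) _) (by positivity)
            rw [hqd]
            have h1 : X ^ (e - 2 / 10000) ≤ X ^ (1 / 10 : ℝ) :=
              tp_mono hX1 (by rw [he]; norm_num; linarith)
            have h2 : 0 ≤ X ^ (e - 2 / 10000) := by positivity
            linarith
        _ = X ^ (1 / 10 ^ 7 + (1 / 10 + -(2 / 10000) * (19999 : ℕ)) : ℝ) := by
            rw [tp_pow hX0', ← Real.rpow_add hX0, ← Real.rpow_add hX0]
        _ ≤ X ^ (-(1 / 1000) : ℝ) := tp_mono hX1 (by push_cast; norm_num))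
  -- the bound
  have hB1 : √(3000 * C * T ^ 15 * X ^ (-(1 / 1000) : ℝ)) * (16 * X / L₁ * L₁) ≤
      X ^ (1 - 49 / 100000 : ℝ) := by
    have h1 : 3000 * C * T ^ 15 * X ^ (-(1 / 1000) : ℝ) ≤
        X ^ (17 / 10 ^ 7 - 1 / 1000 : ℝ) := by
      calc 3000 * C * T ^ 15 * X ^ (-(1 / 1000) : ℝ) ≤ T * T * T ^ 15 * X ^ (-(1 / 1000) : ℝ) := by
            have := hX.hC
            have hC1 := hW.C1
            have h3 : 3000 * C ≤ T * T := by nlinarith
            gcongr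
        _ = X ^ (17 / 10 ^ 7 - 1 / 1000 : ℝ) := by
            rw [show T * T * T ^ 15 = T ^ 17 by ring, hTt, tp_pow hX0', ← Real.rpow_add hX0]
            congr 1
            push_cast
            ring
    have h2 : √(3000 * C * T ^ 15 * X ^ (-(1 / 1000) : ℝ)) ≤
        X ^ ((17 / 10 ^ 7 - 1 / 1000) / 2 : ℝ) := by
      rw [← tp_sqrt hX0']
      exact Real.sqrt_le_sqrt h1
    have h3 : 16 * X / L₁ * L₁ = 16 * X := by field_simp
    rw [h3]
    calc √(3000 * C * T ^ 15 * X ^ (-(1 / 1000) : ℝ)) * (16 * X)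
        ≤ X ^ ((17 / 10 ^ 7 - 1 / 1000) / 2 : ℝ) * (X ^ (1 / 10 ^ 7 : ℝ) * X ^ (1 : ℝ)) := by
          rw [Real.rpow_one]
          gcongr
      _ = X ^ ((17 / 10 ^ 7 - 1 / 1000) / 2 + (1 / 10 ^ 7 + 1) : ℝ) := by
          rw [← Real.rpow_add hX0, ← Real.rpow_add hX0]
      _ ≤ X ^ (1 - 49 / 100000 : ℝ) := tp_mono hX1 (by norm_num)
  have hbil : Bil (fun n => (∑ m ∈ SU.filter (fun m : ℕ => (m : ℤ) ∣ n + j), c m) *
      FQ (PS X 5 * ∏ i ∈ J, PS X i) (n + j)) ⌊16 * X / L₁⌋₊ ((Ioc L₁ L₂).filter Squarefree)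
      (X ^ (1 - 49 / 100000 : ℝ)) := by
    intro α β hα hβ
    exact (hII α β c hα hβ hc1).trans hB1
  have hKK : K ≤ ⌊16 * X / L₁⌋₊ := by
    apply Nat.le_floor
    rw [le_div_iff₀ hL0]
    exact hK
  have hfin := (hbil.smul ((-1) ^ I.card * 16)).mono hKK (Finset.Subset.refl _)
    (B' := X ^ (1 - 4 / 10000 : ℝ)) (by
      have h1 : |((-1 : ℝ) ^ I.card * 16)| = 16 := by
        rw [abs_mul, abs_pow, abs_neg, abs_one, one_pow]
        norm_num
      rw [h1]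
      calc 16 * X ^ (1 - 49 / 100000 : ℝ) ≤ X ^ (1 / 10 ^ 7 : ℝ) * X ^ (1 - 49 / 100000 : ℝ) := by
            gcongr
        _ = X ^ (1 / 10 ^ 7 + (1 - 49 / 100000) : ℝ) := by rw [← Real.rpow_add hX0]
        _ ≤ _ := tp_mono hX1 (by norm_num))
  have hfun : (fun n : ℤ => (∏ i ∈ I, (FQ (PS X i) (n + j) - LL (PS X i))) *
      ∏ i ∈ univ \ I, FQ (PS X i) (n + j)) = (fun n : ℤ => ((-1) ^ I.card * 16) *
      ((∑ m ∈ SU.filter (fun m : ℕ => (m : ℤ) ∣ n + j), c m) *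
      FQ (PS X 5 * ∏ i ∈ J, PS X i) (n + j))) := by
    funext n
    rw [top_term hcross hprime I (n + j), hun, Finset.prod_insert h5J,
      FQ_mul d.cZW, FQ_prod hcross]
    have h1 : ∑ m ∈ SU.filter (fun m : ℕ => (m : ℤ) ∣ n + j), c m =
        (∑ m ∈ SU.filter (fun m : ℕ => (m : ℤ) ∣ n + j), (m : ℝ) / (m.totient : ℝ)) / 16 := by
      rw [Finset.sum_div]
      refine Finset.sum_congr rfl fun m hm => ?_
      simp only [hc]
      rw [if_pos (Finset.mem_filter.1 hm).1]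
    rw [h1]
    ring
  rw [hfun]
  exact hfin

theorem top_bil {w₀ wh : ℝ → ℝ} {CA : ℕ → ℝ} (hW : Wt w₀ wh C CA) (hX : Lg X T C)
    (hCA : CA 20000 ≤ T) (s : ℕ) (hs : s = 1 ∨ s = 2 ∨ s = 3 ∨ s = 4)
    (j : ℤ) (hj : j ≠ 0) (hjX : |(j : ℝ)| ≤ X ^ eps4) (K L₁ L₂ : ℕ) (hL12 : L₂ ≤ 4 * L₁)
    (hK : (K : ℝ) * L₁ ≤ 16 * X)
    (h1 : s = 1 → X ^ (3316 / 10000 : ℝ) ≤ (L₁ : ℝ) ∧ (L₁ : ℝ) ≤ X ^ (358 / 1000 : ℝ))
    (h2 : s = 2 → X ^ (358 / 1000 : ℝ) ≤ (L₁ : ℝ) ∧ (L₁ : ℝ) ≤ X ^ (395 / 1000 : ℝ))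
    (h3 : s = 3 → X ^ (395 / 1000 : ℝ) ≤ (L₁ : ℝ) ∧ (L₁ : ℝ) ≤ X ^ (4465 / 10000 : ℝ))
    (h4 : s = 4 → X ^ (4465 / 10000 : ℝ) ≤ (L₁ : ℝ) ∧ (L₁ : ℝ) ≤ X ^ (5015 / 10000 : ℝ)) :
    Bil (fun n => (∏ i ∈ Is s, (FQ (PS X i) (n + j) - LL (PS X i))) *
      ∏ i ∈ univ \ Is s, FQ (PS X i) (n + j)) K ((Ioc L₁ L₂).filter Squarefree)
      (X ^ (1 - 4 / 10000 : ℝ)) := by
  have hXg : 1 < X := tp_gt hX
  have hX1 : 1 ≤ X := hXg.le
  have hX0 : 0 < X := by linarith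
  have hpow : ∀ a b : ℝ, X ^ a ≤ (L₁ : ℝ) → (L₁ : ℝ) ≤ X ^ b →
      ∃ ℓ : ℝ, (L₁ : ℝ) = X ^ ℓ ∧ a ≤ ℓ ∧ ℓ ≤ b := by
    intro a b ha hb
    have hL0 : (0 : ℝ) < L₁ := lt_of_lt_of_le (by positivity) ha
    refine ⟨Real.logb X L₁, ?_, ?_, ?_⟩
    · rw [Real.rpow_logb hX0 hXg.ne' hL0]
    · rw [Real.le_logb_iff_rpow_le hXg hL0]
      exact ha
    · rw [Real.logb_le_iff_le_rpow hXg hL0]
      exact hb
  rcases hs with rfl | rfl | rfl | rfl
  · obtain ⟨ℓ, h, ha, hb⟩ := hpow _ _ (h1 rfl).1 (h1 rfl).2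
    refine top_core hW hX hCA (Is 1) {1, 2, 3, 4} (by unfold Is; decide) (by unfold Is; decide)
      (by decide) (by unfold Is; decide) (by unfold Is; decide) (33 / 100) ℓ ?_ ?_ j hj hjX K L₁ L₂
      hL12 hK h (by norm_num) (by norm_num) (by linarith) (by linarith) (by linarith)
    · rw [show Is 1 = {0} by unfold Is; decide]
      simp [exs, ex]
    · rw [exs, Finset.sum_insert (by decide), Finset.sum_insert (by decide),
        Finset.sum_insert (by decide), Finset.sum_singleton]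
      simp [ex]
      norm_num
  · obtain ⟨ℓ, h, ha, hb⟩ := hpow _ _ (h2 rfl).1 (h2 rfl).2
    refine top_core hW hX hCA (Is 2) {2, 3, 4} (by unfold Is; decide) (by unfold Is; decide)
      (by decide) (by unfold Is; decide) (by unfold Is; decide) (3565 / 10000) ℓ ?_ ?_ j hj hjX K
      L₁ L₂ hL12 hK h (by norm_num) (by norm_num) (by linarith) (by linarith) (by linarith)
    · rw [show Is 2 = {0, 1} by unfold Is; decide, exs, Finset.sum_insert (by decide),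
        Finset.sum_singleton]
      simp [ex]
      norm_num
    · rw [exs, Finset.sum_insert (by decide), Finset.sum_insert (by decide),
        Finset.sum_singleton]
      simp [ex]
      norm_num
  · obtain ⟨ℓ, h, ha, hb⟩ := hpow _ _ (h3 rfl).1 (h3 rfl).2
    refine top_core hW hX hCA (Is 3) {3, 4} (by unfold Is; decide) (by unfold Is; decide)
      (by decide) (by unfold Is; decide) (by unfold Is; decide) (3935 / 10000) ℓ ?_ ?_ j hj hjX K
      L₁ L₂ hL12 hK h (by norm_num) (by norm_num) (by linarith) (by linarith) (by linarith)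
    · rw [show Is 3 = {0, 1, 2} by unfold Is; decide, exs, Finset.sum_insert (by decide),
        Finset.sum_insert (by decide), Finset.sum_singleton]
      simp [ex]
      norm_num
    · rw [exs, Finset.sum_insert (by decide), Finset.sum_singleton]
      simp [ex]
      norm_num
  · obtain ⟨ℓ, h, ha, hb⟩ := hpow _ _ (h4 rfl).1 (h4 rfl).2
    refine top_core hW hX hCA (Is 4) {4} (by unfold Is; decide) (by unfold Is; decide)
      (by decide) (by unfold Is; decide) (by unfold Is; decide) (445 / 1000) ℓ ?_ ?_ j hj hjX K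
      L₁ L₂ hL12 hK h (by norm_num) (by norm_num) (by linarith) (by linarith) (by linarith)
    · rw [show Is 4 = {0, 1, 2, 3} by unfold Is; decide, exs, Finset.sum_insert (by decide),
        Finset.sum_insert (by decide), Finset.sum_insert (by decide), Finset.sum_singleton]
      simp [ex]
      norm_num
    · rw [exs, Finset.sum_singleton]
      simp [ex]
      norm_num

end Pool.Agent.Lib.MP_2a816b_nt.BH
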