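import Pool.Agent.Lib.MP_2a816b_nt.BH.Sub
import Pool.Agent.Lib.MP_2a816b_nt.BH.Top
import Pool.Agent.Lib.MP_2a816b_nt.BH.RedA

/-!
# JOB GBil: bilinear sums with `G` and with `F_{Q2}`

`g_sqf`: choose `s` according to the size of `L₁` and write (`prod_expand`) `∏_{i} x_i = ∏_{i ∈ I} (x_i - L_i) ∏_{i ∉ I} x_i - ∑_{C ⊊ I} ± ∏_{I \ C} L_i ∏_{C ∪ (univ \ I)} x_i`, `I = Is s`,
`x_i = F_{PS X i}(n + j)`: `top_bil` and `sub_bil` (`C ∪ (univ \ I)` is nonempty and `≠ univ`; `FQ_prod`; `0 ≤ L_i ≤ 1`), at most `16` terms.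

`g_bil`: `sqfree_red` with `S₀ = ⌊X ^ (1/10^4)⌋`; the factors `K s` and `L₁ / s`: `(L₁ / s) ≥ X ^ 0.3318 / X ^ 0.0001 - 1 ≥ X ^ 0.3316`, `L₂ / s ≤ 4 (L₁ / s)` (as `L₂ ≤ 2 L₁` and `L₁ / s ≥ 1`),
`(K s) (L₁ / s) ≤ K L₁`. `B₀ = T ^ 3` (`sqfree_red` wants the bound for all `0 < n ≤ K L₂`, but `n + j` could be `0` for `n ≤ |j|`: apply it to the function
`if n ≤ |j| then 0 else G (n + j)`, which has the same bilinear sums because always `k l ≥ l > |j|`, also for `l > L₁ / s`). The result is `X ^ 0.0001 X ^ (1 - 3/10^4) + 10 T ^ 3 K L₂ / √S₀ ≤ X ^ (1 - 4 / 10 ^ 5)`.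

`q2_bil`: `FQ_Q2`, `FQ (RS X) = ∑_r bc r`, `r_split`: the factor is `∑_{r ≤ X ^ ε₄} r ^ 2 ≤ X ^ (3 ε₄)`.
-/

set_option autoImplicit false

open Finset Real
open scoped Pointwise

namespace Pool.Agent.Lib.MP_2a816b_nt.BH

variable {X T C : ℝ}

private lemma GBil_pos (hX : Lg X T C) : 0 < X := lt_of_lt_of_le one_pos hX.X1

private lemma GBil_mul_le (hX : Lg X T C) {c a b : ℝ} (hc : c ≤ T) (hab : a + tau0 ≤ b) :
    c * X ^ a ≤ X ^ b := by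
  have hX0 := GBil_pos hX
  calc c * X ^ a ≤ T * X ^ a := mul_le_mul_of_nonneg_right hc (by positivity)
    _ = X ^ (tau0 + a) := by rw [hX.hT, ← Real.rpow_add hX0]
    _ ≤ X ^ b := Real.rpow_le_rpow_of_exponent_le hX.X1 (by linarith)

private lemma GBil_le (hX : Lg X T C) {a b : ℝ} (hab : a ≤ b) : X ^ a ≤ X ^ b :=
  Real.rpow_le_rpow_of_exponent_le hX.X1 hab

private lemma GBil_LL_nonneg (i : Fin 6) (hX1 : 1 ≤ X) : 0 ≤ LL (PS X i) := by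
  unfold LL
  refine Finset.sum_nonneg fun p hp => ?_
  have h1 : (2 : ℝ) ≤ p := by exact_mod_cast (mem_PS hp hX1).1.two_le
  have h2 : 0 ≤ (p : ℝ) - 1 := by linarith
  positivity

/-- the choice of the number `s` -/
private lemma GBil_cases (L₁ : ℕ) (h1 : X ^ (3316 / 10000 : ℝ) ≤ (L₁ : ℝ))
    (h2 : (L₁ : ℝ) ≤ X ^ (5015 / 10000 : ℝ)) : ∃ s : ℕ, (s = 1 ∨ s = 2 ∨ s = 3 ∨ s = 4) ∧
    (s = 1 → X ^ (3316 / 10000 : ℝ) ≤ (L₁ : ℝ) ∧ (L₁ : ℝ) ≤ X ^ (358 / 1000 : ℝ)) ∧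
    (s = 2 → X ^ (358 / 1000 : ℝ) ≤ (L₁ : ℝ) ∧ (L₁ : ℝ) ≤ X ^ (395 / 1000 : ℝ)) ∧
    (s = 3 → X ^ (395 / 1000 : ℝ) ≤ (L₁ : ℝ) ∧ (L₁ : ℝ) ≤ X ^ (4465 / 10000 : ℝ)) ∧
    (s = 4 → X ^ (4465 / 10000 : ℝ) ≤ (L₁ : ℝ) ∧ (L₁ : ℝ) ≤ X ^ (5015 / 10000 : ℝ)) := by
  rcases le_total (L₁ : ℝ) (X ^ (358 / 1000 : ℝ)) with ha | ha
  · exact ⟨1, by simp, fun _ => ⟨h1, ha⟩, by simp, by simp, by simp⟩
  · rcases le_total (L₁ : ℝ) (X ^ (395 / 1000 : ℝ)) with hb | hb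
    · exact ⟨2, by simp, by simp, fun _ => ⟨ha, hb⟩, by simp, by simp⟩
    · rcases le_total (L₁ : ℝ) (X ^ (4465 / 10000 : ℝ)) with hc | hc
      · exact ⟨3, by simp, by simp, by simp, fun _ => ⟨hb, hc⟩, by simp⟩
      · exact ⟨4, by simp, by simp, by simp, by simp, fun _ => ⟨hc, h2⟩⟩

private lemma GBil_expand (hX : Lg X T C) (s : ℕ) (m : ℤ) :
    ∏ i, FQ (PS X i) m = (∏ i ∈ Is s, (FQ (PS X i) m - LL (PS X i))) *
        ∏ i ∈ univ \ Is s, FQ (PS X i) m +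
      ∑ D ∈ (Is s).ssubsets, (-((-1) ^ (Is s \ D).card * ∏ i ∈ Is s \ D, LL (PS X i))) *
        FQ (∏ i ∈ D ∪ (univ \ Is s), PS X i) m := by
  have h1 : ∏ i, FQ (PS X i) m =
      (∏ i ∈ Is s, FQ (PS X i) m) * ∏ i ∈ univ \ Is s, FQ (PS X i) m := by
    rw [mul_comm]
    exact (Finset.prod_sdiff (Finset.subset_univ (Is s))).symm
  rw [h1, prod_expand (Is s) (fun i => FQ (PS X i) m) (fun i => LL (PS X i)), sub_mul,
    Finset.sum_mul, sub_eq_add_neg, ← Finset.sum_neg_distrib]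
  congr 1
  refine Finset.sum_congr rfl fun D hD => ?_
  have hsub : D ⊆ Is s := (Finset.mem_ssubsets.mp hD).1
  have hdisj : Disjoint D (univ \ Is s) :=
    Finset.disjoint_of_subset_left hsub Finset.disjoint_sdiff
  rw [FQ_prod (cross_PS hX), Finset.prod_union hdisj]
  ring

theorem g_sqf {w₀ wh : ℝ → ℝ} {CA : ℕ → ℝ} (hW : Wt w₀ wh C CA) (hX : Lg X T C)
    (hCA : CA 20000 ≤ T) (hLL : ∀ i, LL (PS X i) ≤ 1)
    (j : ℤ) (hj : j ≠ 0) (hjX : |(j : ℝ)| ≤ X ^ eps4) (K L₁ L₂ : ℕ) (hL12 : L₂ ≤ 4 * L₁)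
    (hK : (K : ℝ) * L₁ ≤ 4 * X)
    (h1 : X ^ (3316 / 10000 : ℝ) ≤ (L₁ : ℝ)) (h2 : (L₁ : ℝ) ≤ X ^ (5015 / 10000 : ℝ)) :
    Bil (fun n => ∏ i, FQ (PS X i) (n + j)) K ((Ioc L₁ L₂).filter Squarefree)
      (X ^ (1 - 3 / 10000 : ℝ)) := by
  classical
  have hX0 := GBil_pos hX
  have hT1 := hX.h10
  have hL2 : (L₂ : ℝ) ≤ 4 * L₁ := by exact_mod_cast hL12
  obtain ⟨s, hs, hs1, hs2, hs3, hs4⟩ := GBil_cases L₁ h1 h2
  have htop := top_bil hW hX hCA s hs j hj hjX K L₁ L₂ hL12 (by linarith) hs1 hs2 hs3 hs4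
  have hs4' : s ≤ 4 := by omega
  have hmem5 : (5 : Fin 6) ∉ Is s := by
    unfold Is
    rw [Finset.mem_filter]
    rintro ⟨-, h⟩
    have h5 : ((5 : Fin 6) : ℕ) = 5 := rfl
    omega
  have hsub : ∀ D ∈ (Is s).ssubsets,
      Bil (fun n => (-((-1) ^ (Is s \ D).card * ∏ i ∈ Is s \ D, LL (PS X i))) *
        FQ (∏ i ∈ D ∪ (univ \ Is s), PS X i) (n + j)) K ((Ioc L₁ L₂).filter Squarefree)
        (X ^ (1 - 8 / 10000 : ℝ)) := by
    intro D hD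
    have hD' := Finset.mem_ssubsets.mp hD
    have hb := sub_bil hX (D ∪ (univ \ Is s))
      ⟨5, Finset.mem_union_right _ (Finset.mem_sdiff.mpr ⟨Finset.mem_univ _, hmem5⟩)⟩
      (by
        intro h
        obtain ⟨i, hi1, hi2⟩ := Finset.exists_of_ssubset hD'
        have h3 : i ∈ D ∪ (univ \ Is s) := by
          rw [h]
          exact Finset.mem_univ i
        rcases Finset.mem_union.mp h3 with h4 | h4
        · exact hi2 h4
        · exact (Finset.mem_sdiff.mp h4).2 hi1)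
      j hj hjX K L₂ ((Ioc L₁ L₂).filter Squarefree)
      (by
        intro l hl
        rw [Finset.mem_filter, Finset.mem_Ioc] at hl
        refine ⟨?_, hl.1.2⟩
        have h3 : (L₁ : ℝ) ≤ l := by exact_mod_cast hl.1.1.le
        have h4 : X ^ (33 / 100 : ℝ) ≤ X ^ (3316 / 10000 : ℝ) := GBil_le hX (by norm_num)
        linarith)
      (by
        have h3 : (K : ℝ) * L₂ ≤ K * (4 * L₁) := mul_le_mul_of_nonneg_left hL2 (Nat.cast_nonneg K)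
        linarith)
      (by
        calc (L₂ : ℝ) ≤ 4 * L₁ := hL2
          _ ≤ 4 * X ^ (5015 / 10000 : ℝ) := by linarith
          _ ≤ X ^ (502 / 1000 : ℝ) := GBil_mul_le hX (by linarith) (by unfold tau0; norm_num))
    have hb2 := hb.smul (-((-1) ^ (Is s \ D).card * ∏ i ∈ Is s \ D, LL (PS X i)))
    refine hb2.mono le_rfl (Finset.Subset.refl _) ?_
    have h5 : |(-((-1) ^ (Is s \ D).card * ∏ i ∈ Is s \ D, LL (PS X i)))| ≤ 1 := by
      rw [abs_neg, abs_mul, abs_pow, abs_neg, abs_one, one_pow, one_mul, Finset.abs_prod]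
      refine Finset.prod_le_one (fun i _ => abs_nonneg _) fun i _ => ?_
      rw [abs_of_nonneg (GBil_LL_nonneg i hX.X1)]
      exact hLL i
    calc |(-((-1) ^ (Is s \ D).card * ∏ i ∈ Is s \ D, LL (PS X i)))| *
          X ^ (1 - 8 / 10000 : ℝ) ≤ 1 * X ^ (1 - 8 / 10000 : ℝ) :=
          mul_le_mul_of_nonneg_right h5 (by positivity)
      _ = _ := one_mul _
  have hsum := Bil.sum (Is s).ssubsets (fun D n =>
    (-((-1) ^ (Is s \ D).card * ∏ i ∈ Is s \ D, LL (PS X i))) *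
        FQ (∏ i ∈ D ∪ (univ \ Is s), PS X i) (n + j)) (fun _ => X ^ (1 - 8 / 10000 : ℝ)) hsub
  have hall := htop.add hsum
  have hfun : (fun n : ℤ => ∏ i, FQ (PS X i) (n + j)) = fun n : ℤ =>
      (∏ i ∈ Is s, (FQ (PS X i) (n + j) - LL (PS X i))) * ∏ i ∈ univ \ Is s, FQ (PS X i) (n + j) +
      ∑ D ∈ (Is s).ssubsets, (-((-1) ^ (Is s \ D).card * ∏ i ∈ Is s \ D, LL (PS X i))) *
        FQ (∏ i ∈ D ∪ (univ \ Is s), PS X i) (n + j) := by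
    funext n
    exact GBil_expand hX s (n + j)
  rw [hfun]
  refine hall.mono le_rfl (Finset.Subset.refl _) ?_
  rw [Finset.sum_const, nsmul_eq_mul]
  have hcard : (((Is s).ssubsets.card : ℕ) : ℝ) ≤ 64 := by
    have h3 : (Is s).ssubsets.card ≤ (univ : Finset (Finset (Fin 6))).card :=
      Finset.card_le_univ _
    have h4 : (univ : Finset (Finset (Fin 6))).card = 64 := by
      rw [Finset.card_univ, Fintype.card_finset, Fintype.card_fin]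
      norm_num
    rw [h4] at h3
    exact_mod_cast h3
  have e1 : 2 * X ^ (1 - 4 / 10000 : ℝ) ≤ X ^ (1 - 3 / 10000 : ℝ) :=
    GBil_mul_le hX (by linarith) (by unfold tau0; norm_num)
  have e2 : 128 * X ^ (1 - 8 / 10000 : ℝ) ≤ X ^ (1 - 3 / 10000 : ℝ) :=
    GBil_mul_le hX (by linarith) (by unfold tau0; norm_num)
  have e3 : (((Is s).ssubsets.card : ℕ) : ℝ) * X ^ (1 - 8 / 10000 : ℝ) ≤
      64 * X ^ (1 - 8 / 10000 : ℝ) := mul_le_mul_of_nonneg_right hcard (by positivity)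
  linarith

theorem g_bil {w₀ wh : ℝ → ℝ} {CA : ℕ → ℝ} (hW : Wt w₀ wh C CA) (hX : Lg X T C)
    (hCA : CA 20000 ≤ T) (hLL : ∀ i, LL (PS X i) ≤ 1)
    (j : ℤ) (hj : j ≠ 0) (hjX : |(j : ℝ)| ≤ X ^ eps4) (K L₁ L₂ : ℕ) (hL12 : L₂ ≤ 2 * L₁)
    (hK : (K : ℝ) * L₁ ≤ 4 * X)
    (h1 : X ^ (3318 / 10000 : ℝ) ≤ (L₁ : ℝ)) (h2 : (L₁ : ℝ) ≤ X ^ (5014 / 10000 : ℝ)) :
    Bil (fun n => ∏ i, FQ (PS X i) (n + j)) K (Ioc L₁ L₂) (X ^ (1 - 4 / 10 ^ 5 : ℝ)) := by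
  classical
  have hX0 := GBil_pos hX
  have hX1 := hX.X1
  have hT1 := hX.h10
  have hL2 : (L₂ : ℝ) ≤ 2 * L₁ := by exact_mod_cast hL12
  have hjle : X ^ eps4 ≤ X ^ (3316 / 10000 : ℝ) := GBil_le hX (by unfold eps4; norm_num)
  have hXe : 2 ≤ X ^ (1 / 10000 : ℝ) := by
    have := GBil_mul_le hX (c := 2) (a := 0) (b := 1 / 10000) (by linarith)
      (by unfold tau0; norm_num)
    simpa using this
  -- the modified function
  set F : ℤ → ℝ := fun n => if n ≤ |j| then 0 else ∏ i, FQ (PS X i) (n + j) with hFdef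
  have hsame : ∀ (K' L : ℕ) (S : Finset ℕ) (B : ℝ), (∀ l ∈ S, L < l) → X ^ (3316 / 10000 : ℝ) ≤ (L : ℝ) →
      (Bil (fun n => ∏ i, FQ (PS X i) (n + j)) K' S B ↔ Bil F K' S B) := by
    intro K' L S B hS hL
    have hval : ∀ k ∈ Ioc 0 K', ∀ l ∈ S, F ((k : ℤ) * l) = ∏ i, FQ (PS X i) ((k : ℤ) * l + j) := by
      intro k hk l hl
      have hk1 : 1 ≤ k := (Finset.mem_Ioc.mp hk).1
      have hl1 := hS l hl
      have h3 : (|j| : ℤ) < (k : ℤ) * l := by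
        have h4 : ((|j| : ℤ) : ℝ) ≤ L := by
          rw [Int.cast_abs]
          linarith
        have h5 : (|j| : ℤ) ≤ (L : ℤ) := by exact_mod_cast h4
        have h6 : (L : ℤ) < (l : ℤ) := by exact_mod_cast hl1
        have h7 : (l : ℤ) ≤ (k : ℤ) * l := by
          have : l ≤ k * l := Nat.le_mul_of_pos_left l hk1
          exact_mod_cast this
        omega
      simp only [hFdef]
      rw [if_neg (not_le.mpr h3)]
    constructor
    · intro h α β hα hβ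
      refine le_trans (le_of_eq ?_) (h α β hα hβ)
      congr 1
      refine Finset.sum_congr rfl fun k hk => Finset.sum_congr rfl fun l hl => ?_
      rw [hval k hk l hl]
    · intro h α β hα hβ
      refine le_trans (le_of_eq ?_) (h α β hα hβ)
      congr 1
      refine Finset.sum_congr rfl fun k hk => Finset.sum_congr rfl fun l hl => ?_
      rw [hval k hk l hl]
  have hL1lo : X ^ (3316 / 10000 : ℝ) ≤ (L₁ : ℝ) :=
    (GBil_le hX (by norm_num : (3316 / 10000 : ℝ) ≤ 3318 / 10000)).trans h1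
  rw [hsame K L₁ (Ioc L₁ L₂) _ (fun l hl => (Finset.mem_Ioc.mp hl).1) hL1lo]
  set S₀ : ℕ := ⌊X ^ (1 / 10000 : ℝ)⌋₊ with hS₀
  have hS₀1 : 1 ≤ S₀ := Nat.le_floor (by
    rw [Nat.cast_one]
    linarith)
  have hS₀le : (S₀ : ℝ) ≤ X ^ (1 / 10000 : ℝ) := Nat.floor_le (by positivity)
  have hS₀ge : X ^ (1 / 10000 : ℝ) / 2 ≤ (S₀ : ℝ) := by
    have h3 := Nat.sub_one_lt_floor (X ^ (1 / 10000 : ℝ))
    rw [← hS₀] at h3
    linarith
  have hKL2 : (K : ℝ) * L₂ ≤ 8 * X := by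
    have h3 : (K : ℝ) * L₂ ≤ K * (2 * L₁) := mul_le_mul_of_nonneg_left hL2 (Nat.cast_nonneg K)
    linarith
  have hred := sqfree_red F K L₁ L₂ S₀ hS₀1 (X ^ (1 - 3 / 10000 : ℝ)) (300 ^ 6) ?_ ?_
  · refine hred.mono le_rfl (Finset.Subset.refl _) ?_
    -- numerics
    have e1 : (S₀ : ℝ) * X ^ (1 - 3 / 10000 : ℝ) ≤ X ^ (1 - 2 / 10000 : ℝ) := by
      calc (S₀ : ℝ) * X ^ (1 - 3 / 10000 : ℝ) ≤ X ^ (1 / 10000 : ℝ) * X ^ (1 - 3 / 10000 : ℝ) :=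
            mul_le_mul_of_nonneg_right hS₀le (by positivity)
        _ = X ^ (1 - 2 / 10000 : ℝ) := by
            rw [← Real.rpow_add hX0]
            norm_num
    have e2 : 2 * X ^ (1 - 2 / 10000 : ℝ) ≤ X ^ (1 - 4 / 10 ^ 5 : ℝ) :=
      GBil_mul_le hX (by linarith) (by unfold tau0; norm_num)
    have hsq : X ^ (1 / 20000 : ℝ) / 2 ≤ √(S₀ : ℝ) := by
      apply Real.le_sqrt_of_sq_le
      calc (X ^ (1 / 20000 : ℝ) / 2) ^ 2 = X ^ (1 / 10000 : ℝ) / 4 := by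
            rw [div_pow, ← Real.rpow_natCast, ← Real.rpow_mul hX0.le]
            norm_num
        _ ≤ X ^ (1 / 10000 : ℝ) / 2 := by
            have : 0 ≤ X ^ (1 / 10000 : ℝ) := by positivity
            linarith
        _ ≤ (S₀ : ℝ) := hS₀ge
    have hsqpos : 0 < X ^ (1 / 20000 : ℝ) / 2 := by positivity
    have e3 : 10 * 300 ^ 6 * (K * L₂) / √(S₀ : ℝ) ≤
        (160 * 300 ^ 6) * X ^ (1 - 5 / 10 ^ 5 : ℝ) := by
      calc 10 * 300 ^ 6 * ((K : ℝ) * L₂) / √(S₀ : ℝ)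
          ≤ 10 * 300 ^ 6 * (8 * X) / (X ^ (1 / 20000 : ℝ) / 2) := by
            gcongr
        _ = (160 * 300 ^ 6) * (X / X ^ (1 / 20000 : ℝ)) := by
            field_simp
            ring
        _ = (160 * 300 ^ 6) * X ^ (1 - 5 / 10 ^ 5 : ℝ) := by
            congr 1
            nth_rewrite 1 [← Real.rpow_one X]
            rw [← Real.rpow_sub hX0]
            norm_num
    have e4 : 2 * ((160 * 300 ^ 6) * X ^ (1 - 5 / 10 ^ 5 : ℝ)) ≤ X ^ (1 - 4 / 10 ^ 5 : ℝ) := by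
      have h3 : T * X ^ (1 - 5 / 10 ^ 5 : ℝ) ≤ X ^ (1 - 5 / 10 ^ 5 + tau0 : ℝ) :=
        GBil_mul_le hX le_rfl le_rfl
      have h4 : T * X ^ (1 - 5 / 10 ^ 5 + tau0 : ℝ) ≤ X ^ (1 - 4 / 10 ^ 5 : ℝ) :=
        GBil_mul_le hX le_rfl (by unfold tau0; norm_num)
      have h5 : T * (T * X ^ (1 - 5 / 10 ^ 5 : ℝ)) ≤ T * X ^ (1 - 5 / 10 ^ 5 + tau0 : ℝ) :=
        mul_le_mul_of_nonneg_left h3 (by linarith)
      have h6 : (2 * (160 * 300 ^ 6) : ℝ) ≤ T * T := by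
        calc (2 * (160 * 300 ^ 6) : ℝ) ≤ 10 ^ 10 * 10 ^ 10 := by norm_num
          _ ≤ T * T := by gcongr
      have h7 : 0 < X ^ (1 - 5 / 10 ^ 5 : ℝ) := by positivity
      nlinarith
    have e5 : (10 : ℝ) * 300 ^ 6 * (↑K * ↑L₂) / √(S₀ : ℝ) ≤ X ^ (1 - 4 / 10 ^ 5 : ℝ) / 2 := by
      linarith
    linarith
  · -- the pointwise bound
    intro n hn hnK
    simp only [hFdef]
    by_cases hnj : (n : ℤ) ≤ |j|
    · rw [if_pos hnj, abs_zero]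
      positivity
    · rw [if_neg hnj]
      push Not at hnj
      apply abs_G_le hX hLL
      · intro h0
        have h3 : (n : ℤ) = -j := by linarith
        rw [h3] at hnj
        exact absurd hnj (not_lt.mpr (neg_le_abs j))
      · have h3 : (n : ℝ) ≤ 8 * X := by
          have h4 : (n : ℝ) ≤ K * L₂ := by exact_mod_cast hnK
          linarith
        have h5 : X ^ eps4 ≤ X := by
          calc X ^ eps4 ≤ X ^ (1 : ℝ) := GBil_le hX (by unfold eps4; norm_num)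
            _ = X := Real.rpow_one X
        have h6 : 9 * X ≤ X ^ (2 : ℝ) := by
          have := GBil_mul_le hX (c := 9) (a := 1) (b := 2) (by linarith) (by unfold tau0; norm_num)
          rwa [Real.rpow_one] at this
        push_cast
        calc |(n : ℝ) + j| ≤ |(n : ℝ)| + |(j : ℝ)| := abs_add_le _ _
          _ = n + |(j : ℝ)| := by rw [abs_of_nonneg (Nat.cast_nonneg n)]
          _ ≤ 8 * X + X := by linarith
          _ = 9 * X := by ring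
          _ ≤ _ := h6
  · -- the squarefree parts
    intro s hs1 hsS
    have hs0 : (0 : ℝ) < s := by exact_mod_cast hs1
    have hsle : (s : ℝ) ≤ X ^ (1 / 10000 : ℝ) := by
      have h3 : (s : ℝ) ≤ S₀ := by exact_mod_cast hsS
      linarith
    have hdivlo : X ^ (3316 / 10000 : ℝ) ≤ ((L₁ / s : ℕ) : ℝ) := by
      have h3 : (L₁ : ℝ) / s - 1 ≤ ((L₁ / s : ℕ) : ℝ) := by
        have h4 := Nat.lt_div_mul_add (a := L₁) (b := s) hs1
        have h5 : (L₁ : ℝ) < ((L₁ / s : ℕ) : ℝ) * s + s := by exact_mod_cast h4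
        rw [sub_le_iff_le_add, div_le_iff₀ hs0]
        nlinarith
      have h4 : X ^ (3317 / 10000 : ℝ) ≤ (L₁ : ℝ) / s := by
        rw [le_div_iff₀ hs0]
        calc X ^ (3317 / 10000 : ℝ) * s ≤ X ^ (3317 / 10000 : ℝ) * X ^ (1 / 10000 : ℝ) := by gcongr
          _ = X ^ (3318 / 10000 : ℝ) := by
              rw [← Real.rpow_add hX0]
              norm_num
          _ ≤ L₁ := h1
      have h5 : X ^ (3317 / 10000 : ℝ) = X ^ (3316 / 10000 : ℝ) * X ^ (1 / 10000 : ℝ) := by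
        rw [← Real.rpow_add hX0]
        norm_num
      have h6 : 1 ≤ X ^ (3316 / 10000 : ℝ) := Real.one_le_rpow hX1 (by norm_num)
      have h7 : X ^ (3316 / 10000 : ℝ) * 2 ≤ X ^ (3316 / 10000 : ℝ) * X ^ (1 / 10000 : ℝ) :=
        mul_le_mul_of_nonneg_left hXe (by positivity)
      linarith
    have hdiv1 : 1 ≤ L₁ / s := by
      have h6 : 1 ≤ X ^ (3316 / 10000 : ℝ) := Real.one_le_rpow hX1 (by norm_num)
      have h7 : (1 : ℝ) ≤ ((L₁ / s : ℕ) : ℝ) := h6.trans hdivlo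
      exact_mod_cast h7
    have hdiv : L₂ / s ≤ 4 * (L₁ / s) := by
      have h3 : L₂ / s ≤ (2 * L₁) / s := Nat.div_le_div_right hL12
      have h4 : (2 * L₁) / s ≤ 2 * (L₁ / s) + 1 := by
        have h5 : 2 * L₁ < (2 * (L₁ / s) + 2) * s := by
          have h6 := Nat.lt_div_mul_add (a := L₁) (b := s) hs1
          calc 2 * L₁ < 2 * (L₁ / s * s + s) := by omega
            _ = (2 * (L₁ / s) + 2) * s := by ring
        have h7 : (2 * L₁) / s < 2 * (L₁ / s) + 2 := (Nat.div_lt_iff_lt_mul hs1).mpr h5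
        omega
      omega
    have hb := g_sqf hW hX hCA hLL j hj hjX (K * s) (L₁ / s) (L₂ / s) hdiv
      (by
        have h3 : ((L₁ / s : ℕ) : ℝ) ≤ L₁ / s := Nat.cast_div_le
        push_cast
        calc (K : ℝ) * s * ((L₁ / s : ℕ) : ℝ) ≤ K * s * (L₁ / s) := by gcongr
          _ = K * L₁ := by field_simp
          _ ≤ 4 * X := hK)
      hdivlo
      (by
        calc ((L₁ / s : ℕ) : ℝ) ≤ L₁ := by exact_mod_cast Nat.div_le_self L₁ s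
          _ ≤ X ^ (5014 / 10000 : ℝ) := h2
          _ ≤ X ^ (5015 / 10000 : ℝ) := GBil_le hX (by norm_num))
    exact (hsame (K * s) (L₁ / s) _ _
      (fun l hl => (Finset.mem_Ioc.mp (Finset.mem_filter.mp hl).1).1) hdivlo).mp hb

theorem q2_bil {w₀ wh : ℝ → ℝ} {CA : ℕ → ℝ} (hW : Wt w₀ wh C CA) (hX : Lg X T C)
    (hCA : CA 20000 ≤ T) (hLL : ∀ i, LL (PS X i) ≤ 1)
    (j : ℤ) (hj : j ≠ 0) (hjX : |(j : ℝ)| ≤ X ^ eps4) (K L₁ L₂ : ℕ) (hL12 : L₂ ≤ 2 * L₁)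
    (hK : (K : ℝ) * L₁ ≤ 4 * X)
    (h1 : X ^ (3318 / 10000 : ℝ) ≤ (L₁ : ℝ)) (h2 : (L₁ : ℝ) ≤ X ^ (5014 / 10000 : ℝ)) :
    Bil (fun n => FQ (Q2 X) (n + j)) K (Ioc L₁ L₂) (X ^ (1 - 3 / 10 ^ 5 : ℝ)) := by
  classical
  have hX0 := GBil_pos hX
  have hg := g_bil hW hX hCA hLL j hj hjX K L₁ L₂ hL12 hK h1 h2
  have hfun : (fun n : ℤ => FQ (Q2 X) (n + j)) = fun n : ℤ =>
      ∑ r ∈ RS X, bc r (n + j) * ∏ i, FQ (PS X i) (n + j) := by
    funext n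
    rw [FQ_Q2 hX, ← Finset.sum_mul]
    rfl
  rw [hfun]
  have hsum := Bil.sum (RS X) (fun r n => bc r (n + j) * ∏ i, FQ (PS X i) (n + j))
    (fun r => (r : ℝ) ^ 2 * X ^ (1 - 4 / 10 ^ 5 : ℝ))
    (fun r hr => r_split (fun m => ∏ i, FQ (PS X i) m) j K (Ioc L₁ L₂) _ r
      (mem_RS hr hX.X1).2.1 hg)
  refine hsum.mono le_rfl (Finset.Subset.refl _) ?_
  have hcard : ((RS X).card : ℝ) ≤ X ^ eps4 := by
    have h3 : (RS X).card ≤ ⌊X ^ eps4⌋₊ := by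
      unfold RS
      refine (Finset.card_filter_le _ _).trans ?_
      rw [Nat.card_Ioc, Nat.sub_zero]
    calc ((RS X).card : ℝ) ≤ (⌊X ^ eps4⌋₊ : ℝ) := by exact_mod_cast h3
      _ ≤ X ^ eps4 := Nat.floor_le (by positivity)
  calc ∑ r ∈ RS X, (r : ℝ) ^ 2 * X ^ (1 - 4 / 10 ^ 5 : ℝ)
      ≤ ∑ r ∈ RS X, (X ^ eps4) ^ 2 * X ^ (1 - 4 / 10 ^ 5 : ℝ) := by
        refine Finset.sum_le_sum fun r hr => ?_
        have h3 := (mem_RS hr hX.X1).2.2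
        gcongr
    _ = (RS X).card * ((X ^ eps4) ^ 2 * X ^ (1 - 4 / 10 ^ 5 : ℝ)) := by
        rw [Finset.sum_const, nsmul_eq_mul]
    _ ≤ X ^ eps4 * ((X ^ eps4) ^ 2 * X ^ (1 - 4 / 10 ^ 5 : ℝ)) := by gcongr
    _ = X ^ (eps4 + (eps4 * 2 + (1 - 4 / 10 ^ 5 : ℝ))) := by
        rw [Real.rpow_add hX0, Real.rpow_add hX0, Real.rpow_mul hX0.le eps4 2]
        norm_num
    _ ≤ X ^ (1 - 3 / 10 ^ 5 : ℝ) := GBil_le hX (by unfold eps4; norm_num)

end Pool.Agent.Lib.MP_2a816b_nt.BH
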