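import Pool.Agent.Lib.MP_2a816b_nt.BH.RamB
import Pool.Agent.Lib.MP_2a816b_nt.BH.CompA
import Pool.Agent.Lib.MP_2a816b_nt.LargeSieve
import Pool.Agent.Lib.MP_2a816b_nt.Farey

/-!
# JOB LSa: bilinear sums with moduli prime to `l`, by the dual large sieve

For `(q, l) = 1`, `q` squarefree: by `bc_exp`, `bc q (k l + j) = b_q ∑_{a mod q, (a,q)=1} e(a k l / q) e(a j / q)
= b_q ∑_{a' mod q, (a', q) = 1} e(a' k / q) e_q(j a' l̄)` (substitution `a' = a l`). So the inner sum of `ls_coprime` is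
`∑_{q ∈ Q} ∑_{a} c_{q,a} e(k a / q)`, `c_{q,a} = γ_q b_q ∑_{l, (l,q)=1} β_l e_q(j a l̄)`, and `dual_sieve'` (`LargeSieve.lean`) applies with the points
`a / q` (reduced fractions with denominators `≤ Q₂` are `1 / Q₂ ^ 2`-separated modulo 1, `|a/q - a'/q' - m| ≥ 1/(q q')`) and `δ = 1 / Q₂ ^ 2`.
Finally `∑_a |c_{q,a}| ^ 2 ≤ b_q ^ 2 ∑_{l₁, l₂} |∑_a e_q(j a (l̄₁ - l̄₂))|`, and `|∑_{(a,q)=1} e(a n / q)| = φ(q) |bc q n| = φ((q, n)) ≤ (q, n)`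
(`bc_exp`, `abs_bq`, `abs_bc_eq`), and `(q, j (l̄₁ - l̄₂)) = (q, j (l₁ - l₂))` since `l₁, l₂` are prime to `q`.
-/

set_option autoImplicit false

open Finset Real

namespace Pool.Agent.Lib.MP_2a816b_nt.BH

private lemma inv_spec {q l : ℕ} (h : q.Coprime l) :
    (q : ℤ) ∣ (l : ℤ) * Nat.gcdA l q - 1 := by
  have h1 := Nat.gcd_eq_gcd_ab l q
  have h2 : Nat.gcd l q = 1 := h.symm
  rw [h2] at h1
  refine ⟨-Nat.gcdB l q, ?_⟩
  push_cast at h1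
  linear_combination -h1

private lemma inv_coprime {q l : ℕ} (h : q.Coprime l) :
    IsCoprime (Nat.gcdA l q) (q : ℤ) := by
  obtain ⟨c, hc⟩ := inv_spec h
  exact ⟨l, -c, by linear_combination hc⟩

private lemma bc_inv {q l : ℕ} (hq : q ≠ 0) (h : q.Coprime l) (k j : ℤ) :
    bc q (k * l + j) = bc q (k + Nat.gcdA l q * j) := by
  rw [← bc_mul_arg hq (inv_coprime h) (k * l + j)]
  apply bc_congr
  obtain ⟨c, hc⟩ := inv_spec h
  exact ⟨c * k, by linear_combination k * hc⟩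

/-- norm of a Ramanujan sum -/
private lemma ram_norm {q : ℕ} (hq : Squarefree q) (n : ℤ) :
    ‖∑ a ∈ Cop q, e ((a : ℝ) * n / q)‖ = (q.totient : ℝ) * |bc q n| := by
  have hq0 : 0 < q := Nat.pos_of_ne_zero hq.ne_zero
  have hφ : (0 : ℝ) < q.totient := by exact_mod_cast Nat.totient_pos.2 hq0
  have h := bc_exp hq n
  have h1 : |bc q n| = |bq q| * ‖∑ a ∈ Cop q, e ((a : ℝ) * n / q)‖ := by
    have h2 : ‖(bc q n : ℂ)‖ = |bc q n| := by rw [Complex.norm_real, Real.norm_eq_abs]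
    rw [← h2, h, norm_mul, Complex.norm_real, Real.norm_eq_abs]
    rfl
  rw [h1, abs_bq hq, ← mul_assoc, mul_one_div_cancel hφ.ne', one_mul]

private lemma ram_le {q : ℕ} (hq : Squarefree q) (n : ℤ) :
    (q.totient : ℝ) * |bc q n| ≤ (q.gcd n.natAbs : ℝ) := by
  have hq0 : 0 < q := Nat.pos_of_ne_zero hq.ne_zero
  set g := q.gcd n.natAbs with hg
  have hgq : g ∣ q := Nat.gcd_dvd_left _ _
  obtain ⟨r, hr⟩ := hgq
  have hg0 : 0 < g := Nat.gcd_pos_of_pos_left _ hq0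
  have hdiv : q / g = r := by
    rw [hr]; exact Nat.mul_div_cancel_left r hg0
  have hr0 : 0 < r := by
    rcases Nat.eq_zero_or_pos r with h | h
    · rw [h] at hr; omega
    · exact h
  have hco : g.Coprime r := by
    rw [hr] at hq
    exact Nat.coprime_of_squarefree_mul hq
  have h1 : q.totient = g.totient * r.totient := by
    conv_lhs => rw [hr]
    exact Nat.totient_mul hco
  have hφr : (0 : ℝ) < r.totient := by exact_mod_cast Nat.totient_pos.2 hr0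
  rw [abs_bc_eq hq, ← hg, hdiv, h1]
  push_cast
  have h2 : (g.totient : ℝ) ≤ g := by exact_mod_cast Nat.totient_le g
  calc (g.totient : ℝ) * r.totient * (1 / r.totient) = g.totient := by field_simp
    _ ≤ g := h2

private lemma gcd_inv {q l₁ l₂ : ℕ} (hq : q ≠ 0) (h1 : q.Coprime l₁) (h2 : q.Coprime l₂) (j : ℤ) :
    bc q (j * (Nat.gcdA l₁ q - Nat.gcdA l₂ q)) = bc q (j * ((l₁ : ℤ) - l₂)) := by
  have c1 : IsCoprime (l₁ : ℤ) (q : ℤ) := Nat.isCoprime_iff_coprime.2 h1.symm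
  have c2 : IsCoprime (l₂ : ℤ) (q : ℤ) := Nat.isCoprime_iff_coprime.2 h2.symm
  rw [← bc_mul_arg hq (c1.mul_left c2), ← bc_neg q (j * ((l₁ : ℤ) - l₂))]
  apply bc_congr
  obtain ⟨a, ha⟩ := inv_spec h1
  obtain ⟨b, hb⟩ := inv_spec h2
  exact ⟨j * (l₂ * a - l₁ * b), by linear_combination j * l₂ * ha - j * l₁ * hb⟩

private lemma sum_norm_sq {q : ℕ} (hq : Squarefree q) (T : Finset ℕ) (hT : ∀ l ∈ T, q.Coprime l)
    (β : ℕ → ℝ) (hβ : ∀ l, |β l| ≤ 1) (j : ℤ) :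
    ∑ a ∈ Cop q, ‖∑ l ∈ T, (β l : ℂ) * e ((a : ℝ) * ((Nat.gcdA l q * j : ℤ) : ℝ) / q)‖ ^ 2 ≤
      ∑ l₁ ∈ T, ∑ l₂ ∈ T, (q.gcd (j * ((l₁ : ℤ) - l₂)).natAbs : ℝ) := by
  have hq0 : q ≠ 0 := hq.ne_zero
  have h1 : ∀ a ∈ Cop q, ((‖∑ l ∈ T, (β l : ℂ) * e ((a : ℝ) * ((Nat.gcdA l q * j : ℤ) : ℝ) / q)‖ ^ 2 : ℝ) : ℂ)
      = ∑ l₁ ∈ T, ∑ l₂ ∈ T, ((β l₁ * β l₂ : ℝ) : ℂ) *
        e ((a : ℝ) * ((j * (Nat.gcdA l₁ q - Nat.gcdA l₂ q) : ℤ) : ℝ) / q) := by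
    intro a _
    have h2 := Complex.mul_conj (∑ l ∈ T, (β l : ℂ) * e ((a : ℝ) * ((Nat.gcdA l q * j : ℤ) : ℝ) / q))
    rw [Complex.normSq_eq_norm_sq] at h2
    rw [← h2, map_sum, sum_mul_sum]
    apply sum_congr rfl; intro l₁ _
    apply sum_congr rfl; intro l₂ _
    rw [map_mul, conj_e, Complex.conj_ofReal]
    have h3 : (a : ℝ) * ((j * (Nat.gcdA l₁ q - Nat.gcdA l₂ q) : ℤ) : ℝ) / q =
        (a : ℝ) * ((Nat.gcdA l₁ q * j : ℤ) : ℝ) / q + -((a : ℝ) * ((Nat.gcdA l₂ q * j : ℤ) : ℝ) / q) := by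
      push_cast; ring
    rw [h3, e_add]
    push_cast
    ring
  have h4 : ((∑ a ∈ Cop q, ‖∑ l ∈ T, (β l : ℂ) * e ((a : ℝ) * ((Nat.gcdA l q * j : ℤ) : ℝ) / q)‖ ^ 2 : ℝ) : ℂ)
      = ∑ l₁ ∈ T, ∑ l₂ ∈ T, ((β l₁ * β l₂ : ℝ) : ℂ) *
        ∑ a ∈ Cop q, e ((a : ℝ) * ((j * (Nat.gcdA l₁ q - Nat.gcdA l₂ q) : ℤ) : ℝ) / q) := by
    rw [Complex.ofReal_sum, sum_congr rfl h1, sum_comm]
    apply sum_congr rfl; intro l₁ _
    rw [sum_comm]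
    apply sum_congr rfl; intro l₂ _
    rw [mul_sum]
  have h5 : (0 : ℝ) ≤ ∑ a ∈ Cop q, ‖∑ l ∈ T, (β l : ℂ) * e ((a : ℝ) * ((Nat.gcdA l q * j : ℤ) : ℝ) / q)‖ ^ 2 := by
    positivity
  have h6 : ∑ a ∈ Cop q, ‖∑ l ∈ T, (β l : ℂ) * e ((a : ℝ) * ((Nat.gcdA l q * j : ℤ) : ℝ) / q)‖ ^ 2 =
      ‖((∑ a ∈ Cop q, ‖∑ l ∈ T, (β l : ℂ) * e ((a : ℝ) * ((Nat.gcdA l q * j : ℤ) : ℝ) / q)‖ ^ 2 : ℝ) : ℂ)‖ := by
    rw [Complex.norm_real, Real.norm_eq_abs, abs_of_nonneg h5]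
  rw [h6, h4]
  refine (norm_sum_le _ _).trans (sum_le_sum fun l₁ hl₁ => ?_)
  refine (norm_sum_le _ _).trans (sum_le_sum fun l₂ hl₂ => ?_)
  rw [norm_mul, ram_norm hq, gcd_inv hq0 (hT l₁ hl₁) (hT l₂ hl₂), Complex.norm_real, Real.norm_eq_abs, abs_mul]
  have h7 := ram_le hq (j * ((l₁ : ℤ) - l₂))
  have h8 : 0 ≤ (q.totient : ℝ) * |bc q (j * ((l₁ : ℤ) - l₂))| := by positivity
  have h9 : |β l₁| * |β l₂| ≤ 1 := by
    have := mul_le_mul (hβ l₁) (hβ l₂) (abs_nonneg _) zero_le_one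
    linarith
  nlinarith [mul_le_mul_of_nonneg_right h9 h8]

theorem ls_coprime (Q : Finset ℕ) (Q₂ : ℕ) (hQ2 : 1 ≤ Q₂) (hQ : ∀ q ∈ Q, Squarefree q ∧ q ≤ Q₂)
    (γ : ℕ → ℝ) (hγ : ∀ q, |γ q| ≤ 1) (S : Finset ℕ) (β : ℕ → ℝ) (hβ : ∀ l, |β l| ≤ 1) (j : ℤ)
    (K : ℕ) :
    ∑ k ∈ range (K + 1), (∑ l ∈ S, ∑ q ∈ Q.filter (fun q => q.Coprime l),
        β l * γ q * bc q ((k : ℤ) * l + j)) ^ 2 ≤
      9 * ((K : ℝ) + 1 + (Q₂ : ℝ) ^ 2) * ∑ q ∈ Q, (1 / (q.totient : ℝ)) ^ 2 *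
        ∑ l₁ ∈ S, ∑ l₂ ∈ S, (q.gcd (j * ((l₁ : ℤ) - l₂)).natAbs : ℝ) := by
  classical
  have hQr : (1 : ℝ) ≤ Q₂ := by exact_mod_cast hQ2
  set c : (Σ _ : ℕ, ℕ) → ℂ := fun p => ((γ p.1 * bq p.1 : ℝ) : ℂ) *
    ∑ l ∈ S.filter (fun l => p.1.Coprime l), (β l : ℂ) *
      e ((p.2 : ℝ) * ((Nat.gcdA l p.1 * j : ℤ) : ℝ) / p.1) with hc
  have hmain : ∀ k ∈ range (K + 1), (∑ l ∈ S, ∑ q ∈ Q.filter (fun q => q.Coprime l),
        β l * γ q * bc q ((k : ℤ) * l + j)) ^ 2 =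
      ‖∑ p ∈ Q.sigma (fun d => Cop d), c p * e (k * ((p.2 : ℝ) / (p.1 : ℝ)))‖ ^ 2 := by
    intro k _
    have h1 : (((∑ l ∈ S, ∑ q ∈ Q.filter (fun q => q.Coprime l),
        β l * γ q * bc q ((k : ℤ) * l + j)) : ℝ) : ℂ) =
        ∑ p ∈ Q.sigma (fun d => Cop d), c p * e (k * ((p.2 : ℝ) / (p.1 : ℝ))) := by
      have h2 : ∑ l ∈ S, ∑ q ∈ Q.filter (fun q => q.Coprime l),
          β l * γ q * bc q ((k : ℤ) * l + j) =
          ∑ q ∈ Q, ∑ l ∈ S.filter (fun l => q.Coprime l), β l * γ q * bc q ((k : ℤ) * l + j) := by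
        simp_rw [sum_filter]
        exact sum_comm
      rw [h2, sum_sigma, Complex.ofReal_sum]
      apply sum_congr rfl
      intro q hq
      obtain ⟨hqs, -⟩ := hQ q hq
      have hq0 : q ≠ 0 := hqs.ne_zero
      rw [Complex.ofReal_sum]
      have h3 : ∀ l ∈ S.filter (fun l => q.Coprime l),
          ((β l * γ q * bc q ((k : ℤ) * l + j) : ℝ) : ℂ) =
          ∑ a ∈ Cop q, ((γ q * bq q : ℝ) : ℂ) * ((β l : ℂ) *
            e ((a : ℝ) * ((Nat.gcdA l q * j : ℤ) : ℝ) / q)) * e (k * ((a : ℝ) / q)) := by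
        intro l hl
        rw [mem_filter] at hl
        rw [bc_inv hq0 hl.2]
        rw [Complex.ofReal_mul, bc_exp hqs, mul_sum, mul_sum]
        apply sum_congr rfl
        intro a _
        have h4 : (a : ℝ) * (((k : ℤ) + Nat.gcdA l q * j : ℤ) : ℝ) / q =
            (a : ℝ) * ((Nat.gcdA l q * j : ℤ) : ℝ) / q + k * ((a : ℝ) / q) := by
          push_cast; ring
        rw [h4, e_add]
        push_cast
        ring
      rw [sum_congr rfl h3, sum_comm]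
      apply sum_congr rfl
      intro a _
      rw [hc]
      simp only
      rw [← sum_mul, ← mul_sum]
    rw [← h1, Complex.norm_real, Real.norm_eq_abs, sq_abs]
  rw [sum_congr rfl hmain]
  have hsep := farey_sep Q Q₂ (fun q hq => ⟨Nat.pos_of_ne_zero (hQ q hq).1.ne_zero, (hQ q hq).2⟩)
  have hds := dual_sieve' (Q.sigma (fun d => Cop d)) (fun p : (Σ _ : ℕ, ℕ) => (p.2 : ℝ) / (p.1 : ℝ))
    (1 / (Q₂ : ℝ) ^ 2) (by positivity) (by rw [div_le_one (by positivity)]; nlinarith) hsep (K + 1) c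
  have e1 : 1 / (1 / (Q₂ : ℝ) ^ 2) = (Q₂ : ℝ) ^ 2 := by rw [one_div_one_div]
  rw [e1] at hds
  push_cast at hds
  refine hds.trans ?_
  apply mul_le_mul_of_nonneg_left _ (by positivity)
  rw [sum_sigma]
  apply sum_le_sum
  intro q hq
  obtain ⟨hqs, -⟩ := hQ q hq
  have h1 : ∀ a ∈ Cop q, ‖c ⟨q, a⟩‖ ^ 2 = (γ q * bq q) ^ 2 *
      ‖∑ l ∈ S.filter (fun l => q.Coprime l), (β l : ℂ) *
        e ((a : ℝ) * ((Nat.gcdA l q * j : ℤ) : ℝ) / q)‖ ^ 2 := by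
    intro a _
    rw [hc]
    simp only
    rw [norm_mul, mul_pow, Complex.norm_real, Real.norm_eq_abs, sq_abs]
  rw [sum_congr rfl h1, ← mul_sum]
  have h2 := sum_norm_sq hqs (S.filter (fun l => q.Coprime l)) (fun l hl => (mem_filter.1 hl).2) β hβ j
  have h3 : (γ q * bq q) ^ 2 ≤ (1 / (q.totient : ℝ)) ^ 2 := by
    rw [← sq_abs (γ q * bq q), abs_mul, abs_bq hqs]
    apply pow_le_pow_left₀ (by positivity)
    have : (0 : ℝ) ≤ 1 / (q.totient : ℝ) := by positivity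
    calc |γ q| * (1 / (q.totient : ℝ)) ≤ 1 * (1 / (q.totient : ℝ)) :=
          mul_le_mul_of_nonneg_right (hγ q) this
      _ = _ := one_mul _
  have h4 : ∑ l₁ ∈ S.filter (fun l => q.Coprime l), ∑ l₂ ∈ S.filter (fun l => q.Coprime l),
      (q.gcd (j * ((l₁ : ℤ) - l₂)).natAbs : ℝ) ≤
      ∑ l₁ ∈ S, ∑ l₂ ∈ S, (q.gcd (j * ((l₁ : ℤ) - l₂)).natAbs : ℝ) := by
    calc _ ≤ ∑ l₁ ∈ S.filter (fun l => q.Coprime l), ∑ l₂ ∈ S,
          (q.gcd (j * ((l₁ : ℤ) - l₂)).natAbs : ℝ) := by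
          apply sum_le_sum
          intro l₁ _
          apply sum_le_sum_of_subset_of_nonneg (filter_subset _ _)
          intros; positivity
      _ ≤ _ := by
          apply sum_le_sum_of_subset_of_nonneg (filter_subset _ _)
          intros; positivity
  calc _ ≤ (1 / (q.totient : ℝ)) ^ 2 * ∑ l₁ ∈ S.filter (fun l => q.Coprime l),
          ∑ l₂ ∈ S.filter (fun l => q.Coprime l), (q.gcd (j * ((l₁ : ℤ) - l₂)).natAbs : ℝ) := by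
        apply mul_le_mul h3 h2 (by positivity) (by positivity)
    _ ≤ _ := by
        apply mul_le_mul_of_nonneg_left h4 (by positivity)

end Pool.Agent.Lib.MP_2a816b_nt.BH
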