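import Pool.Agent.Lib.MP_2a816b_nt.BH.RamA
import Pool.Agent.Lib.MP_2a816b_nt.Basic0

/-!
# JOB RamB: bounds for sums of `bc`, type I sums

Everything follows from `RamA.lean`. `Big M T` bounds the divisor function and `log` up to `M` by `T`.
-/

set_option autoImplicit false

open Finset Real

namespace Pool.Agent.Lib.MP_2a816b_nt.BH

/-- `∑_{n ≤ N} gcd(m, n) ≤ N τ(m)` (`gcd(m, n) ≤ ∑_{d ∣ m, d ∣ n} d`, and `#{n ≤ N : d ∣ n} ≤ N / d`). -/
lemma sum_gcd_le (m N : ℕ) (hm : 0 < m) :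
    ∑ n ∈ Ioc 0 N, (m.gcd n : ℝ) ≤ N * (m.divisors.card : ℝ) := by
  have h1 : ∀ n ∈ Ioc 0 N, (m.gcd n : ℝ) ≤ ∑ d ∈ m.divisors, if d ∣ n then (d : ℝ) else 0 := by
    intro n _
    have hmem : m.gcd n ∈ m.divisors := Nat.mem_divisors.2 ⟨Nat.gcd_dvd_left _ _, hm.ne'⟩
    have h2 := single_le_sum (f := fun d : ℕ => if d ∣ n then (d : ℝ) else 0)
      (fun d _ => by split_ifs <;> positivity) hmem
    rw [if_pos (Nat.gcd_dvd_right _ _)] at h2
    exact h2
  calc ∑ n ∈ Ioc 0 N, (m.gcd n : ℝ)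
      ≤ ∑ n ∈ Ioc 0 N, ∑ d ∈ m.divisors, (if d ∣ n then (d : ℝ) else 0) := sum_le_sum h1
    _ = ∑ d ∈ m.divisors, ∑ n ∈ Ioc 0 N, (if d ∣ n then (d : ℝ) else 0) := sum_comm
    _ ≤ ∑ d ∈ m.divisors, (N : ℝ) := by
        apply sum_le_sum
        intro d hd
        have hd0 : 0 < d := Nat.pos_of_mem_divisors hd
        rw [← sum_filter, sum_const, Nat.Ioc_filter_dvd_card_eq_div, nsmul_eq_mul]
        have h3 : N / d * d ≤ N := Nat.div_mul_le_self N d
        exact_mod_cast h3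
    _ = N * (m.divisors.card : ℝ) := by rw [sum_const, nsmul_eq_mul, mul_comm]

lemma sum_sqrt_gcd_le (m N : ℕ) (hm : 0 < m) :
    ∑ n ∈ Ioc 0 N, √(m.gcd n : ℝ) ≤ N * (m.divisors.card : ℝ) := by
  refine le_trans (sum_le_sum fun n _ => ?_) (sum_gcd_le m N hm)
  have h1 : (1 : ℝ) ≤ (m.gcd n : ℝ) := by exact_mod_cast Nat.gcd_pos_of_pos_left n hm
  rw [Real.sqrt_le_left (by linarith)]
  nlinarith

variable {M : ℕ} {T : ℝ}

lemma RamB_T1 (hB : Big M T) : 1 ≤ T := by linarith [hB.one]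

/-- `q / φ(q) ≤ 2 ^ ω(q) ≤ τ(q) ≤ T` for squarefree `q`. -/
lemma div_totient_le (hB : Big M T) {q : ℕ} (hq : Squarefree q) (hqM : q ≤ M) :
    (q : ℝ) / (q.totient : ℝ) ≤ T := by
  have hq0 : 0 < q := Nat.pos_of_ne_zero hq.ne_zero
  have hphi : (0 : ℝ) < q.totient := by exact_mod_cast Nat.totient_pos.2 hq0
  have h1 : q ≤ q.divisors.card * q.totient := by
    calc q = ∑ d ∈ q.divisors, d.totient := (Nat.sum_totient q).symm
      _ ≤ ∑ _d ∈ q.divisors, q.totient := by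
          apply sum_le_sum
          intro d hd
          exact Nat.le_of_dvd (Nat.totient_pos.2 hq0)
            (Nat.totient_dvd_of_dvd (Nat.dvd_of_mem_divisors hd))
      _ = q.divisors.card * q.totient := by rw [sum_const, smul_eq_mul]
  have h2 : (q : ℝ) ≤ q.divisors.card * q.totient := by exact_mod_cast h1
  rw [div_le_iff₀ hphi]
  calc (q : ℝ) ≤ q.divisors.card * q.totient := h2
    _ ≤ T * q.totient := by
        have := hB.tau q hq0 hqM
        gcongr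

/-- `∑_{n ≤ M} 1 / n ≤ T` -/
lemma sum_inv_le (hB : Big M T) : ∑ n ∈ Ioc 0 M, (1 : ℝ) / n ≤ T := by
  have h1 : ∑ n ∈ Ioc 0 M, (1 : ℝ) / n = (harmonic M : ℝ) := by
    rw [harmonic_eq_sum_Icc]
    push_cast
    apply sum_congr
    · ext n; simp [mem_Ioc, mem_Icc]; omega
    · intro n _; rw [one_div]
  rw [h1]
  have h2 := harmonic_le_one_add_log M
  have h3 := hB.log
  linarith

lemma RamB_sum_inv (hB : Big M T) (V : Finset ℕ) (hV : ∀ v ∈ V, 0 < v ∧ v ≤ M) :
    ∑ v ∈ V, (1 : ℝ) / v ≤ T := by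
  refine le_trans (sum_le_sum_of_subset_of_nonneg ?_ ?_) (sum_inv_le hB)
  · intro v hv
    rw [mem_Ioc]
    exact hV v hv
  · intro v _ _
    positivity

/-- `∑ 1 / φ(q) ≤ T ^ 2` over any set of squarefree numbers up to `M` -/
lemma sum_inv_totient_le (hB : Big M T) (V : Finset ℕ) (hV : ∀ v ∈ V, Squarefree v ∧ v ≤ M) :
    ∑ v ∈ V, 1 / (v.totient : ℝ) ≤ T ^ 2 := by
  have hT := RamB_T1 hB
  calc ∑ v ∈ V, 1 / (v.totient : ℝ) ≤ ∑ v ∈ V, T * (1 / (v : ℝ)) := by
        apply sum_le_sum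
        intro v hv
        obtain ⟨h1, h2⟩ := hV v hv
        have hv0 : (0 : ℝ) < v := by exact_mod_cast Nat.pos_of_ne_zero h1.ne_zero
        have h3 := div_totient_le hB h1 h2
        have h4 : 1 / (v.totient : ℝ) = ((v : ℝ) / v.totient) * (1 / v) := by
          field_simp
        rw [h4]
        gcongr
    _ = T * ∑ v ∈ V, 1 / (v : ℝ) := by rw [mul_sum]
    _ ≤ T * T := by
        have := RamB_sum_inv hB V (fun v hv => ⟨Nat.pos_of_ne_zero (hV v hv).1.ne_zero, (hV v hv).2⟩)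
        gcongr
    _ = T ^ 2 := by ring

/-- `∑_{v ∈ V} |b_v c_v(n)| ≤ T ^ 3` for `n ≠ 0`: by `abs_bc_eq`, grouping by `d = (v, n)` (a divisor of `n`), the sum is at most
`∑_{d ∣ n} ∑_{v ∈ V, (v, n) = d} 1 / φ(v / d)` and `v ↦ v / d` is injective. -/
lemma sum_abs_bc_le (hB : Big M T) (V : Finset ℕ) (hV : ∀ v ∈ V, Squarefree v ∧ v ≤ M) (n : ℤ)
    (hn : n ≠ 0) (hnM : n.natAbs ≤ M) : ∑ v ∈ V, |bc v n| ≤ T ^ 3 := by
  have hT := RamB_T1 hB
  have hn0 : 0 < n.natAbs := Int.natAbs_pos.2 hn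
  have hmaps : ∀ v ∈ V, v.gcd n.natAbs ∈ n.natAbs.divisors := by
    intro v _
    exact Nat.mem_divisors.2 ⟨Nat.gcd_dvd_right _ _, hn0.ne'⟩
  rw [← sum_fiberwise_of_maps_to hmaps]
  calc ∑ d ∈ n.natAbs.divisors, ∑ v ∈ V with v.gcd n.natAbs = d, |bc v n|
      ≤ ∑ _d ∈ n.natAbs.divisors, T ^ 2 := by
        apply sum_le_sum
        intro d hd
        have hd0 : 0 < d := Nat.pos_of_mem_divisors hd
        have hinj : Set.InjOn (fun v => v / d) ((V.filter (fun v => v.gcd n.natAbs = d) : Finset ℕ) : Set ℕ) := by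
          intro a ha b hb hab
          rw [coe_filter] at ha hb
          have h1 : d ∣ a := ha.2 ▸ Nat.gcd_dvd_left _ _
          have h2 : d ∣ b := hb.2 ▸ Nat.gcd_dvd_left _ _
          simp only at hab
          rw [← Nat.div_mul_cancel h1, ← Nat.div_mul_cancel h2, hab]
        have h3 : ∑ v ∈ V with v.gcd n.natAbs = d, |bc v n| =
            ∑ w ∈ (V.filter (fun v => v.gcd n.natAbs = d)).image (fun v => v / d),
              1 / (w.totient : ℝ) := by
          rw [sum_image hinj]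
          apply sum_congr rfl
          intro v hv
          rw [mem_filter] at hv
          rw [abs_bc_eq (hV v hv.1).1, hv.2]
        rw [h3]
        apply sum_inv_totient_le hB
        intro w hw
        rw [mem_image] at hw
        obtain ⟨v, hv, rfl⟩ := hw
        rw [mem_filter] at hv
        obtain ⟨hv1, hv2⟩ := hV v hv.1
        have hdv : d ∣ v := hv.2 ▸ Nat.gcd_dvd_left _ _
        exact ⟨hv1.squarefree_of_dvd (Nat.div_dvd_of_dvd hdv), (Nat.div_le_self v d).trans hv2⟩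
    _ = (n.natAbs.divisors.card : ℝ) * T ^ 2 := by rw [sum_const, nsmul_eq_mul]
    _ ≤ T * T ^ 2 := by
        have := hB.tau n.natAbs hn0 hnM
        gcongr
    _ = T ^ 3 := by ring

/-- the same for the `v ∈ V` divisible by the prime `p`: `≤ |b_p c_p(n)| T ^ 3` (`v = p v'`, `bc_mul`) -/
lemma sum_abs_bc_dvd_le (hB : Big M T) (V : Finset ℕ) (hV : ∀ v ∈ V, Squarefree v ∧ v ≤ M) (n : ℤ)
    (hn : n ≠ 0) (hnM : n.natAbs ≤ M) (p : ℕ) (hp : p.Prime) :
    ∑ v ∈ V.filter (fun v => p ∣ v), |bc v n| ≤ |bc p n| * T ^ 3 := by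
  have hinj : Set.InjOn (fun v => v / p) ((V.filter (fun v => p ∣ v) : Finset ℕ) : Set ℕ) := by
    intro a ha b hb hab
    rw [coe_filter] at ha hb
    simp only at hab
    rw [← Nat.div_mul_cancel ha.2, ← Nat.div_mul_cancel hb.2, hab]
  have h1 : ∑ v ∈ V.filter (fun v => p ∣ v), |bc v n| =
      |bc p n| * ∑ w ∈ (V.filter (fun v => p ∣ v)).image (fun v => v / p), |bc w n| := by
    rw [sum_image hinj, mul_sum]
    apply sum_congr rfl
    intro v hv
    rw [mem_filter] at hv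
    have h2 : v = p * (v / p) := (Nat.mul_div_cancel' hv.2).symm
    have h3 : Squarefree (p * (v / p)) := by rw [← h2]; exact (hV v hv.1).1
    have h4 := (Nat.squarefree_mul_iff.1 h3).1
    rw [← abs_mul, ← bc_mul h4, ← h2]
  rw [h1]
  apply mul_le_mul_of_nonneg_left _ (abs_nonneg _)
  apply sum_abs_bc_le hB _ _ n hn hnM
  intro w hw
  rw [mem_image] at hw
  obtain ⟨v, hv, rfl⟩ := hw
  rw [mem_filter] at hv
  obtain ⟨hv1, hv2⟩ := hV v hv.1
  exact ⟨hv1.squarefree_of_dvd (Nat.div_dvd_of_dvd hv.2), (Nat.div_le_self v p).trans hv2⟩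

lemma abs_FQ_le (hB : Big M T) (Q : Finset ℕ) (hQ : ∀ v ∈ Q, Squarefree v ∧ v ≤ M) (n : ℤ)
    (hn : n ≠ 0) (hnM : n.natAbs ≤ M) : |FQ Q n| ≤ T ^ 3 := by
  unfold FQ
  exact (abs_sum_le_sum_abs _ _).trans (sum_abs_bc_le hB Q hQ n hn hnM)

/-- complete sums vanish if `q ∤ m`: by `bc_exp`, `∑_{t mod q} e(a (m t + j) / q) = 0` because `q ∤ a m`. -/
lemma sum_period_zero {q : ℕ} (hq : Squarefree q) (m : ℕ) (j : ℤ) (hm : ¬ q ∣ m) :
    ∑ t ∈ range q, bc q ((m : ℤ) * t + j) = 0 := by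
  have hq0 : 0 < q := Nat.pos_of_ne_zero hq.ne_zero
  have h1 : ((∑ t ∈ range q, bc q ((m : ℤ) * t + j) : ℝ) : ℂ) = 0 := by
    push_cast
    have h00 : ∑ t ∈ range q, ((bc q ((m : ℤ) * (t : ℤ) + j) : ℝ) : ℂ) =
        ∑ t ∈ range q, (bq q : ℂ) * ∑ a ∈ (range q).filter (fun a => a.Coprime q),
          e ((a : ℝ) * (((m : ℤ) * (t : ℤ) + j : ℤ) : ℝ) / q) :=
      sum_congr rfl (fun t _ => bc_exp hq _)
    rw [h00, ← mul_sum, sum_comm]
    have h2 : ∀ a ∈ (range q).filter (fun a => a.Coprime q),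
        ∑ t ∈ range q, e ((a : ℝ) * (((m : ℤ) * t + j : ℤ) : ℝ) / q) = 0 := by
      intro a ha
      rw [mem_filter] at ha
      have h3 : ∀ t ∈ range q, e ((a : ℝ) * (((m : ℤ) * t + j : ℤ) : ℝ) / q) =
          e ((a : ℝ) * j / q) * e ((t : ℝ) * (((a : ℤ) * m : ℤ) : ℝ) / q) := by
        intro t _
        rw [← e_add]
        congr 1
        push_cast
        ring
      rw [sum_congr rfl h3, ← mul_sum, RamA_complete _ q hq0, if_neg, mul_zero]
      intro h4
      apply hm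
      have h5 : q ∣ a * m := by exact_mod_cast h4
      exact (Nat.Coprime.symm ha.2).dvd_of_dvd_mul_left h5
    rw [sum_congr rfl h2]
    simp
  exact_mod_cast h1

/-- number of solutions of a linear congruence -/
lemma RamB_count {q d : ℕ} (hq : 0 < q) (hdq : d ∣ q) (m : ℕ) (j : ℤ) :
    ((range q).filter (fun t : ℕ => (d : ℤ) ∣ (m : ℤ) * t + j)).card * d ≤ q * d.gcd m := by
  have hd0 : 0 < d := Nat.pos_of_dvd_of_pos hdq hq
  set g := d.gcd m with hg
  have hg0 : 0 < g := Nat.gcd_pos_of_pos_left m hd0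
  obtain ⟨k, hk⟩ : g ∣ d := Nat.gcd_dvd_left d m
  have hk0 : 0 < k := Nat.pos_of_ne_zero (by rintro rfl; rw [mul_zero] at hk; omega)
  rcases Finset.eq_empty_or_nonempty ((range q).filter (fun t : ℕ => (d : ℤ) ∣ (m : ℤ) * t + j)) with
    h | ⟨t₀, ht₀⟩
  · rw [h]; simp
  · rw [mem_filter] at ht₀
    have hsub : (range q).filter (fun t : ℕ => (d : ℤ) ∣ (m : ℤ) * t + j) ⊆
        (range q).filter (fun t : ℕ => t ≡ t₀ [MOD k]) := by
      intro t ht
      rw [mem_filter] at ht ⊢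
      refine ⟨ht.1, ?_⟩
      have h1 : (d : ℤ) ∣ (m : ℤ) * (t - t₀) := by
        have := dvd_sub ht.2 ht₀.2
        have e1 : ((m : ℤ) * t + j) - ((m : ℤ) * t₀ + j) = (m : ℤ) * (t - t₀) := by ring
        rwa [e1] at this
      obtain ⟨m', hm'⟩ : g ∣ m := Nat.gcd_dvd_right d m
      have h2 : (k : ℤ) ∣ (m' : ℤ) * (t - t₀) := by
        rw [hk, hm'] at h1
        push_cast at h1
        rw [mul_assoc] at h1
        exact Int.dvd_of_mul_dvd_mul_left (by exact_mod_cast hg0.ne') h1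
      have h3 : Nat.Coprime k m' := by
        have h4 : g * Nat.gcd k m' = g := by
          rw [← Nat.gcd_mul_left, ← hk, ← hm']
        exact Nat.eq_of_mul_eq_mul_left hg0 (by rw [h4, mul_one])
      have h5 : (k : ℤ) ∣ (t : ℤ) - t₀ :=
        (Nat.isCoprime_iff_coprime.2 h3).dvd_of_dvd_mul_left h2
      exact ((Nat.modEq_iff_dvd).2 h5).symm
    have hcard := card_le_card hsub
    have hkq : k ∣ q := (Dvd.intro_left g hk.symm).trans hdq
    have h6 : ((range q).filter (fun t : ℕ => t ≡ t₀ [MOD k])).card = q / k := by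
      rw [← Nat.count_eq_card_filter_range, Nat.count_modEq_card _ hk0, Nat.mod_eq_zero_of_dvd hkq,
        if_neg (by omega), add_zero]
    rw [h6] at hcard
    calc _ ≤ q / k * d := Nat.mul_le_mul hcard le_rfl
      _ = (q / k * k) * g := by rw [hk]; ring
      _ = q * g := by rw [Nat.div_mul_cancel hkq]

/-- complete sums of absolute values: by `abs_bc_le_sum` and `#{t mod q : d ∣ m t + j} ≤ (q / d) gcd(d, m)` the sum is
`≤ (q / φ(q)) ∑_{d ∣ q} (φ(d) / d) gcd(d, m) ≤ T ^ 2 gcd(q, m)`. -/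
lemma sum_period_abs (hB : Big M T) {q : ℕ} (hq : Squarefree q) (hqM : q ≤ M) (m : ℕ) (j : ℤ) :
    ∑ t ∈ range q, |bc q ((m : ℤ) * t + j)| ≤ T ^ 2 * (q.gcd m : ℝ) := by
  have hT := RamB_T1 hB
  have hq0 : 0 < q := Nat.pos_of_ne_zero hq.ne_zero
  have hphi : (0 : ℝ) < q.totient := by exact_mod_cast Nat.totient_pos.2 hq0
  calc ∑ t ∈ range q, |bc q ((m : ℤ) * t + j)|
      ≤ ∑ t ∈ range q, ∑ d ∈ q.divisors, (if (d : ℤ) ∣ (m : ℤ) * t + j then
          (d.totient : ℝ) / (q.totient : ℝ) else 0) := by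
        apply sum_le_sum
        intro t _
        rw [← sum_filter]
        exact abs_bc_le_sum hq _
    _ = ∑ d ∈ q.divisors, ∑ t ∈ range q, (if (d : ℤ) ∣ (m : ℤ) * t + j then
          (d.totient : ℝ) / (q.totient : ℝ) else 0) := sum_comm
    _ ≤ ∑ _d ∈ q.divisors, ((q : ℝ) / q.totient) * (q.gcd m : ℝ) := by
        apply sum_le_sum
        intro d hd
        have hdq := Nat.dvd_of_mem_divisors hd
        have hd0 : 0 < d := Nat.pos_of_mem_divisors hd
        have hd0' : (0 : ℝ) < d := by exact_mod_cast hd0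
        rw [← sum_filter, sum_const, nsmul_eq_mul]
        have h1 := RamB_count hq0 hdq m j
        have h2 : (((range q).filter (fun t : ℕ => (d : ℤ) ∣ (m : ℤ) * t + j)).card : ℝ) * d ≤
            q * (d.gcd m : ℝ) := by exact_mod_cast h1
        have h3 : (d.totient : ℝ) ≤ d := by exact_mod_cast Nat.totient_le d
        have h4 : (d.gcd m : ℝ) ≤ (q.gcd m : ℝ) := by
          have : d.gcd m ≤ q.gcd m :=
            Nat.le_of_dvd (Nat.gcd_pos_of_pos_left m hq0) (Nat.gcd_dvd_gcd_of_dvd_left m hdq)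
          exact_mod_cast this
        calc (((range q).filter (fun t : ℕ => (d : ℤ) ∣ (m : ℤ) * t + j)).card : ℝ) *
              ((d.totient : ℝ) / (q.totient : ℝ))
            ≤ (((range q).filter (fun t : ℕ => (d : ℤ) ∣ (m : ℤ) * t + j)).card : ℝ) *
              ((d : ℝ) / (q.totient : ℝ)) := by gcongr
          _ = ((((range q).filter (fun t : ℕ => (d : ℤ) ∣ (m : ℤ) * t + j)).card : ℝ) * d) /
              (q.totient : ℝ) := by ring
          _ ≤ (q * (q.gcd m : ℝ)) / (q.totient : ℝ) := by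
              rw [div_le_div_iff_of_pos_right hphi]
              exact h2.trans (by gcongr)
          _ = ((q : ℝ) / q.totient) * (q.gcd m : ℝ) := by ring
    _ = (q.divisors.card : ℝ) * (((q : ℝ) / q.totient) * (q.gcd m : ℝ)) := by
        rw [sum_const, nsmul_eq_mul]
    _ ≤ T * (T * (q.gcd m : ℝ)) := by
        have h1 := hB.tau q hq0 hqM
        have h2 := div_totient_le hB hq hqM
        gcongr
    _ = T ^ 2 * (q.gcd m : ℝ) := by ring

lemma RamB_periodic {q : ℕ} (hq : 0 < q) (F : ℕ → ℝ) (hper : ∀ t, F (q + t) = F t)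
    (h0 : ∑ t ∈ range q, F t = 0) (N : ℕ) : |∑ t ∈ range N, F t| ≤ ∑ t ∈ range q, |F t| := by
  induction N using Nat.strong_induction_on with
  | _ N ih =>
    by_cases h : N < q
    · calc |∑ t ∈ range N, F t| ≤ ∑ t ∈ range N, |F t| := abs_sum_le_sum_abs _ _
        _ ≤ ∑ t ∈ range q, |F t| := by
          apply sum_le_sum_of_subset_of_nonneg
          · intro t ht
            rw [mem_range] at ht ⊢
            omega
          · intro t _ _
            exact abs_nonneg _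
    · obtain ⟨s, rfl⟩ := Nat.exists_eq_add_of_le (not_lt.1 h)
      rw [sum_range_add, h0, zero_add]
      simp_rw [hper]
      exact ih s (by omega)

lemma RamB_shift (F : ℕ → ℝ) (N : ℕ) : ∑ t ∈ Ioc 0 N, F t = ∑ t ∈ range N, F (t + 1) := by
  induction N with
  | zero => simp
  | succ N ih => rw [sum_Ioc_succ_top (Nat.zero_le N), ih, sum_range_succ]

/-- type I sums: `q`-periodic with complete sum `0`, so an incomplete sum is at most the sum of the absolute values over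
one period -/
lemma typeI_one (hB : Big M T) {q : ℕ} (hq : Squarefree q) (hqM : q ≤ M) (m : ℕ) (j : ℤ)
    (hm : ¬ q ∣ m) (N : ℕ) :
    |∑ t ∈ Ioc 0 N, bc q ((m : ℤ) * t + j)| ≤ T ^ 2 * (q.gcd m : ℝ) := by
  have hq0 : 0 < q := Nat.pos_of_ne_zero hq.ne_zero
  rw [RamB_shift (fun t => bc q ((m : ℤ) * t + j))]
  have h1 : ∀ t ∈ range N, bc q ((m : ℤ) * ((t + 1 : ℕ) : ℤ) + j) =
      bc q ((m : ℤ) * t + (m + j)) := by
    intro t _
    congr 1
    push_cast
    ring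
  rw [sum_congr rfl h1]
  refine (RamB_periodic hq0 (fun t : ℕ => bc q ((m : ℤ) * t + (m + j))) ?_ ?_ N).trans
    (sum_period_abs hB hq hqM m (m + j))
  · intro t
    apply bc_congr
    refine ⟨m, ?_⟩
    push_cast
    ring
  · exact sum_period_zero hq m (m + j) hm

/-- type I sums for a set of moduli. `0 < m`, all `q ∈ Q` are squarefree, `≤ Qm ≤ M`, and do not divide `m`
(`∑_{q ≤ Qm} gcd(q, m) ≤ Qm τ(m)`). -/
lemma typeI_set (hB : Big M T) (Q : Finset ℕ) (Qm : ℕ) (hQm : Qm ≤ M) (m : ℕ) (hm0 : 0 < m)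
    (hmM : m ≤ M) (hQ : ∀ q ∈ Q, Squarefree q ∧ q ≤ Qm ∧ ¬ q ∣ m) (j : ℤ) (N : ℕ) :
    |∑ t ∈ Ioc 0 N, FQ Q ((m : ℤ) * t + j)| ≤ T ^ 3 * Qm := by
  have hT := RamB_T1 hB
  unfold FQ
  rw [sum_comm]
  calc |∑ q ∈ Q, ∑ t ∈ Ioc 0 N, bc q ((m : ℤ) * t + j)|
      ≤ ∑ q ∈ Q, |∑ t ∈ Ioc 0 N, bc q ((m : ℤ) * t + j)| := abs_sum_le_sum_abs _ _
    _ ≤ ∑ q ∈ Q, T ^ 2 * (m.gcd q : ℝ) := by
        apply sum_le_sum
        intro q hq
        obtain ⟨h1, h2, h3⟩ := hQ q hq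
        rw [Nat.gcd_comm m q]
        exact typeI_one hB h1 (h2.trans hQm) m j h3 N
    _ = T ^ 2 * ∑ q ∈ Q, (m.gcd q : ℝ) := by rw [mul_sum]
    _ ≤ T ^ 2 * ∑ q ∈ Ioc 0 Qm, (m.gcd q : ℝ) := by
        apply mul_le_mul_of_nonneg_left _ (by positivity)
        apply sum_le_sum_of_subset_of_nonneg
        · intro q hq
          obtain ⟨h1, h2, _⟩ := hQ q hq
          rw [mem_Ioc]
          exact ⟨Nat.pos_of_ne_zero h1.ne_zero, h2⟩
        · intro q _ _
          positivity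
    _ ≤ T ^ 2 * (Qm * (m.divisors.card : ℝ)) := by
        apply mul_le_mul_of_nonneg_left _ (by positivity)
        exact sum_gcd_le m Qm hm0
    _ ≤ T ^ 2 * (Qm * T) := by
        have := hB.tau m hm0 hmM
        gcongr
    _ = T ^ 3 * Qm := by ring

/-- the same with the weight `log t` (`abel_sum` of `Basic0.lean`, `log N ≤ T`) -/
lemma typeI_log (hB : Big M T) (Q : Finset ℕ) (Qm : ℕ) (hQm : Qm ≤ M) (m : ℕ) (hm0 : 0 < m)
    (hmM : m ≤ M) (hQ : ∀ q ∈ Q, Squarefree q ∧ q ≤ Qm ∧ ¬ q ∣ m) (j : ℤ) (N : ℕ) (hN : N ≤ M) :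
    |∑ t ∈ Ioc 0 N, Real.log t * FQ Q ((m : ℤ) * t + j)| ≤ 4 * T ^ 4 * Qm := by
  have hT := RamB_T1 hB
  rcases Nat.eq_zero_or_pos N with h0 | hN0
  · rw [h0]
    simp only [Ioc_self, sum_empty, abs_zero]
    positivity
  set F : ℕ → ℂ := fun t => if t = 0 then 0 else ((FQ Q ((m : ℤ) * t + j) : ℝ) : ℂ) with hF
  have hFs : ∀ k, ‖∑ d ∈ range k, F d‖ ≤ T ^ 3 * Qm := by
    intro k
    rcases Nat.eq_zero_or_pos k with hk | hk
    · rw [hk]
      simp only [range_zero, sum_empty, norm_zero]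
      positivity
    · obtain ⟨k', rfl⟩ : ∃ k', k = k' + 1 := ⟨k - 1, by omega⟩
      rw [← sum_Ioc_range k' F (by simp [hF])]
      have h1 : ∑ n ∈ Ioc 0 k', F n = ((∑ t ∈ Ioc 0 k', FQ Q ((m : ℤ) * t + j) : ℝ) : ℂ) := by
        push_cast
        apply sum_congr rfl
        intro t ht
        rw [mem_Ioc] at ht
        simp only [hF]
        rw [if_neg (by omega)]
      rw [h1, Complex.norm_real, norm_eq_abs]
      exact typeI_set hB Q Qm hQm m hm0 hmM hQ j k'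
  have h2 := abel_sum F (fun n : ℕ => Real.log n) (T ^ 3 * Qm) log_nat_mono (by simp) hFs (N + 1)
  have h3 : ∑ d ∈ range (N + 1), ((Real.log (d : ℝ) : ℝ) : ℂ) * F d =
      ((∑ t ∈ Ioc 0 N, Real.log t * FQ Q ((m : ℤ) * t + j) : ℝ) : ℂ) := by
    rw [← sum_Ioc_range N (fun d => ((Real.log (d : ℝ) : ℝ) : ℂ) * F d) (by simp)]
    push_cast
    apply sum_congr rfl
    intro t ht
    rw [mem_Ioc] at ht
    simp only [hF]
    rw [if_neg (by omega)]
  rw [h3, Complex.norm_real, norm_eq_abs] at h2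
  refine h2.trans ?_
  have hM0 : (0 : ℝ) < M := by
    have : 0 < M := by omega
    exact_mod_cast this
  have hlog : Real.log ((N + 1 : ℕ) : ℝ) ≤ T := by
    have h4 : ((N + 1 : ℕ) : ℝ) ≤ 2 * M := by
      have : N + 1 ≤ 2 * M := by omega
      exact_mod_cast this
    have h5 : Real.log ((N + 1 : ℕ) : ℝ) ≤ Real.log (2 * M) :=
      Real.log_le_log (by positivity) h4
    rw [Real.log_mul (by norm_num) hM0.ne'] at h5
    have h6 := Real.log_two_lt_d9
    have h7 := hB.log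
    linarith
  have hlog0 : 0 ≤ Real.log ((N + 1 : ℕ) : ℝ) := Real.log_natCast_nonneg _
  calc 2 * Real.log ((N + 1 : ℕ) : ℝ) * (T ^ 3 * Qm) ≤ 2 * T * (T ^ 3 * Qm) := by gcongr
    _ = 2 * T ^ 4 * Qm := by ring
    _ ≤ 4 * T ^ 4 * Qm := by
        have : (0 : ℝ) ≤ T ^ 4 * Qm := by positivity
        linarith

end Pool.Agent.Lib.MP_2a816b_nt.BH
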