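import Pool.Agent.Lib.MP_2a816b_nt.BH.Dens
import Pool.Agent.Lib.MP_2a816b_nt.BH.RamB

/-!
# JOB LamU: the truncated Ramanujan expansion of the von Mangoldt function

`AU y n u = ∑_{q ≤ y, (q, u) = 1, q squarefree} b_q c_q(n)`. Let `(n, u) = 1`, `n ≥ 2`, `n ≤ y`. Write `q = q₁ q₂` with `q₁ ∣ n` and `(q₂, n u) = 1` (`q₁ = (q, n)`, `q` squarefree): `bc q n = μ(q₁) / φ(q₂)` (`bc_mul`; all primes of `q₁` divide `n`, those of
`q₂` do not). So `AU y n u = ∑_{d ∣ n, d squarefree} μ(d) SD (y / d) (n u)`, all with the same `D = n u`. By `density` with the same `B` for all `d`, and `|log(⌊y/d⌋) - log(y/d)| ≤ 2 d / y`: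
`AU = ∑_{d ∣ n} μ(d) ((φ(n u) / (n u)) (log y - log d) + B) + error = (φ(n u) / (n u)) Λ(n) + error`, because `∑_{d ∣ n} μ(d) = 0` and `- ∑_{d ∣ n} μ(d) log d = Λ(n)` (Mathlib: `ArithmeticFunction.sum_moebius_mul_log_eq` or similar).
`|error| ≤ ∑_{d ∣ n} (C₁ τ(n u) 2 (d / y) ^ (1/4) + 2 d / y) ≤ 4 C₁ T ^ 2 (n / y) ^ (1/4)` (`n u ≤ M`, `τ(n u) ≤ T`, `⌊y/d⌋ ≥ y / (2 d)`).
-/

set_option autoImplicit false

open Finset Real

namespace Pool.Agent.Lib.MP_2a816b_nt.BH

/-- truncated Ramanujan expansion with moduli prime to `u` -/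
noncomputable def AU (y n u : ℕ) : ℝ :=
  ∑ q ∈ (Ioc 0 y).filter (fun q => Squarefree q ∧ q.Coprime u), bc q n

private lemma LamU_bc_dvd {d n : ℕ} (hd : Squarefree d) (hdn : d ∣ n) :
    bc d (n : ℤ) = ((ArithmeticFunction.moebius d : ℤ) : ℝ) := by
  unfold bc
  have h1 : ∀ p ∈ d.primeFactors, (if (p : ℤ) ∣ (n : ℤ) then (-1 : ℝ) else 1 / ((p : ℝ) - 1)) = -1 := by
    intro p hp
    rw [if_pos]
    exact_mod_cast (Nat.dvd_of_mem_primeFactors hp).trans hdn
  have h2 : ArithmeticFunction.cardFactors d = d.primeFactors.card := by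
    rw [← (ArithmeticFunction.cardDistinctFactors_eq_cardFactors_iff_squarefree hd.ne_zero).2 hd,
      ArithmeticFunction.cardDistinctFactors_apply]
    exact (List.card_toFinset _).symm
  rw [prod_congr rfl h1, prod_const, ArithmeticFunction.moebius_apply_of_squarefree hd, h2]
  push_cast
  rfl

private lemma LamU_bc_coprime {e n : ℕ} (he : Squarefree e) (hen : e.Coprime n) :
    bc e (n : ℤ) = 1 / (e.totient : ℝ) := by
  unfold bc
  rw [RamA_totient he, one_div, ← prod_inv_distrib]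
  apply prod_congr rfl
  intro p hp
  rw [if_neg, one_div]
  intro h
  have h1 : p ∣ n := by exact_mod_cast h
  have h2 := Nat.dvd_of_mem_primeFactors hp
  have h3 : p ∣ 1 := by
    rw [← hen.gcd_eq_one]
    exact Nat.dvd_gcd h2 h1
  exact (Nat.prime_of_mem_primeFactors hp).one_lt.ne' (Nat.dvd_one.1 h3)

private lemma LamU_AU_eq {y n u : ℕ} (hn : 0 < n) (hnu : n.Coprime u) :
    AU y n u = ∑ d ∈ n.divisors, ((ArithmeticFunction.moebius d : ℤ) : ℝ) * SD (y / d) (n * u) := by
  classical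
  have h0 : ∀ d ∈ n.divisors, ((ArithmeticFunction.moebius d : ℤ) : ℝ) * SD (y / d) (n * u) =
      ∑ q ∈ ((Ioc 0 y).filter (fun q => Squarefree q ∧ q.Coprime u)) with q.gcd n = d,
        bc q (n : ℤ) := by
    intro d hd
    have hdn := Nat.dvd_of_mem_divisors hd
    have hd0 : 0 < d := Nat.pos_of_mem_divisors hd
    by_cases hsq : Squarefree d
    · rw [SD, mul_sum]
      apply sum_bij' (fun e _ => d * e) (fun q _ => q / d)
      · intro e he
        rw [mem_filter, mem_Ioc] at he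
        obtain ⟨⟨he0, hey⟩, hesq, hec⟩ := he
        have hen : e.Coprime n := Nat.Coprime.coprime_mul_right_right hec
        have heu : e.Coprime u := Nat.Coprime.coprime_mul_left_right hec
        have hde : d.Coprime e := (hen.coprime_dvd_right hdn).symm
        rw [mem_filter, mem_filter, mem_Ioc]
        refine ⟨⟨⟨Nat.mul_pos hd0 he0, ?_⟩, ?_, ?_⟩, ?_⟩
        · exact (Nat.mul_le_mul_left d hey).trans (Nat.mul_div_le y d)
        · exact (Nat.squarefree_mul hde).2 ⟨hsq, hesq⟩
        · exact Nat.Coprime.mul_left (hnu.coprime_dvd_left hdn) heu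
        · obtain ⟨k, hk⟩ := hdn
          have h5 : (d * e).gcd (d * k) = d * e.gcd k := Nat.gcd_mul_left d e k
          have h6 : e.Coprime k := hen.coprime_dvd_right ⟨d, by rw [hk, mul_comm]⟩
          rw [hk, h5, h6.gcd_eq_one, mul_one]
      · intro q hq
        rw [mem_filter, mem_filter, mem_Ioc] at hq
        obtain ⟨⟨⟨hq0, hqy⟩, hqsq, hqu⟩, hqd⟩ := hq
        have hdq : d ∣ q := hqd ▸ Nat.gcd_dvd_left q n
        obtain ⟨e, rfl⟩ := hdq
        have hde := (Nat.squarefree_mul_iff.1 hqsq)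
        rw [Nat.mul_div_cancel_left e hd0, mem_filter, mem_Ioc]
        refine ⟨⟨Nat.pos_of_ne_zero (by rintro rfl; simp at hq0), ?_⟩, hde.2.2, ?_⟩
        · rw [Nat.le_div_iff_mul_le hd0, mul_comm]
          exact hqy
        · apply Nat.Coprime.mul_right
          · -- e coprime to n
            rw [Nat.coprime_iff_gcd_eq_one]
            by_contra hne
            obtain ⟨p, hp, hpg⟩ := Nat.exists_prime_and_dvd hne
            have hpe : p ∣ e := hpg.trans (Nat.gcd_dvd_left _ _)
            have hpn : p ∣ n := hpg.trans (Nat.gcd_dvd_right _ _)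
            have hpd : p ∣ d := by
              rw [← hqd]
              exact Nat.dvd_gcd (hpe.trans (dvd_mul_left _ _)) hpn
            have h7 : p ∣ 1 := by
              rw [← hde.1.gcd_eq_one]
              exact Nat.dvd_gcd hpd hpe
            exact hp.one_lt.ne' (Nat.dvd_one.1 h7)
          · exact Nat.Coprime.coprime_mul_left hqu
      · intro e _
        exact Nat.mul_div_cancel_left e hd0
      · intro q hq
        rw [mem_filter] at hq
        exact Nat.mul_div_cancel' (hq.2 ▸ Nat.gcd_dvd_left q n)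
      · intro e he
        rw [mem_filter, mem_Ioc] at he
        obtain ⟨_, hesq, hec⟩ := he
        have hen : e.Coprime n := Nat.Coprime.coprime_mul_right_right hec
        have hde : d.Coprime e := (hen.coprime_dvd_right hdn).symm
        rw [bc_mul hde, LamU_bc_dvd hsq hdn, LamU_bc_coprime hesq hen]
    · rw [ArithmeticFunction.moebius_eq_zero_of_not_squarefree hsq, Int.cast_zero, zero_mul]
      symm
      apply sum_eq_zero
      intro q hq
      rw [mem_filter, mem_filter] at hq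
      exfalso
      apply hsq
      rw [← hq.2]
      exact hq.1.2.1.squarefree_of_dvd (Nat.gcd_dvd_left q n)
  rw [sum_congr rfl h0, sum_fiberwise_of_maps_to]
  · rfl
  · intro q _
    exact Nat.mem_divisors.2 ⟨Nat.gcd_dvd_right q n, hn.ne'⟩

private lemma LamU_sum_mu {n : ℕ} (hn : 2 ≤ n) :
    ∑ d ∈ n.divisors, ((ArithmeticFunction.moebius d : ℤ) : ℝ) = 0 := by
  have h1 := congrArg (fun f => f n) (ArithmeticFunction.coe_moebius_mul_coe_zeta (R := ℝ))
  rw [ArithmeticFunction.coe_mul_zeta_apply, ArithmeticFunction.one_apply_ne (by omega)] at h1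
  simpa using h1

theorem AU_eq : ∃ C₂ : ℝ, 1 ≤ C₂ ∧ ∀ (M : ℕ) (T : ℝ), Big M T → ∀ y n u : ℕ, 2 ≤ n → n ≤ y →
    0 < u → n * u ≤ M → n.Coprime u →
    |AU y n u - ((n * u).totient : ℝ) / (n * u : ℕ) * ArithmeticFunction.vonMangoldt n| ≤
      C₂ * T ^ 2 * ((n : ℝ) / y) ^ (1 / 4 : ℝ) := by
  obtain ⟨C₁, hC₁, hdens⟩ := density
  refine ⟨4 * C₁, by linarith, ?_⟩
  intro M T hB y n u hn2 hny hu hM hcop
  have hT : 100 ≤ T := hB.one
  have hn0 : 0 < n := by omega
  have hD0 : 0 < n * u := Nat.mul_pos hn0 hu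
  obtain ⟨B, hB'⟩ := hdens (n * u) hD0
  set c : ℝ := ((n * u).totient : ℝ) / (n * u : ℕ) with hc
  have hDpos : (0 : ℝ) < (n * u : ℕ) := by exact_mod_cast hD0
  have hc0 : 0 ≤ c := by positivity
  have hc1 : c ≤ 1 := by
    rw [hc, div_le_one hDpos]
    exact_mod_cast Nat.totient_le _
  have hy0 : 0 < y := by omega
  have hy0' : (0 : ℝ) < y := by exact_mod_cast hy0
  have hn0' : (0 : ℝ) < n := by exact_mod_cast hn0
  have hny' : (n : ℝ) / y ≤ 1 := by
    rw [div_le_one hy0']
    exact_mod_cast hny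
  set δ : ℝ := ((n : ℝ) / y) ^ (1 / 4 : ℝ) with hδ
  have hδ0 : 0 < δ := Real.rpow_pos_of_pos (by positivity) _
  have hδ1 : (n : ℝ) / y ≤ δ := by
    rw [hδ]
    calc (n : ℝ) / y = ((n : ℝ) / y) ^ (1 : ℝ) := (Real.rpow_one _).symm
      _ ≤ ((n : ℝ) / y) ^ (1 / 4 : ℝ) :=
        Real.rpow_le_rpow_of_exponent_ge (by positivity) hny' (by norm_num)
  -- one divisor
  have hone : ∀ d ∈ n.divisors,
      |SD (y / d) (n * u) - (c * (Real.log y - Real.log d) + B)| ≤ (2 * C₁ * T + 2) * δ := by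
    intro d hd
    have hdn := Nat.dvd_of_mem_divisors hd
    have hd0 : 0 < d := Nat.pos_of_mem_divisors hd
    have hd0' : (0 : ℝ) < d := by exact_mod_cast hd0
    have hdle : d ≤ n := Nat.le_of_dvd hn0 hdn
    have hdle' : (d : ℝ) ≤ n := by exact_mod_cast hdle
    have hz1 : 1 ≤ y / d := (Nat.one_le_div_iff hd0).2 (hdle.trans hny)
    have hz1' : (1 : ℝ) ≤ ((y / d : ℕ) : ℝ) := by exact_mod_cast hz1
    set z : ℝ := ((y / d : ℕ) : ℝ) with hz
    have hzle : z ≤ (y : ℝ) / d := Nat.cast_div_le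
    have hzlt : (y : ℝ) / d < z + 1 := by
      rw [hz, div_lt_iff₀ hd0']
      have h1 : y < (y / d + 1) * d := by
        rw [mul_comm]
        exact Nat.lt_mul_div_succ y hd0
      exact_mod_cast h1
    have hz2 : (y : ℝ) / (2 * d) ≤ z := by
      have h1 : (y : ℝ) / (2 * d) = ((y : ℝ) / d) / 2 := by
        field_simp
      rw [h1]
      linarith
    have hz0 : 0 < z := by linarith
    -- the error of density
    have h1 := hB' (y / d) hz1
    rw [← hz] at h1
    have h2 : z ^ (-(1 / 4) : ℝ) ≤ 2 * δ := by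
      have h3 : z ^ (-(1 / 4) : ℝ) ≤ ((y : ℝ) / (2 * d)) ^ (-(1 / 4) : ℝ) :=
        Real.rpow_le_rpow_of_nonpos (by positivity) hz2 (by norm_num)
      have h4 : ((y : ℝ) / (2 * d)) ^ (-(1 / 4) : ℝ) = ((2 * (d : ℝ)) / y) ^ (1 / 4 : ℝ) := by
        rw [Real.rpow_neg (by positivity), ← Real.inv_rpow (by positivity), inv_div]
      have h5 : ((2 * (d : ℝ)) / y) ^ (1 / 4 : ℝ) ≤ (16 * ((n : ℝ) / y)) ^ (1 / 4 : ℝ) := by
        apply Real.rpow_le_rpow (by positivity) _ (by norm_num)
        rw [← mul_div_assoc]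
        gcongr
        linarith
      have h6 : (16 * ((n : ℝ) / y)) ^ (1 / 4 : ℝ) = 2 * δ := by
        rw [Real.mul_rpow (by norm_num) (by positivity), ← hδ]
        congr 1
        have : (16 : ℝ) = 2 ^ (4 : ℝ) := by norm_num
        rw [this, ← Real.rpow_mul (by norm_num)]
        norm_num
      linarith
    have h7 : ((n * u).divisors.card : ℝ) ≤ T := hB.tau _ hD0 hM
    have h8 : C₁ * ((n * u).divisors.card : ℝ) * z ^ (-(1 / 4) : ℝ) ≤ 2 * C₁ * T * δ := by
      calc C₁ * ((n * u).divisors.card : ℝ) * z ^ (-(1 / 4) : ℝ)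
          ≤ C₁ * T * (2 * δ) := by gcongr
        _ = 2 * C₁ * T * δ := by ring
    -- the logarithm
    have h9 : |c * Real.log z - c * (Real.log y - Real.log d)| ≤ 2 * δ := by
      rw [← mul_sub, abs_mul, abs_of_nonneg hc0, ← Real.log_div hy0'.ne' hd0'.ne']
      have h10 : Real.log z ≤ Real.log ((y : ℝ) / d) := Real.log_le_log hz0 hzle
      rw [abs_sub_comm, abs_of_nonneg (by linarith)]
      have h11 : Real.log ((y : ℝ) / d) - Real.log z ≤ 2 * ((n : ℝ) / y) := by
        rw [← Real.log_div (by positivity) hz0.ne']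
        have h12 := Real.log_le_sub_one_of_pos (x := (y : ℝ) / d / z) (by positivity)
        have h13 : (y : ℝ) / d / z - 1 ≤ 1 / z := by
          rw [div_sub_one hz0.ne']
          gcongr
          linarith
        have h14 : 1 / z ≤ 2 * ((n : ℝ) / y) := by
          rw [div_le_iff₀ hz0]
          have h15 : (1 : ℝ) = 2 * ((d : ℝ) / y) * ((y : ℝ) / (2 * d)) := by
            field_simp
          calc (1 : ℝ) = 2 * ((d : ℝ) / y) * ((y : ℝ) / (2 * d)) := h15
            _ ≤ 2 * ((n : ℝ) / y) * z := by gcongr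
        linarith
      calc c * (Real.log ((y : ℝ) / d) - Real.log z) ≤ 1 * (2 * ((n : ℝ) / y)) := by
            apply mul_le_mul hc1 h11 (by linarith) (by norm_num)
        _ ≤ 2 * δ := by linarith
    calc |SD (y / d) (n * u) - (c * (Real.log y - Real.log d) + B)|
        = |(SD (y / d) (n * u) - (c * Real.log z + B)) +
            (c * Real.log z - c * (Real.log y - Real.log d))| := by
          congr 1
          ring
      _ ≤ |SD (y / d) (n * u) - (c * Real.log z + B)| +
            |c * Real.log z - c * (Real.log y - Real.log d)| := abs_add_le _ _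
      _ ≤ 2 * C₁ * T * δ + 2 * δ := add_le_add (h1.trans h8) h9
      _ = (2 * C₁ * T + 2) * δ := by ring
  -- the main term
  have hmain : ∑ d ∈ n.divisors, ((ArithmeticFunction.moebius d : ℤ) : ℝ) *
      (c * (Real.log y - Real.log d) + B) = c * ArithmeticFunction.vonMangoldt n := by
    have h1 : ∀ d ∈ n.divisors, ((ArithmeticFunction.moebius d : ℤ) : ℝ) *
        (c * (Real.log y - Real.log d) + B) =
        (c * Real.log y + B) * ((ArithmeticFunction.moebius d : ℤ) : ℝ) -
          c * (((ArithmeticFunction.moebius d : ℤ) : ℝ) * Real.log d) := by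
      intro d _
      ring
    have h2 : ∑ d ∈ n.divisors, ((ArithmeticFunction.moebius d : ℤ) : ℝ) * Real.log d =
        -ArithmeticFunction.vonMangoldt n := by
      rw [← ArithmeticFunction.sum_moebius_mul_log_eq]
      rfl
    rw [sum_congr rfl h1, sum_sub_distrib, ← mul_sum, ← mul_sum, LamU_sum_mu hn2, h2]
    ring
  rw [LamU_AU_eq hn0 hcop, ← hmain, ← sum_sub_distrib]
  have hmu : ∀ d : ℕ, |((ArithmeticFunction.moebius d : ℤ) : ℝ)| ≤ 1 := by
    intro d
    have := ArithmeticFunction.abs_moebius_le_one (n := d)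
    exact_mod_cast this
  have hcard : (n.divisors.card : ℝ) ≤ T :=
    hB.tau n hn0 ((Nat.le_mul_of_pos_right n hu).trans hM)
  calc |∑ d ∈ n.divisors, (((ArithmeticFunction.moebius d : ℤ) : ℝ) * SD (y / d) (n * u) -
        ((ArithmeticFunction.moebius d : ℤ) : ℝ) * (c * (Real.log y - Real.log d) + B))|
      ≤ ∑ d ∈ n.divisors, (2 * C₁ * T + 2) * δ := by
        refine (abs_sum_le_sum_abs _ _).trans (sum_le_sum ?_)
        intro d hd
        rw [← mul_sub, abs_mul]
        calc |((ArithmeticFunction.moebius d : ℤ) : ℝ)| *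
              |SD (y / d) (n * u) - (c * (Real.log y - Real.log d) + B)|
            ≤ 1 * ((2 * C₁ * T + 2) * δ) :=
              mul_le_mul (hmu d) (hone d hd) (abs_nonneg _) (by norm_num)
          _ = _ := one_mul _
    _ = (n.divisors.card : ℝ) * ((2 * C₁ * T + 2) * δ) := by rw [sum_const, nsmul_eq_mul]
    _ ≤ T * ((4 * C₁ * T) * δ) := by
        have h1 : 2 * C₁ * T + 2 ≤ 4 * C₁ * T := by nlinarith
        gcongr
    _ = 4 * C₁ * T ^ 2 * δ := by ring

end Pool.Agent.Lib.MP_2a816b_nt.BH
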