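import Pool.Agent.Lib.MP_2a816b_nt.BH.Defs

/-!
# JOB RamA: elementary properties of `bc`
-/

set_option autoImplicit false

open Finset Real

namespace Pool.Agent.Lib.MP_2a816b_nt.BH

lemma bc_mul {q r : ℕ} (h : q.Coprime r) (n : ℤ) : bc (q * r) n = bc q n * bc r n := by
  unfold bc
  rw [h.primeFactors_mul, prod_union h.disjoint_primeFactors]

lemma bq_mul {q r : ℕ} (h : q.Coprime r) : bq (q * r) = bq q * bq r := by
  unfold bq
  rw [ArithmeticFunction.isMultiplicative_moebius.map_mul_of_coprime h, Nat.totient_mul h]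
  push_cast
  rw [mul_div_mul_comm]

lemma bc_one (n : ℤ) : bc 1 n = 1 := by
  simp [bc]

lemma bc_prime {p : ℕ} (hp : p.Prime) (n : ℤ) :
    bc p n = if (p : ℤ) ∣ n then (-1 : ℝ) else 1 / ((p : ℝ) - 1) := by
  unfold bc
  rw [hp.primeFactors, prod_singleton]

lemma RamA_two_le {q p : ℕ} (hp : p ∈ q.primeFactors) : (2 : ℝ) ≤ p := by
  exact_mod_cast (Nat.prime_of_mem_primeFactors hp).two_le

lemma abs_bc_le_one (q : ℕ) (n : ℤ) : |bc q n| ≤ 1 := by
  unfold bc
  rw [abs_prod]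
  apply prod_le_one
  · intro p _
    exact abs_nonneg _
  · intro p hp
    have h2 := RamA_two_le hp
    by_cases h : (p : ℤ) ∣ n
    · rw [if_pos h, abs_neg, abs_one]
    · rw [if_neg h, abs_of_nonneg (by apply one_div_nonneg.2; linarith),
        div_le_one (by linarith)]
      linarith

/-- `bc q` is periodic modulo `q` -/
lemma bc_congr {q : ℕ} {m n : ℤ} (h : (q : ℤ) ∣ m - n) : bc q m = bc q n := by
  unfold bc
  apply prod_congr rfl
  intro p hp
  have h1 : (p : ℤ) ∣ m - n :=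
    (Int.natCast_dvd_natCast.2 (Nat.dvd_of_mem_primeFactors hp)).trans h
  have h2 : (p : ℤ) ∣ m ↔ (p : ℤ) ∣ n := by
    constructor
    · intro h3
      have := dvd_sub h3 h1
      rwa [sub_sub_cancel] at this
    · intro h3
      have := dvd_add h1 h3
      rwa [sub_add_cancel] at this
  simp only [h2]

lemma bc_neg (q : ℕ) (n : ℤ) : bc q (-n) = bc q n := by
  unfold bc
  simp only [dvd_neg]

/-- multiplying by a number prime to `q` does not change `bc q` -/
lemma bc_mul_arg {q : ℕ} (hq : q ≠ 0) {a : ℤ} (ha : IsCoprime a (q : ℤ)) (n : ℤ) :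
    bc q (a * n) = bc q n := by
  unfold bc
  apply prod_congr rfl
  intro p hp
  have h1 : (p : ℤ) ∣ (q : ℤ) := Int.natCast_dvd_natCast.2 (Nat.dvd_of_mem_primeFactors hp)
  have h2 : IsCoprime (p : ℤ) a := (ha.of_isCoprime_of_dvd_right h1).symm
  have h3 : (p : ℤ) ∣ a * n ↔ (p : ℤ) ∣ n :=
    ⟨fun h => h2.dvd_of_dvd_mul_left h, fun h => h.mul_left a⟩
  simp only [h3]

/-- the arithmetic function `d ↦ μ(d) d [d ∣ n]` -/
noncomputable def RamA_g (n : ℤ) : ArithmeticFunction ℝ :=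
  ⟨fun d => if (d : ℤ) ∣ n then ((ArithmeticFunction.moebius d : ℤ) : ℝ) * d else 0, by simp⟩

lemma RamA_g_apply (n : ℤ) (d : ℕ) : RamA_g n d =
    if (d : ℤ) ∣ n then ((ArithmeticFunction.moebius d : ℤ) : ℝ) * d else 0 := rfl

lemma RamA_g_mult (n : ℤ) : (RamA_g n).IsMultiplicative := by
  constructor
  · rw [RamA_g_apply]; simp
  · intro a b hab
    rw [RamA_g_apply, RamA_g_apply, RamA_g_apply]
    have h1 : ((a * b : ℕ) : ℤ) ∣ n ↔ (a : ℤ) ∣ n ∧ (b : ℤ) ∣ n := by
      push_cast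
      constructor
      · intro h
        exact ⟨(dvd_mul_right _ _).trans h, (dvd_mul_left _ _).trans h⟩
      · rintro ⟨h2, h3⟩
        exact (Nat.isCoprime_iff_coprime.2 hab).mul_dvd h2 h3
    by_cases ha : (a : ℤ) ∣ n
    · by_cases hb : (b : ℤ) ∣ n
      · rw [if_pos (h1.2 ⟨ha, hb⟩), if_pos ha, if_pos hb,
          ArithmeticFunction.isMultiplicative_moebius.map_mul_of_coprime hab]
        push_cast
        ring
      · rw [if_neg (fun h => hb (h1.1 h).2), if_neg hb, mul_zero]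
    · rw [if_neg (fun h => ha (h1.1 h).1), if_neg ha, zero_mul]

lemma RamA_totient {q : ℕ} (hq : Squarefree q) : (q.totient : ℝ) = ∏ p ∈ q.primeFactors, ((p : ℝ) - 1) := by
  have h1 := Nat.totient_eq_div_primeFactors_mul q
  rw [Nat.prod_primeFactors_of_squarefree hq, Nat.div_self (Nat.pos_of_ne_zero hq.ne_zero),
    one_mul] at h1
  rw [h1, Nat.cast_prod]
  apply prod_congr rfl
  intro p hp
  rw [Nat.cast_sub (Nat.prime_of_mem_primeFactors hp).one_le, Nat.cast_one]

/-- `b_q c_q(n) = ∑_{d ∣ q, d ∣ n} μ(d) d / φ(q)`. (`bc q n = ∏ (1/(p-1) - 1_{p ∣ n} p/(p-1))`;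
`Finset.prod_sub`/`Finset.prod_add` over subsets of the prime factors, or induction on the prime factors
with `bc_mul` (`Nat.recOnPosPrimePosCoprime`, `induction_on_primes`).) -/
lemma bc_eq_sum {q : ℕ} (hq : Squarefree q) (n : ℤ) :
    bc q n = ∑ d ∈ q.divisors.filter (fun d : ℕ => (d : ℤ) ∣ n),
      ((ArithmeticFunction.moebius d : ℤ) : ℝ) * d / (q.totient : ℝ) := by
  have h1 := (RamA_g_mult n).prodPrimeFactors_one_add_of_squarefree hq
  rw [← sum_div, sum_filter]
  have h2 : ∑ d ∈ q.divisors, (if (d : ℤ) ∣ n then ((ArithmeticFunction.moebius d : ℤ) : ℝ) * d else 0) =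
      ∏ p ∈ q.primeFactors, (1 + RamA_g n p) := by
    rw [h1]; rfl
  rw [h2, RamA_totient hq, ← prod_div_distrib]
  unfold bc
  apply prod_congr rfl
  intro p hp
  have hp2 := RamA_two_le hp
  have hpp := Nat.prime_of_mem_primeFactors hp
  rw [RamA_g_apply]
  have h3 : (p : ℝ) - 1 ≠ 0 := by linarith
  by_cases h : (p : ℤ) ∣ n
  · rw [if_pos h, if_pos h, ArithmeticFunction.moebius_apply_prime hpp]
    field_simp
    push_cast
    ring
  · rw [if_neg h, if_neg h, add_zero]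

lemma RamA_gcd_dvd {q : ℕ} (n : ℤ) (d : ℕ) : d ∣ q.gcd n.natAbs ↔ d ∣ q ∧ (d : ℤ) ∣ n := by
  rw [Nat.dvd_gcd_iff, ← Int.natCast_dvd]

lemma RamA_split {q : ℕ} (hq : Squarefree q) (n : ℤ) :
    q = q.gcd n.natAbs * (q / q.gcd n.natAbs) ∧ (q.gcd n.natAbs).Coprime (q / q.gcd n.natAbs) := by
  have h1 : q = q.gcd n.natAbs * (q / q.gcd n.natAbs) :=
    (Nat.mul_div_cancel' (Nat.gcd_dvd_left _ _)).symm
  refine ⟨h1, ?_⟩
  have h2 : Squarefree (q.gcd n.natAbs * (q / q.gcd n.natAbs)) := by rw [← h1]; exact hq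
  exact (Nat.squarefree_mul_iff.1 h2).1

/-- `|b_q c_q(n)| = 1 / φ(q / (q, n))` -/
lemma abs_bc_eq {q : ℕ} (hq : Squarefree q) (n : ℤ) :
    |bc q n| = 1 / ((q / q.gcd n.natAbs).totient : ℝ) := by
  obtain ⟨h1, h2⟩ := RamA_split hq n
  set g := q.gcd n.natAbs with hg
  set r := q / g with hr
  have hrs : Squarefree r := by
    apply hq.squarefree_of_dvd
    rw [h1]; exact dvd_mul_left _ _
  have hb : bc q n = bc g n * bc r n := by
    conv_lhs => rw [h1]
    exact bc_mul h2 n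
  have hbg : |bc g n| = 1 := by
    unfold bc
    rw [abs_prod]
    apply prod_eq_one
    intro p hp
    have h3 : (p : ℤ) ∣ n := ((RamA_gcd_dvd n p).1 (Nat.dvd_of_mem_primeFactors hp)).2
    rw [if_pos h3, abs_neg, abs_one]
  have hbr : bc r n = 1 / (r.totient : ℝ) := by
    unfold bc
    rw [RamA_totient hrs, one_div, ← prod_inv_distrib]
    apply prod_congr rfl
    intro p hp
    have hpr : p ∣ r := Nat.dvd_of_mem_primeFactors hp
    have hpp := Nat.prime_of_mem_primeFactors hp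
    have h3 : ¬ (p : ℤ) ∣ n := by
      intro h4
      have h5 : p ∣ g := (RamA_gcd_dvd n p).2 ⟨by rw [h1]; exact hpr.mul_left _, h4⟩
      have h6 := Nat.dvd_gcd h5 hpr
      rw [Nat.coprime_iff_gcd_eq_one.1 h2] at h6
      exact hpp.one_lt.ne' (Nat.dvd_one.1 h6)
    rw [if_neg h3, one_div]
  rw [hb, abs_mul, hbg, one_mul, hbr, abs_of_nonneg (by positivity)]

/-- upper bound for `|b_q c_q(n)|` by a divisor sum (`φ(d) = ∏ (p - 1) ≥ ∏ (p - 2)`) -/
lemma abs_bc_le_sum {q : ℕ} (hq : Squarefree q) (n : ℤ) :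
    |bc q n| ≤ ∑ d ∈ q.divisors.filter (fun d : ℕ => (d : ℤ) ∣ n),
      (d.totient : ℝ) / (q.totient : ℝ) := by
  have hq0 : q ≠ 0 := hq.ne_zero
  obtain ⟨h1, h2⟩ := RamA_split hq n
  have hf : q.divisors.filter (fun d : ℕ => (d : ℤ) ∣ n) = (q.gcd n.natAbs).divisors := by
    ext d
    rw [mem_filter, Nat.mem_divisors, Nat.mem_divisors, RamA_gcd_dvd]
    constructor
    · rintro ⟨⟨h3, _⟩, h4⟩
      exact ⟨⟨h3, h4⟩, Nat.gcd_ne_zero_left hq0⟩
    · rintro ⟨⟨h3, h4⟩, _⟩
      exact ⟨⟨h3, hq0⟩, h4⟩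
  rw [hf, ← sum_div, abs_bc_eq hq]
  have h3 : ∑ d ∈ (q.gcd n.natAbs).divisors, (d.totient : ℝ) = (q.gcd n.natAbs : ℝ) := by
    exact_mod_cast Nat.sum_totient (q.gcd n.natAbs)
  rw [h3]
  set g := q.gcd n.natAbs with hg
  set r := q / g with hr
  have hr0 : 0 < r.totient := by
    apply Nat.totient_pos.2
    rcases Nat.eq_zero_or_pos r with h | h
    · rw [h, mul_zero] at h1; exact absurd h1 hq0
    · exact h
  have hg0 : 0 < g.totient := by
    apply Nat.totient_pos.2
    exact Nat.pos_of_ne_zero (Nat.gcd_ne_zero_left hq0)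
  have h4 : (q.totient : ℝ) = g.totient * r.totient := by
    have : q.totient = g.totient * r.totient := by
      conv_lhs => rw [h1]
      exact Nat.totient_mul h2
    rw [this]; push_cast; rfl
  have h5 : (g.totient : ℝ) ≤ g := by exact_mod_cast Nat.totient_le g
  have hr0' : (0 : ℝ) < r.totient := by exact_mod_cast hr0
  have hg0' : (0 : ℝ) < g.totient := by exact_mod_cast hg0
  rw [h4, div_le_div_iff₀ hr0' (by positivity)]
  nlinarith

lemma abs_bq {q : ℕ} (hq : Squarefree q) : |bq q| = 1 / (q.totient : ℝ) := by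
  unfold bq
  rw [abs_div, ← Int.cast_abs, ArithmeticFunction.abs_moebius_eq_one_of_squarefree hq,
    Int.cast_one, abs_of_nonneg (by positivity)]

/-- the Ramanujan sum with integer argument -/
noncomputable def RamA_S (q : ℕ) (n : ℤ) : ℂ :=
  ∑ a ∈ (range q).filter (fun a => a.Coprime q), e ((a : ℝ) * n / q)

lemma RamA_sum_S (m : ℤ) (n : ℕ) (hn : 0 < n) :
    ∑ d ∈ n.divisors, RamA_S d m = ∑ b ∈ range n, e ((b : ℝ) * m / n) := by
  have hmaps : ∀ b ∈ range n, n / Nat.gcd b n ∈ n.divisors := by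
    intro b _
    rw [Nat.mem_divisors]
    exact ⟨Nat.div_dvd_of_dvd (Nat.gcd_dvd_right b n), hn.ne'⟩
  rw [← sum_fiberwise_of_maps_to hmaps]
  apply sum_congr rfl; intro d hd
  rw [Nat.mem_divisors] at hd
  obtain ⟨⟨k, hk⟩, _⟩ := hd
  have hd0 : 0 < d := Nat.pos_of_ne_zero (by rintro rfl; simp at hk; omega)
  have hk0 : 0 < k := Nat.pos_of_ne_zero (by rintro rfl; simp at hk; omega)
  unfold RamA_S
  apply sum_bij (fun (b : ℕ) _ => b * k)
  · intro b hb
    rw [mem_filter, mem_range] at hb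
    rw [mem_filter, mem_range]
    refine ⟨?_, ?_⟩
    · rw [hk]; exact Nat.mul_lt_mul_of_pos_right hb.1 hk0
    · have : Nat.gcd (b * k) n = k := by
        rw [hk, Nat.gcd_mul_right]
        have := hb.2
        unfold Nat.Coprime at this
        rw [this, one_mul]
      rw [this, hk, Nat.mul_div_cancel _ hk0]
  · intro b _ b' _ h
    exact Nat.eq_of_mul_eq_mul_right hk0 h
  · intro b hb
    rw [mem_filter, mem_range] at hb
    have hg : Nat.gcd b n = k := by
      have h1 : Nat.gcd b n ∣ n := Nat.gcd_dvd_right b n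
      have h2 : n = n / Nat.gcd b n * Nat.gcd b n := (Nat.div_mul_cancel h1).symm
      rw [hb.2] at h2
      rw [hk] at h2
      have h3 : d * k = d * Nat.gcd b n := by
        rw [← hk] at h2
        rw [← hk]
        exact h2
      exact (Nat.eq_of_mul_eq_mul_left hd0 h3).symm
    obtain ⟨c, hc⟩ : k ∣ b := hg ▸ Nat.gcd_dvd_left b n
    refine ⟨c, ?_, by rw [hc]; ring⟩
    rw [mem_filter, mem_range]
    refine ⟨?_, ?_⟩
    · have : k * c < k * d := by rw [← hc, mul_comm k d, ← hk]; exact hb.1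
      exact Nat.lt_of_mul_lt_mul_left this
    · unfold Nat.Coprime
      have h4 : k * Nat.gcd c d = k := by
        rw [← Nat.gcd_mul_left, ← hc, mul_comm k d, ← hk]
        exact hg
      exact Nat.eq_of_mul_eq_mul_left hk0 (by rw [h4, mul_one])
  · intro b _
    congr 1
    rw [hk]
    push_cast
    have : (k : ℝ) ≠ 0 := by positivity
    have : (d : ℝ) ≠ 0 := by positivity
    field_simp

lemma RamA_complete (m : ℤ) (n : ℕ) (hn : 0 < n) :
    ∑ b ∈ range n, e ((b : ℝ) * m / n) = if (n : ℤ) ∣ m then (n : ℂ) else 0 := by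
  have hn' : (n : ℝ) ≠ 0 := by positivity
  have h0 : ∀ b ∈ range n, e ((b : ℝ) * m / n) = (e ((m : ℝ) / n)) ^ b := by
    intro b _
    rw [← e_nat_mul, mul_div_assoc]
  rw [sum_congr rfl h0]
  by_cases h : (n : ℤ) ∣ m
  · rw [if_pos h]
    obtain ⟨k, hk⟩ := h
    have h1 : (m : ℝ) / n = (k : ℝ) := by
      rw [hk]; push_cast; field_simp
    rw [h1, e_int]
    simp
  · rw [if_neg h]
    have h1 : e ((m : ℝ) / n) ≠ 1 := by
      intro h2
      rw [e_eq_one_iff] at h2
      obtain ⟨k, hk⟩ := h2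
      apply h
      refine ⟨k, ?_⟩
      have h3 : (m : ℝ) = n * k := by
        rw [div_eq_iff hn'] at hk
        rw [hk]; ring
      exact_mod_cast h3
    rw [geom_sum_eq h1]
    have h2 : e ((m : ℝ) / n) ^ n = 1 := by
      rw [← e_nat_mul, mul_div_cancel₀ _ hn', e_int]
    rw [h2, sub_self, zero_div]

lemma RamA_S_eq (m : ℤ) (q : ℕ) (hq : 0 < q) : RamA_S q m = ∑ x ∈ q.divisorsAntidiagonal,
    ((ArithmeticFunction.moebius x.1 : ℤ) : ℂ) * (if (x.2 : ℤ) ∣ m then (x.2 : ℂ) else 0) := by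
  have h : ∀ n > 0, ∑ i ∈ n.divisors, (fun d => RamA_S d m) i =
      (fun n : ℕ => if (n : ℤ) ∣ m then (n : ℂ) else 0) n := by
    intro n hn
    simp only
    rw [RamA_sum_S m n hn, RamA_complete m n hn]
  have h2 := (ArithmeticFunction.sum_eq_iff_sum_mul_moebius_eq
    (f := fun d => RamA_S d m) (g := fun n : ℕ => if (n : ℤ) ∣ m then (n : ℂ) else 0)).1 h q hq
  exact h2.symm

/-- `b_q c_q(n)` as an exponential sum: for squarefree `q`,
`bc q n = b_q ∑_{a mod q, (a, q) = 1} e(a n / q)`. Induction on the prime factors with `bc_mul`, `bq_mul`: for a prime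
`∑_{a=1}^{p-1} e(a n / p) = p - 1` or `-1`, and `c_{q r} = c_q c_r` for coprime `q, r` by the Chinese remainder
theorem; alternatively `∑_{(a, q) = 1} e(a n / q) = ∑_{d ∣ q} μ(q / d) d [d ∣ n]` and `bc_eq_sum`. -/
lemma bc_exp {q : ℕ} (hq : Squarefree q) (n : ℤ) :
    (bc q n : ℂ) = (bq q : ℂ) * ∑ a ∈ (range q).filter (fun a => a.Coprime q),
      e ((a : ℝ) * n / q) := by
  have hq0 : 0 < q := Nat.pos_of_ne_zero hq.ne_zero
  have h1 := RamA_S_eq n q hq0
  rw [Nat.sum_divisorsAntidiagonal' (f := fun x y : ℕ => ((ArithmeticFunction.moebius x : ℤ) : ℂ) *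
    (if (y : ℤ) ∣ n then (y : ℂ) else 0))] at h1
  unfold RamA_S at h1
  rw [h1, bc_eq_sum hq, sum_filter, mul_sum]
  push_cast
  apply sum_congr rfl
  intro d hd
  rw [Nat.mem_divisors] at hd
  have hdq : q = d * (q / d) := (Nat.mul_div_cancel' hd.1).symm
  have hsq : Squarefree (d * (q / d)) := by rw [← hdq]; exact hq
  obtain ⟨hc, _, hs2⟩ := Nat.squarefree_mul_iff.1 hsq
  have hmu : ArithmeticFunction.moebius q =
      ArithmeticFunction.moebius d * ArithmeticFunction.moebius (q / d) := by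
    conv_lhs => rw [hdq]
    exact ArithmeticFunction.isMultiplicative_moebius.map_mul_of_coprime hc
  have hmu2 : ArithmeticFunction.moebius (q / d) * ArithmeticFunction.moebius (q / d) = 1 := by
    rw [← sq]
    exact ArithmeticFunction.moebius_sq_eq_one_of_squarefree hs2
  have hmu3 : ((ArithmeticFunction.moebius (q / d) : ℤ) : ℂ) *
      ((ArithmeticFunction.moebius (q / d) : ℤ) : ℂ) = 1 := by exact_mod_cast hmu2
  unfold bq
  by_cases h : (d : ℤ) ∣ n
  · rw [if_pos h, if_pos h, hmu]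
    push_cast
    linear_combination (-(((ArithmeticFunction.moebius d : ℤ) : ℂ) * (d : ℂ) /
      (q.totient : ℂ))) * hmu3
  · rw [if_neg h, if_neg h]
    simp

end Pool.Agent.Lib.MP_2a816b_nt.BH
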