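import Pool.Agent.Lib.MP_2a816b_nt.BH.Par
import Pool.Agent.Lib.MP_2a816b_nt.BH.LSb
import Pool.Agent.Lib.MP_2a816b_nt.BH.RedB

/-!
# JOB Sub: bilinear sums with a proper subset of the prime ranges (level below one half)

`I` is a nonempty proper subset of the six indices. The elements of `Q = ∏_{i ∈ I} PS X i` are squarefree, in `[X ^ s, T X ^ s]` with `s = exs I`, and
`1 / 100 ≤ s ≤ 5005 / 10000 - 1 / 100 = 0.4905` (the smallest exponent is `1/100`). Apply `ls_full` with `Q₁ = ⌈X ^ s⌉ - 1`, `Q₂ = ⌊T X ^ s⌋`, `G₀ = ⌊X ^ (1/1000)⌋`, `γ = 1`, `M = ⌊X ^ 10⌋`.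
With `K L ≤ 16 X`, `L ≤ X ^ 0.502`, `1 ≤ |j| ≤ X ^ (1/10^6)`:
`K ^ 2 L ≤ (16 X) ^ 2 / L`, `L ≥ X ^ 0.33`;  `K Q₂ ^ 2 L ≤ 16 X T ^ 2 X ^ 0.981`; `K ^ 2 L ^ 2 |j| G₀ / Q₁ ≤ 2 (16 X) ^ 2 X ^ (0.001 + 10^-6 - 0.01)`;
`K L ^ 2 Q₂ ^ 2 |j| G₀ / Q₁ ≤ 16 X L T ^ 2 2 X ^ s X ^ (0.001 + 10^-6) ≤ 32 T ^ 2 X ^ (1 + 0.502 + 0.4905 + 0.0011)`. The square root of the sum is `≤ X ^ (1 - 0.002)` with room to spare, and
`T ^ 4 |j| K L / G₀ ≤ X ^ (1 - 0.0009)`.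
-/

set_option autoImplicit false

open Finset Real
open scoped Pointwise

namespace Pool.Agent.Lib.MP_2a816b_nt.BH

variable {X T C : ℝ}

private lemma sub_ex_ge (i : Fin 6) : (1 / 100 : ℝ) ≤ ex i := by
  fin_cases i <;> simp [ex] <;> norm_num

private lemma sub_exs (I : Finset (Fin 6)) (hI : I.Nonempty) (hI' : I ≠ univ) :
    1 / 100 ≤ exs I ∧ exs I ≤ 4905 / 10000 := by
  constructor
  · obtain ⟨i, hi⟩ := hI
    have h1 : ex i ≤ exs I :=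
      Finset.single_le_sum (f := ex) (fun i _ => by have := sub_ex_ge i; linarith) hi
    have := sub_ex_ge i
    linarith
  · obtain ⟨i, hi⟩ : ∃ i, i ∉ I := by
      by_contra h
      push Not at h
      exact hI' (Finset.eq_univ_iff_forall.2 h)
    have h1 : exs (insert i I) ≤ exs univ := by
      apply Finset.sum_le_sum_of_subset_of_nonneg (Finset.subset_univ _)
      intro i _ _
      have := sub_ex_ge i
      linarith
    have h2 : exs (insert i I) = ex i + exs I := by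
      unfold exs
      exact Finset.sum_insert hi
    rw [h2, exs_univ] at h1
    have := sub_ex_ge i
    linarith

/-- the numerical inequality -/
private lemma sub_num (X T s k l A g q1 q2 : ℝ) (hX1 : 1 < X) (hT : T = X ^ (1 / 10 ^ 7 : ℝ))
    (hT10 : 10 ^ 10 ≤ T) (hs1 : 1 / 100 ≤ s) (hs2 : s ≤ 4905 / 10000) (hk : 0 ≤ k)
    (hl1 : X ^ (33 / 100 : ℝ) ≤ l) (hl2 : l ≤ X ^ (502 / 1000 : ℝ)) (hkl : k * l ≤ 16 * X)
    (hA0 : 0 ≤ A) (hA : A ≤ X ^ (1 / 10 ^ 6 : ℝ)) (hg1 : X ^ (1 / 1000 : ℝ) / 2 ≤ g)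
    (hg2 : g ≤ X ^ (1 / 1000 : ℝ)) (hq1 : X ^ s / 2 ≤ q1) (hq20 : 0 ≤ q2) (hq2 : q2 ≤ T * X ^ s) :
    T ^ 2 * A * √(9 * k * (k + 1 + q2 ^ 2) * (T ^ 3 * l + 4 * T ^ 3 * A * l ^ 2 * g / q1)) +
      T ^ 4 * A * (k * l) / g ≤ X ^ (1 - 8 / 10000 : ℝ) := by
  have hX0 : 0 < X := by linarith
  have hT1 : 1 ≤ T := by linarith [(by norm_num : (1 : ℝ) ≤ 10 ^ 10)]
  have hT0 : 0 < T := by linarith
  have hadd : ∀ a b : ℝ, X ^ a * X ^ b = X ^ (a + b) := fun a b => (Real.rpow_add hX0 a b).symm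
  have hle : ∀ a b : ℝ, a ≤ b → X ^ a ≤ X ^ b := fun a b h =>
    Real.rpow_le_rpow_of_exponent_le hX1.le h
  have hpos : ∀ a : ℝ, 0 < X ^ a := fun a => Real.rpow_pos_of_pos hX0 a
  have hTn : ∀ n : ℕ, T ^ n = X ^ ((n : ℝ) * (1 / 10 ^ 7)) := by
    intro n
    rw [hT, ← Real.rpow_natCast, ← Real.rpow_mul hX0.le]
    congr 1
    ring
  have hX1' : X = X ^ (1 : ℝ) := (Real.rpow_one X).symm
  have hX2' : X ^ 2 = X ^ (2 : ℝ) := by rw [← Real.rpow_natCast]; norm_num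
  have hl0 : 0 < l := lt_of_lt_of_le (hpos _) hl1
  have hg0 : 0 < g := lt_of_lt_of_le (by have := hpos (1 / 1000); linarith) hg1
  have hq10 : 0 < q1 := lt_of_lt_of_le (by have := hpos s; linarith) hq1
  have hkl0 : 0 ≤ k * l := mul_nonneg hk hl0.le
  -- basic bounds
  have hq2sq : q2 ^ 2 ≤ T ^ 2 * X ^ (2 * s) := by
    have h1 : q2 ^ 2 ≤ (T * X ^ s) ^ 2 := pow_le_pow_left₀ hq20 hq2 2
    have h2 : (T * X ^ s) ^ 2 = T ^ 2 * X ^ (2 * s) := by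
      rw [mul_pow, sq (X ^ s), hadd]
      ring_nf
    rwa [h2] at h1
  have hklsq : (k * l) ^ 2 ≤ 256 * X ^ (2 : ℝ) := by
    have h1 : (k * l) ^ 2 ≤ (16 * X) ^ 2 := pow_le_pow_left₀ hkl0 hkl 2
    have h2 : (16 * X) ^ 2 = 256 * X ^ (2 : ℝ) := by
      rw [mul_pow, hX2']
      norm_num
    rwa [h2] at h1
  have hT2 : 1 ≤ T ^ 2 := one_le_pow₀ hT1
  -- first part
  have hp1 : k * (k + 1 + q2 ^ 2) * l ≤ 288 * T ^ 2 * X ^ (1981 / 1000 : ℝ) := by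
    have e : k * (k + 1 + q2 ^ 2) * l = k ^ 2 * l + k * l + k * l * q2 ^ 2 := by ring
    rw [e]
    have a1 : k ^ 2 * l ≤ 256 * X ^ (1981 / 1000 : ℝ) := by
      have h1 : k ^ 2 * l * X ^ (33 / 100 : ℝ) ≤ (k * l) ^ 2 := by
        have : k ^ 2 * l * X ^ (33 / 100 : ℝ) ≤ k ^ 2 * l * l :=
          mul_le_mul_of_nonneg_left hl1 (by positivity)
        nlinarith
      have h2 : k ^ 2 * l * X ^ (33 / 100 : ℝ) ≤ 256 * X ^ (1981 / 1000 : ℝ) * X ^ (33 / 100 : ℝ) := by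
        rw [mul_assoc 256, hadd]
        have := hle 2 (1981 / 1000 + 33 / 100) (by norm_num)
        linarith
      exact le_of_mul_le_mul_right h2 (hpos _)
    have a2 : k * l ≤ 16 * X ^ (1981 / 1000 : ℝ) := by
      have := hle 1 (1981 / 1000) (by norm_num)
      rw [← hX1'] at this
      linarith
    have a3 : k * l * q2 ^ 2 ≤ 16 * T ^ 2 * X ^ (1981 / 1000 : ℝ) := by
      calc k * l * q2 ^ 2 ≤ (16 * X) * (T ^ 2 * X ^ (2 * s)) :=
            mul_le_mul hkl hq2sq (by positivity) (by positivity)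
        _ = 16 * T ^ 2 * (X ^ (1 : ℝ) * X ^ (2 * s)) := by rw [← hX1']; ring
        _ ≤ 16 * T ^ 2 * X ^ (1981 / 1000 : ℝ) := by
            rw [hadd]
            exact mul_le_mul_of_nonneg_left (hle _ _ (by linarith)) (by positivity)
    have a4 : X ^ (1981 / 1000 : ℝ) ≤ T ^ 2 * X ^ (1981 / 1000 : ℝ) :=
      le_mul_of_one_le_left (hpos _).le hT2
    nlinarith
  -- second part
  have hgq : g / q1 ≤ 2 * X ^ (1 / 1000 - s) := by
    rw [div_le_iff₀ hq10]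
    calc g ≤ X ^ (1 / 1000 : ℝ) := hg2
      _ = 2 * X ^ (1 / 1000 - s) * (X ^ s / 2) := by
          have := hadd (1 / 1000 - s) s
          rw [show (1 / 1000 - s + s : ℝ) = 1 / 1000 by ring] at this
          linarith
      _ ≤ 2 * X ^ (1 / 1000 - s) * q1 :=
          mul_le_mul_of_nonneg_left hq1 (by have := hpos (1 / 1000 - s); linarith)
  have hgq0 : 0 ≤ g / q1 := by positivity
  have hp2 : k * (k + 1 + q2 ^ 2) * l ^ 2 * (g / q1) ≤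
      576 * T ^ 2 * X ^ (19935 / 10000 : ℝ) := by
    have e : k * (k + 1 + q2 ^ 2) * l ^ 2 = (k * l) ^ 2 + k * l * l + k * l * l * q2 ^ 2 := by ring
    have b1 : k * (k + 1 + q2 ^ 2) * l ^ 2 ≤ 256 * X ^ (2 : ℝ) + 16 * X ^ (1502 / 1000 : ℝ) +
        16 * T ^ 2 * X ^ (1502 / 1000 + 2 * s) := by
      rw [e]
      have c1 : k * l * l ≤ 16 * X ^ (1502 / 1000 : ℝ) := by
        calc k * l * l ≤ (16 * X) * X ^ (502 / 1000 : ℝ) :=
              mul_le_mul hkl hl2 hl0.le (by positivity)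
          _ = 16 * (X ^ (1 : ℝ) * X ^ (502 / 1000 : ℝ)) := by rw [← hX1']; ring
          _ = 16 * X ^ (1502 / 1000 : ℝ) := by rw [hadd]; norm_num
      have c2 : k * l * l * q2 ^ 2 ≤ 16 * T ^ 2 * X ^ (1502 / 1000 + 2 * s) := by
        calc k * l * l * q2 ^ 2 ≤ (16 * X ^ (1502 / 1000 : ℝ)) * (T ^ 2 * X ^ (2 * s)) :=
              mul_le_mul c1 hq2sq (by positivity) (by have := hpos (1502 / 1000); positivity)
          _ = 16 * T ^ 2 * (X ^ (1502 / 1000 : ℝ) * X ^ (2 * s)) := by ring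
          _ = 16 * T ^ 2 * X ^ (1502 / 1000 + 2 * s) := by rw [hadd]
      linarith
    calc k * (k + 1 + q2 ^ 2) * l ^ 2 * (g / q1) ≤
        (256 * X ^ (2 : ℝ) + 16 * X ^ (1502 / 1000 : ℝ) +
          16 * T ^ 2 * X ^ (1502 / 1000 + 2 * s)) * (2 * X ^ (1 / 1000 - s)) := by
          apply mul_le_mul b1 hgq hgq0
          have := hpos 2
          have := hpos (1502 / 1000)
          have := hpos (1502 / 1000 + 2 * s)
          positivity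
      _ = 512 * (X ^ (2 : ℝ) * X ^ (1 / 1000 - s)) +
          32 * (X ^ (1502 / 1000 : ℝ) * X ^ (1 / 1000 - s)) +
          32 * T ^ 2 * (X ^ (1502 / 1000 + 2 * s) * X ^ (1 / 1000 - s)) := by ring
      _ ≤ 512 * X ^ (19935 / 10000 : ℝ) + 32 * X ^ (19935 / 10000 : ℝ) +
          32 * T ^ 2 * X ^ (19935 / 10000 : ℝ) := by
          rw [hadd, hadd, hadd]
          have d1 := hle (2 + (1 / 1000 - s)) (19935 / 10000) (by linarith)
          have d2 := hle (1502 / 1000 + (1 / 1000 - s)) (19935 / 10000) (by linarith)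
          have d3 := hle (1502 / 1000 + 2 * s + (1 / 1000 - s)) (19935 / 10000) (by linarith)
          have d4 : 32 * T ^ 2 * X ^ (1502 / 1000 + 2 * s + (1 / 1000 - s)) ≤
              32 * T ^ 2 * X ^ (19935 / 10000 : ℝ) :=
            mul_le_mul_of_nonneg_left d3 (by positivity)
          linarith
      _ ≤ 576 * T ^ 2 * X ^ (19935 / 10000 : ℝ) := by
          have a4 : X ^ (19935 / 10000 : ℝ) ≤ T ^ 2 * X ^ (19935 / 10000 : ℝ) :=
            le_mul_of_one_le_left (hpos _).le hT2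
          nlinarith
  -- the expression under the root
  have hin : 9 * k * (k + 1 + q2 ^ 2) * (T ^ 3 * l + 4 * T ^ 3 * A * l ^ 2 * g / q1) ≤
      (X ^ (9967508 / 10000000 : ℝ)) ^ 2 := by
    have e : 9 * k * (k + 1 + q2 ^ 2) * (T ^ 3 * l + 4 * T ^ 3 * A * l ^ 2 * g / q1) =
        9 * T ^ 3 * (k * (k + 1 + q2 ^ 2) * l) +
        36 * T ^ 3 * A * (k * (k + 1 + q2 ^ 2) * l ^ 2 * (g / q1)) := by ring
    rw [e]
    have f1 : 9 * T ^ 3 * (k * (k + 1 + q2 ^ 2) * l) ≤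
        9 * T ^ 3 * (288 * T ^ 2 * X ^ (1981 / 1000 : ℝ)) :=
      mul_le_mul_of_nonneg_left hp1 (by positivity)
    have f2 : 36 * T ^ 3 * A * (k * (k + 1 + q2 ^ 2) * l ^ 2 * (g / q1)) ≤
        36 * T ^ 3 * X ^ (1 / 10 ^ 6 : ℝ) * (576 * T ^ 2 * X ^ (19935 / 10000 : ℝ)) := by
      apply mul_le_mul _ hp2 _ _
      · exact mul_le_mul_of_nonneg_left hA (by positivity)
      · positivity
      · have := hpos (1 / 10 ^ 6)
        positivity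
    have f3 : 36 * T ^ 3 * X ^ (1 / 10 ^ 6 : ℝ) * (576 * T ^ 2 * X ^ (19935 / 10000 : ℝ)) =
        20736 * T ^ 5 * X ^ (1 / 10 ^ 6 + 19935 / 10000 : ℝ) := by
      rw [← hadd]; ring
    have f4 : 9 * T ^ 3 * (288 * T ^ 2 * X ^ (1981 / 1000 : ℝ)) ≤
        2592 * T ^ 5 * X ^ (1 / 10 ^ 6 + 19935 / 10000 : ℝ) := by
      have : 9 * T ^ 3 * (288 * T ^ 2 * X ^ (1981 / 1000 : ℝ)) =
          2592 * T ^ 5 * X ^ (1981 / 1000 : ℝ) := by ring
      rw [this]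
      exact mul_le_mul_of_nonneg_left (hle _ _ (by norm_num)) (by positivity)
    have f5 : (X ^ (9967508 / 10000000 : ℝ)) ^ 2 =
        T ^ 6 * X ^ (1 / 10 ^ 6 + 19935 / 10000 : ℝ) := by
      rw [hTn 6, hadd, sq, hadd]
      congr 1
      norm_num
    rw [f5]
    have f6 : 23328 * T ^ 5 ≤ T ^ 6 := by
      have : T ^ 6 = T * T ^ 5 := by ring
      rw [this]
      exact mul_le_mul_of_nonneg_right (by linarith [(by norm_num : (23328 : ℝ) ≤ 10 ^ 10)])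
        (by positivity)
    have f7 : 23328 * T ^ 5 * X ^ (1 / 10 ^ 6 + 19935 / 10000 : ℝ) ≤
        T ^ 6 * X ^ (1 / 10 ^ 6 + 19935 / 10000 : ℝ) :=
      mul_le_mul_of_nonneg_right f6 (hpos _).le
    linarith
  have hsq : √(9 * k * (k + 1 + q2 ^ 2) * (T ^ 3 * l + 4 * T ^ 3 * A * l ^ 2 * g / q1)) ≤
      X ^ (9967508 / 10000000 : ℝ) := by
    rw [Real.sqrt_le_left (hpos _).le]
    exact hin
  have hfirst : T ^ 2 * A * √(9 * k * (k + 1 + q2 ^ 2) *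
      (T ^ 3 * l + 4 * T ^ 3 * A * l ^ 2 * g / q1)) ≤ X ^ (9990015 / 10000000 : ℝ) := by
    calc T ^ 2 * A * √(9 * k * (k + 1 + q2 ^ 2) *
        (T ^ 3 * l + 4 * T ^ 3 * A * l ^ 2 * g / q1))
        ≤ T ^ 2 * X ^ (1 / 10 ^ 6 : ℝ) * X ^ (9967508 / 10000000 : ℝ) := by
          apply mul_le_mul _ hsq (Real.sqrt_nonneg _) _
          · exact mul_le_mul_of_nonneg_left hA (by positivity)
          · have := hpos (1 / 10 ^ 6)
            positivity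
      _ = X ^ (((2 : ℕ) : ℝ) * (1 / 10 ^ 7) + 1 / 10 ^ 6 + 9967508 / 10000000 : ℝ) := by
          rw [hTn 2, hadd, hadd]
      _ ≤ X ^ (9990015 / 10000000 : ℝ) := hle _ _ (by norm_num)
  have hsecond : T ^ 4 * A * (k * l) / g ≤ X ^ (9990015 / 10000000 : ℝ) := by
    rw [div_le_iff₀ hg0]
    calc T ^ 4 * A * (k * l) ≤ T ^ 4 * X ^ (1 / 10 ^ 6 : ℝ) * (16 * X) := by
          apply mul_le_mul _ hkl hkl0 _
          · exact mul_le_mul_of_nonneg_left hA (by positivity)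
          · have := hpos (1 / 10 ^ 6)
            positivity
      _ = 16 * T ^ 4 * (X ^ (1 / 10 ^ 6 : ℝ) * X ^ (1 : ℝ)) := by rw [← hX1']; ring
      _ ≤ (T / 2) * T ^ 4 * (X ^ (1 / 10 ^ 6 : ℝ) * X ^ (1 : ℝ)) := by
          apply mul_le_mul_of_nonneg_right _ (mul_nonneg (hpos _).le (hpos _).le)
          apply mul_le_mul_of_nonneg_right _ (by positivity)
          linarith [(by norm_num : (32 : ℝ) ≤ 10 ^ 10)]
      _ = T ^ 5 * (X ^ (1 / 10 ^ 6 : ℝ) * X ^ (1 : ℝ)) / 2 := by ring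
      _ = X ^ (9990015 / 10000000 : ℝ) * (X ^ (1 / 1000 : ℝ) / 2) := by
          rw [← mul_div_assoc, hTn 5, hadd, hadd, hadd]
          congr 2
          norm_num
      _ ≤ X ^ (9990015 / 10000000 : ℝ) * g := mul_le_mul_of_nonneg_left hg1 (hpos _).le
  calc _ ≤ X ^ (9990015 / 10000000 : ℝ) + X ^ (9990015 / 10000000 : ℝ) :=
        add_le_add hfirst hsecond
    _ = 2 * X ^ (9990015 / 10000000 : ℝ) := by ring
    _ ≤ T * X ^ (9990015 / 10000000 : ℝ) := by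
        apply mul_le_mul_of_nonneg_right _ (hpos _).le
        linarith [(by norm_num : (2 : ℝ) ≤ 10 ^ 10)]
    _ = X ^ (1 / 10 ^ 7 + 9990015 / 10000000 : ℝ) := by rw [hT, hadd]
    _ ≤ X ^ (1 - 8 / 10000 : ℝ) := hle _ _ (by norm_num)

theorem sub_bil (hX : Lg X T C) (I : Finset (Fin 6)) (hI : I.Nonempty) (hI' : I ≠ univ)
    (j : ℤ) (hj : j ≠ 0) (hjX : |(j : ℝ)| ≤ X ^ eps4) (K L : ℕ) (S : Finset ℕ)
    (hS : ∀ l ∈ S, X ^ (33 / 100 : ℝ) ≤ (l : ℝ) ∧ l ≤ L)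
    (hKL : (K : ℝ) * L ≤ 16 * X) (hL : (L : ℝ) ≤ X ^ (502 / 1000 : ℝ)) :
    Bil (fun n => FQ (∏ i ∈ I, PS X i) (n + j)) K S (X ^ (1 - 8 / 10000 : ℝ)) := by
  intro α β hα hβ
  obtain ⟨hs1, hs2⟩ := sub_exs I hI hI'
  set s := exs I with hs
  have hT : T = X ^ (1 / 10 ^ 7 : ℝ) := hX.hT
  have hT10 := hX.h10
  have hX0 : 0 < X := lt_of_lt_of_le one_pos hX.X1
  have hX1 : 1 < X := by
    rcases hX.X1.lt_or_eq with h | h
    · exact h
    · exfalso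
      rw [← h, Real.one_rpow] at hT
      rw [hT] at hT10
      norm_num at hT10
  have hle : ∀ a b : ℝ, a ≤ b → X ^ a ≤ X ^ b := fun a b h =>
    Real.rpow_le_rpow_of_exponent_le hX1.le h
  have hlt : ∀ a b : ℝ, a < b → X ^ a < X ^ b := fun a b h =>
    Real.rpow_lt_rpow_of_exponent_lt hX1 h
  have hpos : ∀ a : ℝ, 0 < X ^ a := fun a => Real.rpow_pos_of_pos hX0 a
  have hadd : ∀ a b : ℝ, X ^ a * X ^ b = X ^ (a + b) := fun a b => (Real.rpow_add hX0 a b).symm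
  have hX1' : X = X ^ (1 : ℝ) := (Real.rpow_one X).symm
  rcases S.eq_empty_or_nonempty with hSe | ⟨l0, hl0⟩
  · subst hSe
    simp only [Finset.sum_empty, Finset.sum_const_zero, abs_zero]
    exact (hpos _).le
  have hl1 : X ^ (33 / 100 : ℝ) ≤ (L : ℝ) :=
    (hS l0 hl0).1.trans (by exact_mod_cast (hS l0 hl0).2)
  have h1T : T ≤ X ^ (1 / 2 : ℝ) := by rw [hT]; exact hle _ _ (by norm_num)
  have hXbig : 17 ≤ X := by
    have h1 : T ≤ X := by rw [hT]; nth_rewrite 2 [hX1']; exact hle _ _ (by norm_num)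
    linarith [(by norm_num : (17 : ℝ) ≤ 10 ^ 10)]
  -- the parameters
  set Q₁ : ℕ := ⌈X ^ s⌉₊ - 1 with hQ₁
  set Q₂ : ℕ := ⌊T * X ^ s⌋₊ with hQ₂
  set G₀ : ℕ := ⌊X ^ (1 / 1000 : ℝ)⌋₊ with hG₀
  set M : ℕ := ⌊X ^ (10 : ℝ)⌋₊ with hM
  have hXs1 : 1 < X ^ s := by
    have := hlt 0 s (by linarith)
    rwa [Real.rpow_zero] at this
  have hceil : 1 ≤ ⌈X ^ s⌉₊ := Nat.one_le_ceil_iff.2 (hpos _)
  have hG0ge : 1 ≤ G₀ := by
    rw [hG₀]
    apply Nat.le_floor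
    have := hle 0 (1 / 1000) (by norm_num)
    rw [Real.rpow_zero] at this
    exact_mod_cast this
  have hGQ : G₀ ≤ Q₁ := by
    have h1 : (G₀ : ℝ) < X ^ s := by
      calc (G₀ : ℝ) ≤ X ^ (1 / 1000 : ℝ) := Nat.floor_le (hpos _).le
        _ < X ^ s := hlt _ _ (by linarith)
    have h2 : G₀ < ⌈X ^ s⌉₊ := Nat.lt_ceil.2 h1
    omega
  have hTXs : T * X ^ s ≤ X ^ (10 : ℝ) := by
    calc T * X ^ s ≤ X ^ (1 / 2 : ℝ) * X ^ s := mul_le_mul_of_nonneg_right h1T (hpos _).le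
      _ = X ^ (1 / 2 + s) := hadd _ _
      _ ≤ X ^ (10 : ℝ) := hle _ _ (by linarith)
  have hQM : Q₂ ≤ M := Nat.floor_le_floor hTXs
  have hQ : ∀ q ∈ ∏ i ∈ I, PS X i, Squarefree q ∧ Q₁ < q ∧ q ≤ Q₂ := by
    intro q hq
    obtain ⟨h1, h2, h3, -⟩ := mem_prod_PS hX I hq
    refine ⟨h1, ?_, ?_⟩
    · have : ⌈X ^ s⌉₊ ≤ q := Nat.ceil_le.2 h2
      omega
    · exact Nat.le_floor h3
  have hjabs : ((j.natAbs : ℕ) : ℝ) = |(j : ℝ)| := by
    rw [← Int.cast_abs, Int.abs_eq_natAbs]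
    simp
  have hjlt : |(j : ℝ)| < X ^ (33 / 100 : ℝ) :=
    lt_of_le_of_lt hjX (hlt _ _ (by unfold eps4; norm_num))
  have hS' : ∀ l ∈ S, j.natAbs < l ∧ l ≤ L := by
    intro l hl
    refine ⟨?_, (hS l hl).2⟩
    have h1 : ((j.natAbs : ℕ) : ℝ) < (l : ℝ) := by
      rw [hjabs]
      exact lt_of_lt_of_le hjlt (hS l hl).1
    exact_mod_cast h1
  have h17 : 17 * X ≤ X ^ (10 : ℝ) := by
    calc 17 * X ≤ X * X := mul_le_mul_of_nonneg_right hXbig hX0.le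
      _ = X ^ (1 : ℝ) * X ^ (1 : ℝ) := by rw [← hX1']
      _ = X ^ (2 : ℝ) := by rw [hadd]; norm_num
      _ ≤ X ^ (10 : ℝ) := hle _ _ (by norm_num)
  have hKLM : K * L + j.natAbs ≤ M := by
    apply Nat.le_floor
    push_cast
    have h1 : |(j : ℝ)| ≤ X := by
      have h2 : X ^ (33 / 100 : ℝ) ≤ X := by
        nth_rewrite 2 [hX1']
        exact hle _ _ (by norm_num)
      linarith
    have h3 : ((j.natAbs : ℕ) : ℝ) ≤ X := by rw [hjabs]; exact h1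
    have h4 : ((j.natAbs : ℕ) : ℝ) = |(j : ℝ)| := hjabs
    have h5 : (K : ℝ) * L + ((j.natAbs : ℕ) : ℝ) ≤ X ^ (10 : ℝ) := by linarith
    simpa using h5
  have hLM : L ≤ M := by
    apply Nat.le_floor
    exact hL.trans (hle _ _ (by norm_num))
  have hmain := ls_full hX.big (∏ i ∈ I, PS X i) Q₁ Q₂ G₀ hG0ge hGQ hQ hQM α β (fun _ => 1)
    hα hβ (fun _ => by simp) K L S j hj hS' hKLM hLM
  have hsumeq : ∑ k ∈ Ioc 0 K, ∑ l ∈ S, α k * β l *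
      (fun n => FQ (∏ i ∈ I, PS X i) (n + j)) ((k : ℤ) * l) =
      ∑ k ∈ Ioc 0 K, ∑ l ∈ S, α k * β l * ∑ q ∈ ∏ i ∈ I, PS X i,
        (fun _ : ℕ => (1 : ℝ)) q * bc q ((k : ℤ) * l + j) := by
    refine Finset.sum_congr rfl fun k _ => Finset.sum_congr rfl fun l _ => ?_
    simp only [FQ, one_mul]
  rw [hsumeq]
  refine hmain.trans ?_
  apply sub_num X T s K L |(j : ℝ)| G₀ Q₁ Q₂ hX1 hT hT10 hs1 hs2 (Nat.cast_nonneg _) hl1 hL hKL
    (abs_nonneg _) hjX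
  · -- g ≥ X^0.001 / 2
    have h1 : X ^ (1 / 1000 : ℝ) < (G₀ : ℝ) + 1 := Nat.lt_floor_add_one _
    have h2 : (1 : ℝ) ≤ G₀ := by exact_mod_cast hG0ge
    linarith
  · exact Nat.floor_le (hpos _).le
  · -- q1
    have h1 : X ^ s ≤ (⌈X ^ s⌉₊ : ℝ) := Nat.le_ceil _
    have h2 : ((Q₁ : ℕ) : ℝ) = (⌈X ^ s⌉₊ : ℝ) - 1 := by
      rw [hQ₁, Nat.cast_sub hceil]; simp
    have h3 : (2 : ℝ) ≤ X ^ s := by
      have h4 : T ≤ X ^ s := by rw [hT]; exact hle _ _ (by norm_num; linarith)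
      linarith [(by norm_num : (2 : ℝ) ≤ 10 ^ 10)]
    rw [h2]
    linarith
  · exact Nat.cast_nonneg _
  · exact Nat.floor_le (by have := hpos s; positivity)

end Pool.Agent.Lib.MP_2a816b_nt.BH
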