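import Pool.Agent.Lib.MP_2a816b_nt.BH.GBil

/-!
# JOB T2: type II sums for `F_{Q2}` with the condition `n₀ < k l ≤ N`

`t2_block`: apply `box` twice, with `Y = N` and `Y = n₀`, `lam = ⌊L₁ / X ^ (1/10^5)⌋` (at least `1`), `K = N / L₁`, `B = X ^ (1 - 3/10^5)`, `B₀ = T ^ 3` (`abs_FQ_le`; `k l + j ≠ 0` since `k l ≥ l > L₁ ≥ |j|`; `box` wants
the bound for all `0 < n ≤ 2 Y`: apply it to `F n = if n ≤ |j| then 0 else FQ (Q2 X) (n + j)`, which has the same bilinear sums as `k l ≥ l > |j|`). Result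
`2 ((X ^ (1/10^5) · 2 + 2) X ^ (1 - 3/10^5) + T ^ 4 (4 X X ^ (-1/10^5) · 2 + 2)) ≤ X ^ (1 - 9 / 10 ^ 6)`.

`t2`: `α` supported on `m ∈ (V₁, V₂]`, `V₁ = ⌊X ^ (1/3)⌋`, `V₂ = ⌊X ^ 0.667⌋`. For `m ≤ X ^ (1/2)`: dyadic blocks `m ∈ (L₁, 2 L₁]` (`l = m`, `k = t`). For `m > X ^ (1/2)`: `t < N / X ^ (1/2) ≤ 4 X ^ (1/2)` and
`t > n₀ / V₂ ≥ X ^ (0.9995 - 0.667) - 1`: dyadic blocks `t ∈ (L₁, 2 L₁]` (`l = t`, `k = m`, `α` restricted to `(X ^ (1/2), V₂]`). At most `T` blocks in total. Bounded coefficients `≤ A`: scale.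
-/

set_option autoImplicit false

open Finset Real
open scoped Pointwise

namespace Pool.Agent.Lib.MP_2a816b_nt.BH

variable {X T C : ℝ}

lemma T2_pow (hX : Lg X T C) (n : ℕ) (c : ℝ) (hc : c = n / 10 ^ 7) : X ^ c = T ^ n := by
  rw [hX.hT, ← Real.rpow_natCast, ← Real.rpow_mul (by linarith [hX.X1]), hc]
  congr 1
  unfold tau0
  ring

lemma T2_pow_sub (hX : Lg X T C) (n : ℕ) (c : ℝ) (hc : c = 1 - n / 10 ^ 7) :
    X ^ c = X / T ^ n := by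
  have h0 : 0 < X := by linarith [hX.X1]
  rw [hc, Real.rpow_sub h0, Real.rpow_one, T2_pow hX n _ rfl]

lemma T2_gap (hX : Lg X T C) {a b : ℝ} (h : a + 1 / 10 ^ 7 ≤ b) : X ^ a * T ≤ X ^ b := by
  have h0 : 0 < X := by linarith [hX.X1]
  rw [hX.hT, ← Real.rpow_add h0]
  apply Real.rpow_le_rpow_of_exponent_le hX.X1
  unfold tau0
  exact h

lemma T2_mono (hX : Lg X T C) {a b : ℝ} (h : a ≤ b) : X ^ a ≤ X ^ b :=
  Real.rpow_le_rpow_of_exponent_le hX.X1 h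

lemma T2_T1 (hX : Lg X T C) : 10 ^ 10 ≤ T := hX.h10

lemma T2_TX (hX : Lg X T C) : T ≤ X := by
  have h := T2_gap hX (a := 0) (b := 1) (by norm_num)
  rw [Real.rpow_zero, one_mul, Real.rpow_one] at h
  exact h

/-- the bound `9 X ≤ ⌊X ^ 10⌋` in natural numbers -/
lemma T2_floor (hX : Lg X T C) (n : ℕ) (hn : (n : ℝ) ≤ 9 * X) : n ≤ ⌊X ^ (10 : ℝ)⌋₊ := by
  apply Nat.le_floor
  refine hn.trans ?_
  have h1 := T2_TX hX
  have h2 := T2_T1 hX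
  have h3 : X ^ (2 : ℝ) ≤ X ^ (10 : ℝ) := T2_mono hX (by norm_num)
  rw [Real.rpow_two] at h3
  nlinarith

/-- the modified function -/
noncomputable def T2_F (X : ℝ) (j : ℤ) (n : ℤ) : ℝ := if n ≤ |j| then 0 else FQ (Q2 X) (n + j)

lemma T2_F_eq (j : ℤ) (L₁ k l : ℕ) (hjL : |j| ≤ (L₁ : ℤ)) (hk : 0 < k) (hl : L₁ < l) :
    T2_F X j ((k : ℤ) * l) = FQ (Q2 X) ((k : ℤ) * l + j) := by
  unfold T2_F
  rw [if_neg]
  have h1 : (1 : ℤ) ≤ k := by exact_mod_cast hk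
  have h2 : (L₁ : ℤ) < l := by exact_mod_cast hl
  nlinarith

lemma T2_F_le (hX : Lg X T C) (j : ℤ) (hjX : |(j : ℝ)| ≤ X) (n : ℕ) (hn : (n : ℝ) ≤ 8 * X) :
    |T2_F X j n| ≤ T ^ 3 := by
  have hT := T2_T1 hX
  unfold T2_F
  split_ifs with h
  · rw [abs_zero]
    positivity
  · have h1 : 0 < (n : ℤ) + j := by
      have := neg_abs_le j
      linarith
    apply abs_FQ_le hX.big
    · intro v hv
      obtain ⟨h2, h3, h4⟩ := mem_Q2 hX hv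
      refine ⟨h2, T2_floor hX v ?_⟩
      have h5 : X ^ (501 / 1000 : ℝ) ≤ X ^ (1 : ℝ) := T2_mono hX (by norm_num)
      rw [Real.rpow_one] at h5
      have := hX.X1
      linarith
    · exact h1.ne'
    · apply T2_floor hX
      rw [Nat.cast_natAbs, abs_of_pos h1]
      push_cast
      have := le_abs_self (j : ℝ)
      linarith

lemma T2_final (hX : Lg X T C) (L₁ L₂ lam Y : ℝ) (hL : 0 < L₁) (hl0 : 0 < lam)
    (hlam1 : lam ≤ L₁ / T ^ 100) (hlam2 : L₁ / T ^ 100 ≤ 2 * lam) (hL2 : L₂ ≤ 2 * L₁)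
    (hY0 : 0 ≤ Y) (hY : Y ≤ 4 * X) :
    ((L₂ - L₁) / lam + 1) * X ^ (1 - 3 / 10 ^ 5 : ℝ) + T ^ 3 * T * (Y * lam / L₁ + 1) ≤
      X ^ (1 - 9 / 10 ^ 6 : ℝ) / 2 := by
  have hT := T2_T1 hX
  have hT0 : 0 < T := by linarith
  have hX0 : 0 < X := by linarith [hX.X1]
  have hT1 : 1 ≤ T := by linarith
  have hp : ∀ n : ℕ, 1 ≤ T ^ n := fun n => one_le_pow₀ hT1
  rw [T2_pow_sub hX 300 (1 - 3 / 10 ^ 5) (by norm_num),
    T2_pow_sub hX 90 (1 - 9 / 10 ^ 6) (by norm_num)]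
  have hXT : T ^ 300 ≤ X := by
    have h := T2_mono hX (a := 3 / 10 ^ 5) (b := 1) (by norm_num)
    rw [T2_pow hX 300 (3 / 10 ^ 5) (by norm_num), Real.rpow_one] at h
    exact h
  -- first factor
  have h1 : (L₂ - L₁) / lam ≤ 2 * T ^ 100 := by
    rw [div_le_iff₀ hl0]
    rw [div_le_iff₀ (by positivity)] at hlam2
    nlinarith
  have h2 : Y * lam / L₁ ≤ 4 * X / T ^ 100 := by
    rw [div_le_div_iff₀ hL (by positivity)]
    rw [le_div_iff₀ (by positivity)] at hlam1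
    calc Y * lam * T ^ 100 = Y * (lam * T ^ 100) := by ring
      _ ≤ Y * L₁ := mul_le_mul_of_nonneg_left hlam1 hY0
      _ ≤ 4 * X * L₁ := mul_le_mul_of_nonneg_right hY hL.le
  have h3 : ((L₂ - L₁) / lam + 1) * (X / T ^ 300) ≤ (3 * T ^ 100) * (X / T ^ 300) := by
    apply mul_le_mul_of_nonneg_right _ (by positivity)
    have := hp 100
    linarith
  have h4 : (3 * T ^ 100) * (X / T ^ 300) = 3 * X / T ^ 200 := by
    have : T ^ 300 = T ^ 100 * T ^ 200 := by rw [← pow_add]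
    rw [this]
    field_simp
  have h5 : T ^ 3 * T * (Y * lam / L₁ + 1) ≤ T ^ 4 * (5 * X / T ^ 100) := by
    have e : T ^ 3 * T = T ^ 4 := by ring
    rw [e]
    apply mul_le_mul_of_nonneg_left _ (by positivity)
    have h6 : 1 ≤ X / T ^ 100 := by
      rw [le_div_iff₀ (by positivity), one_mul]
      exact (pow_le_pow_right₀ hT1 (by norm_num)).trans hXT
    have h7 : 5 * X / T ^ 100 = 4 * X / T ^ 100 + X / T ^ 100 := by ring
    rw [h7]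
    linarith
  have h8 : T ^ 4 * (5 * X / T ^ 100) = 5 * X / T ^ 96 := by
    have : T ^ 100 = T ^ 4 * T ^ 96 := by rw [← pow_add]
    rw [this]
    field_simp
  have h9 : 3 * X / T ^ 200 ≤ 3 * X / T ^ 96 := by
    apply div_le_div_of_nonneg_left (by positivity) (by positivity)
    exact pow_le_pow_right₀ hT1 (by norm_num)
  have h10 : 3 * X / T ^ 96 + 5 * X / T ^ 96 ≤ X / T ^ 90 / 2 := by
    have e : T ^ 96 = T ^ 90 * T ^ 6 := by rw [← pow_add]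
    have h16 : 16 ≤ T ^ 6 := by
      have : T ^ 1 ≤ T ^ 6 := pow_le_pow_right₀ hT1 (by norm_num)
      linarith
    rw [← add_div, e, div_div, div_le_div_iff₀ (by positivity) (by positivity)]
    have h11 : X * (T ^ 90 * 16) ≤ X * (T ^ 90 * T ^ 6) := by gcongr
    nlinarith
  linarith

theorem t2_block {w₀ wh : ℝ → ℝ} {CA : ℕ → ℝ} (hW : Wt w₀ wh C CA) (hX : Lg X T C)
    (hCA : CA 20000 ≤ T) (hLL : ∀ i, LL (PS X i) ≤ 1)
    (j : ℤ) (hj : j ≠ 0) (hjX : |(j : ℝ)| ≤ X ^ eps4) (L₁ L₂ n₀ N : ℕ) (hL12 : L₂ ≤ 2 * L₁)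
    (hL12' : L₁ ≤ L₂) (hn : n₀ ≤ N) (hN : (N : ℝ) ≤ 4 * X)
    (h1 : X ^ (3318 / 10000 : ℝ) ≤ (L₁ : ℝ)) (h2 : (L₁ : ℝ) ≤ X ^ (5014 / 10000 : ℝ))
    (α β : ℕ → ℝ) (hα : ∀ k, |α k| ≤ 1) (hβ : ∀ l, |β l| ≤ 1) :
    |∑ l ∈ Ioc L₁ L₂, ∑ k ∈ Ioc (n₀ / l) (N / l), α k * β l * FQ (Q2 X) ((k : ℤ) * l + j)| ≤
      X ^ (1 - 9 / 10 ^ 6 : ℝ) := by
  have hT := T2_T1 hX
  have hT0 : 0 < T := by linarith
  have hT1 : 1 ≤ T := by linarith
  have hX0 : 0 < X := by linarith [hX.X1]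
  have hjXX : |(j : ℝ)| ≤ X := by
    refine hjX.trans ?_
    have h := T2_mono hX (a := eps4) (b := 1) (by unfold eps4; norm_num)
    rw [Real.rpow_one] at h
    exact h
  have hjL : |j| ≤ (L₁ : ℤ) := by
    have h : |(j : ℝ)| ≤ L₁ := by
      refine hjX.trans (le_trans (T2_mono hX ?_) h1)
      unfold eps4
      norm_num
    exact_mod_cast h
  have hL1 : 1 ≤ L₁ := by
    have h : (1 : ℝ) ≤ L₁ := le_trans (Real.one_le_rpow hX.X1 (by norm_num)) h1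
    exact_mod_cast h
  have hL0 : (0 : ℝ) < L₁ := by exact_mod_cast hL1
  have hTL : T ^ 100 ≤ (L₁ : ℝ) := by
    refine le_trans ?_ h1
    rw [← T2_pow hX 100 (1 / 10 ^ 5) (by norm_num)]
    exact T2_mono hX (by norm_num)
  have hq1 : 1 ≤ (L₁ : ℝ) / T ^ 100 := by
    rw [le_div_iff₀ (by positivity), one_mul]
    exact hTL
  set lam : ℕ := ⌊(L₁ : ℝ) / T ^ 100⌋₊ with hlam
  have hlam1 : (lam : ℝ) ≤ (L₁ : ℝ) / T ^ 100 := Nat.floor_le (by positivity)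
  have hlam2 : (L₁ : ℝ) / T ^ 100 < lam + 1 := Nat.lt_floor_add_one _
  have hlam3 : 1 ≤ lam := by
    rw [hlam]
    exact Nat.le_floor (by exact_mod_cast hq1)
  have hlam3' : (1 : ℝ) ≤ lam := by exact_mod_cast hlam3
  have hlam4 : lam ≤ L₁ := by
    have h : (lam : ℝ) ≤ L₁ := by
      refine hlam1.trans ?_
      exact div_le_self hL0.le (one_le_pow₀ hT1)
    exact_mod_cast h
  have hK : ((N / L₁ : ℕ) : ℝ) * L₁ ≤ 4 * X := by
    refine le_trans ?_ hN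
    exact_mod_cast Nat.div_mul_le_self N L₁
  have hQ := q2_bil hW hX hCA hLL j hj hjX (N / L₁) L₁ L₂ hL12 hK h1 h2
  have hB : Bil (T2_F X j) (N / L₁) (Ioc L₁ L₂) (X ^ (1 - 3 / 10 ^ 5 : ℝ)) := by
    intro a b ha hb
    have h3 := hQ a b ha hb
    refine le_trans (le_of_eq ?_) h3
    congr 1
    refine Finset.sum_congr rfl fun k hk => Finset.sum_congr rfl fun l hl => ?_
    rw [mem_Ioc] at hk hl
    rw [T2_F_eq j L₁ k l hjL hk.1 hl.1]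
  have key : ∀ Y : ℕ, Y ≤ N → |∑ l ∈ Ioc L₁ L₂, ∑ k ∈ Ioc 0 (Y / l),
      α k * β l * T2_F X j ((k : ℤ) * l)| ≤ X ^ (1 - 9 / 10 ^ 6 : ℝ) / 2 := by
    intro Y hY
    have hYX : (Y : ℝ) ≤ 4 * X := le_trans (by exact_mod_cast hY) hN
    have h3 := box hX.big (T2_F X j) (N / L₁) L₁ L₂ Y lam hL1 hlam3 hlam4 hL12'
      (Nat.div_le_div_right hY) (T2_floor hX (2 * Y) (by push_cast; linarith))
      (X ^ (1 - 3 / 10 ^ 5 : ℝ)) (T ^ 3) (by positivity)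
      (fun n _ hn2 => T2_F_le hX j hjXX n (by
        have : (n : ℝ) ≤ 2 * Y := by exact_mod_cast hn2
        linarith)) hB α β hα hβ
    refine h3.trans ?_
    apply T2_final hX L₁ L₂ lam Y hL0 (by linarith) hlam1 (by linarith)
      (by exact_mod_cast hL12) (by positivity) hYX
  have e : ∑ l ∈ Ioc L₁ L₂, ∑ k ∈ Ioc (n₀ / l) (N / l),
      α k * β l * FQ (Q2 X) ((k : ℤ) * l + j) =
      (∑ l ∈ Ioc L₁ L₂, ∑ k ∈ Ioc 0 (N / l), α k * β l * T2_F X j ((k : ℤ) * l)) -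
      ∑ l ∈ Ioc L₁ L₂, ∑ k ∈ Ioc 0 (n₀ / l), α k * β l * T2_F X j ((k : ℤ) * l) := by
    rw [← Finset.sum_sub_distrib]
    refine Finset.sum_congr rfl fun l hl => ?_
    rw [mem_Ioc] at hl
    rw [← Finset.sum_Ioc_consecutive _ (Nat.zero_le (n₀ / l)) (Nat.div_le_div_right hn),
      add_sub_cancel_left]
    refine Finset.sum_congr rfl fun k hk => ?_
    rw [mem_Ioc] at hk
    rw [T2_F_eq j L₁ k l hjL (lt_of_le_of_lt (Nat.zero_le _) hk.1) hl.1]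
  rw [e]
  have h3 := key N le_rfl
  have h4 := key n₀ hn
  have h5 := abs_sub (∑ l ∈ Ioc L₁ L₂, ∑ k ∈ Ioc 0 (N / l), α k * β l * T2_F X j ((k : ℤ) * l))
    (∑ l ∈ Ioc L₁ L₂, ∑ k ∈ Ioc 0 (n₀ / l), α k * β l * T2_F X j ((k : ℤ) * l))
  linarith

/-- dyadic decomposition -/
lemma T2_dyadic (g : ℕ → ℝ) (U₁ U₂ : ℕ) (hU : U₁ ≤ U₂) (B : ℝ)
    (h : ∀ L₁ L₂ : ℕ, U₁ ≤ L₁ → L₁ ≤ L₂ → L₂ ≤ 2 * L₁ → L₂ ≤ U₂ →
      |∑ l ∈ Ioc L₁ L₂, g l| ≤ B) (n : ℕ) :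
    |∑ l ∈ Ioc U₁ (min (U₁ * 2 ^ n) U₂), g l| ≤ n * B := by
  induction n with
  | zero => simp [hU]
  | succ n ih =>
    have ha : U₁ ≤ U₁ * 2 ^ n := Nat.le_mul_of_pos_right _ (by positivity)
    have hb : U₁ * 2 ^ (n + 1) = 2 * (U₁ * 2 ^ n) := by ring
    have h1 : U₁ ≤ min (U₁ * 2 ^ n) U₂ := le_min ha hU
    have h2 : min (U₁ * 2 ^ n) U₂ ≤ min (U₁ * 2 ^ (n + 1)) U₂ := by
      rw [hb]
      omega
    rw [← Finset.sum_Ioc_consecutive _ h1 h2]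
    have h3 := h (min (U₁ * 2 ^ n) U₂) (min (U₁ * 2 ^ (n + 1)) U₂) h1 h2 (by
      rw [hb]
      omega) (min_le_right _ _)
    have h4 := abs_add_le (∑ l ∈ Ioc U₁ (min (U₁ * 2 ^ n) U₂), g l)
      (∑ l ∈ Ioc (min (U₁ * 2 ^ n) U₂) (min (U₁ * 2 ^ (n + 1)) U₂), g l)
    push_cast
    linarith

/-- dyadic decomposition with the number of blocks bounded by `T` -/
lemma T2_dyadic2 (hX : Lg X T C) (g : ℕ → ℝ) (U₁ U₂ : ℕ) (hU1 : 1 ≤ U₁) (hU2 : (U₂ : ℝ) ≤ X)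
    (B : ℝ) (hB : 0 ≤ B)
    (h : ∀ L₁ L₂ : ℕ, U₁ ≤ L₁ → L₁ ≤ L₂ → L₂ ≤ 2 * L₁ → L₂ ≤ U₂ →
      |∑ l ∈ Ioc L₁ L₂, g l| ≤ B) :
    |∑ l ∈ Ioc U₁ U₂, g l| ≤ T * B := by
  have hT := T2_T1 hX
  have hT0 : 0 < T := by linarith
  rcases Nat.lt_or_ge U₂ U₁ with hlt | hU
  · rw [Finset.Ioc_eq_empty (by omega), Finset.sum_empty, abs_zero]
    positivity
  have h1 := T2_dyadic g U₁ U₂ hU B h (Nat.log 2 U₂ + 1)
  have hlt : U₂ < 2 ^ (Nat.log 2 U₂ + 1) := Nat.lt_pow_succ_log_self (by norm_num) U₂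
  have h2 : U₂ ≤ U₁ * 2 ^ (Nat.log 2 U₂ + 1) := by
    calc U₂ ≤ 1 * 2 ^ (Nat.log 2 U₂ + 1) := by omega
      _ ≤ U₁ * 2 ^ (Nat.log 2 U₂ + 1) := Nat.mul_le_mul_right _ hU1
  rw [min_eq_right h2] at h1
  refine h1.trans (mul_le_mul_of_nonneg_right ?_ hB)
  have hU2pos : 0 < U₂ := by omega
  have hU2' : (1 : ℝ) ≤ U₂ := by exact_mod_cast hU2pos
  have hpow : 2 ^ Nat.log 2 U₂ ≤ U₂ := Nat.pow_log_le_self 2 hU2pos.ne'
  have hpow' : (2 : ℝ) ^ Nat.log 2 U₂ ≤ U₂ := by exact_mod_cast hpow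
  have h3 : (Nat.log 2 U₂ : ℝ) * Real.log 2 ≤ Real.log U₂ := by
    rw [← Real.log_pow]
    exact Real.log_le_log (by positivity) hpow'
  have h4 : U₂ ^ 2 ≤ ⌊X ^ (10 : ℝ)⌋₊ := by
    apply Nat.le_floor
    push_cast
    have h5 : X ^ (2 : ℝ) ≤ X ^ (10 : ℝ) := T2_mono hX (by norm_num)
    rw [Real.rpow_two] at h5
    refine le_trans ?_ h5
    gcongr
  have h5 : Real.log ((U₂ : ℝ) ^ 2) ≤ Real.log (⌊X ^ (10 : ℝ)⌋₊ : ℝ) := by
    apply Real.log_le_log (by positivity)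
    exact_mod_cast h4
  rw [Real.log_pow] at h5
  have h6 := hX.big.log
  have h7 := Real.log_two_gt_d9
  have h8 : (0 : ℝ) ≤ Nat.log 2 U₂ := by positivity
  push_cast at h5 ⊢
  nlinarith

lemma T2_end (hX : Lg X T C) : T * X ^ (1 - 9 / 10 ^ 6 : ℝ) + T * X ^ (1 - 9 / 10 ^ 6 : ℝ) ≤
    X ^ (1 - 8 / 10 ^ 6 : ℝ) := by
  have hT := T2_T1 hX
  have hT0 : 0 < T := by linarith
  have hX0 : 0 < X := by linarith [hX.X1]
  have h0 : 0 < X ^ (1 - 9 / 10 ^ 6 : ℝ) := Real.rpow_pos_of_pos hX0 _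
  have e : X ^ (1 - 8 / 10 ^ 6 : ℝ) = X ^ (1 - 9 / 10 ^ 6 : ℝ) * T ^ 10 := by
    rw [← T2_pow hX 10 (1 / 10 ^ 6) (by norm_num), ← Real.rpow_add hX0]
    norm_num
  rw [e]
  have h1 : 2 * T ≤ T ^ 10 := by
    have h2 : T ^ 2 ≤ T ^ 10 := pow_le_pow_right₀ (by linarith) (by norm_num)
    nlinarith
  nlinarith

lemma T2_one {w₀ wh : ℝ → ℝ} {CA : ℕ → ℝ} (hW : Wt w₀ wh C CA) (hX : Lg X T C)
    (hCA : CA 20000 ≤ T) (hLL : ∀ i, LL (PS X i) ≤ 1)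
    (j : ℤ) (hj : j ≠ 0) (hjX : |(j : ℝ)| ≤ X ^ eps4) (n₀ N : ℕ) (hn : n₀ ≤ N)
    (hn0 : X ^ (9995 / 10000 : ℝ) ≤ (n₀ : ℝ) + 1) (hN : (N : ℝ) ≤ 4 * X)
    (α β : ℕ → ℝ) (hα : ∀ k, |α k| ≤ 1) (hβ : ∀ l, |β l| ≤ 1) (V : ℕ)
    (hV : (V : ℝ) ≤ X ^ (667 / 1000 : ℝ)) :
    |∑ m ∈ Ioc ⌊X ^ (1 / 3 : ℝ)⌋₊ V, ∑ t ∈ Ioc (n₀ / m) (N / m),
      α m * β t * FQ (Q2 X) ((m : ℤ) * t + j)| ≤ X ^ (1 - 8 / 10 ^ 6 : ℝ) := by
  have hT := T2_T1 hX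
  have hT0 : 0 < T := by linarith
  have hX0 : 0 < X := by linarith [hX.X1]
  have hB0 : 0 ≤ X ^ (1 - 9 / 10 ^ 6 : ℝ) := (Real.rpow_pos_of_pos hX0 _).le
  set V₁ : ℕ := ⌊X ^ (1 / 3 : ℝ)⌋₊ with hV1
  set M₀ : ℕ := ⌊X ^ (1 / 2 : ℝ)⌋₊ with hM0
  have hM1 : (M₀ : ℝ) ≤ X ^ (1 / 2 : ℝ) := Nat.floor_le (Real.rpow_nonneg hX0.le _)
  have hM2 : X ^ (1 / 2 : ℝ) < M₀ + 1 := Nat.lt_floor_add_one _
  have hV2 : X ^ (1 / 3 : ℝ) < V₁ + 1 := Nat.lt_floor_add_one _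
  have hV3 : X ^ (3318 / 10000 : ℝ) ≤ V₁ := by
    have h := T2_gap hX (a := 3318 / 10000) (b := 1 / 3) (by norm_num)
    have h' : 1 ≤ X ^ (3318 / 10000 : ℝ) := Real.one_le_rpow hX.X1 (by norm_num)
    nlinarith
  have hV1' : 1 ≤ V₁ := by
    have h' : 1 ≤ X ^ (3318 / 10000 : ℝ) := Real.one_le_rpow hX.X1 (by norm_num)
    have : (1 : ℝ) ≤ V₁ := h'.trans hV3
    exact_mod_cast this
  have hVM : V₁ ≤ M₀ := by
    rw [hV1, hM0]
    exact Nat.floor_mono (T2_mono hX (by norm_num))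
  set G : ℕ → ℝ := fun m => ∑ t ∈ Ioc (n₀ / m) (N / m),
      α m * β t * FQ (Q2 X) ((m : ℤ) * t + j) with hG
  have hMX : (M₀ : ℝ) ≤ X := by
    refine hM1.trans ?_
    have h := T2_mono hX (a := 1 / 2) (b := 1) (by norm_num)
    rw [Real.rpow_one] at h
    exact h
  have hXhalf : X ^ (1 / 2 : ℝ) ≤ X ^ (5014 / 10000 : ℝ) := T2_mono hX (by norm_num)
  -- part 1
  have part1 : ∀ V' : ℕ, V' ≤ M₀ → |∑ m ∈ Ioc V₁ V', G m| ≤ T * X ^ (1 - 9 / 10 ^ 6 : ℝ) := by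
    intro V' hV'
    have hV'r : (V' : ℝ) ≤ M₀ := by exact_mod_cast hV'
    apply T2_dyadic2 hX G V₁ V' hV1' (by linarith) _ hB0
    intro L₁ L₂ ha hb hc hd
    have har : (V₁ : ℝ) ≤ L₁ := by exact_mod_cast ha
    have hbr : (L₁ : ℝ) ≤ V' := by exact_mod_cast hb.trans hd
    have h3 := t2_block hW hX hCA hLL j hj hjX L₁ L₂ n₀ N hc hb hn hN (by linarith)
      (by linarith) β α hβ hα
    refine le_trans (le_of_eq ?_) h3
    congr 1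
    refine Finset.sum_congr rfl fun m _ => Finset.sum_congr rfl fun t _ => ?_
    rw [mul_comm (α m), mul_comm (m : ℤ)]
  -- part 2
  have part2 : M₀ ≤ V → |∑ m ∈ Ioc M₀ V, G m| ≤ T * X ^ (1 - 9 / 10 ^ 6 : ℝ) := by
    intro hMV
    have hVpos : 0 < V := by omega
    have hVr : (0 : ℝ) < V := by exact_mod_cast hVpos
    set U₁ : ℕ := n₀ / V with hU1
    set U₂ : ℕ := N / (M₀ + 1) with hU2
    set a' : ℕ → ℝ := fun m => if M₀ < m ∧ m ≤ V then α m else 0 with ha'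
    have ha'1 : ∀ m, |a' m| ≤ 1 := by
      intro m
      rw [ha']
      simp only
      split_ifs
      · exact hα m
      · rw [abs_zero]
        exact zero_le_one
    have hU2r : (U₂ : ℝ) * (M₀ + 1) ≤ 4 * X := by
      refine le_trans ?_ hN
      have : U₂ * (M₀ + 1) ≤ N := Nat.div_mul_le_self N (M₀ + 1)
      exact_mod_cast this
    have hxx : X ^ (1 / 2 : ℝ) * X ^ (1 / 2 : ℝ) = X := by
      rw [← Real.rpow_add hX0]
      norm_num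
    have hhalf0 : 0 < X ^ (1 / 2 : ℝ) := Real.rpow_pos_of_pos hX0 _
    have hU2s : (U₂ : ℝ) ≤ 4 * X ^ (1 / 2 : ℝ) := by
      have h3 : (U₂ : ℝ) * X ^ (1 / 2 : ℝ) ≤ (4 * X ^ (1 / 2 : ℝ)) * X ^ (1 / 2 : ℝ) := by
        calc (U₂ : ℝ) * X ^ (1 / 2 : ℝ) ≤ U₂ * (M₀ + 1) := by gcongr
          _ ≤ 4 * X := hU2r
          _ = (4 * X ^ (1 / 2 : ℝ)) * X ^ (1 / 2 : ℝ) := by rw [mul_assoc, hxx]
      exact le_of_mul_le_mul_right h3 hhalf0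
    have hU2t : (U₂ : ℝ) ≤ X ^ (5014 / 10000 : ℝ) := by
      have h3 := T2_gap hX (a := 1 / 2) (b := 5014 / 10000) (by norm_num)
      nlinarith
    have hU2X : (U₂ : ℝ) ≤ X := by
      refine hU2t.trans ?_
      have h := T2_mono hX (a := 5014 / 10000) (b := 1) (by norm_num)
      rw [Real.rpow_one] at h
      exact h
    have hU1r : X ^ (3318 / 10000 : ℝ) ≤ (U₁ : ℝ) := by
      have h3 : n₀ < (U₁ + 1) * V := by
        rw [hU1]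
        have h4 := Nat.div_add_mod n₀ V
        have h5 := Nat.mod_lt n₀ hVpos
        nlinarith
      have h4 : (n₀ : ℝ) + 1 ≤ (U₁ + 1) * V := by exact_mod_cast h3
      have h5 : X ^ (9995 / 10000 : ℝ) = X ^ (3325 / 10000 : ℝ) * X ^ (667 / 1000 : ℝ) := by
        rw [← Real.rpow_add hX0]
        norm_num
      have h6 : X ^ (3325 / 10000 : ℝ) * X ^ (667 / 1000 : ℝ) ≤
          ((U₁ : ℝ) + 1) * X ^ (667 / 1000 : ℝ) := by
        rw [← h5]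
        refine hn0.trans (h4.trans ?_)
        gcongr
      have h7 : X ^ (3325 / 10000 : ℝ) ≤ (U₁ : ℝ) + 1 :=
        le_of_mul_le_mul_right h6 (Real.rpow_pos_of_pos hX0 _)
      have h8 := T2_gap hX (a := 3318 / 10000) (b := 3325 / 10000) (by norm_num)
      have h' : 1 ≤ X ^ (3318 / 10000 : ℝ) := Real.one_le_rpow hX.X1 (by norm_num)
      nlinarith
    have hU11 : 1 ≤ U₁ := by
      have h' : 1 ≤ X ^ (3318 / 10000 : ℝ) := Real.one_le_rpow hX.X1 (by norm_num)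
      have : (1 : ℝ) ≤ U₁ := h'.trans hU1r
      exact_mod_cast this
    have e : ∑ m ∈ Ioc M₀ V, G m = ∑ t ∈ Ioc U₁ U₂, ∑ m ∈ Ioc (n₀ / t) (N / t),
        a' m * β t * FQ (Q2 X) ((m : ℤ) * t + j) := by
      have e1 : ∀ t ∈ Ioc U₁ U₂, ∑ m ∈ Ioc (n₀ / t) (N / t),
          a' m * β t * FQ (Q2 X) ((m : ℤ) * t + j) =
          ∑ m ∈ (Ioc (n₀ / t) (N / t)).filter (fun m => M₀ < m ∧ m ≤ V),
            α m * β t * FQ (Q2 X) ((m : ℤ) * t + j) := by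
        intro t _
        rw [Finset.sum_filter]
        refine Finset.sum_congr rfl fun m _ => ?_
        rw [ha']
        simp only
        split_ifs
        · rfl
        · rw [zero_mul, zero_mul]
      rw [Finset.sum_congr rfl e1, hG]
      apply Finset.sum_comm'
      intro m t
      simp only [mem_Ioc, mem_filter]
      constructor
      · rintro ⟨⟨hm1, hm2⟩, ht1, ht2⟩
        have hm0 : 0 < m := by omega
        rw [Nat.div_lt_iff_lt_mul hm0] at ht1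
        rw [Nat.le_div_iff_mul_le hm0] at ht2
        have ht0 : 0 < t := by
          rcases Nat.eq_zero_or_pos t with h | h
          · subst h
            omega
          · exact h
        refine ⟨⟨⟨?_, ?_⟩, hm1, hm2⟩, ?_, ?_⟩
        · rw [Nat.div_lt_iff_lt_mul ht0, mul_comm]
          exact ht1
        · rw [Nat.le_div_iff_mul_le ht0, mul_comm]
          exact ht2
        · rw [hU1, Nat.div_lt_iff_lt_mul hVpos]
          exact lt_of_lt_of_le ht1 (Nat.mul_le_mul_left _ hm2)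
        · rw [hU2, Nat.le_div_iff_mul_le (by omega)]
          exact (Nat.mul_le_mul_left _ hm1).trans ht2
      · rintro ⟨⟨⟨h3, h4⟩, hm1, hm2⟩, ht1, ht2⟩
        have hm0 : 0 < m := by omega
        have ht0 : 0 < t := by omega
        rw [Nat.div_lt_iff_lt_mul ht0] at h3
        rw [Nat.le_div_iff_mul_le ht0] at h4
        refine ⟨⟨hm1, hm2⟩, ?_, ?_⟩
        · rw [Nat.div_lt_iff_lt_mul hm0, mul_comm]
          exact h3
        · rw [Nat.le_div_iff_mul_le hm0, mul_comm]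
          exact h4
    rw [e]
    apply T2_dyadic2 hX _ U₁ U₂ hU11 hU2X _ hB0
    intro L₁ L₂ ha hb hc hd
    have har : (U₁ : ℝ) ≤ L₁ := by exact_mod_cast ha
    have hbr : (L₁ : ℝ) ≤ U₂ := by exact_mod_cast hb.trans hd
    exact t2_block hW hX hCA hLL j hj hjX L₁ L₂ n₀ N hc hb hn hN (by linarith)
      (by linarith) a' β ha'1 hβ
  have hend := T2_end hX
  rcases Nat.le_total V M₀ with hVM' | hVM'
  · have h3 := part1 V hVM'
    have h4 : 0 ≤ T * X ^ (1 - 9 / 10 ^ 6 : ℝ) := by positivity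
    linarith
  · rw [← Finset.sum_Ioc_consecutive _ hVM hVM']
    have h3 := part1 M₀ le_rfl
    have h4 := part2 hVM'
    have h5 := abs_add_le (∑ m ∈ Ioc V₁ M₀, G m) (∑ m ∈ Ioc M₀ V, G m)
    linarith

theorem t2 {w₀ wh : ℝ → ℝ} {CA : ℕ → ℝ} (hW : Wt w₀ wh C CA) (hX : Lg X T C)
    (hCA : CA 20000 ≤ T) (hLL : ∀ i, LL (PS X i) ≤ 1)
    (j : ℤ) (hj : j ≠ 0) (hjX : |(j : ℝ)| ≤ X ^ eps4) (n₀ N : ℕ) (hn : n₀ ≤ N)
    (hn0 : X ^ (9995 / 10000 : ℝ) ≤ (n₀ : ℝ) + 1) (hN : (N : ℝ) ≤ 4 * X)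
    (α β : ℕ → ℝ) (A : ℝ) (hα : ∀ k, |α k| ≤ A) (hβ : ∀ l, |β l| ≤ A) (V : ℕ)
    (hV : (V : ℝ) ≤ X ^ (667 / 1000 : ℝ)) :
    |∑ m ∈ Ioc ⌊X ^ (1 / 3 : ℝ)⌋₊ V, ∑ t ∈ Ioc (n₀ / m) (N / m),
      α m * β t * FQ (Q2 X) ((m : ℤ) * t + j)| ≤ A ^ 2 * X ^ (1 - 8 / 10 ^ 6 : ℝ) := by
  have hA0 : 0 ≤ A := (abs_nonneg _).trans (hα 0)
  rcases hA0.eq_or_lt with hA | hA
  · have hz : ∀ k, α k = 0 := by
      intro k
      have := hα k
      rw [← hA] at this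
      exact abs_nonpos_iff.1 this
    have h1 : ∑ m ∈ Ioc ⌊X ^ (1 / 3 : ℝ)⌋₊ V, ∑ t ∈ Ioc (n₀ / m) (N / m),
      α m * β t * FQ (Q2 X) ((m : ℤ) * t + j) = 0 := by
      refine Finset.sum_eq_zero fun m _ => Finset.sum_eq_zero fun t _ => ?_
      rw [hz m, zero_mul, zero_mul]
    rw [h1, abs_zero, ← hA]
    simp
  · have h1 := T2_one hW hX hCA hLL j hj hjX n₀ N hn hn0 hN (fun m => α m / A)
      (fun t => β t / A) (fun k => by
        rw [abs_div, abs_of_pos hA, div_le_one hA]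
        exact hα k) (fun k => by
        rw [abs_div, abs_of_pos hA, div_le_one hA]
        exact hβ k) V hV
    have h2 : ∑ m ∈ Ioc ⌊X ^ (1 / 3 : ℝ)⌋₊ V, ∑ t ∈ Ioc (n₀ / m) (N / m),
      α m * β t * FQ (Q2 X) ((m : ℤ) * t + j) =
      A ^ 2 * ∑ m ∈ Ioc ⌊X ^ (1 / 3 : ℝ)⌋₊ V, ∑ t ∈ Ioc (n₀ / m) (N / m),
      (α m / A) * (β t / A) * FQ (Q2 X) ((m : ℤ) * t + j) := by
      simp only [Finset.mul_sum]
      refine Finset.sum_congr rfl fun m _ => Finset.sum_congr rfl fun t _ => ?_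
      field_simp
    rw [h2, abs_mul, abs_of_nonneg (sq_nonneg A)]
    exact mul_le_mul_of_nonneg_left h1 (sq_nonneg A)

end Pool.Agent.Lib.MP_2a816b_nt.BH
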