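import Pool.Agent.Lib.MP_adc574_ag_G2.Basic

/-!
# JOB WBomA: Bombieri's auxiliary polynomials for odd degree `2 g + 1`

Generalize `Pool/Agent/Lib/MP_adc574_ag_G2/BomA.lean` (the case `g = 2`) from degree `5` to degree
`2 g + 1`: replace `r + 3` by `r + 1 + g`, `r - 2` by `r - g`.
The unknowns are the coefficients of the `α i`, `β i`, `α' i`, `β' i`: their number is
`(r + 1 + g) (r + 1) + (r + 1 + g) (r - g) + (r + 1) (r + 1) + (r + 1) (r - g)
  = (2 r + 2 + g) (2 r + 1 - g) = 4 r ^ 2 + 6 r + 2 - g - g ^ 2`.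
The two expressions have degree `≤ 2 r ^ 2 + 2 r + g` and `≤ 2 r ^ 2 + 2 r`, so there are
`4 r ^ 2 + 4 r + g + 2` equations, less than the number of unknowns because `2 r > g ^ 2 + 2 g`.
(Degrees: `r + g + r (2 r + 1) = 2 r ^ 2 + 2 r + g`;
`(r + 1) (2 g + 1) + r + (r - g - 1) (2 r + 1) = 2 r ^ 2 + r + g`;
`r (2 g + 1) + (r + g) + (r - g - 1) (2 r + 1) = 2 r ^ 2 + r - 1`; `r + r (2 r + 1) = 2 r ^ 2 + 2 r`.)
-/

set_option autoImplicit false

namespace BHWeil

open Polynomial Finset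

/-- The polynomial with given coefficients, as a linear map. -/
private noncomputable def bomAT (F : Type*) [Field F] (n : ℕ) : (Fin n → F) →ₗ[F] F[X] :=
  (degreeLT F n).subtype ∘ₗ (degreeLTEquiv F n).symm.toLinearMap

private theorem bomAT_degree {F : Type*} [Field F] (n : ℕ) (v : Fin n → F) :
    (bomAT F n v).degree < (n : ℕ) := by
  have := ((degreeLTEquiv F n).symm v).2
  rwa [mem_degreeLT] at this

private theorem bomAT_eq_zero {F : Type*} [Field F] (n : ℕ) (v : Fin n → F)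
    (h : bomAT F n v = 0) : v = 0 := by
  have h1 : ((degreeLTEquiv F n).symm v) = 0 := by
    apply Subtype.ext
    exact h
  simpa using h1

private noncomputable def bomAS (F : Type*) [Field F] (q m n : ℕ) :
    (Fin m → Fin n → F) →ₗ[F] F[X] :=
  ∑ i : Fin m, LinearMap.mulLeft F (X ^ (i : ℕ)) ∘ₗ (expand F q).toLinearMap ∘ₗ
    bomAT F n ∘ₗ LinearMap.proj i

private theorem bomAS_apply {F : Type*} [Field F] (q m n : ℕ) (v : Fin m → Fin n → F) :
    bomAS F q m n v = ∑ i : Fin m, X ^ (i : ℕ) * expand F q (bomAT F n (v i)) := by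
  simp [bomAS]

private theorem bomAS_natDegree {F : Type*} [Field F] (q m n : ℕ) (hn : 1 ≤ n)
    (v : Fin m → Fin n → F) :
    (bomAS F q m n v).natDegree ≤ (m - 1) + (n - 1) * q := by
  rw [bomAS_apply]
  apply natDegree_sum_le_of_forall_le
  intro i _
  refine (natDegree_mul_le).trans ?_
  rw [natDegree_X_pow, natDegree_expand]
  have h1 : (i : ℕ) ≤ m - 1 := by have := i.2; omega
  have h2 : (bomAT F n (v i)).natDegree ≤ n - 1 := by
    have h3 := bomAT_degree n (v i)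
    by_cases h0 : bomAT F n (v i) = 0
    · rw [h0]; simp
    · rw [degree_eq_natDegree h0] at h3
      have : (bomAT F n (v i)).natDegree < n := by exact_mod_cast h3
      omega
  exact add_le_add h1 (Nat.mul_le_mul_right _ h2)

private noncomputable def bomAC (F : Type*) [Field F] (n : ℕ) : F[X] →ₗ[F] (Fin n → F) where
  toFun p := fun i => p.coeff i
  map_add' p q := by ext i; simp
  map_smul' c p := by ext i; simp

private theorem bomAC_eq_zero {F : Type*} [Field F] (n : ℕ) (p : F[X]) (hp : p.natDegree < n)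
    (h : bomAC F n p = 0) : p = 0 := by
  ext i
  rw [coeff_zero]
  by_cases hi : i < n
  · have := congrFun h ⟨i, hi⟩
    exact this
  · exact coeff_eq_zero_of_natDegree_lt (by omega)

theorem bomA {F : Type*} [Field F] {r g : ℕ} (hr : (g + 1) * (g + 2) ≤ r) (f : F[X])
    (hf : f.natDegree = 2 * g + 1) :
    ∃ (α β : Fin (r + 1 + g) → F[X]) (α' β' : Fin (r + 1) → F[X]),
      (∀ i, (α i).degree < (r + 1 : ℕ)) ∧ (∀ i, (β i).degree < (r - g : ℕ)) ∧
      (∀ i, (α' i).degree < (r + 1 : ℕ)) ∧ (∀ i, (β' i).degree < (r - g : ℕ)) ∧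
      ((∃ i, α i ≠ 0) ∨ (∃ i, β i ≠ 0) ∨ (∃ i, α' i ≠ 0) ∨ (∃ i, β' i ≠ 0)) ∧
      (∑ i : Fin (r + 1 + g), X ^ (i : ℕ) * expand F (2 * r + 1) (α i)) +
        f ^ (r + 1) * ∑ i : Fin (r + 1), X ^ (i : ℕ) * expand F (2 * r + 1) (β' i) = 0 ∧
      f ^ r * (∑ i : Fin (r + 1 + g), X ^ (i : ℕ) * expand F (2 * r + 1) (β i)) +
        ∑ i : Fin (r + 1), X ^ (i : ℕ) * expand F (2 * r + 1) (α' i) = 0 := by
  classical
  have hrg : g + 1 ≤ r := by nlinarith
  let q : ℕ := 2 * r + 1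
  let V := (Fin (r + 1 + g) → Fin (r + 1) → F) × (Fin (r + 1 + g) → Fin (r - g) → F) ×
    (Fin (r + 1) → Fin (r + 1) → F) × (Fin (r + 1) → Fin (r - g) → F)
  let n₁ : ℕ := 2 * r * r + 2 * r + 1 + g
  let n₂ : ℕ := 2 * r * r + 2 * r + 1
  let pα : V →ₗ[F] (Fin (r + 1 + g) → Fin (r + 1) → F) := LinearMap.fst F _ _
  let pβ : V →ₗ[F] (Fin (r + 1 + g) → Fin (r - g) → F) := LinearMap.fst F _ _ ∘ₗ LinearMap.snd F _ _
  let pα' : V →ₗ[F] (Fin (r + 1) → Fin (r + 1) → F) :=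
    LinearMap.fst F _ _ ∘ₗ LinearMap.snd F _ _ ∘ₗ LinearMap.snd F _ _
  let pβ' : V →ₗ[F] (Fin (r + 1) → Fin (r - g) → F) :=
    LinearMap.snd F _ _ ∘ₗ LinearMap.snd F _ _ ∘ₗ LinearMap.snd F _ _
  let E₁ : V →ₗ[F] F[X] := bomAS F q (r + 1 + g) (r + 1) ∘ₗ pα +
    LinearMap.mulLeft F (f ^ (r + 1)) ∘ₗ bomAS F q (r + 1) (r - g) ∘ₗ pβ'
  let E₂ : V →ₗ[F] F[X] := LinearMap.mulLeft F (f ^ r) ∘ₗ bomAS F q (r + 1 + g) (r - g) ∘ₗ pβ +
    bomAS F q (r + 1) (r + 1) ∘ₗ pα'
  let L : V →ₗ[F] (Fin n₁ → F) × (Fin n₂ → F) :=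
    (bomAC F n₁ ∘ₗ E₁).prod (bomAC F n₂ ∘ₗ E₂)
  have hfin : Module.finrank F ((Fin n₁ → F) × (Fin n₂ → F)) < Module.finrank F V := by
    have h1 : Module.finrank F ((Fin n₁ → F) × (Fin n₂ → F)) = n₁ + n₂ := by
      simp [Module.finrank_prod]
    have h2 : Module.finrank F V = (r + 1 + g) * (r + 1) + ((r + 1 + g) * (r - g) +
        ((r + 1) * (r + 1) + (r + 1) * (r - g))) := by
      simp only [V, Module.finrank_prod, Module.finrank_pi_fintype, Module.finrank_self, mul_one,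
        Finset.sum_const, Finset.card_univ, Fintype.card_fin, smul_eq_mul]
    rw [h1, h2]
    obtain ⟨t, rfl⟩ : ∃ t, r = t + g + 1 := ⟨r - g - 1, by omega⟩
    have ht : (g + 1) * (g + 1) ≤ t := by nlinarith
    simp only [n₁, n₂, show t + g + 1 - g = t + 1 by omega]
    nlinarith
  have hker := LinearMap.ker_ne_bot_of_finrank_lt (f := L) hfin
  obtain ⟨v, hv, hv0⟩ := (Submodule.ne_bot_iff _).mp hker
  rw [LinearMap.mem_ker] at hv
  have hL1 : bomAC F n₁ (E₁ v) = 0 := congrArg Prod.fst hv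
  have hL2 : bomAC F n₂ (E₂ v) = 0 := congrArg Prod.snd hv
  have hr2 : 1 ≤ r - g := by omega
  have hE1 : E₁ v = 0 := by
    apply bomAC_eq_zero n₁ _ _ hL1
    have d1 := bomAS_natDegree (F := F) q (r + 1 + g) (r + 1) (by omega) (pα v)
    have d2 := bomAS_natDegree (F := F) q (r + 1) (r - g) hr2 (pβ' v)
    have d3 : (f ^ (r + 1) * bomAS F q (r + 1) (r - g) (pβ' v)).natDegree ≤
        (r + 1) * (2 * g + 1) + (r + 1 - 1 + (r - g - 1) * q) := by
      refine natDegree_mul_le.trans (add_le_add ?_ d2)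
      rw [← hf]
      exact natDegree_pow_le
    have d4 : (E₁ v).natDegree ≤ max (r + 1 + g - 1 + (r + 1 - 1) * q)
        ((r + 1) * (2 * g + 1) + (r + 1 - 1 + (r - g - 1) * q)) :=
      (natDegree_add_le _ _).trans (max_le_max d1 d3)
    refine lt_of_le_of_lt d4 ?_
    obtain ⟨t, rfl⟩ : ∃ t, r = t + g + 1 := ⟨r - g - 1, by omega⟩
    have ht : (g + 1) * (g + 1) ≤ t := by nlinarith
    simp only [q, n₁, show t + g + 1 - g - 1 = t by omega,
      show t + g + 1 + 1 + g - 1 = t + g + 1 + g by omega,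
      show t + g + 1 + 1 - 1 = t + g + 1 by omega]
    apply max_lt <;> nlinarith
  have hE2 : E₂ v = 0 := by
    apply bomAC_eq_zero n₂ _ _ hL2
    have d1 := bomAS_natDegree (F := F) q (r + 1) (r + 1) (by omega) (pα' v)
    have d2 := bomAS_natDegree (F := F) q (r + 1 + g) (r - g) hr2 (pβ v)
    have d3 : (f ^ r * bomAS F q (r + 1 + g) (r - g) (pβ v)).natDegree ≤
        r * (2 * g + 1) + (r + 1 + g - 1 + (r - g - 1) * q) := by
      refine natDegree_mul_le.trans (add_le_add ?_ d2)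
      rw [← hf]
      exact natDegree_pow_le
    have d4 : (E₂ v).natDegree ≤ max (r * (2 * g + 1) + (r + 1 + g - 1 + (r - g - 1) * q))
        (r + 1 - 1 + (r + 1 - 1) * q) :=
      (natDegree_add_le _ _).trans (max_le_max d3 d1)
    refine lt_of_le_of_lt d4 ?_
    obtain ⟨t, rfl⟩ : ∃ t, r = t + g + 1 := ⟨r - g - 1, by omega⟩
    have ht : (g + 1) * (g + 1) ≤ t := by nlinarith
    simp only [q, n₂, show t + g + 1 - g - 1 = t by omega,
      show t + g + 1 + 1 + g - 1 = t + g + 1 + g by omega,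
      show t + g + 1 + 1 - 1 = t + g + 1 by omega]
    apply max_lt <;> nlinarith
  refine ⟨fun i => bomAT F (r + 1) (v.1 i), fun i => bomAT F (r - g) (v.2.1 i),
    fun i => bomAT F (r + 1) (v.2.2.1 i), fun i => bomAT F (r - g) (v.2.2.2 i),
    fun i => bomAT_degree _ _, fun i => bomAT_degree _ _, fun i => bomAT_degree _ _,
    fun i => bomAT_degree _ _, ?_, ?_, ?_⟩
  · by_contra hcon
    push Not at hcon
    obtain ⟨c1, c2, c3, c4⟩ := hcon
    apply hv0
    have e1 : v.1 = 0 := by funext i; exact bomAT_eq_zero _ _ (c1 i)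
    have e2 : v.2.1 = 0 := by funext i; exact bomAT_eq_zero _ _ (c2 i)
    have e3 : v.2.2.1 = 0 := by funext i; exact bomAT_eq_zero _ _ (c3 i)
    have e4 : v.2.2.2 = 0 := by funext i; exact bomAT_eq_zero _ _ (c4 i)
    exact Prod.ext e1 (Prod.ext e2 (Prod.ext e3 e4))
  · rw [← hE1]
    change _ = bomAS F q (r + 1 + g) (r + 1) v.1 + f ^ (r + 1) * bomAS F q (r + 1) (r - g) v.2.2.2
    rw [bomAS_apply, bomAS_apply]
  · rw [← hE2]
    change _ = f ^ r * bomAS F q (r + 1 + g) (r - g) v.2.1 + bomAS F q (r + 1) (r + 1) v.2.2.1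
    rw [bomAS_apply, bomAS_apply]

end BHWeil
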