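import Pool.Agent.Lib.MP_adc574_ag_G2.Basic

/-!
# JOB WBomB: Bombieri's auxiliary function does not vanish; its degree (odd degree `2 g + 1`)

Generalize `Pool/Agent/Lib/MP_adc574_ag_G2/BomB.lean` (the case `g = 2`) from degree `5` to degree
`2 g + 1`. Put `Q = 2 r + 1`. In `A` all nonzero terms have different degrees: `X ^ (Q i) a i` has
degree `Q i + deg (a i)` with `deg (a i) ≤ r`, and `f ^ (r + 1) X ^ (Q i) b' i` has degree
`(2 g + 1) (r + 1) + Q i + deg (b' i) = Q (i + g) + (r + g + 1 + deg (b' i))` with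
`r + g + 1 ≤ r + g + 1 + deg (b' i) ≤ 2 r`. So `A = 0` implies `a = 0` and `b' = 0`.
The same for `B`: degrees `Q i + deg (b i)` with `deg (b i) ≤ r - g - 1` and
`(2 g + 1) r + Q i + deg (a' i) = Q (i + g) + (r - g + deg (a' i))`, `r - g + deg (a' i) ≤ 2 r - g`.
Since `f` has odd degree, `A ^ 2 = f B ^ 2` implies `A = B = 0`.
Degrees: `deg A ≤ 2 r ^ 2 + 2 g r + 3 r + g`, `deg B ≤ 2 r ^ 2 + 2 g r + 3 r`, so
`deg (A ^ 2 - f B ^ 2) ≤ 4 r ^ 2 + 4 g r + 6 r + 2 g + 1`, which is the claim.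
-/

set_option autoImplicit false

namespace BHWeil

open Polynomial Finset

private theorem BomB_uniq {Q i j d d' : ℕ} (hd : d < Q) (hd' : d' < Q)
    (h : Q * i + d = Q * j + d') : i = j ∧ d = d' := by
  have hQ : 0 < Q := by omega
  have h1 : (Q * i + d) / Q = i := by
    rw [Nat.mul_add_div hQ, Nat.div_eq_of_lt hd, add_zero]
  have h2 : (Q * j + d') / Q = j := by
    rw [Nat.mul_add_div hQ, Nat.div_eq_of_lt hd', add_zero]
  have h3 : i = j := by rw [← h1, ← h2, h]
  subst h3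
  exact ⟨rfl, by omega⟩

/-- A sum of polynomials: low parts `X ^ (Q i) a i`, high parts `p X ^ (Q i) b i`. -/
private theorem BomB_zero {F : Type*} [Field F] {r g Q u : ℕ} (hQ : Q = 2 * r + 1) (p : F[X])
    (hp0 : p ≠ 0) (hp : p.natDegree = Q * g + u)
    (a : Fin (r + 1 + g) → F[X]) (b : Fin (r + 1) → F[X]) (k l : ℕ)
    (ha : ∀ i, a i ≠ 0 → (a i).natDegree < k) (hb : ∀ i, b i ≠ 0 → (b i).natDegree < l)
    (hk : k ≤ u) (hl : u + l ≤ Q)
    (h0 : (∑ i : Fin (r + 1 + g), X ^ (Q * (i : ℕ)) * a i) +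
      p * ∑ i : Fin (r + 1), X ^ (Q * (i : ℕ)) * b i = 0) :
    (∀ i, a i = 0) ∧ ∀ i, b i = 0 := by
  classical
  let G : Fin (r + 1 + g) ⊕ Fin (r + 1) → F[X] :=
    Sum.elim (fun i => X ^ (Q * (i : ℕ)) * a i) (fun i => p * (X ^ (Q * (i : ℕ)) * b i))
  have hsum : ∑ j, G j = 0 := by
    rw [Fintype.sum_sum_type, ← h0, Finset.mul_sum]
    rfl
  have hX : ∀ n, (X ^ n : F[X]) ≠ 0 := fun n => pow_ne_zero _ X_ne_zero
  have d1 : ∀ i, a i ≠ 0 → (G (Sum.inl i)).natDegree = Q * (i : ℕ) + (a i).natDegree := by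
    intro i hi
    show (X ^ (Q * (i : ℕ)) * a i).natDegree = _
    rw [natDegree_mul (hX _) hi, natDegree_X_pow]
  have d2 : ∀ i, b i ≠ 0 → (G (Sum.inr i)).natDegree =
      Q * ((i : ℕ) + g) + (u + (b i).natDegree) := by
    intro i hi
    show (p * (X ^ (Q * (i : ℕ)) * b i)).natDegree = _
    rw [natDegree_mul hp0 (mul_ne_zero (hX _) hi), natDegree_mul (hX _) hi, natDegree_X_pow, hp]
    ring
  have z1 : ∀ i, G (Sum.inl i) ≠ 0 → a i ≠ 0 := fun i h h1 => h (by
    show X ^ (Q * (i : ℕ)) * a i = 0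
    rw [h1, mul_zero])
  have z2 : ∀ i, G (Sum.inr i) ≠ 0 → b i ≠ 0 := fun i h h1 => h (by
    show p * (X ^ (Q * (i : ℕ)) * b i) = 0
    rw [h1, mul_zero, mul_zero])
  have hdis : Set.Pairwise {i | i ∈ (Finset.univ : Finset (Fin (r + 1 + g) ⊕ Fin (r + 1))) ∧ G i ≠ 0}
      (Function.onFun Ne (degree ∘ G)) := by
    rintro x ⟨-, hx⟩ y ⟨-, hy⟩ hxy he
    have he' : (G x).degree = (G y).degree := he
    have hn : (G x).natDegree = (G y).natDegree := natDegree_eq_of_degree_eq he'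
    apply hxy
    rcases x with i | i <;> rcases y with j | j
    · have hi := z1 i hx
      have hj := z1 j hy
      rw [d1 i hi, d1 j hj] at hn
      have h1 := ha i hi
      have h2 := ha j hj
      have h3 := BomB_uniq (by omega) (by omega) hn
      rw [Fin.ext h3.1]
    · have hi := z1 i hx
      have hj := z2 j hy
      rw [d1 i hi, d2 j hj] at hn
      have h1 := ha i hi
      have h2 := hb j hj
      have h3 := BomB_uniq (by omega) (by omega) hn
      omega
    · have hi := z2 i hx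
      have hj := z1 j hy
      rw [d2 i hi, d1 j hj] at hn
      have h1 := hb i hi
      have h2 := ha j hj
      have h3 := BomB_uniq (by omega) (by omega) hn
      omega
    · have hi := z2 i hx
      have hj := z2 j hy
      rw [d2 i hi, d2 j hj] at hn
      have h1 := hb i hi
      have h2 := hb j hj
      have h3 := BomB_uniq (by omega) (by omega) hn
      rw [Fin.ext (by omega : (i : ℕ) = (j : ℕ))]
  have hdeg := degree_sum_eq_of_disjoint G Finset.univ hdis
  rw [hsum, degree_zero] at hdeg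
  have hG : ∀ j, G j = 0 := by
    intro j
    have h1 : (G j).degree ≤ ⊥ := by
      rw [hdeg]
      exact Finset.le_sup (f := fun i => (G i).degree) (Finset.mem_univ j)
    exact degree_eq_bot.1 (le_bot_iff.1 h1)
  constructor
  · intro i
    have h1 : X ^ (Q * (i : ℕ)) * a i = 0 := hG (Sum.inl i)
    exact (mul_eq_zero.1 h1).resolve_left (hX _)
  · intro i
    have h1 : p * (X ^ (Q * (i : ℕ)) * b i) = 0 := hG (Sum.inr i)
    exact (mul_eq_zero.1 ((mul_eq_zero.1 h1).resolve_left hp0)).resolve_left (hX _)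

private theorem BomB_deg {F : Type*} [Field F] {r g Q D : ℕ} (p : F[X]) (u : ℕ)
    (hp : p.natDegree ≤ u)
    (a : Fin (r + 1 + g) → F[X]) (b : Fin (r + 1) → F[X]) (k l : ℕ)
    (ha : ∀ i, (a i).natDegree ≤ k) (hb : ∀ i, (b i).natDegree ≤ l)
    (h1 : Q * (r + g) + k ≤ D) (h2 : u + (Q * r + l) ≤ D) :
    ((∑ i : Fin (r + 1 + g), X ^ (Q * (i : ℕ)) * a i) +
      p * ∑ i : Fin (r + 1), X ^ (Q * (i : ℕ)) * b i).natDegree ≤ D := by
  refine (natDegree_add_le _ _).trans (max_le ?_ ?_)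
  · refine natDegree_sum_le_of_forall_le _ _ fun i _ => ?_
    refine natDegree_mul_le.trans ?_
    have h3 : (X ^ (Q * (i : ℕ)) : F[X]).natDegree ≤ Q * (r + g) := by
      rw [natDegree_X_pow]
      exact Nat.mul_le_mul_left _ (by omega)
    have h4 := ha i
    omega
  · refine natDegree_mul_le.trans ?_
    have h3 : (∑ i : Fin (r + 1), X ^ (Q * (i : ℕ)) * b i).natDegree ≤ Q * r + l := by
      refine natDegree_sum_le_of_forall_le _ _ fun i _ => ?_
      refine natDegree_mul_le.trans ?_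
      have h5 : (X ^ (Q * (i : ℕ)) : F[X]).natDegree ≤ Q * r := by
        rw [natDegree_X_pow]
        exact Nat.mul_le_mul_left _ (by omega)
      have h6 := hb i
      omega
    omega

theorem bomB {F : Type*} [Field F] {r g : ℕ} (hr : g + 1 ≤ r) (f : F[X])
    (hf : f.natDegree = 2 * g + 1)
    (a b : Fin (r + 1 + g) → F[X]) (a' b' : Fin (r + 1) → F[X])
    (ha : ∀ i, (a i).degree < (r + 1 : ℕ)) (hb : ∀ i, (b i).degree < (r - g : ℕ))
    (ha' : ∀ i, (a' i).degree < (r + 1 : ℕ)) (hb' : ∀ i, (b' i).degree < (r - g : ℕ))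
    (hne : (∃ i, a i ≠ 0) ∨ (∃ i, b i ≠ 0) ∨ (∃ i, a' i ≠ 0) ∨ (∃ i, b' i ≠ 0))
    (A B : F[X])
    (hA : A = (∑ i : Fin (r + 1 + g), X ^ ((2 * r + 1) * (i : ℕ)) * a i) +
      f ^ (r + 1) * ∑ i : Fin (r + 1), X ^ ((2 * r + 1) * (i : ℕ)) * b' i)
    (hB : B = (∑ i : Fin (r + 1 + g), X ^ ((2 * r + 1) * (i : ℕ)) * b i) +
      f ^ r * ∑ i : Fin (r + 1), X ^ ((2 * r + 1) * (i : ℕ)) * a' i) :
    A ^ 2 - f * B ^ 2 ≠ 0 ∧
      (A ^ 2 - f * B ^ 2).natDegree + 1 ≤ (2 * r + 1) ^ 2 + (2 * g + 1) * (2 * r + 1) := by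
  obtain ⟨s, rfl⟩ : ∃ s, r = g + 1 + s := ⟨r - (g + 1), by omega⟩
  have hf0 : f ≠ 0 := by
    rintro rfl
    simp at hf
  have hfp : ∀ n, (f ^ n).natDegree = n * (2 * g + 1) := fun n => by rw [natDegree_pow, hf]
  have lt : ∀ (g : F[X]) (n : ℕ), g.degree < (n : ℕ) → g ≠ 0 → g.natDegree < n :=
    fun g n h h0 => (natDegree_lt_iff_degree_lt h0).2 h
  have le : ∀ (g : F[X]) (n : ℕ), 1 ≤ n → g.degree < (n : ℕ) → g.natDegree ≤ n - 1 := by
    intro g n hn h
    by_cases h0 : g = 0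
    · rw [h0, natDegree_zero]
      omega
    · have := lt g n h h0
      omega
  have hs : g + 1 + s - g = s + 1 := by omega
  rw [hs] at hb hb'
  constructor
  · intro h0
    have h1 : A ^ 2 = f * B ^ 2 := sub_eq_zero.1 h0
    have hB0 : B = 0 := by
      by_contra hB0
      have hA0 : A ≠ 0 := by
        rintro rfl
        rw [zero_pow two_ne_zero] at h1
        rcases mul_eq_zero.1 h1.symm with h2 | h2
        · exact hf0 h2
        · exact hB0 (pow_eq_zero_iff two_ne_zero |>.1 h2)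
      have h2 := congrArg natDegree h1
      rw [natDegree_pow, natDegree_mul hf0 (pow_ne_zero _ hB0), natDegree_pow, hf] at h2
      omega
    have hA0 : A = 0 := by
      rw [hB0, zero_pow two_ne_zero, mul_zero] at h1
      exact pow_eq_zero_iff two_ne_zero |>.1 h1
    rw [hA] at hA0
    rw [hB] at hB0
    obtain ⟨z1, z4⟩ := BomB_zero (r := g + 1 + s) (g := g) (Q := 2 * (g + 1 + s) + 1)
      (u := (g + 1 + s) + g + 1) rfl (f ^ (g + 1 + s + 1))
      (pow_ne_zero _ hf0) (by rw [hfp]; ring) a b' (g + 1 + s + 1) (s + 1) (fun i => lt _ _ (ha i))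
      (fun i => lt _ _ (hb' i)) (by omega) (by omega) hA0
    obtain ⟨z2, z3⟩ := BomB_zero (r := g + 1 + s) (g := g) (Q := 2 * (g + 1 + s) + 1)
      (u := s + 1) rfl (f ^ (g + 1 + s))
      (pow_ne_zero _ hf0) (by rw [hfp]; ring) b a' (s + 1) (g + 1 + s + 1) (fun i => lt _ _ (hb i))
      (fun i => lt _ _ (ha' i)) (by omega) (by omega) hB0
    rcases hne with ⟨i, hi⟩ | ⟨i, hi⟩ | ⟨i, hi⟩ | ⟨i, hi⟩
    · exact hi (z1 i)
    · exact hi (z2 i)
    · exact hi (z3 i)
    · exact hi (z4 i)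
  · have dA : A.natDegree ≤ 2 * (g + 1 + s) ^ 2 + 2 * g * (g + 1 + s) + 3 * (g + 1 + s) + g := by
      rw [hA]
      refine BomB_deg (g := g) (Q := 2 * (g + 1 + s) + 1) (f ^ (g + 1 + s + 1))
        ((g + 1 + s + 1) * (2 * g + 1)) (by rw [hfp]) a b' (g + 1 + s) s
        (fun i => (le _ _ (by omega) (ha i)).trans (by omega))
        (fun i => (le _ _ (by omega) (hb' i)).trans (by omega)) ?_ ?_
      · nlinarith
      · nlinarith
    have dB : B.natDegree ≤ 2 * (g + 1 + s) ^ 2 + 2 * g * (g + 1 + s) + 3 * (g + 1 + s) := by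
      rw [hB]
      refine BomB_deg (g := g) (Q := 2 * (g + 1 + s) + 1) (f ^ (g + 1 + s))
        ((g + 1 + s) * (2 * g + 1)) (by rw [hfp]) b a' s (g + 1 + s)
        (fun i => (le _ _ (by omega) (hb i)).trans (by omega))
        (fun i => (le _ _ (by omega) (ha' i)).trans (by omega)) ?_ ?_
      · nlinarith
      · nlinarith
    have d1 : (A ^ 2 - f * B ^ 2).natDegree ≤
        4 * (g + 1 + s) ^ 2 + 4 * g * (g + 1 + s) + 6 * (g + 1 + s) + (2 * g + 1) := by
      refine (natDegree_sub_le _ _).trans (max_le ?_ ?_)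
      · rw [natDegree_pow]
        nlinarith
      · refine natDegree_mul_le.trans ?_
        rw [natDegree_pow, hf]
        nlinarith
    nlinarith

end BHWeil
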