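import Pool.Agent.Lib.MP_adc574_ag_G2.Bombieri
import Pool.Agent.Lib.MP_2a816b_nt.BH.WBomA
import Pool.Agent.Lib.MP_2a816b_nt.BH.WBomB

/-!
# JOB WBom: the bound for character sums of polynomials of odd degree over fields with `q ^ 2` elements

Generalize `Pool/Agent/Lib/MP_adc574_ag_G2/BomC.lean` and `Bombieri.lean` (there `g = 2`) to `2 g + 1`
(replace `r + 3` by `r + 1 + g`, `r - 2` by `r - g`), using `BHWeil.bomA` and `BHWeil.bomB`.
`MPadc574G.bomD` and `MPadc574G.cs_C_mul` can be used as they are. From `p ^ k = 2 r + 1` and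
`2 (g + 1) (g + 2) + 1 ≤ p ^ k` one gets `(g + 1) (g + 2) ≤ r`.
-/

set_option autoImplicit false

namespace BHWeil

open Polynomial Finset MPadc574G

private theorem bomCg {F : Type*} [Field F] [Fintype F] {p k r g : ℕ} [Fact p.Prime] [CharP F p]
    (hQ : p ^ k = 2 * r + 1) (hF : Fintype.card F = (p ^ k) ^ 2) (f : F[X])
    (α β : Fin (r + 1 + g) → F[X]) (α' β' : Fin (r + 1) → F[X])
    (h1 : (∑ i : Fin (r + 1 + g), X ^ (i : ℕ) * expand F (2 * r + 1) (α i)) +
        f ^ (r + 1) * ∑ i : Fin (r + 1), X ^ (i : ℕ) * expand F (2 * r + 1) (β' i) = 0)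
    (h2 : f ^ r * (∑ i : Fin (r + 1 + g), X ^ (i : ℕ) * expand F (2 * r + 1) (β i)) +
        ∑ i : Fin (r + 1), X ^ (i : ℕ) * expand F (2 * r + 1) (α' i) = 0)
    (A B : F[X])
    (hA : A = (∑ i : Fin (r + 1 + g), X ^ ((2 * r + 1) * (i : ℕ)) *
        (α i).map (iterateFrobenius F p k)) +
      f ^ (r + 1) * ∑ i : Fin (r + 1), X ^ ((2 * r + 1) * (i : ℕ)) * (β' i).map (iterateFrobenius F p k))
    (hB : B = (∑ i : Fin (r + 1 + g), X ^ ((2 * r + 1) * (i : ℕ)) *
        (β i).map (iterateFrobenius F p k)) +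
      f ^ r * ∑ i : Fin (r + 1), X ^ ((2 * r + 1) * (i : ℕ)) * (α' i).map (iterateFrobenius F p k))
    (x y : F) (hxy : y ^ 2 = f.eval x) : A.eval x + B.eval x * y = 0 := by
  set φ := iterateFrobenius F p k with hφ
  have hφx : ∀ z : F, φ z = z ^ (2 * r + 1) := by
    intro z
    rw [hφ, iterateFrobenius_def, hQ]
  have hφφ : ∀ z : F, φ (φ z) = z := by
    intro z
    rw [hφx, hφx, ← pow_mul, ← pow_two, ← hQ, ← hF]
    exact FiniteField.pow_card z
  have hcomp : φ.comp φ = RingHom.id F := RingHom.ext hφφ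
  have hev : ∀ h : F[X], φ ((h.map φ).eval x) = h.eval (x ^ (2 * r + 1)) := by
    intro h
    rw [← Polynomial.eval_map_apply, Polynomial.map_map, hcomp, Polynomial.map_id, hφx]
  have hxp : ∀ i : ℕ, φ (x ^ ((2 * r + 1) * i)) = x ^ i := by
    intro i
    rw [pow_mul, map_pow, ← hφx, hφφ]
  have e1 := congrArg (Polynomial.eval x) h1
  have e2 := congrArg (Polynomial.eval x) h2
  simp only [eval_add, eval_mul, eval_pow, eval_finsetSum, eval_X, expand_eval, eval_zero] at e1 e2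
  apply φ.injective
  rw [map_zero, map_add, map_mul, hA, hB]
  simp only [eval_add, eval_mul, eval_pow, eval_finsetSum, eval_X, map_add, map_mul, map_sum, hev,
    hxp]
  have hy : φ y = y * (f.eval x) ^ r := by
    rw [hφx, ← hxy, ← pow_mul]
    ring
  have hfr : φ ((f.eval x) ^ r) * φ y = y := by
    have : (f.eval x) ^ r * y = φ y := by rw [hy]; ring
    rw [← map_mul, this, hφφ]
  have hfr1 : φ ((f.eval x) ^ (r + 1)) = (f.eval x) ^ (r + 1) := by
    have h3 : (f.eval x) ^ (r + 1) = y * φ y := by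
      rw [hy, ← hxy]
      ring
    rw [h3, map_mul, hφφ]
    ring
  rw [hfr1]
  linear_combination e1 + y * e2 + (∑ i : Fin (r + 1), x ^ (i : ℕ) * (α' i).eval (x ^ (2 * r + 1))) * hfr +
    (∑ i : Fin (r + 1 + g), x ^ (i : ℕ) * (β i).eval (x ^ (2 * r + 1))) * hy

private theorem bombieri_auxg {F : Type*} [Field F] [Fintype F] [DecidableEq F] {p k g : ℕ}
    [Fact p.Prime]
    [CharP F p] (hp2 : p ≠ 2) (hF : Fintype.card F = (p ^ k) ^ 2)
    (hk : 2 * ((g + 1) * (g + 2)) + 1 ≤ p ^ k) (f : F[X])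
    (hf : f.natDegree = 2 * g + 1) : cs F f ≤ (2 * g + 1 : ℕ) * (p ^ k : ℕ) := by
  have hodd : Odd (p ^ k) := ((Fact.out : p.Prime).odd_of_ne_two hp2).pow
  obtain ⟨r, hr⟩ := hodd
  have hrg : (g + 1) * (g + 2) ≤ r := by omega
  have hrg1 : g + 1 ≤ r := le_trans (Nat.le_mul_of_pos_right _ (by omega)) hrg
  obtain ⟨α, β, α', β', hα, hβ, hα', hβ', hne, h1, h2⟩ := bomA hrg f hf
  have hchar : ringChar F ≠ 2 := by
    rw [ringChar.eq F p]
    exact hp2
  set φ := iterateFrobenius F p k with hφ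
  set A : F[X] := (∑ i : Fin (r + 1 + g), X ^ ((2 * r + 1) * (i : ℕ)) * (α i).map φ) +
      f ^ (r + 1) * ∑ i : Fin (r + 1), X ^ ((2 * r + 1) * (i : ℕ)) * (β' i).map φ with hA
  set B : F[X] := (∑ i : Fin (r + 1 + g), X ^ ((2 * r + 1) * (i : ℕ)) * (β i).map φ) +
      f ^ r * ∑ i : Fin (r + 1), X ^ ((2 * r + 1) * (i : ℕ)) * (α' i).map φ with hB
  have hmap : ∀ h : F[X], h.map φ ≠ 0 ↔ h ≠ 0 := fun h => Polynomial.map_ne_zero_iff φ.injective
  obtain ⟨hN, hdeg⟩ := bomB hrg1 f hf (fun i => (α i).map φ) (fun i => (β i).map φ)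
    (fun i => (α' i).map φ) (fun i => (β' i).map φ)
    (fun i => (degree_map_le).trans_lt (hα i)) (fun i => (degree_map_le).trans_lt (hβ i))
    (fun i => (degree_map_le).trans_lt (hα' i)) (fun i => (degree_map_le).trans_lt (hβ' i))
    (by simpa only [hmap] using hne) A B hA hB
  have h := bomD hchar f A B hN (fun x y hxy => bomCg hr hF f α β α' β' h1 h2 A B hA hB x y hxy)
  rw [hF, hr] at h
  rw [hr]
  have h3 : ((A ^ 2 - f * B ^ 2).natDegree : ℤ) + 1 ≤
      (2 * r + 1) ^ 2 + (2 * g + 1) * (2 * r + 1) := by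
    exact_mod_cast hdeg
  push_cast at h ⊢
  linarith

theorem bombieri {F : Type*} [Field F] [Fintype F] [DecidableEq F] {p k g : ℕ} [Fact p.Prime]
    [CharP F p] (hp2 : p ≠ 2) (hF : Fintype.card F = (p ^ k) ^ 2)
    (hk : 2 * ((g + 1) * (g + 2)) + 1 ≤ p ^ k) (f : F[X])
    (hf : f.natDegree = 2 * g + 1) : |cs F f| ≤ (2 * g + 1 : ℕ) * (p ^ k : ℕ) := by
  have hchar : ringChar F ≠ 2 := by
    rw [ringChar.eq F p]
    exact hp2
  rw [abs_le']
  refine ⟨bombieri_auxg hp2 hF hk f hf, ?_⟩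
  obtain ⟨δ, hδ⟩ := quadraticChar_exists_neg_one hchar
  have hδ0 : δ ≠ 0 := by
    rintro rfl
    simp at hδ
  have h1 := bombieri_auxg hp2 hF hk (C δ * f) (by rw [natDegree_C_mul hδ0, hf])
  rw [cs_C_mul, hδ] at h1
  linarith

end BHWeil
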