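import Pool.Agent.Lib.MP_2a816b_nt.BH.WRec

/-!
# JOB WKl: the multiplicative function of Kloosterman sums

`klf a b g = ψ(- a c_{n-1} - b c_1 / c_0)` for `g = X ^ n + c_{n-1} X ^ (n-1) + ... + c_0` monic with `c_0 ≠ 0`,
where `ψ = ZMod.stdAddChar`. It is multiplicative (`Polynomial.Monic.nextCoeff_mul`; `(g h)_0 = g_0 h_0`,
`(g h)_1 = g_0 h_1 + g_1 h_0`). For `n ≥ 3` and `a ≠ 0` the sum over all monic `g` of degree `n` vanishes:
translate by `t X ^ (n - 1)` (this changes neither `g_0` nor `g_1` since `n - 1 ≥ 2`):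
`Ac n = ψ(- a t) Ac n` for all `t`, and `ψ(- a t) ≠ 1` for some `t` (`ZMod.stdAddChar` is primitive,
`ZMod.isPrimitive_stdAddChar`). Compare `MPadc574G.As_eq_zero` (`RatA.lean`) for the translation of `mon K n`.
-/

set_option autoImplicit false

namespace BHWeil

open Polynomial Finset MPadc574G

noncomputable section

/-- the multiplicative function of the Kloosterman sums -/
def klf {p : ℕ} [Fact p.Prime] (a b : ZMod p) (g : (ZMod p)[X]) : ℂ :=
  if g.coeff 0 = 0 then 0
  else (ZMod.stdAddChar (-(a * g.nextCoeff) - b * g.coeff 1 / g.coeff 0) : ℂ)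

theorem klf_mulFn {p : ℕ} [Fact p.Prime] (a b : ZMod p) : MulFn (klf a b) := by
  constructor
  · unfold klf
    have h1 : (1 : (ZMod p)[X]).coeff 0 = 1 := coeff_one_zero
    have h2 : (1 : (ZMod p)[X]).nextCoeff = 0 := by
      rw [← C_1, nextCoeff_C_eq_zero]
    have h3 : (1 : (ZMod p)[X]).coeff 1 = 0 := by
      rw [coeff_one]
      simp
    rw [h1, h2, h3, if_neg one_ne_zero]
    simp
  · intro g h hg hh
    unfold klf
    rw [mul_coeff_zero, hg.nextCoeff_mul hh, mul_coeff_one]
    by_cases hg0 : g.coeff 0 = 0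
    · simp [hg0]
    · by_cases hh0 : h.coeff 0 = 0
      · simp [hh0]
      · rw [if_neg (mul_ne_zero hg0 hh0), if_neg hg0, if_neg hh0, ← AddChar.map_add_eq_mul]
        congr 1
        field_simp
        ring

theorem WKl_mon_zero {p : ℕ} [Fact p.Prime] : mon (ZMod p) 0 = {1} := by
  ext g
  rw [mem_mon, Finset.mem_singleton]
  constructor
  · rintro ⟨h1, h2⟩
    exact h1.natDegree_eq_zero.1 h2
  · rintro rfl
    exact ⟨monic_one, natDegree_one⟩

theorem Ac_klf_zero {p : ℕ} [Fact p.Prime] (a b : ZMod p) : Ac (klf a b) 0 = 1 := by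
  unfold Ac
  rw [WKl_mon_zero, Finset.sum_singleton]
  exact (klf_mulFn a b).one

theorem Ac_klf_eq_zero {p : ℕ} [Fact p.Prime] (a b : ZMod p) (ha : a ≠ 0) (n : ℕ) (hn : 3 ≤ n) :
    Ac (klf a b) n = 0 := by
  -- some value of the character is not one
  have hex : ∃ t : ZMod p, (ZMod.stdAddChar (-(a * t)) : ℂ) ≠ 1 := by
    have hprim := ZMod.isPrimitive_stdAddChar p
    have h1 := hprim (neg_ne_zero.mpr ha)
    rw [AddChar.ne_one_iff] at h1
    obtain ⟨t, ht⟩ := h1
    refine ⟨t, ?_⟩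
    rw [AddChar.mulShift_apply] at ht
    rwa [neg_mul] at ht
  obtain ⟨t, ht⟩ := hex
  have hmem : ∀ (s : ZMod p) (g : (ZMod p)[X]), g ∈ mon (ZMod p) n →
      g + C s * X ^ (n - 1) ∈ mon (ZMod p) n := by
    intro s g hg
    rw [mem_mon] at hg ⊢
    have hgd : g.degree = n := by rw [degree_eq_natDegree hg.1.ne_zero, hg.2]
    have hlt : (C s * X ^ (n - 1) : (ZMod p)[X]).degree < g.degree := by
      rw [hgd]
      refine lt_of_le_of_lt (degree_C_mul_X_pow_le _ _) ?_
      exact_mod_cast (by omega : n - 1 < n)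
    refine ⟨hg.1.add_of_left hlt, ?_⟩
    rw [natDegree_add_eq_left_of_degree_lt hlt, hg.2]
  have hval : ∀ g ∈ mon (ZMod p) n, klf a b (g + C t * X ^ (n - 1)) =
      (ZMod.stdAddChar (-(a * t)) : ℂ) * klf a b g := by
    intro g hg
    have hg' := hmem t g hg
    rw [mem_mon] at hg hg'
    have c0 : (g + C t * X ^ (n - 1)).coeff 0 = g.coeff 0 := by
      rw [coeff_add, coeff_C_mul_X_pow, if_neg (by omega), add_zero]
    have c1 : (g + C t * X ^ (n - 1)).coeff 1 = g.coeff 1 := by
      rw [coeff_add, coeff_C_mul_X_pow, if_neg (by omega), add_zero]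
    have cn : (g + C t * X ^ (n - 1)).nextCoeff = g.nextCoeff + t := by
      rw [nextCoeff_of_natDegree_pos (by rw [hg'.2]; omega),
        nextCoeff_of_natDegree_pos (by rw [hg.2]; omega), hg'.2, hg.2, coeff_add,
        coeff_C_mul_X_pow, if_pos rfl]
    unfold klf
    rw [c0, c1, cn]
    by_cases h0 : g.coeff 0 = 0
    · simp [h0]
    · rw [if_neg h0, if_neg h0, ← AddChar.map_add_eq_mul]
      congr 1
      ring
  have hshift : ∑ g ∈ mon (ZMod p) n, klf a b (g + C t * X ^ (n - 1)) = Ac (klf a b) n := by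
    refine Finset.sum_nbij' (fun g => g + C t * X ^ (n - 1)) (fun g => g + C (-t) * X ^ (n - 1))
      (fun g hg => hmem t g hg) (fun g hg => hmem (-t) g hg) ?_ ?_ ?_
    · intro g _
      simp only [C_neg]
      ring
    · intro g _
      simp only [C_neg]
      ring
    · intro g _
      rfl
  have hmul : Ac (klf a b) n = (ZMod.stdAddChar (-(a * t)) : ℂ) * Ac (klf a b) n := by
    calc Ac (klf a b) n = ∑ g ∈ mon (ZMod p) n, klf a b (g + C t * X ^ (n - 1)) := hshift.symm
      _ = ∑ g ∈ mon (ZMod p) n, (ZMod.stdAddChar (-(a * t)) : ℂ) * klf a b g :=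
          Finset.sum_congr rfl hval
      _ = (ZMod.stdAddChar (-(a * t)) : ℂ) * Ac (klf a b) n := by
          rw [← Finset.mul_sum]
          rfl
  have h2 : (1 - (ZMod.stdAddChar (-(a * t)) : ℂ)) * Ac (klf a b) n = 0 := by
    linear_combination hmul
  rcases mul_eq_zero.mp h2 with h3 | h3
  · exact absurd (sub_eq_zero.mp h3).symm ht
  · exact h3

end

end BHWeil
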