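import Pool.Agent.Lib.MP_adc574_ag_G2.RatC
import Pool.Agent.Lib.MP_2a816b_nt.BH.WKl

/-!
# JOB WPow: the power sums are Kloosterman sums over the extensions

The same as `cs_eq_Lam` in `Pool/Agent/Lib/MP_adc574_ag_G2/RatC.lean` (group the `x ∈ F`, by minimal polynomial;
`MPadc574G.card_minpoly` gives the number `d` of `x` with a given minimal polynomial of degree `d ∣ j`).
The new point: for `x ∈ F`, `x ≠ 0`, with minimal polynomial `P` over `ZMod p` of degree `d`,
`Tr x = (j / d) (- P.nextCoeff)` (`trace_eq_finrank_mul_minpoly_nextCoeff`) and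
`Tr (x⁻¹) = (j / d) (- P_1 / P_0)` (the minimal polynomial of `x⁻¹` is `P.reverse / P_0`;
`minpoly.eq_of_irreducible_of_monic`, or count with roots), so that
`ψ(Tr(a x + b / x)) = klf a b P ^ (j / d)`. For `x = 0` the minimal polynomial is `X` and `klf a b X = 0`.
-/

set_option autoImplicit false

namespace BHWeil

open Polynomial Finset MPadc574G

noncomputable section

/-- Kloosterman sums over finite fields of characteristic `p` -/
def KF (p : ℕ) [Fact p.Prime] (F : Type*) [Field F] [Fintype F] [DecidableEq F] [Algebra (ZMod p) F]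
    (a b : ZMod p) : ℂ :=
  ∑ x ∈ (univ : Finset F).filter (fun x => x ≠ 0),
    (ZMod.stdAddChar (Algebra.trace (ZMod p) F (algebraMap (ZMod p) F a * x +
      algebraMap (ZMod p) F b * x⁻¹)) : ℂ)

private theorem wpow_adjoin_inv {K F : Type*} [Field K] [Field F] [Algebra K F] (x : F) :
    IntermediateField.adjoin K ({x⁻¹} : Set F) = IntermediateField.adjoin K ({x} : Set F) := by
  apply le_antisymm
  · rw [IntermediateField.adjoin_simple_le_iff]
    exact inv_mem (IntermediateField.mem_adjoin_simple_self K x)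
  · rw [IntermediateField.adjoin_simple_le_iff]
    have h := inv_mem (IntermediateField.mem_adjoin_simple_self K x⁻¹)
    rwa [inv_inv] at h

private theorem wpow_minpoly_inv {K F : Type*} [Field K] [Field F] [Algebra K F]
    [FiniteDimensional K F] {x : F} (hx : x ≠ 0) :
    minpoly K x⁻¹ = C ((minpoly K x).coeff 0)⁻¹ * (minpoly K x).reverse := by
  have hi : IsIntegral K x := Algebra.IsIntegral.isIntegral x
  have hi' : IsIntegral K x⁻¹ := Algebra.IsIntegral.isIntegral x⁻¹
  have h0 : (minpoly K x).coeff 0 ≠ 0 := minpoly.coeff_zero_ne_zero hi hx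
  have htr : (minpoly K x).natTrailingDegree = 0 :=
    Nat.eq_zero_of_le_zero (natTrailingDegree_le_of_ne_zero h0)
  have hdeg : (minpoly K x).reverse.natDegree = (minpoly K x).natDegree := by
    rw [reverse_natDegree, htr, Nat.sub_zero]
  have hlead : (minpoly K x).reverse.leadingCoeff = (minpoly K x).coeff 0 := by
    rw [reverse_leadingCoeff, trailingCoeff, htr]
  have hmon : (C ((minpoly K x).coeff 0)⁻¹ * (minpoly K x).reverse).Monic := by
    rw [Monic, leadingCoeff_mul, leadingCoeff_C, hlead, inv_mul_cancel₀ h0]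
  have hroot : aeval x⁻¹ (C ((minpoly K x).coeff 0)⁻¹ * (minpoly K x).reverse) = 0 := by
    rw [map_mul]
    have h1 : aeval x⁻¹ (minpoly K x).reverse = 0 := by
      let _ : Invertible x := invertibleOfNonzero hx
      have h2 := (eval₂_reverse_eq_zero_iff (algebraMap K F) x (minpoly K x)).2 (by
        have := minpoly.aeval K x
        rwa [aeval_def] at this)
      rw [invOf_eq_inv] at h2
      rw [aeval_def]
      exact h2
    rw [h1, mul_zero]
  have hdvd := minpoly.dvd K x⁻¹ hroot
  have hdeg2 : (C ((minpoly K x).coeff 0)⁻¹ * (minpoly K x).reverse).natDegree =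
      (minpoly K x⁻¹).natDegree := by
    rw [natDegree_C_mul (inv_ne_zero h0), hdeg, ← IntermediateField.adjoin.finrank hi,
      ← IntermediateField.adjoin.finrank hi', wpow_adjoin_inv]
  exact (eq_of_monic_of_dvd_of_natDegree_le (minpoly.monic hi') hmon hdvd hdeg2.le).symm

private theorem wpow_nextCoeff_inv {K F : Type*} [Field K] [Field F] [Algebra K F]
    [FiniteDimensional K F] {x : F} (hx : x ≠ 0) :
    (minpoly K x⁻¹).nextCoeff = (minpoly K x).coeff 1 / (minpoly K x).coeff 0 := by
  have hi : IsIntegral K x := Algebra.IsIntegral.isIntegral x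
  have hi' : IsIntegral K x⁻¹ := Algebra.IsIntegral.isIntegral x⁻¹
  have hpos : 0 < (minpoly K x).natDegree := minpoly.natDegree_pos hi
  have hdeg : (minpoly K x⁻¹).natDegree = (minpoly K x).natDegree := by
    rw [← IntermediateField.adjoin.finrank hi, ← IntermediateField.adjoin.finrank hi',
      wpow_adjoin_inv]
  rw [nextCoeff_of_natDegree_pos (by rw [hdeg]; exact hpos), hdeg, wpow_minpoly_inv hx,
    coeff_C_mul, coeff_reverse, revAt_le (Nat.sub_le _ _), Nat.sub_sub_self hpos]
  field_simp

private theorem wpow_finrank {K F : Type*} [Field K] [Fintype K] [Field F] [Fintype F]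
    [Algebra K F] {j : ℕ} (hF : Fintype.card F = Fintype.card K ^ j) (x : F) :
    Module.finrank (IntermediateField.adjoin K ({x} : Set F)) F =
      j / (minpoly K x).natDegree := by
  have h1 := Module.card_eq_pow_finrank (K := K) (V := F)
  rw [hF] at h1
  have hfr : Module.finrank K F = j :=
    (Nat.pow_right_injective (Fintype.one_lt_card (α := K)) h1).symm
  have hx : IsIntegral K x := Algebra.IsIntegral.isIntegral x
  have hE : Module.finrank K (IntermediateField.adjoin K ({x} : Set F)) =
      (minpoly K x).natDegree :=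
    IntermediateField.adjoin.finrank hx
  rw [← hfr, ← Module.finrank_mul_finrank K (IntermediateField.adjoin K ({x} : Set F)) F, hE]
  rw [Nat.mul_div_cancel_left _ (minpoly.natDegree_pos hx)]

private theorem wpow_trace {K F : Type*} [Field K] [Fintype K] [Field F] [Fintype F]
    [Algebra K F] {j : ℕ} (hF : Fintype.card F = Fintype.card K ^ j) {x : F} (hx : x ≠ 0)
    (a b : K) :
    Algebra.trace K F (algebraMap K F a * x + algebraMap K F b * x⁻¹) =
      (j / (minpoly K x).natDegree) • (-(a * (minpoly K x).nextCoeff) -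
        b * (minpoly K x).coeff 1 / (minpoly K x).coeff 0) := by
  have h1 : Algebra.trace K F x =
      ((j / (minpoly K x).natDegree : ℕ) : K) * -(minpoly K x).nextCoeff := by
    rw [trace_eq_finrank_mul_minpoly_nextCoeff, wpow_finrank hF]
  have h2 : Algebra.trace K F x⁻¹ = ((j / (minpoly K x).natDegree : ℕ) : K) *
      -((minpoly K x).coeff 1 / (minpoly K x).coeff 0) := by
    rw [trace_eq_finrank_mul_minpoly_nextCoeff, wpow_adjoin_inv, wpow_finrank hF,
      wpow_nextCoeff_inv hx]
  rw [map_add, ← Algebra.smul_def, ← Algebra.smul_def, map_smul, map_smul, h1, h2, smul_eq_mul,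
    smul_eq_mul, nsmul_eq_mul]
  ring

theorem KF_eq_Lc {p : ℕ} [Fact p.Prime] {F : Type*} [Field F] [Fintype F] [DecidableEq F]
    [Algebra (ZMod p) F] {j : ℕ} (hj : 0 < j) (hF : Fintype.card F = p ^ j) (a b : ZMod p) :
    KF p F a b = Lc (klf a b) j := by
  classical
  have hF' : Fintype.card F = Fintype.card (ZMod p) ^ j := by rw [ZMod.card, hF]
  have hfr : Module.finrank (ZMod p) F = j := by
    have h1 := Module.card_eq_pow_finrank (K := ZMod p) (V := F)
    rw [hF'] at h1
    exact (Nat.pow_right_injective (Fintype.one_lt_card (α := ZMod p)) h1).symm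
  have hdegm : ∀ x : F, (minpoly (ZMod p) x).natDegree ∣ j := by
    intro x
    exact hfr ▸ minpoly.degree_dvd (Algebra.IsIntegral.isIntegral x)
  have hval : ∀ x : F, (if x ≠ 0 then
      (ZMod.stdAddChar (Algebra.trace (ZMod p) F (algebraMap (ZMod p) F a * x +
        algebraMap (ZMod p) F b * x⁻¹)) : ℂ) else 0) =
      klf a b (minpoly (ZMod p) x) ^ (j / (minpoly (ZMod p) x).natDegree) := by
    intro x
    by_cases hx : x = 0
    · have hpos : 0 < j / (minpoly (ZMod p) x).natDegree :=
        Nat.div_pos (Nat.le_of_dvd hj (hdegm x))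
          (minpoly.natDegree_pos (Algebra.IsIntegral.isIntegral x))
      have hk : klf a b (minpoly (ZMod p) x) = 0 := by
        rw [hx, minpoly.zero]
        unfold klf
        rw [if_pos (coeff_X_zero)]
      rw [if_neg (by simpa using hx), hk, zero_pow hpos.ne']
    · have h0 : (minpoly (ZMod p) x).coeff 0 ≠ 0 :=
        minpoly.coeff_zero_ne_zero (Algebra.IsIntegral.isIntegral x) hx
      rw [if_pos hx]
      unfold klf
      rw [if_neg h0, wpow_trace hF' hx, AddChar.map_nsmul_eq_pow]
  have hdeg : ∀ x ∈ (univ : Finset F), (minpoly (ZMod p) x).natDegree ∈ j.divisors := by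
    intro x _
    rw [Nat.mem_divisors]
    exact ⟨hdegm x, hj.ne'⟩
  rw [KF, Finset.sum_filter, Finset.sum_congr rfl (fun x _ => hval x),
    ← Finset.sum_fiberwise_of_maps_to hdeg, Lc]
  apply Finset.sum_congr rfl
  intro d hd
  rw [Nat.mem_divisors] at hd
  have hmem : ∀ x ∈ (univ : Finset F).filter (fun x => (minpoly (ZMod p) x).natDegree = d),
      minpoly (ZMod p) x ∈ irr (ZMod p) d := by
    intro x hx
    rw [mem_filter] at hx
    rw [mem_irr]
    have hi : IsIntegral (ZMod p) x := Algebra.IsIntegral.isIntegral x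
    exact ⟨minpoly.monic hi, hx.2, minpoly.irreducible hi⟩
  rw [← Finset.sum_fiberwise_of_maps_to hmem]
  apply Finset.sum_congr rfl
  intro P hP
  obtain ⟨hPm, hPd, hPi⟩ := mem_irr.1 hP
  have h1 : ((univ : Finset F).filter (fun x => (minpoly (ZMod p) x).natDegree = d)).filter
      (fun x => minpoly (ZMod p) x = P) = univ.filter (fun x : F => minpoly (ZMod p) x = P) := by
    ext x
    simp only [mem_filter, mem_univ, true_and]
    constructor
    · exact fun h => h.2
    · exact fun h => ⟨by rw [h, hPd], h⟩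
  have hcard : (univ.filter (fun x : F => minpoly (ZMod p) x = P)).card = d := by
    convert card_minpoly hF' hj hd.1 hP
  rw [h1, Finset.sum_congr rfl (g := fun _ => klf a b P ^ (j / d)), Finset.sum_const,
    hcard, nsmul_eq_mul]
  intro x hx
  rw [mem_filter] at hx
  rw [hx.2, hPd]

/-- the two roots -/
theorem exists_roots {p : ℕ} [Fact p.Prime] (a b : ZMod p) (ha : a ≠ 0) :
    ∃ α : Fin 2 → ℂ, ∀ (j : ℕ), 0 < j → ∀ (F : Type) [Field F] [Fintype F] [DecidableEq F]
      [Algebra (ZMod p) F], Fintype.card F = p ^ j → KF p F a b = -∑ i, α i ^ j := by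
  obtain ⟨α, hα⟩ := newton2 (Ac (klf a b)) (Lc (klf a b)) (Ac_klf_zero a b)
    (Ac_klf_eq_zero a b ha) (recursionC (klf a b) (klf_mulFn a b))
  refine ⟨α, ?_⟩
  intro j hj F _ _ _ _ hF
  rw [KF_eq_Lc hj hF, hα j hj]

end

end BHWeil
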