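import Pool.Agent.Lib.MP_adc574_ag_G2.RatB

/-!
# JOB WRec: the recursion between coefficients and power sums, for any multiplicative function

The same as `recursion` in `Pool/Agent/Lib/MP_adc574_ag_G2/RatB.lean`, with `ch S` replaced by a function
`f : K[X] → ℂ` with `f 1 = 1` and `f (g h) = f g f h` for monic `g`, `h` (all polynomials that occur are monic).
`MPadc574G.degree_eq` can be used as it is (cast to `ℂ`). Newton's identities for two roots: `α 0`, `α 1` are the
roots of `X ^ 2 + A 1 X + A 2` (so `A 1 = - (α 0 + α 1)`, `A 2 = α 0 α 1`); then the recursion gives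
`L 1 = A 1`, `L 2 = 2 A 2 - L 1 A 1`, `L (m + 3) = - (L (m + 2) A 1 + L (m + 1) A 2)`.
-/

set_option autoImplicit false

namespace BHWeil

open Polynomial Finset MPadc574G

noncomputable section

/-- multiplicative functions on monic polynomials -/
structure MulFn {K : Type*} [Field K] (f : K[X] → ℂ) : Prop where
  one : f 1 = 1
  mul : ∀ g h : K[X], g.Monic → h.Monic → f (g * h) = f g * f h

/-- coefficients of the `L`-polynomial -/
def Ac {K : Type*} [Field K] [Fintype K] (f : K[X] → ℂ) (n : ℕ) : ℂ := ∑ g ∈ mon K n, f g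

/-- power sums -/
def Lc {K : Type*} [Field K] [Fintype K] (f : K[X] → ℂ) (j : ℕ) : ℂ :=
  ∑ d ∈ j.divisors, ∑ P ∈ irr K d, (d : ℂ) * f P ^ (j / d)

private theorem mulFn_pow {K : Type*} [Field K] {f : K[X] → ℂ} (hf : MulFn f) {P : K[X]}
    (hP : P.Monic) (n : ℕ) : f (P ^ n) = f P ^ n := by
  induction n with
  | zero => rw [pow_zero, pow_zero, hf.one]
  | succ n ih => rw [pow_succ, hf.mul _ _ (hP.pow n) hP, ih, pow_succ]

/-- the sum over the multiples of a monic polynomial -/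
private theorem sum_mulC {K : Type*} [Field K] [Fintype K] [DecidableEq K] {f : K[X] → ℂ}
    (hf : MulFn f) {n m : ℕ} {R : K[X]} (hR : R ∈ mon K m) (hmn : m ≤ n) : by
      classical
      exact ∑ g ∈ mon K n, (if R ∣ g then f g else 0) = f R * Ac f (n - m) := by
  classical
  obtain ⟨hRm, hRn⟩ := mem_mon.1 hR
  rw [← Finset.sum_filter, Ac, Finset.mul_sum]
  symm
  refine Finset.sum_bij (fun h _ => R * h) ?_ ?_ ?_ ?_
  · intro h hh
    obtain ⟨hhm, hhn⟩ := mem_mon.1 hh
    rw [mem_filter, mem_mon]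
    refine ⟨⟨hRm.mul hhm, ?_⟩, dvd_mul_right _ _⟩
    rw [hRm.natDegree_mul hhm, hRn, hhn]
    omega
  · intro a _ b _ hab
    exact mul_left_cancel₀ hRm.ne_zero hab
  · intro g hg
    rw [mem_filter, mem_mon] at hg
    obtain ⟨⟨hgm, hgn⟩, h, rfl⟩ := hg
    have hhm : h.Monic := hRm.of_mul_monic_left hgm
    refine ⟨h, ?_, rfl⟩
    rw [mem_mon]
    refine ⟨hhm, ?_⟩
    rw [hRm.natDegree_mul hhm, hRn] at hgn
    omega
  · intro h hh
    obtain ⟨hhm, -⟩ := mem_mon.1 hh
    rw [hf.mul _ _ hRm hhm]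

theorem recursionC {K : Type*} [Field K] [Fintype K] [DecidableEq K] (f : K[X] → ℂ) (hf : MulFn f)
    (n : ℕ) : (n : ℂ) * Ac f n = ∑ j ∈ Icc 1 n, Lc f j * Ac f (n - j) := by
  classical
  have h1 : (n : ℂ) * Ac f n = ∑ g ∈ mon K n, ∑ j ∈ Icc 1 n, ∑ d ∈ j.divisors,
      ∑ P ∈ irr K d, (d : ℂ) * (if P ^ (j / d) ∣ g then f g else 0) := by
    rw [Ac, Finset.mul_sum]
    apply Finset.sum_congr rfl
    intro g hg
    have h2 : (n : ℂ) = ∑ j ∈ Icc 1 n, ∑ d ∈ j.divisors, ∑ P ∈ irr K d,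
        if P ^ (j / d) ∣ g then (d : ℂ) else 0 := by
      have h3 := congrArg (fun z : ℤ => (z : ℂ)) (degree_eq hg)
      simp only [Int.cast_natCast, Int.cast_sum] at h3
      rw [h3]
      apply Finset.sum_congr rfl
      intro j _
      apply Finset.sum_congr rfl
      intro d _
      apply Finset.sum_congr rfl
      intro P _
      split_ifs <;> simp
    rw [h2, Finset.sum_mul]
    apply Finset.sum_congr rfl
    intro j _
    rw [Finset.sum_mul]
    apply Finset.sum_congr rfl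
    intro d _
    rw [Finset.sum_mul]
    apply Finset.sum_congr rfl
    intro P _
    split_ifs <;> simp
  rw [h1, Finset.sum_comm]
  apply Finset.sum_congr rfl
  intro j hj
  rw [mem_Icc] at hj
  rw [Finset.sum_comm, Lc, Finset.sum_mul]
  apply Finset.sum_congr rfl
  intro d hd
  rw [Nat.mem_divisors] at hd
  rw [Finset.sum_comm, Finset.sum_mul]
  apply Finset.sum_congr rfl
  intro P hP
  obtain ⟨hPm, hPd, hPi⟩ := mem_irr.1 hP
  rw [← Finset.mul_sum, sum_mulC hf (m := j) ?_ hj.2, mulFn_pow hf hPm]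
  · ring
  · rw [mem_mon]
    refine ⟨hPm.pow _, ?_⟩
    rw [hPm.natDegree_pow, hPd]
    exact Nat.div_mul_cancel hd.1

theorem newton2 (A L : ℕ → ℂ) (h0 : A 0 = 1) (h3 : ∀ n, 3 ≤ n → A n = 0)
    (hrec : ∀ n : ℕ, (n : ℂ) * A n = ∑ j ∈ Icc 1 n, L j * A (n - j)) :
    ∃ α : Fin 2 → ℂ, ∀ j, 0 < j → L j = -∑ i, α i ^ j := by
  -- the roots of the quadratic
  obtain ⟨s, hs⟩ : ∃ s : ℂ, s ^ 2 = A 1 ^ 2 - 4 * A 2 :=
    IsAlgClosed.exists_pow_nat_eq _ two_pos
  have e1 : L 1 = A 1 := by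
    have := hrec 1
    simp [h0] at this
    exact this.symm
  have e2 : L 2 = 2 * A 2 - L 1 * A 1 := by
    have := hrec 2
    rw [show Icc 1 2 = {1, 2} by rfl, Finset.sum_pair (by norm_num)] at this
    norm_num [h0] at this
    linear_combination -this
  have e3 : ∀ m : ℕ, L (m + 3) = -(L (m + 2) * A 1 + L (m + 1) * A 2) := by
    intro m
    have := hrec (m + 3)
    rw [h3 (m + 3) (by omega), mul_zero, Finset.sum_Icc_succ_top (by omega),
      Finset.sum_Icc_succ_top (by omega), Finset.sum_Icc_succ_top (by omega)] at this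
    have hz : ∑ j ∈ Icc 1 m, L j * A (m + 3 - j) = 0 := by
      apply Finset.sum_eq_zero
      intro j hj
      rw [mem_Icc] at hj
      rw [h3 _ (by omega), mul_zero]
    rw [hz, show m + 3 - (m + 1) = 2 by omega, show m + 3 - (m + 1 + 1) = 1 by omega,
      show m + 3 - (m + 2 + 1) = 0 by omega, h0] at this
    have h4 : L (m + 2 + 1) = L (m + 3) := rfl
    have h5 : L (m + 1 + 1) = L (m + 2) := rfl
    rw [h4, h5] at this
    linear_combination -this
  refine ⟨![(-A 1 + s) / 2, (-A 1 - s) / 2], ?_⟩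
  set x := (-A 1 + s) / 2 with hx
  set y := (-A 1 - s) / 2 with hy
  have hxy : x + y = -A 1 := by rw [hx, hy]; ring
  have hxy2 : x * y = A 2 := by
    rw [hx, hy]
    linear_combination (-1 / 4 : ℂ) * hs
  have main : ∀ m : ℕ, L (m + 1) = -(x ^ (m + 1) + y ^ (m + 1)) ∧
      L (m + 2) = -(x ^ (m + 2) + y ^ (m + 2)) := by
    intro m
    induction m with
    | zero =>
      refine ⟨?_, ?_⟩
      · rw [zero_add, e1]
        linear_combination -hxy
      · rw [zero_add, e2, e1]
        linear_combination (x + y - A 1) * hxy - 2 * hxy2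
    | succ m ih =>
      refine ⟨ih.2, ?_⟩
      rw [show m + 1 + 2 = m + 3 by ring, e3, ih.1, ih.2]
      have h1 : A 1 = -(x + y) := by linear_combination -hxy
      rw [h1, ← hxy2]
      ring
  intro j hj
  obtain ⟨m, rfl⟩ : ∃ m, j = m + 1 := ⟨j - 1, by omega⟩
  rw [(main m).1, Fin.sum_univ_two]
  simp

end

end BHWeil
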